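import Pool.Agent.RFA.Defs

set_option autoImplicit false
set_option linter.unusedSectionVars false

namespace Pool.Agent.RFA

open Topology Module

variable {p : ℕ} [Fact p.Prime] {G : Type} [Group G] [TopologicalSpace G] [IsTopologicalGroup G]

theorem Lift_lc_pair {α β : Type*} {f : G → α} {g : G → β} (hf : IsLocallyConstant f)
    (hg : IsLocallyConstant g) : IsLocallyConstant (fun x : G × G => (f x.1, g x.2)) :=
  (hf.comp_continuous continuous_fst).prodMk (hg.comp_continuous continuous_snd)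

theorem Lift_card (M : Type) [AddCommGroup M] [Finite M] (hp : ∀ x : M, p • x = 0) :
    ∃ n, Nat.card M = p ^ n := by
  obtain ⟨inst⟩ : Nonempty (Module (ZMod p) M) := ⟨AddCommGroup.zmodModule hp⟩
  have hf : Module.Finite (ZMod p) M := Module.Finite.of_finite
  refine ⟨finrank (ZMod p) M, ?_⟩
  have h := Module.natCard_eq_pow_finrank (K := ZMod p) (V := M)
  rw [h, Nat.card_zmod]

/-- cup products of 1-cocycles are coboundaries -/
theorem bilin_lift (hG : H2zero p G) {M₁ M₂ M₃ : Type} [AddCommGroup M₁] [AddCommGroup M₂]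
    [AddCommGroup M₃] [Finite M₃] (h3 : ∃ n, Nat.card M₃ = p ^ n)
    (a₁ : G →* AddMonoid.End M₁) (a₂ : G →* AddMonoid.End M₂) (a₃ : G →* AddMonoid.End M₃)
    (ha₂ : IsLocallyConstant fun g => a₂ g) (ha₃ : IsLocallyConstant fun g => a₃ g)
    (μ : M₁ →+ M₂ →+ M₃) (hμ : ∀ g x y, μ (a₁ g x) (a₂ g y) = a₃ g (μ x y))
    (f : G → M₁) (hf : IsLocallyConstant f) (hf' : ∀ x y, f (x * y) = f x + a₁ x (f y))
    (g : G → M₂) (hg : IsLocallyConstant g) (hg' : ∀ x y, g (x * y) = g x + a₂ x (g y)) :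
    ∃ h : G → M₃, IsLocallyConstant h ∧
      ∀ x y, h (x * y) = h x + a₃ x (h y) + μ (f x) (a₂ x (g y)) := by
  obtain ⟨h, h1, h2⟩ := hG M₃ a₃ h3 ha₃ (fun x y => - μ (f x) (a₂ x (g y)))
    (by
      have hl := Lift_lc_pair (hf.prodMk ha₂) hg
      exact hl.comp (fun t : (M₁ × AddMonoid.End M₂) × M₂ => - μ t.1.1 (t.1.2 t.2)))
    (by
      intro x y z
      rw [map_neg, ← hμ, hg' y z, hf' x y, map_mul a₂, map_add (a₂ x), map_add (μ (f x)),
        map_add μ, AddMonoidHom.add_apply]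
      change -(μ (a₁ x (f y)) (a₂ x (a₂ y (g z)))) +
        -(μ (f x) (a₂ x (g y)) + μ (f x) (a₂ x (a₂ y (g z)))) =
        -(μ (f x) (a₂ x (a₂ y (g z))) + μ (a₁ x (f y)) (a₂ x (a₂ y (g z)))) +
          -(μ (f x) (a₂ x (g y)))
      abel)
  refine ⟨h, h1, fun x y => ?_⟩
  have := h2 x y
  have e : h (x * y) = h x + a₃ x (h y) - - μ (f x) (a₂ x (g y)) := by
    rw [this]; abel
  rw [e, sub_neg_eq_add]

theorem cup_exists (hG : H2zero p G) {f g : G → ZMod p} (hf : f ∈ Hom1 p G) (hg : g ∈ Hom1 p G) :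
    ∃ h, IsCup p f g h := by
  obtain ⟨h, h1, h2⟩ := hG (ZMod p) 1 ⟨1, by simp⟩ (IsLocallyConstant.const _)
    (fun x y => - (f x * g y))
    ((Lift_lc_pair hf.1 hg.1).comp (fun t : ZMod p × ZMod p => - (t.1 * t.2)))
    (by
      intro x y z
      rw [hf.2, hg.2]
      change -(f y * g z) + -(f x * (g y + g z)) = -((f x + f y) * g z) + -(f x * g y)
      ring)
  refine ⟨h, h1, fun x y => ?_⟩
  have h3 : -(f x * g y) = h x + h y - h (x * y) := h2 x y
  linear_combination h3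

/-- cocycles lift along surjections of coefficient rings -/
theorem coc_lift (hG : H2zero p G) {Λ Λ' : Type} [CommRing Λ] [Finite Λ] [Algebra (ZMod p) Λ]
    [CommRing Λ'] (f : Λ →+* Λ') (hf : Function.Surjective f) (T : G →* Λ)
    (hT : IsLocallyConstant T) (T' : G →* Λ') (hT' : ∀ x, T' x = f (T x)) (Θ' : G → Λ')
    (hΘ' : Θ' ∈ Coc T') : ∃ Θ ∈ Coc T, ∀ x, f (Θ x) = Θ' x := by
  obtain ⟨s, hs⟩ := hf.hasRightInverse
  have hcard : ∃ n, Nat.card ↥(RingHom.ker f) = p ^ n := by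
    have hp : ∀ x : ↥(RingHom.ker f), p • x = 0 := by
      intro x
      apply Subtype.ext
      have h1 : ((p • x : ↥(RingHom.ker f)) : Λ) = p • (x : Λ) := by
        simp
      rw [h1, nsmul_eq_mul]
      have h2 : ((p : ℕ) : Λ) = 0 := by
        rw [← map_natCast (algebraMap (ZMod p) Λ), ZMod.natCast_self, map_zero]
      rw [h2, zero_mul]
      rfl
    exact Lift_card ↥(RingHom.ker f) hp
  have hmem : ∀ x y, s (Θ' x) + T x * s (Θ' y) - s (Θ' (x * y)) ∈ RingHom.ker f := by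
    intro x y
    rw [RingHom.mem_ker, map_sub, map_add, map_mul, hs, hs, hs, hΘ'.2, hT']
    ring
  obtain ⟨h, h1, h2⟩ := hG ↥(RingHom.ker f)
    ((DistribMulAction.toAddMonoidEnd Λ ↥(RingHom.ker f)).comp T) hcard
    (hT.comp (fun t => DistribMulAction.toAddMonoidEnd Λ ↥(RingHom.ker f) t))
    (fun x y => ⟨s (Θ' x) + T x * s (Θ' y) - s (Θ' (x * y)), hmem x y⟩)
    (by
      have e1 : IsLocallyConstant (fun x : G × G => Θ' x.1) :=
        hΘ'.1.comp_continuous continuous_fst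
      have e2 : IsLocallyConstant (fun x : G × G => T x.1) :=
        hT.comp_continuous continuous_fst
      have e3 : IsLocallyConstant (fun x : G × G => Θ' x.2) :=
        hΘ'.1.comp_continuous continuous_snd
      have e4 : IsLocallyConstant (fun x : G × G => Θ' (x.1 * x.2)) :=
        hΘ'.1.comp_continuous continuous_mul
      have hl : IsLocallyConstant
          (fun x : G × G => s (Θ' x.1) + T x.1 * s (Θ' x.2) - s (Θ' (x.1 * x.2))) :=
        ((e1.prodMk e2).prodMk (e3.prodMk e4)).comp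
          (fun t : (Λ' × Λ) × (Λ' × Λ') => s t.1.1 + t.1.2 * s t.2.1 - s t.2.2)
      rw [IsLocallyConstant.iff_exists_open] at hl ⊢
      intro x
      obtain ⟨U, hU, hxU, h⟩ := hl x
      exact ⟨U, hU, hxU, fun y hy => Subtype.ext (h y hy)⟩)
    (by
      intro x y z
      apply Subtype.ext
      change T x * (s (Θ' y) + T y * s (Θ' z) - s (Θ' (y * z))) +
        (s (Θ' x) + T x * s (Θ' (y * z)) - s (Θ' (x * (y * z)))) =
        (s (Θ' (x * y)) + T (x * y) * s (Θ' z) - s (Θ' (x * y * z))) +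
        (s (Θ' x) + T x * s (Θ' y) - s (Θ' (x * y)))
      rw [map_mul, mul_assoc x y z]
      ring)
  refine ⟨fun x => s (Θ' x) - (h x : Λ), ⟨?_, ?_⟩, ?_⟩
  · exact (hΘ'.1.prodMk h1).comp (fun t : Λ' × ↥(RingHom.ker f) => s t.1 - (t.2 : Λ))
  · intro x y
    have h3 := congrArg Subtype.val (h2 x y)
    have h4 : s (Θ' x) + T x * s (Θ' y) - s (Θ' (x * y)) =
      (h x : Λ) + T x * (h y : Λ) - (h (x * y) : Λ) := h3
    linear_combination (-1 : Λ) * h4
  · intro x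
    rw [map_sub, hs, (RingHom.mem_ker).1 (h x).2, sub_zero]

/-- one step of the lifting to `ℤ_p` -/
theorem Lift_step (hG : H2zero p G) (n : ℕ) (φ : G → ℤ_[p]) (hφ : IsLocallyConstant φ)
    (hφ' : ∀ x y, (p : ℤ_[p]) ^ n ∣ φ x + φ y - φ (x * y)) :
    ∃ ψ : G → ℤ_[p], IsLocallyConstant ψ ∧
      (∀ x y, (p : ℤ_[p]) ^ (n + 1) ∣ ψ x + ψ y - ψ (x * y)) ∧
      ∀ x, (p : ℤ_[p]) ^ n ∣ ψ x - φ x := by
  classical
  have hp0 : (p : ℤ_[p]) ^ n ≠ 0 := pow_ne_zero _ (by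
    exact_mod_cast (Fact.out : p.Prime).ne_zero)
  choose! q hq using fun (z : ℤ_[p]) (hz : (p : ℤ_[p]) ^ n ∣ z) => hz
  obtain ⟨h, h1, h2⟩ := hG (ZMod p) 1 ⟨1, by simp⟩ (IsLocallyConstant.const _)
    (fun x y => PadicInt.toZMod (q (φ x + φ y - φ (x * y))))
    (by
      have e1 : IsLocallyConstant (fun x : G × G => φ x.1) := hφ.comp_continuous continuous_fst
      have e3 : IsLocallyConstant (fun x : G × G => φ x.2) := hφ.comp_continuous continuous_snd
      have e4 : IsLocallyConstant (fun x : G × G => φ (x.1 * x.2)) :=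
        hφ.comp_continuous continuous_mul
      exact (e1.prodMk (e3.prodMk e4)).comp
        (fun t : ℤ_[p] × (ℤ_[p] × ℤ_[p]) => PadicInt.toZMod (q (t.1 + t.2.1 - t.2.2))))
    (by
      intro x y z
      change PadicInt.toZMod (q (φ y + φ z - φ (y * z))) +
        PadicInt.toZMod (q (φ x + φ (y * z) - φ (x * (y * z)))) =
        PadicInt.toZMod (q (φ (x * y) + φ z - φ (x * y * z))) +
        PadicInt.toZMod (q (φ x + φ y - φ (x * y)))
      rw [← map_add, ← map_add]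
      congr 1
      apply mul_left_cancel₀ hp0
      rw [mul_add, mul_add, ← hq _ (hφ' y z), ← hq _ (hφ' x (y * z)), ← hq _ (hφ' (x * y) z),
        ← hq _ (hφ' x y), mul_assoc]
      ring)
  refine ⟨fun x => φ x - (p : ℤ_[p]) ^ n * ((h x).val : ℤ_[p]), ?_, ?_, ?_⟩
  · exact (hφ.prodMk h1).comp
      (fun t : ℤ_[p] × ZMod p => t.1 - (p : ℤ_[p]) ^ n * ((t.2).val : ℤ_[p]))
  · intro x y
    have h3 : PadicInt.toZMod (q (φ x + φ y - φ (x * y))) = h x + h y - h (x * y) := h2 x y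
    have h4 : (p : ℤ_[p]) ∣ q (φ x + φ y - φ (x * y)) - ((h x).val : ℤ_[p]) -
        ((h y).val : ℤ_[p]) + ((h (x * y)).val : ℤ_[p]) := by
      rw [← Ideal.mem_span_singleton, ← PadicInt.maximalIdeal_eq_span_p, ← PadicInt.ker_toZMod,
        RingHom.mem_ker, map_add, map_sub, map_sub, h3]
      rw [map_natCast, map_natCast, map_natCast, ZMod.natCast_zmod_val, ZMod.natCast_zmod_val,
        ZMod.natCast_zmod_val]
      ring
    obtain ⟨t, ht⟩ := h4
    refine ⟨t, ?_⟩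
    have h5 := hq _ (hφ' x y)
    rw [pow_succ, mul_assoc, ← ht]
    linear_combination h5
  · intro x
    exact ⟨-((h x).val : ℤ_[p]), by ring⟩

/-- homomorphisms to `ZMod p` lift to `ℤ_p` -/
theorem zlift (hG : H2zero p G) {f : G → ZMod p} (hf : f ∈ Hom1 p G) :
    ∃ φ : Z1 p G, ∀ x, PadicInt.toZMod ((φ : G → ℤ_[p]) x) = f x := by
  classical
  -- the sequence
  have hstart : ∃ φ : G → ℤ_[p], IsLocallyConstant φ ∧
      (∀ x y, (p : ℤ_[p]) ^ 1 ∣ φ x + φ y - φ (x * y)) ∧ ∀ x, PadicInt.toZMod (φ x) = f x := by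
    refine ⟨fun x => ((f x).val : ℤ_[p]), hf.1.comp (fun t : ZMod p => ((t).val : ℤ_[p])), ?_, ?_⟩
    · intro x y
      rw [pow_one, ← Ideal.mem_span_singleton, ← PadicInt.maximalIdeal_eq_span_p,
        ← PadicInt.ker_toZMod, RingHom.mem_ker, map_sub, map_add]
      simp [hf.2]
    · intro x
      simp
  obtain ⟨φ₁, ha, hb, hc⟩ := hstart
  let S := {t : ℕ × (G → ℤ_[p]) // IsLocallyConstant t.2 ∧
    ∀ x y, (p : ℤ_[p]) ^ (t.1 + 1) ∣ t.2 x + t.2 y - t.2 (x * y)}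
  have hstep : ∀ t : S, ∃ t' : S, t'.1.1 = t.1.1 + 1 ∧
      ∀ x, (p : ℤ_[p]) ^ (t.1.1 + 1) ∣ t'.1.2 x - t.1.2 x := by
    rintro ⟨⟨n, φ⟩, h1, h2⟩
    obtain ⟨ψ, h3, h4, h5⟩ := Lift_step hG (n + 1) φ h1 h2
    exact ⟨⟨⟨n + 1, ψ⟩, h3, h4⟩, rfl, h5⟩
  choose nx hnx hnx' using hstep
  let seq : ℕ → S := fun n => Nat.rec ⟨⟨0, φ₁⟩, ha, hb⟩ (fun _ t => nx t) n
  have hseq0 : seq 0 = ⟨⟨0, φ₁⟩, ha, hb⟩ := rfl
  have hseqs : ∀ n, seq (n + 1) = nx (seq n) := fun n => rfl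
  have hidx : ∀ n, (seq n).1.1 = n := by
    intro n
    induction n with
    | zero => rfl
    | succ n ih => rw [hseqs, hnx, ih]
  let φ : ℕ → G → ℤ_[p] := fun n => (seq n).1.2
  have hlc : ∀ n, IsLocallyConstant (φ n) := fun n => (seq n).2.1
  have hadd : ∀ n x y, (p : ℤ_[p]) ^ (n + 1) ∣ φ n x + φ n y - φ n (x * y) := by
    intro n x y
    have := (seq n).2.2 x y
    rwa [hidx] at this
  have hdiff : ∀ n x, (p : ℤ_[p]) ^ (n + 1) ∣ φ (n + 1) x - φ n x := by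
    intro n x
    have := hnx' (seq n) x
    rwa [hidx] at this
  have hp1 : (1 : ℝ) < p := by exact_mod_cast (Fact.out : p.Prime).one_lt
  have hr0 : (0 : ℝ) ≤ (p : ℝ)⁻¹ := by positivity
  have hr1 : (p : ℝ)⁻¹ < 1 := inv_lt_one_of_one_lt₀ hp1
  have hnorm : ∀ (n : ℕ) (z : ℤ_[p]), (p : ℤ_[p]) ^ n ∣ z → ‖z‖ ≤ ((p : ℝ)⁻¹) ^ n := by
    rintro n z ⟨w, rfl⟩
    rw [norm_mul, norm_pow, PadicInt.norm_p]
    have := PadicInt.norm_le_one w
    calc ((p : ℝ)⁻¹) ^ n * ‖w‖ ≤ ((p : ℝ)⁻¹) ^ n * 1 :=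
          mul_le_mul_of_nonneg_left this (by positivity)
      _ = _ := mul_one _
  have hd : ∀ n x, dist (φ n x) (φ (n + 1) x) ≤ (p : ℝ)⁻¹ * ((p : ℝ)⁻¹) ^ n := by
    intro n x
    rw [dist_comm, dist_eq_norm]
    have := hnorm _ _ (hdiff n x)
    rwa [pow_succ, mul_comm] at this
  have hlim : ∀ x, ∃ z, Filter.Tendsto (fun n => φ n x) Filter.atTop (𝓝 z) := by
    intro x
    exact cauchySeq_tendsto_of_complete (cauchySeq_of_le_geometric _ _ hr1 (fun n => hd n x))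
  choose ψ hψ using hlim
  have hcont : Continuous ψ := by
    have hu : TendstoUniformly φ ψ Filter.atTop := by
      rw [Metric.tendstoUniformly_iff]
      intro ε hε
      have ht : Filter.Tendsto (fun n : ℕ => (p : ℝ)⁻¹ * ((p : ℝ)⁻¹) ^ n / (1 - (p : ℝ)⁻¹))
          Filter.atTop (𝓝 ((p : ℝ)⁻¹ * 0 / (1 - (p : ℝ)⁻¹))) :=
        ((tendsto_pow_atTop_nhds_zero_of_lt_one hr0 hr1).const_mul _).div_const _
      rw [mul_zero, zero_div] at ht
      filter_upwards [ht.eventually (gt_mem_nhds hε)] with n hn x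
      rw [dist_comm]
      exact (dist_le_of_le_geometric_of_tendsto _ _ hr1 (fun n => hd n x) (hψ x) n).trans_lt hn
    exact hu.continuous (Filter.Frequently.of_forall (fun n => (hlc n).continuous))
  have hψadd : ∀ x y, ψ (x * y) = ψ x + ψ y := by
    intro x y
    have h1 : Filter.Tendsto (fun n => φ n x + φ n y - φ n (x * y)) Filter.atTop
        (𝓝 (ψ x + ψ y - ψ (x * y))) := ((hψ x).add (hψ y)).sub (hψ (x * y))
    have h2 : Filter.Tendsto (fun n => φ n x + φ n y - φ n (x * y)) Filter.atTop (𝓝 0) := by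
      apply squeeze_zero_norm (a := fun n : ℕ => ((p : ℝ)⁻¹) ^ (n + 1))
      · intro n
        exact hnorm _ _ (hadd n x y)
      · exact (tendsto_pow_atTop_nhds_zero_of_lt_one hr0 hr1).comp (Filter.tendsto_add_atTop_nat 1)
    have h3 := tendsto_nhds_unique h1 h2
    exact (sub_eq_zero.1 h3).symm
  refine ⟨⟨ψ, hcont, hψadd⟩, fun x => ?_⟩
  change PadicInt.toZMod (ψ x) = f x
  have h1 : ∀ n, ‖φ n x - φ₁ x‖ ≤ (p : ℝ)⁻¹ := by
    intro n
    have h2 : (p : ℤ_[p]) ^ 1 ∣ φ n x - φ₁ x := by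
      induction n with
      | zero => 
        change (p : ℤ_[p]) ^ 1 ∣ φ₁ x - φ₁ x
        rw [sub_self]; exact dvd_zero _
      | succ n ih =>
        have h3 : φ (n + 1) x - φ₁ x = (φ (n + 1) x - φ n x) + (φ n x - φ₁ x) := by ring
        rw [h3]
        exact dvd_add ((pow_dvd_pow _ (by omega)).trans (hdiff n x)) ih
    have := hnorm _ _ h2
    rwa [pow_one] at this
  have h2 : ‖ψ x - φ₁ x‖ ≤ (p : ℝ)⁻¹ :=
    le_of_tendsto ((hψ x).sub_const _).norm (Filter.Eventually.of_forall h1)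
  have h3 : ψ x - φ₁ x ∈ (Ideal.span {(p : ℤ_[p]) ^ 1} : Ideal ℤ_[p]) := by
    rw [← PadicInt.norm_le_pow_iff_mem_span_pow]
    simpa using h2
  rw [pow_one, ← PadicInt.maximalIdeal_eq_span_p, ← PadicInt.ker_toZMod, RingHom.mem_ker, map_sub,
    sub_eq_zero] at h3
  rw [h3, hc]

/-- right exactness -/
theorem Dm_lift (hG : H2zero p G) {ι : Type} (ρ : ι → G) {Λ Λ' : Type} [CommRing Λ] [Finite Λ]
    [Algebra (ZMod p) Λ] [CommRing Λ'] (f : Λ →+* Λ') (hf : Function.Surjective f) (T : G →* Λ)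
    (hT : IsLocallyConstant T) (T' : G →* Λ') (hT' : ∀ x, T' x = f (T x)) (v' : ι → Λ')
    (hv : v' ∈ Dm ρ T') : ∃ v ∈ Dm ρ T, ∀ i, f (v i) = v' i := by
  obtain ⟨Θ', h1, h2⟩ := hv
  obtain ⟨Θ, h3, h4⟩ := coc_lift hG f hf T hT T' hT' Θ' h1
  exact ⟨fun i => Θ (ρ i), ⟨Θ, h3, fun i => rfl⟩, fun i => by rw [h4, h2]⟩

end Pool.Agent.RFA
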