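import Pool.Agent.RFA.Sub
import Pool.Agent.RFA.Lift

set_option autoImplicit false

namespace Pool.Agent.RFA

open Topology Module

variable {p : ℕ} [Fact p.Prime] {G : Type} [Group G] [TopologicalSpace G] [IsTopologicalGroup G]

private theorem CupB_homP_le {ι : Type} (ρ : ι → G) : HomP p ρ ≤ Hom1 p G := fun _ h => h.1

private theorem CupB_sub {f g h h' : G → ZMod p} (hh : IsCup p f g h) (hh' : IsCup p f g h') :
    h - h' ∈ Hom1 p G := by
  refine ⟨hh.1.sub hh'.1, fun x y => ?_⟩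
  rw [Pi.sub_apply, Pi.sub_apply, Pi.sub_apply, hh.2, hh'.2]
  ring

private theorem CupB_add_hom {f g h k : G → ZMod p} (hh : IsCup p f g h) (hk : k ∈ Hom1 p G) :
    IsCup p f g (h + k) := by
  refine ⟨hh.1.add hk.1, fun x y => ?_⟩
  rw [Pi.add_apply, Pi.add_apply, Pi.add_apply, hh.2, hk.2]
  ring

theorem cupVal_eq {ι : Type} [Fintype ι] {ρ : ι → G} {z : ι → ZMod p} (hz : z ∈ Z2 p ρ)
    {f g h : G → ZMod p} (hh : IsCup p f g h) :
    cupVal p ρ z f g = ∑ i, z i * h (ρ i) := by
  have hex : ∃ h, IsCup p f g h := ⟨h, hh⟩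
  unfold cupVal
  rw [dif_pos hex]
  have h1 := hz _ (CupB_sub (Classical.choose_spec hex) hh)
  rw [← sub_eq_zero, ← Finset.sum_sub_distrib]
  rw [← h1]
  refine Finset.sum_congr rfl fun i _ => ?_
  rw [Pi.sub_apply, mul_sub]

private theorem CupB_add_left {f f' g h h' : G → ZMod p} (hh : IsCup p f g h)
    (hh' : IsCup p f' g h') : IsCup p (f + f') g (h + h') := by
  refine ⟨hh.1.add hh'.1, fun x y => ?_⟩
  rw [Pi.add_apply, Pi.add_apply, Pi.add_apply, hh.2, hh'.2, Pi.add_apply]
  ring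

private theorem CupB_add_right {f g g' h h' : G → ZMod p} (hh : IsCup p f g h)
    (hh' : IsCup p f g' h') : IsCup p f (g + g') (h + h') := by
  refine ⟨hh.1.add hh'.1, fun x y => ?_⟩
  rw [Pi.add_apply, Pi.add_apply, Pi.add_apply, hh.2, hh'.2, Pi.add_apply]
  ring

private theorem CupB_smul_left (c : ZMod p) {f g h : G → ZMod p} (hh : IsCup p f g h) :
    IsCup p (c • f) g (c • h) := by
  refine ⟨hh.1.comp (fun t => c * t), fun x y => ?_⟩
  rw [Pi.smul_apply, Pi.smul_apply, Pi.smul_apply, hh.2, Pi.smul_apply]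
  simp only [smul_eq_mul]
  ring

private theorem CupB_smul_right (c : ZMod p) {f g h : G → ZMod p} (hh : IsCup p f g h) :
    IsCup p f (c • g) (c • h) := by
  refine ⟨hh.1.comp (fun t => c * t), fun x y => ?_⟩
  rw [Pi.smul_apply, Pi.smul_apply, Pi.smul_apply, hh.2, Pi.smul_apply]
  simp only [smul_eq_mul]
  ring

private theorem CupB_exists {δ : ℕ} (hG : ProFree p δ G) {ι : Type} {ρ : ι → G}
    {f g : G → ZMod p} (hf : f ∈ HomP p ρ) (hg : g ∈ HomP p ρ) : ∃ h, IsCup p f g h :=
  cup_exists hG.h2top (CupB_homP_le ρ hf) (CupB_homP_le ρ hg)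

/-- the cup product pairing as a trilinear map -/
theorem exists_cupB {δ : ℕ} (hG : ProFree p δ G) {ι : Type} [Fintype ι] (ρ : ι → G) :
    ∃ B : Z2 p ρ →ₗ[ZMod p] HomP p ρ →ₗ[ZMod p] HomP p ρ →ₗ[ZMod p] ZMod p,
      ∀ z f g, B z f g = cupVal p ρ (z : ι → ZMod p) (f : G → ZMod p) (g : G → ZMod p) := by
  have hex : ∀ f g : HomP p ρ, ∃ h, IsCup p (f : G → ZMod p) (g : G → ZMod p) h :=
    fun f g => CupB_exists hG f.2 g.2
  let B0 : Z2 p ρ → HomP p ρ →ₗ[ZMod p] HomP p ρ →ₗ[ZMod p] ZMod p := fun z =>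
    LinearMap.mk₂ (ZMod p)
      (fun f g : HomP p ρ => cupVal p ρ (z : ι → ZMod p) (f : G → ZMod p) (g : G → ZMod p))
      (by
        intro f f' g
        obtain ⟨h, hh⟩ := hex f g
        obtain ⟨h', hh'⟩ := hex f' g
        rw [cupVal_eq z.2 hh, cupVal_eq z.2 hh', Submodule.coe_add,
          cupVal_eq z.2 (CupB_add_left hh hh'), ← Finset.sum_add_distrib]
        refine Finset.sum_congr rfl fun i _ => ?_
        rw [Pi.add_apply, mul_add])
      (by
        intro c f g
        obtain ⟨h, hh⟩ := hex f g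
        rw [cupVal_eq z.2 hh, Submodule.coe_smul,
          cupVal_eq z.2 (CupB_smul_left c hh), smul_eq_mul, Finset.mul_sum]
        refine Finset.sum_congr rfl fun i _ => ?_
        rw [Pi.smul_apply, smul_eq_mul]
        ring)
      (by
        intro f g g'
        obtain ⟨h, hh⟩ := hex f g
        obtain ⟨h', hh'⟩ := hex f g'
        rw [cupVal_eq z.2 hh, cupVal_eq z.2 hh', Submodule.coe_add,
          cupVal_eq z.2 (CupB_add_right hh hh'), ← Finset.sum_add_distrib]
        refine Finset.sum_congr rfl fun i _ => ?_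
        rw [Pi.add_apply, mul_add])
      (by
        intro c f g
        obtain ⟨h, hh⟩ := hex f g
        rw [cupVal_eq z.2 hh, Submodule.coe_smul,
          cupVal_eq z.2 (CupB_smul_right c hh), smul_eq_mul, Finset.mul_sum]
        refine Finset.sum_congr rfl fun i _ => ?_
        rw [Pi.smul_apply, smul_eq_mul]
        ring)
  have hB0 : ∀ z f g, B0 z f g = cupVal p ρ (z : ι → ZMod p) (f : G → ZMod p) (g : G → ZMod p) :=
    fun z f g => rfl
  refine ⟨{ toFun := B0, map_add' := ?_, map_smul' := ?_ }, hB0⟩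
  · intro z z'
    refine LinearMap.ext fun f => LinearMap.ext fun g => ?_
    obtain ⟨h, hh⟩ := hex f g
    rw [LinearMap.add_apply, LinearMap.add_apply, hB0, hB0, hB0, cupVal_eq (z + z').2 hh,
      cupVal_eq z.2 hh, cupVal_eq z'.2 hh, ← Finset.sum_add_distrib]
    refine Finset.sum_congr rfl fun i _ => ?_
    rw [Submodule.coe_add, Pi.add_apply, add_mul]
  · intro c z
    refine LinearMap.ext fun f => LinearMap.ext fun g => ?_
    obtain ⟨h, hh⟩ := hex f g
    rw [RingHom.id_apply, LinearMap.smul_apply, LinearMap.smul_apply, hB0, hB0,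
      cupVal_eq (c • z).2 hh, cupVal_eq z.2 hh, smul_eq_mul, Finset.mul_sum]
    refine Finset.sum_congr rfl fun i _ => ?_
    rw [Submodule.coe_smul, Pi.smul_apply, smul_eq_mul, mul_assoc]

private theorem CupB_swap {f g h : G → ZMod p} (hf : f ∈ Hom1 p G) (hg : g ∈ Hom1 p G)
    (hh : IsCup p f g h) : IsCup p g f (f * g - h) := by
  refine ⟨(hf.1.mul hg.1).sub hh.1, fun x y => ?_⟩
  simp only [Pi.sub_apply, Pi.mul_apply]
  rw [hh.2, hf.2, hg.2]
  ring

theorem cupVal_antisymm {δ : ℕ} (hG : ProFree p δ G) {ι : Type} [Fintype ι] {ρ : ι → G}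
    {z : ι → ZMod p} (hz : z ∈ Z2 p ρ) {f g : G → ZMod p} (hf : f ∈ HomP p ρ)
    (hg : g ∈ HomP p ρ) : cupVal p ρ z f g = - cupVal p ρ z g f := by
  obtain ⟨h, hh⟩ := CupB_exists hG hf hg
  rw [cupVal_eq hz hh, cupVal_eq hz (CupB_swap hf.1 hg.1 hh), ← Finset.sum_neg_distrib]
  refine Finset.sum_congr rfl fun i _ => ?_
  rw [Pi.sub_apply, Pi.mul_apply, hf.2 i]
  ring

/-- for `f ∈ HomP` (`p` odd), `f ∪ f = 0` -/
theorem cupZero_self (hp : p ≠ 2) {ι : Type} {ρ : ι → G} {f : G → ZMod p} (hf : f ∈ HomP p ρ) :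
    CupZero p ρ f f := by
  have h2 : (2 : ZMod p) ≠ 0 := by
    intro h
    have h1 : ((2 : ℕ) : ZMod p) = 0 := by exact_mod_cast h
    rw [ZMod.natCast_eq_zero_iff] at h1
    exact hp ((Nat.prime_dvd_prime_iff_eq (Fact.out) Nat.prime_two).1 h1)
  refine ⟨fun x => f x * f x / 2, ⟨hf.1.1.comp (fun t => t * t / 2), fun x y => ?_⟩, fun i => ?_⟩
  · change f (x * y) * f (x * y) / 2 = f x * f x / 2 + f y * f y / 2 + f x * f y
    rw [hf.1.2]
    field_simp
    ring
  · simp only [hf.2 i, mul_zero, zero_div]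

theorem CupZero.symm {ι : Type} {ρ : ι → G} {f g : G → ZMod p} (hf : f ∈ HomP p ρ)
    (hg : g ∈ HomP p ρ) (h : CupZero p ρ f g) : CupZero p ρ g f := by
  obtain ⟨h, hh, h0⟩ := h
  refine ⟨f * g - h, CupB_swap hf.1 hg.1 hh, fun i => ?_⟩
  rw [Pi.sub_apply, Pi.mul_apply, hf.2 i, h0, zero_mul, sub_zero]

/-- separation by a functional -/
private theorem CupB_sep {κ : Type} [Fintype κ] (W : Submodule (ZMod p) (κ → ZMod p))
    (c : κ → ZMod p) (h : ∀ z : κ → ZMod p, (∀ w ∈ W, ∑ i, z i * w i = 0) → ∑ i, z i * c i = 0) :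
    c ∈ W := by
  classical
  by_contra hc
  obtain ⟨φ, hφ, hW⟩ := Submodule.exists_dual_map_eq_bot_of_notMem hc inferInstance
  have hrep : ∀ v : κ → ZMod p, φ v = ∑ i, φ (Pi.single i 1) * v i := by
    intro v
    have h1 : v = ∑ i, v i • (Pi.single i (1 : ZMod p) : κ → ZMod p) := by
      ext j
      rw [Finset.sum_apply, Finset.sum_eq_single j]
      · rw [Pi.smul_apply, Pi.single_eq_same, smul_eq_mul, mul_one]
      · intro b _ hb
        rw [Pi.smul_apply, Pi.single_eq_of_ne (Ne.symm hb), smul_zero]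
      · intro h; exact absurd (Finset.mem_univ _) h
    conv_lhs => rw [h1]
    rw [map_sum]
    refine Finset.sum_congr rfl fun i _ => ?_
    rw [map_smul, smul_eq_mul, mul_comm]
  apply hφ
  rw [hrep]
  apply h
  intro w hw
  rw [← hrep]
  have h2 := Submodule.mem_map_of_mem (f := φ) hw
  rw [hW] at h2
  exact (Submodule.mem_bot _).1 h2

/-- values of homomorphisms on relators -/
private def CupB_ev {ι : Type} (ρ : ι → G) : Submodule (ZMod p) (ι → ZMod p) where
  carrier := {v | ∃ f ∈ Hom1 p G, ∀ i, f (ρ i) = v i}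
  zero_mem' := ⟨0, (Hom1 p G).zero_mem, by simp⟩
  add_mem' := by
    rintro a b ⟨f, hf, hf'⟩ ⟨g, hg, hg'⟩
    exact ⟨f + g, (Hom1 p G).add_mem hf hg, fun i => by simp [hf' i, hg' i]⟩
  smul_mem' := by
    rintro c a ⟨f, hf, hf'⟩
    exact ⟨c • f, (Hom1 p G).smul_mem c hf, fun i => by simp [hf' i]⟩

theorem cupZero_iff {δ : ℕ} (hG : ProFree p δ G) {ι : Type} [Fintype ι] {ρ : ι → G}
    {f g : G → ZMod p} (hf : f ∈ HomP p ρ) (hg : g ∈ HomP p ρ) :
    CupZero p ρ f g ↔ ∀ z ∈ Z2 p ρ, cupVal p ρ z f g = 0 := by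
  constructor
  · rintro ⟨h, hh, h0⟩ z hz
    rw [cupVal_eq hz hh]
    exact Finset.sum_eq_zero fun i _ => by rw [h0, mul_zero]
  · intro H
    obtain ⟨h, hh⟩ := CupB_exists hG hf hg
    have h1 : (fun i => h (ρ i)) ∈ CupB_ev (p := p) ρ := by
      apply CupB_sep
      intro z hz
      have hz' : z ∈ Z2 p ρ := fun k hk => hz (fun i => k (ρ i)) ⟨k, hk, fun i => rfl⟩
      rw [← cupVal_eq hz' hh]
      exact H z hz'
    obtain ⟨k, hk, hk'⟩ := h1
    refine ⟨h + (-1 : ZMod p) • k, CupB_add_hom hh ((Hom1 p G).smul_mem _ hk), fun i => ?_⟩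
    rw [Pi.add_apply, Pi.smul_apply, hk' i, smul_eq_mul]
    ring

/-- values of the cup cochains -/
private def CupB_S {ι : Type} (ρ : ι → G) {k : ℕ} (η : Fin k → G → ZMod p) :
    Submodule (ZMod p) (Fin k × ι → ZMod p) where
  carrier := {v | ∃ ξ ∈ HomP p ρ, ∃ h : Fin k → G → ZMod p,
    (∀ j, IsCup p (η j) ξ (h j)) ∧ ∀ j i, h j (ρ i) = v (j, i)}
  zero_mem' := ⟨0, (HomP p ρ).zero_mem, fun _ => 0,
    fun j => ⟨IsLocallyConstant.const 0, fun x y => by simp⟩, fun j i => rfl⟩
  add_mem' := by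
    rintro a b ⟨ξ, hξ, h, hh, hv⟩ ⟨ξ', hξ', h', hh', hv'⟩
    exact ⟨ξ + ξ', (HomP p ρ).add_mem hξ hξ', fun j => h j + h' j,
      fun j => CupB_add_right (hh j) (hh' j), fun j i => by simp [hv j i, hv' j i]⟩
  smul_mem' := by
    rintro c a ⟨ξ, hξ, h, hh, hv⟩
    exact ⟨c • ξ, (HomP p ρ).smul_mem c hξ, fun j => c • h j,
      fun j => CupB_smul_right c (hh j), fun j i => by simp [hv j i]⟩

/-- `I_k` is dual to injectivity of `(z_j) ↦ Σ_j B_{z_j}(η_j, ·)` -/
theorem IK_iff {δ : ℕ} (hG : ProFree p δ G) {ι : Type} [Fintype ι] (ρ : ι → G) {k : ℕ}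
    (η : Fin k → G → ZMod p) (hη : ∀ j, η j ∈ HomP p ρ) :
    IK p ρ η ↔ ∀ z : Fin k → ι → ZMod p, (∀ j, z j ∈ Z2 p ρ) →
      (∀ ξ ∈ HomP p ρ, ∑ j, cupVal p ρ (z j) (η j) ξ = 0) → z = 0 := by
  classical
  constructor
  · intro H z hz h0
    funext j i
    obtain ⟨ξ, hξ, h, hh, hv⟩ := H (fun j' i' => if j' = j ∧ i' = i then 1 else 0)
    have h1 := h0 ξ hξ
    have h2 : ∀ j', cupVal p ρ (z j') (η j') ξ =
        ∑ i', z j' i' * (if j' = j ∧ i' = i then 1 else 0) := by
      intro j'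
      rw [cupVal_eq (hz j') (hh j')]
      refine Finset.sum_congr rfl fun i' _ => ?_
      rw [hv]
    simp only [h2] at h1
    rw [Finset.sum_eq_single j, Finset.sum_eq_single i] at h1
    · simpa using h1
    · intro b _ hb
      rw [if_neg (fun h => hb h.2), mul_zero]
    · intro h; exact absurd (Finset.mem_univ _) h
    · intro b _ hb
      refine Finset.sum_eq_zero fun i' _ => ?_
      rw [if_neg (fun h => hb h.1), mul_zero]
    · intro h; exact absurd (Finset.mem_univ _) h
  · intro H c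
    have key : (fun q : Fin k × ι => c q.1 q.2) ∈ CupB_S ρ η := by
      apply CupB_sep
      intro z hz
      have hz2 : ∀ j, (fun i => z (j, i)) ∈ Z2 p ρ := by
        intro j f hf
        have h1 := hz (fun q => if q.1 = j then f (ρ q.2) else 0)
          ⟨0, (HomP p ρ).zero_mem, fun j' => if j' = j then f else 0, ?_, ?_⟩
        · rw [Fintype.sum_prod_type, Finset.sum_eq_single j] at h1
          · simpa using h1
          · intro b _ hb
            refine Finset.sum_eq_zero fun i' _ => ?_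
            rw [if_neg hb, mul_zero]
          · intro h; exact absurd (Finset.mem_univ _) h
        · intro j'
          by_cases hj : j' = j
          · simp only [if_pos hj]
            exact ⟨hf.1, fun x y => by rw [hf.2, Pi.zero_apply, mul_zero, add_zero]⟩
          · simp only [if_neg hj]
            exact ⟨IsLocallyConstant.const 0, fun x y => by simp⟩
        · intro j' i
          by_cases hj : j' = j
          · simp [hj]
          · simp [hj]
      have h3 : (fun j i => z (j, i)) = 0 := by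
        apply H _ hz2
        intro ξ hξ
        choose h hh using fun j => CupB_exists hG (hη j) hξ
        have h1 := hz (fun q => h q.1 (ρ q.2)) ⟨ξ, hξ, h, hh, fun j i => rfl⟩
        rw [Fintype.sum_prod_type] at h1
        rw [← h1]
        refine Finset.sum_congr rfl fun j _ => ?_
        rw [cupVal_eq (hz2 j) (hh j)]
      have h4 : z = 0 := by
        funext q
        exact congrFun (congrFun h3 q.1) q.2
      rw [h4]
      simp
    obtain ⟨ξ, hξ, h, hh, hv⟩ := key
    exact ⟨ξ, hξ, h, hh, hv⟩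

theorem Z2_finite_HomP_finite {δ : ℕ} (hG : ProFree p δ G) {ι : Type} [Fintype ι] (ρ : ι → G) :
    Module.Finite (ZMod p) (HomP p ρ) ∧ Module.Finite (ZMod p) (Z2 p ρ) := by
  have := hG.finG
  exact ⟨Submodule.finiteDimensional_of_le (CupB_homP_le ρ), inferInstance⟩

theorem rankGE_iff {δ : ℕ} (hG : ProFree p δ G) {ι : Type} [Fintype ι] (ρ : ι → G)
    (B : Z2 p ρ →ₗ[ZMod p] HomP p ρ →ₗ[ZMod p] HomP p ρ →ₗ[ZMod p] ZMod p)
    (hB : ∀ z f g, B z f g = cupVal p ρ (z : ι → ZMod p) (f : G → ZMod p) (g : G → ZMod p))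
    (z : Z2 p ρ) (n : ℕ) :
    RankGE p ρ (z : ι → ZMod p) n ↔ n ≤ finrank (ZMod p) (LinearMap.range (B z)) := by
  have := (Z2_finite_HomP_finite hG ρ).1
  constructor
  · rintro ⟨f, g, hf, hg, hfg⟩
    let F : Fin n → LinearMap.range (B z) := fun a => ⟨B z ⟨f a, hf a⟩, ⟨_, rfl⟩⟩
    have hli : LinearIndependent (ZMod p) F := by
      rw [Fintype.linearIndependent_iff]
      intro c hc b
      have h1 : (∑ a, c a • F a : LinearMap.range (B z)).1 ⟨g b, hg b⟩ = 0 := by
        rw [hc]; rfl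
      have h2 : (∑ a, c a • F a : LinearMap.range (B z)).1 ⟨g b, hg b⟩ =
          ∑ a, c a * cupVal p ρ (z : ι → ZMod p) (f a) (g b) := by
        rw [AddSubmonoidClass.coe_finsetSum, LinearMap.sum_apply]
        refine Finset.sum_congr rfl fun a _ => ?_
        rw [Submodule.coe_smul, LinearMap.smul_apply, smul_eq_mul]
        change c a * B z ⟨f a, hf a⟩ ⟨g b, hg b⟩ = _
        rw [hB]
      rw [h2] at h1
      simp only [hfg] at h1
      simpa using h1
    have := hli.fintype_card_le_finrank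
    rwa [Fintype.card_fin] at this
  · intro h
    obtain ⟨F, hF⟩ := exists_linearIndependent_of_le_finrank h
    choose f hf using fun a => (F a).2
    let M : HomP p ρ →ₗ[ZMod p] (Fin n → ZMod p) := LinearMap.pi fun a => B z (f a)
    have hM : ∀ g, g ∈ LinearMap.range M := by
      intro v
      apply CupB_sep
      intro c hc
      have h1 : c = 0 := by
        rw [Fintype.linearIndependent_iff] at hF
        funext a
        apply hF c
        apply Subtype.ext
        rw [AddSubmonoidClass.coe_finsetSum]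
        refine LinearMap.ext fun g => ?_
        rw [LinearMap.sum_apply]
        change _ = (0 : ZMod p)
        rw [← hc (M g) ⟨g, rfl⟩]
        refine Finset.sum_congr rfl fun a _ => ?_
        rw [Submodule.coe_smul, LinearMap.smul_apply, smul_eq_mul, ← hf a]
        rfl
      rw [h1]
      simp
    choose g hg using fun b : Fin n => hM (Pi.single b 1)
    refine ⟨fun a => f a, fun b => g b, fun a => (f a).2, fun b => (g b).2, fun a b => ?_⟩
    rw [← hB]
    have h2 := congrFun (hg b) a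
    change B z (f a) (g b) = _ at h2
    rw [h2]
    by_cases hab : a = b
    · rw [if_pos hab, hab, Pi.single_eq_same]
    · rw [if_neg hab, Pi.single_eq_of_ne hab]

end Pool.Agent.RFA
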