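import Pool.Agent.RFA.Defs

set_option autoImplicit false

namespace Pool.Agent.RFA

open Topology Module

variable {p : ℕ} [Fact p.Prime] {A : Type} [AddCommGroup A]

instance GA.finite [Finite A] : Finite (GA p A) :=
  Finite.of_equiv (A → ZMod p)
    (Finsupp.equivFunOnFinite.symm.trans AddMonoidAlgebra.coeffEquiv.symm)

theorem aug_single (a : A) (c : ZMod p) : aug p (AddMonoidAlgebra.single a c) = c := by
  simp [aug]

theorem gmap_single {A' : Type} [AddCommGroup A'] (f : A →+ A') (a : A) (c : ZMod p) :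
    gmap p f (AddMonoidAlgebra.single a c) = AddMonoidAlgebra.single (f a) c := by
  simp [gmap]

theorem aug_TA {G : Type} [Group G] (a : G →* Multiplicative A) (x : G) :
    aug p (TA p a x) = 1 :=
  aug_single (p := p) (Multiplicative.toAdd (a x)) 1

theorem aug_gmap {A' : Type} [AddCommGroup A'] (f : A →+ A') (b : GA p A) :
    aug p (gmap p f b) = aug p b := by
  induction b using AddMonoidAlgebra.induction_linear with
  | zero => simp
  | add x y hx hy => rw [map_add, map_add, map_add, hx, hy]
  | single a c => rw [gmap_single, aug_single, aug_single]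

theorem ginv_single (a : A) (c : ZMod p) :
    ginv p (AddMonoidAlgebra.single a c) = AddMonoidAlgebra.single (-a) c := by
  rw [ginv, gmap_single]; rfl

theorem ginv_ginv (b : GA p A) : ginv p (ginv p b) = b := by
  induction b using AddMonoidAlgebra.induction_linear with
  | zero => simp
  | add x y hx hy => rw [map_add, map_add, hx, hy]
  | single a c => rw [ginv_single, ginv_single, neg_neg]

theorem aug_ginv (b : GA p A) : aug p (ginv p b) = aug p b := aug_gmap _ b

theorem ginv_gmap {A' : Type} [AddCommGroup A'] (f : A →+ A') (b : GA p A) :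
    ginv p (gmap p f b) = gmap p f (ginv p b) := by
  induction b using AddMonoidAlgebra.induction_linear with
  | zero => simp
  | add x y hx hy => rw [map_add, map_add, map_add, map_add, hx, hy]
  | single a c => rw [gmap_single, ginv_single, ginv_single, gmap_single, map_neg]

/-- `coef0 (b^ι c) = Σ_a b(a) c(a)` -/
theorem coef0_ginv_mul [Fintype A] (b c : GA p A) :
    coef0 p (ginv p b * c) = ∑ a, b.coeff a * c.coeff a := by
  induction b using AddMonoidAlgebra.induction_linear with
  | zero => simp [coef0]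
  | add x y hx hy =>
    have : coef0 p (ginv p (x + y) * c) = coef0 p (ginv p x * c) + coef0 p (ginv p y * c) := by
      rw [map_add, add_mul]; rfl
    rw [this, hx, hy, ← Finset.sum_add_distrib]
    apply Finset.sum_congr rfl
    intro a _
    rw [AddMonoidAlgebra.coeff_add, Finsupp.add_apply, add_mul]
  | single a r =>
    classical
    rw [ginv_single, coef0, AddMonoidAlgebra.coeff_single_mul_apply]
    rw [Finset.sum_eq_single a]
    · simp
    · intro b _ hb
      simp [hb.symm]
    · intro h; exact absurd (Finset.mem_univ a) h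

theorem aug_eq_sum [Fintype A] (b : GA p A) : aug p b = ∑ a, b.coeff a := by
  induction b using AddMonoidAlgebra.induction_linear with
  | zero => simp
  | add x y hx hy =>
    rw [map_add, hx, hy, ← Finset.sum_add_distrib]; rfl
  | single a r =>
    classical
    rw [aug_single, Finset.sum_eq_single a]
    · simp
    · intro b _ hb
      simp [hb.symm]
    · intro h; exact absurd (Finset.mem_univ a) h

theorem finrank_GA [Finite A] : finrank (ZMod p) (GA p A) = Nat.card A := by
  have := Fintype.ofFinite A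
  rw [(AddMonoidAlgebra.coeffLinearEquiv (S := ZMod p) (M := A) (ZMod p)).finrank_eq,
    Module.finrank_finsupp_self, Nat.card_eq_fintype_card]

theorem coef0_nondeg (b : GA p A) (hb : b ≠ 0) : ∃ c, coef0 p (c * b) ≠ 0 := by
  have : ∃ a, b.coeff a ≠ 0 := by
    by_contra h
    push Not at h
    apply hb
    ext a
    exact h a
  obtain ⟨a, ha⟩ := this
  refine ⟨AddMonoidAlgebra.single (-a) 1, ?_⟩
  rw [coef0, AddMonoidAlgebra.coeff_single_mul_apply]
  simpa using ha

theorem pow_card_eq [Finite A] {n : ℕ} (hn : Nat.card A = p ^ n) (b : GA p A) :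
    b ^ p ^ n = algebraMap (ZMod p) (GA p A) (aug p b) := by
  have : CharP (GA p A) p := charP_of_injective_algebraMap
    (FaithfulSMul.algebraMap_injective (ZMod p) (GA p A)) p
  induction b using AddMonoidAlgebra.induction_linear with
  | zero =>
    rw [map_zero, map_zero, zero_pow]
    exact pow_ne_zero _ (Fact.out : p.Prime).ne_zero
  | add x y hx hy => rw [add_pow_char_pow, map_add, map_add, hx, hy]
  | single a r =>
    rw [aug_single, AddMonoidAlgebra.single_pow, ZMod.pow_card_pow, ← hn, card_nsmul_eq_zero']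
    rfl

theorem tt_add (a b : A) : tt p (a + b) = tt p a * tt p b + tt p a + tt p b := by
  have h : (AddMonoidAlgebra.single (a + b) 1 : GA p A) =
      AddMonoidAlgebra.single a 1 * AddMonoidAlgebra.single b 1 := by
    rw [AddMonoidAlgebra.single_mul_single, one_mul]
  rw [tt, tt, tt, h]; ring

theorem tt_zero : tt p (0 : A) = 0 := by
  rw [tt, ← AddMonoidAlgebra.one_def, sub_self]

theorem tt_mem (a : A) : tt p a ∈ mI p A := by
  rw [mI, RingHom.mem_ker, tt, map_sub, aug_single, map_one, sub_self]

theorem mem_mI (b : GA p A) : b ∈ mI p A ↔ aug p b = 0 := by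
  rw [mI, RingHom.mem_ker]

theorem sub_aug_mem (I : Ideal (GA p A)) (hI : ∀ a, tt p a ∈ I) (b : GA p A) :
    b - algebraMap (ZMod p) (GA p A) (aug p b) ∈ I := by
  induction b using AddMonoidAlgebra.induction_linear with
  | zero => simp
  | add x y hx hy =>
    have : x + y - algebraMap (ZMod p) (GA p A) (aug p (x + y)) =
        (x - algebraMap (ZMod p) (GA p A) (aug p x)) +
        (y - algebraMap (ZMod p) (GA p A) (aug p y)) := by
      rw [map_add, map_add]; ring
    rw [this]
    exact I.add_mem hx hy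
  | single a r =>
    have : (AddMonoidAlgebra.single a r : GA p A) -
        algebraMap (ZMod p) (GA p A) (aug p (AddMonoidAlgebra.single a r)) =
        algebraMap (ZMod p) (GA p A) r * tt p a := by
      rw [aug_single, tt, mul_sub, mul_one]
      congr 1
      have : algebraMap (ZMod p) (GA p A) r = AddMonoidAlgebra.single 0 r := rfl
      rw [this, AddMonoidAlgebra.single_mul_single, zero_add, mul_one]
    rw [this]
    exact I.mul_mem_left _ (hI a)

theorem mI_eq_span : mI p A = Ideal.span (Set.range (tt p : A → GA p A)) := by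
  apply le_antisymm
  · intro b hb
    have := sub_aug_mem (Ideal.span (Set.range (tt p : A → GA p A)))
      (fun a => Ideal.subset_span ⟨a, rfl⟩) b
    rwa [(mem_mI b).1 hb, map_zero, sub_zero] at this
  · rw [Ideal.span_le]
    rintro _ ⟨a, rfl⟩
    exact tt_mem a

theorem mI_nilpotent [Finite A] (hA : ∃ n, Nat.card A = p ^ n) : ∃ N, mI p A ^ N = ⊥ := by
  obtain ⟨n, hn⟩ := hA
  have h1 : mI p A ≤ nilradical (GA p A) := by
    intro b hb
    rw [mem_nilradical]
    refine ⟨p ^ n, ?_⟩
    rw [pow_card_eq hn, (mem_mI b).1 hb, map_zero]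
  have hfg : (mI p A).FG := IsNoetherian.noetherian _
  obtain ⟨N, hN⟩ := (Ideal.FG.isNilpotent_iff_le_nilradical hfg).2 h1
  exact ⟨N, hN⟩

theorem isUnit_iff_aug [Finite A] (hA : ∃ n, Nat.card A = p ^ n) (b : GA p A) :
    IsUnit b ↔ aug p b ≠ 0 := by
  obtain ⟨n, hn⟩ := hA
  constructor
  · intro h
    exact (h.map (aug p)).ne_zero
  · intro h
    have h1 : IsUnit (b ^ p ^ n) := by
      rw [pow_card_eq hn]
      exact (isUnit_iff_ne_zero.2 h).map _
    exact (isUnit_pow_iff (pow_ne_zero _ (Fact.out : p.Prime).ne_zero)).1 h1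

theorem gmap_surjective {A' : Type} [AddCommGroup A'] (f : A →+ A')
    (hf : Function.Surjective f) : Function.Surjective (gmap p f) := by
  intro b
  induction b using AddMonoidAlgebra.induction_linear with
  | zero => exact ⟨0, map_zero _⟩
  | add x y hx hy =>
    obtain ⟨a, rfl⟩ := hx
    obtain ⟨b, rfl⟩ := hy
    exact ⟨a + b, map_add _ _ _⟩
  | single a r =>
    obtain ⟨a', rfl⟩ := hf a
    exact ⟨AddMonoidAlgebra.single a' r, gmap_single f a' r⟩

theorem gmap_tt {A' : Type} [AddCommGroup A'] (f : A →+ A') (a : A) :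
    gmap p f (tt p a) = tt p (f a) := by
  rw [tt, map_sub, gmap_single, map_one]; rfl

/-- the kernel of `K[A] → K[A']` is generated by the `[a] - 1`, `a ∈ ker f` -/
theorem gmap_ker {A' : Type} [AddCommGroup A'] (f : A →+ A') :
    RingHom.ker (gmap p f) = Ideal.span {b | ∃ a, f a = 0 ∧ b = tt p a} := by
  apply le_antisymm
  · have key : ∀ b : GA p A, b - AddMonoidAlgebra.mapDomainLinearMap (ZMod p) (ZMod p)
        (Function.invFun f) (gmap p f b) ∈ Ideal.span {b | ∃ a, f a = 0 ∧ b = tt p a} := by
      intro b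
      induction b using AddMonoidAlgebra.induction_linear with
      | zero => simp
      | add x y hx hy =>
        rw [map_add, map_add, add_sub_add_comm]
        exact Ideal.add_mem _ hx hy
      | single a r =>
        rw [gmap_single, AddMonoidAlgebra.mapDomainLinearMap_single]
        set s := Function.invFun f (f a) with hs
        have hfs : f s = f a := Function.invFun_eq ⟨a, rfl⟩
        have : (AddMonoidAlgebra.single a r : GA p A) - AddMonoidAlgebra.single s r =
            AddMonoidAlgebra.single s r * tt p (a - s) := by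
          rw [tt, mul_sub, mul_one, AddMonoidAlgebra.single_mul_single, mul_one,
            add_sub_cancel]
        rw [this]
        exact Ideal.mul_mem_left _ _ (Ideal.subset_span ⟨a - s, by rw [map_sub, hfs, sub_self], rfl⟩)
    intro b hb
    have := key b
    rw [RingHom.mem_ker] at hb
    rwa [hb, map_zero, sub_zero] at this
  · rw [Ideal.span_le]
    rintro _ ⟨a, ha, rfl⟩
    change tt p a ∈ RingHom.ker (gmap p f)
    rw [RingHom.mem_ker, gmap_tt, ha, tt_zero]

theorem tt_nsmul_mem (I : Ideal (GA p A)) (a : A) (h : tt p a ∈ I) (n : ℕ) : tt p (n • a) ∈ I := by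
  induction n with
  | zero => rw [zero_smul, tt_zero]; exact I.zero_mem
  | succ n ih =>
    rw [succ_nsmul, tt_add]
    exact I.add_mem (I.add_mem (I.mul_mem_right _ ih) ih) h

/-- the same when `ker f` is generated by one element -/
theorem gmap_ker_of_gen [Finite A] {A' : Type} [AddCommGroup A'] (f : A →+ A') (a₀ : A)
    (h0 : f a₀ = 0) (hgen : ∀ a, f a = 0 → ∃ n : ℕ, a = n • a₀) :
    RingHom.ker (gmap p f) = Ideal.span {tt p a₀} := by
  rw [gmap_ker]
  apply le_antisymm
  · rw [Ideal.span_le]
    rintro _ ⟨a, ha, rfl⟩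
    obtain ⟨n, rfl⟩ := hgen a ha
    exact tt_nsmul_mem _ a₀ (Ideal.mem_span_singleton_self (tt p a₀)) n
  · rw [Ideal.span_le]
    rintro _ rfl
    exact Ideal.subset_span ⟨a₀, h0, rfl⟩

theorem tt_sum_mem {ι : Type} (I : Ideal (GA p A)) (s : Finset ι) (f : ι → A)
    (h : ∀ i ∈ s, tt p (f i) ∈ I) : tt p (∑ i ∈ s, f i) ∈ I := by
  classical
  induction s using Finset.induction_on with
  | empty => rw [Finset.sum_empty, tt_zero]; exact I.zero_mem
  | insert i s hi ih =>
    rw [Finset.sum_insert hi, tt_add]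
    have h1 := h i (Finset.mem_insert_self _ _)
    have h2 := ih fun j hj => h j (Finset.mem_insert_of_mem hj)
    exact I.add_mem (I.add_mem (I.mul_mem_right _ h1) h1) h2

theorem mI_span (k m : ℕ) : mI p (Fin k → ZMod (p ^ m)) =
    Ideal.span (Set.range fun j => tt p (Pi.single j (1 : ZMod (p ^ m)))) := by
  have : NeZero (p ^ m) := ⟨pow_ne_zero _ (Fact.out : p.Prime).ne_zero⟩
  apply le_antisymm
  · rw [mI_eq_span, Ideal.span_le]
    rintro _ ⟨a, rfl⟩
    have ha : a = ∑ j, (a j).val • (Pi.single j (1 : ZMod (p ^ m)) : Fin k → ZMod (p ^ m)) := by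
      funext i
      rw [Finset.sum_apply]
      rw [Finset.sum_eq_single i]
      · simp
      · intro j _ hj
        simp [hj.symm]
      · intro h; exact absurd (Finset.mem_univ i) h
    have hj : ∀ j : Fin k, tt p (Pi.single j (1 : ZMod (p ^ m))) ∈ Ideal.span
        (Set.range fun j : Fin k => tt p (Pi.single j (1 : ZMod (p ^ m)))) :=
      fun j => Ideal.subset_span ⟨j, rfl⟩
    have h2 := tt_sum_mem _ Finset.univ
      (fun j => (a j).val • (Pi.single j (1 : ZMod (p ^ m)) : Fin k → ZMod (p ^ m)))
      (fun j _ => tt_nsmul_mem _ _ (hj j) _)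
    rw [← ha] at h2
    exact h2
  · rw [Ideal.span_le]
    rintro _ ⟨j, rfl⟩
    exact tt_mem _

theorem mem_mI_iff (k m : ℕ) (b : GA p (Fin k → ZMod (p ^ m))) :
    aug p b = 0 ↔ ∃ c : Fin k → GA p (Fin k → ZMod (p ^ m)),
      b = ∑ j, c j * tt p (Pi.single j (1 : ZMod (p ^ m))) := by
  rw [← mem_mI, mI_span, Ideal.mem_span_range_iff_exists_fun]
  constructor
  · rintro ⟨c, hc⟩; exact ⟨c, hc.symm⟩
  · rintro ⟨c, hc⟩; exact ⟨c, hc.symm⟩

theorem gmap_mI_pow {A' : Type} [AddCommGroup A'] (f : A →+ A') (b : GA p A) (n : ℕ)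
    (hb : b ∈ mI p A ^ n) : gmap p f b ∈ mI p A' ^ n := by
  have h1 : Ideal.map (gmap p f) (mI p A) ≤ mI p A' := by
    rw [Ideal.map_le_iff_le_comap]
    intro x hx
    rw [Ideal.mem_comap, mem_mI, aug_gmap]
    exact (mem_mI x).1 hx
  have h2 := Ideal.mem_map_of_mem (gmap p f) hb
  rw [Ideal.map_pow] at h2
  exact Ideal.pow_right_mono h1 n h2

theorem ginv_mI_sq (b : GA p A) (n : ℕ) (hb : b ∈ mI p A ^ n) : ginv p b ∈ mI p A ^ n :=
  gmap_mI_pow _ b n hb

/-- `a ↦ [a] - 1` modulo `mI ^ 2` -/
noncomputable def ttHom (p : ℕ) [Fact p.Prime] (A : Type) [AddCommGroup A] :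
    A →+ (GA p A ⧸ (mI p A ^ 2)) where
  toFun a := Ideal.Quotient.mk _ (tt p a)
  map_zero' := by rw [tt_zero, map_zero]
  map_add' a b := by
    rw [tt_add, map_add, map_add]
    have : Ideal.Quotient.mk (mI p A ^ 2) (tt p a * tt p b) = 0 := by
      rw [Ideal.Quotient.eq_zero_iff_mem, pow_two]
      exact Ideal.mul_mem_mul (tt_mem a) (tt_mem b)
    rw [this, zero_add]

theorem ttHom_apply (a : A) : ttHom p A a = Ideal.Quotient.mk _ (tt p a) := rfl

/-- `T(x)` is linear to first order: `[v] = 1 + Σ v_j t_j mod m²` -/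
theorem single_mod_sq (k m : ℕ) (v : Fin k → ℕ) :
    AddMonoidAlgebra.single (fun j => (v j : ZMod (p ^ m))) (1 : ZMod p) - 1 -
      ∑ j, (v j : ZMod p) • tt p (Pi.single j (1 : ZMod (p ^ m))) ∈
        mI p (Fin k → ZMod (p ^ m)) ^ 2 := by
  rw [← Ideal.Quotient.eq_zero_iff_mem, map_sub]
  have hv : (fun j => (v j : ZMod (p ^ m))) =
      ∑ j, (v j) • (Pi.single j (1 : ZMod (p ^ m)) : Fin k → ZMod (p ^ m)) := by
    funext i
    rw [Finset.sum_apply, Finset.sum_eq_single i]
    · simp
    · intro j _ hj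
      simp [hj.symm]
    · intro h; exact absurd (Finset.mem_univ i) h
  have h1 : Ideal.Quotient.mk (mI p (Fin k → ZMod (p ^ m)) ^ 2)
      (AddMonoidAlgebra.single (fun j => (v j : ZMod (p ^ m))) (1 : ZMod p) - 1) =
      ttHom p _ (fun j => (v j : ZMod (p ^ m))) := rfl
  rw [h1, hv, map_sum, map_sum, ← Finset.sum_sub_distrib]
  apply Finset.sum_eq_zero
  intro j _
  have h3 : (v j : ZMod p) • tt p (Pi.single j (1 : ZMod (p ^ m)) : Fin k → ZMod (p ^ m)) =
      v j • tt p (Pi.single j (1 : ZMod (p ^ m)) : Fin k → ZMod (p ^ m)) :=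
    Nat.cast_smul_eq_nsmul _ _ _
  rw [map_nsmul, h3, map_nsmul, ttHom_apply, sub_self]

/-- an ideal of `K[A]` of codimension at most `h` contains `mI ^ h` -/
theorem mI_pow_le [Finite A] (hA : ∃ n, Nat.card A = p ^ n) (I : Ideal (GA p A)) (h : ℕ)
    (hI : Nat.card A ≤ finrank (ZMod p) (I.restrictScalars (ZMod p)) + h) :
    mI p A ^ h ≤ I := by
  obtain ⟨N, hN⟩ := mI_nilpotent hA
  by_contra hcon
  have h1 : ∀ j ≤ h, ¬ (mI p A ^ j ≤ I ⊔ mI p A ^ (j + 1)) := by
    intro j hj hle
    have h2 : ∀ r, mI p A ^ j ≤ I ⊔ mI p A ^ (j + r) := by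
      intro r
      induction r with
      | zero => exact le_sup_right
      | succ r ih =>
        refine ih.trans (sup_le le_sup_left ?_)
        calc mI p A ^ (j + r) = mI p A ^ j * mI p A ^ r := pow_add _ _ _
          _ ≤ (I ⊔ mI p A ^ (j + 1)) * mI p A ^ r := Ideal.mul_mono_left hle
          _ ≤ I ⊔ mI p A ^ (j + (r + 1)) := by
            rw [Ideal.sup_mul]
            refine sup_le ((Ideal.mul_le_left (I := I) (J := mI p A ^ r)).trans le_sup_left) ?_
            rw [← pow_add, show j + 1 + r = j + (r + 1) by ring]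
            exact le_sup_right
    apply hcon
    have h3 := h2 N
    rw [pow_add, hN, Ideal.mul_bot, sup_bot_eq] at h3
    exact (Ideal.pow_le_pow_right hj).trans h3
  have h4 : ∀ j ≤ h + 1, finrank (ZMod p)
      ((I ⊔ mI p A ^ j).restrictScalars (ZMod p)) + j ≤ Nat.card A := by
    intro j hj
    induction j with
    | zero =>
      rw [add_zero, ← finrank_GA (p := p) (A := A)]
      exact Submodule.finrank_le _
    | succ j ih =>
      have h5 := ih (by omega)
      have h6 : (I ⊔ mI p A ^ (j + 1)).restrictScalars (ZMod p) <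
          (I ⊔ mI p A ^ j).restrictScalars (ZMod p) := by
        rw [lt_iff_le_not_ge]
        constructor
        · exact sup_le_sup_left (Ideal.pow_le_pow_right (Nat.le_succ j)) I
        · intro hle
          have : I ⊔ mI p A ^ j ≤ I ⊔ mI p A ^ (j + 1) := hle
          exact h1 j (by omega) (le_sup_right.trans this)
      have h7 := Submodule.finrank_lt_finrank_of_lt h6
      omega
  have h8 := h4 (h + 1) le_rfl
  have h9 : finrank (ZMod p) (I.restrictScalars (ZMod p)) ≤
      finrank (ZMod p) ((I ⊔ mI p A ^ (h + 1)).restrictScalars (ZMod p)) :=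
    Submodule.finrank_mono (show I.restrictScalars (ZMod p) ≤ _ from (le_sup_left : I ≤ _))
  omega

end Pool.Agent.RFA
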