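import Pool.Agent.RFA.Sub
import Pool.Agent.RFA.Lift
import Pool.Agent.RFA.Alg

set_option autoImplicit false
set_option linter.unusedSectionVars false

namespace Pool.Agent.RFA

open Topology Module

variable {p : ℕ} [Fact p.Prime] {G : Type} [Group G] [TopologicalSpace G] [IsTopologicalGroup G]

theorem ker_isOpen {A : Type} [AddCommGroup A] (a : G →* Multiplicative A)
    (ha : IsLocallyConstant a) : IsOpen (a.ker : Set G) := by
  exact ha.isOpen_fiber 1

theorem TA_locConst {A : Type} [AddCommGroup A] (a : G →* Multiplicative A)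
    (ha : IsLocallyConstant a) : IsLocallyConstant (TA p a) :=
  ha.comp (AddMonoidAlgebra.of (ZMod p) A)

theorem ker_adm {I : Type} (r : I → G) (e : I → ℕ) {A : Type} [AddCommGroup A]
    (a : G →* Multiplicative A) (ha : IsLocallyConstant a)
    (hord : ∀ i n, a (r i) ^ n = 1 ↔ p ^ e i ∣ n) : Adm p r e a.ker := by
  have hop := ker_isOpen a ha
  refine ⟨hop, ?_, ?_⟩
  · refine Subgroup.topologicalClosure_minimal _ ?_ (Subgroup.isClosed_of_isOpen _ hop)
    refine Subgroup.normalClosure_le_normal ?_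
    rintro _ ⟨i, rfl⟩
    rw [SetLike.mem_coe, MonoidHom.mem_ker, map_pow]
    exact (hord i _).2 dvd_rfl
  · intro i x n hn
    rw [MonoidHom.mem_ker, map_mul, map_mul, map_inv, map_pow, mul_inv_cancel_comm] at hn
    exact (hord i n).1 hn

section Shap

variable {A : Type} [AddCommGroup A]

/-- `coef0` as a linear map -/
def Shap_c0 (p : ℕ) (A : Type) [AddCommGroup A] : GA p A →ₗ[ZMod p] ZMod p where
  toFun := coef0 p
  map_add' x y := by simp [coef0]
  map_smul' c x := by simp [coef0]

theorem Shap_c0_apply (b : GA p A) : Shap_c0 p A b = coef0 p b := rfl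

theorem Shap_coef0_add (b c : GA p A) : coef0 p (b + c) = coef0 p b + coef0 p c := by
  simp [coef0]

theorem Shap_TA (a : G →* Multiplicative A) (x : G) :
    TA p a x = AddMonoidAlgebra.single (a x).toAdd 1 := rfl

theorem Shap_coeff_single_mul (g h : A) (b : GA p A) :
    (AddMonoidAlgebra.single g (1 : ZMod p) * b).coeff h = b.coeff (h - g) := by
  rw [AddMonoidAlgebra.coeff_single_mul_apply, one_mul, neg_add_eq_sub]

theorem Shap_coc_one {Λ : Type} [CommRing Λ] {T : G →* Λ} {Θ : G → Λ} (hΘ : Θ ∈ Coc T) :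
    Θ 1 = 0 := by
  have := hΘ.2 1 1
  simp only [mul_one, map_one, one_mul] at this
  exact left_eq_add.1 this

theorem Shap_coc_conj {Λ : Type} [CommRing Λ] {T : G →* Λ} {Θ : G → Λ} (hΘ : Θ ∈ Coc T)
    (x j : G) (hj : T j = 1) : Θ (x * j * x⁻¹) = T x * Θ j := by
  have h1 := hΘ.2 (x * j) x⁻¹
  have h2 := hΘ.2 x j
  have h3 := hΘ.2 x x⁻¹
  rw [mul_inv_cancel, Shap_coc_one hΘ] at h3
  rw [h1, h2, map_mul, hj, mul_one]
  linear_combination -h3

theorem Shap_TA_ker (a : G →* Multiplicative A) {j : G} (hj : a j = 1) : TA p a j = 1 := by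
  rw [Shap_TA, hj]; rfl

/-- a cocycle whose restriction to the kernel has zero coefficient at `0` vanishes there -/
theorem Shap_vanish (a : G →* Multiplicative A) (hs : Function.Surjective a) {Θ : G → GA p A}
    (hΘ : Θ ∈ Coc (TA p a)) (h0 : ∀ j, a j = 1 → coef0 p (Θ j) = 0) {j : G} (hj : a j = 1) :
    Θ j = 0 := by
  apply AddMonoidAlgebra.coeff_injective
  ext b
  obtain ⟨x, hx⟩ := hs (Multiplicative.ofAdd (-b))
  have h1 := h0 (x * j * x⁻¹) (by rw [map_mul, map_mul, hj, map_inv]; simp)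
  rw [Shap_coc_conj hΘ x j (Shap_TA_ker a hj), Shap_TA, hx, coef0, Shap_coeff_single_mul] at h1
  simpa using h1

/-- the map `Θ ↦ coef0 ∘ Θ|_J` -/
def Shap_S (p : ℕ) (a : G →* Multiplicative A) : (G → GA p A) →ₗ[ZMod p] (↥a.ker → ZMod p) where
  toFun Θ j := coef0 p (Θ j)
  map_add' x y := by funext j; simp [coef0]
  map_smul' c x := by funext j; simp [coef0]

/-- evaluation at the relators -/
def Shap_E (p : ℕ) {G : Type} {A : Type} [AddCommGroup A] {ι : Type} (ρ : ι → G) :
    (G → GA p A) →ₗ[ZMod p] (ι → GA p A) where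
  toFun Θ i := Θ (ρ i)
  map_add' x y := by funext j; simp
  map_smul' c x := by funext j; simp

end Shap

theorem finrank_C2 {δ : ℕ} (hG : ProFree p δ G) {I : Type} [Fintype I] (r : I → G) (e : I → ℕ)
    {A : Type} [AddCommGroup A] [Finite A] (a : G →* Multiplicative A)
    (hs : Function.Surjective a) (hord : ∀ i n, a (r i) ^ n = 1 ↔ p ^ e i ∣ n) :
    finrank (ZMod p) ((C2 r (TA p a)).restrictScalars (ZMod p)) =
      ∑ i, Nat.card A / p ^ e i := by
  classical
  let Q : I → Type := fun i => Multiplicative A ⧸ Subgroup.zpowers (a (r i))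
  let L : ((i : I) → (Q i → ZMod p)) →ₗ[ZMod p] (I → GA p A) :=
    { toFun := fun g i => AddMonoidAlgebra.ofCoeff
        (Finsupp.equivFunOnFinite.symm fun b => g i (QuotientGroup.mk (Multiplicative.ofAdd b)))
      map_add' := by
        intro g g'
        funext i
        apply AddMonoidAlgebra.coeff_injective
        ext b
        simp
      map_smul' := by
        intro c g
        funext i
        apply AddMonoidAlgebra.coeff_injective
        ext b
        simp }
  have hL : ∀ g i b, (L g i).coeff b = g i (QuotientGroup.mk (Multiplicative.ofAdd b)) := by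
    intro g i b
    rfl
  have hinj : Function.Injective L := by
    intro g g' h
    funext i q
    induction q using QuotientGroup.induction_on with
    | H x =>
      have := congrArg (fun y : I → GA p A => (y i).coeff x.toAdd) h
      simp only [hL] at this
      exact this
  have hrange : LinearMap.range L = (C2 r (TA p a)).restrictScalars (ZMod p) := by
    ext y
    rw [LinearMap.mem_range, Submodule.restrictScalars_mem]
    constructor
    · rintro ⟨g, rfl⟩ i
      apply AddMonoidAlgebra.coeff_injective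
      ext b
      rw [sub_mul, one_mul, Shap_TA, AddMonoidAlgebra.coeff_sub, Finsupp.sub_apply,
        Shap_coeff_single_mul, hL, hL, AddMonoidAlgebra.coeff_zero, Finsupp.zero_apply, sub_eq_zero]
      congr 1
      rw [QuotientGroup.eq]
      refine ⟨1, ?_⟩
      simp [sub_eq_add_neg]
    · intro hy
      have hy' : ∀ i (x : Multiplicative A), (y i).coeff (x * a (r i)).toAdd =
          (y i).coeff x.toAdd := by
        intro i x
        have h1 : TA p a (r i) * y i = y i := by
          have := hy i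
          rwa [sub_mul, one_mul, sub_eq_zero] at this
        have h2 := congrArg (fun z : GA p A => z.coeff (x * a (r i)).toAdd) h1
        simp only [Shap_TA, Shap_coeff_single_mul] at h2
        rw [← h2]
        simp
      have hy2 : ∀ i (x : Multiplicative A) (n : ℕ), (y i).coeff (x * a (r i) ^ n).toAdd =
          (y i).coeff x.toAdd := by
        intro i x n
        induction n with
        | zero => simp
        | succ n ih => rw [pow_succ, ← mul_assoc, hy', ih]
      refine ⟨fun i => Quotient.lift (fun x : Multiplicative A => (y i).coeff x.toAdd) ?_, ?_⟩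
      · intro x x' hxx
        rw [← Quotient.eq_iff_equiv] at hxx
        have h3 : x⁻¹ * x' ∈ Subgroup.zpowers (a (r i)) := QuotientGroup.eq.1 hxx
        rw [← mem_powers_iff_mem_zpowers] at h3
        obtain ⟨n, hn⟩ := h3
        have h4 : x' = x * a (r i) ^ n := by
          have hn' : a (r i) ^ n = x⁻¹ * x' := hn
          rw [hn']; group
        rw [h4, hy2]
      · funext i
        apply AddMonoidAlgebra.coeff_injective
        ext b
        rw [hL]
        rfl
  rw [← hrange, LinearMap.finrank_range_of_inj hinj, Module.finrank_pi_fintype]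
  refine Finset.sum_congr rfl fun i _ => ?_
  haveI : Fintype (Q i) := Fintype.ofFinite _
  rw [Module.finrank_fintype_fun_eq_card, ← Nat.card_eq_fintype_card]
  have ho : orderOf (a (r i)) = p ^ e i := by
    apply Nat.dvd_antisymm
    · exact orderOf_dvd_of_pow_eq_one ((hord i _).2 dvd_rfl)
    · exact (hord i _).1 (pow_orderOf_eq_one _)
  have h5 : Nat.card (Q i) = (Subgroup.zpowers (a (r i))).index := rfl
  have h6 := (Subgroup.zpowers (a (r i))).card_mul_index
  rw [Nat.card_zpowers, ho] at h6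
  have h7 : Nat.card (Multiplicative A) = Nat.card A := Nat.card_congr Multiplicative.toAdd
  rw [h5, ← h7, ← h6, Nat.mul_div_cancel_left _ (pow_pos (Fact.out : p.Prime).pos _)]

/-- `Θ ↦ coef0 ∘ Θ|_J` -/
theorem coef0_hom {A : Type} [AddCommGroup A] (a : G →* Multiplicative A) (Θ : G → GA p A)
    (hΘ : Θ ∈ Coc (TA p a)) : (fun j : ↥a.ker => coef0 p (Θ j)) ∈ Hom1 p ↥a.ker := by
  refine ⟨(hΘ.1.comp (coef0 p)).comp_continuous continuous_subtype_val, fun x y => ?_⟩
  have hx : a x = 1 := x.2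
  change coef0 p (Θ (x * y)) = coef0 p (Θ x) + coef0 p (Θ y)
  rw [hΘ.2, Shap_TA_ker a hx, one_mul, Shap_coef0_add]

theorem Shap_rel {I : Type} (r : I → G) (e : I → ℕ) {A : Type} [AddCommGroup A]
    (a : G →* Multiplicative A) (ha : IsLocallyConstant a)
    (hord : ∀ i n, a (r i) ^ n = 1 ↔ p ^ e i ∣ n) (Θ : G → GA p A)
    (hΘ : Θ ∈ Coc (TA p a)) (h0 : ∀ i, Θ (r i ^ p ^ e i) = 0) :
    ∀ x ∈ Rel p r e, Θ x = 0 := by
  set S : Subgroup G :=
    { carrier := {x | a x = 1 ∧ Θ x = 0}
      one_mem' := ⟨map_one a, Shap_coc_one hΘ⟩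
      mul_mem' := by
        rintro x y ⟨hx, hx'⟩ ⟨hy, hy'⟩
        refine ⟨by rw [map_mul, hx, hy, mul_one], ?_⟩
        rw [hΘ.2, hx', hy', mul_zero, add_zero]
      inv_mem' := by
        rintro x ⟨hx, hx'⟩
        refine ⟨by rw [map_inv, hx, inv_one], ?_⟩
        have h3 := hΘ.2 x x⁻¹
        rw [mul_inv_cancel, Shap_coc_one hΘ, hx', zero_add, Shap_TA_ker a hx, one_mul] at h3
        exact h3.symm } with hS
  have hSn : S.Normal := by
    refine ⟨fun n hn g => ?_⟩
    obtain ⟨h1, h2⟩ := hn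
    refine ⟨by rw [map_mul, map_mul, h1, map_inv]; simp, ?_⟩
    rw [Shap_coc_conj hΘ g n (Shap_TA_ker a h1), h2, mul_zero]
  have hSc : IsClosed (S : Set G) := by
    have : (S : Set G) = (a ⁻¹' {1}) ∩ (Θ ⁻¹' {0}) := rfl
    rw [this]
    exact (ha.isClosed_fiber 1).inter (hΘ.1.isClosed_fiber 0)
  have hle : Rel p r e ≤ S := by
    refine Subgroup.topologicalClosure_minimal _ ?_ hSc
    refine Subgroup.normalClosure_le_normal ?_
    rintro _ ⟨i, rfl⟩
    exact ⟨by rw [map_pow]; exact (hord i _).2 dvd_rfl, h0 i⟩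
  intro x hx
  exact (hle hx).2

theorem coef0_homR {I : Type} (r : I → G) (e : I → ℕ) {A : Type} [AddCommGroup A]
    (a : G →* Multiplicative A) (ha : IsLocallyConstant a)
    (hord : ∀ i n, a (r i) ^ n = 1 ↔ p ^ e i ∣ n) (Θ : G → GA p A)
    (hΘ : Θ ∈ Coc (TA p a)) (h0 : ∀ i, Θ (r i ^ p ^ e i) = 0) :
    (fun j : ↥a.ker => coef0 p (Θ j)) ∈ HomR p (Rel p r e) a.ker := by
  refine ⟨coef0_hom a Θ hΘ, fun x hx => ?_⟩
  simp only
  rw [Shap_rel r e a ha hord Θ hΘ h0 x hx]
  simp [coef0]

/-- Shapiro's lemma: every homomorphism on the kernel comes from a cocycle -/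
theorem Shap_surj {A : Type} [AddCommGroup A] [Finite A] (a : G →* Multiplicative A)
    (ha : IsLocallyConstant a) (hs : Function.Surjective a) (f : ↥a.ker → ZMod p)
    (hf : f ∈ Hom1 p ↥a.ker) : ∃ Θ ∈ Coc (TA p a), (∀ j : ↥a.ker, coef0 p (Θ j) = f j) ∧
      ∀ ρ, (h : a ρ = 1) → (∀ x, f ⟨x * ρ * x⁻¹, by
        rw [MonoidHom.mem_ker, map_mul, map_mul, h, map_inv]; simp⟩ = 0) → Θ ρ = 0 := by
  classical
  obtain ⟨hf1, hf2⟩ := hf
  have hf0 : f 1 = 0 := by
    have := hf2 1 1
    rw [mul_one] at this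
    exact left_eq_add.1 this
  choose s hs' using fun b : A => hs (Multiplicative.ofAdd b)
  have hmem : ∀ g : G, g * (s (a g).toAdd)⁻¹ ∈ a.ker := by
    intro g
    rw [MonoidHom.mem_ker, map_mul, map_inv, hs']
    simp
  set d : G → ZMod p := fun g => f ⟨g * (s (a g).toAdd)⁻¹, hmem g⟩ with hd
  have hdu : ∀ (u : ↥a.ker) (g : G), d (u * g) = f u + d g := by
    intro u g
    have hu : a u = 1 := u.2
    simp only [hd]
    rw [← hf2]
    congr 1
    apply Subtype.ext
    simp only [Subgroup.coe_mul, map_mul, hu, one_mul, mul_assoc]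
  have hdl : IsLocallyConstant d := by
    rw [IsLocallyConstant.iff_exists_open]
    intro g₀
    have hN : IsOpen (Subtype.val '' {j : ↥a.ker | f j = 0} : Set G) :=
      (ker_isOpen a ha).isOpenMap_subtype_val _ (hf1.isOpen_fiber 0)
    refine ⟨(fun g => g * g₀⁻¹) ⁻¹' (Subtype.val '' {j : ↥a.ker | f j = 0}),
      hN.preimage (by fun_prop), ⟨1, hf0, by simp⟩, ?_⟩
    rintro g ⟨u, hu, hug⟩
    have : g = u * g₀ := by
      rw [hug]; group
    rw [this, hdu, show f u = 0 from hu, zero_add]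
  set c : G → A → ZMod p := fun g b => d (s (-b) * g) - d (s (-b)) with hc
  set Θ : G → GA p A := fun g => AddMonoidAlgebra.ofCoeff (Finsupp.equivFunOnFinite.symm (c g))
    with hΘ
  have hcoef : ∀ g b, (Θ g).coeff b = d (s (-b) * g) - d (s (-b)) := fun g b => rfl
  have hcl : IsLocallyConstant c := by
    letI : TopologicalSpace (ZMod p) := ⊥
    haveI : DiscreteTopology (ZMod p) := ⟨rfl⟩
    rw [IsLocallyConstant.iff_continuous]
    refine continuous_pi fun b => ?_
    have h1 : Continuous d := hdl.continuous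
    have h2 : Continuous fun g : G => d (s (-b) * g) := h1.comp (by fun_prop)
    exact (IsLocallyConstant.iff_continuous _).1
      (((IsLocallyConstant.iff_continuous _).2 h2).comp (fun z => z - d (s (-b))))
  have hcoc : Θ ∈ Coc (TA p a) := by
    refine ⟨hcl.comp (fun y => AddMonoidAlgebra.ofCoeff (Finsupp.equivFunOnFinite.symm y)), ?_⟩
    intro x y
    apply AddMonoidAlgebra.coeff_injective
    ext b
    rw [AddMonoidAlgebra.coeff_add, Finsupp.add_apply, Shap_TA, Shap_coeff_single_mul,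
      hcoef, hcoef, hcoef]
    set b' : A := b - (a x).toAdd with hb'
    have hu : s (-b) * x * (s (-b'))⁻¹ ∈ a.ker := by
      rw [MonoidHom.mem_ker, map_mul, map_mul, map_inv, hs', hs', hb']
      apply Multiplicative.toAdd.injective
      simp
    have e1 : s (-b) * (x * y) = (⟨_, hu⟩ : ↥a.ker) * (s (-b') * y) := by
      simp only; group
    have e2 : s (-b) * x = (⟨_, hu⟩ : ↥a.ker) * (s (-b')) := by
      simp only; group
    have e3 := hdu ⟨_, hu⟩ (s (-b') * y)
    have e4 := hdu ⟨_, hu⟩ (s (-b'))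
    rw [← e1] at e3
    rw [← e2] at e4
    rw [e3, e4]
    ring
  refine ⟨Θ, hcoc, ?_, ?_⟩
  · intro j
    have h0 : s (-0) ∈ a.ker := by
      rw [MonoidHom.mem_ker, hs']; simp
    have e1 : s (-0) * (j : G) = ((⟨_, h0⟩ : ↥a.ker) * j : ↥a.ker) * (1 : G) := by simp
    have e2 : s (-0) = (⟨_, h0⟩ : ↥a.ker) * (1 : G) := by simp
    have e3 := hdu ⟨_, h0⟩ 1
    rw [← e2] at e3
    rw [coef0, hcoef, e1, hdu, hf2, e3]
    ring
  · intro ρ hρ hx
    apply AddMonoidAlgebra.coeff_injective
    ext b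
    have hu : s (-b) * ρ * (s (-b))⁻¹ ∈ a.ker := by
      rw [MonoidHom.mem_ker, map_mul, map_mul, hρ, map_inv]; simp
    have e1 : s (-b) * ρ = (⟨_, hu⟩ : ↥a.ker) * s (-b) := by
      simp only; group
    rw [hcoef, e1, hdu, hx]
    simp

theorem Shap_rank {K V V' : Type*} [Field K] [AddCommGroup V] [Module K V] [AddCommGroup V']
    [Module K V'] (W : Submodule K V) [FiniteDimensional K W] (f : V →ₗ[K] V') :
    finrank K (W.map f) + finrank K ↥(W ⊓ LinearMap.ker f) = finrank K W := by
  have h := (f.domRestrict W).finrank_range_add_finrank_ker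
  rw [LinearMap.range_domRestrict] at h
  rw [← h]
  congr 1
  have h2 : (LinearMap.ker (f.domRestrict W)).map W.subtype = W ⊓ LinearMap.ker f := by
    ext x
    simp [Submodule.mem_map, LinearMap.mem_ker, and_comm]
  rw [← h2]
  exact (Submodule.equivMapOfInjective W.subtype W.subtype_injective _).finrank_eq.symm

/-- Shapiro's lemma, numerical form -/
theorem shapiro {δ : ℕ} (hG : ProFree p δ G) {I : Type} [Fintype I] (r : I → G) (e : I → ℕ)
    {A : Type} [AddCommGroup A] [Finite A] (a : G →* Multiplicative A)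
    (ha : IsLocallyConstant a) (hs : Function.Surjective a)
    (hord : ∀ i n, a (r i) ^ n = 1 ↔ p ^ e i ∣ n) :
    h2 p r e a.ker = (finrank (ZMod p) ((C2 r (TA p a)).restrictScalars (ZMod p)) : ℤ) -
      finrank (ZMod p) ((Dm (fun i => r i ^ p ^ e i) (TA p a)).restrictScalars (ZMod p)) := by
  classical
  rw [finrank_C2 hG r e a hs hord]
  set W : Submodule (ZMod p) (G → GA p A) := (Coc (TA p a)).restrictScalars (ZMod p) with hW
  have hadm := ker_adm r e a ha hord
  -- the image of evaluation at the relators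
  have hWE : W.map (Shap_E p (fun i => r i ^ p ^ e i)) =
      (Dm (fun i => r i ^ p ^ e i) (TA p a)).restrictScalars (ZMod p) := by
    ext v
    rw [Submodule.mem_map, Submodule.restrictScalars_mem]
    constructor
    · rintro ⟨Θ, hΘ, rfl⟩
      exact ⟨Θ, hΘ, fun i => rfl⟩
    · rintro ⟨Θ, hΘ, h⟩
      exact ⟨Θ, hΘ, funext h⟩
  have hWS : W.map (Shap_S p a) = Hom1 p ↥a.ker := by
    ext f
    rw [Submodule.mem_map]
    constructor
    · rintro ⟨Θ, hΘ, rfl⟩
      exact coef0_hom a Θ hΘ
    · intro hf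
      obtain ⟨Θ, hΘ, h, -⟩ := Shap_surj a ha hs f hf
      exact ⟨Θ, hΘ, funext h⟩
  have hWR : (W ⊓ LinearMap.ker (Shap_E p (fun i => r i ^ p ^ e i))).map (Shap_S p a) =
      HomR p (Rel p r e) a.ker := by
    ext f
    rw [Submodule.mem_map]
    constructor
    · rintro ⟨Θ, ⟨hΘ, hΘ'⟩, rfl⟩
      exact coef0_homR r e a ha hord Θ hΘ (fun i => congrFun hΘ' i)
    · intro hf
      obtain ⟨Θ, hΘ, h, h'⟩ := Shap_surj a ha hs f hf.1
      refine ⟨Θ, ⟨hΘ, ?_⟩, funext h⟩
      rw [SetLike.mem_coe, LinearMap.mem_ker]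
      funext i
      refine h' _ (by rw [map_pow]; exact (hord i _).2 dvd_rfl) fun x => ?_
      exact hf.2 _ ((Rel.normal r e).conj_mem _ (Rel.mem r e i) x)
  have hle : W ⊓ LinearMap.ker (Shap_S p a) ≤
      LinearMap.ker (Shap_E p (fun i => r i ^ p ^ e i)) := by
    rintro Θ ⟨hΘ, hΘ'⟩
    rw [LinearMap.mem_ker]
    funext i
    refine Shap_vanish a hs hΘ (fun j hj => ?_) (by rw [map_pow]; exact (hord i _).2 dvd_rfl)
    exact congrFun hΘ' ⟨j, hj⟩
  haveI hfin : FiniteDimensional (ZMod p) W := by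
    haveI := hG.fin a.ker (ker_isOpen a ha)
    choose s hs' using fun b : A => hs (Multiplicative.ofAdd b)
    haveI : Module.Finite (ZMod p) (GA p A) := inferInstance
    have h1 : (W.map (Shap_S p a)).FG := by
      rw [hWS]
      exact Module.Finite.iff_fg.1 inferInstance
    refine Module.Finite.iff_fg.2 (Submodule.fg_of_fg_map_of_fg_inf_ker (Shap_S p a) h1 ?_)
    refine Submodule.fg_of_fg_map_of_fg_inf_ker (Shap_E p s) ?_ ?_
    · exact Module.Finite.iff_fg.1 inferInstance
    · have : W ⊓ LinearMap.ker (Shap_S p a) ⊓ LinearMap.ker (Shap_E p s) = ⊥ := by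
        rw [eq_bot_iff]
        rintro Θ ⟨⟨hΘ, hΘ'⟩, hΘ''⟩
        rw [Submodule.mem_bot]
        funext g
        have hmem : g * (s (a g).toAdd)⁻¹ ∈ a.ker := by
          rw [MonoidHom.mem_ker, map_mul, map_inv, hs']
          simp
        have h3 : Θ (g * (s (a g).toAdd)⁻¹) = 0 :=
          Shap_vanish a hs hΘ (fun j hj => congrFun hΘ' ⟨j, hj⟩) hmem
        have h4 : Θ (s (a g).toAdd) = 0 := congrFun hΘ'' (a g).toAdd
        have h5 := hΘ.2 (g * (s (a g).toAdd)⁻¹) (s (a g).toAdd)
        rw [h3, h4, mul_zero, add_zero, inv_mul_cancel_right] at h5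
        exact h5
      rw [this]
      exact Submodule.fg_bot
  haveI : FiniteDimensional (ZMod p)
      ↥(W ⊓ LinearMap.ker (Shap_E p (fun i => r i ^ p ^ e i))) :=
    Submodule.finiteDimensional_of_le inf_le_left
  have e1 := Shap_rank W (Shap_S p a)
  have e2 := Shap_rank W (Shap_E p (fun i => r i ^ p ^ e i))
  have e3 := Shap_rank (W ⊓ LinearMap.ker (Shap_E p (fun i => r i ^ p ^ e i))) (Shap_S p a)
  have e4 : W ⊓ LinearMap.ker (Shap_E p (fun i => r i ^ p ^ e i)) ⊓
      LinearMap.ker (Shap_S p a) = W ⊓ LinearMap.ker (Shap_S p a) := by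
    rw [inf_right_comm]
    exact inf_eq_left.2 hle
  rw [hWS] at e1
  rw [hWE] at e2
  rw [hWR, e4] at e3
  have hidx : a.ker.index = Nat.card A := by
    rw [Subgroup.index_ker, MonoidHom.range_eq_top.2 hs]
    rw [Subgroup.card_top]
    exact Nat.card_congr Multiplicative.toAdd
  rw [h2, hidx]
  push_cast
  omega

/-- plain relators: `e = 0` -/
theorem shapiro_plain {δ : ℕ} (hG : ProFree p δ G) {ι : Type} [Fintype ι] (ρ : ι → G)
    {A : Type} [AddCommGroup A] [Finite A] (a : G →* Multiplicative A)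
    (ha : IsLocallyConstant a) (hs : Function.Surjective a) (h1 : ∀ i, a (ρ i) = 1) :
    h2 p ρ (fun _ => 0) a.ker = (Fintype.card ι * Nat.card A : ℤ) -
      finrank (ZMod p) ((Dm ρ (TA p a)).restrictScalars (ZMod p)) := by
  have hord : ∀ i n, a (ρ i) ^ n = 1 ↔ p ^ (0 : ℕ) ∣ n := by
    intro i n
    simp [h1 i]
  have h := shapiro hG ρ (fun _ => 0) a ha hs hord
  rw [finrank_C2 hG ρ (fun _ => 0) a hs hord] at h
  simp only [pow_zero, Nat.div_one, Finset.sum_const, Finset.card_univ,
    smul_eq_mul] at h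
  have h2 : (fun i => ρ i ^ p ^ 0) = ρ := by
    funext i
    rw [pow_zero, pow_one]
  have h3 : Dm (fun i => ρ i ^ p ^ 0) (TA p a) = Dm ρ (TA p a) := by rw [h2]
  rw [h3] at h
  rw [h]
  push_cast
  rfl

end Pool.Agent.RFA
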