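import Pool.Agent.RFA.Alg

set_option autoImplicit false

namespace Pool.Agent.RFA

open Topology Module

variable {p : ℕ} [Fact p.Prime]

namespace UniAux

instance neZeroPow (m : ℕ) : NeZero (p ^ m) := ⟨pow_ne_zero _ (Fact.out : p.Prime).ne_zero⟩

omit [Fact p.Prime] in
theorem card_pow (m : ℕ) : ∃ n, Nat.card (ZMod (p ^ m)) = p ^ n := ⟨m, Nat.card_zmod _⟩

instance charP_GA (A : Type) [AddCommGroup A] : CharP (GA p A) p :=
  charP_of_injective_algebraMap (R := ZMod p) (A := GA p A)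
    (FaithfulSMul.algebraMap_injective (ZMod p) (GA p A)) p

theorem single_nat (m n : ℕ) (c : ZMod p) :
    (AddMonoidAlgebra.single ((n : ZMod (p ^ m))) c : GA p (ZMod (p ^ m))) =
      c • (AddMonoidAlgebra.single (1 : ZMod (p ^ m)) (1 : ZMod p)) ^ n := by
  rw [AddMonoidAlgebra.single_pow, one_pow, AddMonoidAlgebra.smul_single', mul_one, nsmul_eq_mul,
    mul_one]

theorem single_one_eq (m : ℕ) :
    (AddMonoidAlgebra.single (1 : ZMod (p ^ m)) (1 : ZMod p) : GA p (ZMod (p ^ m))) =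
      tau p m + 1 := by
  unfold tau tt
  ring

theorem aug_tau (m : ℕ) : aug p (tau p m) = 0 := by
  unfold tau tt
  rw [map_sub, aug_single, map_one, sub_self]

theorem sub_aug_mem (m : ℕ) (b : GA p (ZMod (p ^ m))) :
    b - algebraMap (ZMod p) _ (aug p b) ∈ Ideal.span {tau p m} := by
  induction b using AddMonoidAlgebra.induction_linear with
  | zero => simp
  | add x y hx hy =>
    have : x + y - algebraMap (ZMod p) _ (aug p (x + y)) =
        (x - algebraMap (ZMod p) _ (aug p x)) + (y - algebraMap (ZMod p) _ (aug p y)) := by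
      rw [map_add, map_add]; ring
    rw [this]
    exact Ideal.add_mem _ hx hy
  | single a c =>
    obtain ⟨n, rfl⟩ : ∃ n : ℕ, (n : ZMod (p ^ m)) = a := ⟨a.val, ZMod.natCast_zmod_val a⟩
    rw [aug_single, single_nat, single_one_eq, Algebra.smul_def]
    have h1 : tau p m ∣ (tau p m + 1) ^ n - 1 ^ n := by
      have := sub_dvd_pow_sub_pow (tau p m + 1) 1 n
      rwa [add_sub_cancel_right] at this
    have h2 : algebraMap (ZMod p) (GA p (ZMod (p ^ m))) c * (tau p m + 1) ^ n -
        algebraMap (ZMod p) (GA p (ZMod (p ^ m))) c =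
        algebraMap (ZMod p) (GA p (ZMod (p ^ m))) c * ((tau p m + 1) ^ n - 1 ^ n) := by
      rw [one_pow]; ring
    rw [h2]
    exact Ideal.mul_mem_left _ _ (Ideal.mem_span_singleton.2 h1)

theorem unit_iff (m : ℕ) (b : GA p (ZMod (p ^ m))) : IsUnit b ↔ aug p b ≠ 0 :=
  isUnit_iff_aug (card_pow m) b

end UniAux

open UniAux

theorem mI_eq_span_tau (m : ℕ) : mI p (ZMod (p ^ m)) = Ideal.span {tau p m} := by
  apply le_antisymm
  · intro b hb
    have hb' : aug p b = 0 := hb
    have h := UniAux.sub_aug_mem m b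
    rwa [hb', map_zero, sub_zero] at h
  · rw [Ideal.span_le, Set.singleton_subset_iff]
    exact aug_tau m

theorem tau_pow (m : ℕ) : tau p m ^ p ^ m = 0 := by
  unfold tau tt
  rw [sub_pow_char_pow, one_pow, AddMonoidAlgebra.single_pow, one_pow, nsmul_eq_mul, mul_one,
    ZMod.natCast_self, ← AddMonoidAlgebra.one_def, sub_self]

theorem exists_hasOrd (m : ℕ) (b : GA p (ZMod (p ^ m))) : ∃ j, HasOrd p m b j := by
  have key : ∀ j : ℕ, (∃ c, b = c * tau p m ^ j) ∨ ∃ i, HasOrd p m b i := by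
    intro j
    induction j with
    | zero => exact Or.inl ⟨b, by simp⟩
    | succ j ih =>
      rcases ih with ⟨c, hc⟩ | h
      · by_cases hu : aug p c = 0
        · have h1 : c ∈ mI p (ZMod (p ^ m)) := hu
          rw [mI_eq_span_tau, Ideal.mem_span_singleton'] at h1
          obtain ⟨d, hd⟩ := h1
          refine Or.inl ⟨d, ?_⟩
          rw [hc, ← hd, pow_succ]
          ring
        · exact Or.inr ⟨j, c, (unit_iff m c).2 hu, hc⟩
      · exact Or.inr h
  rcases key (p ^ m) with ⟨c, hc⟩ | h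
  · rw [tau_pow, mul_zero] at hc
    exact ⟨p ^ m, 1, isUnit_one, by rw [hc, tau_pow, mul_zero]⟩
  · exact h

namespace UniAux

/-- dimension of the ideal generated by `tau ^ j` -/
noncomputable def dd (p : ℕ) [Fact p.Prime] (m j : ℕ) : ℕ :=
  finrank (ZMod p) ((Ideal.span {tau p m ^ j}).restrictScalars (ZMod p))

theorem dd_zero (m : ℕ) : dd p m 0 = p ^ m := by
  unfold dd
  rw [pow_zero, Ideal.span_singleton_one]
  have : (⊤ : Ideal (GA p (ZMod (p ^ m)))).restrictScalars (ZMod p) = ⊤ := rfl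
  rw [this, finrank_top, finrank_GA, Nat.card_zmod]

theorem dd_top (m : ℕ) : dd p m (p ^ m) = 0 := by
  unfold dd
  rw [tau_pow]
  have : (Ideal.span {(0 : GA p (ZMod (p ^ m)))}).restrictScalars (ZMod p) = ⊥ := by
    ext x
    simp
  rw [this, finrank_bot]

theorem dd_step (m j : ℕ) : dd p m j ≤ dd p m (j + 1) + 1 := by
  unfold dd
  have hle : (Ideal.span {tau p m ^ j}).restrictScalars (ZMod p) ≤
      (Ideal.span {tau p m ^ (j + 1)}).restrictScalars (ZMod p) ⊔
        Submodule.span (ZMod p) {tau p m ^ j} := by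
    intro x hx
    rw [Submodule.restrictScalars_mem, Ideal.mem_span_singleton'] at hx
    obtain ⟨c, rfl⟩ := hx
    have h1 := UniAux.sub_aug_mem m c
    rw [Ideal.mem_span_singleton'] at h1
    obtain ⟨d, hd⟩ := h1
    have h2 : c * tau p m ^ j = d * tau p m ^ (j + 1) + (aug p c) • tau p m ^ j := by
      have h3 : c = d * tau p m + algebraMap (ZMod p) _ (aug p c) := by rw [hd]; ring
      rw [Algebra.smul_def]
      calc c * tau p m ^ j = (d * tau p m + algebraMap (ZMod p) _ (aug p c)) * tau p m ^ j := by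
            rw [← h3]
        _ = _ := by rw [pow_succ]; ring
    rw [h2]
    refine Submodule.add_mem_sup ?_ ?_
    · rw [Submodule.restrictScalars_mem]
      exact Ideal.mul_mem_left _ _ (Ideal.mem_span_singleton_self _)
    · exact Submodule.smul_mem _ _ (Submodule.mem_span_singleton_self _)
  have h1 := Submodule.finrank_mono hle
  have h2 := Submodule.finrank_add_le_finrank_add_finrank
    ((Ideal.span {tau p m ^ (j + 1)}).restrictScalars (ZMod p))
    (Submodule.span (ZMod p) {tau p m ^ j})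
  have h3 : finrank (ZMod p) (Submodule.span (ZMod p) {tau p m ^ j}) ≤ 1 := by
    have := finrank_span_finset_le_card (R := ZMod p) ({tau p m ^ j} : Finset (GA p (ZMod (p ^ m))))
    rw [Finset.card_singleton, Finset.coe_singleton] at this
    exact this
  omega

theorem dd_le (m j k : ℕ) : dd p m j ≤ dd p m (j + k) + k := by
  induction k with
  | zero => simp
  | succ k ih =>
    have := dd_step (p := p) m (j + k)
    have e : j + (k + 1) = j + k + 1 := by ring
    rw [e]
    omega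

theorem dd_eq (m j : ℕ) (hj : j ≤ p ^ m) : dd p m j = p ^ m - j := by
  have h1 := dd_le (p := p) m 0 j
  have h2 := dd_le (p := p) m j (p ^ m - j)
  rw [zero_add, dd_zero] at h1
  rw [Nat.add_sub_cancel' hj, dd_top] at h2
  omega

end UniAux

theorem HasOrd.finrank {m : ℕ} {b : GA p (ZMod (p ^ m))} {j : ℕ} (h : HasOrd p m b j)
    (hj : j ≤ p ^ m) :
    finrank (ZMod p) ((Ideal.span {b}).restrictScalars (ZMod p)) = p ^ m - j := by
  obtain ⟨u, hu, rfl⟩ := h
  rw [Ideal.span_singleton_mul_left_unit hu]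
  exact dd_eq m j hj

theorem HasOrd.ne_zero {m : ℕ} {b : GA p (ZMod (p ^ m))} {j : ℕ} (h : HasOrd p m b j)
    (hj : j < p ^ m) : b ≠ 0 := by
  rintro rfl
  have h1 := h.finrank hj.le
  have : (Ideal.span {(0 : GA p (ZMod (p ^ m)))}).restrictScalars (ZMod p) = ⊥ := by
    ext x
    simp
  rw [this, finrank_bot] at h1
  omega

theorem HasOrd.mul {m : ℕ} {b b' : GA p (ZMod (p ^ m))} {j j' : ℕ} (h : HasOrd p m b j)
    (h' : HasOrd p m b' j') : HasOrd p m (b * b') (j + j') := by
  obtain ⟨u, hu, rfl⟩ := h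
  obtain ⟨u', hu', rfl⟩ := h'
  exact ⟨u * u', hu.mul hu', by rw [pow_add]; ring⟩

theorem HasOrd.pow {m : ℕ} {b : GA p (ZMod (p ^ m))} {j : ℕ} (h : HasOrd p m b j) (n : ℕ) :
    HasOrd p m (b ^ n) (n * j) := by
  obtain ⟨u, hu, rfl⟩ := h
  exact ⟨u ^ n, hu.pow n, by rw [mul_pow, ← pow_mul, mul_comm j n]⟩

theorem HasOrd.prod {m : ℕ} {L : Type} (s : Finset L) (b : L → GA p (ZMod (p ^ m))) (j : L → ℕ)
    (h : ∀ l ∈ s, HasOrd p m (b l) (j l)) : HasOrd p m (∏ l ∈ s, b l) (∑ l ∈ s, j l) := by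
  classical
  induction s using Finset.induction_on with
  | empty => exact ⟨1, isUnit_one, by simp⟩
  | insert a s ha ih =>
    rw [Finset.prod_insert ha, Finset.sum_insert ha]
    exact (h a (Finset.mem_insert_self a s)).mul
      (ih fun l hl => h l (Finset.mem_insert_of_mem hl))

theorem HasOrd.add {m : ℕ} {b b' : GA p (ZMod (p ^ m))} {j : ℕ} (h : HasOrd p m b j)
    (h' : b' ∈ Ideal.span {tau p m ^ (j + 1)}) : HasOrd p m (b + b') j := by
  obtain ⟨u, hu, rfl⟩ := h
  rw [Ideal.mem_span_singleton'] at h'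
  obtain ⟨c, rfl⟩ := h'
  refine ⟨u + c * tau p m, ?_, by rw [pow_succ]; ring⟩
  rw [unit_iff] at hu ⊢
  rwa [map_add, map_mul, aug_tau, mul_zero, add_zero]

theorem HasOrd.mem {m : ℕ} {b : GA p (ZMod (p ^ m))} {j : ℕ} (h : HasOrd p m b j) (i : ℕ)
    (hi : i ≤ j) : b ∈ Ideal.span {tau p m ^ i} := by
  obtain ⟨u, _, rfl⟩ := h
  rw [Ideal.mem_span_singleton]
  exact dvd_mul_of_dvd_right (pow_dvd_pow _ hi) _

theorem HasOrd.ginv {m : ℕ} {b : GA p (ZMod (p ^ m))} {j : ℕ} (h : HasOrd p m b j) :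
    HasOrd p m (ginv p b) j := by
  obtain ⟨u, hu, rfl⟩ := h
  have h1 : Pool.Agent.RFA.ginv p (tau p m) =
      -(AddMonoidAlgebra.single (-1 : ZMod (p ^ m)) (1 : ZMod p)) * tau p m := by
    unfold tau tt Pool.Agent.RFA.ginv
    rw [map_sub, gmap_single, map_one (gmap p (negAddMonoidHom : ZMod (p ^ m) →+ ZMod (p ^ m))),
      mul_sub, mul_one, neg_mul, AddMonoidAlgebra.single_mul_single]
    have e1 : ((negAddMonoidHom : ZMod (p ^ m) →+ ZMod (p ^ m)) (1 : ZMod (p ^ m))) = -1 := rfl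
    rw [e1, neg_add_cancel, mul_one, ← AddMonoidAlgebra.one_def]
    ring
  refine ⟨Pool.Agent.RFA.ginv p u *
    (-(AddMonoidAlgebra.single (-1 : ZMod (p ^ m)) (1 : ZMod p))) ^ j, ?_, ?_⟩
  · refine (hu.map (Pool.Agent.RFA.ginv p)).mul (IsUnit.pow _ ?_)
    rw [unit_iff, map_neg, aug_single]
    simp
  · rw [map_mul, map_pow, h1, mul_pow]
    ring

theorem hasOrd_unit {m : ℕ} {b : GA p (ZMod (p ^ m))} (h : aug p b ≠ 0) : HasOrd p m b 0 :=
  ⟨b, (unit_iff m b).2 h, by simp⟩

namespace UniAux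

theorem hasOrd_nat (m n : ℕ) (hn : (n : ZMod p) ≠ 0) :
    HasOrd p m (tt p ((n : ZMod (p ^ m)))) 1 := by
  have h1 : tt p ((n : ZMod (p ^ m))) =
      (∑ i ∈ Finset.range n, (AddMonoidAlgebra.single (1 : ZMod (p ^ m)) (1 : ZMod p)) ^ i) *
        tau p m := by
    unfold tau
    unfold tt
    rw [geom_sum_mul, single_nat, one_smul]
  refine ⟨_, ?_, by rw [pow_one]; exact h1⟩
  rw [unit_iff, map_sum]
  simp only [map_pow, aug_single, one_pow, Finset.sum_const, Finset.card_range, nsmul_eq_mul,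
    mul_one]
  exact hn

theorem exists_nat_rep (m : ℕ) (u : ℤ_[p]) (hu : IsUnit u) :
    ∃ n : ℕ, (n : ZMod p) ≠ 0 ∧ PadicInt.toZModPow m u = (n : ZMod (p ^ m)) := by
  refine ⟨u.appr (m + 1), ?_, ?_⟩
  · intro h
    have h1 := PadicInt.appr_spec (m + 1) u
    rw [Ideal.mem_span_singleton] at h1
    have h2 : (p : ℤ_[p]) ∣ u - (u.appr (m + 1) : ℤ_[p]) :=
      (dvd_pow_self _ (Nat.succ_ne_zero m)).trans h1
    have h3 : p ∣ u.appr (m + 1) := (ZMod.natCast_eq_zero_iff _ _).1 h
    have h4 : (p : ℤ_[p]) ∣ (u.appr (m + 1) : ℤ_[p]) := by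
      obtain ⟨c, hc⟩ := h3
      exact ⟨c, by rw [hc]; push_cast; ring⟩
    have h5 : (p : ℤ_[p]) ∣ u := by
      have := dvd_add h2 h4
      rwa [sub_add_cancel] at this
    exact PadicInt.prime_p.not_isUnit (isUnit_of_dvd_unit h5 hu)
  · have h1 := PadicInt.appr_spec (m + 1) u
    rw [Ideal.mem_span_singleton] at h1
    have h2 : u - (u.appr (m + 1) : ℤ_[p]) ∈ RingHom.ker (PadicInt.toZModPow (p := p) m) := by
      rw [PadicInt.ker_toZModPow, Ideal.mem_span_singleton]
      exact (pow_dvd_pow _ (Nat.le_succ m)).trans h1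
    rw [RingHom.mem_ker, map_sub, map_natCast, sub_eq_zero] at h2
    exact h2

end UniAux

/-- order of `[c] - 1` for `c = p^v · unit` in `ℤ_p` (also true, and trivial, if `v ≥ m`) -/
theorem hasOrd_tt (m v : ℕ) (u : ℤ_[p]) (hu : IsUnit u) :
    HasOrd p m (tt p (PadicInt.toZModPow m ((p : ℤ_[p]) ^ v * u))) (p ^ v) := by
  obtain ⟨n, hn, hn'⟩ := exists_nat_rep m u hu
  have h1 := (hasOrd_nat m n hn).pow (p ^ v)
  rw [mul_one] at h1
  have h2 : tt p (PadicInt.toZModPow m ((p : ℤ_[p]) ^ v * u)) =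
      tt p ((n : ZMod (p ^ m))) ^ p ^ v := by
    unfold tt
    rw [sub_pow_char_pow, one_pow, AddMonoidAlgebra.single_pow, one_pow, map_mul, map_pow,
      map_natCast, hn', nsmul_eq_mul]
    push_cast
    rfl
  rw [h2]
  exact h1

/-- specialisation bound: if `f : A → Z/p^m` is onto and `f_* b` has order `D` then the ideal
generated by `b` in `K[A]` has dimension at least `p^m - D`. -/
theorem finrank_span_ge {A : Type} [AddCommGroup A] [Finite A] (m : ℕ) (f : A →+ ZMod (p ^ m))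
    (hf : Function.Surjective f) (b : GA p A) (D : ℕ) (h : HasOrd p m (gmap p f b) D)
    (hD : D ≤ p ^ m) :
    p ^ m - D ≤ finrank (ZMod p) ((Ideal.span {b}).restrictScalars (ZMod p)) := by
  rw [← h.finrank hD]
  have h1 : (Ideal.span {gmap p f b}).restrictScalars (ZMod p) ≤
      ((Ideal.span {b}).restrictScalars (ZMod p)).map (gmap p f).toLinearMap := by
    intro x hx
    rw [Submodule.restrictScalars_mem, Ideal.mem_span_singleton'] at hx
    obtain ⟨c, rfl⟩ := hx
    obtain ⟨c', rfl⟩ := gmap_surjective f hf c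
    refine ⟨c' * b, ?_, ?_⟩
    · exact Ideal.mul_mem_left _ _ (Ideal.mem_span_singleton_self _)
    · simp
  exact (Submodule.finrank_mono h1).trans (Submodule.finrank_map_le _ _)

end Pool.Agent.RFA
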