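import Pool.Agent.RFA.Lift01
import Pool.Agent.RFA.Shap
import Pool.Agent.RFA.Uni
import Pool.Agent.RFA.CupB

set_option autoImplicit false

namespace Pool.Agent.RFA

open Topology Module

variable {p : ℕ} [Fact p.Prime] {G : Type} [Group G] [TopologicalSpace G] [IsTopologicalGroup G]

/-! ### Auxiliary lemmas -/

omit [TopologicalSpace G] [IsTopologicalGroup G] in
/-- value of a cocycle on a power -/
lemma coreC_coc_pow {Λ : Type} [CommRing Λ] (T : G →* Λ) (Θ : G → Λ)
    (h : ∀ x y, Θ (x * y) = Θ x + T x * Θ y) (x : G) (n : ℕ) :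
    Θ (x ^ n) = (∑ k ∈ Finset.range n, T x ^ k) * Θ x := by
  induction n with
  | zero =>
    have h1 := h 1 1
    rw [mul_one, map_one, one_mul] at h1
    have : Θ 1 = 0 := by
      have h2 : Θ 1 + 0 = Θ 1 + Θ 1 := by rw [add_zero]; exact h1
      exact (add_left_cancel h2).symm
    simp [this]
  | succ n ih =>
    rw [pow_succ, h, ih, Finset.sum_range_succ, map_pow]
    ring

/-- `{y : ([a] - 1) y = 0} = N Λ` if the coordinate `a 0` is a unit -/
lemma coreC_inv (m : ℕ) (a : Fin 2 → ZMod (p ^ m)) (hu : IsUnit (a 0))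
    (y : GA p (Fin 2 → ZMod (p ^ m))) (hy : (AddMonoidAlgebra.single a 1 - 1) * y = 0) :
    ∃ c : GA p (Fin 2 → ZMod (p ^ m)),
      (∑ k ∈ Finset.range (p ^ m), (AddMonoidAlgebra.single a (1 : ZMod p)) ^ k) * c = y := by
  classical
  have : NeZero (p ^ m) := ⟨pow_ne_zero _ (Fact.out : p.Prime).ne_zero⟩
  obtain ⟨u, hu⟩ := hu
  have hy1 : AddMonoidAlgebra.single a (1 : ZMod p) * y = y := by
    rw [sub_mul, one_mul, sub_eq_zero] at hy; exact hy
  have hyk : ∀ k : ℕ, ∀ b, y.coeff (b - k • a) = y.coeff b := by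
    intro k
    induction k with
    | zero => intro b; simp
    | succ k ih =>
      intro b
      have h1 : y.coeff (b - k • a) = y.coeff (-a + (b - k • a)) := by
        conv_lhs => rw [← hy1]
        rw [AddMonoidAlgebra.coeff_single_mul_apply, one_mul]
      rw [← ih b, h1]
      congr 1
      rw [succ_nsmul]; abel
  refine ⟨∑ v ∈ Finset.univ.filter (fun v : Fin 2 → ZMod (p ^ m) => v 0 = 0),
    AddMonoidAlgebra.single v (y.coeff v), ?_⟩
  ext b
  rw [Finset.sum_mul, AddMonoidAlgebra.coeff_sum, Finsupp.finsetSum_apply]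
  have hterm : ∀ k : ℕ, ((AddMonoidAlgebra.single a (1 : ZMod p)) ^ k *
      ∑ v ∈ Finset.univ.filter (fun v : Fin 2 → ZMod (p ^ m) => v 0 = 0),
        AddMonoidAlgebra.single v (y.coeff v)).coeff b =
      if b 0 = (k : ZMod (p ^ m)) * a 0 then y.coeff b else 0 := by
    intro k
    rw [AddMonoidAlgebra.single_pow, one_pow, AddMonoidAlgebra.coeff_single_mul_apply, one_mul,
      AddMonoidAlgebra.coeff_sum, Finsupp.finsetSum_apply]
    have e : ∀ v : Fin 2 → ZMod (p ^ m), (AddMonoidAlgebra.single v (y.coeff v)).coeff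
        (-(k • a) + b) = if v = -(k • a) + b then y.coeff v else 0 := by
      intro v
      rw [AddMonoidAlgebra.coeff_single, Finsupp.single_apply]
    rw [Finset.sum_congr rfl (fun v _ => e v), Finset.sum_ite_eq']
    have e2 : (-(k • a) + b : Fin 2 → ZMod (p ^ m)) = b - k • a := by abel
    rw [e2, hyk]
    have e3 : (b - k • a ∈ Finset.univ.filter (fun v : Fin 2 → ZMod (p ^ m) => v 0 = 0)) ↔
        b 0 = (k : ZMod (p ^ m)) * a 0 := by
      simp [sub_eq_zero]
    simp only [e3]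
  rw [Finset.sum_congr rfl (fun k _ => hterm k)]
  rw [Finset.sum_eq_single (b 0 * ↑u⁻¹ : ZMod (p ^ m)).val]
  · rw [if_pos]
    rw [ZMod.natCast_val, ZMod.cast_id', id_eq, mul_assoc, ← hu, Units.inv_mul, mul_one]
  · intro k hk hne
    rw [if_neg]
    intro h
    apply hne
    rw [h, mul_assoc, ← hu, Units.mul_inv, mul_one, ZMod.val_natCast,
      Nat.mod_eq_of_lt (Finset.mem_range.1 hk)]
  · intro h
    exact absurd (Finset.mem_range.2 (ZMod.val_lt _)) h

/-- the linear form `v ↦ -b v₀ + a v₁` -/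
def coreC_lam (m : ℕ) (a : Fin 2 → ZMod (p ^ m)) : (Fin 2 → ZMod (p ^ m)) →+ ZMod (p ^ m) where
  toFun v := a 0 * v 1 - a 1 * v 0
  map_zero' := by simp
  map_add' v w := by simp only [Pi.add_apply]; ring

omit [Fact p.Prime] in
lemma coreC_lam_surj (m : ℕ) (a : Fin 2 → ZMod (p ^ m)) (hu : IsUnit (a 0)) :
    Function.Surjective (coreC_lam (p := p) m a) := by
  obtain ⟨u, hu⟩ := hu
  intro c
  refine ⟨![0, ↑u⁻¹ * c], ?_⟩
  change a 0 * (![0, ↑u⁻¹ * c] : Fin 2 → ZMod (p ^ m)) 1 -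
    a 1 * (![0, ↑u⁻¹ * c] : Fin 2 → ZMod (p ^ m)) 0 = c
  simp [← hu]

lemma coreC_lam_ker (m : ℕ) (a : Fin 2 → ZMod (p ^ m)) (hu : IsUnit (a 0)) :
    RingHom.ker (gmap p (coreC_lam (p := p) m a)) = Ideal.span {tt p a} := by
  have : NeZero (p ^ m) := ⟨pow_ne_zero _ (Fact.out : p.Prime).ne_zero⟩
  apply gmap_ker_of_gen
  · change a 0 * a 1 - a 1 * a 0 = 0
    ring
  · intro v hv
    obtain ⟨u, hu⟩ := hu
    have hv' : a 0 * v 1 - a 1 * v 0 = 0 := hv
    refine ⟨(v 0 * ↑u⁻¹ : ZMod (p ^ m)).val, ?_⟩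
    funext j
    rw [Pi.smul_apply, nsmul_eq_mul, ZMod.natCast_val, ZMod.cast_id', id_eq]
    fin_cases j
    · change v 0 = v 0 * ↑u⁻¹ * a 0
      rw [mul_assoc, ← hu, Units.inv_mul, mul_one]
    · change v 1 = v 0 * ↑u⁻¹ * a 1
      have h2 : a 0 * v 1 = a 1 * v 0 := sub_eq_zero.1 hv'
      have h3 : ↑u * v 1 = a 1 * v 0 := by rw [hu]; exact h2
      calc v 1 = ↑u⁻¹ * (↑u * v 1) := by rw [← mul_assoc, Units.inv_mul, one_mul]
        _ = v 0 * ↑u⁻¹ * a 1 := by rw [h3]; ring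


/-- a complement of a principal ideal of `K[Z/p^m]` -/
lemma coreC_compl (m : ℕ) (b : GA p (ZMod (p ^ m))) (D : ℕ) (h : HasOrd p m b D) :
    ∃ S : Submodule (ZMod p) (GA p (ZMod (p ^ m))), finrank (ZMod p) S ≤ D ∧
      ∀ q, ∃ s ∈ S, ∃ z, q = s + b * z := by
  have : NeZero (p ^ m) := ⟨pow_ne_zero _ (Fact.out : p.Prime).ne_zero⟩
  have : Module.Finite (ZMod p) (GA p (ZMod (p ^ m))) := Module.Finite.of_finite
  obtain ⟨S, hS⟩ := Submodule.exists_isCompl ((Ideal.span {b}).restrictScalars (ZMod p))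
  refine ⟨S, ?_, ?_⟩
  · have h1 := Submodule.finrank_add_eq_of_isCompl hS
    have h2 : finrank (ZMod p) (GA p (ZMod (p ^ m))) = p ^ m := by
      rw [finrank_GA, Nat.card_zmod]
    by_cases hD : D ≤ p ^ m
    · rw [h.finrank hD, h2] at h1
      omega
    · omega
  · intro q
    have hq : q ∈ ((Ideal.span {b}).restrictScalars (ZMod p)) ⊔ S := by
      rw [hS.sup_eq_top]; trivial
    obtain ⟨j, hj, s, hs, e⟩ := Submodule.mem_sup.1 hq
    rw [Submodule.restrictScalars_mem, Ideal.mem_span_singleton] at hj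
    obtain ⟨z, rfl⟩ := hj
    exact ⟨s, hs, z, by rw [← e, add_comm]⟩

/-- a complement of the ideal `([a] - 1, P)` -/
lemma coreC_compl' (m : ℕ) (a : Fin 2 → ZMod (p ^ m)) (hu : IsUnit (a 0))
    (P : GA p (Fin 2 → ZMod (p ^ m))) (D : ℕ)
    (h : HasOrd p m (gmap p (coreC_lam (p := p) m a) P) D) :
    ∃ S : Submodule (ZMod p) (GA p (Fin 2 → ZMod (p ^ m))), finrank (ZMod p) S ≤ D ∧
      ∀ c, ∃ s ∈ S, ∃ x z, c = s + tt p a * x + P * z := by
  have : NeZero (p ^ m) := ⟨pow_ne_zero _ (Fact.out : p.Prime).ne_zero⟩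
  obtain ⟨S, hS, hS'⟩ := coreC_compl m _ D h
  have hsurj := gmap_surjective (p := p) (coreC_lam (p := p) m a) (coreC_lam_surj m a hu)
  obtain ⟨σ, hσ⟩ := LinearMap.exists_rightInverse_of_surjective
    (gmap p (coreC_lam (p := p) m a)).toLinearMap (LinearMap.range_eq_top.2 hsurj)
  have hσ' : ∀ q, gmap p (coreC_lam (p := p) m a) (σ q) = q := fun q =>
    congrArg (fun f : _ →ₗ[ZMod p] _ => f q) hσ
  refine ⟨S.map σ, ?_, ?_⟩
  · have : Module.Finite (ZMod p) (GA p (ZMod (p ^ m))) := Module.Finite.of_finite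
    exact (Submodule.finrank_map_le σ S).trans hS
  · intro c
    obtain ⟨s, hs, z, hz⟩ := hS' (gmap p (coreC_lam (p := p) m a) c)
    obtain ⟨z', rfl⟩ := hsurj z
    have hk : c - σ s - P * z' ∈ RingHom.ker (gmap p (coreC_lam (p := p) m a)) := by
      rw [RingHom.mem_ker, map_sub, map_sub, map_mul, hσ', hz]
      ring
    rw [coreC_lam_ker m a hu, Ideal.mem_span_singleton] at hk
    obtain ⟨x, hx⟩ := hk
    refine ⟨σ s, Submodule.mem_map_of_mem hs, x, z', ?_⟩
    rw [← hx]; ring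


omit [IsTopologicalGroup G] in
lemma coreC_redp_mem {ι : Type} (ρ : ι → G) (φ : Z1 p G) (h : ∀ i, (φ : G → ℤ_[p]) (ρ i) = 0) :
    redp p (φ : G → ℤ_[p]) ∈ HomP p ρ := by
  have hl : IsLocallyConstant (fun z : ℤ_[p] => PadicInt.toZMod z) := by
    rw [IsLocallyConstant.iff_exists_open]
    intro z
    refine ⟨Metric.ball z 1, Metric.isOpen_ball, Metric.mem_ball_self one_pos, fun w hw => ?_⟩
    have h1 : ‖w - z‖ < 1 := by
      rw [← dist_eq_norm]; exact hw
    have h2 : w - z ∈ RingHom.ker (PadicInt.toZMod (p := p)) := by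
      rw [PadicInt.ker_toZMod, IsLocalRing.mem_maximalIdeal]
      exact PadicInt.mem_nonunits.2 h1
    rw [RingHom.mem_ker, map_sub, sub_eq_zero] at h2
    exact h2
  refine ⟨⟨hl.comp_continuous φ.2.1, fun x y => ?_⟩, fun i => ?_⟩
  · change PadicInt.toZMod _ = PadicInt.toZMod _ + PadicInt.toZMod _
    rw [φ.2.2, map_add]
  · change PadicInt.toZMod _ = 0
    rw [h i, map_zero]

/-- `h2` of the new group is bounded independently of `m` -/
theorem core_bound (hp : p ≠ 2) {δ : ℕ} (hG : ProFree p δ G) {ι L : Type} [Fintype ι] [Fintype L]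
    (ρ : ι → G) (r : L → G) (χ : Fin 2 → Z1 p G)
    (hχ : ∀ j i, (χ j : G → ℤ_[p]) (ρ i) = 0)
    (hu : ∀ l, IsUnit ((χ 0 : G → ℤ_[p]) (r l)))
    (hi : Indep p ⊤ (fun j => (χ j : G → ℤ_[p])))
    (hI : IK p ρ (fun j => redp p (χ j : G → ℤ_[p])))
    (hc : CupZero p ρ (redp p (χ 1 : G → ℤ_[p])) (redp p (χ 0 : G → ℤ_[p])))
    (hdet : ∀ l l', l ≠ l' → (χ 0 : G → ℤ_[p]) (r l) * (χ 1 : G → ℤ_[p]) (r l') ≠
      (χ 0 : G → ℤ_[p]) (r l') * (χ 1 : G → ℤ_[p]) (r l)) :
    ∃ C : ℕ, ∀ m, h2 p (Sum.elim ρ r) (Sum.elim (fun _ => 0) (fun _ => m)) (redm p χ m).ker ≤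
      C := by
  classical
  -- determinants and the constant
  let det : L → L → ℤ_[p] := fun l l' =>
    (χ 0 : G → ℤ_[p]) (r l) * (χ 1 : G → ℤ_[p]) (r l') -
      (χ 1 : G → ℤ_[p]) (r l) * (χ 0 : G → ℤ_[p]) (r l')
  have hdet0 : ∀ l l', l ≠ l' → det l l' ≠ 0 := by
    intro l l' hne h0
    apply hdet l l' hne
    rw [mul_comm ((χ 0 : G → ℤ_[p]) (r l')) _]
    exact sub_eq_zero.1 h0
  let D : L → ℕ := fun l => ∑ l' ∈ Finset.univ.erase l, p ^ (det l l').valuation
  refine ⟨Fintype.card ι + ∑ l, D l, fun m => ?_⟩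
  have hne : NeZero (p ^ m) := ⟨pow_ne_zero _ (Fact.out : p.Prime).ne_zero⟩
  have hcard : ∃ n, Nat.card (Fin 2 → ZMod (p ^ m)) = p ^ n := by
    refine ⟨m * 2, ?_⟩
    rw [Nat.card_pi]
    simp [pow_mul]
  -- the vectors a_l
  let av : L → (Fin 2 → ZMod (p ^ m)) := fun l j => PadicInt.toZModPow m ((χ j : G → ℤ_[p]) (r l))
  have hav : ∀ l, redm p χ m (r l) = Multiplicative.ofAdd (av l) := fun l => rfl
  have hau : ∀ l, IsUnit (av l 0) := fun l => (hu l).map (PadicInt.toZModPow m)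
  have hρ1 : ∀ i, redm p χ m (ρ i) = 1 := by
    intro i
    change Multiplicative.ofAdd (fun j => PadicInt.toZModPow m ((χ j : G → ℤ_[p]) (ρ i))) = 1
    rw [← ofAdd_zero]
    congr 1
    funext j
    rw [hχ j i, map_zero]; rfl
  have hT : ∀ l, Tm p χ m (r l) = AddMonoidAlgebra.single (av l) 1 := fun l => rfl
  have hTρ : ∀ i, Tm p χ m (ρ i) = 1 := by
    intro i
    change (AddMonoidAlgebra.of (ZMod p) (Fin 2 → ZMod (p ^ m))) (redm p χ m (ρ i)) = 1
    rw [hρ1, map_one]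
  have hord : ∀ (i : ι ⊕ L) (n : ℕ), redm p χ m (Sum.elim ρ r i) ^ n = 1 ↔
      p ^ (Sum.elim (fun _ => 0) (fun _ => m) i : ℕ) ∣ n := by
    rintro (i | l) n
    · simp [hρ1]
    · simp only [Sum.elim_inr]
      rw [hav, ← ofAdd_nsmul, ← ofAdd_zero, Multiplicative.ofAdd.injective.eq_iff,
        ← ZMod.natCast_eq_zero_iff]
      constructor
      · intro h
        have h0 := congrFun h 0
        rw [Pi.smul_apply, nsmul_eq_mul, Pi.zero_apply] at h0
        exact (hau l).mul_left_eq_zero.1 h0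
      · intro h
        funext j
        rw [Pi.smul_apply, nsmul_eq_mul, h, zero_mul]; rfl
  have hsh := shapiro hG (Sum.elim ρ r) (Sum.elim (fun _ => 0) (fun _ => m)) (redm p χ m)
    (redm_locConst χ m) (redm_surj χ hi m) hord
  rw [hsh]
  -- the special cocycle
  have hξ : redp p (χ 0 : G → ℤ_[p]) ∈ HomP p ρ := coreC_redp_mem ρ (χ 0) (hχ 0)
  obtain ⟨Θa, hΘa, hΘaρ, hΘaug⟩ := lift0 hG ρ χ hχ hI m _ hξ (by
    intro j
    fin_cases j
    · exact cupZero_self hp hξ
    · exact hc)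
  have hUa : ∀ l, IsUnit (Θa (r l)) := by
    intro l
    rw [isUnit_iff_aug hcard, hΘaug]
    exact ((hu l).map PadicInt.toZMod).ne_zero
  choose U hU using hUa
  -- notation
  let E : L → GA p (Fin 2 → ZMod (p ^ m)) := fun l => tt p (av l)
  let P : L → GA p (Fin 2 → ZMod (p ^ m)) := fun l => ∏ l' ∈ Finset.univ.erase l, E l'
  let N : L → GA p (Fin 2 → ZMod (p ^ m)) := fun l =>
    ∑ k ∈ Finset.range (p ^ m), (AddMonoidAlgebra.single (av l) (1 : ZMod p)) ^ k
  have hE : ∀ l, Tm p χ m (r l) - 1 = E l := fun l => rfl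
  have hEN : ∀ l, E l * N l = 0 := by
    intro l
    change (AddMonoidAlgebra.single (av l) (1 : ZMod p) - 1) *
      (∑ k ∈ Finset.range (p ^ m), (AddMonoidAlgebra.single (av l) (1 : ZMod p)) ^ k) = 0
    rw [mul_geom_sum, AddMonoidAlgebra.single_pow, one_pow]
    have : p ^ m • av l = 0 := by
      funext j
      rw [Pi.smul_apply, nsmul_eq_mul, ZMod.natCast_self, zero_mul]; rfl
    rw [this]
    exact sub_self _
  have hNP : ∀ l l', l ≠ l' → N l * P l' = 0 := by
    intro l l' hne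
    have hmem : l ∈ Finset.univ.erase l' := Finset.mem_erase.2 ⟨hne, Finset.mem_univ _⟩
    obtain ⟨w, hw⟩ := Finset.dvd_prod_of_mem E hmem
    change N l * (∏ l'' ∈ Finset.univ.erase l', E l'') = 0
    rw [hw, ← mul_assoc, mul_comm (N l), hEN, zero_mul]
  have hPord : ∀ l, HasOrd p m (gmap p (coreC_lam (p := p) m (av l)) (P l)) (D l) := by
    intro l
    change HasOrd p m (gmap p (coreC_lam (p := p) m (av l)) (∏ l' ∈ Finset.univ.erase l, E l'))
      (∑ l' ∈ Finset.univ.erase l, p ^ (det l l').valuation)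
    rw [map_prod]
    apply HasOrd.prod
    intro l' hl'
    have hd := hdet0 l l' (Finset.ne_of_mem_erase hl').symm
    have e1 : gmap p (coreC_lam (p := p) m (av l)) (E l') =
        tt p (PadicInt.toZModPow m ((p : ℤ_[p]) ^ (det l l').valuation *
          (PadicInt.unitCoeff hd : ℤ_[p]))) := by
      rw [mul_comm, ← PadicInt.unitCoeff_spec hd]
      change gmap p _ (AddMonoidAlgebra.single (av l') (1 : ZMod p) - 1) = _
      rw [map_sub, map_one, gmap_single]
      change AddMonoidAlgebra.single (av l 0 * av l' 1 - av l 1 * av l' 0) (1 : ZMod p) - 1 =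
        AddMonoidAlgebra.single (PadicInt.toZModPow m (det l l')) 1 - 1
      congr 2
      change _ = PadicInt.toZModPow m ((χ 0 : G → ℤ_[p]) (r l) * (χ 1 : G → ℤ_[p]) (r l') -
        (χ 1 : G → ℤ_[p]) (r l) * (χ 0 : G → ℤ_[p]) (r l'))
      rw [map_sub, map_mul, map_mul]
    rw [e1]
    exact hasOrd_tt m _ _ (PadicInt.unitCoeff hd).isUnit
  have hcompl := fun l => coreC_compl' m (av l) (hau l) (P l) (D l) (hPord l)
  choose S hSD hSc using hcompl
  -- the finite dimensional space W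
  have hfinΛ : Module.Finite (ZMod p) (GA p (Fin 2 → ZMod (p ^ m))) := Module.Finite.of_finite
  let Ψ : ((ι → ZMod p) × ((l : L) → S l)) →ₗ[ZMod p] (ι ⊕ L → GA p (Fin 2 → ZMod (p ^ m))) :=
    { toFun := fun c => Sum.elim (fun i => algebraMap (ZMod p) _ (c.1 i))
        (fun l => N l * (c.2 l : GA p (Fin 2 → ZMod (p ^ m))))
      map_add' := by
        intro c c'
        funext i
        rcases i with i | l
        · simp
        · simp [mul_add]
      map_smul' := by
        intro t c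
        funext i
        rcases i with i | l
        · simp [Algebra.smul_def]
        · simp }
  have hW : finrank (ZMod p) (LinearMap.range Ψ) ≤ Fintype.card ι + ∑ l, D l := by
    refine (LinearMap.finrank_range_le Ψ).trans ?_
    rw [Module.finrank_prod, Module.finrank_pi_fintype, Module.finrank_pi_fintype]
    simp only [Module.finrank_self, Finset.sum_const, Finset.card_univ, smul_eq_mul, mul_one]
    exact Nat.add_le_add_left (Finset.sum_le_sum fun l _ => hSD l) _
  have hle : (C2 (Sum.elim ρ r) (TA p (redm p χ m))).restrictScalars (ZMod p) ≤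
      (Dm (fun i => Sum.elim ρ r i ^ p ^ (Sum.elim (fun _ => 0) (fun _ => m) i : ℕ))
        (TA p (redm p χ m))).restrictScalars (ZMod p) ⊔ LinearMap.range Ψ := by
    intro y hy
    rw [Submodule.restrictScalars_mem] at hy
    have hy' : ∀ l, E l * y (Sum.inr l) = 0 := fun l => hy (Sum.inr l)
    obtain ⟨Θ0, hΘ0, hΘ0ρ⟩ := IK.mem_Dm hG ρ χ hχ hI m
      (fun i => y (Sum.inl i) - algebraMap (ZMod p) _ (aug p (y (Sum.inl i)))) (by
        intro i
        rw [map_sub, AlgHom.commutes]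
        exact sub_self _)
    have hz : ∀ l, E l * (y (Sum.inr l) - N l * Θ0 (r l)) = 0 := by
      intro l
      rw [mul_sub, hy' l, ← mul_assoc, hEN, zero_mul, sub_zero]
    have hz' := fun l => coreC_inv m (av l) (hau l) _ (hz l)
    choose c hc' using hz'
    have hdec := fun l => hSc l (c l)
    choose s hs x z hcs using hdec
    let Θ : G → GA p (Fin 2 → ZMod (p ^ m)) :=
      Θ0 + ∑ l, (P l * z l * ((U l)⁻¹ : (GA p (Fin 2 → ZMod (p ^ m)))ˣ)) • Θa
    have hΘ : Θ ∈ Coc (TA p (redm p χ m)) :=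
      Submodule.add_mem _ hΘ0 (Submodule.sum_mem _ fun l _ => Submodule.smul_mem _ _ hΘa)
    have hΘapp : ∀ g, Θ g = Θ0 g +
        ∑ l, (P l * z l * ((U l)⁻¹ : (GA p (Fin 2 → ZMod (p ^ m)))ˣ)) * Θa g := by
      intro g
      simp [Θ, Finset.sum_apply]
    refine Submodule.mem_sup.2 ⟨fun i => Θ (Sum.elim ρ r i ^
      p ^ (Sum.elim (fun _ => 0) (fun _ => m) i : ℕ)), ⟨Θ, hΘ, fun i => rfl⟩,
      Ψ (fun i => aug p (y (Sum.inl i)), fun l => ⟨s l, hs l⟩), ⟨_, rfl⟩, ?_⟩
    funext i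
    rcases i with i | l
    · change Θ (ρ i ^ p ^ 0) + algebraMap (ZMod p) _ (aug p (y (Sum.inl i))) = y (Sum.inl i)
      rw [pow_zero, pow_one, hΘapp, hΘ0ρ, hΘaρ]
      simp
    · change Θ (r l ^ p ^ m) + N l * s l = y (Sum.inr l)
      rw [coreC_coc_pow (TA p (redm p χ m)) Θ hΘ.2]
      have e1 : (∑ k ∈ Finset.range (p ^ m), (TA p (redm p χ m)) (r l) ^ k) = N l := rfl
      rw [e1, hΘapp, mul_add, Finset.mul_sum, Finset.sum_eq_single l]
      · have e2 : N l * (P l * z l * ((U l)⁻¹ : (GA p (Fin 2 → ZMod (p ^ m)))ˣ) * Θa (r l)) =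
            N l * (P l * z l) := by
          rw [← hU l, mul_assoc (P l * z l), Units.inv_mul, mul_one]
        have e3 : N l * c l = N l * s l + N l * (P l * z l) := by
          rw [hcs l, mul_add, mul_add, ← mul_assoc (N l) (tt p (av l)), mul_comm (N l) (tt p (av l)),
            show tt p (av l) * N l = 0 from hEN l, zero_mul, add_zero]
        have e4 : N l * c l = y (Sum.inr l) - N l * Θ0 (r l) := hc' l
        rw [e2]
        rw [e3] at e4
        linear_combination e4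
      · intro l' _ hne
        rw [← mul_assoc, ← mul_assoc, ← mul_assoc, hNP l l' hne.symm, zero_mul, zero_mul, zero_mul]
      · intro h
        exact absurd (Finset.mem_univ l) h
  have h1 := Submodule.finrank_mono hle
  have h2 := Submodule.finrank_add_le_finrank_add_finrank
    ((Dm (fun i => Sum.elim ρ r i ^ p ^ (Sum.elim (fun _ => 0) (fun _ => m) i : ℕ))
        (TA p (redm p χ m))).restrictScalars (ZMod p)) (LinearMap.range Ψ)
  have h3 := h1.trans (h2.trans (Nat.add_le_add_left hW _))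
  push_cast
  have h4 : ((finrank (ZMod p) ((C2 (Sum.elim ρ r) (TA p (redm p χ m))).restrictScalars
      (ZMod p)) : ℕ) : ℤ) ≤ _ := Int.ofNat_le.2 h3
  push_cast at h4
  linarith

end Pool.Agent.RFA
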