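import Pool.Agent.RFA.Sub

set_option autoImplicit false

namespace Pool.Agent.RFA

open Topology Module

variable {p : ℕ} [Fact p.Prime] {G : Type} [Group G] [TopologicalSpace G] [IsTopologicalGroup G]

theorem Adm.cyc {I : Type} {r : I → G} {e : I → ℕ} {V : Subgroup G} (h : Adm p r e V) :
    Cyc p r e V := by
  intro i x a
  refine ⟨h.ord i x a, ?_⟩
  rintro ⟨b, rfl⟩
  apply h.rel_le
  rw [pow_mul]
  exact (Rel.normal r e).conj_mem _ (Subgroup.pow_mem _ (Rel.mem r e i) b) x

theorem Adm.mono {I : Type} {r : I → G} {e : I → ℕ} {V V' : Subgroup G} (h : Adm p r e V)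
    (h' : V' ≤ V) (hR : Rel p r e ≤ V') (ho : IsOpen (V' : Set G)) : Adm p r e V' :=
  ⟨ho, hR, fun i x a hx => h.ord i x a (h' hx)⟩

omit [Fact p.Prime] [TopologicalSpace G] [IsTopologicalGroup G] in
private theorem Desc_pow_mem {I : Type} {r : I → G} {c : I → ℕ} {V : Subgroup G}
    (hc : Cyc p r c V) (i : I) (g : G) (b : ℕ) : g * r i ^ (p ^ c i * b) * g⁻¹ ∈ V :=
  (hc i g _).2 ⟨b, rfl⟩

omit [TopologicalSpace G] [IsTopologicalGroup G] in
private theorem Desc_symm {I : Type} {r : I → G} {c : I → ℕ} {V : Subgroup G}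
    (hc : Cyc p r c V) (i : I) {g g' : G} (h : ∃ j ∈ V, ∃ a : ℕ, g' = j * g * r i ^ a) :
    ∃ j ∈ V, ∃ a : ℕ, g = j * g' * r i ^ a := by
  obtain ⟨j, hj, a, rfl⟩ := h
  have hp : 0 < p := (Fact.out : p.Prime).pos
  have hpc : 1 ≤ p ^ c i := Nat.pow_pos hp
  refine ⟨(g * r i ^ (p ^ c i * a) * g⁻¹)⁻¹ * j⁻¹, ?_, p ^ c i * a - a, ?_⟩
  · exact V.mul_mem (V.inv_mem (Desc_pow_mem hc i g a)) (V.inv_mem hj)
  · have h1 : a + (p ^ c i * a - a) = p ^ c i * a := by
      have : a ≤ p ^ c i * a := Nat.le_mul_of_pos_left a hpc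
      omega
    calc g = (g * r i ^ (p ^ c i * a) * g⁻¹)⁻¹ * j⁻¹ * (j * g * r i ^ (p ^ c i * a)) := by group
      _ = (g * r i ^ (p ^ c i * a) * g⁻¹)⁻¹ * j⁻¹ *
          (j * g * (r i ^ a * r i ^ (p ^ c i * a - a))) := by rw [← pow_add, h1]
      _ = _ := by simp only [mul_assoc]

omit [TopologicalSpace G] [IsTopologicalGroup G] in
private theorem Desc_trans {I : Type} {r : I → G} {V : Subgroup G} (i : I) {g g' g'' : G}
    (h : ∃ j ∈ V, ∃ a : ℕ, g' = j * g * r i ^ a) (h' : ∃ j ∈ V, ∃ a : ℕ, g'' = j * g' * r i ^ a) :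
    ∃ j ∈ V, ∃ a : ℕ, g'' = j * g * r i ^ a := by
  obtain ⟨j, hj, a, rfl⟩ := h
  obtain ⟨j', hj', a', rfl⟩ := h'
  exact ⟨j' * j, V.mul_mem hj' hj, a + a', by rw [pow_add]; simp only [mul_assoc]⟩

/-- the setoid of double cosets -/
private def DescSetoid {I : Type} {r : I → G} {c : I → ℕ} {V : Subgroup G}
    (hc : Cyc p r c V) (i : I) : Setoid G where
  r g g' := ∃ j ∈ V, ∃ a : ℕ, g' = j * g * r i ^ a
  iseqv := ⟨fun g => ⟨1, V.one_mem, 0, by simp⟩, fun h => Desc_symm hc i h,
    fun h h' => Desc_trans i h h'⟩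

omit [TopologicalSpace G] [IsTopologicalGroup G] in
private theorem Desc_exists {I : Type} [Finite I] (r : I → G) (c : I → ℕ)
    (V : Subgroup G) [V.FiniteIndex] (hc : Cyc p r c V) :
    ∃ (ι : Type) (_ : Fintype ι) (ρ : ι → ↥V) (idx : ι → I) (x : ι → G),
      PP p r c V ρ idx x := by
  classical
  have hfin : ∀ i, Finite (Quotient (DescSetoid hc i)) := by
    intro i
    have : Finite (G ⧸ V) := Subgroup.finite_quotient_of_finiteIndex
    let f : G ⧸ V → Quotient (DescSetoid hc i) :=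
      Quotient.lift (fun y : G => (Quotient.mk (DescSetoid hc i) y⁻¹)) (by
        intro a b hab
        have hab' : a⁻¹ * b ∈ V := QuotientGroup.leftRel_apply.1 hab
        apply Quotient.sound
        refine ⟨b⁻¹ * a, ?_, 0, ?_⟩
        · have := V.inv_mem hab'
          simpa using this
        · simp)
    apply Finite.of_surjective f
    intro q
    induction q using Quotient.inductionOn with
    | h g =>
      refine ⟨QuotientGroup.mk g⁻¹, ?_⟩
      change Quotient.mk (DescSetoid hc i) (g⁻¹)⁻¹ = _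
      rw [inv_inv]
  have hfin2 : Finite (Σ i, Quotient (DescSetoid hc i)) := inferInstance
  refine ⟨Σ i, Quotient (DescSetoid hc i), Fintype.ofFinite _,
    fun l => ⟨l.2.out * r l.1 ^ p ^ c l.1 * l.2.out⁻¹, (hc _ _ _).2 (dvd_refl _)⟩,
    fun l => l.1, fun l => l.2.out, ⟨fun l => rfl, ?_, ?_⟩⟩
  · intro i g
    refine ⟨⟨i, Quotient.mk _ g⟩, rfl, ?_⟩
    exact Quotient.mk_out (s := DescSetoid hc i) g
  · rintro ⟨i, q⟩ ⟨i', q'⟩ hii h
    dsimp only at hii h
    subst hii
    have : q = q' := by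
      rw [← Quotient.out_eq q, ← Quotient.out_eq q']
      exact Quotient.sound h
    rw [this]

/-- existence of double coset representatives -/
theorem exists_PP {δ : ℕ} (hG : ProFree p δ G) {I : Type} [Fintype I] (r : I → G) (c : I → ℕ)
    (V : Subgroup G) (hV : IsOpen (V : Set G)) (hc : Cyc p r c V) :
    ∃ (ι : Type) (_ : Fintype ι) (ρ : ι → ↥V) (idx : ι → I) (x : ι → G),
      PP p r c V ρ idx x := by
  haveI := hG.finiteIndex V hV
  exact Desc_exists r c V hc

omit [TopologicalSpace G] [IsTopologicalGroup G] in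
private theorem Desc_fiber {I : Type} {r : I → G} {c : I → ℕ}
    {V : Subgroup G} (hc : Cyc p r c V) {ι : Type}
    {ρ : ι → ↥V} {idx : ι → I} {x : ι → G} (h : PP p r c V ρ idx x) (i : I) :
    Nat.card {l // idx l = i} * p ^ c i = V.index := by
  classical
  have hp : 0 < p := (Fact.out : p.Prime).pos
  have hpc : 0 < p ^ c i := Nat.pow_pos hp
  let f : {l // idx l = i} × Fin (p ^ c i) → G ⧸ V :=
    fun q => QuotientGroup.mk ((x q.1 * r i ^ (q.2 : ℕ))⁻¹)
  have key : ∀ (g : G) (k k' : ℕ), k' ≤ k → k < p ^ c i →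
      g * r i ^ k * (g * r i ^ k')⁻¹ ∈ V → k = k' := by
    intro g k k' hle hk hmem
    have h1 : g * r i ^ k * (g * r i ^ k')⁻¹ = g * r i ^ (k - k') * g⁻¹ := by
      have : r i ^ k = r i ^ (k - k') * r i ^ k' := by rw [← pow_add]; congr 1; omega
      rw [this]; group
    rw [h1] at hmem
    have h2 := (hc i g _).1 hmem
    have h3 : k - k' = 0 := Nat.eq_zero_of_dvd_of_lt h2 (by omega)
    omega
  have hbij : Function.Bijective f := by
    constructor
    · rintro ⟨⟨l, hl⟩, k⟩ ⟨⟨l', hl'⟩, k'⟩ hf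
      have hf' : (QuotientGroup.mk ((x l * r i ^ (k : ℕ))⁻¹) : G ⧸ V) =
        QuotientGroup.mk ((x l' * r i ^ (k' : ℕ))⁻¹) := hf
      rw [QuotientGroup.eq, inv_inv] at hf'
      have hll : l = l' := by
        apply h.uniq l l' (hl.trans hl'.symm)
        rw [hl]
        have a1 : ∃ j ∈ V, ∃ a : ℕ, x l * r i ^ (k : ℕ) = j * x l * r i ^ a :=
          ⟨1, V.one_mem, k, by simp⟩
        have a2 : ∃ j ∈ V, ∃ a : ℕ, x l * r i ^ (k : ℕ) = j * x l' * r i ^ a :=
          ⟨_, hf', k', by group⟩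
        exact Desc_trans i a1 (Desc_symm hc i a2)
      subst hll
      have hkk : (k : ℕ) = k' := by
        rcases le_total (k' : ℕ) (k : ℕ) with hle | hle
        · exact key _ _ _ hle k.2 hf'
        · refine (key (x l) _ _ hle k'.2 ?_).symm
          have := V.inv_mem hf'
          simpa [mul_inv_rev] using this
      rw [Fin.ext hkk]
    · intro y
      induction y using QuotientGroup.induction_on with
      | H y =>
        obtain ⟨l, hl, j, hj, a, hg⟩ := h.cover i y⁻¹
        refine ⟨(⟨l, hl⟩, ⟨a % p ^ c i, Nat.mod_lt _ hpc⟩), ?_⟩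
        change (QuotientGroup.mk ((x l * r i ^ (a % p ^ c i))⁻¹) : G ⧸ V) = _
        rw [QuotientGroup.eq, inv_inv]
        have hy : y = (j * x l * r i ^ a)⁻¹ := by rw [← hg, inv_inv]
        have ha : r i ^ a = r i ^ (p ^ c i * (a / p ^ c i)) * r i ^ (a % p ^ c i) := by
          rw [← pow_add, Nat.div_add_mod]
        have : x l * r i ^ (a % p ^ c i) * y =
            (x l * r i ^ (p ^ c i * (a / p ^ c i)) * (x l)⁻¹)⁻¹ * j⁻¹ := by
          rw [hy, ha]; 
          have hcomm : r i ^ (p ^ c i * (a / p ^ c i)) * r i ^ (a % p ^ c i) =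
            r i ^ (a % p ^ c i) * r i ^ (p ^ c i * (a / p ^ c i)) := by
            rw [← pow_add, ← pow_add, add_comm]
          rw [hcomm]; group
        rw [this]
        exact V.mul_mem (V.inv_mem (Desc_pow_mem hc i _ _)) (V.inv_mem hj)
  have hcard := Nat.card_congr (Equiv.ofBijective f hbij)
  rw [Nat.card_prod, Nat.card_eq_fintype_card (α := Fin (p ^ c i)), Fintype.card_fin] at hcard
  exact hcard

omit [TopologicalSpace G] [IsTopologicalGroup G] in
private theorem Desc_dvd {I : Type} {r : I → G} {c : I → ℕ}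
    {V : Subgroup G} (hc : Cyc p r c V) (i : I) : p ^ c i ∣ V.index := by
  by_cases hfi : V.index = 0
  · rw [hfi]; exact dvd_zero _
  · haveI : V.FiniteIndex := ⟨hfi⟩
    obtain ⟨ι, _, ρ, idx, x, h⟩ := Desc_exists (p := p) (fun _ : Unit => r i) (fun _ => c i) V
      (fun _ g a => hc i g a)
    have := Desc_fiber (p := p) (fun _ g a => hc i g a) h ()
    exact ⟨_, by rw [← this, mul_comm]⟩

omit [TopologicalSpace G] [IsTopologicalGroup G] in
private theorem Desc_card {I : Type} [Fintype I] {r : I → G} {c : I → ℕ}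
    {V : Subgroup G} (hc : Cyc p r c V) {ι : Type} [Fintype ι]
    {ρ : ι → ↥V} {idx : ι → I} {x : ι → G} (h : PP p r c V ρ idx x) (w : I → ℕ) :
    ∑ l, w (idx l) = ∑ i, w i * (V.index / p ^ c i) := by
  classical
  have hp : 0 < p := (Fact.out : p.Prime).pos
  rw [← Finset.sum_fiberwise Finset.univ idx (fun l => w (idx l))]
  apply Finset.sum_congr rfl
  intro i _
  have h1 : ∑ l ∈ Finset.univ.filter (fun l => idx l = i), w (idx l) =
      (Finset.univ.filter (fun l => idx l = i)).card * w i := by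
    rw [Finset.sum_congr rfl (g := fun _ => w i), Finset.sum_const, smul_eq_mul]
    intro l hl
    rw [(Finset.mem_filter.1 hl).2]
  rw [h1, mul_comm]
  congr 1
  have h2 := Desc_fiber hc h i
  rw [Nat.card_eq_fintype_card, Fintype.card_subtype] at h2
  exact (Nat.div_eq_of_eq_mul_left (Nat.pow_pos hp) h2.symm).symm

/-- number of double cosets -/
theorem PP.card {δ : ℕ} (hG : ProFree p δ G) {I : Type} [Fintype I] {r : I → G} {c : I → ℕ}
    {V : Subgroup G} (hV : IsOpen (V : Set G)) (hc : Cyc p r c V) {ι : Type} [Fintype ι]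
    {ρ : ι → ↥V} {idx : ι → I} {x : ι → G} (h : PP p r c V ρ idx x) (w : I → ℕ) :
    ∑ l, w (idx l) = ∑ i, w i * (V.index / p ^ c i) :=
  Desc_card hc h w

omit [Fact p.Prime] [TopologicalSpace G] [IsTopologicalGroup G] in
private theorem Desc_rho_pow {I : Type} {r : I → G} {c : I → ℕ} {V : Subgroup G}
    {ι : Type} {ρ : ι → ↥V} {idx : ι → I} {x : ι → G} (h : PP p r c V ρ idx x) (l : ι) (b : ℕ) :
    ((ρ l ^ b : ↥V) : G) = x l * r (idx l) ^ (p ^ c (idx l) * b) * (x l)⁻¹ := by
  rw [Subgroup.coe_pow, h.rho_eq l, conj_pow, pow_mul]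

omit [Fact p.Prime] [TopologicalSpace G] [IsTopologicalGroup G] in
private theorem Desc_pow_e {I : Type} {r : I → G} {c e : I → ℕ} (hce : ∀ i, c i ≤ e i)
    {V : Subgroup G} {ι : Type} {ρ : ι → ↥V} {idx : ι → I} {x : ι → G}
    (h : PP p r c V ρ idx x) (l : ι) :
    ((ρ l ^ p ^ (e (idx l) - c (idx l)) : ↥V) : G) =
      x l * r (idx l) ^ p ^ e (idx l) * (x l)⁻¹ := by
  rw [Desc_rho_pow h, ← pow_add, Nat.add_sub_cancel' (hce _)]

/-- the relators `ρ l ^ p^(e - c)` generate the same closed normal subgroup -/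
theorem PP.rel {I : Type} {r : I → G} {c e : I → ℕ} (hce : ∀ i, c i ≤ e i) {V : Subgroup G}
    (hV : IsOpen (V : Set G)) (hRV : Rel p r e ≤ V) {ι : Type} {ρ : ι → ↥V} {idx : ι → I}
    {x : ι → G} (h : PP p r c V ρ idx x) :
    Rel p ρ (fun l => e (idx l) - c (idx l)) = (Rel p r e).subgroupOf V := by
  set N' : Subgroup ↥V :=
    Subgroup.normalClosure (Set.range fun l => ρ l ^ p ^ (e (idx l) - c (idx l))) with hN'
  set N : Subgroup G := Subgroup.normalClosure (Set.range fun i => r i ^ p ^ e i) with hN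
  have hNV : N ≤ V := le_trans (Subgroup.le_topologicalClosure N) hRV
  have hmap : N'.map V.subtype = N := by
    apply le_antisymm
    · rw [Subgroup.map_le_iff_le_comap]
      have : (N.comap V.subtype).Normal :=
        Subgroup.Normal.comap Subgroup.normalClosure_normal _
      apply Subgroup.normalClosure_le_normal
      rintro _ ⟨l, rfl⟩
      simp only [Subgroup.coe_comap, Set.mem_preimage, Subgroup.coe_subtype, SetLike.mem_coe]
      rw [Desc_pow_e hce h]
      exact Subgroup.normalClosure_normal.conj_mem _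
        (Subgroup.subset_normalClosure (Set.mem_range_self (idx l))) _
    · rw [hN, Subgroup.normalClosure, Subgroup.closure_le]
      intro y hy
      rw [Group.mem_conjugatesOfSet_iff] at hy
      obtain ⟨_, ⟨i, rfl⟩, hy⟩ := hy
      obtain ⟨g, rfl⟩ := isConj_iff.1 hy
      obtain ⟨l, rfl, j, hj, a, rfl⟩ := h.cover i g
      refine ⟨⟨j, hj⟩ * ρ l ^ p ^ (e (idx l) - c (idx l)) * (⟨j, hj⟩ : ↥V)⁻¹, ?_, ?_⟩
      · exact Subgroup.normalClosure_normal.conj_mem _
          (Subgroup.subset_normalClosure (Set.mem_range_self l)) _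
      · simp only [Subgroup.coe_subtype, Subgroup.coe_mul, Subgroup.coe_inv]
        rw [Desc_pow_e hce h]
        have hcomm : r (idx l) ^ a * r (idx l) ^ p ^ e (idx l) =
          r (idx l) ^ p ^ e (idx l) * r (idx l) ^ a := by
          rw [← pow_add, ← pow_add, add_comm]
        calc _ = j * x l * r (idx l) ^ p ^ e (idx l) * (j * x l)⁻¹ := by group
          _ = j * x l * (r (idx l) ^ p ^ e (idx l) * r (idx l) ^ a) * (r (idx l) ^ a)⁻¹ *
              (j * x l)⁻¹ := by group
          _ = _ := by rw [← hcomm]; group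
  apply SetLike.coe_injective
  have h1 : ((Rel p ρ (fun l => e (idx l) - c (idx l)) : Subgroup ↥V) : Set ↥V) =
    closure (N' : Set ↥V) := rfl
  have h2 : (((Rel p r e).subgroupOf V : Subgroup ↥V) : Set ↥V) =
    (Subtype.val : ↥V → G) ⁻¹' closure (N : Set G) := rfl
  rw [h1, h2, IsInducing.subtypeVal.closure_eq_preimage_closure_image, ← hmap]
  rfl

omit [Fact p.Prime] [IsTopologicalGroup G] in
private theorem Desc_open_map {V : Subgroup G} (hV : IsOpen (V : Set G)) (J : Subgroup ↥V) :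
    IsOpen ((J.map V.subtype : Subgroup G) : Set G) ↔ IsOpen (J : Set ↥V) := by
  have h1 : ((J.map V.subtype : Subgroup G) : Set G) = Subtype.val '' (J : Set ↥V) := rfl
  rw [h1]
  exact (hV.isOpenEmbedding_subtypeVal.isOpen_iff_image_isOpen).symm

theorem PP.adm {I : Type} {r : I → G} {c e : I → ℕ} (hce : ∀ i, c i ≤ e i) {V : Subgroup G}
    (hV : IsOpen (V : Set G)) (hc : Cyc p r c V) (hRV : Rel p r e ≤ V) {ι : Type} {ρ : ι → ↥V}
    {idx : ι → I} {x : ι → G} (h : PP p r c V ρ idx x) (J : Subgroup ↥V) :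
    Adm p ρ (fun l => e (idx l) - c (idx l)) J ↔ Adm p r e (J.map V.subtype) := by
  have hrel := PP.rel hce hV hRV h
  have hp : 0 < p := (Fact.out : p.Prime).pos
  constructor
  · intro hJ
    refine ⟨(Desc_open_map hV J).2 hJ.isOpen, ?_, ?_⟩
    · intro y hy
      refine ⟨⟨y, hRV hy⟩, ?_, rfl⟩
      apply hJ.rel_le
      rw [hrel]
      exact hy
    · intro i g a hmem
      have hV' : g * r i ^ a * g⁻¹ ∈ V := by
        obtain ⟨y, _, hy⟩ := hmem
        rw [← hy]; exact y.2
      obtain ⟨b, rfl⟩ := (hc i g a).1 hV'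
      obtain ⟨l, rfl, j, hj, m, rfl⟩ := h.cover i g
      have h1 : (⟨j, hj⟩ : ↥V) * ρ l ^ b * (⟨j, hj⟩ : ↥V)⁻¹ ∈ J := by
        obtain ⟨y, hy, hy'⟩ := hmem
        suffices hs : (⟨j, hj⟩ : ↥V) * ρ l ^ b * (⟨j, hj⟩ : ↥V)⁻¹ = y by
          rw [hs]; exact hy
        apply Subtype.ext
        rw [Subgroup.coe_subtype] at hy'
        rw [hy']
        simp only [Subgroup.coe_mul, Subgroup.coe_inv]
        rw [Desc_rho_pow h]
        have hcomm : r (idx l) ^ m * r (idx l) ^ (p ^ c (idx l) * b) =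
          r (idx l) ^ (p ^ c (idx l) * b) * r (idx l) ^ m := by
          rw [← pow_add, ← pow_add, add_comm]
        calc _ = j * x l * (r (idx l) ^ (p ^ c (idx l) * b) * r (idx l) ^ m) *
              (r (idx l) ^ m)⁻¹ * (j * x l)⁻¹ := by group
          _ = _ := by rw [← hcomm]; group
      have h2 := hJ.ord l _ b h1
      have h3 : p ^ e (idx l) = p ^ c (idx l) * p ^ (e (idx l) - c (idx l)) := by
        rw [← pow_add, Nat.add_sub_cancel' (hce _)]
      rw [h3]
      exact mul_dvd_mul_left _ h2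
  · intro hJ
    refine ⟨(Desc_open_map hV J).1 hJ.isOpen, ?_, ?_⟩
    · rw [hrel]
      intro y hy
      obtain ⟨z, hz, hz'⟩ := hJ.rel_le hy
      have : z = y := Subtype.ext hz'
      rwa [← this]
    · intro l y a hmem
      have h1 : ((y : G) * x l) * r (idx l) ^ (p ^ c (idx l) * a) * ((y : G) * x l)⁻¹ ∈
          J.map V.subtype := by
        refine ⟨_, hmem, ?_⟩
        simp only [Subgroup.coe_subtype, Subgroup.coe_mul, Subgroup.coe_inv]
        rw [Desc_rho_pow h]
        group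
      have h2 := hJ.ord _ _ _ h1
      have h3 : p ^ e (idx l) = p ^ c (idx l) * p ^ (e (idx l) - c (idx l)) := by
        rw [← pow_add, Nat.add_sub_cancel' (hce _)]
      rw [h3] at h2
      exact Nat.dvd_of_mul_dvd_mul_left (Nat.pow_pos hp) h2

/-- `h2` is the same computed in `V` or in `G` -/
theorem PP.h2_eq {δ : ℕ} (hG : ProFree p δ G) {I : Type} [Fintype I] {r : I → G} {c e : I → ℕ}
    (hce : ∀ i, c i ≤ e i) {V : Subgroup G} (hV : IsOpen (V : Set G)) (hc : Cyc p r c V)
    (hRV : Rel p r e ≤ V) {ι : Type} [Fintype ι] {ρ : ι → ↥V} {idx : ι → I} {x : ι → G}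
    (h : PP p r c V ρ idx x) (J : Subgroup ↥V)
    (hJ : Adm p ρ (fun l => e (idx l) - c (idx l)) J) :
    h2 p ρ (fun l => e (idx l) - c (idx l)) J = h2 p r e (J.map V.subtype) := by
  have hp : 0 < p := (Fact.out : p.Prime).pos
  unfold h2
  rw [finrank_Hom1_sub, PP.rel hce hV hRV h, finrank_HomR_sub]
  congr 2
  rw [← Nat.cast_sum, ← Nat.cast_sum]
  congr 1
  rw [Desc_card hc h (fun i => J.index / p ^ (e i - c i))]
  apply Finset.sum_congr rfl
  intro i _
  rw [index_map_subtype]
  obtain ⟨l, hl, -⟩ := h.cover i 1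
  have h1 : p ^ (e i - c i) ∣ J.index := by
    have := Desc_dvd hJ.cyc l
    rwa [hl] at this
  have h2 : p ^ c i ∣ V.index := Desc_dvd hc i
  rw [← Nat.mul_div_mul_comm h1 h2, ← pow_add, Nat.sub_add_cancel (hce i), mul_comm]

theorem PP.sum {I I' : Type} {r : I → G} {c : I → ℕ} {r' : I' → G} {c' : I' → ℕ}
    {V : Subgroup G} {ι ι' : Type} {ρ : ι → ↥V} {idx : ι → I} {x : ι → G}
    {ρ' : ι' → ↥V} {idx' : ι' → I'} {x' : ι' → G} (h : PP p r c V ρ idx x)
    (h' : PP p r' c' V ρ' idx' x') :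
    PP p (Sum.elim r r') (Sum.elim c c') V (Sum.elim ρ ρ') (Sum.map idx idx')
      (Sum.elim x x') := by
  refine ⟨?_, ?_, ?_⟩
  · rintro (l | l)
    · exact h.rho_eq l
    · exact h'.rho_eq l
  · rintro (i | i) g
    · obtain ⟨l, hl, j, hj, a, hg⟩ := h.cover i g
      exact ⟨Sum.inl l, congrArg Sum.inl hl, j, hj, a, hg⟩
    · obtain ⟨l, hl, j, hj, a, hg⟩ := h'.cover i g
      exact ⟨Sum.inr l, congrArg Sum.inr hl, j, hj, a, hg⟩
  · rintro (l | l) (l' | l') hll hx
    · exact congrArg Sum.inl (h.uniq l l' (Sum.inl_injective hll) hx)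
    · simp at hll
    · simp at hll
    · exact congrArg Sum.inr (h'.uniq l l' (Sum.inr_injective hll) hx)

/-- plain case: `HomP` is `HomR` -/
theorem PP.homP {I : Type} {r : I → G} {e : I → ℕ} {V : Subgroup G} (hV : Adm p r e V)
    {ι : Type} {ρ : ι → ↥V} {idx : ι → I} {x : ι → G} (h : PP p r e V ρ idx x) :
    HomP p ρ = HomR p (Rel p r e) V := by
  have hrel := PP.rel (fun _ => le_rfl) hV.isOpen hV.rel_le h
  ext f
  constructor
  · rintro ⟨hf, hf'⟩
    refine ⟨hf, ?_⟩
    intro y hy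
    have hy' : y ∈ Rel p ρ (fun l => e (idx l) - e (idx l)) := by
      rw [hrel]; exact hy
    have := Rel.hom_ext (p := p) ρ (fun l => e (idx l) - e (idx l)) f 0
      hf.1.continuous.continuousOn continuousOn_const (fun x _ y _ => hf.2 x y) (by simp)
      ?_ y hy'
    · simpa using this
    · intro l z
      have h1 : f 1 = 0 := by
        have := hf.2 1 1
        rw [mul_one] at this
        simpa using this
      have h2 : f z⁻¹ = - f z := by
        have := hf.2 z z⁻¹
        rw [mul_inv_cancel, h1] at this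
        exact (neg_eq_of_add_eq_zero_right this.symm).symm
      simp only [Nat.sub_self, pow_zero, pow_one, Pi.zero_apply]
      rw [hf.2, hf.2, hf' l, h2]; ring
  · rintro ⟨hf, hf'⟩
    refine ⟨hf, fun l => hf' _ ?_⟩
    rw [h.rho_eq l]
    exact (Rel.normal r e).conj_mem _ (Rel.mem r e _) _

/-- plain case: `dim Z2 = h2` -/
theorem PP.finrank_Z2 {δ : ℕ} (hG : ProFree p δ G) {I : Type} [Fintype I] {r : I → G} {e : I → ℕ}
    {V : Subgroup G} (hV : Adm p r e V) {ι : Type} [Fintype ι] {ρ : ι → ↥V} {idx : ι → I}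
    {x : ι → G} (h : PP p r e V ρ idx x) :
    (finrank (ZMod p) (Z2 p ρ) : ℤ) = h2 p r e V := by
  classical
  haveI : Module.Finite (ZMod p) (Hom1 p ↥V) := hG.fin V hV.isOpen
  let ev : Hom1 p ↥V →ₗ[ZMod p] (ι → ZMod p) :=
    { toFun := fun f l => (f : ↥V → ZMod p) (ρ l)
      map_add' := fun f g => rfl
      map_smul' := fun c f => rfl }
  -- the transpose
  let B : (ι → ZMod p) →ₗ[ZMod p] Module.Dual (ZMod p) (Hom1 p ↥V) :=
    { toFun := fun z =>
        { toFun := fun f => ∑ i, z i * (f : ↥V → ZMod p) (ρ i)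
          map_add' := fun f g => by
            simp only [Submodule.coe_add, Pi.add_apply, mul_add, Finset.sum_add_distrib]
          map_smul' := fun c f => by
            simp only [Submodule.coe_smul, Pi.smul_apply, smul_eq_mul, RingHom.id_apply,
              Finset.mul_sum]
            exact Finset.sum_congr rfl fun i _ => by ring }
      map_add' := fun a b => by
        ext f
        simp only [Pi.add_apply, add_mul, Finset.sum_add_distrib, LinearMap.coe_mk,
          AddHom.coe_mk, LinearMap.add_apply]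
      map_smul' := fun c a => by
        ext f
        simp only [Pi.smul_apply, smul_eq_mul, LinearMap.coe_mk,
          AddHom.coe_mk, LinearMap.smul_apply, RingHom.id_apply, Finset.mul_sum]
        exact Finset.sum_congr rfl fun i _ => by ring }
  have hker : LinearMap.ker B = Z2 p ρ := by
    ext z
    rw [LinearMap.mem_ker]
    constructor
    · intro hz f hf
      exact LinearMap.congr_fun hz ⟨f, hf⟩
    · intro hz
      ext f
      exact hz f f.2
  have hBev : B = ev.dualMap ∘ₗ (dotProductEquiv (ZMod p) ι).toLinearMap := by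
    ext z f
    simp [B, ev, dotProduct]
  have hrank : finrank (ZMod p) (LinearMap.range B) = finrank (ZMod p) (LinearMap.range ev) := by
    rw [hBev, LinearMap.range_comp_of_range_eq_top _ (LinearEquiv.range _),
      LinearMap.finrank_range_dualMap_eq_finrank_range]
  have h1 := LinearMap.finrank_range_add_finrank_ker B
  have h2 := LinearMap.finrank_range_add_finrank_ker ev
  rw [hker, Module.finrank_fintype_fun_eq_card, hrank] at h1
  -- the kernel of `ev` is `HomP`
  have hkerev : finrank (ZMod p) (LinearMap.ker ev) = finrank (ZMod p) (HomP p ρ) := by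
    have e1 : (LinearMap.ker ev).map (Hom1 p ↥V).subtype = HomP p ρ := by
      ext f
      constructor
      · rintro ⟨g, hg, rfl⟩
        exact ⟨g.2, fun i => congrFun (LinearMap.mem_ker.1 hg) i⟩
      · rintro ⟨hf, hf'⟩
        exact ⟨⟨f, hf⟩, LinearMap.mem_ker.2 (funext hf'), rfl⟩
    rw [← e1]
    exact (LinearEquiv.finrank_eq
      (Submodule.equivMapOfInjective _ (Submodule.injective_subtype _) _))
  rw [hkerev, PP.homP hV h] at h2
  have h3 := Desc_card hV.cyc h (fun _ => 1)
  simp only [Finset.sum_const, Finset.card_univ, smul_eq_mul, mul_one, one_mul] at h3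
  unfold RFA.h2
  rw [← Nat.cast_sum, ← h3]
  omega

/-- composition: representatives for `V' ≤ V` from those for `V` and for `J ≤ ↥V` -/
theorem PP.comp {I : Type} {r : I → G} {e : I → ℕ} {V : Subgroup G} (hV : Adm p r e V)
    {ι : Type} {ρ : ι → ↥V} {idx : ι → I} {x : ι → G} (h : PP p r e V ρ idx x)
    (J : Subgroup ↥V) (hJ : Adm p ρ (fun _ => 0) J)
    {ι' : Type} {ρ' : ι' → ↥J} {idx' : ι' → ι} {x' : ι' → ↥V}
    (h' : PP p ρ (fun _ => 0) J ρ' idx' x') :
    PP p r e (J.map V.subtype)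
      (fun l => ⟨((ρ' l : ↥V) : G), Subgroup.mem_map_of_mem V.subtype (ρ' l).2⟩)
      (fun l => idx (idx' l)) (fun l => (x' l : G) * x (idx' l)) := by
  refine ⟨?_, ?_, ?_⟩
  · intro l
    change ((ρ' l : ↥V) : G) = _
    rw [h'.rho_eq l]
    simp only [pow_zero, pow_one, Subgroup.coe_mul, Subgroup.coe_inv]
    rw [h.rho_eq (idx' l)]
    group
  · intro i g
    obtain ⟨m, rfl, j, hj, a, rfl⟩ := h.cover i g
    obtain ⟨l, rfl, j', hj', b, hg⟩ := h'.cover m ⟨j, hj⟩
    refine ⟨l, rfl, j', Subgroup.mem_map_of_mem V.subtype hj', p ^ e (idx (idx' l)) * b + a, ?_⟩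
    have hj2 : j = (j' : G) * (x' l : G) * ((ρ (idx' l) ^ b : ↥V) : G) := by
      have := congrArg (Subtype.val) hg
      simpa using this
    rw [Desc_rho_pow h] at hj2
    rw [pow_add]
    calc j * x (idx' l) * r (idx (idx' l)) ^ a
        = ((j' : G) * (x' l : G) * (x (idx' l) * r (idx (idx' l)) ^
          (p ^ e (idx (idx' l)) * b) * (x (idx' l))⁻¹)) * x (idx' l) *
          r (idx (idx' l)) ^ a := by rw [← hj2]
      _ = _ := by group
  · rintro l l' hll ⟨j, ⟨j₀, hj₀, rfl⟩, a, hx⟩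
    rw [Subgroup.coe_subtype] at hx
    -- first the indices agree
    have h1 : x (idx' l') = ((x' l' : G)⁻¹ * j₀ * x' l) * x (idx' l) *
        r (idx (idx' l)) ^ a := by
      calc x (idx' l') = (x' l' : G)⁻¹ * (x' l' * x (idx' l')) := by group
        _ = _ := by rw [hx]; group
    have h2 : idx' l = idx' l' := h.uniq _ _ hll
      ⟨_, V.mul_mem (V.mul_mem (V.inv_mem (x' l').2) j₀.2) (x' l).2, a, h1⟩
    apply h'.uniq l l' h2
    rw [← h2] at h1
    have h3 : x (idx' l) * r (idx (idx' l)) ^ a * (x (idx' l))⁻¹ =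
        ((x' l' : G)⁻¹ * j₀ * x' l)⁻¹ := by
      have : x (idx' l) * r (idx (idx' l)) ^ a = ((x' l' : G)⁻¹ * j₀ * x' l)⁻¹ *
        x (idx' l) := by
        conv_rhs => rw [h1]
        group
      rw [this]; group
    have h4 : x (idx' l) * r (idx (idx' l)) ^ a * (x (idx' l))⁻¹ ∈ V := by
      rw [h3]
      exact V.inv_mem (V.mul_mem (V.mul_mem (V.inv_mem (x' l').2) j₀.2) (x' l).2)
    obtain ⟨b, rfl⟩ := (hV.cyc _ _ _).1 h4
    refine ⟨j₀, hj₀, b, ?_⟩
    apply Subtype.ext
    simp only [Subgroup.coe_mul]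
    rw [Desc_rho_pow h, h3]
    group

end Pool.Agent.RFA
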