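import Pool.Agent.RFA.Sub
import Pool.Agent.RFA.Lift
import Pool.Agent.RFA.Alg

set_option autoImplicit false

namespace Pool.Agent.RFA

open Topology Module

variable {p : ℕ} [Fact p.Prime] {G : Type} [Group G] [TopologicalSpace G] [IsTopologicalGroup G]

omit [Fact p.Prime] [TopologicalSpace G] [IsTopologicalGroup G] in
theorem coeff_TA_mul {A : Type} [AddCommGroup A] (a : G →* Multiplicative A) (x : G)
    (f : GA p A) (b : A) : (TA p a x * f).coeff b = f.coeff (b - (a x).toAdd) := by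
  have h : TA p a x = AddMonoidAlgebra.single (a x).toAdd (1 : ZMod p) := rfl
  rw [h, AddMonoidAlgebra.coeff_single_mul_apply, one_mul]
  congr 1
  abel

/-- translation of functions -/
def transl (p : ℕ) (A : Type) [AddCommGroup A] :
    Multiplicative A →* AddMonoid.End (A → ZMod p) where
  toFun c :=
    { toFun := fun v b => v (b - c.toAdd)
      map_zero' := rfl
      map_add' := fun _ _ => rfl }
  map_one' := by
    ext v b
    change v (b - (1 : Multiplicative A).toAdd) = v b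
    rw [toAdd_one, sub_zero]
  map_mul' c c' := by
    ext v b
    change v (b - (c * c').toAdd) = v (b - c.toAdd - c'.toAdd)
    rw [toAdd_mul, sub_sub]

/-- the function `Ĝ : G → Fun(A, K)` with coboundary the pointwise product `Θ' * Θ` -/
theorem ghat_exists {δ : ℕ} (hG : ProFree p δ G) {A : Type} [AddCommGroup A] [Finite A]
    (a : G →* Multiplicative A) (ha : IsLocallyConstant a) (Θ' Θ : G → GA p A)
    (h' : Θ' ∈ Coc (TA p a)) (h : Θ ∈ Coc (TA p a)) :
    ∃ Gh : G → A → ZMod p, IsLocallyConstant Gh ∧ ∀ x y b,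
      Gh (x * y) b = Gh x b + Gh y (b - (a x).toAdd) +
        (Θ' x).coeff b * (Θ y).coeff (b - (a x).toAdd) := by
  have : Fintype A := Fintype.ofFinite A
  have hcard : ∃ n, Nat.card (A → ZMod p) = p ^ n := by
    refine ⟨Nat.card A, ?_⟩
    rw [Nat.card_fun, Nat.card_zmod]
  set act : G →* AddMonoid.End (A → ZMod p) := (transl p A).comp a with hact
  have hactl : IsLocallyConstant fun g => act g := ha.comp (transl p A)
  let mu : (A → ZMod p) →+ (A → ZMod p) →+ (A → ZMod p) :=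
    AddMonoidHom.mul
  obtain ⟨Gh, h1, h2⟩ := bilin_lift hG.h2top hcard act act act hactl hactl mu
    (fun g x y => by
      ext b
      rfl)
    (fun x => ((Θ' x).coeff : A → ZMod p)) (h'.1.comp fun t => (t.coeff : A → ZMod p))
    (fun x y => by
      ext b
      have e := h'.2 x y
      simp only [e, AddMonoidAlgebra.coeff_add, Finsupp.add_apply, Pi.add_apply, coeff_TA_mul]
      rfl)
    (fun x => ((Θ x).coeff : A → ZMod p)) (h.1.comp fun t => (t.coeff : A → ZMod p))
    (fun x y => by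
      ext b
      have e := h.2 x y
      simp only [e, AddMonoidAlgebra.coeff_add, Finsupp.add_apply, Pi.add_apply, coeff_TA_mul]
      rfl)
  refine ⟨Gh, h1, fun x y b => ?_⟩
  rw [h2]
  rfl

omit [TopologicalSpace G] [IsTopologicalGroup G] in
/-- values on conjugates -/
theorem ghat_conj {A : Type} [AddCommGroup A] (a : G →* Multiplicative A) (Θ' Θ : G → GA p A)
    (h' : ∀ x y, Θ' (x * y) = Θ' x + TA p a x * Θ' y)
    (h : ∀ x y, Θ (x * y) = Θ x + TA p a x * Θ y) (Gh : G → A → ZMod p)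
    (hG : ∀ x y b, Gh (x * y) b = Gh x b + Gh y (b - (a x).toAdd) +
        (Θ' x).coeff b * (Θ y).coeff (b - (a x).toAdd))
    (j x : G) (hj : a j = 1) (h0 : Θ j = 0) (h0' : Θ' j = 0) :
    Gh (x * j * x⁻¹) 0 = Gh j (- (a x).toAdd) := by
  have hy : a (x * j * x⁻¹) = 1 := by
    rw [map_mul, map_mul, map_inv, hj, mul_one, mul_inv_cancel]
  have hT : TA p a (x * j * x⁻¹) = 1 := by
    change (AddMonoidAlgebra.of (ZMod p) A) (a (x * j * x⁻¹)) = 1
    rw [hy, map_one]
  have e1 := hG x j 0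
  have e2 := hG (x * j * x⁻¹) x 0
  have e3 : x * j * x⁻¹ * x = x * j := by group
  have e4 := h' (x * j * x⁻¹) x
  have e5 := h' x j
  rw [e3, hT, one_mul] at e4
  rw [h0', mul_zero, add_zero] at e5
  rw [e5] at e4
  have e6 : Θ' (x * j * x⁻¹) = 0 := by
    have : Θ' (x * j * x⁻¹) + Θ' x = 0 + Θ' x := by rw [← e4, zero_add]
    exact add_right_cancel this
  rw [e3, e6, hy] at e2
  rw [h0] at e1
  simp only [AddMonoidAlgebra.coeff_zero, Finsupp.coe_zero, Pi.zero_apply, mul_zero, add_zero,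
    zero_mul, toAdd_one, sub_zero, zero_sub] at e1 e2
  rw [e1] at e2
  have : Gh (x * j * x⁻¹) 0 + Gh x 0 = Gh j (- (a x).toAdd) + Gh x 0 := by
    rw [← e2, add_comm]
  exact add_right_cancel this

omit [TopologicalSpace G] [IsTopologicalGroup G] in
/-- values on powers -/
theorem ghat_pow {A : Type} [AddCommGroup A] (a : G →* Multiplicative A) (Θ' Θ : G → GA p A)
    (h' : ∀ x y, Θ' (x * y) = Θ' x + TA p a x * Θ' y)
    (h : ∀ x y, Θ (x * y) = Θ x + TA p a x * Θ y) (Gh : G → A → ZMod p)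
    (hG : ∀ x y b, Gh (x * y) b = Gh x b + Gh y (b - (a x).toAdd) +
        (Θ' x).coeff b * (Θ y).coeff (b - (a x).toAdd))
    (r : G) (n : ℕ) (hr : a r ^ n = 1) (hn : Θ (r ^ n) = 0) (Ψ : GA p A)
    (hΨ : Θ' r = (TA p a r - 1) * Ψ) (b : A) :
    Gh (r ^ n) b = ∑ k ∈ Finset.range n, (Gh r (b - k • (a r).toAdd) +
      Ψ.coeff (b - k • (a r).toAdd) * (Θ r).coeff (b - k • (a r).toAdd)) := by
  have hone : ∀ Ξ : G → GA p A, (∀ x y, Ξ (x * y) = Ξ x + TA p a x * Ξ y) → Ξ 1 = 0 := by
    intro Ξ hΞ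
    have e := hΞ 1 1
    rw [mul_one, map_one, one_mul] at e
    have : Ξ 1 + 0 = Ξ 1 + Ξ 1 := by rw [add_zero]; exact e
    exact (add_left_cancel this).symm
  have hG1 : ∀ b, Gh 1 b = 0 := by
    intro b
    have e := hG 1 1 b
    rw [mul_one, map_one, toAdd_one, sub_zero, hone Θ h] at e
    simp only [AddMonoidAlgebra.coeff_zero, Finsupp.coe_zero, Pi.zero_apply, mul_zero,
      add_zero] at e
    have : Gh 1 b + 0 = Gh 1 b + Gh 1 b := by rw [add_zero]; exact e
    exact (add_left_cancel this).symm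
  have hTk : ∀ k : ℕ, TA p a (r ^ k) = TA p a r ^ k := fun k => map_pow _ _ _
  have hak : ∀ k : ℕ, (a (r ^ k)).toAdd = k • (a r).toAdd := by
    intro k
    rw [map_pow, toAdd_pow]
  have hΘ'k : ∀ k : ℕ, Θ' (r ^ k) = (TA p a (r ^ k) - 1) * Ψ := by
    intro k
    induction k with
    | zero =>
      rw [pow_zero, hone Θ' h', map_one, sub_self, zero_mul]
    | succ k ih =>
      rw [pow_succ, h', ih, hΨ, map_mul]
      ring
  have hΘk : ∀ (k : ℕ) (b : A), (Θ (r ^ k)).coeff b =
      ∑ i ∈ Finset.range k, (Θ r).coeff (b - i • (a r).toAdd) := by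
    intro k b
    induction k with
    | zero =>
      rw [pow_zero, hone Θ h]
      simp
    | succ k ih =>
      rw [pow_succ, h, AddMonoidAlgebra.coeff_add, Finsupp.add_apply, ih, Finset.sum_range_succ,
        coeff_TA_mul, hak]
  have hΘ'c : ∀ (k : ℕ) (b : A), (Θ' (r ^ k)).coeff b =
      Ψ.coeff (b - k • (a r).toAdd) - Ψ.coeff b := by
    intro k b
    have e : Θ' (r ^ k) + Ψ = TA p a (r ^ k) * Ψ := by
      rw [hΘ'k]
      ring
    have e2 := congrArg (fun t => AddMonoidAlgebra.coeff t b) e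
    simp only [AddMonoidAlgebra.coeff_add, Finsupp.add_apply, coeff_TA_mul, hak] at e2
    rw [← e2]
    ring
  have hGk : ∀ (m : ℕ) (b : A), Gh (r ^ m) b = ∑ k ∈ Finset.range m,
      (Gh r (b - k • (a r).toAdd) + (Ψ.coeff (b - k • (a r).toAdd) - Ψ.coeff b) *
        (Θ r).coeff (b - k • (a r).toAdd)) := by
    intro m b
    induction m with
    | zero =>
      rw [pow_zero, hG1]
      simp
    | succ m ih =>
      rw [pow_succ, hG, ih, Finset.sum_range_succ, hΘ'c, hak]
      ring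
  have hz : ∑ i ∈ Finset.range n, (Θ r).coeff (b - i • (a r).toAdd) = 0 := by
    rw [← hΘk, hn]
    rfl
  rw [hGk]
  have : ∑ k ∈ Finset.range n, (Gh r (b - k • (a r).toAdd) +
      (Ψ.coeff (b - k • (a r).toAdd) - Ψ.coeff b) * (Θ r).coeff (b - k • (a r).toAdd)) =
      ∑ k ∈ Finset.range n, (Gh r (b - k • (a r).toAdd) +
      Ψ.coeff (b - k • (a r).toAdd) * (Θ r).coeff (b - k • (a r).toAdd)) -
      Ψ.coeff b * ∑ k ∈ Finset.range n, (Θ r).coeff (b - k • (a r).toAdd) := by
    rw [Finset.mul_sum, ← Finset.sum_sub_distrib]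
    refine Finset.sum_congr rfl fun k _ => ?_
    ring
  rw [this, hz, mul_zero, sub_zero]

end Pool.Agent.RFA
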