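import Pool.Agent.RFA.Shap
import Pool.Agent.RFA.Desc
import Pool.Agent.RFA.CupB
import Pool.Agent.RFA.Ghat

set_option autoImplicit false

namespace Pool.Agent.RFA

open Topology Module

variable {p : ℕ} [Fact p.Prime] {G : Type} [Group G] [TopologicalSpace G] [IsTopologicalGroup G]

omit [Fact p.Prime] [TopologicalSpace G] [IsTopologicalGroup G] in
private theorem rankInv_TA_coeff {A : Type} [AddCommGroup A] (a : G →* Multiplicative A) (x : G)
    (b : GA p A) (c : A) : (TA p a x * b).coeff c = b.coeff (c - (a x).toAdd) := by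
  have : TA p a x = AddMonoidAlgebra.single (a x).toAdd 1 := rfl
  rw [this, AddMonoidAlgebra.coeff_single_mul_apply, one_mul, neg_add_eq_sub]

omit [Fact p.Prime] [TopologicalSpace G] [IsTopologicalGroup G] in
private theorem rankInv_ginv_TA {A : Type} [AddCommGroup A] (a : G →* Multiplicative A) (x : G) :
    ginv p (TA p a x) * TA p a x = 1 := by
  have : TA p a x = AddMonoidAlgebra.single (a x).toAdd 1 := rfl
  rw [this]
  simp [ginv, gmap, AddMonoidAlgebra.one_def]

theorem phi_exists {δ : ℕ} (hG : ProFree p δ G) {A : Type} [AddCommGroup A] [Finite A]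
    (a : G →* Multiplicative A) (ha : IsLocallyConstant a) (Θ' Θ : G → GA p A)
    (h' : Θ' ∈ Coc (TA p a)) (h : Θ ∈ Coc (TA p a)) :
    ∃ Φ : G → GA p A, IsLocallyConstant Φ ∧
      ∀ x y, Φ (x * y) = Φ x + Φ y + ginv p (Θ' x) * TA p a x * Θ y := by
  have hT : IsLocallyConstant (TA p a) := TA_locConst a ha
  have hcard : ∃ n, Nat.card (GA p A) = p ^ n := by
    refine ⟨finrank (ZMod p) (GA p A), ?_⟩
    have : Finite (GA p A) := inferInstance
    have : Module.Finite (ZMod p) (GA p A) := Module.Finite.of_finite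
    have := Module.natCard_eq_pow_finrank (K := ZMod p) (V := GA p A)
    rw [this, Nat.card_zmod]
  let aT : G →* AddMonoid.End (GA p A) :=
    { toFun := fun g => AddMonoidHom.mulLeft (TA p a g)
      map_one' := by
        refine AddMonoidHom.ext fun x => ?_
        show TA p a 1 * x = x
        rw [map_one, one_mul]
      map_mul' := by
        intro x y
        refine AddMonoidHom.ext fun z => ?_
        show TA p a (x * y) * z = TA p a x * (TA p a y * z)
        rw [map_mul, mul_assoc] }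
  let μ : GA p A →+ GA p A →+ GA p A :=
    AddMonoidHom.mul.comp (ginv p : GA p A →ₐ[ZMod p] GA p A).toAddMonoidHom
  obtain ⟨Φ, hΦ, hΦ'⟩ := bilin_lift (ProFree.h2top hG) hcard aT aT 1
    (hT.comp fun t => AddMonoidHom.mulLeft t) (IsLocallyConstant.const _) μ
    (by
      intro g x y
      show ginv p (TA p a g * x) * (TA p a g * y) = ginv p x * y
      rw [map_mul]
      calc ginv p (TA p a g) * ginv p x * (TA p a g * y)
          = (ginv p (TA p a g) * TA p a g) * (ginv p x * y) := by ring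
        _ = _ := by rw [rankInv_ginv_TA, one_mul])
    Θ' h'.1 h'.2 Θ h.1 h.2
  refine ⟨Φ, hΦ, fun x y => ?_⟩
  rw [hΦ' x y]
  show Φ x + Φ y + ginv p (Θ' x) * (TA p a x * Θ y) = _
  rw [mul_assoc]

omit [TopologicalSpace G] [IsTopologicalGroup G] [Fact p.Prime] in
private theorem rankInv_coc_one {A : Type} [AddCommGroup A] (a : G →* Multiplicative A)
    (Θ : G → GA p A) (h : ∀ x y, Θ (x * y) = Θ x + TA p a x * Θ y) : Θ 1 = 0 := by
  have := h 1 1
  rw [mul_one, map_one, one_mul] at this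
  simpa using this

omit [TopologicalSpace G] [IsTopologicalGroup G] in
private theorem rankInv_coc_pow {A : Type} [AddCommGroup A] (a : G →* Multiplicative A)
    (Θ : G → GA p A) (h : ∀ x y, Θ (x * y) = Θ x + TA p a x * Θ y) (r : G) (n : ℕ) (b : A) :
    (Θ (r ^ n)).coeff b = ∑ k ∈ Finset.range n, (Θ r).coeff (b - k • (a r).toAdd) := by
  induction n with
  | zero => simp [rankInv_coc_one a Θ h]
  | succ n ih =>
    rw [pow_succ, h, AddMonoidAlgebra.coeff_add, Finsupp.add_apply, ih, rankInv_TA_coeff,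
      Finset.sum_range_succ, map_pow]
    rfl

omit [TopologicalSpace G] [IsTopologicalGroup G] [Fact p.Prime] in
private theorem rankInv_coc_conj {A : Type} [AddCommGroup A] (a : G →* Multiplicative A)
    (Θ : G → GA p A) (h : ∀ x y, Θ (x * y) = Θ x + TA p a x * Θ y) (j x : G) (hj : a j = 1) :
    (Θ (x * j * x⁻¹)).coeff 0 = (Θ j).coeff (- (a x).toAdd) := by
  have h1 := rankInv_coc_one a Θ h
  have h2 := h x x⁻¹
  rw [mul_inv_cancel, h1] at h2
  have hT : TA p a (x * j) = TA p a x := by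
    simp only [TA, MonoidHom.comp_apply, map_mul, hj, map_one, mul_one]
  rw [h (x * j) x⁻¹, h x j, hT]
  have h3 : Θ x + TA p a x * Θ j + TA p a x * Θ x⁻¹ = TA p a x * Θ j := by
    have : Θ x + TA p a x * Θ j + TA p a x * Θ x⁻¹ =
      (Θ x + TA p a x * Θ x⁻¹) + TA p a x * Θ j := by ring
    rw [this, ← h2, zero_add]
  rw [h3, rankInv_TA_coeff, zero_sub]

/-- `ker N = im (T - 1)` on functions -/
private theorem rankInv_kerN {A K : Type} [AddCommGroup A] [AddCommGroup K] (a₀ : A) (n : ℕ)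
    (hn : 0 < n)
    (ho : ∀ k : ℕ, k • a₀ = 0 ↔ n ∣ k) (y : A → K)
    (hy : ∀ b, ∑ k ∈ Finset.range n, y (b - k • a₀) = 0) :
    ∃ Ψ : A → K, ∀ b, y b = Ψ (b - a₀) - Ψ b := by
  classical
  -- full period sums in the other direction
  have hna : n • a₀ = 0 := (ho n).2 dvd_rfl
  have hy' : ∀ b, ∑ k ∈ Finset.range n, y (b + k • a₀) = 0 := by
    intro b
    have h := hy (b + (n - 1) • a₀)
    rw [← Finset.sum_range_reflect] at h
    rw [← h]
    refine Finset.sum_congr rfl fun k hk => ?_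
    have hk' : k < n := Finset.mem_range.1 hk
    congr 1
    have : (n - 1) = k + (n - 1 - k) := by omega
    conv_rhs => rw [this, add_nsmul]
    simp only [add_tsub_cancel_left]
    abel
  let s : A → A := fun b => (QuotientAddGroup.mk (s := AddSubgroup.zmultiples a₀) b).out
  have hs : ∀ b, ∃ k : ℕ, k < n ∧ b = s b + k • a₀ := by
    intro b
    have h1 : (QuotientAddGroup.mk (s := AddSubgroup.zmultiples a₀) (s b)) =
        QuotientAddGroup.mk (s := AddSubgroup.zmultiples a₀) b := Quotient.out_eq _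
    rw [QuotientAddGroup.eq] at h1
    obtain ⟨z, hz⟩ := AddSubgroup.mem_zmultiples_iff.1 h1
    have hn0 : (n : ℤ) ≠ 0 := by exact_mod_cast hn.ne'
    refine ⟨(z % n).toNat, ?_, ?_⟩
    · have := Int.emod_lt_of_pos z (by exact_mod_cast hn : (0 : ℤ) < n)
      have := Int.emod_nonneg z hn0
      omega
    · have h2 : ((z % n).toNat : ℤ) = z % n := Int.toNat_of_nonneg (Int.emod_nonneg z hn0)
      have h3 : (z % n).toNat • a₀ = z • a₀ := by
        rw [← natCast_zsmul, h2]
        conv_rhs => rw [← Int.emod_add_mul_ediv z n, add_zsmul, mul_comm, mul_zsmul,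
          natCast_zsmul, hna, zsmul_zero, add_zero]
      rw [h3, hz]; abel
  choose k hk hkb using hs
  have hsub : ∀ b, s (b - a₀) = s b := by
    intro b
    show (QuotientAddGroup.mk (s := AddSubgroup.zmultiples a₀) (b - a₀)).out = _
    congr 1
    rw [QuotientAddGroup.eq]
    exact AddSubgroup.mem_zmultiples_iff.2 ⟨1, by simp⟩
  refine ⟨fun b => - ∑ j ∈ Finset.range (k b), y (s b + (j + 1) • a₀), fun b => ?_⟩
  have e1 : (k b) • a₀ = (k (b - a₀) + 1) • a₀ := by
    have h1 := hkb b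
    have h2 := hkb (b - a₀)
    rw [hsub] at h2
    have h3 : b = s b + (k (b - a₀)) • a₀ + a₀ := by
      rw [← h2]; abel
    rw [succ_nsmul]
    have : s b + (k b) • a₀ = s b + ((k (b - a₀)) • a₀ + a₀) := by
      rw [← h1, ← add_assoc, ← h3]
    exact add_left_cancel this
  simp only [hsub]
  rcases Nat.lt_or_ge (k (b - a₀) + 1) n with hlt | hge
  · have hkk : k b = k (b - a₀) + 1 := by
      by_contra hne
      rcases Nat.lt_or_gt_of_ne hne with h | h
      · have : (k (b - a₀) + 1 - k b) • a₀ = 0 := by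
          have h5 : (k (b - a₀) + 1) = (k (b - a₀) + 1 - k b) + k b := by omega
          rw [h5, add_nsmul] at e1
          exact (left_eq_add.1 (by rw [add_comm] at e1; exact e1))
        have := (ho _).1 this
        have := Nat.le_of_dvd (by omega) this
        omega
      · have : (k b - (k (b - a₀) + 1)) • a₀ = 0 := by
          have h5 : k b = (k b - (k (b - a₀) + 1)) + (k (b - a₀) + 1) := by omega
          rw [h5, add_nsmul] at e1
          simpa using e1
        have := (ho _).1 this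
        have := Nat.le_of_dvd (by omega) this
        have := hk b
        omega
    rw [hkk, Finset.sum_range_succ]
    have : y b = y (s b + (k (b - a₀) + 1) • a₀) := by
      rw [← e1, ← hkb b]
    rw [this]; abel
  · have hk0 : k (b - a₀) + 1 = n := by have := hk (b - a₀); omega
    have hkb0 : k b = 0 := by
      rw [hk0, hna] at e1
      have := (ho _).1 e1
      rcases Nat.eq_zero_or_pos (k b) with h | h
      · exact h
      · have := Nat.le_of_dvd h this
        have := hk b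
        omega
    have hb : b = s b := by
      have := hkb b
      rw [hkb0, zero_nsmul, add_zero] at this
      exact this
    rw [hkb0, Finset.sum_range_zero]
    have h6 := hy' (s b)
    rw [← hk0, Finset.sum_range_succ'] at h6
    simp only [zero_nsmul, add_zero] at h6
    conv_lhs => rw [hb]
    have h7 := eq_neg_of_add_eq_zero_right h6
    rw [h7]; abel

omit [TopologicalSpace G] [IsTopologicalGroup G] in
private theorem rankInv_psi {A : Type} [AddCommGroup A] [Finite A] (a : G →* Multiplicative A)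
    (Θ : G → GA p A) (h : ∀ x y, Θ (x * y) = Θ x + TA p a x * Θ y) (r : G) (n : ℕ) (hn : 0 < n)
    (ho : ∀ k, a r ^ k = 1 ↔ n ∣ k) (h0 : Θ (r ^ n) = 0) :
    ∃ Ψ : GA p A, Θ r = (TA p a r - 1) * Ψ := by
  obtain ⟨Ψ, hΨ⟩ := rankInv_kerN (K := ZMod p) (a r).toAdd n hn (fun k => ho k)
    (fun b => (Θ r).coeff b) (fun b => by
      rw [← rankInv_coc_pow a Θ h r n b, h0]; rfl)
  refine ⟨AddMonoidAlgebra.ofCoeff (Finsupp.equivFunOnFinite.symm Ψ), ?_⟩
  refine AddMonoidAlgebra.ext (Finsupp.ext fun b => ?_)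
  rw [sub_mul, one_mul, AddMonoidAlgebra.coeff_sub, Finsupp.sub_apply, rankInv_TA_coeff, hΨ b]
  rfl

theorem exists_isB {δ : ℕ} (hG : ProFree p δ G) {I : Type} [Fintype I] (r : I → G) (e : I → ℕ)
    {A : Type} [AddCommGroup A] [Finite A] (a : G →* Multiplicative A)
    (ha : IsLocallyConstant a) (hord : ∀ i n, a (r i) ^ n = 1 ↔ p ^ e i ∣ n)
    (κ : I → ZMod p) (Θ' Θ : G → GA p A) (hΘ' : Θ' ∈ Coc (TA p a)) (hΘ : Θ ∈ Coc (TA p a))
    (h' : ∀ i, Θ' (r i ^ p ^ e i) = 0) (h : ∀ i, Θ (r i ^ p ^ e i) = 0) :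
    ∃ b, IsB p a r κ Θ' Θ b := by
  obtain ⟨Φ, hΦ, hΦ'⟩ := phi_exists hG a ha Θ' Θ hΘ' hΘ
  have hp : 0 < p := (Fact.out : p.Prime).pos
  have : ∀ i, ∃ Ψ : GA p A, Θ' (r i) = (TA p a (r i) - 1) * Ψ := fun i =>
    rankInv_psi a Θ' hΘ'.2 (r i) (p ^ e i) (pow_pos hp _) (hord i) (h' i)
  choose Ψ hΨ using this
  exact ⟨_, Φ, Ψ, hΦ, hΦ', hΨ, rfl⟩

omit [TopologicalSpace G] [IsTopologicalGroup G] in
/-- the counting lemma: the elements `-a(x_l) - k a(r_i)` run through `A` exactly once -/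
private theorem rankInv_count {I : Type} [Fintype I] (r : I → G) (e : I → ℕ)
    {A : Type} [AddCommGroup A] [Fintype A] (a : G →* Multiplicative A)
    (hs : Function.Surjective a)
    (hord : ∀ i n, a (r i) ^ n = 1 ↔ p ^ e i ∣ n)
    {ι : Type} [Fintype ι] (ρ : ι → ↥a.ker) (idx : ι → I) (x : ι → G)
    (hPP : PP p r e a.ker ρ idx x) (F : I → A → ZMod p) :
    ∑ l, ∑ k ∈ Finset.range (p ^ e (idx l)),
      F (idx l) (- (a (x l)).toAdd - k • (a (r (idx l))).toAdd) = ∑ i, ∑ b, F i b := by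
  classical
  have hp : 0 < p := (Fact.out : p.Prime).pos
  have hmem : ∀ g : G, g ∈ a.ker ↔ (a g).toAdd = 0 := fun g => by
    rw [MonoidHom.mem_ker]; rfl
  have hordA : ∀ i (n : ℕ), n • (a (r i)).toAdd = 0 ↔ p ^ e i ∣ n := fun i n => hord i n
  let f : (Σ l : ι, Fin (p ^ e (idx l))) → I × A := fun t =>
    (idx t.1, - (a (x t.1)).toAdd - (t.2 : ℕ) • (a (r (idx t.1))).toAdd)
  have hf : Function.Bijective f := by
    constructor
    · rintro ⟨l, k, hk⟩ ⟨l', k', hk'⟩ h
      have h1 : idx l = idx l' := congrArg Prod.fst h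
      have h2 : - (a (x l)).toAdd - (k : ℕ) • (a (r (idx l))).toAdd =
        - (a (x l')).toAdd - (k' : ℕ) • (a (r (idx l'))).toAdd := congrArg Prod.snd h
      rw [← h1] at h2
      have hn : 0 < p ^ e (idx l) := pow_pos hp _
      have hll : l = l' := by
        refine hPP.uniq l l' h1 ?_
        let t : ℕ := (k : ℕ) + (p ^ e (idx l) - 1) * (k' : ℕ)
        refine ⟨x l' * (x l * r (idx l) ^ t)⁻¹, ?_, t, ?_⟩
        · rw [hmem]
          simp only [map_mul, map_inv, map_pow, toAdd_mul, toAdd_inv, toAdd_pow]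
          have h3 : (p ^ e (idx l) * (k' : ℕ)) • (a (r (idx l))).toAdd = 0 :=
            (hordA _ _).2 (dvd_mul_right _ _)
          have h4 : t • (a (r (idx l))).toAdd + (k' : ℕ) • (a (r (idx l))).toAdd =
              (k : ℕ) • (a (r (idx l))).toAdd := by
            rw [← add_nsmul]
            have : t + (k' : ℕ) = (k : ℕ) + p ^ e (idx l) * (k' : ℕ) := by
              show (k : ℕ) + (p ^ e (idx l) - 1) * (k' : ℕ) + (k' : ℕ) = _
              obtain ⟨q, hq⟩ : ∃ q, p ^ e (idx l) = q + 1 := ⟨p ^ e (idx l) - 1, by omega⟩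
              rw [hq, Nat.add_sub_cancel]; ring
            rw [this, add_nsmul, h3, add_zero]
          have h5 : (a (x l')).toAdd + (k' : ℕ) • (a (r (idx l))).toAdd =
              (a (x l)).toAdd + (k : ℕ) • (a (r (idx l))).toAdd := by
            have := congrArg Neg.neg h2
            simp only [neg_sub, sub_neg_eq_add] at this
            rw [add_comm, ← this, add_comm]
          have h6 : (a (x l')).toAdd = (a (x l)).toAdd + t • (a (r (idx l))).toAdd := by
            rw [← h4, ← add_assoc] at h5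
            exact add_right_cancel h5
          rw [h6]; abel
        · group
      subst hll
      have h3 : (k : ℕ) • (a (r (idx l))).toAdd = (k' : ℕ) • (a (r (idx l))).toAdd := by
        have := sub_right_inj.1 h2
        exact this
      have hkk : k = k' := by
       by_contra hne
       rcases Nat.lt_or_gt_of_ne hne with hlt | hlt
       · have h5 : (k' : ℕ) = ((k' : ℕ) - k) + k := by omega
         rw [h5, add_nsmul] at h3
         have : ((k' : ℕ) - k) • (a (r (idx l))).toAdd = 0 := by simpa using h3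
         have := Nat.le_of_dvd (by omega) ((hordA _ _).1 this)
         omega
       · have h5 : (k : ℕ) = ((k : ℕ) - k') + k' := by omega
         rw [h5, add_nsmul] at h3
         have : ((k : ℕ) - k') • (a (r (idx l))).toAdd = 0 := by simpa using h3
         have := Nat.le_of_dvd (by omega) ((hordA _ _).1 this)
         omega
      subst hkk
      rfl
    · rintro ⟨i, b⟩
      obtain ⟨g, hg⟩ := hs (Multiplicative.ofAdd (-b))
      obtain ⟨l, hl, j, hj, t, ht⟩ := hPP.cover i g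
      subst hl
      refine ⟨⟨l, ⟨t % p ^ e (idx l), Nat.mod_lt _ (pow_pos hp _)⟩⟩, ?_⟩
      refine Prod.ext rfl ?_
      show - (a (x l)).toAdd - (t % p ^ e (idx l)) • (a (r (idx l))).toAdd = b
      have h1 : (a g).toAdd = -b := by rw [hg]; rfl
      have h2 : (a g).toAdd = (a (x l)).toAdd + t • (a (r (idx l))).toAdd := by
        rw [ht]
        simp only [map_mul, map_pow, toAdd_mul, toAdd_pow, (hmem j).1 hj, zero_add]
      have h3 : t • (a (r (idx l))).toAdd = (t % p ^ e (idx l)) • (a (r (idx l))).toAdd := by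
        conv_lhs => rw [← Nat.mod_add_div t (p ^ e (idx l)), add_nsmul,
          (hordA (idx l) _).2 (dvd_mul_right _ _), add_zero]
      rw [← h3]
      have : b = - (a g).toAdd := by rw [h1, neg_neg]
      rw [this, h2]; abel
  have h1 : ∀ l, ∑ k ∈ Finset.range (p ^ e (idx l)),
      F (idx l) (- (a (x l)).toAdd - k • (a (r (idx l))).toAdd) =
      ∑ k : Fin (p ^ e (idx l)), F (idx l)
        (- (a (x l)).toAdd - (k : ℕ) • (a (r (idx l))).toAdd) := fun l =>
    (Fin.sum_univ_eq_sum_range (fun k => F (idx l)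
        (- (a (x l)).toAdd - (k : ℕ) • (a (r (idx l))).toAdd)) _).symm
  rw [Finset.sum_congr rfl fun l _ => h1 l]
  rw [← Fintype.sum_prod_type' (f := F)]
  rw [← (Equiv.ofBijective f hf).sum_comp, Fintype.sum_sigma]
  rfl

/-- every homomorphism on the kernel comes from a cocycle (Shapiro) -/
private theorem rankInv_shapiro {A : Type} [AddCommGroup A] [Finite A]
    (a : G →* Multiplicative A) (ha : IsLocallyConstant a) (hs : Function.Surjective a)
    (f : ↥a.ker → ZMod p) (hf : f ∈ Hom1 p ↥a.ker) :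
    ∃ Θ ∈ Coc (TA p a), ∀ j : ↥a.ker, (Θ j).coeff 0 = f j := by
  classical
  let F : G → ZMod p := fun g => if h : g ∈ a.ker then f ⟨g, h⟩ else 0
  have hFk : ∀ g (h : g ∈ a.ker), F g = f ⟨g, h⟩ := fun g h => dif_pos h
  have hFmul : ∀ x ∈ a.ker, ∀ y ∈ a.ker, F (x * y) = F x + F y := by
    intro x hx y hy
    rw [hFk _ hx, hFk _ hy, hFk _ (mul_mem hx hy), ← hf.2]
    rfl
  have hF : IsLocallyConstant F := by
    rw [IsLocallyConstant.iff_eventually_eq]
    intro g
    have h1 : ∀ᶠ y in 𝓝 g, a y = a g := ha.eventually_eq g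
    by_cases hg : g ∈ a.ker
    · have h2 : ∀ᶠ y in 𝓝 (⟨g, hg⟩ : ↥a.ker), f y = f ⟨g, hg⟩ := hf.1.eventually_eq _
      have h3 := (ker_isOpen a ha).isOpenEmbedding_subtypeVal.map_nhds_eq ⟨g, hg⟩
      have h4 : ∀ᶠ y in 𝓝 g, ∃ h : y ∈ a.ker, f ⟨y, h⟩ = f ⟨g, hg⟩ := by
        rw [← h3]
        exact Filter.eventually_map.2 (h2.mono fun y hy => ⟨y.2, hy⟩)
      filter_upwards [h4] with y hy
      obtain ⟨h, hy⟩ := hy
      rw [hFk y h, hFk g hg, hy]
    · filter_upwards [h1] with y hy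
      have : y ∉ a.ker := fun h => hg (by rw [MonoidHom.mem_ker] at h ⊢; rw [← hy, h])
      simp only [F, hg, this, dif_neg, not_false_eq_true]
  choose xr hxr using fun b : A => hs (Multiplicative.ofAdd b)
  have hmem : ∀ b y, (xr b)⁻¹ * y * xr (b - (a y).toAdd) ∈ a.ker := by
    intro b y
    rw [MonoidHom.mem_ker, map_mul, map_mul, map_inv, hxr, hxr]
    apply Multiplicative.toAdd.injective
    simp
  refine ⟨fun y => AddMonoidAlgebra.ofCoeff (Finsupp.equivFunOnFinite.symm fun b =>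
    F ((xr b)⁻¹ * y * xr (b - (a y).toAdd))), ⟨?_, ?_⟩, ?_⟩
  · rw [IsLocallyConstant.iff_eventually_eq]
    intro y₀
    have h1 : ∀ᶠ y in 𝓝 y₀, a y = a y₀ := ha.eventually_eq y₀
    have h2 : ∀ᶠ y in 𝓝 y₀, ∀ b : A, F ((xr b)⁻¹ * y * xr (b - (a y₀).toAdd)) =
        F ((xr b)⁻¹ * y₀ * xr (b - (a y₀).toAdd)) := by
      rw [Filter.eventually_all]
      intro b
      exact (hF.comp_continuous (f := fun y => (xr b)⁻¹ * y * xr (b - (a y₀).toAdd))
        (by fun_prop)).eventually_eq y₀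
    filter_upwards [h1, h2] with y hy1 hy2
    congr 2
    funext b
    rw [hy1]
    exact hy2 b
  · intro x y
    refine AddMonoidAlgebra.ext (Finsupp.ext fun b => ?_)
    rw [AddMonoidAlgebra.coeff_add, Finsupp.add_apply, rankInv_TA_coeff]
    show F ((xr b)⁻¹ * (x * y) * xr (b - (a (x * y)).toAdd)) =
      F ((xr b)⁻¹ * x * xr (b - (a x).toAdd)) +
      F ((xr (b - (a x).toAdd))⁻¹ * y * xr (b - (a x).toAdd - (a y).toAdd))
    rw [← hFmul _ (hmem _ _) _ (hmem _ _)]
    congr 1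
    have : b - (a (x * y)).toAdd = b - (a x).toAdd - (a y).toAdd := by
      rw [map_mul, toAdd_mul, sub_sub]
    rw [this]
    group
  · intro j
    have hj : (a (j : G)).toAdd = 0 := by
      have := j.2
      rw [MonoidHom.mem_ker] at this
      rw [this]; rfl
    have h0 : xr 0 ∈ a.ker := by rw [MonoidHom.mem_ker, hxr]; rfl
    show F ((xr 0)⁻¹ * (j : G) * xr (0 - (a (j : G)).toAdd)) = f j
    rw [hj, sub_zero, hFmul _ (mul_mem (inv_mem h0) j.2) _ h0, hFmul _ (inv_mem h0) _ j.2]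
    have h1 : F ((xr 0)⁻¹ * xr 0) = F (xr 0)⁻¹ + F (xr 0) := hFmul _ (inv_mem h0) _ h0
    have h2 : F 1 = 0 := by
      have := hFmul 1 (one_mem _) 1 (one_mem _)
      rw [mul_one] at this
      simpa using this
    rw [inv_mul_cancel, h2] at h1
    rw [hFk _ j.2]
    have h3 : F (xr 0)⁻¹ = - F (xr 0) := eq_neg_of_add_eq_zero_left h1.symm
    rw [h3]
    ring

/-- `κ ∘ idx` lies in `Z2` -/
private theorem rankInv_Z2 {I : Type} [Fintype I] (r : I → G) (e : I → ℕ)
    {A : Type} [AddCommGroup A] [Finite A] (a : G →* Multiplicative A)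
    (ha : IsLocallyConstant a) (hs : Function.Surjective a)
    (hord : ∀ i n, a (r i) ^ n = 1 ↔ p ^ e i ∣ n)
    {ι : Type} [Fintype ι] (ρ : ι → ↥a.ker) (idx : ι → I) (x : ι → G)
    (hPP : PP p r e a.ker ρ idx x) (κ : I → ZMod p)
    (hκ : ∀ f ∈ Hom1 p G, ∑ i, κ i * f (r i) = 0) :
    (fun l => κ (idx l)) ∈ Z2 p ρ := by
  classical
  have : Fintype A := Fintype.ofFinite A
  intro f hf
  obtain ⟨Θ, hΘ, hΘf⟩ := rankInv_shapiro a ha hs f hf
  have h1 : ∀ l, κ (idx l) * f (ρ l) = ∑ k ∈ Finset.range (p ^ e (idx l)),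
      κ (idx l) * (Θ (r (idx l))).coeff (- (a (x l)).toAdd - k • (a (r (idx l))).toAdd) := by
    intro l
    rw [← hΘf, hPP.rho_eq l, rankInv_coc_conj a Θ hΘ.2 _ _
      (by rw [map_pow]; exact (hord _ _).2 dvd_rfl), rankInv_coc_pow a Θ hΘ.2, Finset.mul_sum]
  rw [Finset.sum_congr rfl fun l _ => h1 l]
  rw [rankInv_count r e a hs hord ρ idx x hPP (fun i b => κ i * (Θ (r i)).coeff b)]
  have h2 : ∀ i, ∑ b, κ i * (Θ (r i)).coeff b = κ i * aug p (Θ (r i)) := by
    intro i
    rw [aug_eq_sum, Finset.mul_sum]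
  rw [Finset.sum_congr rfl fun i _ => h2 i]
  refine hκ (fun g => aug p (Θ g)) ⟨hΘ.1.comp fun t => aug p t, fun u v => ?_⟩
  show aug p (Θ (u * v)) = aug p (Θ u) + aug p (Θ v)
  rw [hΘ.2, map_add, map_mul, aug_TA, one_mul]

/-- the cup product formula -/
private theorem rankInv_cup {δ : ℕ} (hG : ProFree p δ G) {I : Type} [Fintype I] (r : I → G)
    (e : I → ℕ) {A : Type} [AddCommGroup A] [Finite A] (a : G →* Multiplicative A)
    (ha : IsLocallyConstant a) (hs : Function.Surjective a)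
    (hord : ∀ i n, a (r i) ^ n = 1 ↔ p ^ e i ∣ n)
    {ι : Type} [Fintype ι] (ρ : ι → ↥a.ker) (idx : ι → I) (x : ι → G)
    (hPP : PP p r e a.ker ρ idx x) (κ : I → ZMod p)
    (hκ : ∀ f ∈ Hom1 p G, ∑ i, κ i * f (r i) = 0)
    (Θ' Θ : G → GA p A) (hΘ' : Θ' ∈ Coc (TA p a)) (hΘ : Θ ∈ Coc (TA p a))
    (h' : ∀ i, Θ' (r i ^ p ^ e i) = 0) (h : ∀ i, Θ (r i ^ p ^ e i) = 0)
    (b : GA p A) (hb : IsB p a r κ Θ' Θ b) :
    cupVal p ρ (fun l => κ (idx l)) (fun j : ↥a.ker => coef0 p (Θ' j))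
      (fun j : ↥a.ker => coef0 p (Θ j)) = coef0 p b := by
  classical
  have : Fintype A := Fintype.ofFinite A
  obtain ⟨Gh, hGh, hGh'⟩ := ghat_exists hG a ha Θ' Θ hΘ' hΘ
  obtain ⟨Φ, Ψ, hΦ, hΦ', hΨ, rfl⟩ := hb
  have hz := rankInv_Z2 r e a ha hs hord ρ idx x hPP κ hκ
  have hker : ∀ j : ↥a.ker, (a (j : G)).toAdd = 0 := by
    intro j
    have := j.2
    rw [MonoidHom.mem_ker] at this
    rw [this]; rfl
  have hcup : IsCup p (fun j : ↥a.ker => coef0 p (Θ' j)) (fun j : ↥a.ker => coef0 p (Θ j))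
      (fun j : ↥a.ker => Gh j 0) := by
    refine ⟨(hGh.comp fun t => t 0).comp_continuous continuous_subtype_val, fun u v => ?_⟩
    have := hGh' (u : G) (v : G) 0
    rw [hker u, sub_zero] at this
    exact this
  rw [cupVal_eq hz hcup]
  have h1 : ∀ l, κ (idx l) * Gh (ρ l : ↥a.ker) 0 = ∑ k ∈ Finset.range (p ^ e (idx l)),
      κ (idx l) * (Gh (r (idx l)) (- (a (x l)).toAdd - k • (a (r (idx l))).toAdd) +
        (Ψ (idx l)).coeff (- (a (x l)).toAdd - k • (a (r (idx l))).toAdd) *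
        (Θ (r (idx l))).coeff (- (a (x l)).toAdd - k • (a (r (idx l))).toAdd)) := by
    intro l
    rw [hPP.rho_eq l, ghat_conj a Θ' Θ hΘ'.2 hΘ.2 Gh hGh' _ _
      (by rw [map_pow]; exact (hord _ _).2 dvd_rfl) (h _) (h' _),
      ghat_pow a Θ' Θ hΘ'.2 hΘ.2 Gh hGh' (r (idx l)) (p ^ e (idx l)) ((hord _ _).2 dvd_rfl)
        (h _) (Ψ (idx l)) (hΨ _), Finset.mul_sum]
  rw [Finset.sum_congr rfl fun l _ => h1 l]
  rw [rankInv_count r e a hs hord ρ idx x hPP (fun i b => κ i * (Gh (r i) b +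
    (Ψ i).coeff b * (Θ (r i)).coeff b))]
  have h2 : ∀ i, ∑ b, κ i * (Gh (r i) b + (Ψ i).coeff b * (Θ (r i)).coeff b) =
      κ i * (∑ b, Gh (r i) b) + κ i * coef0 p (ginv p (Ψ i) * Θ (r i)) := by
    intro i
    rw [coef0_ginv_mul, ← mul_add, ← Finset.sum_add_distrib, Finset.mul_sum]
  rw [Finset.sum_congr rfl fun i _ => h2 i, Finset.sum_add_distrib]
  have hadd : ∀ u v : GA p A, coef0 p (u + v) = coef0 p u + coef0 p v := fun u v => rfl
  have hfun : (fun g => (∑ b, Gh g b) - coef0 p (Φ g)) ∈ Hom1 p G := by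
    refine ⟨(hGh.comp fun t => ∑ b, t b).sub (hΦ.comp fun t => coef0 p t), fun u v => ?_⟩
    have h3 : ∑ b, Gh (u * v) b = ∑ b, Gh u b + ∑ b, Gh v b +
        coef0 p (ginv p (Θ' u) * TA p a u * Θ v) := by
      rw [mul_assoc, coef0_ginv_mul]
      simp only [hGh', Finset.sum_add_distrib]
      have e1 : ∑ b, Gh v (b - (a u).toAdd) = ∑ b, Gh v b :=
        (Equiv.subRight (a u).toAdd).sum_comp (fun b => Gh v b)
      rw [e1]
      congr 1
      refine Finset.sum_congr rfl fun b _ => ?_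
      rw [rankInv_TA_coeff]
    show (∑ b, Gh (u * v) b) - coef0 p (Φ (u * v)) =
      ((∑ b, Gh u b) - coef0 p (Φ u)) + ((∑ b, Gh v b) - coef0 p (Φ v))
    rw [h3, hΦ' u v, hadd, hadd]
    ring
  have h4 := hκ _ hfun
  simp only [mul_sub, Finset.sum_sub_distrib] at h4
  have h5 := sub_eq_zero.1 h4
  rw [h5]
  have hcs : ∀ (c : I → ZMod p) (u : I → GA p A), coef0 p (∑ i, c i • u i) =
      ∑ i, c i * coef0 p (u i) := by
    intro c u
    simp only [coef0, AddMonoidAlgebra.coeff_sum, Finsupp.finsetSum_apply,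
      AddMonoidAlgebra.coeff_smul, Finsupp.smul_apply, smul_eq_mul]
  rw [hcs, ← Finset.sum_add_distrib]
  refine Finset.sum_congr rfl fun i _ => ?_
  rw [hadd, mul_add]

/-- the invariant functional `κ ∘ idx` has rank at least `dim (K[A] b)` -/
theorem rank_inv {δ : ℕ} (hG : ProFree p δ G) {I : Type} [Fintype I] (r : I → G) (e : I → ℕ)
    {A : Type} [AddCommGroup A] [Finite A] (a : G →* Multiplicative A)
    (ha : IsLocallyConstant a) (hs : Function.Surjective a)
    (hord : ∀ i n, a (r i) ^ n = 1 ↔ p ^ e i ∣ n)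
    {ι : Type} [Fintype ι] (ρ : ι → ↥a.ker) (idx : ι → I) (x : ι → G)
    (hPP : PP p r e a.ker ρ idx x) (κ : I → ZMod p)
    (hκ : ∀ f ∈ Hom1 p G, ∑ i, κ i * f (r i) = 0)
    (Θ' Θ : G → GA p A) (hΘ' : Θ' ∈ Coc (TA p a)) (hΘ : Θ ∈ Coc (TA p a))
    (h' : ∀ i, Θ' (r i ^ p ^ e i) = 0) (h : ∀ i, Θ (r i ^ p ^ e i) = 0)
    (b : GA p A) (hb : IsB p a r κ Θ' Θ b) (n : ℕ)
    (hn : n ≤ finrank (ZMod p) ((Ideal.span {b}).restrictScalars (ZMod p))) :
    (fun l => κ (idx l)) ∈ Z2 p ρ ∧ RankGE p ρ (fun l => κ (idx l)) n := by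
  classical
  have : Fintype A := Fintype.ofFinite A
  refine ⟨rankInv_Z2 r e a ha hs hord ρ idx x hPP κ hκ, ?_⟩
  have hfin : Module.Finite (ZMod p) (GA p A) := Module.Finite.of_finite
  -- linearly independent multiples of `b`
  obtain ⟨v, hv, hvm⟩ : ∃ v : Fin n → GA p A, LinearIndependent (ZMod p) v ∧
      ∀ i, v i ∈ Ideal.span {b} := by
    let B := Module.finBasis (ZMod p) ((Ideal.span {b}).restrictScalars (ZMod p))
    refine ⟨fun i => (B (Fin.castLE hn i) : GA p A), ?_, fun i => (B (Fin.castLE hn i)).2⟩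
    have h1 : LinearIndependent (ZMod p) (fun i => B (Fin.castLE hn i)) :=
      B.linearIndependent.comp _ (Fin.castLE_injective hn)
    exact h1.map' (Submodule.subtype _) (Submodule.ker_subtype _)
  have hvb : ∀ i, ∃ β : GA p A, β * b = v i := fun i => Ideal.mem_span_singleton'.1 (hvm i)
  choose β hβ using hvb
  -- dual functionals
  obtain ⟨g, hg⟩ := (Fintype.linearCombination (ZMod p) v).exists_leftInverse_of_injective
    (LinearMap.ker_eq_bot.2 (linearIndependent_iff_injective_fintypeLinearCombination.1 hv))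
  have hgv : ∀ i j, g (v i) j = if i = j then 1 else 0 := by
    intro i j
    have h1 : Fintype.linearCombination (ZMod p) v (Pi.single i 1) = v i := by
      rw [Fintype.linearCombination_apply_single, one_smul]
    rw [← h1]
    have := congrArg (fun f => f (Pi.single i 1)) hg
    simp only [LinearMap.comp_apply, LinearMap.id_apply] at this
    rw [this]
    simp [Pi.single_apply, eq_comm]
  let α : Fin n → GA p A := fun j => AddMonoidAlgebra.ofCoeff (Finsupp.equivFunOnFinite.symm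
    fun c => g (AddMonoidAlgebra.single c 1) j)
  have hα : ∀ j (u : GA p A), coef0 p (ginv p (α j) * u) = g u j := by
    intro j u
    rw [coef0_ginv_mul]
    have hu : u = ∑ c, u.coeff c • (AddMonoidAlgebra.single c 1 : GA p A) := by
      refine AddMonoidAlgebra.ext (Finsupp.ext fun d => ?_)
      simp [AddMonoidAlgebra.coeff_sum]
    conv_rhs => rw [hu, map_sum, Finset.sum_apply]
    refine Finset.sum_congr rfl fun c _ => ?_
    rw [map_smul, Pi.smul_apply, smul_eq_mul, mul_comm]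
    rfl
  have hmemP : ∀ (Θ₁ : G → GA p A), Θ₁ ∈ Coc (TA p a) → (∀ i, Θ₁ (r i ^ p ^ e i) = 0) →
      (fun j : ↥a.ker => coef0 p (Θ₁ j)) ∈ HomP p ρ := by
    intro Θ₁ h1 h2
    rw [PP.homP (ker_adm r e a ha hord) hPP]
    exact coef0_homR r e a ha hord Θ₁ h1 h2
  have hc1 : ∀ j, (α j • Θ') ∈ Coc (TA p a) := fun j => (Coc (TA p a)).smul_mem _ hΘ'
  have hc2 : ∀ j, (β j • Θ) ∈ Coc (TA p a) := fun j => (Coc (TA p a)).smul_mem _ hΘ
  have hc1' : ∀ j i, (α j • Θ') (r i ^ p ^ e i) = 0 := fun j i => by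
    rw [Pi.smul_apply, h' i, smul_zero]
  have hc2' : ∀ j i, (β j • Θ) (r i ^ p ^ e i) = 0 := fun j i => by
    rw [Pi.smul_apply, h i, smul_zero]
  refine ⟨fun j => fun t : ↥a.ker => coef0 p ((α j • Θ') t),
    fun j => fun t : ↥a.ker => coef0 p ((β j • Θ) t),
    fun j => hmemP _ (hc1 j) (hc1' j), fun j => hmemP _ (hc2 j) (hc2' j), fun i j => ?_⟩
  have hB : IsB p a r κ (α i • Θ') (β j • Θ) (ginv p (α i) * β j * b) := by
    obtain ⟨Φ, Ψ, hΦ, hΦ', hΨ, rfl⟩ := hb
    refine ⟨fun t => ginv p (α i) * β j * Φ t, fun t => α i * Ψ t,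
      hΦ.comp fun t => ginv p (α i) * β j * t, fun u v => ?_, fun t => ?_, ?_⟩
    · simp only [Pi.smul_apply, smul_eq_mul, hΦ' u v, map_mul]
      ring
    · simp only [Pi.smul_apply, smul_eq_mul, hΨ t]
      ring
    · rw [Finset.mul_sum]
      refine Finset.sum_congr rfl fun t _ => ?_
      simp only [Pi.smul_apply, smul_eq_mul, map_mul, mul_smul_comm]
      congr 1
      ring
  rw [rankInv_cup hG r e a ha hs hord ρ idx x hPP κ hκ _ _ (hc1 i) (hc2 j) (hc1' i) (hc2' j) _ hB,
    mul_assoc, hβ, hα, hgv]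
  simp only [eq_comm]

end Pool.Agent.RFA
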