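import Pool.Agent.RFA.Defs

set_option autoImplicit false

namespace Pool.Agent.RFA

open Topology Module

variable {p : ℕ} [Fact p.Prime]

/-- rank of the restriction of a bilinear form to subspaces -/
theorem rank_restrict {W : Type} [AddCommGroup W] [Module (ZMod p) W]
    [Module.Finite (ZMod p) W] (B : W →ₗ[ZMod p] W →ₗ[ZMod p] ZMod p)
    (D : Submodule (ZMod p) W) (c : ℕ) (hc : finrank (ZMod p) W ≤ finrank (ZMod p) D + c)
    (h : 2 * c < finrank (ZMod p) (LinearMap.range B)) :
    ∃ f ∈ D, ∃ g ∈ D, B f g ≠ 0 := by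
  by_contra hcon
  push Not at hcon
  obtain ⟨E, hE⟩ := Submodule.exists_isCompl D
  have hdim : finrank (ZMod p) D + finrank (ZMod p) E = finrank (ZMod p) W :=
    Submodule.finrank_add_eq_of_isCompl hE
  have h1 : Submodule.map B D ≤ D.dualAnnihilator := by
    rintro _ ⟨f, hf, rfl⟩
    rw [Submodule.mem_dualAnnihilator]
    intro g hg
    exact hcon f hf g hg
  have h2 : finrank (ZMod p) (Submodule.map B D) ≤ finrank (ZMod p) D.dualAnnihilator :=
    Submodule.finrank_mono h1
  have h3 : finrank (ZMod p) D + finrank (ZMod p) D.dualAnnihilator = finrank (ZMod p) W :=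
    Subspace.finrank_add_finrank_dualAnnihilator_eq D
  have h4 : finrank (ZMod p) (Submodule.map B E) ≤ finrank (ZMod p) E :=
    Submodule.finrank_map_le B E
  have h5 : LinearMap.range B = Submodule.map B D ⊔ Submodule.map B E := by
    rw [← Submodule.map_sup, hE.sup_eq_top, Submodule.map_top]
  have h6 : finrank (ZMod p) (LinearMap.range B) ≤
      finrank (ZMod p) (Submodule.map B D) + finrank (ZMod p) (Submodule.map B E) := by
    rw [h5]
    exact Submodule.finrank_add_le_finrank_add_finrank _ _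
  omega

/-- union bound, one step.  `Φ` injective on `Z'`; all `B z`, `z ≠ 0`, have large rank; then some
`η ∈ D` makes `(z', z) ↦ Φ z' + B z η` injective. -/
theorem ub_step {W Z Z' : Type} [AddCommGroup W] [Module (ZMod p) W] [Module.Finite (ZMod p) W]
    [AddCommGroup Z] [Module (ZMod p) Z] [Module.Finite (ZMod p) Z]
    [AddCommGroup Z'] [Module (ZMod p) Z'] [Module.Finite (ZMod p) Z']
    (B : Z →ₗ[ZMod p] W →ₗ[ZMod p] W →ₗ[ZMod p] ZMod p)
    (Φ : Z' →ₗ[ZMod p] W →ₗ[ZMod p] ZMod p) (hΦ : Function.Injective Φ)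
    (D : Submodule (ZMod p) W) (c n : ℕ) (hc : finrank (ZMod p) W ≤ finrank (ZMod p) D + c)
    (hn : ∀ z : Z, z ≠ 0 → n ≤ finrank (ZMod p) (LinearMap.range (B z)))
    (h : finrank (ZMod p) Z' + finrank (ZMod p) Z + c < n) :
    ∃ η ∈ D, ∀ (z' : Z') (z : Z), (∀ ξ, Φ z' ξ + B z η ξ = 0) → z' = 0 ∧ z = 0 := by
  classical
  by_contra hcon
  push Not at hcon
  have hfinW : Finite W := Module.finite_of_finite (ZMod p)
  have hfinZ : Finite Z := Module.finite_of_finite (ZMod p)
  have hfinZ' : Finite Z' := Module.finite_of_finite (ZMod p)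
  have : Fintype W := Fintype.ofFinite W
  have : Fintype Z := Fintype.ofFinite Z
  have : Fintype Z' := Fintype.ofFinite Z'
  have : Fintype D := Fintype.ofFinite D
  -- every `η ∈ D` is bad for some `(z', z)` with `z ≠ 0`
  have key : ∀ η : D, ∃ q : Z' × Z, (∀ ξ, Φ q.1 ξ + B q.2 (η : W) ξ = 0) ∧ q.2 ≠ 0 := by
    intro η
    obtain ⟨z', z, h1, h2⟩ := hcon η η.2
    refine ⟨(z', z), h1, ?_⟩
    intro hz
    have hz' : z = 0 := hz
    subst hz'
    have h3 : z' = 0 := by
      apply hΦ
      rw [map_zero]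
      ext ξ
      have := h1 ξ
      simpa using this
    exact h2 h3 rfl
  choose f hf hf0 using key
  have hp1 : 1 < p := (Fact.out : p.Prime).one_lt
  have hcardD : Fintype.card D = p ^ finrank (ZMod p) D := by
    rw [Module.card_eq_pow_finrank (K := ZMod p), ZMod.card]
  have hcardZ : Fintype.card Z = p ^ finrank (ZMod p) Z := by
    rw [Module.card_eq_pow_finrank (K := ZMod p), ZMod.card]
  have hcardZ' : Fintype.card Z' = p ^ finrank (ZMod p) Z' := by
    rw [Module.card_eq_pow_finrank (K := ZMod p), ZMod.card]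
  have hrk : ∀ z : Z, z ≠ 0 →
      finrank (ZMod p) (LinearMap.ker (B z)) + n ≤ finrank (ZMod p) W := by
    intro z hz
    have h1 := LinearMap.finrank_range_add_finrank_ker (B z)
    have h2 := hn z hz
    omega
  have hnW : n ≤ finrank (ZMod p) W := by
    have h1 := hrk (f 0).2 (hf0 0)
    omega
  have hfib : ∀ q ∈ (Finset.univ : Finset D).image f,
      ((Finset.univ : Finset D).filter (fun x => f x = q)).card
        ≤ p ^ (finrank (ZMod p) W - n) := by
    intro q hq
    obtain ⟨η₀, -, hη₀⟩ := Finset.mem_image.1 hq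
    have hz : q.2 ≠ 0 := by rw [← hη₀]; exact hf0 η₀
    have h1 : ((Finset.univ : Finset D).filter (fun x => f x = q)).card
        ≤ Fintype.card (LinearMap.ker (B q.2)) := by
      rw [← Finset.card_univ]
      refine Finset.card_le_card_of_injOn
        (fun x : D => if hx : ((x : W) - η₀) ∈ LinearMap.ker (B q.2) then
          (⟨(x : W) - η₀, hx⟩ : LinearMap.ker (B q.2)) else 0) (fun _ _ => Finset.mem_univ _) ?_
      have hmem : ∀ x : D, f x = q → ((x : W) - η₀) ∈ LinearMap.ker (B q.2) := by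
        intro x hx
        rw [LinearMap.mem_ker, map_sub]
        ext ξ
        have e1 := hf x ξ
        have e2 := hf η₀ ξ
        rw [hx] at e1
        rw [hη₀] at e2
        simp only [LinearMap.sub_apply, LinearMap.zero_apply]
        have : B q.2 (x : W) ξ = B q.2 (η₀ : W) ξ := by
          have := e1.trans e2.symm
          exact add_left_cancel this
        rw [this, sub_self]
      intro x hx y hy hxy
      have hx' : f x = q := by simpa using hx
      have hy' : f y = q := by simpa using hy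
      simp only [dif_pos (hmem x hx'), dif_pos (hmem y hy')] at hxy
      have h3 := congrArg (fun t : LinearMap.ker (B q.2) => (t : W)) hxy
      have h4 : (x : W) - η₀ = (y : W) - η₀ := h3
      exact Subtype.ext (sub_left_injective h4)
    have h2 : Fintype.card (LinearMap.ker (B q.2))
        = p ^ finrank (ZMod p) (LinearMap.ker (B q.2)) := by
      rw [Module.card_eq_pow_finrank (K := ZMod p), ZMod.card]
    rw [h2] at h1
    refine h1.trans (Nat.pow_le_pow_right hp1.le ?_)
    have := hrk q.2 hz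
    omega
  have hcount := Finset.card_le_mul_card_image (f := f) (Finset.univ : Finset D)
    (p ^ (finrank (ZMod p) W - n)) hfib
  have himg : ((Finset.univ : Finset D).image f).card ≤ Fintype.card (Z' × Z) :=
    Finset.card_le_univ _
  rw [Fintype.card_prod, hcardZ, hcardZ', ← pow_add] at himg
  rw [Finset.card_univ, hcardD] at hcount
  have hfin : p ^ finrank (ZMod p) D ≤
      p ^ ((finrank (ZMod p) W - n) + (finrank (ZMod p) Z' + finrank (ZMod p) Z)) := by
    rw [pow_add]
    exact hcount.trans (Nat.mul_le_mul_left _ himg)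
  have hle := (Nat.pow_le_pow_iff_right hp1).1 hfin
  omega

/-- three steps -/
theorem ub_three {W Z : Type} [AddCommGroup W] [Module (ZMod p) W] [Module.Finite (ZMod p) W]
    [AddCommGroup Z] [Module (ZMod p) Z] [Module.Finite (ZMod p) Z]
    (B : Z →ₗ[ZMod p] W →ₗ[ZMod p] W →ₗ[ZMod p] ZMod p)
    (D : Submodule (ZMod p) W) (c n : ℕ) (hc : finrank (ZMod p) W ≤ finrank (ZMod p) D + c)
    (hn : ∀ z : Z, z ≠ 0 → n ≤ finrank (ZMod p) (LinearMap.range (B z)))
    (h : 3 * finrank (ZMod p) Z + c < n) :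
    ∃ η : Fin 3 → W, (∀ j, η j ∈ D) ∧
      ∀ z : Fin 3 → Z, (∀ ξ, ∑ j, B (z j) (η j) ξ = 0) → z = 0 := by
  -- first step
  obtain ⟨η₀, h0D, h0⟩ := ub_step (Z' := PUnit.{1}) B 0
    (fun _ _ _ => Subsingleton.elim _ _) D c n hc hn (by
      rw [finrank_zero_of_subsingleton]; omega)
  have h0' : ∀ z : Z, (∀ ξ, B z η₀ ξ = 0) → z = 0 := by
    intro z hz
    exact (h0 PUnit.unit z (fun ξ => by simp [hz ξ])).2
  -- second step
  let Φ₁ : Z →ₗ[ZMod p] W →ₗ[ZMod p] ZMod p := B.flip η₀
  have hΦ₁ : Function.Injective Φ₁ := by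
    rw [injective_iff_map_eq_zero]
    intro z hz
    refine h0' z (fun ξ => ?_)
    have := LinearMap.congr_fun hz ξ
    simpa [Φ₁] using this
  obtain ⟨η₁, h1D, h1⟩ := ub_step B Φ₁ hΦ₁ D c n hc hn (by omega)
  have h1' : ∀ z₀ z₁ : Z, (∀ ξ, B z₀ η₀ ξ + B z₁ η₁ ξ = 0) → z₀ = 0 ∧ z₁ = 0 := by
    intro z₀ z₁ hz
    exact h1 z₀ z₁ (fun ξ => by simpa [Φ₁] using hz ξ)
  -- third step
  let Φ₂ : (Z × Z) →ₗ[ZMod p] W →ₗ[ZMod p] ZMod p := (B.flip η₀).coprod (B.flip η₁)
  have hΦ₂ : Function.Injective Φ₂ := by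
    rw [injective_iff_map_eq_zero]
    rintro ⟨z₀, z₁⟩ hz
    have := h1' z₀ z₁ (fun ξ => by
      have := LinearMap.congr_fun hz ξ
      simpa [Φ₂] using this)
    rw [this.1, this.2]; rfl
  obtain ⟨η₂, h2D, h2⟩ := ub_step B Φ₂ hΦ₂ D c n hc hn (by
    rw [Module.finrank_prod]; omega)
  refine ⟨![η₀, η₁, η₂], ?_, ?_⟩
  · intro j
    fin_cases j
    · exact h0D
    · exact h1D
    · exact h2D
  · intro z hz
    have h3 := h2 (z 0, z 1) (z 2) (fun ξ => by
      have := hz ξ
      rw [Fin.sum_univ_three] at this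
      simpa [Φ₂] using this)
    have h4 : z 0 = 0 := congrArg Prod.fst h3.1
    have h5 : z 1 = 0 := congrArg Prod.snd h3.1
    funext j
    fin_cases j
    · exact h4
    · exact h5
    · exact h3.2

end Pool.Agent.RFA
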