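import Pool.Agent.RFA.Lift01
import Pool.Agent.RFA.RankInv
import Pool.Agent.RFA.Uni
import Pool.Agent.RFA.CupB
import Pool.Agent.RFA.UB

set_option autoImplicit false

namespace Pool.Agent.RFA

open Topology Module

variable {p : ℕ} [Fact p.Prime] {G : Type} [Group G] [TopologicalSpace G] [IsTopologicalGroup G]

/-! ### cocycles -/

omit [Fact p.Prime] [IsTopologicalGroup G] in
theorem CoreR_coc_one {Λ : Type} [CommRing Λ] {T : G →* Λ} {Θ : G → Λ} (hΘ : Θ ∈ Coc T) :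
    Θ 1 = 0 := by
  have h := hΘ.2 1 1
  rw [mul_one, map_one, one_mul] at h
  have : Θ 1 + 0 = Θ 1 + Θ 1 := by rw [add_zero]; exact h
  exact (add_left_cancel this).symm

omit [Fact p.Prime] [IsTopologicalGroup G] in
theorem CoreR_coc_pow {Λ : Type} [CommRing Λ] {T : G →* Λ} {Θ : G → Λ} (hΘ : Θ ∈ Coc T)
    (x : G) (n : ℕ) : Θ (x ^ n) = (∑ k ∈ Finset.range n, T x ^ k) * Θ x := by
  induction n with
  | zero => simp [CoreR_coc_one hΘ]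
  | succ n ih =>
    rw [pow_succ, hΘ.2, ih, Finset.sum_range_succ, map_pow]; ring

omit [Fact p.Prime] [IsTopologicalGroup G] in
theorem CoreR_coc_pow_zero {Λ : Type} [CommRing Λ] {T : G →* Λ} {Θ : G → Λ} (hΘ : Θ ∈ Coc T)
    (x : G) (n : ℕ) (v : Λ) (hv : Θ x = (T x - 1) * v) (hT : T x ^ n = 1) : Θ (x ^ n) = 0 := by
  rw [CoreR_coc_pow hΘ, hv, ← mul_assoc, geom_sum_mul, hT, sub_self, zero_mul]

omit [IsTopologicalGroup G] in
/-- the product construction -/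
theorem CoreR_isB {ι L : Type} [Fintype ι] [Fintype L] [DecidableEq L]
    (ρ : ι → G) (r : L → G) {A : Type} [AddCommGroup A]
    (a : G →* Multiplicative A) (Θ' Θ : G → GA p A)
    (h0' : ∀ i, Θ' (ρ i) = 0) (κ : ι ⊕ L → ZMod p)
    (Φ : G → GA p A) (hΦ : IsLocallyConstant Φ)
    (hΦ' : ∀ x y, Φ (x * y) = Φ x + Φ y + ginv p (Θ' x) * TA p a x * Θ y)
    (P : GA p A) (hP : P = ∏ l, (TA p a (r l) - 1)) :
    IsB p a (Sum.elim ρ r) κ (P • Θ') (P • Θ)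
      (P * (ginv p P * ∑ i, κ i • Φ (Sum.elim ρ r i) +
        ∑ l, κ (Sum.inr l) • (ginv p (∏ l' ∈ Finset.univ.erase l, (TA p a (r l') - 1)) *
          (ginv p (Θ' (r l)) * Θ (r l))))) := by
  refine ⟨fun x => ginv p P * P * Φ x,
    Sum.elim (fun _ => 0) (fun l => (∏ l' ∈ Finset.univ.erase l, (TA p a (r l') - 1)) * Θ' (r l)),
    hΦ.comp (fun b => ginv p P * P * b), ?_, ?_, ?_⟩
  · intro x y
    simp only [Pi.smul_apply, smul_eq_mul, map_mul, hΦ']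
    ring
  · rintro (i | l)
    · simp [h0']
    · simp only [Pi.smul_apply, smul_eq_mul, Sum.elim_inr]
      rw [hP, ← Finset.mul_prod_erase Finset.univ _ (Finset.mem_univ l)]
      ring
  · have e1 : ∀ i, κ (Sum.inl i) • (ginv p P * P * Φ (ρ i) +
        ginv p (0 : GA p A) * (P • Θ) (ρ i)) = P * (ginv p P * κ (Sum.inl i) • Φ (ρ i)) := by
      intro i
      rw [map_zero, zero_mul, add_zero, mul_smul_comm, mul_smul_comm]; congr 1; ring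
    have e2 : ∀ l, κ (Sum.inr l) • (ginv p P * P * Φ (r l) +
        ginv p ((∏ l' ∈ Finset.univ.erase l, (TA p a (r l') - 1)) * Θ' (r l)) *
          (P • Θ) (r l)) = P * (ginv p P * κ (Sum.inr l) • Φ (r l)) +
        P * (κ (Sum.inr l) • (ginv p (∏ l' ∈ Finset.univ.erase l, (TA p a (r l') - 1)) *
          (ginv p (Θ' (r l)) * Θ (r l)))) := by
      intro l
      rw [smul_add, map_mul, Pi.smul_apply, smul_eq_mul, mul_smul_comm, mul_smul_comm,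
        mul_smul_comm]
      congr 1
      · congr 1; ring
      · congr 1; ring
    simp only [Fintype.sum_sum_type, Sum.elim_inl, Sum.elim_inr, e1, e2, Finset.sum_add_distrib]
    rw [mul_add, mul_add, mul_add, Finset.mul_sum, Finset.mul_sum, Finset.mul_sum,
      Finset.mul_sum, Finset.mul_sum, add_assoc]

/-! ### orders -/

theorem CoreR_hasOrd_prod {L : Type} {m : ℕ} (s : Finset L) (c : L → GA p (ZMod (p ^ m)))
    (d : L → ℕ) (hc : ∀ l, HasOrd p m (c l) (d l)) :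
    HasOrd p m (ginv p (∏ l ∈ s, c l)) (∑ l ∈ s, d l) :=
  HasOrd.ginv (HasOrd.prod s c d fun l _ => hc l)

theorem CoreR_aug_smul {A : Type} [AddCommGroup A] (k : ZMod p) (b : GA p A) :
    aug p (k • b) = k * aug p b := by
  rw [map_smul, smul_eq_mul]

theorem CoreR_ord {L : Type} [Fintype L] [DecidableEq L] {m : ℕ}
    (c : L → GA p (ZMod (p ^ m))) (d : L → ℕ) (hc : ∀ l, HasOrd p m (c l) (d l)) (l₀ : L)
    (hD : ∑ l ∈ Finset.univ.erase l₀, d l < d l₀) (X : GA p (ZMod (p ^ m))) (k : L → ZMod p)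
    (hk : k l₀ ≠ 0) (w : L → GA p (ZMod (p ^ m))) (hw : aug p (w l₀) ≠ 0) :
    HasOrd p m ((∏ l, c l) * (ginv p (∏ l, c l) * X +
      ∑ l, k l • (ginv p (∏ l' ∈ Finset.univ.erase l, c l') * w l)))
      (2 * ∑ l ∈ Finset.univ.erase l₀, d l + d l₀) := by
  have hsum : ∑ l, d l = ∑ l ∈ Finset.univ.erase l₀, d l + d l₀ := by
    rw [← Finset.sum_erase_add Finset.univ d (Finset.mem_univ l₀)]
  have h1 : HasOrd p m (∏ l, c l) (∑ l ∈ Finset.univ.erase l₀, d l + d l₀) := by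
    rw [← hsum]; exact HasOrd.prod Finset.univ c d fun l _ => hc l
  have h2 : HasOrd p m (k l₀ • (ginv p (∏ l' ∈ Finset.univ.erase l₀, c l') * w l₀))
      (∑ l ∈ Finset.univ.erase l₀, d l) := by
    have h3 : HasOrd p m (k l₀ • w l₀) 0 := by
      apply hasOrd_unit
      rw [CoreR_aug_smul]
      exact mul_ne_zero hk hw
    have h4 := (CoreR_hasOrd_prod (Finset.univ.erase l₀) c d hc).mul h3
    rw [add_zero, mul_smul_comm] at h4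
    exact h4
  have h5 : ginv p (∏ l, c l) * X + ∑ l ∈ Finset.univ.erase l₀,
      k l • (ginv p (∏ l' ∈ Finset.univ.erase l, c l') * w l) ∈
      Ideal.span {tau p m ^ (∑ l ∈ Finset.univ.erase l₀, d l + 1)} := by
    refine Ideal.add_mem _ (Ideal.mul_mem_right _ _ ?_) (Ideal.sum_mem _ fun l hl => ?_)
    · refine (CoreR_hasOrd_prod Finset.univ c d hc).mem _ ?_
      rw [hsum]; omega
    · rw [← mul_smul_comm]
      refine Ideal.mul_mem_right _ _ ?_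
      refine (CoreR_hasOrd_prod (Finset.univ.erase l) c d hc).mem _ ?_
      have hle : d l₀ ≤ ∑ l' ∈ Finset.univ.erase l, d l' :=
        Finset.single_le_sum (f := d) (fun _ _ => Nat.zero_le _)
          (Finset.mem_erase.2 ⟨(Finset.ne_of_mem_erase hl).symm, Finset.mem_univ _⟩)
      omega
  have h6 := h2.add h5
  have h7 := h1.mul h6
  have e1 : 2 * ∑ l ∈ Finset.univ.erase l₀, d l + d l₀ =
      (∑ l ∈ Finset.univ.erase l₀, d l + d l₀) + ∑ l ∈ Finset.univ.erase l₀, d l := by ring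
  rw [e1]
  convert h7 using 2
  rw [← Finset.add_sum_erase Finset.univ
    (fun l => k l • (ginv p (∏ l' ∈ Finset.univ.erase l, c l') * w l)) (Finset.mem_univ l₀)]
  ring

/-! ### specialisations -/

/-- the homomorphism `v ↦ c₀ v₀ + c₁ v₁` -/
noncomputable def CoreR_lam (m : ℕ) (c₀ c₁ : ℤ_[p]) : (Fin 2 → ZMod (p ^ m)) →+ ZMod (p ^ m) where
  toFun v := PadicInt.toZModPow m c₀ * v 0 + PadicInt.toZModPow m c₁ * v 1
  map_zero' := by simp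
  map_add' v w := by simp only [Pi.add_apply]; ring

theorem CoreR_lam_surj0 (m : ℕ) (c₀ c₁ : ℤ_[p]) (h : IsUnit c₀) :
    Function.Surjective (CoreR_lam m c₀ c₁) := by
  obtain ⟨u, hu⟩ := h.map (PadicInt.toZModPow (p := p) m)
  intro y
  refine ⟨![(u⁻¹ : (ZMod (p ^ m))ˣ) * y, 0], ?_⟩
  show PadicInt.toZModPow m c₀ * (((u⁻¹ : (ZMod (p ^ m))ˣ) : ZMod (p ^ m)) * y) +
    PadicInt.toZModPow m c₁ * 0 = y
  rw [← hu, ← mul_assoc, Units.mul_inv, one_mul, mul_zero, add_zero]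

theorem CoreR_lam_surj1 (m : ℕ) (c₀ c₁ : ℤ_[p]) (h : IsUnit c₁) :
    Function.Surjective (CoreR_lam m c₀ c₁) := by
  obtain ⟨u, hu⟩ := h.map (PadicInt.toZModPow (p := p) m)
  intro y
  refine ⟨![0, (u⁻¹ : (ZMod (p ^ m))ˣ) * y], ?_⟩
  show PadicInt.toZModPow m c₀ * 0 +
    PadicInt.toZModPow m c₁ * (((u⁻¹ : (ZMod (p ^ m))ˣ) : ZMod (p ^ m)) * y) = y
  rw [← hu, ← mul_assoc, Units.mul_inv, one_mul, mul_zero, zero_add]

omit [IsTopologicalGroup G] in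
theorem CoreR_gmap_Tm (χ : Fin 2 → Z1 p G) (m : ℕ) (c₀ c₁ : ℤ_[p]) (x : G) :
    gmap p (CoreR_lam m c₀ c₁) (Tm p χ m x - 1) = tt p (PadicInt.toZModPow m
      (c₀ * (χ 0 : G → ℤ_[p]) x + c₁ * (χ 1 : G → ℤ_[p]) x)) := by
  have h1 : Tm p χ m x = AddMonoidAlgebra.single
    (fun i => PadicInt.toZModPow m ((χ i : G → ℤ_[p]) x)) 1 := rfl
  rw [map_sub, map_one, h1, gmap_single, tt]
  rw [map_add, map_mul, map_mul]
  rfl

omit [IsTopologicalGroup G] in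
theorem CoreR_redp (φ : Z1 p G) : redp p (φ : G → ℤ_[p]) ∈ Hom1 p G := by
  refine ⟨?_, fun x y => ?_⟩
  · rw [IsLocallyConstant.iff_eventually_eq]
    intro x
    have hc : Continuous (φ : G → ℤ_[p]) := φ.2.1
    have h1 : ∀ᶠ y in 𝓝 x, dist ((φ : G → ℤ_[p]) y) ((φ : G → ℤ_[p]) x) < 1 :=
      Metric.tendsto_nhds.1 hc.continuousAt 1 one_pos
    filter_upwards [h1] with y hy
    have h2 : (φ : G → ℤ_[p]) y - (φ : G → ℤ_[p]) x ∈ RingHom.ker (PadicInt.toZMod (p := p)) := by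
      rw [PadicInt.ker_toZMod, IsLocalRing.mem_maximalIdeal, PadicInt.mem_nonunits,
        ← dist_eq_norm]
      exact hy
    rw [RingHom.mem_ker, map_sub, sub_eq_zero] at h2
    exact h2
  · simp only [redp]
    rw [φ.2.2, map_add]

/-- `p^v u + p^n y` with `v < n` -/
theorem CoreR_unit_add {u y : ℤ_[p]} (hu : IsUnit u) {k : ℕ} (hk : 0 < k) :
    IsUnit (u + (p : ℤ_[p]) ^ k * y) := by
  by_contra hne
  have h1 : u + (p : ℤ_[p]) ^ k * y ∈ IsLocalRing.maximalIdeal ℤ_[p] :=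
    (IsLocalRing.mem_maximalIdeal _).2 hne
  have h2 : (p : ℤ_[p]) ^ k * y ∈ IsLocalRing.maximalIdeal ℤ_[p] := by
    rw [PadicInt.maximalIdeal_eq_span_p]
    obtain ⟨j, rfl⟩ : ∃ j, k = j + 1 := ⟨k - 1, by omega⟩
    rw [pow_succ', mul_assoc]
    exact Ideal.mul_mem_right _ _ (Ideal.mem_span_singleton_self _)
  have h3 : u ∈ IsLocalRing.maximalIdeal ℤ_[p] := by
    have := Ideal.sub_mem _ h1 h2
    rwa [add_sub_cancel_right] at this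
  exact (IsLocalRing.mem_maximalIdeal _).1 h3 hu

theorem CoreR_hasOrd_tt (m v n : ℕ) (x y : ℤ_[p]) (u : ℤ_[p]) (hu : IsUnit u)
    (hx : x = (p : ℤ_[p]) ^ v * u) (hvn : v < n) :
    HasOrd p m (tt p (PadicInt.toZModPow m (x + (p : ℤ_[p]) ^ n * y))) (p ^ v) := by
  have : x + (p : ℤ_[p]) ^ n * y = (p : ℤ_[p]) ^ v * (u + (p : ℤ_[p]) ^ (n - v) * y) := by
    rw [hx, mul_add, ← mul_assoc ((p : ℤ_[p]) ^ v) ((p : ℤ_[p]) ^ (n - v)), ← pow_add]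
    congr 3; omega
  rw [this]
  exact hasOrd_tt m v _ (CoreR_unit_add hu (by omega))

omit [IsTopologicalGroup G] in
theorem CoreR_Tpow (χ : Fin 2 → Z1 p G) (m : ℕ) (x : G) : Tm p χ m x ^ p ^ m = 1 := by
  have h : (redm p χ m x) ^ p ^ m = 1 := by
    apply Multiplicative.toAdd.injective
    rw [toAdd_pow, toAdd_one]
    funext i
    rw [Pi.smul_apply, nsmul_eq_mul, ZMod.natCast_self, zero_mul]; rfl
  rw [← map_pow]
  show AddMonoidAlgebra.of (ZMod p) _ (redm p χ m (x ^ p ^ m)) = 1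
  rw [map_pow, h, map_one]

omit [IsTopologicalGroup G] in
theorem CoreR_rel_zero {ι L : Type} [Fintype L] [DecidableEq L]
    (ρ : ι → G) (r : L → G) (χ : Fin 2 → Z1 p G) (m : ℕ) (Θ : G → GA p (Fin 2 → ZMod (p ^ m)))
    (h : Θ ∈ Coc (Tm p χ m)) (h0 : ∀ i, Θ (ρ i) = 0) (i : ι ⊕ L) :
    ((∏ l, (Tm p χ m (r l) - 1)) • Θ)
      (Sum.elim ρ r i ^ p ^ (Sum.elim (fun _ => 0) (fun _ => m) i : ℕ)) = 0 := by
  rcases i with i | l
  · simp [h0]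
  · simp only [Sum.elim_inr]
    refine CoreR_coc_pow_zero ((Coc (Tm p χ m)).smul_mem _ h) (r l) (p ^ m)
      ((∏ l' ∈ Finset.univ.erase l, (Tm p χ m (r l') - 1)) * Θ (r l)) ?_ (CoreR_Tpow χ m _)
    rw [Pi.smul_apply, smul_eq_mul, ← Finset.mul_prod_erase Finset.univ _ (Finset.mem_univ l)]
    ring

omit [IsTopologicalGroup G] in
theorem CoreR_fin {ι L : Type} [Fintype ι] [Fintype L] [DecidableEq L]
    (ρ : ι → G) (r : L → G) (χ : Fin 2 → Z1 p G) (m : ℕ)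
    (Θ' Θ : G → GA p (Fin 2 → ZMod (p ^ m)))
    (h' : Θ' ∈ Coc (Tm p χ m)) (h : Θ ∈ Coc (Tm p χ m))
    (h0' : ∀ i, Θ' (ρ i) = 0) (h0 : ∀ i, Θ (ρ i) = 0) (κ : ι ⊕ L → ZMod p)
    (Φ : G → GA p (Fin 2 → ZMod (p ^ m))) (hΦ : IsLocallyConstant Φ)
    (hΦ' : ∀ x y, Φ (x * y) = Φ x + Φ y + ginv p (Θ' x) * TA p (redm p χ m) x * Θ y)
    (c₀ c₁ : ℤ_[p]) (hs : Function.Surjective (CoreR_lam m c₀ c₁)) (D D' : ℕ) (hle : D' ≤ D)
    (hD : HasOrd p m ((∏ l, gmap p (CoreR_lam m c₀ c₁) (Tm p χ m (r l) - 1)) *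
      (ginv p (∏ l, gmap p (CoreR_lam m c₀ c₁) (Tm p χ m (r l) - 1)) *
        gmap p (CoreR_lam m c₀ c₁) (∑ i, κ i • Φ (Sum.elim ρ r i)) +
      ∑ l, κ (Sum.inr l) • (ginv p (∏ l' ∈ Finset.univ.erase l,
          gmap p (CoreR_lam m c₀ c₁) (Tm p χ m (r l') - 1)) *
          gmap p (CoreR_lam m c₀ c₁) (ginv p (Θ' (r l)) * Θ (r l))))) D') :
    ∃ Θ' ∈ Coc (Tm p χ m), ∃ Θ ∈ Coc (Tm p χ m),
        (∀ i, Θ' (Sum.elim ρ r i ^ p ^ (Sum.elim (fun _ => 0) (fun _ => m) i : ℕ)) = 0) ∧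
        (∀ i, Θ (Sum.elim ρ r i ^ p ^ (Sum.elim (fun _ => 0) (fun _ => m) i : ℕ)) = 0) ∧
        ∃ b, IsB p (redm p χ m) (Sum.elim ρ r) κ Θ' Θ b ∧
          p ^ m - D ≤ finrank (ZMod p) ((Ideal.span {b}).restrictScalars (ZMod p)) := by
  refine ⟨(∏ l, (Tm p χ m (r l) - 1)) • Θ', (Coc (Tm p χ m)).smul_mem _ h',
    (∏ l, (Tm p χ m (r l) - 1)) • Θ, (Coc (Tm p χ m)).smul_mem _ h,
    CoreR_rel_zero ρ r χ m Θ' h' h0', CoreR_rel_zero ρ r χ m Θ h h0, _,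
    CoreR_isB ρ r (redm p χ m) Θ' Θ h0' κ Φ hΦ hΦ' _ rfl, ?_⟩
  rcases le_or_gt D' (p ^ m) with h1 | h1
  · refine le_trans (Nat.sub_le_sub_left hle _) (finrank_span_ge m (CoreR_lam m c₀ c₁) hs _ D' ?_ h1)
    convert hD using 1
    simp only [map_mul, map_add, map_sum, map_smul, map_prod, ← ginv_gmap]
    rfl
  · rw [Nat.sub_eq_zero_of_le (by omega)]
    exact Nat.zero_le _

/-- case A -/
theorem CoreR_caseA (hp : p ≠ 2) {δ : ℕ} (hG : ProFree p δ G) {ι L : Type} [Fintype ι]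
    [Fintype L] [DecidableEq L]
    (ρ : ι → G) (r : L → G) (χ : Fin 2 → Z1 p G)
    (hχ : ∀ j i, (χ j : G → ℤ_[p]) (ρ i) = 0)
    (hu : ∀ l, IsUnit ((χ 0 : G → ℤ_[p]) (r l)))
    (hI : IK p ρ (fun j => redp p (χ j : G → ℤ_[p])))
    (hc : CupZero p ρ (redp p (χ 1 : G → ℤ_[p])) (redp p (χ 0 : G → ℤ_[p])))
    (v : L → L → ℕ)
    (hv : ∀ l l', l ≠ l' → ∃ u : ℤ_[p], IsUnit u ∧
      (χ 0 : G → ℤ_[p]) (r l) * (χ 1 : G → ℤ_[p]) (r l') -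
        (χ 0 : G → ℤ_[p]) (r l') * (χ 1 : G → ℤ_[p]) (r l) = (p : ℤ_[p]) ^ v l l' * u)
    (l₀ : L) (m : ℕ) (κ : ι ⊕ L → ZMod p) (hκ : κ (Sum.inr l₀) ≠ 0) (D : ℕ)
    (hD : 2 * (∑ l ∈ Finset.univ.erase l₀, p ^ v l₀ l) +
      p ^ (∑ l ∈ Finset.univ.erase l₀, p ^ v l₀ l) ≤ D) :
    ∃ Θ' ∈ Coc (Tm p χ m), ∃ Θ ∈ Coc (Tm p χ m),
        (∀ i, Θ' (Sum.elim ρ r i ^ p ^ (Sum.elim (fun _ => 0) (fun _ => m) i : ℕ)) = 0) ∧
        (∀ i, Θ (Sum.elim ρ r i ^ p ^ (Sum.elim (fun _ => 0) (fun _ => m) i : ℕ)) = 0) ∧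
        ∃ b, IsB p (redm p χ m) (Sum.elim ρ r) κ Θ' Θ b ∧
          p ^ m - D ≤ finrank (ZMod p) ((Ideal.span {b}).restrictScalars (ZMod p)) := by
  have hp1 : 1 < p := (Fact.out : p.Prime).one_lt
  have hη : ∀ j, redp p (χ j : G → ℤ_[p]) ∈ HomP p ρ := fun j =>
    ⟨CoreR_redp (χ j), fun i => by simp only [redp, hχ j i, map_zero]⟩
  obtain ⟨Θ, hΘ, hΘ0, hΘ1⟩ := lift0 hG ρ χ hχ hI m (redp p (χ 0 : G → ℤ_[p])) (hη 0) (by
    intro j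
    fin_cases j
    · exact cupZero_self hp (hη 0)
    · exact hc)
  obtain ⟨Φ, hΦ, hΦ'⟩ := phi_exists hG (redm p χ m) (redm_locConst χ m) Θ Θ hΘ hΘ
  set D0 : ℕ := ∑ l ∈ Finset.univ.erase l₀, p ^ v l₀ l with hD0
  set n : ℕ := D0 with hn
  have hvn : ∀ l, l ≠ l₀ → v l₀ l < n := by
    intro l hl
    have h1 : p ^ v l₀ l ≤ D0 :=
      Finset.single_le_sum (f := fun l => p ^ v l₀ l) (fun _ _ => Nat.zero_le _)
        (Finset.mem_erase.2 ⟨hl, Finset.mem_univ _⟩)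
    exact lt_of_lt_of_le (Nat.lt_pow_self hp1) h1
  set c₀ : ℤ_[p] := - (χ 1 : G → ℤ_[p]) (r l₀) + (p : ℤ_[p]) ^ n with hc₀
  set c₁ : ℤ_[p] := (χ 0 : G → ℤ_[p]) (r l₀) with hc₁
  set d : L → ℕ := fun l => if l = l₀ then p ^ n else p ^ v l₀ l with hd
  have hdsum : ∑ l ∈ Finset.univ.erase l₀, d l = D0 := by
    refine Finset.sum_congr rfl fun l hl => ?_
    rw [hd]
    exact if_neg (Finset.ne_of_mem_erase hl)
  have hdl₀ : d l₀ = p ^ n := if_pos rfl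
  have hord : ∀ l, HasOrd p m (gmap p (CoreR_lam m c₀ c₁) (Tm p χ m (r l) - 1)) (d l) := by
    intro l
    rw [CoreR_gmap_Tm]
    by_cases hl : l = l₀
    · subst hl
      rw [hdl₀]
      have e : c₀ * (χ 0 : G → ℤ_[p]) (r l) + c₁ * (χ 1 : G → ℤ_[p]) (r l) =
          (p : ℤ_[p]) ^ n * (χ 0 : G → ℤ_[p]) (r l) := by
        rw [hc₀, hc₁]; ring
      rw [e]
      exact hasOrd_tt m n _ (hu l)
    · have hdl : d l = p ^ v l₀ l := if_neg hl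
      rw [hdl]
      obtain ⟨u, hu', he⟩ := hv l₀ l (Ne.symm hl)
      have e : c₀ * (χ 0 : G → ℤ_[p]) (r l) + c₁ * (χ 1 : G → ℤ_[p]) (r l) =
          ((χ 0 : G → ℤ_[p]) (r l₀) * (χ 1 : G → ℤ_[p]) (r l) -
            (χ 0 : G → ℤ_[p]) (r l) * (χ 1 : G → ℤ_[p]) (r l₀)) +
          (p : ℤ_[p]) ^ n * (χ 0 : G → ℤ_[p]) (r l) := by
        rw [hc₀, hc₁]; ring
      rw [e]
      exact CoreR_hasOrd_tt m _ n _ _ u hu' he (hvn l hl)
  refine CoreR_fin ρ r χ m Θ Θ hΘ hΘ hΘ0 hΘ0 κ Φ hΦ hΦ' c₀ c₁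
    (CoreR_lam_surj1 m c₀ c₁ (hu l₀)) D (2 * ∑ l ∈ Finset.univ.erase l₀, d l + d l₀) ?_ ?_
  · rw [hdsum, hdl₀]; exact hD
  · refine CoreR_ord _ d hord l₀ ?_ _ (fun l => κ (Sum.inr l)) hκ
      (fun l => gmap p (CoreR_lam m c₀ c₁) (ginv p (Θ (r l)) * Θ (r l))) ?_
    · rw [hdsum, hdl₀]
      exact Nat.lt_pow_self hp1
    · rw [aug_gmap, map_mul, aug_ginv, hΘ1]
      have h1 : redp p (χ 0 : G → ℤ_[p]) (r l₀) ≠ 0 := ((hu l₀).map PadicInt.toZMod).ne_zero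
      exact mul_ne_zero h1 h1

/-- case B -/
theorem CoreR_caseB {δ : ℕ} (hG : ProFree p δ G) {ι L : Type} [Fintype ι]
    [Fintype L] [DecidableEq L]
    (ρ : ι → G) (r : L → G) (χ : Fin 2 → Z1 p G)
    (hχ : ∀ j i, (χ j : G → ℤ_[p]) (ρ i) = 0)
    (hu : ∀ l, IsUnit ((χ 0 : G → ℤ_[p]) (r l)))
    (hI : IK p ρ (fun j => redp p (χ j : G → ℤ_[p])))
    (hrk : ∀ z ∈ Z2 p ρ, z ≠ 0 → RankGE p ρ z (4 * finrank (ZMod p) (Z2 p ρ) + 1))
    (m : ℕ) (κ : ι ⊕ L → ZMod p) (hκ0 : κ ≠ 0) (hκr : ∀ l, κ (Sum.inr l) = 0)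
    (hκ : ∀ f ∈ Hom1 p G, ∑ i, κ i * f (Sum.elim ρ r i) = 0) (D : ℕ)
    (hD : 2 * Fintype.card L ≤ D) :
    ∃ Θ' ∈ Coc (Tm p χ m), ∃ Θ ∈ Coc (Tm p χ m),
        (∀ i, Θ' (Sum.elim ρ r i ^ p ^ (Sum.elim (fun _ => 0) (fun _ => m) i : ℕ)) = 0) ∧
        (∀ i, Θ (Sum.elim ρ r i ^ p ^ (Sum.elim (fun _ => 0) (fun _ => m) i : ℕ)) = 0) ∧
        ∃ b, IsB p (redm p χ m) (Sum.elim ρ r) κ Θ' Θ b ∧
          p ^ m - D ≤ finrank (ZMod p) ((Ideal.span {b}).restrictScalars (ZMod p)) := by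
  have hη : ∀ j, redp p (χ j : G → ℤ_[p]) ∈ HomP p ρ := fun j =>
    ⟨CoreR_redp (χ j), fun i => by simp only [redp, hχ j i, map_zero]⟩
  obtain ⟨B, hB⟩ := exists_cupB hG ρ
  have := (Z2_finite_HomP_finite hG ρ).1
  have := (Z2_finite_HomP_finite hG ρ).2
  set y : ι → ZMod p := fun i => κ (Sum.inl i) with hy
  have hyZ : y ∈ Z2 p ρ := by
    intro f hf
    have h1 := hκ f hf
    rw [Fintype.sum_sum_type] at h1
    simp only [Sum.elim_inl, hκr, zero_mul, Finset.sum_const_zero, add_zero] at h1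
    exact h1
  have hy0 : y ≠ 0 := by
    intro h
    apply hκ0
    funext i
    rcases i with i | l
    · exact congr_fun h i
    · exact hκr l
  have hr := (rankGE_iff hG ρ B hB ⟨y, hyZ⟩ _).1 (hrk y hyZ hy0)
  let F : HomP p ρ →ₗ[ZMod p] (Fin 2 → (Z2 p ρ →ₗ[ZMod p] ZMod p)) :=
    LinearMap.pi fun j => (B.flip ⟨_, hη j⟩).flip
  have hF : ∀ (ξ : HomP p ρ) (j : Fin 2) (z : Z2 p ρ), F ξ j z = B z ⟨_, hη j⟩ ξ :=
    fun ξ j z => rfl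
  have hcodim : finrank (ZMod p) (HomP p ρ) ≤
      finrank (ZMod p) (LinearMap.ker F) + 2 * finrank (ZMod p) (Z2 p ρ) := by
    have h1 := LinearMap.finrank_range_add_finrank_ker F
    have h2 : finrank (ZMod p) (LinearMap.range F) ≤
        finrank (ZMod p) (Fin 2 → (Z2 p ρ →ₗ[ZMod p] ZMod p)) := Submodule.finrank_le _
    have h3 : finrank (ZMod p) (Fin 2 → (Z2 p ρ →ₗ[ZMod p] ZMod p)) =
        2 * finrank (ZMod p) (Z2 p ρ) := by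
      rw [Module.finrank_pi_fintype]
      simp only [Finset.sum_const, Finset.card_univ, Fintype.card_fin, smul_eq_mul]
      congr 1
      exact Subspace.dual_finrank_eq
    omega
  obtain ⟨ξ', hξ', ξ, hξ, hne⟩ := rank_restrict (B ⟨y, hyZ⟩) (LinearMap.ker F) _ hcodim (by omega)
  have hcup : ∀ ξ ∈ LinearMap.ker F, ∀ j,
      CupZero p ρ (redp p (χ j : G → ℤ_[p])) (ξ : G → ZMod p) := by
    intro ξ hξ j
    rw [cupZero_iff hG (hη j) ξ.2]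
    intro z hz
    have h1 : F ξ j ⟨z, hz⟩ = 0 := by rw [LinearMap.mem_ker.1 hξ]; rfl
    rw [hF, hB] at h1
    exact h1
  obtain ⟨Θ', hΘ', hΘ0', hΘ1'⟩ := lift0 hG ρ χ hχ hI m (ξ' : G → ZMod p) ξ'.2 (hcup ξ' hξ')
  obtain ⟨Θ, hΘ, hΘ0, hΘ1⟩ := lift0 hG ρ χ hχ hI m (ξ : G → ZMod p) ξ.2 (hcup ξ hξ)
  obtain ⟨Φ, hΦ, hΦ'⟩ := phi_exists hG (redm p χ m) (redm_locConst χ m) Θ' Θ hΘ' hΘ
  have hord : ∀ l, HasOrd p m (gmap p (CoreR_lam m 1 0) (Tm p χ m (r l) - 1)) 1 := by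
    intro l
    rw [CoreR_gmap_Tm]
    have h1 := hasOrd_tt m 0 _ (hu l)
    rw [pow_zero, pow_zero, one_mul] at h1
    rw [one_mul, zero_mul, add_zero]
    exact h1
  have hcupv : cupVal p ρ y ξ' ξ = ∑ i, y i * aug p (Φ (ρ i)) := by
    refine cupVal_eq hyZ (h := fun x => aug p (Φ x)) ⟨hΦ.comp _, fun x y => ?_⟩
    show aug p (Φ (x * y)) = aug p (Φ x) + aug p (Φ y) + _
    rw [hΦ', map_add, map_add, map_mul, map_mul, aug_ginv, aug_TA, hΘ1', hΘ1, mul_one]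
  have hX : aug p (gmap p (CoreR_lam m 1 0) (∑ i, κ i • Φ (Sum.elim ρ r i))) ≠ 0 := by
    rw [aug_gmap, Fintype.sum_sum_type]
    simp only [Sum.elim_inl, Sum.elim_inr, hκr, zero_smul, Finset.sum_const_zero, add_zero,
      map_sum, map_smul, smul_eq_mul]
    rw [← hcupv]
    rw [hB] at hne
    exact hne
  have hC := HasOrd.prod (p := p) (m := m) Finset.univ
    (fun l => gmap p (CoreR_lam m 1 0) (Tm p χ m (r l) - 1)) (fun _ => 1) (fun l _ => hord l)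
  refine CoreR_fin ρ r χ m Θ' Θ hΘ' hΘ hΘ0' hΘ0 κ Φ hΦ hΦ' 1 0
    (CoreR_lam_surj0 m 1 0 isUnit_one) D (2 * Fintype.card L) hD ?_
  simp only [hκr, zero_smul, Finset.sum_const_zero, add_zero]
  have h2 := hC.mul (hC.ginv.mul (hasOrd_unit hX))
  convert h2 using 1
  simp only [Finset.sum_const, Finset.card_univ, smul_eq_mul, mul_one]
  ring

/-- bounded order of the form `b` for every invariant `κ ≠ 0` -/
theorem core_rank (hp : p ≠ 2) {δ : ℕ} (hG : ProFree p δ G) {ι L : Type} [Fintype ι] [Fintype L]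
    (ρ : ι → G) (r : L → G) (χ : Fin 2 → Z1 p G)
    (hχ : ∀ j i, (χ j : G → ℤ_[p]) (ρ i) = 0)
    (hu : ∀ l, IsUnit ((χ 0 : G → ℤ_[p]) (r l)))
    (hi : Indep p ⊤ (fun j => (χ j : G → ℤ_[p])))
    (hI : IK p ρ (fun j => redp p (χ j : G → ℤ_[p])))
    (hc : CupZero p ρ (redp p (χ 1 : G → ℤ_[p])) (redp p (χ 0 : G → ℤ_[p])))
    (hdet : ∀ l l', l ≠ l' → (χ 0 : G → ℤ_[p]) (r l) * (χ 1 : G → ℤ_[p]) (r l') ≠
      (χ 0 : G → ℤ_[p]) (r l') * (χ 1 : G → ℤ_[p]) (r l))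
    (hrk : ∀ z ∈ Z2 p ρ, z ≠ 0 → RankGE p ρ z (4 * finrank (ZMod p) (Z2 p ρ) + 1)) :
    ∃ D : ℕ, ∀ m, ∀ κ : ι ⊕ L → ZMod p, κ ≠ 0 →
      (∀ f ∈ Hom1 p G, ∑ i, κ i * f (Sum.elim ρ r i) = 0) →
      ∃ Θ' ∈ Coc (Tm p χ m), ∃ Θ ∈ Coc (Tm p χ m),
        (∀ i, Θ' (Sum.elim ρ r i ^ p ^ (Sum.elim (fun _ => 0) (fun _ => m) i : ℕ)) = 0) ∧
        (∀ i, Θ (Sum.elim ρ r i ^ p ^ (Sum.elim (fun _ => 0) (fun _ => m) i : ℕ)) = 0) ∧
        ∃ b, IsB p (redm p χ m) (Sum.elim ρ r) κ Θ' Θ b ∧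
          p ^ m - D ≤ finrank (ZMod p) ((Ideal.span {b}).restrictScalars (ZMod p)) := by
  classical
  have hv : ∀ l l' : L, ∃ v : ℕ, l ≠ l' → ∃ u : ℤ_[p], IsUnit u ∧
      (χ 0 : G → ℤ_[p]) (r l) * (χ 1 : G → ℤ_[p]) (r l') -
        (χ 0 : G → ℤ_[p]) (r l') * (χ 1 : G → ℤ_[p]) (r l) = (p : ℤ_[p]) ^ v * u := by
    intro l l'
    by_cases h : l = l'
    · exact ⟨0, fun h' => absurd h h'⟩
    · have hne := sub_ne_zero.2 (hdet l l' h)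
      exact ⟨_, fun _ => ⟨_, (PadicInt.unitCoeff hne).isUnit, by
        rw [mul_comm ((p : ℤ_[p]) ^ _)]; exact PadicInt.unitCoeff_spec hne⟩⟩
  choose v hv using hv
  refine ⟨2 * Fintype.card L + ∑ l₀, (2 * (∑ l ∈ Finset.univ.erase l₀, p ^ v l₀ l) +
      p ^ (∑ l ∈ Finset.univ.erase l₀, p ^ v l₀ l)), fun m κ hκ0 hκ => ?_⟩
  by_cases h : ∃ l₀, κ (Sum.inr l₀) ≠ 0
  · obtain ⟨l₀, hl₀⟩ := h
    refine CoreR_caseA hp hG ρ r χ hχ hu hI hc v hv l₀ m κ hl₀ _ ?_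
    refine le_trans ?_ (Nat.le_add_left _ _)
    exact Finset.single_le_sum (f := fun l₀ => 2 * (∑ l ∈ Finset.univ.erase l₀, p ^ v l₀ l) +
      p ^ (∑ l ∈ Finset.univ.erase l₀, p ^ v l₀ l)) (fun _ _ => Nat.zero_le _)
      (Finset.mem_univ l₀)
  · push Not at h
    exact CoreR_caseB hG ρ r χ hχ hu hI hrk m κ hκ0 h hκ _ (Nat.le_add_right _ _)

end Pool.Agent.RFA
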