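import Pool.Agent.RFA.Shap
import Pool.Agent.RFA.Desc

set_option autoImplicit false

namespace Pool.Agent.RFA

open Topology Module

variable {p : ℕ} [Fact p.Prime] {G : Type} [Group G] [TopologicalSpace G] [IsTopologicalGroup G]

section lin

variable {K V : Type} [Field K] [AddCommGroup V] [Module K V] [Module.Finite K V]

private theorem Growth_ker_succ (N : V →ₗ[K] V) (n : ℕ) :
    finrank K (LinearMap.ker (N ^ (n + 1))) ≤
      finrank K (LinearMap.ker (N ^ n)) + finrank K (LinearMap.ker N) := by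
  set S := LinearMap.ker (N ^ (n + 1)) with hS
  let g : S →ₗ[K] LinearMap.ker N := LinearMap.codRestrict (LinearMap.ker N)
    ((N ^ n).domRestrict S) (fun c => by
      have h : (N ^ (n + 1)) (c : V) = 0 := LinearMap.mem_ker.1 c.2
      rw [pow_succ', Module.End.mul_apply] at h
      rw [LinearMap.mem_ker]
      exact h)
  have h1 := LinearMap.finrank_range_add_finrank_ker g
  have h2 : finrank K (LinearMap.range g) ≤ finrank K (LinearMap.ker N) :=
    Submodule.finrank_le _
  have h3 : finrank K (LinearMap.ker g) ≤ finrank K (LinearMap.ker (N ^ n)) := by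
    let i : LinearMap.ker g →ₗ[K] LinearMap.ker (N ^ n) :=
      LinearMap.codRestrict (LinearMap.ker (N ^ n)) (S.subtype ∘ₗ (LinearMap.ker g).subtype)
        (fun c => by
          have h := c.2
          rw [LinearMap.mem_ker] at h
          have h' := congrArg Subtype.val h
          rw [LinearMap.mem_ker]
          exact h')
    refine LinearMap.finrank_le_finrank_of_injective (f := i) fun a b hab => ?_
    have h' := congrArg Subtype.val hab
    exact Subtype.ext (Subtype.ext h')
  omega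

private theorem Growth_nil (N : V →ₗ[K] V) (n : ℕ) :
    finrank K (LinearMap.ker (N ^ n)) ≤ n * finrank K (LinearMap.ker N) := by
  induction n with
  | zero =>
    have : LinearMap.ker (N ^ 0) = ⊥ := by
      rw [pow_zero, Module.End.one_eq_id, LinearMap.ker_id]
    rw [this, finrank_bot]; simp
  | succ n ih =>
    have := Growth_ker_succ N n
    rw [Nat.succ_mul]; omega

private theorem Growth_nil' (N : V →ₗ[K] V) (n : ℕ) (h : N ^ n = 0) :
    finrank K V ≤ n * finrank K (LinearMap.ker N) := by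
  have h1 := Growth_nil N n
  rw [h, LinearMap.ker_zero, finrank_top] at h1
  exact h1

end lin

private theorem Growth_tt_pow : tt p (1 : ZMod p) ^ p = 0 := by
  have : CharP (GA p (ZMod p)) p := charP_of_injective_algebraMap
    (algebraMap (ZMod p) (GA p (ZMod p))).injective p
  rw [tt, sub_pow_char, AddMonoidAlgebra.single_pow, one_pow, one_pow, nsmul_eq_mul,
    ZMod.natCast_self, zero_mul, ← AddMonoidAlgebra.one_def, sub_self]

private theorem Growth_base {δ : ℕ} (hG : ProFree p δ G) {ι : Type} [Fintype ι] (ρ : ι → G)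
    (a : G →* Multiplicative (ZMod p)) (ha : IsLocallyConstant a) (hs : Function.Surjective a)
    (h1 : ∀ i, a (ρ i) = 1) :
    h2 p ρ (fun _ => 0) ⊤ ≤ h2 p ρ (fun _ => 0) a.ker ∧
      h2 p ρ (fun _ => 0) a.ker ≤ p * h2 p ρ (fun _ => 0) ⊤ := by
  classical
  have e1 := shapiro_plain hG ρ a ha hs h1
  let a0 : G →* Multiplicative PUnit.{1} := 1
  have e0 := shapiro_plain hG ρ a0 (IsLocallyConstant.const _)
    (fun b => ⟨1, Subsingleton.elim _ _⟩) (fun i => rfl)
  have hk : a0.ker = ⊤ := MonoidHom.ker_one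
  rw [hk] at e0
  set Λ := GA p (ZMod p) with hΛ
  set Λ0 := GA p PUnit.{1} with hΛ0
  set D : Submodule (ZMod p) (ι → Λ) := (Dm ρ (TA p a)).restrictScalars (ZMod p) with hD
  set D0 : Submodule (ZMod p) (ι → Λ0) := (Dm ρ (TA p a0)).restrictScalars (ZMod p) with hD0
  set t : Λ := tt p (1 : ZMod p) with ht
  let f : Λ →ₐ[ZMod p] Λ0 := gmap p (0 : ZMod p →+ PUnit.{1})
  have hfs : Function.Surjective f := gmap_surjective _ (fun b => ⟨0, Subsingleton.elim _ _⟩)
  have hfk : RingHom.ker f = Ideal.span {t} := gmap_ker_of_gen _ 1 (Subsingleton.elim _ _)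
    (fun b _ => ⟨b.val, by rw [nsmul_eq_mul, mul_one, ZMod.natCast_zmod_val]⟩)
  have hft : f t = 0 := by
    have : t ∈ RingHom.ker f := by rw [hfk]; exact Ideal.mem_span_singleton_self t
    exact this
  have hfT : ∀ x, TA p a0 x = f (TA p a x) := by
    intro x
    change AddMonoidAlgebra.single _ _ = gmap p _ (AddMonoidAlgebra.single _ _)
    rw [gmap_single]
  have hTl := TA_locConst (p := p) a ha
  have : Finite Λ := GA.finite
  have : Finite Λ0 := GA.finite
  have : Module.Finite (ZMod p) Λ := Module.Finite.of_finite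
  have : Module.Finite (ZMod p) Λ0 := Module.Finite.of_finite
  let F : (ι → Λ) →ₗ[ZMod p] (ι → Λ0) := f.toLinearMap.compLeft ι
  have hFa : ∀ v i, F v i = f (v i) := fun v i => rfl
  let μ : (ι → Λ) →ₗ[ZMod p] (ι → Λ) := (LinearMap.mulLeft (ZMod p) t).compLeft ι
  have hμa : ∀ v i, μ v i = t * v i := fun v i => rfl
  have hDμ : D ≤ D.comap μ := fun v hv => (Dm ρ (TA p a)).smul_mem t hv
  have hDF : D ≤ D0.comap F := by
    rintro v ⟨Θ, hΘ, hv⟩
    refine ⟨fun x => f (Θ x), ⟨hΘ.1.comp f, fun x y => ?_⟩, fun i => ?_⟩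
    · simp only [hΘ.2 x y, map_add, map_mul, hfT]
    · simp only [hv i, hFa]
  let N : ((ι → Λ) ⧸ D) →ₗ[ZMod p] ((ι → Λ) ⧸ D) := D.mapQ D μ hDμ
  let φ : ((ι → Λ) ⧸ D) →ₗ[ZMod p] ((ι → Λ0) ⧸ D0) := D.mapQ D0 F hDF
  have hφs : Function.Surjective φ := by
    intro y
    obtain ⟨w, rfl⟩ := D0.mkQ_surjective y
    choose v hv using fun i => hfs (w i)
    refine ⟨D.mkQ v, ?_⟩
    change D.mapQ D0 F hDF (Submodule.Quotient.mk v) = _
    rw [Submodule.mapQ_apply]
    change D0.mkQ (F v) = _
    congr 1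
    funext i
    exact hv i
  have hker : LinearMap.ker φ = LinearMap.range N := by
    ext y
    obtain ⟨v, rfl⟩ := D.mkQ_surjective y
    constructor
    · intro h
      rw [LinearMap.mem_ker] at h
      change Submodule.Quotient.mk (F v) = 0 at h
      rw [Submodule.Quotient.mk_eq_zero] at h
      obtain ⟨w, hw, hwv⟩ := Dm_lift hG.h2top ρ (f : Λ →+* Λ0) hfs (TA p a) hTl (TA p a0)
        (fun x => hfT x) (F v) h
      have h3 : ∀ i, ∃ u, v i - w i = u * t := by
        intro i
        have : v i - w i ∈ RingHom.ker f := by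
          rw [RingHom.mem_ker, map_sub, sub_eq_zero]
          exact (hwv i).symm
        rw [hfk, Ideal.mem_span_singleton'] at this
        obtain ⟨u, hu⟩ := this
        exact ⟨u, hu.symm⟩
      choose u hu using h3
      refine ⟨D.mkQ u, ?_⟩
      change Submodule.Quotient.mk (μ u) = Submodule.Quotient.mk v
      rw [eq_comm, Submodule.Quotient.eq]
      have : v - μ u = w := by
        funext i
        rw [Pi.sub_apply, hμa, mul_comm, ← hu i]; ring
      rw [this]
      exact hw
    · rintro ⟨y, hy⟩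
      obtain ⟨u, rfl⟩ := D.mkQ_surjective y
      rw [← hy, LinearMap.mem_ker]
      change Submodule.Quotient.mk (F (μ u)) = 0
      have : F (μ u) = 0 := by
        funext i
        rw [hFa, hμa, map_mul, hft, zero_mul]; rfl
      rw [this]; rfl
  have hNp : N ^ p = 0 := by
    have h : ∀ (n : ℕ) (v : ι → Λ), (N ^ n) (Submodule.Quotient.mk v) =
        Submodule.Quotient.mk (t ^ n • v) := by
      intro n
      induction n with
      | zero => intro v; simp
      | succ n ih =>
        intro v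
        rw [pow_succ', Module.End.mul_apply, ih]
        change Submodule.Quotient.mk (μ (t ^ n • v)) = _
        congr 1
        funext i
        rw [hμa, Pi.smul_apply, Pi.smul_apply, smul_eq_mul, smul_eq_mul, pow_succ', mul_assoc]
    refine LinearMap.ext fun y => ?_
    obtain ⟨v, rfl⟩ := D.mkQ_surjective y
    change (N ^ p) (Submodule.Quotient.mk v) = 0
    rw [h, show t ^ p = 0 from Growth_tt_pow, zero_smul]
    rfl
  have r1 := LinearMap.finrank_range_add_finrank_ker N
  have r2 := LinearMap.finrank_range_add_finrank_ker φ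
  rw [hker, LinearMap.range_eq_top.2 hφs, finrank_top] at r2
  have r3 := Growth_nil' N p hNp
  have r4 := Submodule.finrank_quotient_add_finrank D
  have r5 := Submodule.finrank_quotient_add_finrank D0
  have r6 : finrank (ZMod p) (ι → Λ) = Fintype.card ι * Nat.card (ZMod p) := by
    rw [Module.finrank_pi_fintype, Finset.sum_const, Finset.card_univ, smul_eq_mul, finrank_GA]
  have r7 : finrank (ZMod p) (ι → Λ0) = Fintype.card ι * Nat.card PUnit.{1} := by
    rw [Module.finrank_pi_fintype, Finset.sum_const, Finset.card_univ, smul_eq_mul, finrank_GA]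
  have s1 : h2 p ρ (fun _ => 0) a.ker = finrank (ZMod p) ((ι → Λ) ⧸ D) := by
    rw [e1]
    have : (Fintype.card ι * Nat.card (ZMod p) : ℤ) = (finrank (ZMod p) (ι → Λ) : ℤ) := by
      rw [r6]; push_cast; ring
    rw [this, ← r4]; push_cast; ring
  have s0 : h2 p ρ (fun _ => 0) (⊤ : Subgroup G) = finrank (ZMod p) ((ι → Λ0) ⧸ D0) := by
    rw [e0]
    have : (Fintype.card ι * Nat.card PUnit.{1} : ℤ) = (finrank (ZMod p) (ι → Λ0) : ℤ) := by
      rw [r7]; push_cast; ring
    rw [this, ← r5]; push_cast; ring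
  have s2 : finrank (ZMod p) ((ι → Λ0) ⧸ D0) = finrank (ZMod p) (LinearMap.ker N) := by omega
  rw [s1, s0, s2]
  constructor
  · exact_mod_cast (by omega : finrank (ZMod p) (LinearMap.ker N) ≤ finrank (ZMod p) ((ι → Λ) ⧸ D))
  · exact_mod_cast r3

private theorem Growth_plain (n : ℕ) : ∀ {G : Type} [Group G] [TopologicalSpace G]
    [IsTopologicalGroup G] {δ : ℕ} (_ : ProFree p δ G) {ι : Type} [Fintype ι] (ρ : ι → G)
    (U : Subgroup G) (_ : Adm p ρ (fun _ => 0) U), U.index = n →
      h2 p ρ (fun _ => 0) ⊤ ≤ h2 p ρ (fun _ => 0) U ∧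
        h2 p ρ (fun _ => 0) U ≤ U.index * h2 p ρ (fun _ => 0) ⊤ := by
  induction n using Nat.strong_induction_on with
  | _ n ih =>
  intro G _ _ _ δ hG ι _ ρ U hU hn
  rcases eq_or_ne U ⊤ with rfl | hne
  · exact ⟨le_rfl, by simp [Subgroup.index_top]⟩
  obtain ⟨f, hf, hf0, hfU⟩ := hG.exists_hom U hU.isOpen hne
  have hf1 : f 1 = 0 := by
    have := hf.2 1 1
    rw [mul_one] at this
    exact left_eq_add.1 this
  let a : G →* Multiplicative (ZMod p) :=
    { toFun := fun x => Multiplicative.ofAdd (f x)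
      map_one' := by rw [hf1, ofAdd_zero]
      map_mul' := fun x y => by rw [hf.2, ofAdd_add] }
  have haf : ∀ x, a x = 1 ↔ f x = 0 := fun x => Iff.rfl
  have ha : IsLocallyConstant a := hf.1.comp Multiplicative.ofAdd
  have hpow : ∀ (x : G) (k : ℕ), f (x ^ k) = k * f x := by
    intro x k
    induction k with
    | zero => simp [hf1]
    | succ k ihk => rw [pow_succ, hf.2, ihk]; push_cast; ring
  have hs : Function.Surjective a := by
    obtain ⟨x0, hx0⟩ : ∃ x, f x ≠ 0 := by
      by_contra hcon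
      push Not at hcon
      exact hf0 (funext hcon)
    intro c
    refine ⟨x0 ^ (Multiplicative.toAdd c / f x0).val, ?_⟩
    change Multiplicative.ofAdd (f _) = c
    rw [hpow, ZMod.natCast_zmod_val, div_mul_cancel₀ _ hx0]
    rfl
  have h1 : ∀ i, a (ρ i) = 1 := by
    intro i
    have := Rel.mem (p := p) ρ (fun _ => 0) i
    simp only [pow_zero, pow_one] at this
    exact hfU _ (hU.rel_le this)
  have hW : Adm p ρ (fun _ => 0) a.ker := ker_adm ρ (fun _ => 0) a ha (fun i n => by simp [h1 i])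
  have hUW : U ≤ a.ker := fun x hx => hfU x hx
  have base := Growth_base hG ρ a ha hs h1
  obtain ⟨ι', _, ρ', idx, x, hP⟩ := exists_PP hG ρ (fun _ => 0) a.ker hW.isOpen hW.cyc
  have hGW := hG.sub a.ker hW.isOpen
  have hmap : (U.subgroupOf a.ker).map a.ker.subtype = U :=
    Subgroup.map_subgroupOf_eq_of_le hUW
  have hmapt : (⊤ : Subgroup ↥a.ker).map a.ker.subtype = a.ker := by
    rw [← MonoidHom.range_eq_map, Subgroup.range_subtype]
  have hA : Adm p ρ' (fun _ => 0) (U.subgroupOf a.ker) :=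
    (hP.adm (e := fun _ => 0) (fun _ => le_rfl) hW.isOpen hW.cyc hW.rel_le _).2
      (by rw [hmap]; exact hU)
  have hAt : Adm p ρ' (fun _ => 0) (⊤ : Subgroup ↥a.ker) :=
    (hP.adm (e := fun _ => 0) (fun _ => le_rfl) hW.isOpen hW.cyc hW.rel_le _).2
      (by rw [hmapt]; exact hW)
  have hE : h2 p ρ' (fun _ => 0) (U.subgroupOf a.ker) = h2 p ρ (fun _ => 0) U := by
    have := hP.h2_eq hG (e := fun _ => 0) (fun _ => le_rfl) hW.isOpen hW.cyc hW.rel_le _ hA
    rw [hmap] at this
    exact this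
  have hEt : h2 p ρ' (fun _ => 0) (⊤ : Subgroup ↥a.ker) = h2 p ρ (fun _ => 0) a.ker := by
    have := hP.h2_eq hG (e := fun _ => 0) (fun _ => le_rfl) hW.isOpen hW.cyc hW.rel_le _ hAt
    rw [hmapt] at this
    exact this
  have hidx : U.relIndex a.ker * a.ker.index = U.index := Subgroup.relIndex_mul_index hUW
  have hkidx : a.ker.index = p := by
    rw [Subgroup.index_ker, MonoidHom.range_eq_top.2 hs, Subgroup.card_top]
    exact Nat.card_zmod p
  have hfi := hG.finiteIndex U hU.isOpen
  have hUpos : 0 < U.index := Nat.pos_of_ne_zero hfi.index_ne_zero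
  have hp2 := (Fact.out (p := p.Prime)).two_le
  rw [hkidx] at hidx
  have hlt : (U.subgroupOf a.ker).index < n := by
    change U.relIndex a.ker < n
    rw [← hn, ← hidx]
    have : 0 < U.relIndex a.ker := by
      rcases Nat.eq_zero_or_pos (U.relIndex a.ker) with h | h
      · rw [h] at hidx; omega
      · exact h
    nlinarith
  obtain ⟨i1, i2⟩ := ih _ hlt hGW ρ' _ hA rfl
  rw [hE, hEt] at i1 i2
  refine ⟨base.1.trans i1, ?_⟩
  have i2' : h2 p ρ (fun _ => 0) U ≤ (U.relIndex a.ker : ℤ) * h2 p ρ (fun _ => 0) a.ker := i2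
  calc h2 p ρ (fun _ => 0) U ≤ (U.relIndex a.ker : ℤ) * h2 p ρ (fun _ => 0) a.ker := i2'
    _ ≤ (U.relIndex a.ker : ℤ) * (p * h2 p ρ (fun _ => 0) ⊤) :=
        mul_le_mul_of_nonneg_left base.2 (Int.natCast_nonneg _)
    _ = U.index * h2 p ρ (fun _ => 0) ⊤ := by rw [← hidx]; push_cast; ring

private theorem Growth_main {δ : ℕ} (hG : ProFree p δ G) {I : Type} [Fintype I] (r : I → G)
    (e : I → ℕ) (J J' : Subgroup G) (hJ : Adm p r e J) (hJ' : Adm p r e J') (hle : J' ≤ J) :
    h2 p r e J ≤ h2 p r e J' ∧ h2 p r e J' ≤ (J'.relIndex J : ℤ) * h2 p r e J := by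
  obtain ⟨ι, _, ρ, idx, x, hP⟩ := exists_PP hG r e J hJ.isOpen hJ.cyc
  have hGJ := hG.sub J hJ.isOpen
  have hmap : (J'.subgroupOf J).map J.subtype = J' := Subgroup.map_subgroupOf_eq_of_le hle
  have hmapt : (⊤ : Subgroup ↥J).map J.subtype = J := by
    rw [← MonoidHom.range_eq_map, Subgroup.range_subtype]
  have hz : (fun l => e (idx l) - e (idx l)) = fun _ => 0 := by
    funext l; exact Nat.sub_self _
  have hA := (hP.adm (e := e) (fun _ => le_rfl) hJ.isOpen hJ.cyc hJ.rel_le (J'.subgroupOf J)).2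
    (by rw [hmap]; exact hJ')
  have hAt := (hP.adm (e := e) (fun _ => le_rfl) hJ.isOpen hJ.cyc hJ.rel_le ⊤).2
    (by rw [hmapt]; exact hJ)
  have hE := hP.h2_eq hG (e := e) (fun _ => le_rfl) hJ.isOpen hJ.cyc hJ.rel_le _ hA
  have hEt := hP.h2_eq hG (e := e) (fun _ => le_rfl) hJ.isOpen hJ.cyc hJ.rel_le _ hAt
  rw [hmap] at hE
  rw [hmapt] at hEt
  rw [hz] at hA hAt hE hEt
  have := Growth_plain _ hGJ ρ _ hA rfl
  rw [hE, hEt] at this
  exact this

theorem h2_nonneg {δ : ℕ} (hG : ProFree p δ G) {I : Type} [Fintype I] (r : I → G) (e : I → ℕ)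
    (J : Subgroup G) (hJ : Adm p r e J) : 0 ≤ h2 p r e J := by
  obtain ⟨ι, _, ρ, idx, x, h⟩ := exists_PP hG r e J hJ.isOpen hJ.cyc
  rw [← PP.finrank_Z2 hG hJ h]
  exact Int.natCast_nonneg _

theorem h2_mono {δ : ℕ} (hG : ProFree p δ G) {I : Type} [Fintype I] (r : I → G) (e : I → ℕ)
    (J J' : Subgroup G) (hJ : Adm p r e J) (hJ' : Adm p r e J') (hle : J' ≤ J) :
    h2 p r e J ≤ h2 p r e J' :=
  (Growth_main hG r e J J' hJ hJ' hle).1

theorem h2_growth {δ : ℕ} (hG : ProFree p δ G) {I : Type} [Fintype I] (r : I → G) (e : I → ℕ)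
    (J J' : Subgroup G) (hJ : Adm p r e J) (hJ' : Adm p r e J') (hle : J' ≤ J) :
    h2 p r e J' ≤ (J'.relIndex J : ℤ) * h2 p r e J :=
  (Growth_main hG r e J J' hJ hJ' hle).2

end Pool.Agent.RFA
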