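import Pool.Agent.RFA.Shap

set_option autoImplicit false

namespace Pool.Agent.RFA

open Topology Module

variable {p : ℕ} [Fact p.Prime] {G : Type} [Group G] [TopologicalSpace G] [IsTopologicalGroup G]

theorem IKm_appr (m : ℕ) (z : ℤ_[p]) :
    ((z.appr (m + 1) : ℕ) : ZMod (p ^ m)) = PadicInt.toZModPow m z ∧
      ((z.appr (m + 1) : ℕ) : ZMod p) = PadicInt.toZMod z := by
  obtain ⟨t, ht⟩ := Ideal.mem_span_singleton.1 (PadicInt.appr_spec (m + 1) z)
  have hz : z = (z.appr (m + 1) : ℤ_[p]) + (p : ℤ_[p]) ^ (m + 1) * t := by rw [← ht]; ring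
  constructor
  · have h := congrArg (PadicInt.toZModPow m) hz
    rw [map_add, map_mul, map_pow, map_natCast, map_natCast, pow_succ] at h
    have h0 : (p : ZMod (p ^ m)) ^ m = 0 := by
      rw [← Nat.cast_pow]; exact ZMod.natCast_self _
    rw [h0, zero_mul, zero_mul, add_zero] at h
    exact h.symm
  · have h := congrArg PadicInt.toZMod hz
    rw [map_add, map_mul, map_pow, map_natCast, map_natCast, pow_succ] at h
    have h0 : (p : ZMod p) = 0 := ZMod.natCast_self _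
    rw [h0, mul_zero, zero_mul, add_zero] at h
    exact h.symm

theorem IKm_dvd_iff (m : ℕ) (z : ℤ_[p]) :
    PadicInt.toZModPow m z = 0 ↔ (p : ℤ_[p]) ^ m ∣ z := by
  rw [← RingHom.mem_ker, PadicInt.ker_toZModPow, Ideal.mem_span_singleton]

theorem IKm_locConst (m : ℕ) :
    IsLocallyConstant (PadicInt.toZModPow m : ℤ_[p] → ZMod (p ^ m)) := by
  rw [IsLocallyConstant.iff_exists_open]
  intro x
  have hp : (0 : ℝ) < (p : ℝ) ^ (-(m : ℤ)) :=
    zpow_pos (by exact_mod_cast (Fact.out : p.Prime).pos) _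
  refine ⟨Metric.ball x ((p : ℝ) ^ (-(m : ℤ))), Metric.isOpen_ball, Metric.mem_ball_self hp, ?_⟩
  intro y hy
  rw [Metric.mem_ball, dist_eq_norm] at hy
  have h := (PadicInt.norm_le_pow_iff_mem_span_pow (y - x) m).1 hy.le
  rw [← PadicInt.ker_toZModPow, RingHom.mem_ker, map_sub, sub_eq_zero] at h
  exact h

theorem IKm_pi_locConst {X Y : Type} [TopologicalSpace X] {κ : Type} [Finite κ] (f : X → κ → Y)
    (hf : ∀ i, IsLocallyConstant fun x => f x i) : IsLocallyConstant f := by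
  rw [IsLocallyConstant.iff_exists_open]
  intro x
  have h : ∀ i, ∃ U : Set X, IsOpen U ∧ x ∈ U ∧ ∀ x' ∈ U, f x' i = f x i := fun i =>
    (IsLocallyConstant.iff_exists_open _).1 (hf i) x
  choose U hU hx hU' using h
  refine ⟨⋂ i, U i, isOpen_iInter_of_finite hU, Set.mem_iInter.2 hx, fun y hy => ?_⟩
  funext i
  exact hU' i y (Set.mem_iInter.1 hy i)

theorem Z1.isZ {ι : Type} (ρ : ι → G) (φ : Z1 p G) (h : ∀ i, (φ : G → ℤ_[p]) (ρ i) = 0) :
    IsZ p (Rel p ρ (fun _ => 0)) ⊤ (φ : G → ℤ_[p]) := by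
  have hφ := φ.2.2
  have h1 : (φ : G → ℤ_[p]) 1 = 0 := by
    have := hφ 1 1
    rw [mul_one] at this
    exact left_eq_add.1 this
  have hinv : ∀ x, (φ : G → ℤ_[p]) x⁻¹ = - (φ : G → ℤ_[p]) x := by
    intro x
    have := hφ x x⁻¹
    rw [mul_inv_cancel, h1] at this
    exact (neg_eq_of_add_eq_zero_right this.symm).symm
  refine ⟨φ.2.1.continuousOn, fun x _ y _ => hφ x y, fun x hx => ?_⟩
  refine Rel.hom_ext ρ (fun _ => 0) (φ : G → ℤ_[p]) (fun _ => 0) φ.2.1.continuousOn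
    continuousOn_const (fun x _ y _ => hφ x y) (fun _ _ _ _ => by simp) (fun i x => ?_) x hx
  rw [hφ, hφ, hinv, pow_zero, pow_one, h i]
  ring

theorem redm_locConst {k : ℕ} (χ : Fin k → Z1 p G) (m : ℕ) :
    IsLocallyConstant (redm p χ m) := by
  have h : IsLocallyConstant (fun x : G => fun i => PadicInt.toZModPow m ((χ i : G → ℤ_[p]) x)) :=
    IKm_pi_locConst _ fun i => (IKm_locConst m).comp_continuous (χ i).2.1
  exact h.comp Multiplicative.ofAdd

theorem IKm_mem_ker {k : ℕ} (χ : Fin k → Z1 p G) (m : ℕ) (x : G) :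
    x ∈ (redm p χ m).ker ↔ ∀ i, (p : ℤ_[p]) ^ m ∣ (χ i : G → ℤ_[p]) x := by
  rw [MonoidHom.mem_ker]
  constructor
  · intro h i
    rw [← IKm_dvd_iff]
    exact congrFun (congrArg Multiplicative.toAdd h) i
  · intro h
    show Multiplicative.ofAdd _ = Multiplicative.ofAdd 0
    congr 1
    funext i
    exact (IKm_dvd_iff m _).2 (h i)

theorem redm_ker {k : ℕ} (χ : Fin k → Z1 p G) (m : ℕ) :
    (redm p χ m).ker = Jlev p ⊤ (fun i => (χ i : G → ℤ_[p])) m := by
  apply le_antisymm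
  · intro x hx
    exact Subgroup.subset_closure ⟨Subgroup.mem_top x, (IKm_mem_ker χ m x).1 hx⟩
  · refine (Subgroup.closure_le _).2 ?_
    rintro x ⟨-, hx⟩
    exact (IKm_mem_ker χ m x).2 hx

theorem IKm_surj_modp {k : ℕ} (χ : Fin k → Z1 p G)
    (hi : Indep p ⊤ (fun i => (χ i : G → ℤ_[p]))) (v : Fin k → ZMod p) :
    ∃ x : G, ∀ i, PadicInt.toZMod ((χ i : G → ℤ_[p]) x) = v i := by
  have h1 : ∀ i, (χ i : G → ℤ_[p]) 1 = 0 := by
    intro i
    have := (χ i).2.2 1 1
    rw [mul_one] at this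
    exact left_eq_add.1 this
  have hpow : ∀ (i : Fin k) (x : G) (n : ℕ),
      (χ i : G → ℤ_[p]) (x ^ n) = n * (χ i : G → ℤ_[p]) x := by
    intro i x n
    induction n with
    | zero => simp [h1]
    | succ n ih => rw [pow_succ, (χ i).2.2, ih]; push_cast; ring
  have hsingle : ∀ i : Fin k, (fun j => if i = j then (1 : ZMod p) else 0) = Pi.single i 1 := by
    intro i
    funext j
    rw [Pi.single_apply]
    by_cases hij : i = j
    · rw [if_pos hij, if_pos hij.symm]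
    · rw [if_neg hij, if_neg (Ne.symm hij)]
  let W : Submodule (ZMod p) (Fin k → ZMod p) :=
    { carrier := {v | ∃ x : G, ∀ i, PadicInt.toZMod ((χ i : G → ℤ_[p]) x) = v i}
      zero_mem' := ⟨1, fun i => by rw [h1]; simp⟩
      add_mem' := by
        rintro v w ⟨x, hx⟩ ⟨y, hy⟩
        exact ⟨x * y, fun i => by rw [(χ i).2.2, map_add, hx, hy]; rfl⟩
      smul_mem' := by
        rintro c v ⟨x, hx⟩
        refine ⟨x ^ c.val, fun i => ?_⟩
        rw [hpow, map_mul, hx, map_natCast, ZMod.natCast_val, ZMod.cast_id]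
        rfl }
  have hW : W = ⊤ := by
    by_contra hne
    obtain ⟨f, hf0, hf⟩ := Submodule.exists_le_ker_of_lt_top W (lt_top_iff_ne_top.2 hne)
    apply hf0
    have hc : (fun i => f (Pi.single i 1)) = 0 := by
      apply hi
      intro x _
      have hx : (fun i => PadicInt.toZMod ((χ i : G → ℤ_[p]) x)) ∈ W := ⟨x, fun i => rfl⟩
      have := hf hx
      rw [LinearMap.mem_ker, LinearMap.pi_apply_eq_sum_univ f] at this
      rw [← this]
      refine Finset.sum_congr rfl fun i _ => ?_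
      rw [smul_eq_mul, mul_comm, hsingle i]
    apply LinearMap.ext
    intro v
    rw [LinearMap.pi_apply_eq_sum_univ f]
    refine Finset.sum_eq_zero fun i _ => ?_
    rw [hsingle i, congrFun hc i, Pi.zero_apply, smul_zero]
  have : v ∈ W := by rw [hW]; trivial
  exact this

theorem redm_surj {k : ℕ} (χ : Fin k → Z1 p G)
    (hi : Indep p ⊤ (fun i => (χ i : G → ℤ_[p]))) (m : ℕ) :
    Function.Surjective (redm p χ m) := by
  have hstep : ∀ w : Fin k → ZMod (p ^ m), ∃ (y : G) (w' : Fin k → ZMod (p ^ m)),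
      w = (redm p χ m y).toAdd + p • w' := by
    intro w
    obtain ⟨y, hy⟩ := IKm_surj_modp χ hi (fun i => ((w i).val : ZMod p))
    have hd : ∀ i, (p : ℤ_[p]) ∣ ((w i).val : ℤ_[p]) - (χ i : G → ℤ_[p]) y := by
      intro i
      rw [← Ideal.mem_span_singleton, ← PadicInt.maximalIdeal_eq_span_p, ← PadicInt.ker_toZMod,
        RingHom.mem_ker, map_sub, hy, map_natCast, sub_self]
    choose t ht using hd
    refine ⟨y, fun i => PadicInt.toZModPow m (t i), ?_⟩
    funext i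
    show w i = PadicInt.toZModPow m ((χ i : G → ℤ_[p]) y) + p • PadicInt.toZModPow m (t i)
    have h2 := congrArg (PadicInt.toZModPow m) (ht i)
    rw [map_sub, map_natCast, map_mul, map_natCast, ZMod.natCast_val, ZMod.cast_id] at h2
    rw [nsmul_eq_mul, ← h2]
    ring
  have hind : ∀ (j : ℕ) (v : Fin k → ZMod (p ^ m)), ∃ (x : G) (w : Fin k → ZMod (p ^ m)),
      v = (redm p χ m x).toAdd + p ^ j • w := by
    intro j
    induction j with
    | zero => intro v; exact ⟨1, v, by simp⟩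
    | succ j ih =>
      intro v
      obtain ⟨x, w, hw⟩ := ih v
      obtain ⟨y, w', hw'⟩ := hstep w
      refine ⟨x * y ^ p ^ j, w', ?_⟩
      rw [map_mul, map_pow, toAdd_mul, toAdd_pow, hw, hw', smul_add, smul_smul, pow_succ,
        add_assoc]
  intro v
  obtain ⟨x, w, hw⟩ := hind m v.toAdd
  refine ⟨x, ?_⟩
  apply Multiplicative.toAdd.injective
  rw [hw]
  have : (p ^ m) • w = 0 := by
    funext i
    rw [Pi.smul_apply, nsmul_eq_mul, ZMod.natCast_self, zero_mul]; rfl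
  rw [this, add_zero]

theorem IKm_aug_tt {A : Type} [AddCommGroup A] (a : A) : aug p (tt p a) = 0 := by
  rw [tt, map_sub, aug_single, map_one, sub_self]

theorem IKm_tt_mem {A : Type} [AddCommGroup A] (a : A) : tt p a ∈ mI p A := IKm_aug_tt a

theorem IKm_sum_mem {k m : ℕ} (c : Fin k → ZMod p) :
    ∑ j, c j • tt p (Pi.single j (1 : ZMod (p ^ m))) ∈ mI p (Fin k → ZMod (p ^ m)) := by
  refine Ideal.sum_mem _ fun j _ => ?_
  rw [Algebra.smul_def]
  exact Ideal.mul_mem_left _ _ (IKm_tt_mem _)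

theorem IKm_T_mod {k : ℕ} (χ : Fin k → Z1 p G) (m : ℕ) (x : G) :
    Tm p χ m x - 1 - ∑ j, redp p (χ j : G → ℤ_[p]) x •
      tt p (Pi.single j (1 : ZMod (p ^ m))) ∈ mI p (Fin k → ZMod (p ^ m)) ^ 2 := by
  have h := single_mod_sq (p := p) k m (fun j => ((χ j : G → ℤ_[p]) x).appr (m + 1))
  have h1 : (fun j => ((((χ j : G → ℤ_[p]) x).appr (m + 1) : ℕ) : ZMod (p ^ m))) =
      (redm p χ m x).toAdd := by
    funext j
    exact (IKm_appr m _).1
  rw [h1] at h
  have h2 : ∀ j, ((((χ j : G → ℤ_[p]) x).appr (m + 1) : ℕ) : ZMod p) =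
      redp p (χ j : G → ℤ_[p]) x := fun j => (IKm_appr m _).2
  simp only [h2] at h
  exact h

/-- lifting of first order cocycles -/
theorem IKm_lift (hG : H2zero p G) {k : ℕ} (χ : Fin k → Z1 p G) (m : ℕ) (ξ : G → ZMod p)
    (hξ : ξ ∈ Hom1 p G) (h : Fin k → G → ZMod p)
    (hh : ∀ j, IsCup p (redp p (χ j : G → ℤ_[p])) ξ (h j)) :
    ∃ Θ ∈ Coc (Tm p χ m), ∀ x, Θ x - (algebraMap (ZMod p) _ (ξ x) +
      ∑ j, h j x • tt p (Pi.single j (1 : ZMod (p ^ m)))) ∈ mI p (Fin k → ZMod (p ^ m)) ^ 2 := by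
  set I := mI p (Fin k → ZMod (p ^ m)) ^ 2 with hI
  set Θ₁ : G → GA p (Fin k → ZMod (p ^ m)) := fun x => algebraMap (ZMod p) _ (ξ x) +
      ∑ j, h j x • tt p (Pi.single j (1 : ZMod (p ^ m))) with hΘ₁
  have hloc : IsLocallyConstant Θ₁ := by
    have h1 : IsLocallyConstant (fun x => (ξ x, fun j => h j x)) :=
      hξ.1.prodMk (IKm_pi_locConst _ fun j => (hh j).1)
    exact h1.comp (fun q : ZMod p × (Fin k → ZMod p) => algebraMap (ZMod p) _ q.1 +
      ∑ j, q.2 j • tt p (Pi.single j (1 : ZMod (p ^ m))))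
  have hcoc : ∀ x y, Θ₁ (x * y) - (Θ₁ x + Tm p χ m x * Θ₁ y) ∈ I := by
    intro x y
    have hτ := IKm_T_mod χ m x
    set τ := Tm p χ m x - 1 - ∑ j, redp p (χ j : G → ℤ_[p]) x •
      tt p (Pi.single j (1 : ZMod (p ^ m))) with hτdef
    have hTx : Tm p χ m x = 1 + ∑ j, redp p (χ j : G → ℤ_[p]) x •
      tt p (Pi.single j (1 : ZMod (p ^ m))) + τ := by rw [hτdef]; ring
    have hS1 := IKm_sum_mem (p := p) (m := m) (fun j : Fin k => redp p (χ j : G → ℤ_[p]) x)
    have hS2 := IKm_sum_mem (p := p) (m := m) (fun j : Fin k => h j y)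
    have hsum : ∑ j, h j (x * y) • tt p (Pi.single j (1 : ZMod (p ^ m))) =
        ∑ j, h j x • tt p (Pi.single j (1 : ZMod (p ^ m))) +
        ∑ j, h j y • tt p (Pi.single j (1 : ZMod (p ^ m))) +
        algebraMap (ZMod p) _ (ξ y) * ∑ j, redp p (χ j : G → ℤ_[p]) x •
          tt p (Pi.single j (1 : ZMod (p ^ m))) := by
      rw [Finset.mul_sum, ← Finset.sum_add_distrib, ← Finset.sum_add_distrib]
      refine Finset.sum_congr rfl fun j _ => ?_
      rw [(hh j).2 x y]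
      simp only [Algebra.smul_def, map_add, map_mul]
      ring
    set S1 := ∑ j, redp p (χ j : G → ℤ_[p]) x • tt p (Pi.single j (1 : ZMod (p ^ m)))
    set S2 := ∑ j, h j y • tt p (Pi.single j (1 : ZMod (p ^ m)))
    have hkey : Θ₁ (x * y) - (Θ₁ x + Tm p χ m x * Θ₁ y) = -(Θ₁ y) * τ - S1 * S2 := by
      rw [hTx]
      simp only [hΘ₁]
      rw [hsum, hξ.2 x y, map_add]
      ring
    rw [hkey]
    refine Ideal.sub_mem _ (Ideal.mul_mem_left _ _ hτ) ?_
    rw [hI, pow_two]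
    exact Ideal.mul_mem_mul hS1 hS2
  have hmem : (fun x => Ideal.Quotient.mk I (Θ₁ x)) ∈
      Coc (((Ideal.Quotient.mk I : GA p (Fin k → ZMod (p ^ m)) →+* _) :
        GA p (Fin k → ZMod (p ^ m)) →* _).comp (Tm p χ m)) := by
    refine ⟨hloc.comp _, fun x y => ?_⟩
    show Ideal.Quotient.mk I (Θ₁ (x * y)) = Ideal.Quotient.mk I (Θ₁ x) +
      Ideal.Quotient.mk I (Tm p χ m x) * Ideal.Quotient.mk I (Θ₁ y)
    rw [← map_mul, ← map_add]
    exact Ideal.Quotient.eq.2 (hcoc x y)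
  obtain ⟨Θ, hΘ, hΘ'⟩ := coc_lift hG (Ideal.Quotient.mk I) Ideal.Quotient.mk_surjective
    (Tm p χ m) (TA_locConst _ (redm_locConst χ m)) _ (fun _ => rfl) _ hmem
  exact ⟨Θ, hΘ, fun x => Ideal.Quotient.eq.1 (hΘ' x)⟩

/-- vectors with entries in the augmentation ideal -/
def IKmM (ι : Type) (A : Type) [AddCommGroup A] : Submodule (GA p A) (ι → GA p A) where
  carrier := {v | ∀ i, v i ∈ mI p A}
  zero_mem' := fun i => (mI p A).zero_mem
  add_mem' := fun ha hb i => (mI p A).add_mem (ha i) (hb i)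
  smul_mem' := fun c _ ha i => (mI p A).mul_mem_left c (ha i)

theorem IKm_sq_le {ι : Type} [Fintype ι] {A : Type} [AddCommGroup A] (v : ι → GA p A)
    (hv : ∀ i, v i ∈ mI p A ^ 2) : v ∈ mI p A • IKmM (p := p) ι A := by
  classical
  rw [← Finset.univ_sum_single v]
  refine Submodule.sum_mem _ fun i _ => ?_
  have h1 : v i ∈ mI p A • (mI p A : Submodule (GA p A) (GA p A)) := by
    rw [smul_eq_mul, ← pow_two]; exact hv i
  have h2 : (LinearMap.single (GA p A) (fun _ : ι => GA p A) i) (v i) ∈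
      Submodule.map (LinearMap.single (GA p A) (fun _ : ι => GA p A) i)
        (mI p A • (mI p A : Submodule (GA p A) (GA p A))) := Submodule.mem_map_of_mem h1
  rw [Submodule.map_smul''] at h2
  refine Submodule.smul_mono le_rfl ?_ h2
  rintro _ ⟨w, hw, rfl⟩ j
  by_cases hj : j = i
  · subst hj
    rw [LinearMap.single_apply, Pi.single_eq_same]
    exact hw
  · rw [LinearMap.single_apply, Pi.single_eq_of_ne hj]
    exact Ideal.zero_mem _

/-- Nakayama: under `I_k` every vector with values in the augmentation ideal is `∂Θ` -/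
theorem IK.mem_Dm {δ : ℕ} (hG : ProFree p δ G) {ι : Type} [Fintype ι] (ρ : ι → G) {k : ℕ}
    (χ : Fin k → Z1 p G) (hχ : ∀ j i, (χ j : G → ℤ_[p]) (ρ i) = 0)
    (hI : IK p ρ (fun j => redp p (χ j : G → ℤ_[p]))) (m : ℕ)
    (v : ι → GA p (Fin k → ZMod (p ^ m))) (hv : ∀ i, aug p (v i) = 0) :
    v ∈ Dm ρ (Tm p χ m) := by
  set M := IKmM (p := p) ι (Fin k → ZMod (p ^ m)) with hM
  set D := Dm ρ (Tm p χ m) with hD
  have hstep : M ≤ D ⊔ mI p (Fin k → ZMod (p ^ m)) • M := by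
    intro w hw
    have h1 : ∀ i, ∃ c : Fin k → GA p (Fin k → ZMod (p ^ m)),
        w i = ∑ j, c j * tt p (Pi.single j (1 : ZMod (p ^ m))) := fun i =>
      (mem_mI_iff k m (w i)).1 (hw i)
    choose c hc using h1
    obtain ⟨ξ, hξ, h, hh, hval⟩ := hI (fun j i => aug p (c i j))
    obtain ⟨Θ, hΘ, hΘ'⟩ := IKm_lift hG.h2top χ m ξ hξ.1 h hh
    have hd : (fun i => Θ (ρ i)) ∈ D := ⟨Θ, hΘ, fun i => rfl⟩
    have hdiff : w - (fun i => Θ (ρ i)) ∈ mI p (Fin k → ZMod (p ^ m)) • M := by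
      apply IKm_sq_le
      intro i
      rw [Pi.sub_apply]
      have h2 := hΘ' (ρ i)
      rw [hξ.2 i, map_zero, zero_add] at h2
      have h3 : w i - ∑ j, h j (ρ i) • tt p (Pi.single j (1 : ZMod (p ^ m))) ∈
          mI p (Fin k → ZMod (p ^ m)) ^ 2 := by
        rw [hc i, ← Finset.sum_sub_distrib]
        refine Ideal.sum_mem _ fun j _ => ?_
        rw [hval j i, Algebra.smul_def, ← sub_mul, pow_two]
        refine Ideal.mul_mem_mul ?_ (IKm_tt_mem _)
        show aug p _ = 0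
        rw [map_sub, AlgHom.commutes, Algebra.algebraMap_self, RingHom.id_apply, sub_self]
      have h4 := Ideal.sub_mem _ h3 h2
      have h5 : w i - ∑ j, h j (ρ i) • tt p (Pi.single j (1 : ZMod (p ^ m))) -
          (Θ (ρ i) - ∑ j, h j (ρ i) • tt p (Pi.single j (1 : ZMod (p ^ m)))) =
          w i - Θ (ρ i) := by ring
      rw [h5] at h4
      exact h4
    have h6 : w = (fun i => Θ (ρ i)) + (w - (fun i => Θ (ρ i))) := by abel
    rw [h6]
    exact Submodule.add_mem_sup hd hdiff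
  have hind : ∀ n, M ≤ D ⊔ mI p (Fin k → ZMod (p ^ m)) ^ n • M := by
    intro n
    induction n with
    | zero => rw [pow_zero, Ideal.one_eq_top, Submodule.top_smul]; exact le_sup_right
    | succ n ih =>
      calc M ≤ D ⊔ mI p (Fin k → ZMod (p ^ m)) • M := hstep
        _ ≤ D ⊔ mI p (Fin k → ZMod (p ^ m)) •
            (D ⊔ mI p (Fin k → ZMod (p ^ m)) ^ n • M) :=
          sup_le_sup_left (Submodule.smul_mono le_rfl ih) _
        _ ≤ D ⊔ mI p (Fin k → ZMod (p ^ m)) ^ (n + 1) • M := by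
          rw [Submodule.smul_sup, ← Submodule.mul_smul, ← pow_succ']
          exact sup_le le_sup_left (sup_le_sup_right Submodule.smul_le_right _)
  obtain ⟨N, hN⟩ := mI_nilpotent (p := p) (A := Fin k → ZMod (p ^ m))
    ⟨m * k, by rw [Nat.card_pi]; simp [← pow_mul]⟩
  have h7 := hind N
  rw [hN, Submodule.bot_smul, sup_bot_eq] at h7
  exact h7 hv

theorem IKm_finrank {V W : Type} [AddCommGroup V] [Module (ZMod p) V] [Module.Finite (ZMod p) V]
    [AddCommGroup W] [Module (ZMod p) W] (f : V →ₗ[ZMod p] W) (D : Submodule (ZMod p) V) :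
    finrank (ZMod p) D = finrank (ZMod p) (D.map f) +
      finrank (ZMod p) (D ⊓ LinearMap.ker f : Submodule (ZMod p) V) := by
  have h := LinearMap.finrank_range_add_finrank_ker (f.domRestrict D)
  rw [LinearMap.range_domRestrict, LinearMap.ker_domRestrict] at h
  rw [← h]
  congr 1
  rw [← Submodule.finrank_map_subtype_eq D, Submodule.map_comap_subtype]

/-- the augmentation on vectors -/
noncomputable def IKmAug (ι : Type) (A : Type) [AddCommGroup A] :
    (ι → GA p A) →ₗ[ZMod p] (ι → ZMod p) :=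
  (aug p (A := A)).toLinearMap.compLeft ι

theorem IKmAug_apply {ι : Type} {A : Type} [AddCommGroup A] (v : ι → GA p A) (i : ι) :
    IKmAug (p := p) ι A v i = aug p (v i) := rfl

theorem IKmAug_ker (ι : Type) (A : Type) [AddCommGroup A] :
    LinearMap.ker (IKmAug (p := p) ι A) = (IKmM (p := p) ι A).restrictScalars (ZMod p) := by
  ext v
  rw [LinearMap.mem_ker, Submodule.restrictScalars_mem]
  constructor
  · intro h i
    exact congrFun h i
  · intro h
    funext i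
    exact h i

theorem IKmAug_surj (ι : Type) (A : Type) [AddCommGroup A] :
    Function.Surjective (IKmAug (p := p) ι A) := by
  intro v
  refine ⟨fun i => algebraMap (ZMod p) _ (v i), ?_⟩
  funext i
  rw [IKmAug_apply, AlgHom.commutes, Algebra.algebraMap_self, RingHom.id_apply]

theorem IKm_finrank_pi (ι : Type) [Fintype ι] (A : Type) [AddCommGroup A] [Finite A] :
    finrank (ZMod p) (ι → GA p A) = Fintype.card ι * Nat.card A := by
  rw [Module.finrank_pi_fintype]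
  simp [finrank_GA]

theorem IKm_finrank_M (ι : Type) [Fintype ι] (A : Type) [AddCommGroup A] [Finite A] :
    Fintype.card ι * Nat.card A = Fintype.card ι +
      finrank (ZMod p) ((IKmM (p := p) ι A).restrictScalars (ZMod p)) := by
  have h := LinearMap.finrank_range_add_finrank_ker (IKmAug (p := p) ι A)
  rw [LinearMap.range_eq_top.2 (IKmAug_surj ι A), finrank_top, IKmAug_ker, IKm_finrank_pi,
    Module.finrank_pi] at h
  exact h.symm

theorem IKm_map_Dm (hG : H2zero p G) {ι : Type} (ρ : ι → G) {A : Type} [AddCommGroup A]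
    [Finite A] (a : G →* Multiplicative A) (ha : IsLocallyConstant a) :
    ((Dm ρ (TA p a)).restrictScalars (ZMod p)).map (IKmAug (p := p) ι A) =
      Dm ρ (1 : G →* ZMod p) := by
  ext v
  constructor
  · rintro ⟨w, ⟨Θ, hΘ, hw⟩, rfl⟩
    refine ⟨fun x => aug p (Θ x), ⟨hΘ.1.comp _, fun x y => ?_⟩, fun i => ?_⟩
    · show aug p (Θ (x * y)) = aug p (Θ x) + 1 * aug p (Θ y)
      rw [hΘ.2, map_add, map_mul, aug_TA]
    · show aug p (Θ (ρ i)) = _
      rw [hw i]; rfl
  · intro hv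
    obtain ⟨w, hw, hw'⟩ := Dm_lift hG ρ ((aug p (A := A)) : GA p A →+* ZMod p)
      (fun c => ⟨algebraMap (ZMod p) _ c, by
        show aug p _ = c
        rw [AlgHom.commutes, Algebra.algebraMap_self, RingHom.id_apply]⟩)
      (TA p a) (TA_locConst a ha) 1 (fun x => (aug_TA a x).symm) v hv
    exact ⟨w, hw, funext hw'⟩

theorem IKm_codim {δ : ℕ} (hG : ProFree p δ G) {ι : Type} [Fintype ι] (ρ : ι → G) {k : ℕ}
    (χ : Fin k → Z1 p G) (hχ : ∀ j i, (χ j : G → ℤ_[p]) (ρ i) = 0)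
    (hi : Indep p ⊤ (fun i => (χ i : G → ℤ_[p]))) (m : ℕ) :
    h2 p ρ (fun _ => 0) (Jlev p ⊤ (fun i => (χ i : G → ℤ_[p])) m) =
      (Fintype.card ι : ℤ) - finrank (ZMod p) (Dm ρ (1 : G →* ZMod p)) +
      (finrank (ZMod p) ((IKmM (p := p) ι (Fin k → ZMod (p ^ m))).restrictScalars (ZMod p)) -
        finrank (ZMod p) ((Dm ρ (Tm p χ m)).restrictScalars (ZMod p) ⊓
          (IKmM (p := p) ι (Fin k → ZMod (p ^ m))).restrictScalars (ZMod p) :
            Submodule (ZMod p) _)) := by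
  have h1 : ∀ i, redm p χ m (ρ i) = 1 := by
    intro i
    rw [← MonoidHom.mem_ker, IKm_mem_ker]
    intro j
    rw [hχ j i]
    exact dvd_zero _
  rw [← redm_ker χ m, shapiro_plain hG ρ (redm p χ m) (redm_locConst χ m) (redm_surj χ hi m) h1]
  have h2 := IKm_finrank_M (p := p) ι (Fin k → ZMod (p ^ m))
  have h3 := IKm_finrank (IKmAug (p := p) ι (Fin k → ZMod (p ^ m)))
    ((Dm ρ (Tm p χ m)).restrictScalars (ZMod p))
  rw [IKmAug_ker] at h3
  have h4 := IKm_map_Dm hG.h2top ρ (redm p χ m) (redm_locConst χ m)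
  have h5 : finrank (ZMod p) ((Dm ρ (TA p (redm p χ m))).restrictScalars (ZMod p)) =
      finrank (ZMod p) (Dm ρ (1 : G →* ZMod p)) +
      finrank (ZMod p) ((Dm ρ (Tm p χ m)).restrictScalars (ZMod p) ⊓
          (IKmM (p := p) ι (Fin k → ZMod (p ^ m))).restrictScalars (ZMod p) :
            Submodule (ZMod p) _) := by
    rw [← h4]
    exact h3
  rw [h5]
  have h6 : (Fintype.card ι * Nat.card (Fin k → ZMod (p ^ m)) : ℤ) = Fintype.card ι +
      finrank (ZMod p) ((IKmM (p := p) ι (Fin k → ZMod (p ^ m))).restrictScalars (ZMod p)) := by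
    exact_mod_cast h2
  rw [h6]
  push_cast
  ring

theorem IKm_Jlev_zero {k : ℕ} (χ : Fin k → Z1 p G) :
    Jlev p ⊤ (fun i => (χ i : G → ℤ_[p])) 0 = ⊤ := by
  rw [← redm_ker, eq_top_iff]
  intro x _
  rw [IKm_mem_ker]
  intro i
  rw [pow_zero]
  exact one_dvd _

theorem IKm_h2_top {δ : ℕ} (hG : ProFree p δ G) {ι : Type} [Fintype ι] (ρ : ι → G) {k : ℕ}
    (χ : Fin k → Z1 p G) (hχ : ∀ j i, (χ j : G → ℤ_[p]) (ρ i) = 0)
    (hi : Indep p ⊤ (fun i => (χ i : G → ℤ_[p]))) :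
    h2 p ρ (fun _ => 0) ⊤ = (Fintype.card ι : ℤ) - finrank (ZMod p) (Dm ρ (1 : G →* ZMod p)) := by
  have h := IKm_codim hG ρ χ hχ hi 0
  rw [IKm_Jlev_zero] at h
  have h1 := IKm_finrank_M (p := p) ι (Fin k → ZMod (p ^ 0))
  have h2 : Nat.card (Fin k → ZMod (p ^ 0)) = 1 := by rw [Nat.card_pi]; simp
  rw [h2, mul_one] at h1
  have h3 : finrank (ZMod p) ((IKmM (p := p) ι (Fin k → ZMod (p ^ 0))).restrictScalars
      (ZMod p)) = 0 := by omega
  have h4 : finrank (ZMod p) ((Dm ρ (Tm p χ 0)).restrictScalars (ZMod p) ⊓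
          (IKmM (p := p) ι (Fin k → ZMod (p ^ 0))).restrictScalars (ZMod p) :
            Submodule (ZMod p) _) = 0 := by
    have := Submodule.finrank_mono (R := ZMod p) (inf_le_right :
      ((Dm ρ (Tm p χ 0)).restrictScalars (ZMod p) ⊓
          (IKmM (p := p) ι (Fin k → ZMod (p ^ 0))).restrictScalars (ZMod p) :
            Submodule (ZMod p) _) ≤ _)
    omega
  rw [h, h3, h4]
  simp

theorem IK.h2_const {δ : ℕ} (hG : ProFree p δ G) {ι : Type} [Fintype ι] (ρ : ι → G) {k : ℕ}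
    (χ : Fin k → Z1 p G) (hχ : ∀ j i, (χ j : G → ℤ_[p]) (ρ i) = 0)
    (hi : Indep p ⊤ (fun i => (χ i : G → ℤ_[p])))
    (hI : IK p ρ (fun j => redp p (χ j : G → ℤ_[p]))) (m : ℕ) :
    h2 p ρ (fun _ => 0) (Jlev p ⊤ (fun i => (χ i : G → ℤ_[p])) m) =
      h2 p ρ (fun _ => 0) ⊤ := by
  rw [IKm_codim hG ρ χ hχ hi m, IKm_h2_top hG ρ χ hχ hi]
  have h1 : (IKmM (p := p) ι (Fin k → ZMod (p ^ m))).restrictScalars (ZMod p) ≤
      (Dm ρ (Tm p χ m)).restrictScalars (ZMod p) := fun v hv =>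
    IK.mem_Dm hG ρ χ hχ hI m v hv
  rw [inf_eq_right.2 h1]
  ring

/-- the algebra homomorphism `[a] ↦ 1 + a_j ε` -/
noncomputable def IKmDual {k : ℕ} (j : Fin k) : GA p (Fin k → ZMod (p ^ 1)) →ₐ[ZMod p]
    DualNumber (ZMod p) :=
  AddMonoidAlgebra.lift (ZMod p) (DualNumber (ZMod p)) (Fin k → ZMod (p ^ 1))
    { toFun := fun a => 1 + (ZMod.castHom (dvd_pow_self p one_ne_zero) (ZMod p)
        (a.toAdd j)) • DualNumber.eps
      map_one' := by simp
      map_mul' := fun a b => by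
        rw [toAdd_mul, Pi.add_apply, map_add]
        ext <;> simp [add_comm] }

theorem IKmDual_fst {k : ℕ} (j : Fin k) (b : GA p (Fin k → ZMod (p ^ 1))) :
    (IKmDual j b).fst = aug p b := by
  have h : (TrivSqZeroExt.fstHom (ZMod p) (ZMod p) (ZMod p)).comp (IKmDual (p := p) j) =
      aug p := by
    apply AddMonoidAlgebra.algHom_ext
    · intro a
      simp [IKmDual, aug]
    · exact Subsingleton.elim _ _
  exact congrArg (fun f : GA p (Fin k → ZMod (p ^ 1)) →ₐ[ZMod p] ZMod p => f b) h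

theorem IKmDual_single {k : ℕ} (j : Fin k) (a : Fin k → ZMod (p ^ 1)) :
    IKmDual (p := p) j (AddMonoidAlgebra.single a 1) =
      1 + (ZMod.castHom (dvd_pow_self p one_ne_zero) (ZMod p) (a j)) • DualNumber.eps := by
  rw [IKmDual, AddMonoidAlgebra.lift_single, one_smul]
  rfl

theorem IKm_cast (z : ℤ_[p]) : ZMod.castHom (dvd_pow_self p one_ne_zero) (ZMod p)
    (PadicInt.toZModPow 1 z) = PadicInt.toZMod z := by
  rw [← (IKm_appr 1 z).1, map_natCast, (IKm_appr 1 z).2]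

theorem IKmDual_T {k : ℕ} (χ : Fin k → Z1 p G) (j : Fin k) (x : G) :
    IKmDual j (Tm p χ 1 x) = 1 + redp p (χ j : G → ℤ_[p]) x • DualNumber.eps := by
  rw [show Tm p χ 1 x = AddMonoidAlgebra.single (redm p χ 1 x).toAdd 1 from rfl,
    IKmDual_single]
  congr 2
  exact IKm_cast _

theorem IKmDual_tt {k : ℕ} (j l : Fin k) :
    (IKmDual (p := p) j (tt p (Pi.single l (1 : ZMod (p ^ 1))))).snd =
      if l = j then 1 else 0 := by
  rw [tt, map_sub, map_one, IKmDual_single]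
  by_cases h : l = j
  · subst h
    simp
  · rw [Pi.single_eq_of_ne (Ne.symm h), map_zero, if_neg h]
    simp

theorem IK_of_h2 {δ : ℕ} (hG : ProFree p δ G) {ι : Type} [Fintype ι] (ρ : ι → G) {k : ℕ}
    (χ : Fin k → Z1 p G) (hχ : ∀ j i, (χ j : G → ℤ_[p]) (ρ i) = 0)
    (hi : Indep p ⊤ (fun i => (χ i : G → ℤ_[p])))
    (h : h2 p ρ (fun _ => 0) (Jlev p ⊤ (fun i => (χ i : G → ℤ_[p])) 1) =
      h2 p ρ (fun _ => 0) ⊤) : IK p ρ (fun j => redp p (χ j : G → ℤ_[p])) := by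
  rw [IKm_codim hG ρ χ hχ hi 1, IKm_h2_top hG ρ χ hχ hi] at h
  have h1 : finrank (ZMod p) ((Dm ρ (Tm p χ 1)).restrictScalars (ZMod p) ⊓
      (IKmM (p := p) ι (Fin k → ZMod (p ^ 1))).restrictScalars (ZMod p) :
        Submodule (ZMod p) _) =
      finrank (ZMod p) ((IKmM (p := p) ι (Fin k → ZMod (p ^ 1))).restrictScalars (ZMod p)) := by
    omega
  have h2 := Submodule.eq_of_le_of_finrank_eq inf_le_right h1
  have h3 : (IKmM (p := p) ι (Fin k → ZMod (p ^ 1))).restrictScalars (ZMod p) ≤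
      (Dm ρ (Tm p χ 1)).restrictScalars (ZMod p) := inf_eq_right.1 h2
  intro c
  have hv : (fun i => ∑ j, c j i • tt p (Pi.single j (1 : ZMod (p ^ 1)))) ∈
      (IKmM (p := p) ι (Fin k → ZMod (p ^ 1))).restrictScalars (ZMod p) :=
    fun i => IKm_sum_mem _
  obtain ⟨Θ, hΘ, hΘv⟩ := h3 hv
  refine ⟨fun x => aug p (Θ x), ⟨⟨hΘ.1.comp _, fun x y => ?_⟩, fun i => ?_⟩,
    fun j x => (IKmDual j (Θ x)).snd,
    fun j => ⟨hΘ.1.comp (fun b => (IKmDual j b).snd), fun x y => ?_⟩, fun j i => ?_⟩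
  · show aug p (Θ (x * y)) = aug p (Θ x) + aug p (Θ y)
    rw [hΘ.2, map_add, map_mul, Tm, aug_TA, one_mul]
  · show aug p (Θ (ρ i)) = 0
    rw [hΘv i]
    exact IKm_sum_mem _
  · show (IKmDual j (Θ (x * y))).snd = (IKmDual j (Θ x)).snd + (IKmDual j (Θ y)).snd +
      redp p (χ j : G → ℤ_[p]) x * aug p (Θ y)
    rw [hΘ.2, map_add, map_mul, IKmDual_T, ← IKmDual_fst j (Θ y)]
    simp
    ring
  · show (IKmDual j (Θ (ρ i))).snd = c j i
    rw [hΘv i, map_sum]
    rw [show (∑ x, IKmDual j (c x i • tt p (Pi.single x (1 : ZMod (p ^ 1))))).snd =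
      ∑ x, (IKmDual j (c x i • tt p (Pi.single x (1 : ZMod (p ^ 1))))).snd from
      map_sum (TrivSqZeroExt.sndHom (ZMod p) (ZMod p)) _ _]
    simp only [map_smul, TrivSqZeroExt.snd_smul, IKmDual_tt]
    simp

end Pool.Agent.RFA
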