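import Pool.Agent.RFA.Growth

set_option autoImplicit false
set_option linter.unusedSectionVars false
set_option linter.unusedVariables false

namespace Pool.Agent.RFA

open Topology Module

variable {p : ℕ} [Fact p.Prime] {G : Type} [Group G] [TopologicalSpace G] [IsTopologicalGroup G]

omit [IsTopologicalGroup G] in
theorem Jl_one {R V : Subgroup G} {φ : G → ℤ_[p]} (h : IsZ p R V φ) : φ 1 = 0 := by
  have := h.mul 1 V.one_mem 1 V.one_mem
  rw [mul_one] at this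
  simpa using this

omit [IsTopologicalGroup G] in
theorem Jl_inv {R V : Subgroup G} {φ : G → ℤ_[p]} (h : IsZ p R V φ) {x : G} (hx : x ∈ V) :
    φ x⁻¹ = -φ x := by
  have := h.mul x hx x⁻¹ (V.inv_mem hx)
  rw [mul_inv_cancel, Jl_one h] at this
  exact (neg_eq_of_add_eq_zero_right this.symm).symm

omit [IsTopologicalGroup G] in
theorem Jl_pow {R V : Subgroup G} {φ : G → ℤ_[p]} (h : IsZ p R V φ) {x : G} (hx : x ∈ V)
    (n : ℕ) : φ (x ^ n) = n * φ x := by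
  induction n with
  | zero => simp [Jl_one h]
  | succ n ih =>
    rw [pow_succ, h.mul _ (V.pow_mem hx n) _ hx, ih]
    push_cast; ring

/-- the underlying subgroup of `Jlev` -/
def Jl_sub {R V : Subgroup G} {k : ℕ} {χ : Fin k → G → ℤ_[p]}
    (hχ : ∀ i, IsZ p R V (χ i)) (m : ℕ) : Subgroup G where
  carrier := {x | x ∈ V ∧ ∀ i, (p : ℤ_[p]) ^ m ∣ χ i x}
  one_mem' := ⟨V.one_mem, fun i => by rw [Jl_one (hχ i)]; exact dvd_zero _⟩
  mul_mem' := by
    rintro x y ⟨hx, hx'⟩ ⟨hy, hy'⟩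
    exact ⟨V.mul_mem hx hy, fun i => by rw [(hχ i).mul x hx y hy]; exact dvd_add (hx' i) (hy' i)⟩
  inv_mem' := by
    rintro x ⟨hx, hx'⟩
    exact ⟨V.inv_mem hx, fun i => by rw [Jl_inv (hχ i) hx]; exact (dvd_neg).2 (hx' i)⟩

theorem mem_Jlev {R V : Subgroup G} {k : ℕ} {χ : Fin k → G → ℤ_[p]}
    (hχ : ∀ i, IsZ p R V (χ i)) (m : ℕ) (x : G) :
    x ∈ Jlev p V χ m ↔ x ∈ V ∧ ∀ i, (p : ℤ_[p]) ^ m ∣ χ i x := by
  have : Jlev p V χ m = Jl_sub hχ m := Subgroup.closure_eq (Jl_sub hχ m)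
  rw [this]
  rfl

theorem Jl_le {R V : Subgroup G} {k : ℕ} {χ : Fin k → G → ℤ_[p]}
    (hχ : ∀ i, IsZ p R V (χ i)) (m : ℕ) : Jlev p V χ m ≤ V :=
  fun x hx => ((mem_Jlev hχ m x).1 hx).1

theorem Jl_rel_le {R V : Subgroup G} {k : ℕ} {χ : Fin k → G → ℤ_[p]}
    (hχ : ∀ i, IsZ p R V (χ i)) (hR : R ≤ V) (m : ℕ) : R ≤ Jlev p V χ m :=
  fun x hx => (mem_Jlev hχ m x).2 ⟨hR hx, fun i => by rw [(hχ i).rel x hx]; exact dvd_zero _⟩

theorem Jl_anti {R V : Subgroup G} {k : ℕ} {χ : Fin k → G → ℤ_[p]}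
    (hχ : ∀ i, IsZ p R V (χ i)) {m n : ℕ} (h : m ≤ n) : Jlev p V χ n ≤ Jlev p V χ m :=
  fun x hx => (mem_Jlev hχ m x).2 ⟨((mem_Jlev hχ n x).1 hx).1, fun i =>
    (pow_dvd_pow _ h).trans (((mem_Jlev hχ n x).1 hx).2 i)⟩

theorem Jl_isOpen_dvd (m : ℕ) : IsOpen {z : ℤ_[p] | (p : ℤ_[p]) ^ m ∣ z} := by
  have h : {z : ℤ_[p] | (p : ℤ_[p]) ^ m ∣ z} = {z | ‖z‖ < (p : ℝ) ^ (-(m : ℤ) + 1)} := by
    ext z
    rw [Set.mem_ofPred_eq, Set.mem_ofPred_eq, ← PadicInt.norm_le_pow_iff_norm_lt_pow_add_one,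
      ← Ideal.mem_span_singleton, PadicInt.norm_le_pow_iff_mem_span_pow]
  rw [h]
  exact isOpen_lt continuous_norm continuous_const

theorem Jlev_open {δ : ℕ} (hG : ProFree p δ G) {R V : Subgroup G} (hV : IsOpen (V : Set G))
    {k : ℕ} {χ : Fin k → G → ℤ_[p]} (hχ : ∀ i, IsZ p R V (χ i)) (m : ℕ) :
    IsOpen (Jlev p V χ m : Set G) := by
  have h : (Jlev p V χ m : Set G) =
      (V : Set G) ∩ ⋂ i, ((V : Set G) ∩ χ i ⁻¹' {z : ℤ_[p] | (p : ℤ_[p]) ^ m ∣ z}) := by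
    ext x
    simp only [SetLike.mem_coe, mem_Jlev hχ m x, Set.mem_inter_iff, Set.mem_iInter,
      Set.mem_preimage, Set.mem_ofPred_eq]
    constructor
    · rintro ⟨h1, h2⟩
      exact ⟨h1, fun i => ⟨h1, h2 i⟩⟩
    · rintro ⟨h1, h2⟩
      exact ⟨h1, fun i => (h2 i).2⟩
  rw [h]
  exact hV.inter (isOpen_iInter_of_finite fun i =>
    (hχ i).cont.isOpen_inter_preimage hV (Jl_isOpen_dvd m))

theorem Jlev_adm {δ : ℕ} (hG : ProFree p δ G) {I : Type} {r : I → G} {e : I → ℕ}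
    {V : Subgroup G} (hV : Adm p r e V) {k : ℕ} {χ : Fin k → G → ℤ_[p]}
    (hχ : ∀ i, IsZ p (Rel p r e) V (χ i)) (m : ℕ) : Adm p r e (Jlev p V χ m) :=
  hV.mono (Jl_le hχ m) (Jl_rel_le hχ hV.rel_le m) (Jlev_open hG hV.isOpen hχ m)

theorem Jl_surj_one {R V : Subgroup G} {k : ℕ} {χ : Fin k → G → ℤ_[p]}
    (hχ : ∀ i, IsZ p R V (χ i)) (hi : Indep p V χ) (v : Fin k → ZMod p) :
    ∃ x ∈ V, ∀ i, PadicInt.toZMod (χ i x) = v i := by
  classical
  let H : AddSubgroup (Fin k → ZMod p) :=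
    { carrier := {w | ∃ x ∈ V, ∀ i, PadicInt.toZMod (χ i x) = w i}
      zero_mem' := ⟨1, V.one_mem, fun i => by rw [Jl_one (hχ i)]; simp⟩
      add_mem' := by
        rintro a b ⟨x, hx, hx'⟩ ⟨y, hy, hy'⟩
        exact ⟨x * y, V.mul_mem hx hy, fun i => by
          rw [(hχ i).mul x hx y hy, map_add, hx' i, hy' i]; rfl⟩
      neg_mem' := by
        rintro a ⟨x, hx, hx'⟩
        exact ⟨x⁻¹, V.inv_mem hx, fun i => by
          rw [Jl_inv (hχ i) hx, map_neg, hx' i]; rfl⟩ }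
  let S : Submodule (ZMod p) (Fin k → ZMod p) :=
    { H.toAddSubmonoid with
      smul_mem' := fun c x hx => by
        have h : x ∈ H := hx
        exact ZMod.smul_mem h c }
  have hS : S = ⊤ := by
    by_contra hne
    obtain ⟨f, hf, hf'⟩ := Submodule.exists_le_ker_of_lt_top S (lt_top_iff_ne_top.2 hne)
    apply hf
    have hc := hi (fun i => f (Pi.single i 1)) (fun x hx => by
      have hx' : (fun i => PadicInt.toZMod (χ i x)) ∈ S := ⟨x, hx, fun i => rfl⟩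
      have := hf' hx'
      rw [LinearMap.mem_ker] at this
      rw [← this]
      conv_rhs => rw [← Finset.univ_sum_single (fun i => PadicInt.toZMod (χ i x)), map_sum]
      refine Finset.sum_congr rfl fun i _ => ?_
      rw [mul_comm, ← smul_eq_mul, ← map_smul, ← Pi.single_smul, smul_eq_mul, mul_one])
    refine LinearMap.pi_ext' fun i => LinearMap.ext_ring ?_
    have := congrFun hc i
    simpa using this
  have hv : v ∈ S := hS ▸ Submodule.mem_top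
  exact hv

/-- `χ(V)` is dense -/
theorem Jl_surj {R V : Subgroup G} {k : ℕ} {χ : Fin k → G → ℤ_[p]}
    (hχ : ∀ i, IsZ p R V (χ i)) (hi : Indep p V χ) (m : ℕ) (v : Fin k → ℤ_[p]) :
    ∃ x ∈ V, ∀ i, (p : ℤ_[p]) ^ m ∣ χ i x - v i := by
  induction m with
  | zero => exact ⟨1, V.one_mem, fun i => by simp⟩
  | succ m ih =>
    obtain ⟨x, hx, hx'⟩ := ih
    choose w hw using hx'
    obtain ⟨y, hy, hy'⟩ := Jl_surj_one hχ hi (fun i => PadicInt.toZMod (w i))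
    refine ⟨x * y⁻¹ ^ p ^ m, V.mul_mem hx (V.pow_mem (V.inv_mem hy) _), fun i => ?_⟩
    rw [(hχ i).mul _ hx _ (V.pow_mem (V.inv_mem hy) _), Jl_pow (hχ i) (V.inv_mem hy),
      Jl_inv (hχ i) hy]
    have h1 : (p : ℤ_[p]) ∣ w i - χ i y := by
      have : PadicInt.toZMod (w i - χ i y) = 0 := by rw [map_sub, hy' i, sub_self]
      rw [← RingHom.mem_ker, PadicInt.ker_toZMod, PadicInt.maximalIdeal_eq_span_p,
        Ideal.mem_span_singleton] at this
      exact this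
    obtain ⟨t, ht⟩ := h1
    refine ⟨t, ?_⟩
    have h2 := hw i
    push_cast
    rw [pow_succ, mul_assoc, ← ht]
    linear_combination h2

/-- independence mod `p` means that `χ` is onto modulo every `p ^ m` -/
theorem Indep.surj {δ : ℕ} (hG : ProFree p δ G) {R V : Subgroup G} (hV : IsOpen (V : Set G))
    {k : ℕ} {χ : Fin k → G → ℤ_[p]} (hχ : ∀ i, IsZ p R V (χ i)) (hi : Indep p V χ) (m : ℕ)
    (v : Fin k → ZMod (p ^ m)) : ∃ x ∈ V, ∀ i, PadicInt.toZModPow m (χ i x) = v i := by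
  have hs : ∀ i, ∃ w : ℤ_[p], PadicInt.toZModPow m w = v i := fun i =>
    ZMod.ringHom_surjective _ (v i)
  choose w hw using hs
  obtain ⟨x, hx, hx'⟩ := Jl_surj hχ hi m w
  refine ⟨x, hx, fun i => ?_⟩
  rw [← hw i, ← sub_eq_zero, ← map_sub, ← RingHom.mem_ker, PadicInt.ker_toZModPow,
    Ideal.mem_span_singleton]
  exact hx' i

theorem Jlev_relIndex {δ : ℕ} (hG : ProFree p δ G) {R V : Subgroup G} (hV : IsOpen (V : Set G))
    {k : ℕ} {χ : Fin k → G → ℤ_[p]} (hχ : ∀ i, IsZ p R V (χ i)) (hi : Indep p V χ) (m : ℕ) :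
    (Jlev p V χ m).index = V.index * p ^ (k * m) := by
  have hle := Jl_le hχ m
  rw [← Subgroup.relIndex_mul_index hle, mul_comm]
  congr 1
  let f : ↥V →* Multiplicative (Fin k → ZMod (p ^ m)) :=
    { toFun := fun x => Multiplicative.ofAdd fun i => PadicInt.toZModPow m (χ i x)
      map_one' := by
        rw [← ofAdd_zero]; congr 1; funext i
        rw [OneMemClass.coe_one, Jl_one (hχ i), map_zero]; rfl
      map_mul' := fun x y => by
        rw [← ofAdd_add]; congr 1; funext i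
        rw [Subgroup.coe_mul, (hχ i).mul x x.2 y y.2, map_add]; rfl }
  have hf : Function.Surjective f := fun v => by
    obtain ⟨x, hx, hx'⟩ := Indep.surj hG hV hχ hi m (Multiplicative.toAdd v)
    refine ⟨⟨x, hx⟩, ?_⟩
    change Multiplicative.ofAdd (fun i => PadicInt.toZModPow m (χ i x)) = v
    rw [show (fun i => PadicInt.toZModPow m (χ i x)) = Multiplicative.toAdd v from funext hx']
    rfl
  have hker : (Jlev p V χ m).subgroupOf V = f.ker := by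
    ext x
    rw [Subgroup.mem_subgroupOf, mem_Jlev hχ m, MonoidHom.mem_ker]
    constructor
    · rintro ⟨_, h⟩
      change Multiplicative.ofAdd (fun i => PadicInt.toZModPow m (χ i x)) = 1
      rw [← ofAdd_zero]; congr 1; funext i
      change PadicInt.toZModPow m (χ i x) = 0
      rw [← RingHom.mem_ker, PadicInt.ker_toZModPow, Ideal.mem_span_singleton]
      exact h i
    · intro h
      refine ⟨x.2, fun i => ?_⟩
      have := congrFun (Multiplicative.ofAdd.injective (h.trans ofAdd_zero.symm)) i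
      change PadicInt.toZModPow m (χ i x) = 0 at this
      rw [← RingHom.mem_ker, PadicInt.ker_toZModPow, Ideal.mem_span_singleton] at this
      exact this
  rw [Subgroup.relIndex, hker, Subgroup.index_ker, MonoidHom.range_eq_top.2 hf,
    Subgroup.card_top]
  have : NeZero (p ^ m) := ⟨pow_ne_zero _ (Fact.out : p.Prime).ne_zero⟩
  rw [show Nat.card (Multiplicative (Fin k → ZMod (p ^ m))) = Nat.card (Fin k → ZMod (p ^ m)) from
    rfl, Nat.card_eq_fintype_card, Fintype.card_fun, Fintype.card_fin, ZMod.card, ← pow_mul,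
    mul_comm]

theorem IsZ.mono {R V V' : Subgroup G} {φ : G → ℤ_[p]} (h : IsZ p R V φ) (hle : V' ≤ V) :
    IsZ p R V' φ :=
  ⟨h.cont.mono hle, fun x hx y hy => h.mul x (hle hx) y (hle hy), h.rel⟩

theorem IsZ.comb {R V : Subgroup G} {φ ψ : G → ℤ_[p]} (h : IsZ p R V φ) (h' : IsZ p R V ψ)
    (a b : ℤ_[p]) : IsZ p R V (fun x => a * φ x + b * ψ x) :=
  ⟨(continuousOn_const.mul h.cont).add (continuousOn_const.mul h'.cont),
    fun x hx y hy => by rw [h.mul x hx y hy, h'.mul x hx y hy]; ring,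
    fun x hx => by rw [h.rel x hx, h'.rel x hx]; ring⟩

omit [IsTopologicalGroup G] in
theorem Jl_p_ne (m : ℕ) : (p : ℤ_[p]) ^ m ≠ 0 :=
  pow_ne_zero _ (by exact_mod_cast (Fact.out : p.Prime).ne_zero)

theorem Jl_divp_spec {m : ℕ} {z : ℤ_[p]} (h : (p : ℤ_[p]) ^ m ∣ z) :
    z = (p : ℤ_[p]) ^ m * divp p m z := by
  unfold divp
  rw [dif_pos h]
  exact Classical.choose_spec h

theorem Jl_divp_eq {m : ℕ} {z w : ℤ_[p]} (h : z = (p : ℤ_[p]) ^ m * w) : divp p m z = w := by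
  have := Jl_divp_spec (Dvd.intro _ h.symm)
  exact mul_left_cancel₀ (Jl_p_ne m) (this.symm.trans h)

theorem Jl_divp_continuousOn (m : ℕ) :
    ContinuousOn (divp p m) {z : ℤ_[p] | (p : ℤ_[p]) ^ m ∣ z} := by
  rw [Metric.continuousOn_iff]
  intro b hb ε hε
  have hp : (0 : ℝ) < ‖(p : ℤ_[p]) ^ m‖ := norm_pos_iff.2 (Jl_p_ne m)
  refine ⟨‖(p : ℤ_[p]) ^ m‖ * ε, mul_pos hp hε, fun a ha hab => ?_⟩
  rw [dist_eq_norm] at hab ⊢
  have h1 := Jl_divp_spec (p := p) (m := m) (z := a) ha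
  have h2 := Jl_divp_spec (p := p) (m := m) (z := b) hb
  have h3 : a - b = (p : ℤ_[p]) ^ m * (divp p m a - divp p m b) := by
    rw [mul_sub, ← h1, ← h2]
  rw [h3, norm_mul] at hab
  exact lt_of_mul_lt_mul_left hab hp.le

/-- division by `p ^ m` on `J_m` -/
theorem IsZ.divp {R V : Subgroup G} {k : ℕ} {χ : Fin k → G → ℤ_[p]}
    (hχ : ∀ i, IsZ p R V (χ i)) (m : ℕ) (i : Fin k) :
    IsZ p R (Jlev p V χ m) (fun x => divp p m (χ i x)) ∧
      ∀ x ∈ Jlev p V χ m, χ i x = (p : ℤ_[p]) ^ m * divp p m (χ i x) := by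
  have hs : ∀ x ∈ Jlev p V χ m, χ i x = (p : ℤ_[p]) ^ m * RFA.divp p m (χ i x) := fun x hx =>
    Jl_divp_spec (((mem_Jlev hχ m x).1 hx).2 i)
  refine ⟨⟨?_, ?_, ?_⟩, hs⟩
  · exact (Jl_divp_continuousOn m).comp ((hχ i).cont.mono (Jl_le hχ m))
      (fun x hx => ((mem_Jlev hχ m x).1 hx).2 i)
  · intro x hx y hy
    refine Jl_divp_eq ?_
    rw [(hχ i).mul x (Jl_le hχ m hx) y (Jl_le hχ m hy), mul_add, ← hs x hx, ← hs y hy]
  · intro x hx
    refine Jl_divp_eq ?_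
    rw [(hχ i).rel x hx, mul_zero]

theorem Jl_toZMod_eq_of_dvd {a b : ℤ_[p]} (h : (p : ℤ_[p]) ∣ a - b) :
    PadicInt.toZMod a = PadicInt.toZMod b := by
  rw [← sub_eq_zero, ← map_sub, ← RingHom.mem_ker, PadicInt.ker_toZMod,
    PadicInt.maximalIdeal_eq_span_p, Ideal.mem_span_singleton]
  exact h

theorem Jl_toZMod_eq_zero {a : ℤ_[p]} : PadicInt.toZMod a = 0 ↔ (p : ℤ_[p]) ∣ a := by
  rw [← RingHom.mem_ker, PadicInt.ker_toZMod,
    PadicInt.maximalIdeal_eq_span_p, Ideal.mem_span_singleton]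

theorem Jl_toZMod_surj (c : ZMod p) : ∃ z : ℤ_[p], PadicInt.toZMod z = c :=
  ZMod.ringHom_surjective _ c

/-- onto mod `p` implies independent -/
theorem Jl_indep_of_surj {V : Subgroup G} {k : ℕ} {χ : Fin k → G → ℤ_[p]}
    (h : ∀ v : Fin k → ZMod p, ∃ x ∈ V, ∀ i, PadicInt.toZMod (χ i x) = v i) : Indep p V χ := by
  classical
  intro c hc
  funext j
  obtain ⟨x, hx, hx'⟩ := h (Pi.single j 1)
  have := hc x hx
  simp only [hx'] at this
  rw [Finset.sum_eq_single j] at this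
  · simpa using this
  · intro i _ hij
    rw [Pi.single_eq_of_ne hij, mul_zero]
  · intro hj
    exact absurd (Finset.mem_univ j) hj

theorem Indep.divp {δ : ℕ} (hG : ProFree p δ G) {R V : Subgroup G} (hV : IsOpen (V : Set G))
    {k : ℕ} {χ : Fin k → G → ℤ_[p]} (hχ : ∀ i, IsZ p R V (χ i)) (hi : Indep p V χ) (m : ℕ) :
    Indep p (Jlev p V χ m) (fun i x => divp p m (χ i x)) := by
  refine Jl_indep_of_surj fun v => ?_
  choose w hw using fun i => Jl_toZMod_surj (v i)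
  obtain ⟨x, hx, hx'⟩ := Jl_surj hχ hi (m + 1) (fun i => (p : ℤ_[p]) ^ m * w i)
  choose t ht using hx'
  have h1 : ∀ i, χ i x = (p : ℤ_[p]) ^ m * (w i + p * t i) := fun i => by
    have := ht i
    rw [pow_succ] at this
    linear_combination this
  refine ⟨x, (mem_Jlev hχ m x).2 ⟨hx, fun i => Dvd.intro _ (h1 i).symm⟩, fun i => ?_⟩
  rw [Jl_divp_eq (h1 i), ← hw i]
  exact Jl_toZMod_eq_of_dvd ⟨t i, by ring⟩

theorem Jlev_Jlev {R V : Subgroup G} {k : ℕ} {χ : Fin k → G → ℤ_[p]}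
    (hχ : ∀ i, IsZ p R V (χ i)) (m n : ℕ) :
    Jlev p (Jlev p V χ m) (fun i x => divp p m (χ i x)) n = Jlev p V χ (m + n) := by
  ext x
  rw [mem_Jlev (fun i => (IsZ.divp hχ m i).1), mem_Jlev hχ, mem_Jlev hχ]
  constructor
  · rintro ⟨⟨h1, h2⟩, h3⟩
    refine ⟨h1, fun i => ?_⟩
    rw [Jl_divp_spec (h2 i), pow_add]
    exact mul_dvd_mul_left _ (h3 i)
  · rintro ⟨h1, h2⟩
    have h3 : ∀ i, (p : ℤ_[p]) ^ m ∣ χ i x := fun i =>
      (Dvd.intro _ (pow_add (p : ℤ_[p]) m n).symm).trans (h2 i)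
    refine ⟨⟨h1, h3⟩, fun i => ?_⟩
    have := h2 i
    rw [Jl_divp_spec (h3 i), pow_add] at this
    exact (mul_dvd_mul_iff_left (Jl_p_ne m)).1 this

/-- restriction of a character on `V` to the type `↥V` -/
def IsZ.toZ1 {R V : Subgroup G} {φ : G → ℤ_[p]} (h : IsZ p R V φ) : Z1 p ↥V :=
  ⟨fun x => φ x, continuousOn_iff_continuous_restrict.1 h.cont, fun x y => h.mul x x.2 y y.2⟩

/-- characters on subgroups of `↥V` extended to `G` -/
theorem IsZ.extend {R V : Subgroup G} (hV : IsOpen (V : Set G)) (hRV : R ≤ V)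
    (J : Subgroup ↥V) (φ : ↥V → ℤ_[p]) (h : IsZ p (R.subgroupOf V) J φ) :
    ∃ φ' : G → ℤ_[p], IsZ p R (J.map V.subtype) φ' ∧ ∀ x : ↥V, φ' x = φ x := by
  classical
  have hφ : ∀ x : ↥V, (fun x : G => if h : x ∈ V then φ ⟨x, h⟩ else 0) (x : G) = φ x :=
    fun x => dif_pos x.2
  refine ⟨fun x => if h : x ∈ V then φ ⟨x, h⟩ else 0, ⟨?_, ?_, ?_⟩, hφ⟩
  · rintro _ ⟨x, hx, rfl⟩
    have h1 := h.cont x hx
    have h2 : ContinuousWithinAt ((fun x : G => if h : x ∈ V then φ ⟨x, h⟩ else 0) ∘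
        (Subtype.val : ↥V → G)) J x := by
      refine h1.congr (fun y _ => hφ y) (hφ x)
    have h3 : IsOpenEmbedding (Subtype.val : ↥V → G) := hV.isOpenEmbedding_subtypeVal
    rw [ContinuousWithinAt] at h2 ⊢
    have h4 : 𝓝[(J.map V.subtype : Subgroup G)] (V.subtype x) =
        Filter.map (Subtype.val : ↥V → G) (𝓝[(J : Set ↥V)] x) := by
      rw [h3.map_nhdsWithin_eq]
      rfl
    rw [h4]
    exact h2
  · rintro _ ⟨x, hx, rfl⟩ _ ⟨y, hy, rfl⟩
    have := h.mul x hx y hy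
    exact (hφ (x * y)).trans (this.trans (congrArg₂ (· + ·) (hφ x).symm (hφ y).symm))
  · intro x hx
    have := h.rel ⟨x, hRV hx⟩ (Subgroup.mem_subgroupOf.2 hx)
    exact (hφ ⟨x, hRV hx⟩).trans this

theorem IsZ.restrict {R V : Subgroup G} (J : Subgroup ↥V) (φ : G → ℤ_[p])
    (h : IsZ p R (J.map V.subtype) φ) : IsZ p (R.subgroupOf V) J (fun x => φ x) :=
  ⟨h.cont.comp continuous_subtype_val.continuousOn
      (fun x hx => Subgroup.mem_map_of_mem V.subtype hx),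
    fun x hx y hy => h.mul x (Subgroup.mem_map_of_mem V.subtype hx) y
      (Subgroup.mem_map_of_mem V.subtype hy),
    fun x hx => h.rel x (Subgroup.mem_subgroupOf.1 hx)⟩

theorem indep_sub {V : Subgroup G} {k : ℕ} (χ : Fin k → G → ℤ_[p]) (J : Subgroup ↥V) :
    Indep p J (fun i (x : ↥V) => χ i x) ↔ Indep p (J.map V.subtype) χ := by
  constructor
  · intro h c hc
    exact h c fun x hx => hc x (Subgroup.mem_map_of_mem V.subtype hx)
  · intro h c hc
    refine h c ?_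
    rintro _ ⟨x, hx, rfl⟩
    exact hc x hx

theorem Jlev_map {R V : Subgroup G} {k : ℕ} {χ : Fin k → G → ℤ_[p]}
    (J : Subgroup ↥V) (hχ : ∀ i, IsZ p R (J.map V.subtype) (χ i)) (m : ℕ) :
    (Jlev p J (fun i (x : ↥V) => χ i x) m).map V.subtype =
      Jlev p (J.map V.subtype) χ m := by
  ext x
  rw [mem_Jlev hχ]
  constructor
  · rintro ⟨y, hy, rfl⟩
    have := (mem_Jlev (fun i => IsZ.restrict J (χ i) (hχ i)) m y).1 hy
    exact ⟨Subgroup.mem_map_of_mem V.subtype this.1, this.2⟩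
  · rintro ⟨⟨y, hy, rfl⟩, h⟩
    exact ⟨y, (mem_Jlev (fun i => IsZ.restrict J (χ i) (hχ i)) m y).2 ⟨hy, h⟩, rfl⟩

/-- bounded certificates restrict to open subgroups -/
theorem Bdd.sub {δ : ℕ} (hG : ProFree p δ G) {I : Type} [Fintype I] {r : I → G} {e : I → ℕ}
    {V V' : Subgroup G} (hV : Adm p r e V) (hV' : Adm p r e V') (hle : V' ≤ V) {k : ℕ}
    {χ : Fin k → G → ℤ_[p]} (hχ : ∀ i, IsZ p (Rel p r e) V (χ i)) (hb : Bdd p r e V χ) :
    Bdd p r e V' χ := by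
  obtain ⟨C, hC⟩ := hb
  have hχ' : ∀ i, IsZ p (Rel p r e) V' (χ i) := fun i => (hχ i).mono hle
  have hfin : V'.FiniteIndex := hG.finiteIndex V' hV'.isOpen
  refine ⟨(V'.index : ℤ) * C, fun m => ?_⟩
  have hle' : Jlev p V' χ m ≤ Jlev p V χ m := fun x hx =>
    (mem_Jlev hχ m x).2 ⟨hle ((mem_Jlev hχ' m x).1 hx).1, ((mem_Jlev hχ' m x).1 hx).2⟩
  have h1 := h2_growth hG r e (Jlev p V χ m) (Jlev p V' χ m) (Jlev_adm hG hV hχ m)
    (Jlev_adm hG hV' hχ' m) hle'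
  have h2' : (Jlev p V' χ m).relIndex (Jlev p V χ m) ≤ V'.index := by
    have h3 : Jlev p V' χ m = V' ⊓ Jlev p V χ m := by
      ext x
      rw [Subgroup.mem_inf, mem_Jlev hχ, mem_Jlev hχ']
      exact ⟨fun h => ⟨h.1, hle h.1, h.2⟩, fun h => ⟨h.1, h.2.2⟩⟩
    rw [h3, Subgroup.inf_relIndex_right]
    rw [← Subgroup.relIndex_top_right]
    refine Subgroup.relIndex_le_of_le_right le_top ?_
    rw [Subgroup.relIndex_top_right]
    exact hfin.index_ne_zero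
  have h4 := h2_nonneg hG r e _ (Jlev_adm hG hV hχ m)
  calc _ ≤ _ := h1
    _ ≤ (V'.index : ℤ) * h2 p r e (Jlev p V χ m) := by
        apply mul_le_mul_of_nonneg_right _ h4
        exact_mod_cast h2'
    _ ≤ _ := by
        apply mul_le_mul_of_nonneg_left (hC m)
        positivity

/-- domination -/
theorem Bdd.dom {δ : ℕ} (hG : ProFree p δ G) {I : Type} [Fintype I] {r : I → G} {e : I → ℕ}
    {V : Subgroup G} (hV : Adm p r e V) {k k' : ℕ} {χ : Fin k → G → ℤ_[p]}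
    {χ' : Fin k' → G → ℤ_[p]} (hχ : ∀ i, IsZ p (Rel p r e) V (χ i))
    (hχ' : ∀ i, IsZ p (Rel p r e) V (χ' i)) (c : ℕ)
    (hd : ∀ m, Jlev p V χ (m + c) ≤ Jlev p V χ' m) (hb : Bdd p r e V χ) :
    Bdd p r e V χ' := by
  obtain ⟨C, hC⟩ := hb
  exact ⟨C, fun m => (h2_mono hG r e _ _ (Jlev_adm hG hV hχ' m) (Jlev_adm hG hV hχ (m + c))
    (hd m)).trans (hC (m + c))⟩

/-- stabilisation of `h2` along the tower -/
theorem Bdd.stab {δ : ℕ} (hG : ProFree p δ G) {I : Type} [Fintype I] {r : I → G} {e : I → ℕ}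
    {V : Subgroup G} (hV : Adm p r e V) {k : ℕ} {χ : Fin k → G → ℤ_[p]}
    (hχ : ∀ i, IsZ p (Rel p r e) V (χ i)) (hb : Bdd p r e V χ) :
    ∃ m₀, ∀ m ≥ m₀, h2 p r e (Jlev p V χ m) = h2 p r e (Jlev p V χ m₀) := by
  obtain ⟨C, hC⟩ := hb
  have hmono : ∀ m n, m ≤ n → h2 p r e (Jlev p V χ m) ≤ h2 p r e (Jlev p V χ n) := fun m n hmn =>
    h2_mono hG r e _ _ (Jlev_adm hG hV hχ m) (Jlev_adm hG hV hχ n) (Jl_anti hχ hmn)
  obtain ⟨M, ⟨m₀, hm₀⟩, hM⟩ := Int.exists_greatest_of_bdd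
    (P := fun z => ∃ m, h2 p r e (Jlev p V χ m) = z)
    ⟨C, fun z ⟨m, hm⟩ => hm ▸ hC m⟩ ⟨_, 0, rfl⟩
  refine ⟨m₀, fun m hm => le_antisymm ?_ (hmono _ _ hm)⟩
  rw [hm₀]
  exact hM _ ⟨m, rfl⟩

/-- one step of `renorm` -/
theorem Jl_renorm_one {R V V₁ : Subgroup G} {k : ℕ} {χ : Fin k → G → ℤ_[p]}
    (hχ : ∀ i, IsZ p R V (χ i)) (hi : Indep p V χ) (f : G → ZMod p)
    (hf : ∀ x ∈ V, ∀ y ∈ V, f (x * y) = f x + f y) (hf0 : ∀ x, x ∈ V₁ ↔ x ∈ V ∧ f x = 0) :
    ∃ (χ' : Fin k → G → ℤ_[p]) (c : ℕ), (∀ i, IsZ p R V₁ (χ' i)) ∧ Indep p V₁ χ' ∧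
      ∀ m, Jlev p V₁ χ (m + c) ≤ Jlev p V₁ χ' m := by
  classical
  have hle : V₁ ≤ V := fun x hx => ((hf0 x).1 hx).1
  by_cases hi₁ : Indep p V₁ χ
  · exact ⟨χ, 0, fun i => (hχ i).mono hle, hi₁, fun m => le_rfl⟩
  have hc0 : ∃ c : Fin k → ZMod p, (∀ x ∈ V₁, ∑ i, c i * PadicInt.toZMod (χ i x) = 0) ∧
      c ≠ 0 := by
    by_contra hcon
    push Not at hcon
    exact hi₁ fun c hc => hcon c hc
  obtain ⟨c, hc, hcne⟩ := hc0
  obtain ⟨i₀, hi₀⟩ := Function.ne_iff.1 hcne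
  have hi₀' : c i₀ ≠ 0 := hi₀
  -- lifts
  choose l hl using fun i => Jl_toZMod_surj (p := p) (c i / c i₀)
  let ct : Fin k → ℤ_[p] := fun i => if i = i₀ then 1 else l i
  have hct0 : ct i₀ = 1 := if_pos rfl
  have hct : ∀ i, PadicInt.toZMod (ct i) = c i / c i₀ := by
    intro i
    by_cases h : i = i₀
    · subst h
      rw [hct0, map_one, div_self hi₀']
    · change PadicInt.toZMod (if i = i₀ then 1 else l i) = _
      rw [if_neg h, hl]
  let ψ : G → ℤ_[p] := fun x => ∑ i, ct i * χ i x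
  have hψ : IsZ p R V ψ := by
    refine ⟨?_, ?_, ?_⟩
    · exact continuousOn_finsetSum _ fun i _ => continuousOn_const.mul (hχ i).cont
    · intro x hx y hy
      change ∑ i, ct i * χ i (x * y) = (∑ i, ct i * χ i x) + ∑ i, ct i * χ i y
      rw [← Finset.sum_add_distrib]
      exact Finset.sum_congr rfl fun i _ => by rw [(hχ i).mul x hx y hy, mul_add]
    · intro x hx
      exact Finset.sum_eq_zero fun i _ => by rw [(hχ i).rel x hx, mul_zero]
  have hψm : ∀ x, PadicInt.toZMod (ψ x) = (c i₀)⁻¹ * ∑ i, c i * PadicInt.toZMod (χ i x) := by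
    intro x
    change PadicInt.toZMod (∑ i, ct i * χ i x) = _
    rw [map_sum, Finset.mul_sum]
    refine Finset.sum_congr rfl fun i _ => ?_
    rw [map_mul, hct i]
    ring
  have hψ1 : ∀ x ∈ V₁, (p : ℤ_[p]) ∣ ψ x := fun x hx => by
    rw [← Jl_toZMod_eq_zero, hψm x, hc x hx, mul_zero]
  obtain ⟨x₀, hx₀, hx₀'⟩ : ∃ x₀ ∈ V, PadicInt.toZMod (ψ x₀) ≠ 0 := by
    by_contra hcon
    push Not at hcon
    apply hcne
    apply hi c
    intro x hx
    have := hcon x hx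
    rw [hψm x] at this
    exact (mul_eq_zero.1 this).resolve_left (inv_ne_zero hi₀')
  have hf1 : f 1 = 0 := by
    have := hf 1 V.one_mem 1 V.one_mem
    rw [mul_one] at this
    simpa using this
  have hfpow : ∀ n : ℕ, ∀ x ∈ V, f (x ^ n) = n * f x := by
    intro n x hx
    induction n with
    | zero => simp [hf1]
    | succ n ih => rw [pow_succ, hf _ (V.pow_mem hx n) _ hx, ih]; push_cast; ring
  have hfx₀ : f x₀ ≠ 0 := by
    intro h
    exact hx₀' (Jl_toZMod_eq_zero.2 (hψ1 x₀ ((hf0 x₀).2 ⟨hx₀, h⟩)))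
  have hV₁ : ∀ x ∈ V, (p : ℤ_[p]) ∣ ψ x → x ∈ V₁ := by
    intro x hx hd
    refine (hf0 x).2 ⟨hx, ?_⟩
    have : NeZero p := ⟨(Fact.out : p.Prime).ne_zero⟩
    set n : ℕ := (-(f x / f x₀)).val with hn
    have hn' : (n : ZMod p) = -(f x / f x₀) := by rw [hn, ZMod.natCast_zmod_val]
    have h1 : x * x₀ ^ n ∈ V₁ := by
      refine (hf0 _).2 ⟨V.mul_mem hx (V.pow_mem hx₀ n), ?_⟩
      rw [hf _ hx _ (V.pow_mem hx₀ n), hfpow n x₀ hx₀, hn', neg_mul, div_mul_cancel₀ _ hfx₀,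
        add_neg_cancel]
    have h2' := Jl_toZMod_eq_zero.2 (hψ1 _ h1)
    rw [hψ.mul _ hx _ (V.pow_mem hx₀ n), Jl_pow hψ hx₀, map_add, Jl_toZMod_eq_zero.2 hd,
      zero_add, map_mul, map_natCast, hn'] at h2'
    have h3 := (mul_eq_zero.1 h2').resolve_right hx₀'
    rw [neg_eq_zero, div_eq_zero_iff] at h3
    exact h3.resolve_right hfx₀
  have hψd : IsZ p R V₁ (fun x => divp p 1 (ψ x)) := by
    have h1 := (IsZ.divp (χ := fun _ : Fin 1 => ψ) (fun _ => hψ) 1 0).1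
    refine h1.mono fun x hx => ?_
    refine (mem_Jlev (fun _ => hψ) 1 x).2 ⟨hle hx, fun _ => ?_⟩
    rw [pow_one]
    exact hψ1 x hx
  refine ⟨Function.update χ i₀ (fun x => divp p 1 (ψ x)), 1, fun i => ?_, ?_, ?_⟩
  · by_cases h : i = i₀
    · subst h
      rw [Function.update_self]
      exact hψd
    · rw [Function.update_of_ne h]
      exact (hχ i).mono hle
  · refine Jl_indep_of_surj fun v => ?_
    choose u hu using fun i => Jl_toZMod_surj (v i)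
    obtain ⟨x, hx, hx'⟩ := Jl_surj hχ hi 2 (Function.update u i₀
      (p * u i₀ - ∑ j ∈ Finset.univ.erase i₀, ct j * u j))
    choose t ht using hx'
    have hψx : ψ x = (p : ℤ_[p]) ^ 1 * (u i₀ + p * ∑ i, ct i * t i) := by
      change ∑ i, ct i * χ i x = _
      have h1 : ∀ i, χ i x = (Function.update u i₀
        (p * u i₀ - ∑ j ∈ Finset.univ.erase i₀, ct j * u j)) i + p ^ 2 * t i := fun i => by
        have := ht i
        linear_combination this
      rw [Finset.sum_congr rfl fun i _ => by rw [h1 i, mul_add], Finset.sum_add_distrib,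
        ← Finset.add_sum_erase _ _ (Finset.mem_univ i₀)]
      have h2 : ∑ j ∈ Finset.univ.erase i₀, ct j * (Function.update u i₀
        (p * u i₀ - ∑ j ∈ Finset.univ.erase i₀, ct j * u j)) j =
          ∑ j ∈ Finset.univ.erase i₀, ct j * u j := by
        refine Finset.sum_congr rfl fun j hj => ?_
        rw [Function.update_of_ne (Finset.ne_of_mem_erase hj)]
      rw [h2, Function.update_self, hct0]
      have h3 : ∑ i, ct i * (p ^ 2 * t i) = p ^ 2 * ∑ i, ct i * t i := by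
        rw [Finset.mul_sum]
        exact Finset.sum_congr rfl fun i _ => by ring
      rw [h3]
      ring
    refine ⟨x, hV₁ x hx (by rw [hψx, pow_one]; exact Dvd.intro _ rfl), fun i => ?_⟩
    by_cases h : i = i₀
    · subst h
      rw [Function.update_self, Jl_divp_eq hψx, ← hu i]
      exact Jl_toZMod_eq_of_dvd ⟨∑ i, ct i * t i, by ring⟩
    · rw [Function.update_of_ne h, ← hu i]
      refine Jl_toZMod_eq_of_dvd ⟨p * t i, ?_⟩
      have := ht i
      rw [Function.update_of_ne h] at this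
      rw [this]
      ring
  · intro m x hx
    have h1 : ∀ i, IsZ p R V₁ (χ i) := fun i => (hχ i).mono hle
    have h2' : ∀ i, IsZ p R V₁ ((Function.update χ i₀ (fun x => divp p 1 (ψ x))) i) := fun i => by
      by_cases h : i = i₀
      · subst h
        rw [Function.update_self]
        exact hψd
      · rw [Function.update_of_ne h]
        exact (hχ i).mono hle
    obtain ⟨hx1, hx2⟩ := (mem_Jlev h1 _ x).1 hx
    refine (mem_Jlev h2' m x).2 ⟨hx1, fun i => ?_⟩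
    by_cases h : i = i₀
    · subst h
      rw [Function.update_self]
      have h3 : (p : ℤ_[p]) ^ (m + 1) ∣ ψ x := Finset.dvd_sum fun j _ => (hx2 j).mul_left _
      have h4 : (p : ℤ_[p]) ^ 1 ∣ ψ x := by rw [pow_one]; exact hψ1 x hx1
      rw [Jl_divp_spec h4, add_comm, pow_add] at h3
      exact (mul_dvd_mul_iff_left (Jl_p_ne 1)).1 h3
    · rw [Function.update_of_ne h]
      exact (pow_dvd_pow _ (Nat.le_succ m)).trans (hx2 i)

theorem Jl_renorm_aux {δ : ℕ} (hG : ProFree p δ G) {R V' : Subgroup G}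
    (hV' : IsOpen (V' : Set G)) {k : ℕ} (n : ℕ) :
    ∀ (V : Subgroup G) (χ : Fin k → G → ℤ_[p]), IsOpen (V : Set G) → V' ≤ V →
    (∀ i, IsZ p R V (χ i)) → Indep p V χ → V'.relIndex V = n →
    ∃ (χ' : Fin k → G → ℤ_[p]) (c : ℕ), (∀ i, IsZ p R V' (χ' i)) ∧ Indep p V' χ' ∧
      ∀ m, Jlev p V' χ (m + c) ≤ Jlev p V' χ' m := by
  classical
  induction n using Nat.strong_induction_on with
  | _ n ih =>
  intro V χ hV hle hχ hi hn
  by_cases hVV : V' = V
  · subst hVV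
    exact ⟨χ, 0, hχ, hi, fun m => le_rfl⟩
  have hne : V'.subgroupOf V ≠ ⊤ := fun h =>
    hVV (le_antisymm hle (Subgroup.subgroupOf_eq_top.1 h))
  have hopen : IsOpen (V'.subgroupOf V : Set ↥V) := hV'.preimage continuous_subtype_val
  obtain ⟨f, hf, hfne, hf0⟩ := (hG.sub V hV).exists_hom (V'.subgroupOf V) hopen hne
  have hfm := hf.2
  have hf1 : f 1 = 0 := by
    have := hfm 1 1
    rw [mul_one] at this
    simpa using this
  let F : ↥V →* Multiplicative (ZMod p) :=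
    { toFun := fun x => Multiplicative.ofAdd (f x)
      map_one' := by rw [hf1]; rfl
      map_mul' := fun x y => by rw [hfm]; rfl }
  have hFker : ∀ x : ↥V, x ∈ F.ker ↔ f x = 0 := fun x => by
    rw [MonoidHom.mem_ker]
    exact ⟨fun h => h, fun h => h⟩
  let V₁ : Subgroup G := F.ker.map V.subtype
  let g : G → ZMod p := fun x => if h : x ∈ V then f ⟨x, h⟩ else 0
  have hg : ∀ x : ↥V, g x = f x := fun x => dif_pos x.2
  have hV₁ : ∀ x, x ∈ V₁ ↔ x ∈ V ∧ g x = 0 := by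
    intro x
    constructor
    · rintro ⟨y, hy, rfl⟩
      exact ⟨y.2, (hg y).trans ((hFker y).1 hy)⟩
    · rintro ⟨hx, hx'⟩
      exact ⟨⟨x, hx⟩, (hFker _).2 ((hg ⟨x, hx⟩).symm.trans hx'), rfl⟩
  have hV₁le : V₁ ≤ V := fun x hx => ((hV₁ x).1 hx).1
  have hle₁ : V' ≤ V₁ := fun x hx =>
    (hV₁ x).2 ⟨hle hx, (hg ⟨x, hle hx⟩).trans (hf0 _ (Subgroup.mem_subgroupOf.2 hx))⟩
  have hV₁ne : V₁ ≠ V := by
    intro h
    apply hfne
    funext x
    have : (x : G) ∈ V₁ := h.ge x.2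
    exact (hg x).symm.trans ((hV₁ x).1 this).2
  have hV₁open : IsOpen (V₁ : Set G) := by
    exact Subgroup.isOpen_mono hle₁ hV'
  obtain ⟨χ₁, c₁, hχ₁, hi₁, hc₁⟩ := Jl_renorm_one (V₁ := V₁) hχ hi g
    (fun x hx y hy => by
      have h1 := hg (⟨x, hx⟩ * ⟨y, hy⟩)
      rw [hfm, ← hg ⟨x, hx⟩, ← hg ⟨y, hy⟩] at h1
      exact h1) hV₁
  have hlt : V'.relIndex V₁ < n := by
    have h1 := Subgroup.relIndex_mul_relIndex V' V₁ V hle₁ hV₁le
    have hfin := hG.finiteIndex V' hV'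
    have h2' : V'.relIndex V ≠ 0 := fun h => by
      have := Subgroup.relIndex_mul_index hle
      rw [h, zero_mul] at this
      exact hfin.index_ne_zero this.symm
    have h3 : V₁.relIndex V ≠ 1 := fun h =>
      hV₁ne (le_antisymm hV₁le (Subgroup.relIndex_eq_one.1 h))
    have h4 : V'.relIndex V₁ ≠ 0 := fun h => h2' (by rw [← h1, h, zero_mul])
    have h5 : V₁.relIndex V ≠ 0 := fun h => h2' (by rw [← h1, h, mul_zero])
    have h6 : 2 ≤ V₁.relIndex V := by omega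
    rw [← hn, ← h1]
    nlinarith [Nat.pos_of_ne_zero h4]
  obtain ⟨χ₂, c₂, hχ₂, hi₂, hc₂⟩ := ih _ hlt V₁ χ₁ hV₁open hle₁ hχ₁ hi₁ rfl
  refine ⟨χ₂, c₂ + c₁, hχ₂, hi₂, fun m x hx => hc₂ m ?_⟩
  obtain ⟨h1, h2'⟩ := (mem_Jlev (fun i => (hχ i).mono hle) _ x).1 hx
  refine (mem_Jlev (fun i => (hχ₁ i).mono hle₁) _ x).2 ⟨h1, ?_⟩
  have h3 : x ∈ Jlev p V₁ χ (m + c₂ + c₁) :=
    (mem_Jlev (fun i => (hχ i).mono hV₁le) _ x).2 ⟨hle₁ h1, by rw [add_assoc]; exact h2'⟩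
  exact ((mem_Jlev hχ₁ _ x).1 (hc₁ _ h3)).2

/-- renormalisation of an independent family on an open subgroup -/
theorem renorm {δ : ℕ} (hG : ProFree p δ G) {R V V' : Subgroup G} (hV : IsOpen (V : Set G))
    (hV' : IsOpen (V' : Set G)) (hle : V' ≤ V) (hR : R ≤ V') {k : ℕ} {χ : Fin k → G → ℤ_[p]}
    (hχ : ∀ i, IsZ p R V (χ i)) (hi : Indep p V χ) :
    ∃ (χ' : Fin k → G → ℤ_[p]) (c : ℕ), (∀ i, IsZ p R V' (χ' i)) ∧ Indep p V' χ' ∧
      ∀ m, Jlev p V' χ (m + c) ≤ Jlev p V' χ' m :=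
  Jl_renorm_aux hG hV' _ V χ hV hle hχ hi rfl

end Pool.Agent.RFA
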