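import Pool.Agent.RFA.LiftCodim
import Pool.Agent.RFA.CupB
import Pool.Agent.RFA.UB

set_option autoImplicit false

namespace Pool.Agent.RFA

open Topology Module

variable {p : ℕ} [Fact p.Prime] {G : Type} [Group G] [TopologicalSpace G] [IsTopologicalGroup G]

/-- three new characters -/
theorem newchar {δ : ℕ} (hG : ProFree p δ G) {ι : Type} [Fintype ι] (ρ : ι → G)
    (hr : ∀ z ∈ Z2 p ρ, z ≠ 0 → RankGE p ρ z (4 * finrank (ZMod p) (Z2 p ρ) + 1))
    (hd : finrank (ZMod p) (Z2 p ρ) + 3 ≤ finrank (ZMod p) (HomP p ρ)) :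
    ∃ χ : Fin 3 → Z1 p G, (∀ j i, (χ j : G → ℤ_[p]) (ρ i) = 0) ∧
      Indep p ⊤ (fun j => (χ j : G → ℤ_[p])) ∧
      IK p ρ (fun j => redp p (χ j : G → ℤ_[p])) := by
  classical
  obtain ⟨hfW, hfZ⟩ := Z2_finite_HomP_finite hG ρ
  obtain ⟨B, hB⟩ := exists_cupB hG ρ
  set D : Submodule (ZMod p) (HomP p ρ) :=
    (LiftP (p := p) ρ).comap (HomP p ρ).subtype with hDdef
  have hDrank : finrank (ZMod p) D = finrank (ZMod p) (LiftP (p := p) ρ) :=
    LinearEquiv.finrank_eq (Submodule.comapSubtypeEquivOfLe (LiftP_le ρ))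
  have hc : finrank (ZMod p) (HomP p ρ) ≤
      finrank (ZMod p) D + finrank (ZMod p) (Z2 p ρ) := by
    rw [hDrank]; exact lift_codim hG ρ
  have hn : ∀ z : Z2 p ρ, z ≠ 0 →
      4 * finrank (ZMod p) (Z2 p ρ) + 1 ≤ finrank (ZMod p) (LinearMap.range (B z)) := by
    intro z hz
    refine (rankGE_iff hG ρ B hB z _).1 (hr z z.2 ?_)
    intro h
    exact hz (Subtype.ext h)
  obtain ⟨η, hηD, hηI, hηL⟩ : ∃ η : Fin 3 → HomP p ρ, (∀ j, η j ∈ D) ∧
      (∀ z : Fin 3 → Z2 p ρ, (∀ ξ, ∑ j, B (z j) (η j) ξ = 0) → z = 0) ∧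
      LinearIndependent (ZMod p) η := by
    by_cases hZ : ∃ z : Z2 p ρ, z ≠ 0
    · obtain ⟨z, hz⟩ := hZ
      obtain ⟨η, h1, h2⟩ := ub_three B D (finrank (ZMod p) (Z2 p ρ))
        (4 * finrank (ZMod p) (Z2 p ρ) + 1) hc hn (by omega)
      refine ⟨η, h1, h2, ?_⟩
      rw [Fintype.linearIndependent_iff]
      intro c hcz
      have h3 := h2 (fun j => c j • z) (fun ξ => by
        have e : ∀ j, B (c j • z) (η j) ξ = B z (c j • η j) ξ := by
          intro j
          rw [map_smul, map_smul]; rfl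
        simp_rw [e]
        have e2 : ∑ j, B z (c j • η j) ξ = (B z (∑ j, c j • η j)) ξ := by
          rw [map_sum, LinearMap.sum_apply]
        rw [e2, hcz, map_zero, LinearMap.zero_apply])
      intro j
      have h4 : c j • z = 0 := congrFun h3 j
      rcases smul_eq_zero.1 h4 with h5 | h5
      · exact h5
      · exact absurd h5 hz
    · push Not at hZ
      have hsub : Subsingleton (Z2 p ρ) := ⟨fun a b => (hZ a).trans (hZ b).symm⟩
      have h0 : finrank (ZMod p) (Z2 p ρ) = 0 := finrank_zero_of_subsingleton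
      have hD : D = ⊤ := by
        apply Submodule.eq_top_of_finrank_eq
        have := Submodule.finrank_le D
        omega
      obtain ⟨η, hη⟩ := exists_linearIndependent_of_le_finrank (R := ZMod p)
        (M := HomP p ρ) (n := 3) (by omega)
      refine ⟨η, fun j => ?_, fun z _ => Subsingleton.elim _ _, hη⟩
      rw [hD]; exact Submodule.mem_top
  have hlift : ∀ j, ∃ φ : Z1 p G, (∀ i, (φ : G → ℤ_[p]) (ρ i) = 0) ∧
      ∀ x, (η j : G → ZMod p) x = PadicInt.toZMod ((φ : G → ℤ_[p]) x) := fun j => hηD j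
  choose χ hχ0 hχ using hlift
  have hred : ∀ j, redp p (χ j : G → ℤ_[p]) = (η j : G → ZMod p) := by
    intro j
    funext x
    exact (hχ j x).symm
  refine ⟨χ, hχ0, ?_, ?_⟩
  · intro c hcx
    have h1 : ∑ j, c j • η j = 0 := by
      apply Subtype.ext
      funext x
      have := hcx x (Subgroup.mem_top x)
      simp only [Submodule.coe_sum, Submodule.coe_smul, Finset.sum_apply, Pi.smul_apply,
        smul_eq_mul, ZeroMemClass.coe_zero, Pi.zero_apply]
      rw [← this]
      exact Finset.sum_congr rfl (fun j _ => by rw [hχ j x])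
    funext j
    exact (Fintype.linearIndependent_iff.1 hηL) c h1 j
  · have hmem : ∀ j, redp p (χ j : G → ℤ_[p]) ∈ HomP p ρ := by
      intro j
      rw [hred j]; exact (η j).2
    rw [IK_iff hG ρ _ hmem]
    intro z hz hξ
    have h2 := hηI (fun j => ⟨z j, hz j⟩) (fun ξ => by
      have h3 := hξ ξ ξ.2
      rw [← h3]
      refine Finset.sum_congr rfl (fun j _ => ?_)
      rw [hB, hred j])
    funext j
    have h4 := congrFun h2 j
    exact congrArg Subtype.val h4

end Pool.Agent.RFA
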