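import Pool.Agent.RFA.Shap
import Pool.Agent.RFA.Desc
import Pool.Agent.RFA.CupB

set_option autoImplicit false

namespace Pool.Agent.RFA

open Topology Module

variable {p : ℕ} [Fact p.Prime] {G : Type} [Group G] [TopologicalSpace G] [IsTopologicalGroup G]

/-- a `p`-group acting on a non-zero space: the span of all `g u - u` is proper -/
theorem span_sub_ne_top {P : Type} [Group P] [Finite P] (hP : IsPGroup p P) {U : Type}
    [AddCommGroup U] [Module (ZMod p) U] [Module.Finite (ZMod p) U] [Nontrivial U]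
    (τ : P →* Module.End (ZMod p) U) :
    Submodule.span (ZMod p) {u | ∃ g v, u = τ g v - v} ≠ ⊤ := by
  intro htop
  let _ : MulAction P (Module.Dual (ZMod p) U) :=
    { smul := fun g φ => φ.comp (τ g⁻¹)
      one_smul := fun φ => by
        change φ.comp (τ 1⁻¹) = φ
        rw [inv_one, map_one]; rfl
      mul_smul := fun g h φ => by
        change φ.comp (τ (g * h)⁻¹) = (φ.comp (τ h⁻¹)).comp (τ g⁻¹)
        rw [mul_inv_rev, map_mul]; rfl }
  have hsm : ∀ (g : P) (φ : Module.Dual (ZMod p) U) (u : U), (g • φ) u = φ (τ g⁻¹ u) :=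
    fun g φ u => rfl
  have : Finite (Module.Dual (ZMod p) U) := Module.finite_of_finite (ZMod p)
  have hdvd : p ∣ Nat.card (Module.Dual (ZMod p) U) := by
    rw [Module.natCard_eq_pow_finrank (K := ZMod p), Subspace.dual_finrank_eq, Nat.card_zmod]
    exact dvd_pow_self p (Module.finrank_pos (R := ZMod p) (M := U)).ne'
  obtain ⟨φ, hφ, hne⟩ := hP.exists_fixed_point_of_prime_dvd_card_of_fixed_point
    (Module.Dual (ZMod p) U) hdvd (a := 0) (fun g => by
      ext u; rw [hsm]; simp)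
  apply hne
  symm
  ext u
  have h1 : (⊤ : Submodule (ZMod p) U) ≤ LinearMap.ker φ := by
    rw [← htop, Submodule.span_le]
    rintro _ ⟨g, v, rfl⟩
    rw [SetLike.mem_coe, LinearMap.mem_ker, map_sub, sub_eq_zero]
    have := congrArg (fun ψ : Module.Dual (ZMod p) U => ψ v) (hφ g⁻¹)
    simp only [hsm, inv_inv] at this
    exact this
  exact LinearMap.mem_ker.1 (h1 Submodule.mem_top)

theorem RankRed.exists_fixed {P : Type} [Group P] [Finite P] (hP : IsPGroup p P) {W : Type}
    [AddCommGroup W] [Module (ZMod p) W] [Module.Finite (ZMod p) W]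
    (τ : P →* Module.End (ZMod p) W) (rk : W → ℕ) (h1 : ∀ g w, rk (τ g w) ≤ rk w)
    (h2 : ∀ u v, rk (u - v) ≤ rk u + rk v) :
    ∀ (d : ℕ) (U : Submodule (ZMod p) W), (∀ g, ∀ u ∈ U, τ g u ∈ U) →
      finrank (ZMod p) U ≤ d →
      ∀ z ∈ U, z ≠ 0 → ∃ z0 : W, z0 ≠ 0 ∧ (∀ g, τ g z0 = z0) ∧ rk z0 ≤ 2 ^ d * rk z := by
  intro d
  induction d with
  | zero =>
    intro U _ hd z hz hz0
    have hU : U = ⊥ := Submodule.finrank_eq_zero.1 (Nat.le_zero.1 hd)
    rw [hU, Submodule.mem_bot] at hz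
    exact absurd hz hz0
  | succ d ih =>
    intro U hU hd z hz hz0
    by_cases hfix : ∀ g, τ g z = z
    · exact ⟨z, hz0, hfix, Nat.le_mul_of_pos_left _ (by positivity)⟩
    · push Not at hfix
      obtain ⟨b, hb⟩ := hfix
      let τU : P →* Module.End (ZMod p) U :=
        { toFun := fun g => (τ g).restrict (hU g)
          map_one' := by
            ext u
            rw [LinearMap.coe_restrict_apply, map_one]; rfl
          map_mul' := fun g h => by
            ext u
            rw [LinearMap.coe_restrict_apply, map_mul]; rfl }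
      have hτU : ∀ g (u : U), ((τU g u : U) : W) = τ g u := fun g u => rfl
      have : Nontrivial U := ⟨⟨z, hz⟩, 0, by
        intro h; exact hz0 (congrArg Subtype.val h)⟩
      let U' : Submodule (ZMod p) W := Submodule.span (ZMod p) {w | ∃ g, ∃ v ∈ U, w = τ g v - v}
      have hmap : U' = (Submodule.span (ZMod p) {u | ∃ g v, u = τU g v - v}).map U.subtype := by
        have hset : {w : W | ∃ g, ∃ v ∈ U, w = τ g v - v} =
            U.subtype '' {u | ∃ g v, u = τU g v - v} := by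
          ext w
          constructor
          · rintro ⟨g, v, hv, rfl⟩
            exact ⟨τU g ⟨v, hv⟩ - ⟨v, hv⟩, ⟨g, ⟨v, hv⟩, rfl⟩, rfl⟩
          · rintro ⟨_, ⟨g, v, rfl⟩, rfl⟩
            exact ⟨g, v, v.2, rfl⟩
        rw [Submodule.map_span, ← hset]
      have hlt : finrank (ZMod p) U' < finrank (ZMod p) U := by
        rw [hmap, Submodule.finrank_map_subtype_eq]
        exact Submodule.finrank_lt (span_sub_ne_top hP τU)
      have hU' : ∀ g, ∀ u ∈ U', τ g u ∈ U' := by
        intro g u hu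
        have : U' ≤ U'.comap (τ g) := by
          refine Submodule.span_le.2 ?_
          rintro _ ⟨h, v, hv, rfl⟩
          rw [SetLike.mem_coe, Submodule.mem_comap]
          refine Submodule.subset_span ⟨g * h * g⁻¹, τ g v, hU g v hv, ?_⟩
          rw [map_sub]
          congr 1
          rw [← Module.End.mul_apply, ← Module.End.mul_apply, ← map_mul, ← map_mul]
          congr 2
          group
        exact this hu
      obtain ⟨z0, hne, hf, hr⟩ := ih U' hU' (by omega) (τ b z - z)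
        (Submodule.subset_span ⟨b, z, hz, rfl⟩) (sub_ne_zero.2 hb)
      refine ⟨z0, hne, hf, hr.trans ?_⟩
      calc 2 ^ d * rk (τ b z - z) ≤ 2 ^ d * (rk z + rk z) :=
            Nat.mul_le_mul_left _ ((h2 _ _).trans (Nat.add_le_add_right (h1 b z) _))
        _ = 2 ^ (d + 1) * rk z := by ring

/-- conjugation of a function on a normal subgroup -/
noncomputable def RankRed.cj {A : Type} [AddCommGroup A] (a : G →* Multiplicative A) (g : G)
    (f : ↥a.ker → ZMod p) : ↥a.ker → ZMod p :=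
  fun y => f ⟨g * y * g⁻¹, a.normal_ker.conj_mem y y.2 g⟩

theorem RankRed.cj_locConst {A : Type} [AddCommGroup A] (a : G →* Multiplicative A) (g : G)
    (f : ↥a.ker → ZMod p) (hf : IsLocallyConstant f) :
    IsLocallyConstant (RankRed.cj a g f) := by
  refine hf.comp_continuous ?_
  exact Continuous.subtype_mk (by fun_prop) _

theorem RankRed.cj_hom1 {A : Type} [AddCommGroup A] (a : G →* Multiplicative A) (g : G)
    {f : ↥a.ker → ZMod p} (hf : f ∈ Hom1 p ↥a.ker) : RankRed.cj a g f ∈ Hom1 p ↥a.ker := by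
  refine ⟨RankRed.cj_locConst a g f hf.1, fun x y => ?_⟩
  have := hf.2 ⟨g * x * g⁻¹, a.normal_ker.conj_mem x x.2 g⟩
    ⟨g * y * g⁻¹, a.normal_ker.conj_mem y y.2 g⟩
  unfold RankRed.cj
  rw [← this]
  congr 1
  apply Subtype.ext
  simp [mul_assoc]

theorem RankRed.cj_cup {A : Type} [AddCommGroup A] (a : G →* Multiplicative A) (g : G)
    {f f' h : ↥a.ker → ZMod p} (hh : IsCup p f f' h) :
    IsCup p (RankRed.cj a g f) (RankRed.cj a g f') (RankRed.cj a g h) := by
  refine ⟨RankRed.cj_locConst a g h hh.1, fun x y => ?_⟩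
  have := hh.2 ⟨g * x * g⁻¹, a.normal_ker.conj_mem x x.2 g⟩
    ⟨g * y * g⁻¹, a.normal_ker.conj_mem y y.2 g⟩
  unfold RankRed.cj
  rw [← this]
  congr 1
  apply Subtype.ext
  simp [mul_assoc]

/-- homomorphisms are conjugation invariant -/
theorem RankRed.hom_conj {H : Type} [Group H] [TopologicalSpace H] {f : H → ZMod p}
    (hf : f ∈ Hom1 p H) (j y : H) : f (j * y * j⁻¹) = f y := by
  have h1 : f 1 = 0 := by
    have := hf.2 1 1
    rw [mul_one] at this
    exact left_eq_add.1 this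
  have h2 : f j + f j⁻¹ = 0 := by rw [← hf.2, mul_inv_cancel, h1]
  rw [hf.2, hf.2]
  linear_combination h2

/-- cup cochains are conjugation invariant at common zeros -/
theorem RankRed.cup_conj {H : Type} [Group H] [TopologicalSpace H] {f f' h : H → ZMod p}
    (hf : f ∈ Hom1 p H) (hf' : f' ∈ Hom1 p H) (hh : IsCup p f f' h) (j y : H)
    (hy : f y = 0) (hy' : f' y = 0) : h (j * y * j⁻¹) = h y := by
  have e1 : f 1 = 0 := by
    have := hf.2 1 1
    rw [mul_one] at this
    exact left_eq_add.1 this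
  have e1' : f' 1 = 0 := by
    have := hf'.2 1 1
    rw [mul_one] at this
    exact left_eq_add.1 this
  have h1 : h 1 = 0 := by
    have := hh.2 1 1
    rw [mul_one, e1, zero_mul, add_zero] at this
    exact left_eq_add.1 this
  have h2 : h j + h j⁻¹ + f j * f' j⁻¹ = 0 := by rw [← hh.2, mul_inv_cancel, h1]
  rw [hh.2, hh.2, hf.2, hy, hy']
  linear_combination h2

section Act

variable {I : Type} {r : I → G} {e : I → ℕ} {A : Type} [AddCommGroup A] [Finite A]
  {a : G →* Multiplicative A} {ι : Type} {ρ : ι → ↥a.ker} {idx : ι → I} {x : ι → G}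

theorem RankRed.cover (hs : Function.Surjective a) (hPP : PP p r e a.ker ρ idx x) (i : I)
    (b : Multiplicative A) : ∃ l, idx l = i ∧ ∃ n : ℕ, b = a (x l) * a (r i) ^ n := by
  obtain ⟨g, rfl⟩ := hs b
  obtain ⟨l, hl, j, hj, n, rfl⟩ := hPP.cover i g
  exact ⟨l, hl, n, by rw [map_mul, map_mul, map_pow, MonoidHom.mem_ker.1 hj, one_mul]⟩

theorem RankRed.uniq (hPP : PP p r e a.ker ρ idx x) {l l' : ι}
    (h : idx l = idx l') (n : ℤ) (hn : a (x l') = a (x l) * a (r (idx l)) ^ n) : l = l' := by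
  have h1 : a (r (idx l)) ^ n ∈ Subgroup.zpowers (a (r (idx l))) := ⟨n, rfl⟩
  have : Finite (Multiplicative A) := inferInstanceAs (Finite A)
  obtain ⟨m, hm'⟩ := mem_powers_iff_mem_zpowers.2 h1
  have hm : a (r (idx l)) ^ m = a (r (idx l)) ^ n := hm'
  refine hPP.uniq l l' h ⟨x l' * (x l * r (idx l) ^ m)⁻¹, ?_, m, by group⟩
  rw [MonoidHom.mem_ker, map_mul, map_inv, map_mul, map_pow, hm, ← hn, mul_inv_cancel]

/-- the action of `A` on double cosets -/
noncomputable def RankRed.act (hs : Function.Surjective a) (hPP : PP p r e a.ker ρ idx x)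
    (b : Multiplicative A) (l : ι) : ι :=
  Classical.choose (RankRed.cover hs hPP (idx l) (b * a (x l)))

theorem RankRed.act_idx (hs : Function.Surjective a) (hPP : PP p r e a.ker ρ idx x)
    (b : Multiplicative A) (l : ι) : idx (RankRed.act hs hPP b l) = idx l :=
  (Classical.choose_spec (RankRed.cover hs hPP (idx l) (b * a (x l)))).1

theorem RankRed.act_eq (hs : Function.Surjective a) (hPP : PP p r e a.ker ρ idx x)
    (b : Multiplicative A) (l : ι) :
    ∃ n : ℕ, b * a (x l) = a (x (RankRed.act hs hPP b l)) * a (r (idx l)) ^ n :=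
  (Classical.choose_spec (RankRed.cover hs hPP (idx l) (b * a (x l)))).2

theorem RankRed.act_unique (hs : Function.Surjective a) (hPP : PP p r e a.ker ρ idx x)
    {b : Multiplicative A} {l l' : ι} (h : idx l' = idx l) (n : ℤ)
    (hn : b * a (x l) = a (x l') * a (r (idx l)) ^ n) : RankRed.act hs hPP b l = l' := by
  obtain ⟨m, hm⟩ := RankRed.act_eq hs hPP b l
  refine RankRed.uniq hPP ((RankRed.act_idx hs hPP b l).trans h.symm) (m - n) ?_
  have h3 : a (x l') = b * a (x l) * (a (r (idx l)) ^ n)⁻¹ := by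
    rw [hn, mul_inv_cancel_right]
  rw [RankRed.act_idx hs hPP b l, zpow_sub, zpow_natCast, ← mul_assoc, ← hm, h3]

theorem RankRed.act_one (hs : Function.Surjective a) (hPP : PP p r e a.ker ρ idx x)
    (l : ι) : RankRed.act hs hPP 1 l = l :=
  RankRed.act_unique hs hPP rfl 0 (by simp)

theorem RankRed.act_mul (hs : Function.Surjective a) (hPP : PP p r e a.ker ρ idx x)
    (b c : Multiplicative A) (l : ι) :
    RankRed.act hs hPP (b * c) l = RankRed.act hs hPP b (RankRed.act hs hPP c l) := by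
  obtain ⟨m, hm⟩ := RankRed.act_eq hs hPP c l
  obtain ⟨n, hn⟩ := RankRed.act_eq hs hPP b (RankRed.act hs hPP c l)
  refine RankRed.act_unique hs hPP
    ((RankRed.act_idx hs hPP _ _).trans (RankRed.act_idx hs hPP _ _)) (n + m) ?_
  rw [mul_assoc, hm, ← mul_assoc, hn, RankRed.act_idx hs hPP c l, zpow_add, zpow_natCast,
    zpow_natCast, mul_assoc]

/-- conjugation moves the relators -/
theorem RankRed.cj_rho (hs : Function.Surjective a) (hPP : PP p r e a.ker ρ idx x) (g : G)
    (F : ↥a.ker → ZMod p) (l : ι)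
    (hF : ∀ j : ↥a.ker, F (j * ρ (RankRed.act hs hPP (a g) l) * j⁻¹) =
      F (ρ (RankRed.act hs hPP (a g) l))) :
    RankRed.cj a g F (ρ l) = F (ρ (RankRed.act hs hPP (a g) l)) := by
  obtain ⟨n, hn⟩ := RankRed.act_eq hs hPP (a g) l
  set m := RankRed.act hs hPP (a g) l with hm
  have hidx : idx m = idx l := RankRed.act_idx hs hPP (a g) l
  have hj : g * x l * (x m * r (idx l) ^ n)⁻¹ ∈ a.ker := by
    rw [MonoidHom.mem_ker, map_mul, map_mul, hn, map_inv, map_mul, map_pow, mul_inv_cancel]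
  have h1 := hF ⟨_, hj⟩
  unfold RankRed.cj
  rw [← h1]
  congr 1
  apply Subtype.ext
  have e1 := hPP.rho_eq l
  have e2 := hPP.rho_eq m
  rw [hidx] at e2
  simp only [Subgroup.coe_mul, Subgroup.coe_inv]
  rw [e1, e2]
  have h3 : Commute (r (idx l) ^ n) (r (idx l) ^ p ^ e (idx l)) :=
    (Commute.refl (r (idx l))).pow_pow _ _
  have h4 : (r (idx l) ^ n)⁻¹ * r (idx l) ^ p ^ e (idx l) * r (idx l) ^ n =
      r (idx l) ^ p ^ e (idx l) := by
    rw [mul_assoc, ← h3.eq, inv_mul_cancel_left]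
  calc g * (x l * r (idx l) ^ p ^ e (idx l) * (x l)⁻¹) * g⁻¹
      = g * x l * r (idx l) ^ p ^ e (idx l) * (g * x l)⁻¹ := by group
    _ = g * x l * ((r (idx l) ^ n)⁻¹ * r (idx l) ^ p ^ e (idx l) * r (idx l) ^ n) *
          (g * x l)⁻¹ := by rw [h4]
    _ = _ := by group

/-- the permutation of the double cosets -/
noncomputable def RankRed.actEquiv (hs : Function.Surjective a)
    (hPP : PP p r e a.ker ρ idx x) (b : Multiplicative A) : ι ≃ ι where
  toFun := RankRed.act hs hPP b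
  invFun := RankRed.act hs hPP b⁻¹
  left_inv l := by rw [← RankRed.act_mul, inv_mul_cancel, RankRed.act_one]
  right_inv l := by rw [← RankRed.act_mul, mul_inv_cancel, RankRed.act_one]

theorem RankRed.sum_act [Fintype ι] (hs : Function.Surjective a)
    (hPP : PP p r e a.ker ρ idx x) (b : Multiplicative A) (z w : ι → ZMod p) :
    ∑ l, z (RankRed.act hs hPP b⁻¹ l) * w l = ∑ l, z l * w (RankRed.act hs hPP b l) := by
  rw [← Equiv.sum_comp (RankRed.actEquiv hs hPP b)]
  refine Finset.sum_congr rfl fun l _ => ?_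
  have h1 : RankRed.act hs hPP b⁻¹ (RankRed.actEquiv hs hPP b l) = l :=
    (RankRed.actEquiv hs hPP b).left_inv l
  rw [h1]
  rfl

theorem RankRed.act_mem_Z2 [Fintype ι] (hs : Function.Surjective a)
    (hPP : PP p r e a.ker ρ idx x) (b : Multiplicative A) {z : ι → ZMod p}
    (hz : z ∈ Z2 p ρ) : (fun l => z (RankRed.act hs hPP b⁻¹ l)) ∈ Z2 p ρ := by
  intro f hf
  obtain ⟨g, rfl⟩ := hs b
  rw [RankRed.sum_act hs hPP (a g) z (fun l => f (ρ l))]
  rw [← hz _ (RankRed.cj_hom1 a g hf)]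
  refine Finset.sum_congr rfl fun l _ => ?_
  rw [RankRed.cj_rho hs hPP g f l (fun j => RankRed.hom_conj hf j _)]

theorem RankRed.rankGE_act {δ : ℕ} (hJ : ProFree p δ ↥a.ker) [Fintype ι]
    (hs : Function.Surjective a)
    (hPP : PP p r e a.ker ρ idx x) (b : Multiplicative A) {z : ι → ZMod p}
    (hz : z ∈ Z2 p ρ) (n : ℕ)
    (h : RankGE p ρ (fun l => z (RankRed.act hs hPP b⁻¹ l)) n) : RankGE p ρ z n := by
  obtain ⟨g, rfl⟩ := hs b
  obtain ⟨f, f', hf, hf', hff⟩ := h
  have hP : ∀ u : ↥a.ker → ZMod p, u ∈ HomP p ρ → RankRed.cj a g u ∈ HomP p ρ := by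
    intro u hu
    refine ⟨RankRed.cj_hom1 a g hu.1, fun l => ?_⟩
    rw [RankRed.cj_rho hs hPP g u l (fun j => RankRed.hom_conj hu.1 j _)]
    exact hu.2 _
  refine ⟨fun k => RankRed.cj a g (f k), fun k => RankRed.cj a g (f' k),
    fun k => hP _ (hf k), fun k => hP _ (hf' k), fun k k' => ?_⟩
  rw [← hff k k']
  obtain ⟨h, hh⟩ := cup_exists hJ.h2top (hf k).1 (hf' k').1
  rw [cupVal_eq hz (RankRed.cj_cup a g hh),
    cupVal_eq (RankRed.act_mem_Z2 hs hPP (a g) hz) hh,
    RankRed.sum_act hs hPP (a g) z (fun l => h (ρ l))]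
  refine Finset.sum_congr rfl fun l _ => ?_
  rw [RankRed.cj_rho hs hPP g h l (fun j => RankRed.cup_conj (hf k).1 (hf' k').1 hh j _
    ((hf k).2 _) ((hf' k').2 _))]

/-- the linear action of `A` on `Z2` -/
noncomputable def RankRed.tau [Fintype ι] (hs : Function.Surjective a)
    (hPP : PP p r e a.ker ρ idx x) : Multiplicative A →* Module.End (ZMod p) (Z2 p ρ) where
  toFun b :=
    { toFun := fun z => ⟨fun l => (z : ι → ZMod p) (RankRed.act hs hPP b⁻¹ l),
        RankRed.act_mem_Z2 hs hPP b z.2⟩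
      map_add' := fun z w => rfl
      map_smul' := fun c z => rfl }
  map_one' := by
    ext z l
    change (z : ι → ZMod p) (RankRed.act hs hPP 1⁻¹ l) = (z : ι → ZMod p) l
    rw [inv_one, RankRed.act_one]
  map_mul' b c := by
    ext z l
    change (z : ι → ZMod p) (RankRed.act hs hPP (b * c)⁻¹ l) =
      (z : ι → ZMod p) (RankRed.act hs hPP c⁻¹ (RankRed.act hs hPP b⁻¹ l))
    rw [mul_inv_rev, RankRed.act_mul]

theorem RankRed.tau_apply [Fintype ι] (hs : Function.Surjective a)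
    (hPP : PP p r e a.ker ρ idx x) (b : Multiplicative A) (z : Z2 p ρ) (l : ι) :
    (RankRed.tau hs hPP b z : ι → ZMod p) l =
      (z : ι → ZMod p) (RankRed.act hs hPP b⁻¹ l) := rfl

/-- counting -/
theorem RankRed.sum_coset [Fintype ι] [Fintype A] (hs : Function.Surjective a)
    (hord : ∀ i n, a (r i) ^ n = 1 ↔ p ^ e i ∣ n)
    (hPP : PP p r e a.ker ρ idx x) (i : I) [DecidableEq I] (F : A → ZMod p) :
    ∑ l ∈ Finset.univ.filter (fun l => idx l = i), ∑ t ∈ Finset.range (p ^ e i),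
      F (-(Multiplicative.toAdd (a (x l) * a (r i) ^ t))) = ∑ b, F b := by
  rw [← Finset.sum_product']
  have hpos : 0 < p ^ e i := pow_pos (Nat.Prime.pos Fact.out) _
  refine Finset.sum_bij (fun lt _ => -(Multiplicative.toAdd (a (x lt.1) * a (r i) ^ lt.2)))
    (fun _ _ => Finset.mem_univ _) ?_ ?_ (fun _ _ => rfl)
  · rintro ⟨l, t⟩ h1 ⟨l', t'⟩ h2 heq
    simp only [Finset.mem_product, Finset.mem_filter, Finset.mem_univ, true_and,
      Finset.mem_range] at h1 h2
    have h3 : a (x l) * a (r i) ^ t = a (x l') * a (r i) ^ t' :=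
      Multiplicative.toAdd.injective (neg_injective heq)
    have h4 : l = l' := by
      refine RankRed.uniq hPP (h1.1.trans h2.1.symm) (t - t') ?_
      rw [h1.1, zpow_sub, zpow_natCast, zpow_natCast, ← mul_assoc, h3, mul_inv_cancel_right]
    subst h4
    have h5 : a (r i) ^ t = a (r i) ^ t' := mul_left_cancel h3
    have key : ∀ u v : ℕ, u ≤ v → v < p ^ e i → a (r i) ^ u = a (r i) ^ v → u = v := by
      intro u v huv hv h
      have h6 : a (r i) ^ (v - u) = 1 := by
        have : a (r i) ^ u * a (r i) ^ (v - u) = a (r i) ^ u * 1 := by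
          rw [← pow_add, Nat.add_sub_cancel' huv, mul_one, h]
        exact mul_left_cancel this
      have h7 := (hord i _).1 h6
      have := Nat.eq_zero_of_dvd_of_lt h7 (lt_of_le_of_lt (Nat.sub_le _ _) hv)
      omega
    rcases le_total t t' with h | h
    · rw [key t t' h h2.2 h5]
    · rw [key t' t h h1.2 h5.symm]
  · intro b _
    obtain ⟨l, hl, n, hn⟩ := RankRed.cover hs hPP i (Multiplicative.ofAdd (-b))
    refine ⟨(l, n % p ^ e i), ?_, ?_⟩
    · simp only [Finset.mem_product, Finset.mem_filter, Finset.mem_univ, true_and,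
        Finset.mem_range]
      exact ⟨hl, Nat.mod_lt _ hpos⟩
    · have h1 : a (r i) ^ (n % p ^ e i) = a (r i) ^ n := by
        conv_rhs => rw [← Nat.mod_add_div n (p ^ e i), pow_add, pow_mul,
          (hord i _).2 dvd_rfl, one_pow, mul_one]
      simp only
      rw [h1, ← hn, toAdd_ofAdd, neg_neg]

theorem RankRed.coc_one {Θ : G → GA p A} (hΘ : Θ ∈ Coc (TA p a)) : Θ 1 = 0 := by
  have := hΘ.2 1 1
  rw [mul_one, map_one, one_mul] at this
  exact left_eq_add.1 this

theorem RankRed.TA_mul_coeff (g : G) (y : GA p A) (b : A) :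
    (TA p a g * y).coeff b = y.coeff (-(Multiplicative.toAdd (a g)) + b) := by
  have : TA p a g = AddMonoidAlgebra.single (Multiplicative.toAdd (a g)) 1 := rfl
  rw [this, AddMonoidAlgebra.coeff_single_mul_apply, one_mul]

theorem RankRed.coc_pow {Θ : G → GA p A} (hΘ : Θ ∈ Coc (TA p a)) (s : G) (k : ℕ) :
    Θ (s ^ k) = ∑ t ∈ Finset.range k, TA p a (s ^ t) * Θ s := by
  induction k with
  | zero => rw [pow_zero, RankRed.coc_one hΘ, Finset.range_zero, Finset.sum_empty]
  | succ k ih => rw [pow_succ, hΘ.2, ih, Finset.sum_range_succ]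

theorem RankRed.coc_conj {Θ : G → GA p A} (hΘ : Θ ∈ Coc (TA p a)) (g s : G)
    (h1 : a s = 1) : Θ (g * s * g⁻¹) = TA p a g * Θ s := by
  have h2 : Θ g + TA p a g * Θ g⁻¹ = 0 := by
    rw [← hΘ.2, mul_inv_cancel, RankRed.coc_one hΘ]
  have h3 : TA p a s = 1 := by
    have : TA p a s = AddMonoidAlgebra.of (ZMod p) A (a s) := rfl
    rw [this, h1, map_one]
  rw [hΘ.2, hΘ.2, map_mul, h3, mul_one]
  linear_combination h2

theorem RankRed.coc_rho [Fintype ι] (hord : ∀ i n, a (r i) ^ n = 1 ↔ p ^ e i ∣ n)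
    (hPP : PP p r e a.ker ρ idx x) {Θ : G → GA p A} (hΘ : Θ ∈ Coc (TA p a)) (l : ι) :
    coef0 p (Θ (ρ l)) = ∑ t ∈ Finset.range (p ^ e (idx l)),
      (Θ (r (idx l))).coeff (-(Multiplicative.toAdd (a (x l) * a (r (idx l)) ^ t))) := by
  rw [hPP.rho_eq l, RankRed.coc_conj hΘ _ _
    (by rw [map_pow]; exact (hord _ _).2 dvd_rfl), RankRed.coc_pow hΘ]
  unfold coef0
  rw [RankRed.TA_mul_coeff, AddMonoidAlgebra.coeff_sum, Finsupp.finsetSum_apply]
  refine Finset.sum_congr rfl fun t _ => ?_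
  rw [RankRed.TA_mul_coeff]
  congr 1
  rw [map_pow, toAdd_mul]
  abel

theorem RankRed.kappa_hom {δ : ℕ} (hG : ProFree p δ G) [Fintype I] [Fintype ι]
    (ha : IsLocallyConstant a) (hs : Function.Surjective a)
    (hord : ∀ i n, a (r i) ^ n = 1 ↔ p ^ e i ∣ n)
    (hPP : PP p r e a.ker ρ idx x) (κ : I → ZMod p)
    (hκ : (fun l => κ (idx l)) ∈ Z2 p ρ) (f : G → ZMod p) (hf : f ∈ Hom1 p G) :
    ∑ i, κ i * f (r i) = 0 := by
  classical
  have := Fintype.ofFinite A
  have hfin : Finite (GA p A) := GA.finite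
  have hsurj : Function.Surjective (aug p (A := A)).toRingHom := fun c =>
    ⟨AddMonoidAlgebra.single 0 c, aug_single 0 c⟩
  obtain ⟨Θ, hΘ, hΘf⟩ := coc_lift hG.h2top (aug p (A := A)).toRingHom hsurj (TA p a)
    (TA_locConst a ha) 1 (fun g => (aug_TA a g).symm) f
    ⟨hf.1, fun y z => by rw [hf.2]; simp⟩
  have h1 := hκ _ (coef0_hom a Θ hΘ)
  have h2 : ∀ i, f (r i) = ∑ l ∈ Finset.univ.filter (fun l => idx l = i),
      coef0 p (Θ (ρ l)) := by
    intro i
    rw [← hΘf]
    change aug p (Θ (r i)) = _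
    rw [aug_eq_sum, ← RankRed.sum_coset hs hord hPP i]
    refine Finset.sum_congr rfl fun l hl => ?_
    have hl' : idx l = i := (Finset.mem_filter.1 hl).2
    subst hl'
    rw [RankRed.coc_rho hord hPP hΘ l]
  rw [← h1, ← Finset.sum_fiberwise Finset.univ idx]
  refine Finset.sum_congr rfl fun i _ => ?_
  rw [h2 i, Finset.mul_sum]
  refine Finset.sum_congr rfl fun l hl => ?_
  change κ i * _ = κ (idx l) * _
  rw [(Finset.mem_filter.1 hl).2]

end Act

/-- reduction to invariant functionals -/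
theorem rank_red {δ : ℕ} (hG : ProFree p δ G) {I : Type} [Fintype I] (r : I → G) (e : I → ℕ)
    {A : Type} [AddCommGroup A] [Finite A] (a : G →* Multiplicative A)
    (ha : IsLocallyConstant a) (hs : Function.Surjective a)
    (hord : ∀ i n, a (r i) ^ n = 1 ↔ p ^ e i ∣ n)
    {ι : Type} [Fintype ι] (ρ : ι → ↥a.ker) (idx : ι → I) (x : ι → G)
    (hPP : PP p r e a.ker ρ idx x) (z : ι → ZMod p) (hz : z ∈ Z2 p ρ) (hz0 : z ≠ 0) :
    ∃ κ : I → ZMod p, κ ≠ 0 ∧ (∀ f ∈ Hom1 p G, ∑ i, κ i * f (r i) = 0) ∧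
      ∀ n, RankGE p ρ (fun l => κ (idx l)) (2 ^ finrank (ZMod p) (Z2 p ρ) * n) →
        RankGE p ρ z n := by
  have hopen : IsOpen (a.ker : Set G) := ker_isOpen a ha
  have hJ := hG.sub a.ker hopen
  obtain ⟨hfP, hfZ⟩ := Z2_finite_HomP_finite hJ ρ
  obtain ⟨B, hB⟩ := exists_cupB hJ ρ
  have hP : IsPGroup p (Multiplicative A) := by
    obtain ⟨n, hn⟩ := hG.index_pow a.ker hopen
    intro b
    obtain ⟨g, rfl⟩ := hs b
    refine ⟨n, ?_⟩
    rw [← map_pow, ← hn, ← MonoidHom.mem_ker]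
    exact Subgroup.pow_index_mem a.ker g
  have hfinA : Finite (Multiplicative A) := inferInstanceAs (Finite A)
  have hrk1 : ∀ (b : Multiplicative A) (w : Z2 p ρ),
      finrank (ZMod p) (LinearMap.range (B (RankRed.tau hs hPP b w))) ≤
        finrank (ZMod p) (LinearMap.range (B w)) := by
    intro b w
    refine (rankGE_iff hJ ρ B hB w _).1 (RankRed.rankGE_act hJ hs hPP b w.2 _ ?_)
    exact (rankGE_iff hJ ρ B hB (RankRed.tau hs hPP b w) _).2 le_rfl
  have hrk2 : ∀ u v : Z2 p ρ, finrank (ZMod p) (LinearMap.range (B (u - v))) ≤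
      finrank (ZMod p) (LinearMap.range (B u)) + finrank (ZMod p) (LinearMap.range (B v)) := by
    intro u v
    refine le_trans (Submodule.finrank_mono ?_)
      (Submodule.finrank_add_le_finrank_add_finrank _ _)
    rintro _ ⟨y, rfl⟩
    rw [map_sub, LinearMap.sub_apply]
    exact Submodule.sub_mem _ (Submodule.mem_sup_left ⟨y, rfl⟩)
      (Submodule.mem_sup_right ⟨y, rfl⟩)
  obtain ⟨z0, hne, hfix, hrk⟩ := RankRed.exists_fixed hP (RankRed.tau hs hPP)
    (fun w => finrank (ZMod p) (LinearMap.range (B w))) hrk1 hrk2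
    (finrank (ZMod p) (Z2 p ρ)) ⊤ (fun _ _ _ => Submodule.mem_top) (by rw [finrank_top])
    ⟨z, hz⟩ Submodule.mem_top (fun h => hz0 (congrArg Subtype.val h))
  have hconst : ∀ l l', idx l = idx l' → (z0 : ι → ZMod p) l = (z0 : ι → ZMod p) l' := by
    intro l l' h
    have h1 : RankRed.act hs hPP (a (x l') * (a (x l))⁻¹)⁻¹ l' = l := by
      refine RankRed.act_unique hs hPP h 0 ?_
      rw [zpow_zero, mul_one, mul_inv_rev, inv_inv, inv_mul_cancel_right]
    have h2 := congrArg (fun w : Z2 p ρ => (w : ι → ZMod p) l')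
      (hfix (a (x l') * (a (x l))⁻¹))
    simp only [RankRed.tau_apply] at h2
    rw [h1] at h2
    exact h2
  have hcov : ∀ i, ∃ l, idx l = i := fun i => by
    obtain ⟨l, hl, -⟩ := hPP.cover i 1
    exact ⟨l, hl⟩
  choose lf hlf using hcov
  have hκ : (fun l => (z0 : ι → ZMod p) (lf (idx l))) = (z0 : ι → ZMod p) :=
    funext fun l => hconst _ _ (hlf (idx l))
  refine ⟨fun i => (z0 : ι → ZMod p) (lf i), ?_, ?_, ?_⟩
  · intro h
    apply hne
    apply Subtype.ext
    rw [← hκ]
    funext l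
    exact congrFun h (idx l)
  · refine RankRed.kappa_hom hG ha hs hord hPP (fun i => (z0 : ι → ZMod p) (lf i)) ?_
    rw [hκ]
    exact z0.2
  · intro n hn
    rw [hκ] at hn
    have h1 := (rankGE_iff hJ ρ B hB z0 _).1 hn
    refine (rankGE_iff hJ ρ B hB ⟨z, hz⟩ n).2 ?_
    have h2 := h1.trans hrk
    exact Nat.le_of_mul_le_mul_left h2 (by positivity)

end Pool.Agent.RFA
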