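import Pool.Agent.RFA.CoreB
import Pool.Agent.RFA.CoreC
import Pool.Agent.RFA.CoreR
import Pool.Agent.RFA.RankRed
import Pool.Agent.RFA.NewChar
import Pool.Agent.RFA.Growth
import Pool.Agent.RFA.IKm
import Pool.Agent.RFA.Jl

set_option autoImplicit false

namespace Pool.Agent.RFA

open Topology Module

variable {p : ℕ} [Fact p.Prime] {G : Type} [Group G] [TopologicalSpace G] [IsTopologicalGroup G]

/-- order of the loops and of the old relators in `(Z/p^m)²` -/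
theorem Core_hord {k : ℕ} {ι L : Type} (ρ : ι → G) (r : L → G) (χ : Fin (k + 1) → Z1 p G)
    (hχ : ∀ j i, (χ j : G → ℤ_[p]) (ρ i) = 0)
    (hu : ∀ l, IsUnit ((χ 0 : G → ℤ_[p]) (r l))) (m : ℕ) (i : ι ⊕ L) (n : ℕ) :
    redm p χ m (Sum.elim ρ r i) ^ n = 1 ↔
      p ^ (Sum.elim (fun _ => 0) (fun _ => m) i : ℕ) ∣ n := by
  rcases i with i | l
  · have h1 : redm p χ m (ρ i) = 1 := by
      show Multiplicative.ofAdd _ = 1
      rw [← ofAdd_zero]; congr 1; funext j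
      simp [hχ j i]
    simp [h1]
  · simp only [Sum.elim_inr]
    have key : ∀ j, (Multiplicative.toAdd (redm p χ m (r l) ^ n)) j =
        (n : ZMod (p ^ m)) * PadicInt.toZModPow m ((χ j : G → ℤ_[p]) (r l)) := by
      intro j
      rw [toAdd_pow]
      show (n • (Multiplicative.toAdd (redm p χ m (r l)))) j = _
      rw [Pi.smul_apply, nsmul_eq_mul]; rfl
    constructor
    · intro h
      have h0 := key 0
      rw [h] at h0
      have hunit : IsUnit (PadicInt.toZModPow m ((χ 0 : G → ℤ_[p]) (r l))) := (hu l).map _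
      have h1 : (n : ZMod (p ^ m)) * PadicInt.toZModPow m ((χ 0 : G → ℤ_[p]) (r l)) = 0 := by
        rw [← h0]; rfl
      have h2 : (n : ZMod (p ^ m)) = 0 := by
        have := hunit.mul_left_eq_zero.1 h1
        exact this
      exact (ZMod.natCast_eq_zero_iff _ _).1 h2
    · intro h
      have h2 : (n : ZMod (p ^ m)) = 0 := (ZMod.natCast_eq_zero_iff _ _).2 h
      apply Multiplicative.toAdd.injective
      funext j
      rw [key j, h2, zero_mul]; rfl

theorem Core_index (χ : Fin 2 → Z1 p G)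
    (hi : Indep p ⊤ (fun i => (χ i : G → ℤ_[p]))) (m : ℕ) :
    (redm p χ m).ker.index = p ^ m * p ^ m := by
  have : NeZero (p ^ m) := ⟨pow_ne_zero _ (Fact.out : p.Prime).ne_zero⟩
  rw [Subgroup.index_ker, MonoidHom.range_eq_top.2 (redm_surj χ hi m)]
  rw [Subgroup.card_top]
  have : Nat.card (Multiplicative (Fin 2 → ZMod (p ^ m))) = Nat.card (Fin 2 → ZMod (p ^ m)) :=
    Nat.card_congr Multiplicative.toAdd
  rw [this, Nat.card_fun]
  simp [Nat.card_eq_fintype_card, pow_two]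

/-- the core of the inductive step -/
theorem core (hp : p ≠ 2) {δ : ℕ} (hG : ProFree p δ G) {ι L : Type} [Fintype ι] [Fintype L]
    [Nonempty L] (ρ : ι → G) (r : L → G) (χa : Z1 p G)
    (ha0 : ∀ i, (χa : G → ℤ_[p]) (ρ i) = 0)
    (hau : ∀ l, IsUnit ((χa : G → ℤ_[p]) (r l)))
    (hnp : ∀ l l', l ≠ l' → ∃ ν : Z1 p G, (∀ i, (ν : G → ℤ_[p]) (ρ i) = 0) ∧
      (χa : G → ℤ_[p]) (r l) * (ν : G → ℤ_[p]) (r l') ≠
        (χa : G → ℤ_[p]) (r l') * (ν : G → ℤ_[p]) (r l))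
    (hIK : IK p ρ (fun _ : Fin 1 => redp p (χa : G → ℤ_[p])))
    (hrk : ∀ z ∈ Z2 p ρ, z ≠ 0 → RankGE p ρ z (4 * finrank (ZMod p) (Z2 p ρ) + 1))
    (hslack : Fintype.card ι < δ) (N : ℕ) :
    ∃ m ≥ N, ∃ (J : Subgroup G) (χ : Fin 3 → G → ℤ_[p]),
      Adm p (Sum.elim ρ r) (Sum.elim (fun _ => 0) (fun _ => m)) J ∧
      (∀ j, IsZ p (Rel p (Sum.elim ρ r) (Sum.elim (fun _ => 0) (fun _ => m))) J (χ j)) ∧
      Indep p J χ ∧
      Bdd p (Sum.elim ρ r) (Sum.elim (fun _ => 0) (fun _ => m)) J χ := by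
  classical
  have hpp : p.Prime := Fact.out
  obtain ⟨l₀⟩ := ‹Nonempty L›
  obtain ⟨χb, hb0, hind, hIK2, hcz, hdet⟩ :=
    choose_b hp hG ρ r χa ha0 ⟨r l₀, hau l₀⟩ hnp hIK hrk hslack
  set χ : Fin 2 → Z1 p G := ![χa, χb] with hχdef
  have hχ0 : χ 0 = χa := rfl
  have hχ1 : χ 1 = χb := rfl
  have hχ : ∀ j i, (χ j : G → ℤ_[p]) (ρ i) = 0 := by
    intro j i
    fin_cases j
    · exact ha0 i
    · exact hb0 i
  have hu : ∀ l, IsUnit ((χ 0 : G → ℤ_[p]) (r l)) := hau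
  obtain ⟨C, hC⟩ := core_bound hp hG ρ r χ hχ hu hind hIK2 hcz hdet
  obtain ⟨D, hD⟩ := core_rank hp hG ρ r χ hχ hu hind hIK2 hcz hdet hrk
  set m := N + (D + 2 ^ C * (4 * C + 1)) + (Fintype.card L + 3) with hm
  have hpm : m < p ^ m := Nat.lt_pow_self hpp.one_lt
  refine ⟨m, by omega, ?_⟩
  set a := redm p χ m with ha
  set J : Subgroup G := a.ker with hJ
  set rr : ι ⊕ L → G := Sum.elim ρ r with hrr
  set e : ι ⊕ L → ℕ := Sum.elim (fun _ => 0) (fun _ => m) with he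
  have hord : ∀ i n, a (rr i) ^ n = 1 ↔ p ^ e i ∣ n := fun i n => Core_hord ρ r χ hχ hu m i n
  have haloc : IsLocallyConstant a := redm_locConst χ m
  have hasurj : Function.Surjective a := redm_surj χ hind m
  have hadm : Adm p rr e J := ker_adm rr e a haloc hord
  have hJo : IsOpen (J : Set G) := hadm.isOpen
  obtain ⟨ι'', fι'', ρ'', idx, x, hPP⟩ := exists_PP hG rr e J hJo hadm.cyc
  have hGJ : ProFree p (δ * J.index) ↥J := hG.sub J hJo
  have hz2 := PP.finrank_Z2 hG hadm hPP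
  set h' := finrank (ZMod p) (Z2 p ρ'') with hh'
  have hh'C : h' ≤ C := by
    have := hC m
    have h3 : (h' : ℤ) ≤ C := by rw [hz2]; exact this
    exact_mod_cast h3
  have hne : NeZero (p ^ m) := ⟨pow_ne_zero _ hpp.ne_zero⟩
  have : Finite (Fin 2 → ZMod (p ^ m)) := inferInstance
  -- ranks
  have hrank : ∀ z ∈ Z2 p ρ'', z ≠ 0 → RankGE p ρ'' z (4 * h' + 1) := by
    intro z hz hz0
    obtain ⟨κ, hκ0, hκ, hred⟩ := rank_red hG rr e a haloc hasurj hord ρ'' idx x hPP z hz hz0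
    obtain ⟨Θ', hΘ', Θ, hΘ, h1, h2, b, hb, hbn⟩ := hD m κ hκ0 hκ
    have hn : 2 ^ h' * (4 * h' + 1) ≤
        finrank (ZMod p) ((Ideal.span {b}).restrictScalars (ZMod p)) := by
      refine le_trans ?_ hbn
      have h3 : 2 ^ h' * (4 * h' + 1) ≤ 2 ^ C * (4 * C + 1) :=
        Nat.mul_le_mul (Nat.pow_le_pow_right (by norm_num) hh'C) (by omega)
      omega
    exact hred _ (rank_inv hG rr e a haloc hasurj hord ρ'' idx x hPP κ hκ Θ' Θ hΘ' hΘ h1 h2 b hb
      _ hn).2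
  -- dimension
  have hidx : J.index = p ^ m * p ^ m := Core_index χ hind m
  have hdim : h' + 3 ≤ finrank (ZMod p) (HomP p ρ'') := by
    have h1 : HomP p ρ'' = HomR p (Rel p rr e) J := PP.homP hadm hPP
    have h2 := hG.rank J hJo
    have h3 : (h' : ℤ) = (∑ i, ((J.index / p ^ e i : ℕ) : ℤ)) -
        finrank (ZMod p) (Hom1 p ↥J) + finrank (ZMod p) (HomR p (Rel p rr e) J) := hz2
    have h4 : (∑ i, ((J.index / p ^ e i : ℕ) : ℤ)) =
        Fintype.card ι * J.index + Fintype.card L * p ^ m := by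
      rw [Fintype.sum_sum_type]
      simp only [he, Sum.elim_inl, Sum.elim_inr, pow_zero, Nat.div_one]
      have : J.index / p ^ m = p ^ m := by
        rw [hidx]; exact Nat.mul_div_cancel _ (pow_pos hpp.pos m)
      rw [this]
      simp
    rw [h4, h2, ← h1] at h3
    have h5 : (Fintype.card ι : ℤ) + 1 ≤ δ := by exact_mod_cast hslack
    have h6 : (Fintype.card L : ℤ) + 3 ≤ p ^ m := by
      have : Fintype.card L + 3 ≤ p ^ m := by omega
      exact_mod_cast this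
    have h7 : (J.index : ℤ) = p ^ m * p ^ m := by rw [hidx]; push_cast; ring
    have h8 : (h' : ℤ) + 3 ≤ finrank (ZMod p) (HomP p ρ'') := by
      push_cast at h3
      rw [h7] at h3
      have hq : (1 : ℤ) ≤ (p : ℤ) ^ m := by
        have : 1 ≤ p ^ m := Nat.one_le_iff_ne_zero.2 hne.ne
        exact_mod_cast this
      nlinarith [mul_le_mul_of_nonneg_right h5
        (mul_nonneg (le_trans zero_le_one hq) (le_trans zero_le_one hq)),
        mul_le_mul_of_nonneg_right h6 (le_trans zero_le_one hq)]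
    exact_mod_cast h8
  obtain ⟨χ'', hχ''0, hχ''i, hχ''I⟩ := newchar hGJ ρ'' hrank hdim
  -- extension to `G`
  have hrel : Rel p ρ'' (fun _ => 0) = (Rel p rr e).subgroupOf J := by
    have h1 := PP.rel (p := p) (c := e) (e := e) (fun _ => le_refl _) hJo hadm.rel_le hPP
    simpa using h1
  have hmap : (⊤ : Subgroup ↥J).map J.subtype = J := by
    rw [← MonoidHom.range_eq_map, Subgroup.range_subtype]
  have hext : ∀ j : Fin 3, ∃ φ' : G → ℤ_[p], IsZ p (Rel p rr e) J φ' ∧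
      ∀ y : ↥J, φ' y = (χ'' j : ↥J → ℤ_[p]) y := by
    intro j
    have h1 := Z1.isZ ρ'' (χ'' j) (hχ''0 j)
    rw [hrel] at h1
    obtain ⟨φ', h2, h3⟩ := IsZ.extend hJo hadm.rel_le ⊤ _ h1
    rw [hmap] at h2
    exact ⟨φ', h2, h3⟩
  choose χn hχn hχn' using hext
  have hfun : (fun i (y : ↥J) => χn i y) = fun i => (χ'' i : ↥J → ℤ_[p]) := by
    funext i y; exact hχn' i y
  refine ⟨J, χn, hadm, hχn, ?_, ?_⟩
  · have := (indep_sub (p := p) χn (⊤ : Subgroup ↥J)).1 (by rw [hfun]; exact hχ''i)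
    rwa [hmap] at this
  · refine ⟨h2 p ρ'' (fun _ => 0) ⊤, fun n => ?_⟩
    have hadm' : Adm p ρ'' (fun _ => 0) (⊤ : Subgroup ↥J) :=
      ⟨isOpen_univ, le_top, fun i y b _ => by simp⟩
    have hz1 : ∀ i, IsZ p (Rel p ρ'' (fun _ => 0)) ⊤ (fun y : ↥J => χn i y) := by
      intro i
      have h1 := Z1.isZ ρ'' (χ'' i) (hχ''0 i)
      have h2 : (fun y : ↥J => χn i y) = (χ'' i : ↥J → ℤ_[p]) := funext fun y => hχn' i y
      rw [h2]; exact h1
    have h1 := Jlev_adm hGJ hadm' hz1 n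
    have h2 := IK.h2_const hGJ ρ'' χ'' hχ''0 hχ''i hχ''I n
    have h3 := PP.h2_eq hG (c := e) (e := e) (fun _ => le_refl _) hJo hadm.cyc hadm.rel_le hPP
      (Jlev p ⊤ (fun i (y : ↥J) => χn i y) n) (by simpa using h1)
    have h4 := Jlev_map (p := p) (R := Rel p rr e) (χ := χn) (⊤ : Subgroup ↥J)
      (by rw [hmap]; exact hχn) n
    rw [hmap] at h4
    rw [h4] at h3
    rw [← h3, ← h2, hfun]
    simp

end Pool.Agent.RFA
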