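import Pool.Agent.RFA.Loops
import Pool.Agent.RFA.Core

set_option autoImplicit false

namespace Pool.Agent.RFA

open Topology Module

variable {p : ℕ} [Fact p.Prime] {G : Type} [Group G] [TopologicalSpace G] [IsTopologicalGroup G]

omit [Fact p.Prime] in
theorem Step_rel_le {I : Type} (r : I → G) (e : I → ℕ) (V : Subgroup G)
    (hV : IsClosed (V : Set G)) (h : ∀ i x, x * r i ^ p ^ e i * x⁻¹ ∈ V) : Rel p r e ≤ V := by
  apply Subgroup.topologicalClosure_minimal _ _ hV
  rw [Subgroup.normalClosure, Subgroup.closure_le]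
  intro g hg
  rw [Group.mem_conjugatesOfSet_iff] at hg
  obtain ⟨s, ⟨i, rfl⟩, hs⟩ := hg
  obtain ⟨x, hx⟩ := isConj_iff.1 hs
  rw [← hx]
  exact h i x

theorem Step_rel_conj {I : Type} (r : I → G) (e : I → ℕ) (i : I) (x : G) :
    x * r i ^ p ^ e i * x⁻¹ ∈ Rel p r e :=
  (Rel.normal (p := p) r e).conj_mem _ (Rel.mem r e i) x

/-- an open subgroup containing the normal subgroup `R` contains an open normal one containing `R` -/
theorem Step_core {δ : ℕ} (hG : ProFree p δ G) (R U : Subgroup G) (hR : R.Normal)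
    (hU : IsOpen (U : Set G)) (hRU : R ≤ U) :
    ∃ N : Subgroup G, N.Normal ∧ IsOpen (N : Set G) ∧ R ≤ N ∧ N ≤ U := by
  obtain ⟨N, hN, hNo, hNU, -⟩ := hG.basis (U : Set G) (hU.mem_nhds U.one_mem)
  refine ⟨N ⊔ R, Subgroup.sup_normal N R, ?_, le_sup_right, sup_le hNU hRU⟩
  exact Subgroup.isOpen_mono le_sup_left hNo

theorem Step_pow_mem {δ : ℕ} (hG : ProFree p δ G) (U : Subgroup G) (hUn : U.Normal)
    (hU : IsOpen (U : Set G)) : ∃ k, ∀ j ≥ k, ∀ g : G, g ^ p ^ j ∈ U := by
  obtain ⟨k, hk⟩ := hG.index_pow U hU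
  refine ⟨k, fun j hj g => ?_⟩
  have h1 : g ^ U.index ∈ U := Subgroup.pow_index_mem U g
  rw [hk] at h1
  obtain ⟨i, rfl⟩ := Nat.exists_eq_add_of_le hj
  rw [pow_add, pow_mul]
  exact U.pow_mem h1 _

/-- the inductive step -/
theorem step (hp : p ≠ 2) {δ : ℕ} (hG : ProFree p δ G) (S : Stage p δ G) (w : G)
    (U : Subgroup G) (hU : IsOpen (U : Set G)) (hRU : S.R ≤ U) :
    ∃ S' : Stage p δ G, S.R ≤ S'.R ∧ S'.R ≤ U ∧ ∃ n : ℕ, 0 < n ∧ w ^ n ∈ S'.R := by
  classical
  have hpp : p.Prime := Fact.out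
  by_cases hw : ∃ n : ℕ, 0 < n ∧ w ^ n ∈ S.R
  · exact ⟨S, le_refl _, hRU, hw⟩
  push Not at hw
  obtain ⟨V, w', c, χa, hadm, hroot, hcyc, hχa, hunit, hnp, ι, fι, ρ, idx, x, hPP, hIK, hrk⟩ :=
    loops hp hG S w hw
  have hVo := hadm.isOpen
  have hVc : IsClosed (V : Set G) := Subgroup.isClosed_of_isOpen V hVo
  have hGV := hG.sub V hVo
  have hcycL : Cyc p (fun _ : Unit => w') (fun _ => c) V := fun _ x a => hcyc x a
  obtain ⟨ιL, fL, rL, idxL, xL, hPPL⟩ := exists_PP hG (fun _ : Unit => w') (fun _ => c) V hVo hcycL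
  have hLne : Nonempty ιL := by
    obtain ⟨l, -⟩ := hPPL.cover () 1
    exact ⟨l⟩
  have hrL : ∀ l, (rL l : G) = xL l * w' ^ p ^ c * (xL l)⁻¹ := fun l => hPPL.rho_eq l
  have hρR : ∀ i, (ρ i : G) ∈ S.R := fun i => by
    rw [hPP.rho_eq i]; exact Step_rel_conj S.r S.e (idx i) (x i)
  -- slack
  have hslack : Fintype.card ι < δ * V.index := by
    have h1 := PP.card hG hVo hadm.cyc hPP (fun _ => 1)
    have h2 : (Fintype.card ι : ℚ) ≤ V.index * ∑ i, (1 : ℚ) / (p : ℚ) ^ S.e i := by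
      have h3 : (Fintype.card ι : ℚ) = ∑ i, ((V.index / p ^ S.e i : ℕ) : ℚ) := by
        have : Fintype.card ι = ∑ i, (V.index / p ^ S.e i) := by simpa using h1
        rw [this]; push_cast; rfl
      rw [h3, Finset.mul_sum]
      refine Finset.sum_le_sum fun i _ => ?_
      have := @Nat.cast_div_le ℚ _ _ _ V.index (p ^ S.e i)
      push_cast at this
      rw [mul_one_div]
      exact this
    have hV0 : 0 < V.index := Nat.pos_of_ne_zero (hG.finiteIndex V hVo).index_ne_zero
    have h4 : (V.index : ℚ) * ∑ i, (1 : ℚ) / (p : ℚ) ^ S.e i < V.index * δ :=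
      mul_lt_mul_of_pos_left S.slack (by exact_mod_cast hV0)
    have h5 : (Fintype.card ι : ℚ) < δ * V.index := by linarith
    exact_mod_cast h5
  -- the parameters
  obtain ⟨U₀, hU₀n, hU₀o, hRU₀, hU₀U⟩ :=
    Step_core hG S.R U (Rel.normal S.r S.e) hU hRU
  obtain ⟨k, hk⟩ := Step_pow_mem hG U₀ hU₀n hU₀o
  obtain ⟨N2, hN2⟩ : ∃ N2 : ℕ, ∀ j ≥ N2,
      ∑ i, (1 : ℚ) / (p : ℚ) ^ S.e i + 1 / (p : ℚ) ^ j < δ := by
    have hpos : (0 : ℚ) < δ - ∑ i, (1 : ℚ) / (p : ℚ) ^ S.e i := by linarith [S.slack]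
    have hp1 : (1 : ℚ) < p := by exact_mod_cast hpp.one_lt
    obtain ⟨n, hn⟩ := exists_pow_lt_of_lt_one hpos (show (1 / (p : ℚ)) < 1 by
      rw [div_lt_one (by linarith)]; exact hp1)
    refine ⟨n, fun j hj => ?_⟩
    have h1 : (1 / (p : ℚ)) ^ j ≤ (1 / (p : ℚ)) ^ n := by
      apply pow_le_pow_of_le_one (by positivity) _ hj
      rw [div_le_one (by linarith)]; exact hp1.le
    have h2 : (1 : ℚ) / (p : ℚ) ^ j = (1 / (p : ℚ)) ^ j := by rw [one_div_pow]
    rw [h2]; linarith
  -- core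
  obtain ⟨m, hm, J, χ, hJadm, hχ, hχi, hχb⟩ :=
    core (G := ↥V) hp hGV ρ rL (hχa.toZ1) (fun i => hχa.rel _ (hρR i))
      (fun l => by
        show IsUnit (χa (rL l))
        rw [hrL l]; exact hunit _)
      (by
        intro l l' hll
        by_contra hcon
        push Not at hcon
        apply hll
        obtain ⟨j, hj, a, hja⟩ := hnp (xL l) (xL l') (by
          intro ν hν
          have h1 := hcon hν.toZ1 (fun i => hν.rel _ (hρR i))
          have h2 : χa (rL l) * ν (rL l') = χa (rL l') * ν (rL l) := h1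
          rw [hrL l, hrL l'] at h2
          exact h2)
        exact hPPL.uniq l l' rfl ⟨j, hj, a, hja⟩)
      hIK hrk hslack (max k N2)
  have hmk : k ≤ c + m := le_trans (le_trans (le_max_left _ _) hm) (Nat.le_add_left _ _)
  have hmN : N2 ≤ c + m := le_trans (le_trans (le_max_right _ _) hm) (Nat.le_add_left _ _)
  -- the new presentation
  set rr : S.I ⊕ Unit → G := Sum.elim S.r (fun _ => w') with hrr
  set cc : S.I ⊕ Unit → ℕ := Sum.elim S.e (fun _ => c) with hcc
  set ee : S.I ⊕ Unit → ℕ := Sum.elim S.e (fun _ => c + m) with hee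
  have hce : ∀ i, cc i ≤ ee i := by
    rintro (i | i)
    · exact le_refl _
    · exact Nat.le_add_right _ _
  have hPPs := PP.sum hPP hPPL
  have hexp : (fun l => ee (Sum.map idx idxL l) - cc (Sum.map idx idxL l)) =
      Sum.elim (fun _ : ι => 0) (fun _ : ιL => m) := by
    funext l
    rcases l with l | l
    · simp [hee, hcc]
    · simp [hee, hcc]
  have hcycs : Cyc p rr cc V := by
    rintro (i | i) x a
    · exact hadm.cyc i x a
    · exact hcyc x a
  have hR'V : Rel p rr ee ≤ V := by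
    apply Step_rel_le rr ee V hVc
    rintro (i | i) x
    · exact hadm.rel_le (Step_rel_conj S.r S.e i x)
    · exact (hcyc x _).2 (pow_dvd_pow p (Nat.le_add_right c m))
  have hadm' : Adm p rr ee (J.map V.subtype) := by
    refine (PP.adm hce hVo hcycs hR'V hPPs J).1 ?_
    rw [hexp]; exact hJadm
  have hrel := PP.rel (p := p) hce hVo hR'V hPPs
  rw [hexp] at hrel
  have hext : ∀ j : Fin 3, ∃ φ' : G → ℤ_[p], IsZ p (Rel p rr ee) (J.map V.subtype) φ' ∧
      ∀ y : ↥V, φ' y = χ j y := by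
    intro j
    have h1 := hχ j
    rw [hrel] at h1
    exact IsZ.extend hVo hR'V J (χ j) h1
  choose χn hχn hχn' using hext
  have hfun : (fun i (y : ↥V) => χn i y) = χ := by
    funext i y; exact hχn' i y
  have hRR' : S.R ≤ Rel p rr ee := by
    apply Step_rel_le S.r S.e _ (Rel.closed rr ee)
    intro i x
    exact Step_rel_conj rr ee (Sum.inl i) x
  let S' : Stage p δ G :=
    { I := S.I ⊕ Unit
      fin := inferInstance
      r := rr
      e := ee
      V := J.map V.subtype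
      χ := χn
      adm := hadm'
      isZ := hχn
      indep := by
        apply (indep_sub (p := p) χn J).1
        rw [hfun]; exact hχi
      bdd := by
        obtain ⟨C, hC⟩ := hχb
        refine ⟨C, fun n => ?_⟩
        have h1 := Jlev_adm hGV hJadm hχ n
        have h3 := PP.h2_eq hG hce hVo hcycs hR'V hPPs (Jlev p J χ n) (by rw [hexp]; exact h1)
        have h4 := Jlev_map (p := p) (R := Rel p rr ee) (χ := χn) J hχn n
        rw [hfun] at h4
        rw [h4, hexp] at h3
        rw [← h3]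
        exact hC n
      slack := by
        rw [Fintype.sum_sum_type]
        simp only [hee, Sum.elim_inl, Sum.elim_inr, Finset.univ_unique, Finset.sum_singleton]
        exact hN2 _ hmN }
  refine ⟨S', hRR', ?_, p ^ (c + m), pow_pos hpp.pos _, ?_⟩
  · refine le_trans ?_ hU₀U
    apply Step_rel_le rr ee U₀ (Subgroup.isClosed_of_isOpen U₀ hU₀o)
    rintro (i | i) x
    · exact hRU₀ (Step_rel_conj S.r S.e i x)
    · exact hU₀n.conj_mem _ (hk _ hmk w') x
  · exact hroot (Rel p rr ee) (Rel.normal rr ee) (Rel.closed rr ee) hRR' _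
      (Rel.mem rr ee (Sum.inr ()))

/-- open normal subgroups of large index containing `R` -/
theorem large_index {δ : ℕ} (hG : ProFree p δ G) (S : Stage p δ G) (n : ℕ) :
    ∃ N : Subgroup G, N.Normal ∧ IsOpen (N : Set G) ∧ S.R ≤ N ∧ n ≤ N.index := by
  have hpp : p.Prime := Fact.out
  have hadm := Jlev_adm hG S.adm S.isZ n
  have hidx := Jlev_relIndex hG S.adm.isOpen S.isZ S.indep n
  obtain ⟨N, hN, hNo, hRN, hNJ⟩ :=
    Step_core hG S.R (Jlev p S.V S.χ n) (Rel.normal S.r S.e) hadm.isOpen hadm.rel_le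
  refine ⟨N, hN, hNo, hRN, ?_⟩
  have h1 : (Jlev p S.V S.χ n).index ∣ N.index := Subgroup.index_dvd_of_le hNJ
  have h2 : N.index ≠ 0 := (hG.finiteIndex N hNo).index_ne_zero
  refine le_trans ?_ (Nat.le_of_dvd (Nat.pos_of_ne_zero h2) h1)
  rw [hidx]
  have hV0 : 0 < S.V.index := Nat.pos_of_ne_zero (hG.finiteIndex S.V S.adm.isOpen).index_ne_zero
  have h3 : n < p ^ n := Nat.lt_pow_self hpp.one_lt
  have h4 : p ^ n ≤ p ^ (3 * n) := Nat.pow_le_pow_right hpp.pos (by omega)
  calc n ≤ 1 * p ^ (3 * n) := by omega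
    _ ≤ _ := Nat.mul_le_mul_right _ hV0

/-- the initial stage -/
theorem base {δ : ℕ} (hδ : 2 ≤ δ) (hG : ProFree p δ G) : Nonempty (Stage p δ G) := by
  classical
  have hpp : p.Prime := Fact.out
  have := hG.t2
  have := hG.finG
  have hR : Rel p (Empty.elim : Empty → G) (fun _ => 0) = ⊥ := by
    rw [eq_bot_iff]
    apply Step_rel_le _ _ _ (by simpa using isClosed_singleton)
    rintro ⟨⟩
  -- three independent classes
  obtain ⟨f, hf, hfi⟩ : ∃ f : Fin 3 → G → ZMod p, (∀ j, f j ∈ Hom1 p G) ∧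
      ∀ c : Fin 3 → ZMod p, (∀ x, ∑ j, c j * f j x = 0) → c = 0 := by
    have h3 : 3 ≤ finrank (ZMod p) (Hom1 p G) := by rw [hG.rankG]; omega
    obtain ⟨v, hv⟩ := exists_linearIndependent_of_le_finrank h3
    refine ⟨fun j => (v j : G → ZMod p), fun j => (v j).2, fun c hc => ?_⟩
    have h4 := Fintype.linearIndependent_iff.1 hv c (by
      apply Subtype.ext
      funext x
      have := hc x
      simpa [Finset.sum_apply] using this)
    exact funext h4
  choose φ hφ using fun j => zlift hG.h2top (hf j)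
  have hz : ∀ j, IsZ p (Rel p (Empty.elim : Empty → G) (fun _ => 0)) ⊤ (φ j : G → ℤ_[p]) :=
    fun j => Z1.isZ _ (φ j) (by rintro ⟨⟩)
  refine ⟨{ I := Empty, fin := inferInstance, r := Empty.elim, e := fun _ => 0, V := ⊤,
            χ := fun j => (φ j : G → ℤ_[p]), adm := ⟨isOpen_univ, le_top, by rintro ⟨⟩⟩,
            isZ := hz, indep := ?_, bdd := ?_, slack := ?_ }⟩
  · intro c hc
    apply hfi c
    intro x
    have := hc x (Subgroup.mem_top x)
    simpa [hφ] using this
  · refine ⟨0, fun m => ?_⟩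
    unfold h2
    have h1 : HomR p (Rel p (Empty.elim : Empty → G) (fun _ => 0))
        (Jlev p ⊤ (fun j => (φ j : G → ℤ_[p])) m) = Hom1 p ↥(Jlev p ⊤ (fun j => (φ j : G → ℤ_[p])) m) := by
      ext g
      constructor
      · exact fun h => h.1
      · intro h
        refine ⟨h, fun x hx => ?_⟩
        rw [hR] at hx
        have hx1 : x = 1 := by
          apply Subtype.ext; simpa using hx
        have h2 := h.2 1 1
        rw [mul_one] at h2
        rw [hx1]
        have : g 1 + 0 = g 1 + g 1 := by rw [add_zero]; exact h2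
        exact (add_left_cancel this).symm
    rw [h1]
    simp
  · simp
    omega

end Pool.Agent.RFA
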