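import Pool.Agent.RFA.Sub
import Pool.Agent.RFA.Jl

set_option autoImplicit false

namespace Pool.Agent.RFA

open Topology Module

variable {p : ℕ} [Fact p.Prime] {G : Type} [Group G] [TopologicalSpace G] [IsTopologicalGroup G]

namespace MinLAux

theorem toZMod_eq_zero_iff (x : ℤ_[p]) : PadicInt.toZMod x = 0 ↔ (p : ℤ_[p]) ∣ x := by
  rw [← RingHom.mem_ker, PadicInt.ker_toZMod, PadicInt.maximalIdeal_eq_span_p,
    Ideal.mem_span_singleton]

theorem exists_lift (c : ZMod p) : ∃ z : ℤ_[p], PadicInt.toZMod z = c :=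
  ⟨(c.val : ℤ_[p]), by rw [map_natCast, ZMod.natCast_zmod_val]⟩

theorem closed_dvd (m : ℕ) : IsClosed {z : ℤ_[p] | (p : ℤ_[p]) ^ m ∣ z} := by
  have h : {z : ℤ_[p] | (p : ℤ_[p]) ^ m ∣ z} = {z : ℤ_[p] | ‖z‖ ≤ (p : ℝ) ^ (-m : ℤ)} := by
    ext z
    show (p : ℤ_[p]) ^ m ∣ z ↔ ‖z‖ ≤ (p : ℝ) ^ (-m : ℤ)
    rw [PadicInt.norm_le_pow_iff_mem_span_pow, Ideal.mem_span_singleton]
  rw [h]
  exact isClosed_le continuous_norm continuous_const

theorem eq_zero_of_dvd_all {z : ℤ_[p]} (h : ∀ m : ℕ, (p : ℤ_[p]) ^ m ∣ z) : z = 0 := by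
  by_contra hz
  have h1 := h (z.valuation + 1)
  rw [← Ideal.mem_span_singleton, ← PadicInt.norm_le_pow_iff_mem_span_pow,
    PadicInt.norm_le_pow_iff_le_valuation _ hz] at h1
  omega

theorem isZ_one {R L : Subgroup G} {φ : G → ℤ_[p]} (h : IsZ p R L φ) : φ 1 = 0 := by
  have := h.mul 1 L.one_mem 1 L.one_mem
  rw [mul_one] at this
  simpa using this

theorem isZ_inv {R L : Subgroup G} {φ : G → ℤ_[p]} (h : IsZ p R L φ) {x : G} (hx : x ∈ L) :
    φ x⁻¹ = -φ x := by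
  have := h.mul x hx x⁻¹ (L.inv_mem hx)
  rw [mul_inv_cancel, isZ_one h] at this
  exact (neg_eq_of_add_eq_zero_right this.symm).symm

theorem isZ_pow {R L : Subgroup G} {φ : G → ℤ_[p]} (h : IsZ p R L φ) {x : G} (hx : x ∈ L) (n : ℕ) :
    φ (x ^ n) = n * φ x := by
  induction n with
  | zero => simp [isZ_one h]
  | succ n ih =>
    rw [pow_succ, h.mul _ (L.pow_mem hx n) _ hx, ih]
    push_cast
    ring

theorem isZ_sum {R L : Subgroup G} {d : ℕ} {φ : Fin d → G → ℤ_[p]} (h : ∀ i, IsZ p R L (φ i))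
    (c : Fin d → ℤ_[p]) : IsZ p R L (fun x => ∑ i, c i * φ i x) := by
  refine ⟨?_, ?_, ?_⟩
  · exact continuousOn_finsetSum _ fun i _ => continuousOn_const.mul (h i).cont
  · intro x hx y hy
    simp only [(h _).mul x hx y hy, mul_add, Finset.sum_add_distrib]
  · intro x hx
    simp only [(h _).rel x hx, mul_zero, Finset.sum_const_zero]

/-- division of a character divisible by `p ^ m` on `L` -/
theorem isZ_div {R L : Subgroup G} {ψ : G → ℤ_[p]} (h : IsZ p R L ψ) (m : ℕ)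
    (hd : ∀ x ∈ L, (p : ℤ_[p]) ^ m ∣ ψ x) :
    ∃ ψ', IsZ p R L ψ' ∧ ∀ x ∈ L, ψ x = (p : ℤ_[p]) ^ m * ψ' x := by
  have h1 : ∀ i : Fin 1, IsZ p R L ((fun _ => ψ) i) := fun _ => h
  have h2 : Jlev p L (fun _ : Fin 1 => ψ) m = L := by
    ext x
    rw [mem_Jlev h1]
    exact ⟨fun hx => hx.1, fun hx => ⟨hx, fun _ => hd x hx⟩⟩
  obtain ⟨h3, h4⟩ := IsZ.divp h1 m 0
  rw [h2] at h3 h4
  exact ⟨_, h3, h4⟩

end MinLAux

open MinLAux

theorem mem_Kap {R L : Subgroup G} (m : ℕ) (x : G) :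
    x ∈ Kap p R L m ↔ x ∈ L ∧ ∀ φ : G → ℤ_[p], IsZ p R L φ → (p : ℤ_[p]) ^ m ∣ φ x := by
  let H : Subgroup G :=
    { carrier := {x | x ∈ L ∧ ∀ φ : G → ℤ_[p], IsZ p R L φ → (p : ℤ_[p]) ^ m ∣ φ x}
      one_mem' := ⟨L.one_mem, fun φ hφ => by rw [isZ_one hφ]; exact dvd_zero _⟩
      mul_mem' := by
        rintro a b ⟨ha, ha'⟩ ⟨hb, hb'⟩
        refine ⟨L.mul_mem ha hb, fun φ hφ => ?_⟩
        rw [hφ.mul a ha b hb]
        exact dvd_add (ha' φ hφ) (hb' φ hφ)
      inv_mem' := by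
        rintro a ⟨ha, ha'⟩
        refine ⟨L.inv_mem ha, fun φ hφ => ?_⟩
        rw [isZ_inv hφ ha]
        exact (dvd_neg).2 (ha' φ hφ) }
  have hH : Kap p R L m = H := by
    unfold Kap
    exact Subgroup.closure_eq H
  rw [hH]
  rfl

theorem MinLAux.mem_Kap' {R L : Subgroup G} {d : ℕ} {φ : Fin d → G → ℤ_[p]}
    (hφ : ∀ i, IsZ p R L (φ i))
    (hb : ∀ ψ, IsZ p R L ψ → ∃ c : Fin d → ℤ_[p], ∀ x ∈ L, ψ x = ∑ i, c i * φ i x) (m : ℕ) :
    Kap p R L m = Jlev p L φ m := by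
  ext x
  rw [mem_Kap, mem_Jlev hφ]
  constructor
  · rintro ⟨h1, h2⟩
    exact ⟨h1, fun i => h2 _ (hφ i)⟩
  · rintro ⟨h1, h2⟩
    refine ⟨h1, fun ψ hψ => ?_⟩
    obtain ⟨c, hc⟩ := hb ψ hψ
    rw [hc x h1]
    exact Finset.dvd_sum fun i _ => (h2 i).mul_left _

/-- characters of `L` form a finitely generated free `ℤ_p`-module with a separating basis mod `p` -/
theorem exists_basis {δ : ℕ} (hG : ProFree p δ G) (R L : Subgroup G)
    (hL : IsOpen (L : Set G)) : ∃ (d : ℕ) (φ : Fin d → G → ℤ_[p]), (∀ i, IsZ p R L (φ i)) ∧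
      Indep p L φ ∧ ∀ ψ, IsZ p R L ψ → ∃ c : Fin d → ℤ_[p], ∀ x ∈ L, ψ x = ∑ i, c i * φ i x := by
  classical
  have := hG.fin L hL
  -- reductions of characters
  have hred : ∀ ψ : G → ℤ_[p], IsZ p R L ψ →
      (fun x : ↥L => (PadicInt.toZMod (ψ x) : ZMod p)) ∈ Hom1 p ↥L := by
    intro ψ hψ
    refine ⟨?_, fun x y => ?_⟩
    · have hc : Continuous fun x : ↥L => ψ x := continuousOn_iff_continuous_domRestrict.1 hψ.cont
      have hl : IsLocallyConstant (fun z : ℤ_[p] => (PadicInt.toZMod z : ZMod p)) := by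
        rw [IsLocallyConstant.iff_exists_open]
        intro z
        refine ⟨{y | ‖y - z‖ < 1}, ?_, by simp, ?_⟩
        · exact isOpen_lt ((continuous_id.sub continuous_const).norm) continuous_const
        · intro y hy
          have h1 : (p : ℤ_[p]) ∣ y - z := (PadicInt.norm_lt_one_iff_dvd _).1 hy
          have h2 := (toZMod_eq_zero_iff _).2 h1
          rw [map_sub, sub_eq_zero] at h2
          exact h2
      exact hl.comp_continuous hc
    · show PadicInt.toZMod (ψ ((x : G) * y)) = _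
      rw [hψ.mul x x.2 y y.2, map_add]
  -- the family of possible sizes is bounded
  let P : ℕ → Prop := fun d => ∃ φ : Fin d → G → ℤ_[p], (∀ i, IsZ p R L (φ i)) ∧ Indep p L φ
  have hP0 : P 0 := ⟨fun i => i.elim0, fun i => i.elim0, fun c _ => Subsingleton.elim _ _⟩
  have hPb : ∀ d, P d → d ≤ finrank (ZMod p) (Hom1 p ↥L) := by
    rintro d ⟨φ, h1, h2⟩
    let v : Fin d → Hom1 p ↥L := fun i => ⟨_, hred _ (h1 i)⟩
    have hv : LinearIndependent (ZMod p) v := by
      rw [Fintype.linearIndependent_iff]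
      intro g hg i
      have h3 : g = 0 := by
        refine h2 g fun x hx => ?_
        have h4 := congrArg (fun f : Hom1 p ↥L => (f : ↥L → ZMod p) ⟨x, hx⟩) hg
        simpa [v, Finset.sum_apply] using h4
      rw [h3]; rfl
    simpa using hv.fintype_card_le_finrank
  obtain ⟨d, ⟨φ, hφ, hφi⟩, hmax⟩ : ∃ d, P d ∧ ∀ d', P d' → d' ≤ d := by
    have hne : ∃ d, P d := ⟨0, hP0⟩
    refine ⟨Nat.findGreatest P (finrank (ZMod p) (Hom1 p ↥L)), ?_, fun d' hd' => ?_⟩
    · exact Nat.findGreatest_spec (hPb 0 hP0) hP0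
    · exact Nat.le_findGreatest (hPb d' hd') hd'
  refine ⟨d, φ, hφ, hφi, ?_⟩
  -- every character is a combination mod `p`
  have hmod : ∀ ψ, IsZ p R L ψ → ∃ c : Fin d → ℤ_[p], ∀ x ∈ L,
      (p : ℤ_[p]) ∣ ψ x - ∑ i, c i * φ i x := by
    intro ψ hψ
    by_contra hno
    push Not at hno
    have hbig : P (d + 1) := by
      refine ⟨Fin.cons ψ φ, fun i => ?_, fun c hc => ?_⟩
      · refine Fin.cases ?_ (fun j => ?_) i
        · exact hψ
        · exact hφ j
      · simp only [Fin.sum_univ_succ, Fin.cons_zero, Fin.cons_succ] at hc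
        by_cases h0 : c 0 = 0
        · have h1 : (fun i : Fin d => c i.succ) = 0 := by
            refine hφi _ fun x hx => ?_
            have := hc x hx
            rwa [h0, zero_mul, zero_add] at this
          funext i
          refine Fin.cases h0 (fun j => ?_) i
          exact congrFun h1 j
        · exfalso
          choose z hz using fun i : Fin d => exists_lift (p := p) (-(c 0)⁻¹ * c i.succ)
          obtain ⟨x, hx, hx'⟩ := hno z
          apply hx'
          rw [← toZMod_eq_zero_iff, map_sub, map_sum]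
          have h2 := hc x hx
          have h3 : PadicInt.toZMod (ψ x) = -(c 0)⁻¹ * ∑ i : Fin d, c i.succ *
              PadicInt.toZMod (φ i x) := by
            have h4 : ∑ i : Fin d, c i.succ * PadicInt.toZMod (φ i x) =
                -(c 0 * PadicInt.toZMod (ψ x)) := by
              rw [eq_neg_iff_add_eq_zero, add_comm]; exact h2
            rw [h4]
            field_simp
          rw [h3, Finset.mul_sum, sub_eq_zero]
          refine Finset.sum_congr rfl fun i _ => ?_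
          rw [map_mul, hz i]
          ring
    have := hmax _ hbig
    omega
  intro ψ hψ
  -- approximation modulo `p ^ N`
  have happ : ∀ N : ℕ, ∃ c : Fin d → ℤ_[p], ∀ x ∈ L,
      (p : ℤ_[p]) ^ N ∣ ψ x - ∑ i, c i * φ i x := by
    intro N
    induction N with
    | zero => exact ⟨0, fun x _ => by simp⟩
    | succ N ih =>
      obtain ⟨c, hc⟩ := ih
      have hψ2 : IsZ p R L (fun x => ψ x - ∑ i, c i * φ i x) := by
        have := IsZ.comb hψ (isZ_sum hφ c) 1 (-1)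
        refine ⟨?_, ?_, ?_⟩
        · exact this.cont.congr fun x _ => by ring
        · intro x hx y hy
          have := this.mul x hx y hy
          linear_combination this
        · intro x hx
          have := this.rel x hx
          linear_combination this
      obtain ⟨ψ', hψ', he⟩ := isZ_div hψ2 N hc
      obtain ⟨c', hc'⟩ := hmod ψ' hψ'
      refine ⟨fun i => c i + (p : ℤ_[p]) ^ N * c' i, fun x hx => ?_⟩
      have h1 : ψ x - ∑ i, (c i + (p : ℤ_[p]) ^ N * c' i) * φ i x =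
          (p : ℤ_[p]) ^ N * (ψ' x - ∑ i, c' i * φ i x) := by
        rw [mul_sub, ← he x hx, Finset.mul_sum]
        simp only [add_mul, Finset.sum_add_distrib, mul_assoc]
        ring
      rw [h1, pow_succ]
      exact mul_dvd_mul_left _ (hc' x hx)
  -- compactness
  let C : ℕ → Set (Fin d → ℤ_[p]) := fun N =>
    {c | ∀ x ∈ L, (p : ℤ_[p]) ^ N ∣ ψ x - ∑ i, c i * φ i x}
  have hCcl : ∀ N, IsClosed (C N) := by
    intro N
    have : C N = ⋂ x ∈ L, {c : Fin d → ℤ_[p] | (p : ℤ_[p]) ^ N ∣ ψ x - ∑ i, c i * φ i x} := by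
      ext c; simp [C]
    rw [this]
    refine isClosed_biInter fun x _ => ?_
    refine (closed_dvd N).preimage ?_
    fun_prop
  have hne : (⋂ N, C N).Nonempty := by
    refine IsCompact.nonempty_iInter_of_sequence_nonempty_isCompact_isClosed C (fun N => ?_)
      (fun N => happ N) ((hCcl 0).isCompact) hCcl
    intro c hc x hx
    exact (pow_dvd_pow _ (Nat.le_succ N)).trans (hc x hx)
  obtain ⟨c, hc⟩ := hne
  refine ⟨c, fun x hx => ?_⟩
  have h1 : ψ x - ∑ i, c i * φ i x = 0 :=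
    eq_zero_of_dvd_all fun m => (Set.mem_iInter.1 hc m) x hx
  exact sub_eq_zero.1 h1

theorem Kap_open {δ : ℕ} (hG : ProFree p δ G) {R L : Subgroup G} (hL : IsOpen (L : Set G))
    (m : ℕ) : IsOpen (Kap p R L m : Set G) := by
  obtain ⟨d, φ, h1, _, h3⟩ := exists_basis hG R L hL
  rw [mem_Kap' h1 h3]
  exact Jlev_open hG hL h1 m

/-- conjugation acts on characters of a normal subgroup -/
theorem IsZ.conj {R L : Subgroup G} (hR : R.Normal) (hL : L.Normal) {φ : G → ℤ_[p]}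
    (h : IsZ p R L φ) (g : G) : IsZ p R L (fun x => φ (g * x * g⁻¹)) := by
  refine ⟨?_, fun x hx y hy => ?_, fun x hx => ?_⟩
  · refine h.cont.comp (f := fun x => g * x * g⁻¹) ?_ fun x hx => hL.conj_mem x hx g
    exact Continuous.continuousOn (by fun_prop)
  · rw [← h.mul _ (hL.conj_mem x hx g) _ (hL.conj_mem y hy g)]
    congr 1
    group
  · exact h.rel _ (hR.conj_mem x hx g)

theorem Kap_normal {R L : Subgroup G} (hR : R.Normal) (hL : L.Normal) (m : ℕ) :
    (Kap p R L m).Normal := by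
  refine ⟨fun x hx g => ?_⟩
  rw [mem_Kap] at hx ⊢
  exact ⟨hL.conj_mem x hx.1 g, fun φ hφ => hx.2 _ (IsZ.conj hR hL hφ g)⟩

theorem le_Kap {R L : Subgroup G} (hRL : R ≤ L) (m : ℕ) : R ≤ Kap p R L m := by
  intro x hx
  rw [mem_Kap]
  exact ⟨hRL hx, fun φ hφ => by rw [hφ.rel x hx]; exact dvd_zero _⟩


namespace MinLAux

theorem cont_div {X : Type*} [TopologicalSpace X] {s : Set X} {q : X → ℤ_[p]} {a : ℤ_[p]}
    (ha : a ≠ 0) (h : ContinuousOn (fun x => a * q x) s) : ContinuousOn q s := by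
  have h1 : Continuous (fun z : ℤ_[p] => a * z) := continuous_const.mul continuous_id
  have h2 : Function.Injective (fun z : ℤ_[p] => a * z) := mul_right_injective₀ ha
  exact (h1.isClosedEmbedding h2).isInducing.continuousOn_iff.2 h

theorem hom_one {L : Subgroup G} {f : ↥L → ZMod p} (hf : f ∈ Hom1 p ↥L) : f 1 = 0 := by
  have := hf.2 1 1
  rw [mul_one] at this
  simpa using this

theorem hom_mul_inv {L : Subgroup G} {f : ↥L → ZMod p} (hf : f ∈ Hom1 p ↥L) (x y : ↥L) :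
    f (x * y⁻¹) = f x - f y := by
  have h1 := hf.2 (x * y⁻¹) y
  rw [inv_mul_cancel_right] at h1
  rw [h1]; ring

end MinLAux

/-- a homomorphism `L → K` that kills all elements killed by the characters of `L₀ ≥ L` lifts -/
theorem lift_factor {δ : ℕ} (hG : ProFree p δ G) {R L L₀ : Subgroup G} (hRL : R ≤ L)
    (hL : IsOpen (L : Set G)) (hL₀ : IsOpen (L₀ : Set G)) (hle : L ≤ L₀) (f : ↥L → ZMod p)
    (hf : f ∈ Hom1 p ↥L)
    (h : ∀ x : ↥L, (∀ φ : G → ℤ_[p], IsZ p R L₀ φ → φ x = 0) → f x = 0) :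
    ∃ χ : G → ℤ_[p], IsZ p R L χ ∧ ∀ x : ↥L, PadicInt.toZMod (χ x) = f x := by
  classical
  have := hG.compact
  obtain ⟨d, φ, hφ, _, hb⟩ := exists_basis hG R L₀ hL₀
  have hφL : ∀ i, IsZ p R L (φ i) := fun i => (hφ i).mono hle
  let Φ : G → (Fin d → ℤ_[p]) := fun x i => φ i x
  have hΦmul : ∀ x ∈ L, ∀ y ∈ L, Φ (x * y) = Φ x + Φ y := fun x hx y hy =>
    funext fun i => (hφL i).mul x hx y hy
  have hΦone : Φ 1 = 0 := funext fun i => isZ_one (hφL i)
  have hΦpow : ∀ x ∈ L, ∀ n : ℕ, Φ (x ^ n) = (n : ℤ_[p]) • Φ x := fun x hx n =>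
    funext fun i => isZ_pow (hφL i) hx n
  have hΦc : ContinuousOn Φ L := continuousOn_pi.2 fun i => (hφL i).cont
  have hLc : IsCompact (L : Set G) := (Subgroup.isClosed_of_isOpen L hL).isCompact
  have hcl : IsClosed (Φ '' (L : Set G)) := (hLc.image_of_continuousOn hΦc).isClosed
  let W : Submodule ℤ_[p] (Fin d → ℤ_[p]) :=
    { carrier := Φ '' (L : Set G)
      zero_mem' := ⟨1, L.one_mem, hΦone⟩
      add_mem' := by
        rintro _ _ ⟨x, hx, rfl⟩ ⟨y, hy, rfl⟩
        exact ⟨x * y, L.mul_mem hx hy, hΦmul x hx y hy⟩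
      smul_mem' := by
        rintro c _ ⟨x, hx, rfl⟩
        refine PadicInt.denseRange_natCast.induction_on
          (p := fun c : ℤ_[p] => c • Φ x ∈ Φ '' (L : Set G)) c ?_ ?_
        · exact hcl.preimage (continuous_id.smul continuous_const)
        · intro n
          exact ⟨x ^ n, L.pow_mem hx n, hΦpow x hx n⟩ }
  have hWmem : ∀ x : ↥L, Φ x ∈ W := fun x => ⟨x, x.2, rfl⟩
  -- the induced map
  have hwd : ∀ x y : ↥L, Φ x = Φ y → f x = f y := by
    intro x y hxy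
    have h1 : f (x * y⁻¹) = 0 := by
      apply h
      intro ψ hψ
      obtain ⟨c, hc⟩ := hb ψ hψ
      have h2 : ((x * y⁻¹ : ↥L) : G) ∈ L₀ := hle (x * y⁻¹).2
      rw [hc _ h2]
      apply Finset.sum_eq_zero
      intro i _
      have h3 : φ i ((x * y⁻¹ : ↥L) : G) = φ i x - φ i y := by
        show φ i ((x : G) * (y : G)⁻¹) = _
        rw [(hφL i).mul x x.2 _ (L.inv_mem y.2), isZ_inv (hφL i) y.2]
        ring
      rw [h3, show φ i x = φ i y from congrFun hxy i, sub_self, mul_zero]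
    rw [hom_mul_inv hf] at h1
    exact sub_eq_zero.1 h1
  have hsurj : ∀ w : W, ∃ x : ↥L, Φ x = w := fun w => by
    obtain ⟨x, hx, hx'⟩ := w.2
    exact ⟨⟨x, hx⟩, hx'⟩
  choose sec hsec using hsurj
  let fb : W →+ ZMod p :=
    { toFun := fun w => f (sec w)
      map_zero' := by
        have : f (sec 0) = f 1 := hwd _ _ (by
          rw [hsec]; exact hΦone.symm)
        rw [this, hom_one hf]
      map_add' := by
        intro w w'
        rw [← hf.2]
        apply hwd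
        show Φ (sec (w + w')) = Φ ((sec w : G) * (sec w'))
        rw [hΦmul _ (sec w).2 _ (sec w').2, hsec, hsec, hsec]
        rfl }
  have hfb : ∀ x : ↥L, fb ⟨Φ x, hWmem x⟩ = f x := fun x => hwd _ _ (hsec _)
  have hfbs : ∀ (c : ℤ_[p]) (w : W), fb (c • w) = PadicInt.toZMod c * fb w := by
    intro c w
    obtain ⟨μ, hμ⟩ : (p : ℤ_[p]) ∣ c - ((PadicInt.toZMod c).val : ℤ_[p]) := by
      rw [← toZMod_eq_zero_iff, map_sub, map_natCast, ZMod.natCast_zmod_val, sub_self]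
    have h1 : c • w = (PadicInt.toZMod c).val • w + p • (μ • w) := by
      rw [← Nat.cast_smul_eq_nsmul ℤ_[p], ← Nat.cast_smul_eq_nsmul ℤ_[p], smul_smul, ← hμ,
        ← add_smul]
      congr 1
      ring
    rw [h1, map_add, map_nsmul, map_nsmul, nsmul_eq_mul, nsmul_eq_mul, ZMod.natCast_self,
      zero_mul, add_zero, ZMod.natCast_zmod_val]
  -- Smith normal form
  obtain ⟨n, snf⟩ := W.smithNormalForm (Pi.basisFun ℤ_[p] (Fin d))
  let q : Fin n → G → ℤ_[p] := fun j x =>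
    if hx : x ∈ L then snf.bN.repr ⟨Φ x, hWmem ⟨x, hx⟩⟩ j else 0
  have hq : ∀ j, ∀ x (hx : x ∈ L), q j x = snf.bN.repr ⟨Φ x, hWmem ⟨x, hx⟩⟩ j := fun j x hx =>
    dif_pos hx
  have hane : ∀ j, snf.a j ≠ 0 := by
    intro j h0
    have h1 := snf.snf j
    rw [h0, zero_smul] at h1
    exact snf.bN.ne_zero j (Subtype.ext h1)
  have haq : ∀ j, ∀ x ∈ L, snf.a j * q j x = snf.bM.repr (Φ x) (snf.f j) := by
    intro j x hx
    have h1 := snf.repr_apply_embedding_eq_repr_smul (m := ⟨Φ x, hWmem ⟨x, hx⟩⟩) (i := j)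
    rw [h1, hq j x hx, map_smul]
    rfl
  have hqc : ∀ j, ContinuousOn (q j) L := by
    intro j
    refine cont_div (hane j) ?_
    have h1 : ContinuousOn (fun x => snf.bM.repr (Φ x) (snf.f j)) L := by
      have h2 : Continuous (snf.bM.coord (snf.f j)) := LinearMap.continuous_on_pi _
      exact h2.comp_continuousOn hΦc
    exact h1.congr fun x hx => haq j x hx
  have hqZ : ∀ j, IsZ p R L (q j) := by
    intro j
    refine ⟨hqc j, fun x hx y hy => ?_, fun x hx => ?_⟩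
    · rw [hq j _ (L.mul_mem hx hy), hq j x hx, hq j y hy, ← Finsupp.add_apply, ← map_add]
      congr 2
      exact Subtype.ext (hΦmul x hx y hy)
    · have h0 : Φ x = 0 := funext fun i => (hφL i).rel x hx
      rw [hq j x (hRL hx)]
      have h1 : (⟨Φ x, hWmem ⟨x, hRL hx⟩⟩ : W) = 0 := Subtype.ext h0
      rw [h1, map_zero]
      rfl
  choose c hc using fun j : Fin n => exists_lift (p := p) (fb (snf.bN j))
  refine ⟨fun x => ∑ j, c j * q j x, isZ_sum hqZ c, fun x => ?_⟩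
  rw [← hfb x, ← snf.bN.sum_repr ⟨Φ x, hWmem x⟩, map_sum, map_sum]
  refine Finset.sum_congr rfl fun j _ => ?_
  rw [hfbs, map_mul, hc j, hq j x x.2, mul_comm]


namespace MinLAux

omit [TopologicalSpace G] [IsTopologicalGroup G] in
/-- fixed vectors of `p`-groups -/
theorem fixed_exists {V : Type*} [AddCommGroup V] [Module (ZMod p) V] [Finite V] [Nontrivial V]
    [MulAction G V] (h0 : ∀ g : G, g • (0 : V) = 0) (k : ℕ)
    (hk : ∀ (g : G) (v : V), g ^ p ^ k • v = v) : ∃ v : V, v ≠ 0 ∧ ∀ g : G, g • v = v := by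
  let A := (MulAction.toPermHom G V).range
  have hA : IsPGroup p A := by
    rintro ⟨σ, g, rfl⟩
    refine ⟨k, Subtype.ext ?_⟩
    show (MulAction.toPermHom G V g) ^ p ^ k = 1
    rw [← map_pow]
    ext v
    exact hk g v
  have hcard : p ∣ Nat.card V := by
    have : Fintype V := Fintype.ofFinite V
    rw [Nat.card_eq_fintype_card, Module.card_eq_pow_finrank (K := ZMod p) (V := V), ZMod.card]
    exact dvd_pow_self p (Module.finrank_pos (R := ZMod p) (M := V)).ne'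
  have hz : (0 : V) ∈ MulAction.fixedPoints A V := by
    rintro ⟨σ, g, rfl⟩
    exact h0 g
  obtain ⟨b, hb, hb0⟩ := hA.exists_fixed_point_of_prime_dvd_card_of_fixed_point V hcard hz
  refine ⟨b, hb0.symm, fun g => ?_⟩
  exact hb ⟨MulAction.toPermHom G V g, g, rfl⟩

/-- there is a nonzero homomorphism `L → K`, killing `K₀`, invariant under conjugation -/
theorem exists_inv_hom {δ : ℕ} (hG : ProFree p δ G) {L K₀ : Subgroup G} (hL : L.Normal)
    (hK : K₀.Normal) (hLo : IsOpen (L : Set G)) (hKo : IsOpen (K₀ : Set G)) {u : G} (hu : u ∈ L)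
    (hu' : u ∉ K₀) : ∃ f : ↥L → ZMod p, f ∈ Hom1 p ↥L ∧ (∀ x : ↥L, (x : G) ∈ K₀ → f x = 0) ∧
      f ≠ 0 ∧ ∀ (g : G) (x : ↥L), f (MulAut.conjNormal g x) = f x := by
  classical
  have := hG.fin L hLo
  have := hG.finiteIndex L hLo
  have hle : HomR p K₀ L ≤ Hom1 p ↥L := fun f hf => hf.1
  have : Module.Finite (ZMod p) (HomR p K₀ L) := Submodule.finiteDimensional_of_le hle
  have : Finite (HomR p K₀ L) := Module.finite_of_finite (ZMod p)
  -- nonzero
  obtain ⟨f₀, hf₀, hne, hf₀'⟩ := (hG.sub L hLo).exists_hom (K₀.subgroupOf L)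
    (hKo.preimage continuous_subtype_val) (by
      intro h
      have : (⟨u, hu⟩ : ↥L) ∈ K₀.subgroupOf L := by rw [h]; trivial
      exact hu' this)
  have : Nontrivial (HomR p K₀ L) :=
    ⟨⟨⟨f₀, hf₀, fun x hx => hf₀' x hx⟩, 0, fun h => hne (congrArg Subtype.val h)⟩⟩
  have hmem : ∀ (g : G) (f : ↥L → ZMod p), f ∈ HomR p K₀ L →
      (fun x : ↥L => f (MulAut.conjNormal g⁻¹ x)) ∈ HomR p K₀ L := by
    intro g f hf
    refine ⟨⟨?_, fun x y => ?_⟩, fun x hx => ?_⟩
    · refine hf.1.1.comp_continuous (f := fun x : ↥L => MulAut.conjNormal g⁻¹ x) ?_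
      rw [continuous_induced_rng]
      have h1 : (Subtype.val ∘ fun x : ↥L => MulAut.conjNormal g⁻¹ x) =
          fun x : ↥L => g⁻¹ * (x : G) * g⁻¹⁻¹ := by
        funext x
        exact MulAut.conjNormal_apply _ _
      rw [h1]
      fun_prop
    · show f (MulAut.conjNormal g⁻¹ (x * y)) = _
      rw [map_mul, hf.1.2]
    · refine hf.2 _ ?_
      rw [MulAut.conjNormal_apply]
      exact hK.conj_mem _ hx g⁻¹
  let act : MulAction G (HomR p K₀ L) :=
    { smul := fun g f => ⟨fun x => f.1 (MulAut.conjNormal g⁻¹ x), hmem g f.1 f.2⟩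
      one_smul := by
        intro f
        refine Subtype.ext (funext fun x => ?_)
        show f.1 (MulAut.conjNormal (1 : G)⁻¹ x) = f.1 x
        rw [inv_one, map_one]
        rfl
      mul_smul := by
        intro g g' f
        refine Subtype.ext (funext fun x => ?_)
        show f.1 (MulAut.conjNormal (g * g')⁻¹ x) =
          f.1 (MulAut.conjNormal g'⁻¹ (MulAut.conjNormal g⁻¹ x))
        rw [mul_inv_rev, map_mul]
        rfl }
  obtain ⟨k, hk⟩ := hG.index_pow L hLo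
  obtain ⟨v, hv, hv'⟩ := fixed_exists (p := p) (G := G) (V := HomR p K₀ L) (fun g => by
    refine Subtype.ext (funext fun x => ?_)
    rfl) k (fun g f => by
    refine Subtype.ext (funext fun x => ?_)
    show f.1 (MulAut.conjNormal (g ^ p ^ k)⁻¹ x) = f.1 x
    have hg : g ^ p ^ k ∈ L := by
      rw [← hk]
      exact Subgroup.pow_index_mem (H := L) g
    have h1 : (MulAut.conjNormal (g ^ p ^ k)⁻¹ x : ↥L) =
        (⟨g ^ p ^ k, hg⟩ : ↥L)⁻¹ * x * ⟨g ^ p ^ k, hg⟩ := by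
      refine Subtype.ext ?_
      rw [MulAut.conjNormal_apply]
      simp
    rw [h1]
    have h2 := f.2.1.2
    have h3 : f.1 ((⟨g ^ p ^ k, hg⟩ : ↥L)⁻¹) = - f.1 ⟨g ^ p ^ k, hg⟩ := by
      have h4 := hom_mul_inv f.2.1 1 ⟨g ^ p ^ k, hg⟩
      rw [one_mul, hom_one f.2.1, zero_sub] at h4
      exact h4
    rw [h2, h2, h3]
    ring)
  refine ⟨v.1, v.2.1, v.2.2, fun h => hv (Subtype.ext h), fun g x => ?_⟩
  have h5 := congrArg (fun f : HomR p K₀ L => f.1 x) (hv' g⁻¹)
  have h6 : v.1 (MulAut.conjNormal (g⁻¹)⁻¹ x) = v.1 x := h5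
  rwa [inv_inv] at h6

end MinLAux

/-- the (a)-property -/
theorem minL {δ : ℕ} (hG : ProFree p δ G) (R : Subgroup G) (hR : R.Normal) (L₀ : Subgroup G)
    (hL₀ : L₀.Normal) (hL₀o : IsOpen (L₀ : Set G)) (hRL : R ≤ L₀) (u : G) (hu : u ∈ L₀)
    (φ₀ : G → ℤ_[p]) (hφ₀ : IsZ p R L₀ φ₀) (hne : φ₀ u ≠ 0) :
    ∃ (L : Subgroup G) (χ₀ : G → ℤ_[p]), L.Normal ∧ IsOpen (L : Set G) ∧ R ≤ L ∧ L ≤ L₀ ∧
      u ∈ L ∧ IsZ p R L χ₀ ∧ ∀ g, PadicInt.toZMod (χ₀ (g * u * g⁻¹)) = 1 := by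
  classical
  obtain ⟨n, hn⟩ : ∃ n : ℕ, ¬ (p : ℤ_[p]) ^ n ∣ φ₀ u := by
    by_contra h
    push Not at h
    exact hne (eq_zero_of_dvd_all h)
  set K := Kap p R L₀ n with hK
  have hKo : IsOpen (K : Set G) := Kap_open hG hL₀o n
  have hKn : K.Normal := Kap_normal hR hL₀ n
  have hKL : K ≤ L₀ := fun x hx => ((mem_Kap n x).1 hx).1
  have hRK : R ≤ K := le_Kap hRL n
  have huK : u ∉ K := fun h => hn (((mem_Kap n u).1 h).2 φ₀ hφ₀)
  have := hG.finiteIndex K hKo
  -- minimal normal subgroup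
  let Q : ℕ → Prop := fun i => ∃ L : Subgroup G, L.Normal ∧ K ≤ L ∧ L ≤ L₀ ∧ u ∈ L ∧ L.index = i
  have hQ0 : Q L₀.index := ⟨L₀, hL₀, hKL, le_rfl, hu, rfl⟩
  have hQb : ∀ i, Q i → i ≤ K.index := by
    rintro i ⟨L, _, h1, _, _, rfl⟩
    exact Nat.le_of_dvd (Nat.pos_of_ne_zero Subgroup.FiniteIndex.index_ne_zero)
      (Subgroup.index_dvd_of_le h1)
  obtain ⟨L, hL, hKL', hLL, huL, hLi⟩ := Nat.findGreatest_spec (P := Q) (hQb _ hQ0) hQ0
  have hmax : ∀ L' : Subgroup G, L'.Normal → K ≤ L' → L' ≤ L₀ → u ∈ L' → L'.index ≤ L.index := by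
    intro L' h1 h2 h3 h4
    rw [hLi]
    exact Nat.le_findGreatest (hQb _ ⟨L', h1, h2, h3, h4, rfl⟩) ⟨L', h1, h2, h3, h4, rfl⟩
  have hLo : IsOpen (L : Set G) := Subgroup.isOpen_mono hKL' hKo
  obtain ⟨f, hf, hfK, hf0, hfinv⟩ := exists_inv_hom hG hL hKn hLo hKo huL huK
  -- `f u ≠ 0`
  have hfu : f ⟨u, huL⟩ ≠ 0 := by
    intro h0
    let N : Subgroup G :=
      { carrier := {x | ∃ hx : x ∈ L, f ⟨x, hx⟩ = 0}
        one_mem' := ⟨L.one_mem, hom_one hf⟩
        mul_mem' := by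
          rintro a b ⟨ha, ha'⟩ ⟨hb, hb'⟩
          refine ⟨L.mul_mem ha hb, ?_⟩
          have := hf.2 ⟨a, ha⟩ ⟨b, hb⟩
          rw [ha', hb', add_zero] at this
          exact this
        inv_mem' := by
          rintro a ⟨ha, ha'⟩
          refine ⟨L.inv_mem ha, ?_⟩
          have h4 := hom_mul_inv hf 1 ⟨a, ha⟩
          rw [one_mul, hom_one hf, zero_sub, ha', neg_zero] at h4
          exact h4 }
    have hN : N.Normal := by
      refine ⟨fun x hx g => ?_⟩
      obtain ⟨hx, hx'⟩ := hx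
      refine ⟨hL.conj_mem x hx g, ?_⟩
      have h1 := hfinv g ⟨x, hx⟩
      rw [hx'] at h1
      rw [← h1]
      congr 1
    have hNL : N ≤ L := fun x hx => hx.1
    have hKN : K ≤ N := fun x hx => ⟨hKL' hx, hfK ⟨x, hKL' hx⟩ hx⟩
    have h1 := hmax N hN hKN (hNL.trans hLL) ⟨huL, h0⟩
    have hNe : N ≠ L := by
      intro h
      apply hf0
      funext x
      have h2 : (x : G) ∈ N := by rw [h]; exact x.2
      obtain ⟨_, h3⟩ := h2
      exact h3
    have : N.FiniteIndex := Subgroup.finiteIndex_of_le hKN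
    have h2 : L.index < N.index := by
      have h3 := Subgroup.relIndex_mul_index hNL
      have h4 : N.relIndex L ≠ 1 := fun h => hNe (le_antisymm hNL (Subgroup.relIndex_eq_one.1 h))
      have h5 : N.index ≠ 0 := Subgroup.FiniteIndex.index_ne_zero
      have h6 : N.relIndex L ≠ 0 := fun h => h5 (by rw [← h3, h, zero_mul])
      have h7 : L.index ≠ 0 := fun h => h5 (by rw [← h3, h, mul_zero])
      rw [← h3]
      have : 2 ≤ N.relIndex L := by omega
      have h8 : 0 < L.index := Nat.pos_of_ne_zero h7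
      nlinarith
    omega
  obtain ⟨χ, hχ, hχf⟩ := lift_factor hG (hRK.trans hKL') hLo hL₀o hLL f hf (fun x hx => by
    refine hfK x ((mem_Kap n _).2 ⟨hLL x.2, fun φ hφ => ?_⟩)
    rw [hx φ hφ]
    exact dvd_zero _)
  obtain ⟨c, hc⟩ := exists_lift (p := p) (f ⟨u, huL⟩)⁻¹
  refine ⟨L, fun x => c * χ x, hL, hLo, hRK.trans hKL', hLL, huL, ?_, fun g => ?_⟩
  · have h1 := isZ_sum (d := 1) (fun _ => hχ) (fun _ => c)
    simpa using h1
  · have h1 := hχf ⟨g * u * g⁻¹, hL.conj_mem u huL g⟩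
    have h2 : f ⟨g * u * g⁻¹, hL.conj_mem u huL g⟩ = f ⟨u, huL⟩ := by
      rw [← hfinv g ⟨u, huL⟩]
      congr 1
    rw [map_mul, hc]
    simp only at h1
    rw [h1, h2, inv_mul_cancel₀ hfu]

end Pool.Agent.RFA
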