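import Pool.Agent.RFA.AC
import Pool.Agent.RFA.MinL

set_option autoImplicit false

namespace Pool.Agent.RFA

open Topology Module

variable {p : ℕ} [Fact p.Prime] {G : Type} [Group G] [TopologicalSpace G] [IsTopologicalGroup G]

namespace TorsAux

/-- a compact set missing the closed normal subgroup `R` misses an open normal subgroup
containing `R` -/
theorem tors_sep {δ : ℕ} (hG : ProFree p δ G) {R : Subgroup G} (hR : R.Normal)
    (hRc : IsClosed (R : Set G)) {Z : Set G} (hZ : IsCompact Z) (hZR : ∀ z ∈ Z, z ∉ R) :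
    ∃ N : Subgroup G, N.Normal ∧ IsOpen (N : Set G) ∧ R ≤ N ∧ ∀ z ∈ Z, z ∉ N := by
  classical
  have h1 : ∀ z : G, ∃ N : Subgroup G, N.Normal ∧ IsOpen (N : Set G) ∧ R ≤ N ∧
      (z ∈ Z → z ∉ N) := by
    intro z
    by_cases hz : z ∈ Z
    · obtain ⟨N, h1, h2, h3, h4⟩ := hG.exists_open R hR hRc z (hZR z hz)
      exact ⟨N, h1, h2, h3, fun _ => h4⟩
    · exact ⟨⊤, inferInstance, isOpen_univ, le_top, fun h => absurd h hz⟩
  choose N hN hNo hRN hzN using h1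
  obtain ⟨t, hts, ht⟩ := hZ.elim_nhds_subcover (fun z => {w : G | z⁻¹ * w ∈ N z}) (by
    intro z _
    refine IsOpen.mem_nhds ((hNo z).preimage (continuous_const.mul continuous_id)) ?_
    show z⁻¹ * z ∈ N z
    rw [inv_mul_cancel]
    exact (N z).one_mem)
  refine ⟨⨅ z ∈ t, N z, ?_, ?_, ?_, ?_⟩
  · refine ⟨fun n hn g => ?_⟩
    simp only [Subgroup.mem_iInf] at hn ⊢
    exact fun z hz => (hN z).conj_mem n (hn z hz) g
  · have : ((⨅ z ∈ t, N z : Subgroup G) : Set G) = ⋂ z ∈ t, (N z : Set G) := by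
      simp
    rw [this]
    exact isOpen_biInter_finset fun z _ => hNo z
  · exact le_iInf₂ fun z _ => hRN z
  · intro w hw hwN
    obtain ⟨z, hz, hzw⟩ := Set.mem_iUnion₂.1 (ht hw)
    simp only [Subgroup.mem_iInf] at hwN
    have h2 : w ∈ N z := hwN z hz
    have h3 : z⁻¹ * w ∈ N z := hzw
    have h4 : z ∈ N z := by
      have h5 := (N z).mul_mem h2 ((N z).inv_mem h3)
      rw [mul_inv_rev, inv_inv, ← mul_assoc, mul_inv_cancel, one_mul] at h5
      exact h5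
    exact hzN z (hts z hz) h4

theorem toZMod_cont : Continuous (fun z : ℤ_[p] => (PadicInt.toZMod z : ZMod p)) := by
  have hl : IsLocallyConstant (fun z : ℤ_[p] => (PadicInt.toZMod z : ZMod p)) := by
    rw [IsLocallyConstant.iff_exists_open]
    intro z
    refine ⟨{y | ‖y - z‖ < 1}, ?_, by simp, ?_⟩
    · exact isOpen_lt ((continuous_id.sub continuous_const).norm) continuous_const
    · intro y hy
      have h1 : (p : ℤ_[p]) ∣ y - z := (PadicInt.norm_lt_one_iff_dvd _).1 hy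
      have h2 := (MinLAux.toZMod_eq_zero_iff _).2 h1
      rw [map_sub, sub_eq_zero] at h2
      exact h2
  exact hl.continuous

omit [TopologicalSpace G] [IsTopologicalGroup G] in
/-- a decomposition of an invariant function along the free action of `⟨x⟩ N / N` on the double
cosets `N \ G / ⟨r⟩` -/
theorem exists_split {K : Type} [Semiring K] {N : Subgroup G} (hN : N.Normal) (x r : G)
    (hxp : x ^ p ∈ N) (hfree : ∀ y : G, ∀ k : ℤ, y⁻¹ * x * y * r ^ k ∉ N) (v : G → K)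
    (hvl : ∀ g ∈ N, ∀ y, v (g * y) = v y) (hvx : ∀ y, v (x * y) = v y)
    (hvr : ∀ y, v (y * r) = v y) :
    ∃ v₀ : G → K, (∀ g ∈ N, ∀ y, v₀ (g * y) = v₀ y) ∧ (∀ y, v₀ (y * r) = v₀ y) ∧
      ∀ y, ∑ i ∈ Finset.range p, v₀ ((x ^ i)⁻¹ * y) = v y := by
  classical
  let A : Subgroup G := N ⊔ Subgroup.zpowers x
  let B : Subgroup G := Subgroup.zpowers r
  let s : Setoid G := DoubleCoset.setoid (A : Set G) (B : Set G)
  have hsrel : ∀ a b : G, s a b ↔ ∃ g ∈ A, ∃ h ∈ B, b = g * a * h := fun a b =>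
    DoubleCoset.rel_iff
  let out : G → G := fun y => Quotient.out (Quotient.mk s y)
  have hout : ∀ y, s (out y) y := fun y => Quotient.mk_out (s := s) y
  have houtA : ∀ g ∈ A, ∀ y, ∀ h ∈ B, out (g * y * h) = out y := by
    intro g hg y h hh
    have h1 : Quotient.mk s (g * y * h) = Quotient.mk s y := by
      symm
      exact Quotient.sound ((hsrel _ _).2 ⟨g, hg, h, hh, rfl⟩)
    simp only [out, h1]
  let D : Set G := {y | ∃ n ∈ N, ∃ h ∈ B, y = n * out y * h}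
  have hNA : N ≤ A := le_sup_left
  have hxA : x ∈ A := (le_sup_right : Subgroup.zpowers x ≤ A) (Subgroup.mem_zpowers x)
  have hrB : r ∈ B := Subgroup.mem_zpowers r
  have hDl : ∀ g ∈ N, ∀ y, (g * y ∈ D ↔ y ∈ D) := by
    have key : ∀ g ∈ N, ∀ y ∈ D, g * y ∈ D := by
      rintro g hg y ⟨n, hn, h, hh, he⟩
      refine ⟨g * n, N.mul_mem hg hn, h, hh, ?_⟩
      have h1 : out (g * y) = out y := by
        have := houtA g (hNA hg) y 1 B.one_mem
        rwa [mul_one] at this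
      rw [h1]
      conv_lhs => rw [he]
      group
    intro g hg y
    refine ⟨fun h => ?_, key g hg y⟩
    have := key g⁻¹ (N.inv_mem hg) _ h
    rwa [inv_mul_cancel_left] at this
  have hDr : ∀ y, (y * r ∈ D ↔ y ∈ D) := by
    have key : ∀ k ∈ B, ∀ y ∈ D, y * k ∈ D := by
      rintro k hk y ⟨n, hn, h, hh, he⟩
      refine ⟨n, hn, h * k, B.mul_mem hh hk, ?_⟩
      have h1 : out (y * k) = out y := by
        have := houtA 1 A.one_mem y k hk
        rwa [one_mul] at this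
      rw [h1]
      conv_lhs => rw [he]
      group
    intro y
    refine ⟨fun h => ?_, key r hrB y⟩
    have := key r⁻¹ (B.inv_mem hrB) _ h
    rwa [mul_inv_cancel_right] at this
  have hvpow : ∀ i : ℕ, ∀ y, v ((x ^ i)⁻¹ * y) = v y := by
    intro i
    induction i with
    | zero => intro y; simp
    | succ i ih =>
      intro y
      rw [← ih y, ← hvx ((x ^ (i + 1))⁻¹ * y)]
      congr 1
      rw [pow_succ]
      group
  -- existence and uniqueness
  have hex : ∀ y, ∃ i ∈ Finset.range p, (x ^ i)⁻¹ * y ∈ D := by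
    intro y
    obtain ⟨g, hg, h, hh, he⟩ := (hsrel _ _).1 (hout y)
    have hg' : g ∈ (Subgroup.zpowers x ⊔ N : Subgroup G) := by rwa [sup_comm]
    rw [← SetLike.mem_coe, Subgroup.mul_normal] at hg'
    obtain ⟨_, ⟨k, rfl⟩, n, hn, rfl⟩ := hg'
    -- `y = x ^ k * n * out y * h`
    have hp : 0 < (p : ℤ) := by exact_mod_cast (Fact.out : p.Prime).pos
    obtain ⟨i, hi⟩ : ∃ i : ℕ, (i : ℤ) = k % p := ⟨(k % p).toNat, by
      rw [Int.toNat_of_nonneg (Int.emod_nonneg _ hp.ne')]⟩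
    have hip : i < p := by
      have := Int.emod_lt_of_pos k hp
      omega
    refine ⟨i, Finset.mem_range.2 hip, ?_⟩
    have hx1 : (x ^ k)⁻¹ * y ∈ D := by
      refine ⟨n, hn, h, hh, ?_⟩
      have h1 : out ((x ^ k)⁻¹ * y) = out y := by
        have := houtA (x ^ k)⁻¹ (A.inv_mem (A.zpow_mem hxA k)) y 1 B.one_mem
        rwa [mul_one] at this
      rw [h1]
      conv_lhs => rw [he]
      group
    have hk : k = i + p * (k / p) := by
      rw [hi]
      exact (Int.emod_add_mul_ediv k p).symm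
    have hx2 : (x ^ i)⁻¹ * y = (x ^ p) ^ (k / p) * ((x ^ k)⁻¹ * y) := by
      have h3 : x ^ k = x ^ i * (x ^ p) ^ (k / p) := by
        conv_lhs => rw [hk]
        rw [zpow_add, zpow_mul, zpow_natCast, zpow_natCast]
      have h4 : x ^ i * (x ^ p) ^ (k / p) = (x ^ p) ^ (k / p) * x ^ i := by
        have : Commute (x ^ i) ((x ^ p) ^ (k / p)) :=
          ((Commute.refl x).pow_pow i p).zpow_right _
        exact this
      rw [h3, h4]
      group
    rw [hx2, hDl _ (N.zpow_mem hxp _)]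
    exact hx1
  have hun : ∀ y, ∀ i ∈ Finset.range p, ∀ i' ∈ Finset.range p, (x ^ i)⁻¹ * y ∈ D →
      (x ^ i')⁻¹ * y ∈ D → i = i' := by
    intro y i hi i' hi' h1 h2
    by_contra hne
    obtain ⟨n, hn, h, hh, he⟩ := h1
    obtain ⟨n', hn', h', hh', he'⟩ := h2
    have ho : out ((x ^ i)⁻¹ * y) = out y := by
      have := houtA (x ^ i)⁻¹ (A.inv_mem (A.pow_mem hxA i)) y 1 B.one_mem
      rwa [mul_one] at this
    have ho' : out ((x ^ i')⁻¹ * y) = out y := by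
      have := houtA (x ^ i')⁻¹ (A.inv_mem (A.pow_mem hxA i')) y 1 B.one_mem
      rwa [mul_one] at this
    rw [ho] at he
    rw [ho'] at he'
    set z := out y with hz
    -- in the quotient by `N`
    have hq : ((z⁻¹ * x * z : G) : G ⧸ N) ^ ((i : ℤ) - i') = ((h' * h⁻¹ : G) : G ⧸ N) := by
      have e1 : y = x ^ i * (n * z * h) := by rw [← he]; group
      have e2 : y = x ^ i' * (n' * z * h') := by rw [← he']; group
      have e3 : x ^ ((i : ℤ) - i') = n' * z * h' * h⁻¹ * z⁻¹ * n⁻¹ := by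
        have e4 : x ^ i * (n * z * h) = x ^ i' * (n' * z * h') := by rw [← e1, ← e2]
        have e5 : (x ^ i')⁻¹ * x ^ i = n' * z * h' * (n * z * h)⁻¹ := by
          rw [inv_mul_eq_iff_eq_mul, ← mul_assoc, ← e4]
          group
        have e6 : x ^ ((i : ℤ) - i') = (x ^ i')⁻¹ * x ^ i := by
          rw [sub_eq_add_neg, add_comm, zpow_add, zpow_neg, zpow_natCast, zpow_natCast]
        rw [e6, e5]
        group
      have e7 : (z⁻¹ * x * z) ^ ((i : ℤ) - i') = z⁻¹ * x ^ ((i : ℤ) - i') * z := by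
        have := conj_zpow (i := (i : ℤ) - i') (a := z⁻¹) (b := x)
        rwa [inv_inv] at this
      rw [← QuotientGroup.mk_zpow, e7, e3]
      have hn1 : ((n : G) : G ⧸ N) = 1 := (QuotientGroup.eq_one_iff n).2 hn
      have hn2 : ((n' : G) : G ⧸ N) = 1 := (QuotientGroup.eq_one_iff n').2 hn'
      simp only [QuotientGroup.mk_mul, QuotientGroup.mk_inv, hn1, hn2]
      group
    have hpz : ((z⁻¹ * x * z : G) : G ⧸ N) ^ p = 1 := by
      rw [← QuotientGroup.mk_pow, QuotientGroup.eq_one_iff]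
      have := conj_pow (i := p) (a := z⁻¹) (b := x)
      rw [inv_inv] at this
      rw [this]
      have := hN.conj_mem _ hxp z⁻¹
      rwa [inv_inv] at this
    have hcop : IsCoprime ((i : ℤ) - i') (p : ℤ) := by
      rw [Int.isCoprime_iff_gcd_eq_one]
      have hnd : ¬ (p : ℤ) ∣ ((i : ℤ) - i') := by
        intro hd
        have hi2 := Finset.mem_range.1 hi
        have hi2' := Finset.mem_range.1 hi'
        obtain ⟨c, hc⟩ := hd
        have hc1 : c = 0 := by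
          by_contra hc0
          rcases lt_or_gt_of_ne hc0 with h3 | h3
          · nlinarith
          · nlinarith
        rw [hc1, mul_zero] at hc
        omega
      have hprime : Prime (p : ℤ) := Nat.prime_iff_prime_int.1 Fact.out
      rw [← Int.isCoprime_iff_gcd_eq_one]
      exact ((Prime.coprime_iff_not_dvd hprime).2 hnd).symm
    obtain ⟨a, b, hab⟩ := hcop
    have h5 : ((z⁻¹ * x * z : G) : G ⧸ N) = ((h' * h⁻¹ : G) : G ⧸ N) ^ a := by
      calc ((z⁻¹ * x * z : G) : G ⧸ N) = ((z⁻¹ * x * z : G) : G ⧸ N) ^ (a * ((i : ℤ) - i') + b * p) := by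
            rw [hab, zpow_one]
        _ = (((z⁻¹ * x * z : G) : G ⧸ N) ^ ((i : ℤ) - i')) ^ a *
            (((z⁻¹ * x * z : G) : G ⧸ N) ^ p) ^ b := by
            rw [zpow_add, mul_comm a, zpow_mul, mul_comm b, zpow_mul, zpow_natCast]
        _ = ((h' * h⁻¹ : G) : G ⧸ N) ^ a := by rw [hq, hpz, one_zpow, mul_one]
    have hhB : (h' * h⁻¹) ^ a ∈ B := B.zpow_mem (B.mul_mem hh' (B.inv_mem hh)) a
    obtain ⟨k, hk⟩ := Subgroup.mem_zpowers_iff.1 hhB
    apply hfree z (-k)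
    rw [← QuotientGroup.eq_one_iff, QuotientGroup.mk_mul, h5, ← QuotientGroup.mk_zpow, ← hk,
      ← QuotientGroup.mk_mul, ← zpow_add]
    simp
  refine ⟨fun y => if y ∈ D then v y else 0, ?_, ?_, ?_⟩
  · intro g hg y
    simp only [hDl g hg y, hvl g hg y]
  · intro y
    simp only [hDr y, hvr y]
  · intro y
    obtain ⟨i, hi, hiD⟩ := hex y
    show ∑ i ∈ Finset.range p, (if (x ^ i)⁻¹ * y ∈ D then v ((x ^ i)⁻¹ * y) else 0) = v y
    rw [Finset.sum_eq_single_of_mem i hi]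
    · rw [if_pos hiD, hvpow]
    · intro i' hi' hne
      rw [if_neg]
      intro h
      exact hne (hun y i' hi' i hi h hiD)


/-- properties of homomorphisms on the normal subgroup `R` -/
theorem isK_one {R : Subgroup G} {θ : G → ZMod p} (h : IsK p R θ) : θ 1 = 0 := by
  have := h.mul 1 R.one_mem 1 R.one_mem
  rw [mul_one] at this
  simpa using this

theorem isK_inv {R : Subgroup G} {θ : G → ZMod p} (h : IsK p R θ) {x : G} (hx : x ∈ R) :
    θ x⁻¹ = -θ x := by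
  have := h.mul x hx x⁻¹ (R.inv_mem hx)
  rw [mul_inv_cancel, isK_one h] at this
  exact (neg_eq_of_add_eq_zero_right this.symm).symm

theorem isK_conj {R : Subgroup G} (hR : R.Normal) {θ : G → ZMod p} (h : IsK p R θ) (g : G) :
    IsK p R (fun s => θ (g * s * g⁻¹)) := by
  refine ⟨?_, fun x hx y hy => ?_⟩
  · refine h.cont.comp (f := fun x => g * x * g⁻¹) ?_ fun x hx => hR.conj_mem x hx g
    exact Continuous.continuousOn (by fun_prop)
  · show θ (g * (x * y) * g⁻¹) = _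
    rw [← h.mul _ (hR.conj_mem x hx g) _ (hR.conj_mem y hy g)]
    congr 1
    group

theorem isK_sum {R : Subgroup G} {ι : Type} (t : Finset ι) {θ : ι → G → ZMod p}
    (h : ∀ i, IsK p R (θ i)) : IsK p R (fun s => ∑ i ∈ t, θ i s) := by
  refine ⟨continuousOn_finsetSum _ fun i _ => (h i).cont, fun x hx y hy => ?_⟩
  simp only [(h _).mul x hx y hy, Finset.sum_add_distrib]

end TorsAux

open TorsAux

/-- elements of order `p` modulo `R` are conjugate into some `⟨r j⟩` -/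
theorem tors_conj {δ : ℕ} (hG : ProFree p δ G) (S : Stage p δ G) (x : G) (hx : x ∉ S.R)
    (hxp : x ^ p ∈ S.R) : ∃ (j : S.I) (g : G) (a : ℕ), g⁻¹ * x * g * (S.r j ^ a)⁻¹ ∈ S.R := by
  classical
  by_contra hcon
  push Not at hcon
  have hcomp := hG.compact
  have hR : S.R.Normal := Rel.normal _ _
  have hRc : IsClosed (S.R : Set G) := Rel.closed _ _
  have hrR : ∀ j, S.r j ^ p ^ S.e j ∈ S.R := fun j => Rel.mem _ _ j
  -- the open subgroup `N₀ ∌ x`
  obtain ⟨N₀, hN₀, hN₀o, hRN₀, hxN₀⟩ := hG.exists_open S.R hR hRc x hx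
  let V' : Subgroup G := N₀ ⊔ Subgroup.zpowers x
  have hNV : N₀ ≤ V' := le_sup_left
  have hxV : x ∈ V' := (le_sup_right : Subgroup.zpowers x ≤ V') (Subgroup.mem_zpowers x)
  have hV'o : IsOpen (V' : Set G) := Subgroup.isOpen_mono hNV hN₀o
  have hRV : S.R ≤ V' := hRN₀.trans hNV
  obtain ⟨f, hf, hf0, hfN⟩ := (hG.sub V' hV'o).exists_hom (N₀.subgroupOf V')
    (hN₀o.preimage continuous_subtype_val) (by
      intro h
      have : (⟨x, hxV⟩ : ↥V') ∈ N₀.subgroupOf V' := by rw [h]; trivial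
      exact hxN₀ this)
  have hfx : f ⟨x, hxV⟩ ≠ 0 := by
    intro h0
    apply hf0
    funext y
    obtain ⟨y, hy⟩ := y
    have hy' : y ∈ (Subgroup.zpowers x ⊔ N₀ : Subgroup G) := by
      rw [sup_comm]; exact hy
    rw [← SetLike.mem_coe, Subgroup.mul_normal] at hy'
    obtain ⟨_, ⟨k, rfl⟩, n, hn, rfl⟩ := hy'
    let F : ↥V' →* Multiplicative (ZMod p) :=
      { toFun := fun y => Multiplicative.ofAdd (f y)
        map_one' := by rw [MinLAux.hom_one hf]; rfl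
        map_mul' := fun a b => by rw [hf.2]; rfl }
    have e1 : (⟨x ^ k * n, hy⟩ : ↥V') = (⟨x, hxV⟩ : ↥V') ^ k * ⟨n, hNV hn⟩ :=
      Subtype.ext (by simp)
    have e2 : F (⟨x ^ k * n, hy⟩ : ↥V') = 1 := by
      rw [e1, map_mul, map_zpow]
      have e3 : F ⟨x, hxV⟩ = 1 := by
        show Multiplicative.ofAdd (f _) = 1
        rw [h0]; rfl
      have e4 : F ⟨n, hNV hn⟩ = 1 := by
        show Multiplicative.ofAdd (f _) = 1
        rw [hfN _ hn]; rfl
      rw [e3, e4, one_zpow, one_mul]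
    exact e2
  obtain ⟨φ, hφ⟩ := zlift (hG.h2 V' hV'o) hf
  -- extend by zero
  let ψ : G → ℤ_[p] := fun g => if h : g ∈ V' then (φ : ↥V' → ℤ_[p]) ⟨g, h⟩ else 0
  have hψ : ∀ g (h : g ∈ V'), ψ g = (φ : ↥V' → ℤ_[p]) ⟨g, h⟩ := fun g h => dif_pos h
  have hψc : ContinuousOn ψ V' := by
    rw [continuousOn_iff_continuous_domRestrict]
    refine φ.2.1.congr fun y => ?_
    exact (hψ y y.2).symm
  have hψZ : IsZ p ⊥ V' ψ := by
    refine ⟨hψc, fun a ha b hb => ?_, fun a ha => ?_⟩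
    · rw [hψ _ (V'.mul_mem ha hb), hψ a ha, hψ b hb, ← φ.2.2]
      rfl
    · rw [Subgroup.mem_bot] at ha
      subst ha
      rw [hψ 1 V'.one_mem]
      have := φ.2.2 1 1
      rw [mul_one] at this
      have h2 : (φ : ↥V' → ℤ_[p]) 1 = 0 := by simpa using this
      exact h2
  have hψZR : IsZ p ⊥ S.R ψ := hψZ.mono hRV
  obtain ⟨ψ', hψ', hψe⟩ := MinLAux.isZ_div hψZR 1 (fun s hs => by
    rw [pow_one, ← MinLAux.toZMod_eq_zero_iff, hψ s (hRV hs), hφ]
    exact hfN _ (hRN₀ hs))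
  rw [pow_one] at hψe
  have hp0 : (p : ℤ_[p]) ≠ 0 := by exact_mod_cast (Fact.out : p.Prime).ne_zero
  let θ₁ : G → ZMod p := fun s => PadicInt.toZMod (ψ' s)
  have hθ₁ : IsK p S.R θ₁ := by
    refine ⟨toZMod_cont.comp_continuousOn hψ'.cont, fun a ha b hb => ?_⟩
    show PadicInt.toZMod (ψ' (a * b)) = _
    rw [hψ'.mul a ha b hb, map_add]
  have hconj : ∀ g ∈ V', ∀ s ∈ S.R, θ₁ (g * s * g⁻¹) = θ₁ s := by
    intro g hg s hs
    have h1 : ψ (g * s * g⁻¹) = ψ s := by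
      rw [hψZ.mul _ (V'.mul_mem hg (hRV hs)) _ (V'.inv_mem hg), hψZ.mul _ hg _ (hRV hs),
        MinLAux.isZ_inv hψZ hg]
      ring
    have h2 : ψ' (g * s * g⁻¹) = ψ' s := by
      rw [hψe _ (hR.conj_mem s hs g), hψe s hs] at h1
      exact mul_left_cancel₀ hp0 h1
    show PadicInt.toZMod (ψ' (g * s * g⁻¹)) = PadicInt.toZMod (ψ' s)
    rw [h2]
  -- the functions `v j`
  let v : S.I → G → ZMod p := fun j y => θ₁ (y * S.r j ^ p ^ S.e j * y⁻¹)
  have hvl : ∀ j, ∀ g ∈ V', ∀ y, v j (g * y) = v j y := by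
    intro j g hg y
    show θ₁ (g * y * S.r j ^ p ^ S.e j * (g * y)⁻¹) = θ₁ (y * S.r j ^ p ^ S.e j * y⁻¹)
    rw [← hconj g hg _ (hR.conj_mem _ (hrR j) y)]
    congr 1
    group
  have hvr : ∀ j y, v j (y * S.r j) = v j y := by
    intro j y
    show θ₁ (y * S.r j * S.r j ^ p ^ S.e j * (y * S.r j)⁻¹) = θ₁ (y * S.r j ^ p ^ S.e j * y⁻¹)
    congr 1
    group
  -- separation
  let Z : Set G := ⋃ (j : S.I), ⋃ (a : Fin (p ^ S.e j)),
    (fun y : G => y⁻¹ * x * y * (S.r j ^ (a : ℕ))⁻¹) '' Set.univ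
  have hZc : IsCompact Z := by
    refine isCompact_iUnion fun j => isCompact_iUnion fun a => ?_
    refine isCompact_univ.image ?_
    fun_prop
  obtain ⟨N₁, hN₁, hN₁o, hRN₁, hZN⟩ := tors_sep hG hR hRc hZc (by
    intro z hz
    simp only [Z, Set.mem_iUnion] at hz
    obtain ⟨j, a, y, _, rfl⟩ := hz
    exact hcon j y a)
  let N : Subgroup G := N₀ ⊓ N₁
  have hN : N.Normal := inferInstance
  have hNo : IsOpen (N : Set G) := by
    rw [Subgroup.coe_inf]; exact hN₀o.inter hN₁o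
  have hRN : S.R ≤ N := le_inf hRN₀ hRN₁
  have hNV' : N ≤ V' := inf_le_left.trans hNV
  have hfree : ∀ (j : S.I) (y : G) (k : ℤ), y⁻¹ * x * y * S.r j ^ k ∉ N := by
    intro j y k hk
    have hn : 0 < (p ^ S.e j : ℕ) := pow_pos (Fact.out : p.Prime).pos _
    have hn' : (0 : ℤ) < ((p ^ S.e j : ℕ) : ℤ) := by exact_mod_cast hn
    set n : ℕ := p ^ S.e j with hndef
    -- replace `k` by `-a`, `0 ≤ a < n`
    obtain ⟨a, ha⟩ : ∃ a : ℕ, (a : ℤ) = (-k) % n := ⟨((-k) % n).toNat, by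
      rw [Int.toNat_of_nonneg (Int.emod_nonneg _ hn'.ne')]⟩
    have han : a < n := by
      have := Int.emod_lt_of_pos (-k) hn'
      omega
    have h1 : y⁻¹ * x * y * (S.r j ^ a)⁻¹ ∈ N := by
      have h2 : (S.r j ^ a)⁻¹ = S.r j ^ k * (S.r j ^ n) ^ ((-k) / n) := by
        rw [← zpow_natCast, ← zpow_natCast, ← zpow_neg, ← zpow_mul, ← zpow_add]
        congr 1
        rw [ha]
        have := Int.emod_add_mul_ediv (-k) n
        linarith
      rw [h2, ← mul_assoc]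
      refine N.mul_mem hk (N.zpow_mem (hRN ?_) _)
      rw [hndef]
      exact hrR j
    refine hZN _ ?_ h1.2
    simp only [Z, Set.mem_iUnion]
    exact ⟨j, ⟨a, han⟩, y, trivial, rfl⟩
  have hsplit : ∀ j : S.I, ∃ v₀ : G → ZMod p, (∀ g ∈ N, ∀ y, v₀ (g * y) = v₀ y) ∧
      (∀ y, v₀ (y * S.r j) = v₀ y) ∧
      ∀ y, ∑ i ∈ Finset.range p, v₀ ((x ^ i)⁻¹ * y) = v j y := fun j =>
    exists_split hN x (S.r j) (hRN hxp) (hfree j) (v j) (fun g hg y => hvl j g (hNV' hg) y)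
      (fun y => hvl j x hxV y) (hvr j)
  choose v₀ hv₀l hv₀r hv₀s using hsplit
  obtain ⟨θ₀, hθ₀, hθ₀v⟩ := asph hG S N hN hNo hRN v₀ hv₀l hv₀r
  let θ' : G → ZMod p := fun s => ∑ i ∈ Finset.range p, θ₀ ((x ^ i)⁻¹ * s * (x ^ i)⁻¹⁻¹)
  have hθ' : IsK p S.R θ' := isK_sum _ fun i => isK_conj hR hθ₀ _
  have hagree : ∀ s ∈ S.R, θ' s = θ₁ s := by
    refine Rel.hom_ext S.r S.e θ' θ₁ hθ'.cont hθ₁.cont hθ'.mul hθ₁.mul ?_
    intro j y
    show ∑ i ∈ Finset.range p, θ₀ ((x ^ i)⁻¹ * (y * S.r j ^ p ^ S.e j * y⁻¹) * (x ^ i)⁻¹⁻¹) =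
      v j y
    rw [← hv₀s j y]
    refine Finset.sum_congr rfl fun i _ => ?_
    rw [← hθ₀v]
    congr 1
    group
  have h1 : θ' (x ^ p) = 0 := by
    show ∑ i ∈ Finset.range p, θ₀ ((x ^ i)⁻¹ * x ^ p * (x ^ i)⁻¹⁻¹) = 0
    have h2 : ∀ i ∈ Finset.range p, θ₀ ((x ^ i)⁻¹ * x ^ p * (x ^ i)⁻¹⁻¹) = θ₀ (x ^ p) := by
      intro i _
      congr 1
      rw [inv_inv, mul_assoc, inv_mul_eq_iff_eq_mul, ← pow_add, ← pow_add, add_comm]
    rw [Finset.sum_congr rfl h2]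
    simp
  have h3 : θ₁ (x ^ p) = f ⟨x, hxV⟩ := by
    have h4 : ψ' (x ^ p) = ψ x := by
      have h5 := hψe _ hxp
      rw [MinLAux.isZ_pow hψZ hxV p] at h5
      exact (mul_left_cancel₀ hp0 h5).symm
    show PadicInt.toZMod (ψ' (x ^ p)) = _
    rw [h4, hψ x hxV, hφ]
  rw [hagree _ hxp, h3] at h1
  exact hfx h1


/-- the centraliser of the element of order `p` in `⟨r j⟩` is `⟨r j⟩` (mod `R`) -/
theorem tors_cent {δ : ℕ} (hG : ProFree p δ G) (S : Stage p δ G) (j : S.I) (hj : 0 < S.e j)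
    (y : G) (hy : S.r j ^ p ^ (S.e j - 1) * y * (S.r j ^ p ^ (S.e j - 1))⁻¹ * y⁻¹ ∈ S.R) :
    ∃ a : ℕ, y * (S.r j ^ a)⁻¹ ∈ S.R := by
  classical
  by_contra hcon
  push Not at hcon
  have hR : S.R.Normal := Rel.normal _ _
  have hRc : IsClosed (S.R : Set G) := Rel.closed _ _
  set w := S.r j with hw
  set n : ℕ := p ^ S.e j with hndef
  have hnR : w ^ n ∈ S.R := Rel.mem _ _ j
  set x := w ^ p ^ (S.e j - 1) with hx
  have hxp : x ^ p = w ^ n := by
    rw [hx, ← pow_mul, ← pow_succ, Nat.sub_add_cancel hj]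
  have hn : 0 < n := pow_pos (Fact.out : p.Prime).pos _
  have hn' : (0 : ℤ) < (n : ℤ) := by exact_mod_cast hn
  -- separation
  let Z : Set G := ⋃ (a : Fin n), {y * (w ^ (a : ℕ))⁻¹}
  have hZc : IsCompact Z := isCompact_iUnion fun a => isCompact_singleton
  obtain ⟨N, hN, hNo, hRN, hZN⟩ := tors_sep hG hR hRc hZc (by
    intro z hz
    simp only [Z, Set.mem_iUnion, Set.mem_singleton_iff] at hz
    obtain ⟨a, rfl⟩ := hz
    exact hcon a)
  have hnot : ∀ k : ℤ, y * w ^ k ∉ N := by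
    intro k hk
    obtain ⟨a, ha⟩ : ∃ a : ℕ, (a : ℤ) = (-k) % n := ⟨((-k) % n).toNat, by
      rw [Int.toNat_of_nonneg (Int.emod_nonneg _ hn'.ne')]⟩
    have han : a < n := by
      have := Int.emod_lt_of_pos (-k) hn'
      omega
    refine hZN (y * (w ^ a)⁻¹) ?_ ?_
    · simp only [Z, Set.mem_iUnion, Set.mem_singleton_iff]
      exact ⟨⟨a, han⟩, rfl⟩
    · have h2 : (w ^ a)⁻¹ = w ^ k * (w ^ n) ^ ((-k) / n) := by
        rw [← zpow_natCast, ← zpow_natCast, ← zpow_neg, ← zpow_mul, ← zpow_add]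
        congr 1
        rw [ha]
        have := Int.emod_add_mul_ediv (-k) n
        linarith
      rw [h2, ← mul_assoc]
      exact N.mul_mem hk (N.zpow_mem (hRN hnR) _)
  -- the indicator function
  let D : Set G := {z | ∃ m ∈ N, ∃ k : ℤ, z = m * y * w ^ k}
  have hDl : ∀ g ∈ N, ∀ z, (g * z ∈ D ↔ z ∈ D) := by
    have key : ∀ g ∈ N, ∀ z ∈ D, g * z ∈ D := by
      rintro g hg z ⟨m, hm, k, rfl⟩
      exact ⟨g * m, N.mul_mem hg hm, k, by group⟩
    intro g hg z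
    refine ⟨fun h => ?_, key g hg z⟩
    have := key g⁻¹ (N.inv_mem hg) _ h
    rwa [inv_mul_cancel_left] at this
  have hDr : ∀ z, ∀ i : ℤ, (z * w ^ i ∈ D ↔ z ∈ D) := by
    have key : ∀ i : ℤ, ∀ z ∈ D, z * w ^ i ∈ D := by
      rintro i z ⟨m, hm, k, rfl⟩
      exact ⟨m, hm, k + i, by rw [zpow_add]; group⟩
    intro z i
    refine ⟨fun h => ?_, key i z⟩
    have := key (-i) _ h
    rwa [zpow_neg, mul_inv_cancel_right] at this
  have hDx : ∀ z, (x * z ∈ D ↔ z ∈ D) := by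
    have key : ∀ z ∈ D, x * z ∈ D := by
      rintro z ⟨m, hm, k, rfl⟩
      have h1 : x * (m * y * w ^ k) =
          (x * m * x⁻¹) * (x * y * x⁻¹ * y⁻¹) * (y * w ^ (((p ^ (S.e j - 1) : ℕ) : ℤ) + k)) := by
        rw [zpow_add, zpow_natCast, ← hx]
        group
      rw [h1]
      refine (hDl _ (N.mul_mem (hN.conj_mem m hm x) (hRN hy)) _).2 ?_
      exact ⟨1, N.one_mem, _, by rw [one_mul]⟩
    have key2 : ∀ i : ℕ, ∀ z ∈ D, x ^ i * z ∈ D := by
      intro i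
      induction i with
      | zero => intro z hz; simpa using hz
      | succ i ih =>
        intro z hz
        rw [pow_succ, mul_assoc]
        exact ih _ (key z hz)
    intro z
    refine ⟨fun h => ?_, key z⟩
    have h2 := key2 (p - 1) _ h
    have h3 : x ^ (p - 1) * (x * z) = x ^ p * z := by
      rw [← mul_assoc, ← pow_succ, Nat.sub_add_cancel (Fact.out : p.Prime).one_le]
    rw [h3, hDl _ (hRN (by rw [hxp]; exact hnR))] at h2
    exact h2
  have hyD : y ∈ D := ⟨1, N.one_mem, 0, by simp⟩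
  have h1D : (1 : G) ∉ D := by
    rintro ⟨m, hm, k, he⟩
    apply hnot k
    have h2 : y * w ^ k = m⁻¹ := by
      rw [eq_inv_iff_mul_eq_one, ← mul_left_cancel_iff (a := m), mul_one]
      have h3 : m * (y * w ^ k) = 1 := by rw [← mul_assoc]; exact he.symm
      rw [← mul_assoc, h3, one_mul]
    rw [h2]
    exact N.inv_mem hm
  let v : S.I → G → ZMod p := fun i z => if i = j ∧ z ∈ D then 1 else 0
  obtain ⟨θ, hθ, hθv⟩ := asph hG S N hN hNo hRN v (fun i g hg z => by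
      show (if i = j ∧ g * z ∈ D then (1 : ZMod p) else 0) = if i = j ∧ z ∈ D then 1 else 0
      simp only [hDl g hg z]) (fun i z => by
      show (if i = j ∧ z * S.r i ∈ D then (1 : ZMod p) else 0) = if i = j ∧ z ∈ D then 1 else 0
      by_cases hij : i = j
      · subst hij
        have h7 : z * S.r i ∈ D ↔ z ∈ D := by
          have := hDr z 1
          rwa [zpow_one] at this
        simp only [h7]
      · simp [hij])
  have hθx : ∀ s ∈ S.R, θ (x * s * x⁻¹) = θ s := by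
    refine Rel.hom_ext S.r S.e (fun s => θ (x * s * x⁻¹)) θ (isK_conj hR hθ x).cont hθ.cont
      (isK_conj hR hθ x).mul hθ.mul ?_
    intro i z
    have h1 : x * (z * S.r i ^ p ^ S.e i * z⁻¹) * x⁻¹ = (x * z) * S.r i ^ p ^ S.e i * (x * z)⁻¹ := by
      group
    show θ (x * (z * S.r i ^ p ^ S.e i * z⁻¹) * x⁻¹) = _
    rw [h1, hθv, hθv]
    show (if i = j ∧ x * z ∈ D then (1 : ZMod p) else 0) = if i = j ∧ z ∈ D then 1 else 0
    simp only [hDx z]
  set s := x * y * x⁻¹ * y⁻¹ with hs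
  have ht : ∀ k : ℕ, (s⁻¹ * x) ^ k * (x ^ k)⁻¹ ∈ S.R ∧
      θ ((s⁻¹ * x) ^ k * (x ^ k)⁻¹) = -(k : ZMod p) * θ s := by
    intro k
    induction k with
    | zero =>
      refine ⟨by simp, ?_⟩
      simp [isK_one hθ]
    | succ k ih =>
      have h1 : (s⁻¹ * x) ^ (k + 1) * (x ^ (k + 1))⁻¹ =
          s⁻¹ * (x * ((s⁻¹ * x) ^ k * (x ^ k)⁻¹) * x⁻¹) := by
        rw [pow_succ', pow_succ]
        group
      have h2 : x * ((s⁻¹ * x) ^ k * (x ^ k)⁻¹) * x⁻¹ ∈ S.R := hR.conj_mem _ ih.1 x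
      rw [h1]
      refine ⟨S.R.mul_mem (S.R.inv_mem hy) h2, ?_⟩
      rw [hθ.mul _ (S.R.inv_mem hy) _ h2, hθx _ ih.1, ih.2, isK_inv hθ hy]
      push_cast
      ring
  have h1 : y * x ^ p * y⁻¹ = (s⁻¹ * x) ^ p * (x ^ p)⁻¹ * x ^ p := by
    rw [inv_mul_cancel_right]
    have h2 : s⁻¹ * x = y * x * y⁻¹ := by rw [hs]; group
    rw [h2, conj_pow]
  have hxpR : x ^ p ∈ S.R := by rw [hxp]; exact hnR
  have h2 : θ (y * x ^ p * y⁻¹) = θ (x ^ p) := by
    rw [h1, hθ.mul _ (ht p).1 _ hxpR, (ht p).2]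
    simp
  have h3 := hθv j y
  have h4 := hθv j 1
  rw [← hw, ← hndef, ← hxp] at h3 h4
  rw [one_mul, inv_one, mul_one] at h4
  rw [h3, h4] at h2
  have h5 : v j y = 1 := if_pos ⟨rfl, hyD⟩
  have h6 : v j 1 = 0 := if_neg fun h => h1D h.2
  rw [h5, h6] at h2
  exact one_ne_zero h2

namespace TorsAux

instance stageR_normal {δ : ℕ} (S : Stage p δ G) : (S.R).Normal := Rel.normal _ _

/-- the exact order of `r j` modulo `R` -/
theorem ord_iff {δ : ℕ} (S : Stage p δ G) (j : S.I) (a : ℕ) :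
    S.r j ^ a ∈ S.R ↔ p ^ S.e j ∣ a := by
  constructor
  · intro h
    have := S.adm.ord j 1 a
    rw [one_mul, inv_one, mul_one] at this
    exact this (S.adm.rel_le h)
  · rintro ⟨b, rfl⟩
    rw [pow_mul]
    exact S.R.pow_mem (Rel.mem _ _ j) b

/-- normal form of an element of order `p` modulo `R` -/
theorem tors_form {δ : ℕ} (hG : ProFree p δ G) (S : Stage p δ G) (x : G) (hx : x ∉ S.R)
    (hxp : x ^ p ∈ S.R) : ∃ (j : S.I) (g : G) (b : ℕ), 0 < S.e j ∧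
      g⁻¹ * x ^ b * g * (S.r j ^ p ^ (S.e j - 1))⁻¹ ∈ S.R := by
  have hR : S.R.Normal := Rel.normal _ _
  obtain ⟨j, g, a, h⟩ := tors_conj hG S x hx hxp
  have hq : ((g : G) : G ⧸ S.R)⁻¹ * (x : G ⧸ S.R) * g = (S.r j : G ⧸ S.R) ^ a := by
    rw [← QuotientGroup.eq_one_iff] at h
    simp only [QuotientGroup.mk_mul, QuotientGroup.mk_inv, QuotientGroup.mk_pow] at h
    exact mul_inv_eq_one.1 h
  have hxq : (x : G ⧸ S.R) ≠ 1 := fun h' => hx ((QuotientGroup.eq_one_iff x).1 h')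
  have hxpq : (x : G ⧸ S.R) ^ p = 1 := by
    rw [← QuotientGroup.mk_pow]; exact (QuotientGroup.eq_one_iff _).2 hxp
  have hord : ∀ m : ℕ, (S.r j : G ⧸ S.R) ^ m = 1 ↔ p ^ S.e j ∣ m := by
    intro m
    rw [← QuotientGroup.mk_pow, QuotientGroup.eq_one_iff, ord_iff]
  have h1 : ¬ p ^ S.e j ∣ a := by
    rw [← hord, ← hq]
    intro h'
    apply hxq
    have h2 : (x : G ⧸ S.R) = g * ((g : G ⧸ S.R)⁻¹ * x * g) * (g : G ⧸ S.R)⁻¹ := by group
    rw [h2, h']
    group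
  have h2 : p ^ S.e j ∣ a * p := by
    rw [← hord, pow_mul, ← hq]
    have h3 := conj_pow (i := p) (a := (g : G ⧸ S.R)⁻¹) (b := (x : G ⧸ S.R))
    rw [inv_inv] at h3
    rw [h3, hxpq]
    group
  have he : 0 < S.e j := by
    rcases Nat.eq_zero_or_pos (S.e j) with h0 | h0
    · rw [h0, pow_zero] at h1
      exact absurd (one_dvd _) h1
    · exact h0
  have hp0 : 0 < p := (Fact.out : p.Prime).pos
  obtain ⟨a', ha'⟩ : p ^ (S.e j - 1) ∣ a := by
    have h3 : p ^ S.e j = p ^ (S.e j - 1) * p := by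
      rw [← pow_succ, Nat.sub_add_cancel he]
    rw [h3] at h2
    exact Nat.dvd_of_mul_dvd_mul_right hp0 h2
  have hpa : ¬ p ∣ a' := by
    intro ⟨c, hc⟩
    apply h1
    rw [ha', hc, ← mul_assoc, ← pow_succ, Nat.sub_add_cancel he]
    exact dvd_mul_right _ _
  -- an inverse of `a'` modulo `p`
  obtain ⟨b, hb⟩ : ∃ b : ℕ, a' * b ≡ 1 [MOD p] := by
    have hc : Nat.Coprime a' p := ((Nat.Prime.coprime_iff_not_dvd Fact.out).2 hpa).symm
    have h3 : (((a' : ZMod p)⁻¹).val : ZMod p) = (a' : ZMod p)⁻¹ := ZMod.natCast_zmod_val _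
    refine ⟨((a' : ZMod p)⁻¹).val, ?_⟩
    rw [← ZMod.natCast_eq_natCast_iff]
    push_cast
    rw [h3]
    exact mul_inv_cancel₀ (by
      intro h0
      exact hpa ((ZMod.natCast_eq_zero_iff a' p).1 h0))
  refine ⟨j, g, b, he, ?_⟩
  rw [← QuotientGroup.eq_one_iff]
  simp only [QuotientGroup.mk_mul, QuotientGroup.mk_inv, QuotientGroup.mk_pow]
  rw [mul_inv_eq_one]
  have h3 := conj_pow (i := b) (a := (g : G ⧸ S.R)⁻¹) (b := (x : G ⧸ S.R))
  rw [inv_inv] at h3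
  rw [← h3, hq, ← pow_mul, ha', mul_assoc]
  -- `r ^ (p^(e-1) * (a' b)) = r ^ (p^(e-1))`
  have h4 : ∀ m m' : ℕ, m ≡ m' [MOD p] → (S.r j : G ⧸ S.R) ^ (p ^ (S.e j - 1) * m) =
      (S.r j : G ⧸ S.R) ^ (p ^ (S.e j - 1) * m') := by
    intro m m' hmm
    rw [pow_mul, pow_mul]
    have h5 : ((S.r j : G ⧸ S.R) ^ p ^ (S.e j - 1)) ^ p = 1 := by
      rw [← pow_mul, ← pow_succ, Nat.sub_add_cancel he, hord]
    exact pow_eq_pow_of_modEq hmm h5
  rw [h4 _ _ hb, mul_one]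

/-- the centraliser of an element of order `p` -/
theorem cent_form {δ : ℕ} (hG : ProFree p δ G) (S : Stage p δ G) (x u : G) (hx : x ∉ S.R)
    (hxp : x ^ p ∈ S.R) (hu : x * u * x⁻¹ * u⁻¹ ∈ S.R) :
    ∃ (j : S.I) (g : G) (b c : ℕ), 0 < S.e j ∧
      (g : G ⧸ S.R)⁻¹ * (x : G ⧸ S.R) ^ b * g = (S.r j : G ⧸ S.R) ^ p ^ (S.e j - 1) ∧
      (g : G ⧸ S.R)⁻¹ * (u : G ⧸ S.R) * g = (S.r j : G ⧸ S.R) ^ c := by
  have hR : S.R.Normal := Rel.normal _ _
  obtain ⟨j, g, b, he, h⟩ := tors_form hG S x hx hxp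
  have h1 : (g : G ⧸ S.R)⁻¹ * (x : G ⧸ S.R) ^ b * g = (S.r j : G ⧸ S.R) ^ p ^ (S.e j - 1) := by
    rw [← QuotientGroup.eq_one_iff] at h
    simp only [QuotientGroup.mk_mul, QuotientGroup.mk_inv, QuotientGroup.mk_pow] at h
    exact mul_inv_eq_one.1 h
  have hcomm : Commute (x : G ⧸ S.R) (u : G ⧸ S.R) := by
    rw [← QuotientGroup.eq_one_iff] at hu
    simp only [QuotientGroup.mk_mul, QuotientGroup.mk_inv] at hu
    have := mul_inv_eq_one.1 hu
    exact mul_inv_eq_iff_eq_mul.1 this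
  obtain ⟨c, hc⟩ := tors_cent hG S j he (g⁻¹ * u * g) (by
    rw [← QuotientGroup.eq_one_iff]
    simp only [QuotientGroup.mk_mul, QuotientGroup.mk_inv, QuotientGroup.mk_pow]
    rw [← h1, mul_inv_eq_one]
    have h2 : (x : G ⧸ S.R) ^ b * u = u * (x : G ⧸ S.R) ^ b := (hcomm.pow_left b)
    calc (g : G ⧸ S.R)⁻¹ * (x : G ⧸ S.R) ^ b * g * ((g : G ⧸ S.R)⁻¹ * u * g) *
          ((g : G ⧸ S.R)⁻¹ * (x : G ⧸ S.R) ^ b * g)⁻¹
        = (g : G ⧸ S.R)⁻¹ * ((x : G ⧸ S.R) ^ b * u) * ((x : G ⧸ S.R) ^ b)⁻¹ * g := by group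
      _ = (g : G ⧸ S.R)⁻¹ * u * g := by rw [h2]; group)
  refine ⟨j, g, b, c, he, h1, ?_⟩
  rw [← QuotientGroup.eq_one_iff] at hc
  simp only [QuotientGroup.mk_mul, QuotientGroup.mk_inv, QuotientGroup.mk_pow] at hc
  exact mul_inv_eq_one.1 hc

end TorsAux

/-- centralisers of elements of order `p` are finite -/
theorem cent_finite {δ : ℕ} (hG : ProFree p δ G) (S : Stage p δ G) (x u : G) (hx : x ∉ S.R)
    (hxp : x ^ p ∈ S.R) (hu : x * u * x⁻¹ * u⁻¹ ∈ S.R) : ∃ n : ℕ, 0 < n ∧ u ^ n ∈ S.R := by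
  have hR : S.R.Normal := Rel.normal _ _
  obtain ⟨j, g, b, c, _, _, h2⟩ := cent_form hG S x u hx hxp hu
  refine ⟨p ^ S.e j, pow_pos (Fact.out : p.Prime).pos _, ?_⟩
  rw [← QuotientGroup.eq_one_iff, QuotientGroup.mk_pow]
  have h3 := conj_pow (i := p ^ S.e j) (a := (g : G ⧸ S.R)⁻¹) (b := (u : G ⧸ S.R))
  rw [inv_inv, h2, ← pow_mul, mul_comm c, pow_mul] at h3
  have h4 : (S.r j : G ⧸ S.R) ^ p ^ S.e j = 1 := by
    rw [← QuotientGroup.mk_pow, QuotientGroup.eq_one_iff, ord_iff]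
  rw [h4, one_pow] at h3
  have h5 : (u : G ⧸ S.R) ^ p ^ S.e j =
      g * ((g : G ⧸ S.R)⁻¹ * (u : G ⧸ S.R) ^ p ^ S.e j * g) * (g : G ⧸ S.R)⁻¹ := by group
  rw [h5, ← h3]
  group

/-- there is no `(Z/p)²` in `G/R` -/
theorem norank2 {δ : ℕ} (hG : ProFree p δ G) (S : Stage p δ G) (x y : G)
    (hx : x ^ p ∈ S.R) (hy : y ^ p ∈ S.R) (hxy : x * y * x⁻¹ * y⁻¹ ∈ S.R) :
    ∃ a b : ℕ, ¬ (p ∣ a ∧ p ∣ b) ∧ x ^ a * y ^ b ∈ S.R := by
  have hR : S.R.Normal := Rel.normal _ _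
  have hp1 : ¬ p ∣ 1 := (Fact.out : p.Prime).one_lt.not_ge ∘ Nat.le_of_dvd one_pos
  by_cases hxR : x ∈ S.R
  · exact ⟨1, 0, fun h => hp1 h.1, by simpa using hxR⟩
  obtain ⟨j, g, b, c, he, h1, h2⟩ := cent_form hG S x y hxR hx hxy
  have hord : ∀ m : ℕ, (S.r j : G ⧸ S.R) ^ m = 1 ↔ p ^ S.e j ∣ m := by
    intro m
    rw [← QuotientGroup.mk_pow, QuotientGroup.eq_one_iff, ord_iff]
  have hp0 : 0 < p := (Fact.out : p.Prime).pos
  obtain ⟨c', hc'⟩ : p ^ (S.e j - 1) ∣ c := by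
    have h3 : p ^ S.e j ∣ c * p := by
      rw [← hord, pow_mul, ← h2]
      have h3 := conj_pow (i := p) (a := (g : G ⧸ S.R)⁻¹) (b := (y : G ⧸ S.R))
      rw [inv_inv] at h3
      have hyq : (y : G ⧸ S.R) ^ p = 1 := by
        rw [← QuotientGroup.mk_pow]; exact (QuotientGroup.eq_one_iff _).2 hy
      rw [h3, hyq]
      group
    have h4 : p ^ S.e j = p ^ (S.e j - 1) * p := by
      rw [← pow_succ, Nat.sub_add_cancel he]
    rw [h4] at h3
    exact Nat.dvd_of_mul_dvd_mul_right hp0 h3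
  -- `y = x ^ (b c')` modulo `R`
  have h3 : (y : G ⧸ S.R) = (x : G ⧸ S.R) ^ (b * c') := by
    have h4 : (g : G ⧸ S.R)⁻¹ * (y : G ⧸ S.R) * g = (g : G ⧸ S.R)⁻¹ * (x : G ⧸ S.R) ^ (b * c') * g := by
      rw [h2, hc', pow_mul, ← h1]
      have h5 := conj_pow (i := c') (a := (g : G ⧸ S.R)⁻¹) (b := (x : G ⧸ S.R) ^ b)
      rw [inv_inv] at h5
      rw [h5, ← pow_mul]
    exact mul_left_cancel (mul_right_cancel h4)
  refine ⟨(p - 1) * (b * c'), 1, fun h => hp1 h.2, ?_⟩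
  rw [← QuotientGroup.eq_one_iff]
  simp only [QuotientGroup.mk_mul, QuotientGroup.mk_pow, pow_one]
  rw [h3, ← pow_add]
  have h4 : (p - 1) * (b * c') + b * c' = p * (b * c') := by
    have := (Fact.out : p.Prime).one_le
    calc (p - 1) * (b * c') + b * c' = ((p - 1) + 1) * (b * c') := by ring
      _ = p * (b * c') := by rw [Nat.sub_add_cancel this]
  rw [h4, pow_mul]
  have hxq : (x : G ⧸ S.R) ^ p = 1 := by
    rw [← QuotientGroup.mk_pow]; exact (QuotientGroup.eq_one_iff _).2 hx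
  rw [hxq, one_pow]

/-- torsion elements modulo `R` have `p`-power order -/
theorem tors_pow {δ : ℕ} (hG : ProFree p δ G) (S : Stage p δ G) (x : G) (n : ℕ) (hn : 0 < n)
    (hx : x ^ n ∈ S.R) : ∃ k : ℕ, x ^ p ^ k ∈ S.R := by
  have hR : S.R.Normal := Rel.normal _ _
  have hRc : IsClosed (S.R : Set G) := Rel.closed _ _
  obtain ⟨k, n', hn', hnk⟩ := Nat.exists_eq_pow_mul_and_not_dvd hn.ne' p
    (Fact.out : p.Prime).one_lt.ne'
  refine ⟨k, ?_⟩
  by_contra hcon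
  obtain ⟨N, hN, hNo, hRN, hxN⟩ := hG.exists_open S.R hR hRc _ hcon
  obtain ⟨l, hl⟩ := hG.index_pow N hNo
  apply hxN
  rw [← QuotientGroup.eq_one_iff]
  have h1 : ((x ^ p ^ k : G) : G ⧸ N) ^ n' = 1 := by
    rw [← QuotientGroup.mk_pow, ← pow_mul, ← hnk]
    exact (QuotientGroup.eq_one_iff _).2 (hRN hx)
  have h2 : ((x ^ p ^ k : G) : G ⧸ N) ^ p ^ l = 1 := by
    rw [← QuotientGroup.mk_pow, QuotientGroup.eq_one_iff, ← hl]
    exact Subgroup.pow_index_mem (H := N) _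
  have h3 : Nat.Coprime n' (p ^ l) :=
    Nat.Coprime.pow_right l ((Nat.Prime.coprime_iff_not_dvd Fact.out).2 hn').symm
  have h4 : orderOf ((x ^ p ^ k : G) : G ⧸ N) ∣ Nat.gcd n' (p ^ l) :=
    Nat.dvd_gcd (orderOf_dvd_of_pow_eq_one h1) (orderOf_dvd_of_pow_eq_one h2)
  rw [h3] at h4
  exact orderOf_eq_one_iff.1 (Nat.dvd_one.1 h4)

end Pool.Agent.RFA
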