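import Pool.Agent.RFA.Found
import Pool.Agent.RFA.Step
import Pool.Agent.RFA.Tors

set_option autoImplicit false

namespace Pool.Agent.RFA

open Topology Module

namespace FinalAux

section seq

variable {p : ℕ} [Fact p.Prime] {G : Type} [Group G] [TopologicalSpace G] [IsTopologicalGroup G]

/-- a stage together with an open normal subgroup containing its relators -/
structure St (p : ℕ) [Fact p.Prime] (δ : ℕ) (G : Type) [Group G] [TopologicalSpace G]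
    [IsTopologicalGroup G] where
  S : Stage p δ G
  U : Subgroup G
  nrm : U.Normal
  opn : IsOpen (U : Set G)
  le : S.R ≤ U

theorem exists_sep {δ : ℕ} (hG : ProFree p δ G) (S : Stage p δ G) (w : ℕ → G) (k : ℕ) :
    ∃ N : Subgroup G, N.Normal ∧ IsOpen (N : Set G) ∧ S.R ≤ N ∧
      ∀ j < k, w j ∈ N → w j ∈ S.R := by
  induction k with
  | zero => exact ⟨⊤, inferInstance, isOpen_univ, le_top, fun j hj => absurd hj (Nat.not_lt_zero j)⟩
  | succ k ih =>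
    obtain ⟨N, h1, h2, h3, h4⟩ := ih
    by_cases hk : w k ∈ S.R
    · refine ⟨N, h1, h2, h3, fun j hj hjN => ?_⟩
      rcases Nat.lt_succ_iff_lt_or_eq.1 hj with h | h
      · exact h4 j h hjN
      · rw [h]; exact hk
    · obtain ⟨M, m1, m2, m3, m4⟩ := hG.exists_open S.R (Rel.normal S.r S.e) (Rel.closed S.r S.e)
        (w k) hk
      refine ⟨N ⊓ M, ?_, ?_, le_inf h3 m3, fun j hj hjN => ?_⟩
      · exact Subgroup.normal_inf_normal N M
      · rw [Subgroup.coe_inf]; exact h2.inter m2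
      · rcases Nat.lt_succ_iff_lt_or_eq.1 hj with h | h
        · exact h4 j h hjN.1
        · rw [h] at hjN; exact absurd hjN.2 m4

theorem exists_next (hp : p ≠ 2) {δ : ℕ} (hG : ProFree p δ G) (w : ℕ → G) (k : ℕ)
    (A : St p δ G) : ∃ B : St p δ G, A.S.R ≤ B.S.R ∧ B.U ≤ A.U ∧
      (∃ n : ℕ, 0 < n ∧ w k ^ n ∈ B.S.R) ∧ k ≤ B.U.index ∧ ∀ j < k + 1, w j ∈ B.U → w j ∈ B.S.R := by
  obtain ⟨S', h1, h2, h3⟩ := step hp hG A.S (w k) A.U A.opn A.le
  obtain ⟨N, n1, n2, n3, n4⟩ := large_index hG S' k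
  obtain ⟨M, m1, m2, m3, m4⟩ := exists_sep hG S' w (k + 1)
  have hA := A.nrm
  have hopen : IsOpen ((A.U ⊓ N ⊓ M : Subgroup G) : Set G) := by
    rw [Subgroup.coe_inf, Subgroup.coe_inf]; exact (A.opn.inter n2).inter m2
  refine ⟨⟨S', A.U ⊓ N ⊓ M, ?_, hopen, le_inf (le_inf h2 n3) m3⟩, h1, ?_, h3, ?_, ?_⟩
  · have := Subgroup.normal_inf_normal A.U N
    exact Subgroup.normal_inf_normal (A.U ⊓ N) M
  · exact (inf_le_left.trans inf_le_left : A.U ⊓ N ⊓ M ≤ A.U)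
  · have hfin := hG.finiteIndex _ hopen
    refine n4.trans (Nat.le_of_dvd (Nat.pos_of_ne_zero hfin.index_ne_zero) ?_)
    exact Subgroup.index_dvd_of_le (inf_le_left.trans inf_le_right)
  · intro j hj hjU
    exact m4 j hj hjU.2

theorem exists_tower (hp : p ≠ 2) {δ : ℕ} (hδ : 2 ≤ δ) (hG : ProFree p δ G) (w : ℕ → G) :
    ∃ A : ℕ → St p δ G, ∀ k, (A k).S.R ≤ (A (k + 1)).S.R ∧ (A (k + 1)).U ≤ (A k).U ∧
      (∃ n : ℕ, 0 < n ∧ w k ^ n ∈ (A (k + 1)).S.R) ∧ k ≤ (A (k + 1)).U.index ∧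
      ∀ j < k + 1, w j ∈ (A (k + 1)).U → w j ∈ (A (k + 1)).S.R := by
  obtain ⟨S₀⟩ := base hδ hG
  choose f hf using fun (k : ℕ) (A : St p δ G) => exists_next hp hG w k A
  let A : ℕ → St p δ G := fun k =>
    Nat.rec ⟨S₀, ⊤, inferInstance, isOpen_univ, le_top⟩ (fun k A => f k A) k
  have hA : ∀ k, A (k + 1) = f k (A k) := fun k => rfl
  refine ⟨A, fun k => ?_⟩
  rw [hA]
  exact hf k (A k)

end seq

end FinalAux

/-- For every odd prime `p` there is an infinite `3`-generated residually finite-`p` torsion group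
in which two commuting elements of order dividing `p` are always dependent. -/
theorem exists_group (p : ℕ) [Fact p.Prime] (hp : p ≠ 2) :
    ∃ (Γ : Type) (_ : Group Γ) (f : FreeGroup (Fin 3) →* Γ), Function.Surjective f ∧
      Infinite Γ ∧ (∀ g : Γ, ∃ k : ℕ, g ^ p ^ k = 1) ∧
      (∀ g : Γ, g ≠ 1 → ∃ N : Subgroup Γ, N.Normal ∧ (∃ k : ℕ, N.index = p ^ k) ∧ g ∉ N) ∧
      (∀ x y : Γ, x ^ p = 1 → y ^ p = 1 → x * y = y * x →
        ∃ a b : ℕ, ¬ (p ∣ a ∧ p ∣ b) ∧ x ^ a * y ^ b = 1) := by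
  obtain ⟨F, iG, iT, iTG, ι₀, hdense, hG⟩ := exists_proFree p
  obtain ⟨w, hw⟩ := exists_surjective_nat (FreeGroup (Fin 3))
  obtain ⟨A, hA⟩ := FinalAux.exists_tower (p := p) hp le_rfl hG (fun k => ι₀ (w k))
  have hR : ∀ {i j : ℕ}, i ≤ j → (A i).S.R ≤ (A j).S.R := fun {i j} h =>
    monotone_nat_of_le_succ (f := fun k => (A k).S.R) (fun k => (hA k).1) h
  have hU : ∀ {i j : ℕ}, i ≤ j → (A j).U ≤ (A i).U := fun {i j} h =>
    antitone_nat_of_succ_le (f := fun k => (A k).U) (fun k => (hA k).2.1) h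
  have hRn : ∀ k, (A k).S.R.Normal := fun k => Rel.normal _ _
  -- the kernel
  let N : Subgroup (FreeGroup (Fin 3)) :=
    { carrier := {γ | ∃ k, ι₀ γ ∈ (A k).S.R}
      one_mem' := ⟨0, by rw [map_one]; exact Subgroup.one_mem _⟩
      mul_mem' := by
        rintro a b ⟨i, hi⟩ ⟨j, hj⟩
        refine ⟨max i j, ?_⟩
        rw [map_mul]
        exact Subgroup.mul_mem _ (hR (le_max_left i j) hi) (hR (le_max_right i j) hj)
      inv_mem' := by
        rintro a ⟨i, hi⟩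
        exact ⟨i, by rw [map_inv]; exact Subgroup.inv_mem _ hi⟩ }
  have hNmem : ∀ γ, γ ∈ N ↔ ∃ k, ι₀ γ ∈ (A k).S.R := fun γ => Iff.rfl
  have hNn : N.Normal := ⟨fun γ hγ g => by
    obtain ⟨k, hk⟩ := (hNmem γ).1 hγ
    refine (hNmem _).2 ⟨k, ?_⟩
    rw [map_mul, map_mul, map_inv]
    exact (hRn k).conj_mem _ hk _⟩
  have hNU : ∀ k, N ≤ (A k).U.comap ι₀ := by
    intro k γ hγ
    obtain ⟨j, hj⟩ := (hNmem γ).1 hγ
    rw [Subgroup.mem_comap]
    rcases le_total j k with h | h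
    · exact (A k).le (hR h hj)
    · exact hU h ((A j).le hj)
  have hUn : ∀ k, (A k).U.Normal := fun k => (A k).nrm
  -- the finite quotients
  let q : ∀ k, (FreeGroup (Fin 3)) ⧸ N →* F ⧸ (A k).U := fun k =>
    QuotientGroup.map N (A k).U ι₀ (hNU k)
  have hq : ∀ (k : ℕ) (γ : FreeGroup (Fin 3)), q k (γ : (FreeGroup (Fin 3)) ⧸ N) =
      ((ι₀ γ : F) : F ⧸ (A k).U) :=
    fun k γ => QuotientGroup.map_mk _ _ _ _ _
  have hqs : ∀ k, Function.Surjective (q k) := by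
    intro k y
    obtain ⟨x, rfl⟩ := QuotientGroup.mk_surjective y
    have hopen : IsOpen ((fun y : F => x⁻¹ * y) ⁻¹' ((A k).U : Set F)) :=
      (A k).opn.preimage (continuous_const_mul x⁻¹)
    obtain ⟨γ, hγ⟩ := hdense.exists_mem_open hopen ⟨x, by simp⟩
    refine ⟨(γ : (FreeGroup (Fin 3)) ⧸ N), ?_⟩
    rw [hq]
    exact (QuotientGroup.eq.2 hγ).symm
  have hfinI : ∀ k, (A k).U.FiniteIndex := fun k => hG.finiteIndex _ (A k).opn
  have hfinQ : ∀ k, Finite (F ⧸ (A k).U) := fun k => by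
    have := hfinI k
    exact Subgroup.finite_quotient_of_finiteIndex
  have hker : ∀ k, ∃ n : ℕ, (q k).ker.index = p ^ n := by
    intro k
    obtain ⟨n, hn⟩ := hG.index_pow _ (A k).opn
    refine ⟨n, ?_⟩
    rw [Subgroup.index_ker, MonoidHom.range_eq_top.2 (hqs k), Subgroup.card_top,
      ← Subgroup.index_eq_card, hn]
  -- separation of elements
  have hsep : ∀ g : (FreeGroup (Fin 3)) ⧸ N, g ≠ 1 →
      ∃ M : Subgroup ((FreeGroup (Fin 3)) ⧸ N), M.Normal ∧ (∃ k : ℕ, M.index = p ^ k) ∧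
        g ∉ M := by
    intro g hg
    obtain ⟨γ, rfl⟩ := QuotientGroup.mk_surjective g
    obtain ⟨j, rfl⟩ := hw γ
    refine ⟨(q (j + 1)).ker, inferInstance, hker _, fun hmem => hg ?_⟩
    rw [MonoidHom.mem_ker] at hmem
    have h1 : ((ι₀ (w j) : F) : F ⧸ (A (j + 1)).U) = 1 := by rw [← hq]; exact hmem
    have h2 : ι₀ (w j) ∈ (A (j + 1)).U := (QuotientGroup.eq_one_iff _).1 h1
    have h3 := (hA j).2.2.2.2 j (Nat.lt_succ_self j) h2
    exact (QuotientGroup.eq_one_iff _).2 ((hNmem _).2 ⟨j + 1, h3⟩)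
  have hinf : Infinite ((FreeGroup (Fin 3)) ⧸ N) := by
    by_contra hcon
    rw [not_infinite_iff_finite] at hcon
    set c := Nat.card ((FreeGroup (Fin 3)) ⧸ N) with hc
    have h1 : (A (c + 1 + 1)).U.index ≤ c := by
      rw [Subgroup.index_eq_card]
      exact Nat.card_le_card_of_surjective _ (hqs _)
    have h2 := (hA (c + 1)).2.2.2.1
    omega
  -- torsion
  have htors : ∀ g : (FreeGroup (Fin 3)) ⧸ N, ∃ m : ℕ, g ^ p ^ m = 1 := by
    intro g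
    obtain ⟨γ, rfl⟩ := QuotientGroup.mk_surjective g
    obtain ⟨j, rfl⟩ := hw γ
    obtain ⟨n, hn, hn'⟩ := (hA j).2.2.1
    obtain ⟨m, hm⟩ := tors_pow hG (A (j + 1)).S (ι₀ (w j)) n hn hn'
    refine ⟨m, ?_⟩
    have : ((w j ^ p ^ m : FreeGroup (Fin 3)) : (FreeGroup (Fin 3)) ⧸ N) = 1 :=
      (QuotientGroup.eq_one_iff _).2 ((hNmem _).2 ⟨j + 1, by rw [map_pow]; exact hm⟩)
    exact this
  -- no subgroup of type (p, p)
  have hrank : ∀ x y : (FreeGroup (Fin 3)) ⧸ N, x ^ p = 1 → y ^ p = 1 → x * y = y * x →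
      ∃ i j : ℕ, ¬ (p ∣ i ∧ p ∣ j) ∧ x ^ i * y ^ j = 1 := by
    intro x y hx hy hxy
    obtain ⟨a, rfl⟩ := QuotientGroup.mk_surjective x
    obtain ⟨b, rfl⟩ := QuotientGroup.mk_surjective y
    obtain ⟨k1, hk1⟩ := (hNmem _).1 ((QuotientGroup.eq_one_iff (a ^ p)).1 hx)
    obtain ⟨k2, hk2⟩ := (hNmem _).1 ((QuotientGroup.eq_one_iff (b ^ p)).1 hy)
    have hc : ((a * b * a⁻¹ * b⁻¹ : FreeGroup (Fin 3)) : (FreeGroup (Fin 3)) ⧸ N) = 1 := by
      have h1 : ((a * b * a⁻¹ * b⁻¹ : FreeGroup (Fin 3)) : (FreeGroup (Fin 3)) ⧸ N) =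
        (a : (FreeGroup (Fin 3)) ⧸ N) * b * (a : (FreeGroup (Fin 3)) ⧸ N)⁻¹ *
          (b : (FreeGroup (Fin 3)) ⧸ N)⁻¹ := rfl
      rw [h1, hxy]
      group
    obtain ⟨k3, hk3⟩ := (hNmem _).1 ((QuotientGroup.eq_one_iff _).1 hc)
    set k := max k1 (max k2 k3) with hk
    have e1 : ι₀ a ^ p ∈ (A k).S.R := by
      rw [← map_pow]; exact hR (le_max_left _ _) hk1
    have e2 : ι₀ b ^ p ∈ (A k).S.R := by
      rw [← map_pow]; exact hR ((le_max_left _ _).trans (le_max_right _ _)) hk2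
    have e3 : ι₀ a * ι₀ b * (ι₀ a)⁻¹ * (ι₀ b)⁻¹ ∈ (A k).S.R := by
      rw [← map_inv, ← map_inv, ← map_mul, ← map_mul, ← map_mul]
      exact hR ((le_max_right _ _).trans (le_max_right _ _)) hk3
    obtain ⟨i, j, hij, h⟩ := norank2 hG (A k).S (ι₀ a) (ι₀ b) e1 e2 e3
    refine ⟨i, j, hij, ?_⟩
    rw [← map_pow, ← map_pow, ← map_mul] at h
    exact (QuotientGroup.eq_one_iff (a ^ i * b ^ j)).2 ((hNmem _).2 ⟨k, h⟩)
  exact ⟨(FreeGroup (Fin 3)) ⧸ N, inferInstance, QuotientGroup.mk' N,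
    QuotientGroup.mk'_surjective N, hinf, htors, hsep, hrank⟩

namespace FinalAux

/-- a nontrivial element of `p`-power order has a power of order `p` -/
theorem exists_pow_order {Γ : Type} [Group Γ] {p : ℕ} (htors : ∀ g : Γ, ∃ k : ℕ, g ^ p ^ k = 1)
    (g : Γ) (hg : g ≠ 1) : ∃ a : ℕ, g ^ a ≠ 1 ∧ (g ^ a) ^ p = 1 := by
  classical
  have hex := htors g
  set m := Nat.find hex with hm
  have hm1 : g ^ p ^ m = 1 := Nat.find_spec hex
  have hm0 : m ≠ 0 := by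
    intro h0
    rw [h0, pow_zero, pow_one] at hm1
    exact hg hm1
  obtain ⟨m', hm'⟩ := Nat.exists_eq_succ_of_ne_zero hm0
  refine ⟨p ^ m', ?_, ?_⟩
  · exact Nat.find_min hex (by omega)
  · rw [← pow_mul, ← pow_succ]
    rw [hm'] at hm1
    exact hm1

/-- powers prime to `p` of an element of order dividing `p` generate -/
theorem exists_pow_eq {Γ : Type} [Group Γ] {p : ℕ} (hp : p.Prime) (z : Γ) (i : ℕ)
    (hz : z ^ p = 1) (hi : ¬ p ∣ i) : ∃ c : ℕ, (z ^ i) ^ c = z := by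
  obtain ⟨c, -, hc⟩ := Nat.exists_mul_mod_eq_one_of_coprime
    ((Nat.Prime.coprime_iff_not_dvd hp).2 hi).symm hp.one_lt
  refine ⟨c, ?_⟩
  rw [← pow_mul, ← Nat.div_add_mod (i * c) p, pow_add, pow_mul, hz, one_pow, one_mul, hc, pow_one]

end FinalAux

/-- In a torsion `p`-group which is residually finite, and in which two commuting elements of order
dividing `p` are dependent, all abelian subgroups are finite. -/
theorem abelian_finite {Γ : Type} [Group Γ] {p : ℕ} (hp : p.Prime)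
    (htors : ∀ g : Γ, ∃ k : ℕ, g ^ p ^ k = 1)
    (hsep : ∀ g : Γ, g ≠ 1 → ∃ N : Subgroup Γ, N.Normal ∧ N.index ≠ 0 ∧ g ∉ N)
    (hrank : ∀ x y : Γ, x ^ p = 1 → y ^ p = 1 → x * y = y * x →
      ∃ a b : ℕ, ¬ (p ∣ a ∧ p ∣ b) ∧ x ^ a * y ^ b = 1)
    (H : Subgroup Γ) (hab : ∀ x ∈ H, ∀ y ∈ H, x * y = y * x) : (H : Set Γ).Finite := by
  by_contra hHinf
  obtain ⟨h, hhH, hh1⟩ : ∃ h ∈ H, h ≠ 1 := by
    by_contra hcon
    push Not at hcon
    refine hHinf ((Set.finite_singleton 1).subset fun x hx => ?_)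
    exact hcon x hx
  obtain ⟨a, ha1, ha3⟩ := FinalAux.exists_pow_order htors h hh1
  set x := h ^ a with hx
  have hxH : x ∈ H := H.pow_mem hhH a
  obtain ⟨M, hMn, hMi, hMx⟩ := hsep x ha1
  obtain ⟨y', hy'H, hy'M, hy'1⟩ : ∃ y ∈ H, y ∈ M ∧ y ≠ 1 := by
    by_contra hcon
    push Not at hcon
    have hMf : M.FiniteIndex := ⟨hMi⟩
    have hfinM : Finite (Γ ⧸ M) := Subgroup.finite_quotient_of_finiteIndex
    refine hHinf (Set.Finite.of_finite_image (f := fun z => (z : Γ ⧸ M)) (Set.toFinite _) ?_)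
    intro u hu v hv huv
    have h1 : u⁻¹ * v ∈ M := QuotientGroup.eq.1 huv
    have h2 := hcon _ (H.mul_mem (H.inv_mem hu) hv) h1
    exact (inv_mul_eq_one.1 h2)
  obtain ⟨b, hb1, hb3⟩ := FinalAux.exists_pow_order htors y' hy'1
  set y := y' ^ b with hy
  have hyH : y ∈ H := H.pow_mem hy'H b
  have hyM : y ∈ M := M.pow_mem hy'M b
  obtain ⟨i, j, hij, hxy⟩ := hrank x y ha3 hb3 (hab x hxH y hyH)
  by_cases hi : p ∣ i
  · have hj : ¬ p ∣ j := fun hj => hij ⟨hi, hj⟩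
    obtain ⟨i', rfl⟩ := hi
    rw [pow_mul, ha3, one_pow, one_mul] at hxy
    obtain ⟨c, hc⟩ := FinalAux.exists_pow_eq hp y j hb3 hj
    rw [hxy, one_pow] at hc
    exact hb1 hc.symm
  · obtain ⟨c, hc⟩ := FinalAux.exists_pow_eq hp x i ha3 hi
    apply hMx
    rw [← hc, eq_inv_of_mul_eq_one_left hxy]
    exact M.pow_mem (M.inv_mem (M.pow_mem hyM j)) c

/-- the negation of the problem -/
theorem final : ¬ (∀ (G : Type) [Group G], Infinite G →
      (∀ g : G, g ≠ 1 → ∃ N : Subgroup G, N.Normal ∧ N.index ≠ 0 ∧ g ∉ N) →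
      ∃ H : Subgroup G, (∀ x ∈ H, ∀ y ∈ H, x * y = y * x) ∧ (H : Set G).Infinite) := by
  intro hmain
  have : Fact (Nat.Prime 3) := ⟨Nat.prime_three⟩
  obtain ⟨Γ, _, f, -, hinf, htors, hsep, hrank⟩ := exists_group 3 (by norm_num)
  have hsep' : ∀ g : Γ, g ≠ 1 → ∃ N : Subgroup Γ, N.Normal ∧ N.index ≠ 0 ∧ g ∉ N := by
    intro g hg
    obtain ⟨N, h1, ⟨k, hk⟩, h3⟩ := hsep g hg
    exact ⟨N, h1, by rw [hk]; positivity, h3⟩
  obtain ⟨H, hab, hH⟩ := hmain Γ hinf hsep'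
  exact hH (abelian_finite Nat.prime_three htors hsep' hrank H hab)

end Pool.Agent.RFA
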