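import Pool.Agent.RFA.Jl

set_option autoImplicit false

namespace Pool.Agent.RFA

open Topology Module

variable {p : ℕ} [Fact p.Prime] {G : Type} [Group G] [TopologicalSpace G] [IsTopologicalGroup G]

namespace AC

/-- weights for a free action of a finite group -/
theorem exists_weight {K : Type} [Ring K] {P X : Type} [Group P] [Fintype P] [MulAction P X]
    (hfree : ∀ (π : P) (x : X), π • x = x → π = 1) :
    ∃ w : X → K, ∀ x, ∑ π : P, w (π⁻¹ • x) = 1 := by
  classical
  let s : Setoid X := MulAction.orbitRel P X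
  let rep : X → X := fun x => Quotient.out (Quotient.mk s x)
  have hrep : ∀ x, ∃ σ : P, rep x = σ • x := by
    intro x
    have h : s (Quotient.out (Quotient.mk s x)) x := Quotient.mk_out (s := s) x
    obtain ⟨σ, hσ⟩ := h
    exact ⟨σ, hσ.symm⟩
  have hrep2 : ∀ (π : P) x, rep (π • x) = rep x := by
    intro π x
    have : Quotient.mk s (π • x) = Quotient.mk s x := Quotient.sound ⟨π, rfl⟩
    simp only [rep, this]
  refine ⟨fun x => if x = rep x then 1 else 0, fun x => ?_⟩
  obtain ⟨σ, hσ⟩ := hrep x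
  rw [Fintype.sum_eq_single σ⁻¹]
  · simp [hrep2, hσ]
  · intro π hπ
    change (if π⁻¹ • x = rep (π⁻¹ • x) then (1 : K) else 0) = 0
    rw [if_neg]
    rw [hrep2, hσ]
    intro h
    apply hπ
    have : (π * σ) • x = x := by rw [mul_smul, ← h, smul_inv_smul]
    exact eq_inv_of_mul_eq_one_left (hfree _ _ this)

omit [TopologicalSpace G] [IsTopologicalGroup G] in
theorem hom_one {N' : Subgroup G} {θ : ↥N' → ZMod p} (h : ∀ x y, θ (x * y) = θ x + θ y) :
    θ 1 = 0 := by
  have := h 1 1
  rw [mul_one] at this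
  have h2 : θ 1 + 0 = θ 1 + θ 1 := by rw [add_zero]; exact this
  exact (add_left_cancel h2).symm

omit [TopologicalSpace G] [IsTopologicalGroup G] in
theorem hom_inv {N' : Subgroup G} {θ : ↥N' → ZMod p} (h : ∀ x y, θ (x * y) = θ x + θ y)
    (x : ↥N') : θ x⁻¹ = - θ x := by
  have := h x x⁻¹
  rw [mul_inv_cancel, hom_one h] at this
  exact eq_neg_of_add_eq_zero_right this.symm

omit [TopologicalSpace G] [IsTopologicalGroup G] in
theorem hom_conj {N' : Subgroup G} {θ : ↥N' → ZMod p} (h : ∀ x y, θ (x * y) = θ x + θ y)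
    (x y : ↥N') : θ (y * x * y⁻¹) = θ x := by
  rw [h, h, hom_inv h]; ring

theorem conj_mem {I : Type} {r : I → G} {e : I → ℕ} {N' : Subgroup G} (h : Adm p r e N') (j : I)
    (x : G) : x * r j ^ p ^ e j * x⁻¹ ∈ N' :=
  h.rel_le ((Rel.normal r e).conj_mem _ (Rel.mem r e j) x)

section weights

variable {I : Type} (r : I → G) (N N' : Subgroup G) [N'.Normal]

/-- the image of `N` in `G ⧸ N'` -/
abbrev PN : Subgroup (G ⧸ N') := N.map (QuotientGroup.mk' N')

/-- the cyclic subgroup generated by the image of `r j` -/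
abbrev CC (j : I) : Subgroup (G ⧸ N') := Subgroup.zpowers (QuotientGroup.mk' N' (r j))

variable [Fintype (PN N N')] (w : ∀ j : I, (G ⧸ N') ⧸ CC r N' j → ZMod p)

/-- weighted sums -/
def wt (c : PN N N' → ZMod p) (j : I) (g : G) : ZMod p :=
  ∑ π : PN N N', c π * w j (π⁻¹ • ((QuotientGroup.mk' N' g : G ⧸ N') : (G ⧸ N') ⧸ CC r N' j))

omit [TopologicalSpace G] [IsTopologicalGroup G] in
theorem wt_left (c : PN N N' → ZMod p) (j : I) (g n : G) (hn : n ∈ N') :
    wt r N N' w c j (n * g) = wt r N N' w c j g := by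
  have : QuotientGroup.mk' N' (n * g) = QuotientGroup.mk' N' g := by
    rw [map_mul]
    have h1 : QuotientGroup.mk' N' n = 1 := (QuotientGroup.eq_one_iff n).2 hn
    rw [h1, one_mul]
  simp only [wt, this]

omit [TopologicalSpace G] [IsTopologicalGroup G] in
theorem wt_right (c : PN N N' → ZMod p) (j : I) (g : G) :
    wt r N N' w c j (g * r j) = wt r N N' w c j g := by
  have : ((QuotientGroup.mk' N' (g * r j) : G ⧸ N') : (G ⧸ N') ⧸ CC r N' j) =
      ((QuotientGroup.mk' N' g : G ⧸ N') : (G ⧸ N') ⧸ CC r N' j) := by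
    rw [map_mul]
    apply QuotientGroup.eq.2
    rw [mul_inv_rev, inv_mul_cancel_right]
    exact Subgroup.inv_mem _ (Subgroup.mem_zpowers _)
  simp only [wt, this]

omit [TopologicalSpace G] [IsTopologicalGroup G] in
theorem wt_translate (c : PN N N' → ZMod p) (j : I) (g n : G) (π₀ : PN N N')
    (hπ₀ : (π₀ : G ⧸ N') = QuotientGroup.mk' N' n) :
    wt r N N' w (fun π => c (π₀⁻¹ * π)) j g = wt r N N' w c j (n⁻¹ * g) := by
  unfold wt
  rw [← Equiv.sum_comp (Equiv.mulLeft π₀)]
  refine Finset.sum_congr rfl fun π _ => ?_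
  simp only [Equiv.coe_mulLeft, inv_mul_cancel_left, mul_inv_rev, mul_smul]
  congr 3
  rw [map_mul, map_inv, ← hπ₀]
  rfl

omit [TopologicalSpace G] [IsTopologicalGroup G] in
theorem wt_add (c c' : PN N N' → ZMod p) (j : I) (g : G) :
    wt r N N' w (c + c') j g = wt r N N' w c j g + wt r N N' w c' j g := by
  simp only [wt, Pi.add_apply, add_mul, Finset.sum_add_distrib]

omit [TopologicalSpace G] [IsTopologicalGroup G] in
theorem wt_smul (t : ZMod p) (c : PN N N' → ZMod p) (j : I) (g : G) :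
    wt r N N' w (t • c) j g = t * wt r N N' w c j g := by
  simp only [wt, Pi.smul_apply, smul_eq_mul, mul_assoc, Finset.mul_sum]

omit [TopologicalSpace G] [IsTopologicalGroup G] in
theorem wt_const (hw : ∀ j x, ∑ π : PN N N', w j (π⁻¹ • x) = 1) (t : ZMod p) (j : I) (g : G) :
    wt r N N' w (fun _ => t) j g = t := by
  simp only [wt, ← Finset.mul_sum, hw, mul_one]

end weights

theorem key {δ : ℕ} (hG : ProFree p δ G) {I : Type} [Fintype I] (r : I → G) (e : I → ℕ)
    (N N' : Subgroup G) (hN : N.Normal) (hN' : N'.Normal) (hle : N' ≤ N) (hA : Adm p r e N)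
    (hA' : Adm p r e N') (hlt : h2 p r e N' < (N'.relIndex N : ℤ)) (v : I → G → ZMod p)
    (hvl : ∀ j, ∀ g ∈ N, ∀ x, v j (g * x) = v j x) (hvr : ∀ j x, v j (x * r j) = v j x) :
    ∃ θ ∈ Hom1 p ↥N', ∀ j x, θ ⟨x * r j ^ p ^ e j * x⁻¹, conj_mem hA' j x⟩ = v j x := by
  classical
  have hfi : N'.FiniteIndex := hG.finiteIndex N' hA'.isOpen
  have hQ : Finite (G ⧸ N') := inferInstance
  let _ : Fintype (PN N N') := Fintype.ofFinite _
  -- the action is free
  have hfree : ∀ j, ∀ (π : PN N N') (x : (G ⧸ N') ⧸ CC r N' j), π • x = x → π = 1 := by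
    intro j π x hx
    induction x using QuotientGroup.induction_on with
    | H q =>
      induction q using QuotientGroup.induction_on with
      | H g =>
        obtain ⟨n, hn, hnπ⟩ := Subgroup.mem_map.1 π.2
        have h1 : (((π : G ⧸ N') * (g : G ⧸ N') : G ⧸ N') : (G ⧸ N') ⧸ CC r N' j) =
            ((g : G ⧸ N') : (G ⧸ N') ⧸ CC r N' j) := hx
        have h2 := QuotientGroup.eq.1 h1.symm
        rw [← mem_powers_iff_mem_zpowers] at h2
        obtain ⟨a, ha⟩ := h2
        have h3 : (π : G ⧸ N') = QuotientGroup.mk' N' (g * r j ^ a * g⁻¹) := by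
          rw [map_mul, map_mul, map_inv, map_pow]
          simp only at ha
          rw [ha]
          simp only [QuotientGroup.mk'_apply]
          group
        have h4 : g * r j ^ a * g⁻¹ ∈ N := by
          have h5 : QuotientGroup.mk' N' n = QuotientGroup.mk' N' (g * r j ^ a * g⁻¹) := by
            rw [hnπ, h3]
          have h6 := QuotientGroup.eq.1 h5
          have h7 := N.mul_mem hn (hle h6)
          rwa [mul_inv_cancel_left] at h7
        obtain ⟨b, hb⟩ := hA.ord j g a h4
        have h8 : g * r j ^ a * g⁻¹ ∈ N' := by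
          have h9 : g * r j ^ a * g⁻¹ = (g * r j ^ p ^ e j * g⁻¹) ^ b := by
            rw [conj_pow, ← pow_mul, ← hb]
          rw [h9]
          exact N'.pow_mem (conj_mem hA' j g) b
        apply Subtype.ext
        rw [h3]
        exact (QuotientGroup.eq_one_iff _).2 h8
  choose w hw using fun j => exists_weight (K := ZMod p) (hfree j)
  -- representatives
  obtain ⟨ι, hι, ρ, idx, x, hPP⟩ := exists_PP hG r e N' hA'.isOpen hA'.cyc
  have hcard := hPP.card hG hA'.isOpen hA'.cyc (fun _ => 1)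
  have hHfin : Module.Finite (ZMod p) (Hom1 p ↥N') := hG.fin N' hA'.isOpen
  -- the function `u`
  let u : (PN N N' → ZMod p) → I → G → ZMod p := fun c j g => v j g * wt r N N' w c j g
  have u_left : ∀ c j, ∀ n ∈ N', ∀ g, u c j (n * g) = u c j g := by
    intro c j n hn g
    simp only [u]
    rw [wt_left r N N' w c j g n hn, hvl j n (hle hn)]
  have u_right : ∀ c j g, u c j (g * r j) = u c j g := by
    intro c j g
    simp only [u]
    rw [wt_right, hvr]
  have u_right_pow : ∀ c j g (a : ℕ), u c j (g * r j ^ a) = u c j g := by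
    intro c j g a
    induction a with
    | zero => rw [pow_zero, mul_one]
    | succ a ih => rw [pow_succ, ← mul_assoc, u_right, ih]
  -- linear map
  let M : ((PN N N' → ZMod p) × Hom1 p ↥N') →ₗ[ZMod p] (ι → ZMod p) :=
    { toFun := fun z l => u z.1 (idx l) (x l) - (z.2 : ↥N' → ZMod p) (ρ l)
      map_add' := by
        intro z z'
        funext l
        simp only [u, Prod.fst_add, Prod.snd_add, wt_add, Submodule.coe_add, Pi.add_apply]
        ring
      map_smul' := by
        intro t z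
        funext l
        simp only [u, Prod.smul_fst, Prod.smul_snd, wt_smul, Submodule.coe_smul, Pi.smul_apply,
          smul_eq_mul, RingHom.id_apply]
        ring }
  have hM : ∀ c θ, M (c, θ) = 0 ↔ ∀ l, u c (idx l) (x l) = (θ : ↥N' → ZMod p) (ρ l) := by
    intro c θ
    constructor
    · intro h l
      have := congrFun h l
      exact sub_eq_zero.1 this
    · intro h
      funext l
      exact sub_eq_zero.2 (h l)
  -- kernel elements satisfy the identity everywhere
  have hker : ∀ (c : PN N N' → ZMod p) (θ : Hom1 p ↥N'), M (c, θ) = 0 → ∀ j g,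
      u c j g = (θ : ↥N' → ZMod p) ⟨g * r j ^ p ^ e j * g⁻¹, conj_mem hA' j g⟩ := by
    intro c θ h j g
    obtain ⟨l, hl, y, hy, a, hg⟩ := hPP.cover j g
    subst hl
    have h1 : u c (idx l) g = u c (idx l) (x l) := by
      rw [hg, u_right_pow, u_left _ _ y hy]
    have h2 : (⟨g * r (idx l) ^ p ^ e (idx l) * g⁻¹, conj_mem hA' (idx l) g⟩ : ↥N') =
        ⟨y, hy⟩ * ρ l * ⟨y, hy⟩⁻¹ := by
      apply Subtype.ext
      simp only [Subgroup.coe_mul, Subgroup.coe_inv, hPP.rho_eq]
      rw [hg]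
      have hcomm : r (idx l) ^ a * r (idx l) ^ p ^ e (idx l) * (r (idx l) ^ a)⁻¹ =
          r (idx l) ^ p ^ e (idx l) := by
        rw [← pow_add, add_comm, pow_add, mul_inv_cancel_right]
      calc y * x l * r (idx l) ^ a * r (idx l) ^ p ^ e (idx l) * (y * x l * r (idx l) ^ a)⁻¹
          = y * x l * (r (idx l) ^ a * r (idx l) ^ p ^ e (idx l) * (r (idx l) ^ a)⁻¹) *
              (y * x l)⁻¹ := by group
        _ = y * (x l * r (idx l) ^ p ^ e (idx l) * (x l)⁻¹) * y⁻¹ := by rw [hcomm]; group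
    rw [h1, h2, hom_conj θ.2.2]
    exact (hM c θ).1 h l
  -- the space `W`
  let W : Submodule (ZMod p) (PN N N' → ZMod p) :=
    (LinearMap.ker M).map (LinearMap.fst (ZMod p) _ _)
  have hW : ∀ c, c ∈ W ↔ ∃ θ : Hom1 p ↥N', M (c, θ) = 0 := by
    intro c
    constructor
    · rintro ⟨⟨c', θ⟩, h, rfl⟩
      exact ⟨θ, h⟩
    · rintro ⟨θ, h⟩
      exact ⟨(c, θ), h, rfl⟩
  have hWne : W ≠ ⊥ := by
    intro hbot
    have h0 : ∀ c θ, M (c, θ) = 0 → c = 0 := by
      intro c θ h
      have : c ∈ W := (hW c).2 ⟨θ, h⟩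
      rwa [hbot, Submodule.mem_bot] at this
    -- kernel embeds in HomR
    have hR : ∀ z : LinearMap.ker M, ((z : (PN N N' → ZMod p) × Hom1 p ↥N').2 : ↥N' → ZMod p) ∈
        HomR p (Rel p r e) N' := by
      rintro ⟨⟨c, θ⟩, hz⟩
      have hc : c = 0 := h0 c θ hz
      refine ⟨θ.2, fun y hy => ?_⟩
      let f : G → ZMod p := fun g => if h : g ∈ N' then (θ : ↥N' → ZMod p) ⟨g, h⟩ else 0
      have hf : ∀ y : ↥N', f y = (θ : ↥N' → ZMod p) y := by
        intro y
        simp only [f]
        rw [dif_pos y.2]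
      have hfc : ContinuousOn f (N' : Set G) := by
        rw [continuousOn_iff_continuous_domRestrict]
        have : (N' : Set G).domRestrict f = (θ : ↥N' → ZMod p) := by
          funext y
          exact hf y
        rw [this]
        exact θ.2.1.continuous
      have := Rel.hom_ext r e f (fun _ => 0) (hfc.mono hA'.rel_le) continuousOn_const
        (fun a ha b hb => by
          have h1 := hf ⟨a * b, N'.mul_mem (hA'.rel_le ha) (hA'.rel_le hb)⟩
          have h2 := hf ⟨a, hA'.rel_le ha⟩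
          have h3 := hf ⟨b, hA'.rel_le hb⟩
          simp only at h1 h2 h3
          rw [h1, h2, h3, ← θ.2.2]
          rfl)
        (fun _ _ _ _ => by simp)
        (fun i g => by
          have h1 := hker c θ hz i g
          have h2 := hf ⟨g * r i ^ p ^ e i * g⁻¹, conj_mem hA' i g⟩
          simp only at h2
          rw [h2, ← h1, hc]
          simp [u, wt]) y hy
      rw [← hf y]
      exact this
    let E : LinearMap.ker M →ₗ[ZMod p] HomR p (Rel p r e) N' :=
      { toFun := fun z => ⟨((z : (PN N N' → ZMod p) × Hom1 p ↥N').2 : ↥N' → ZMod p), hR z⟩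
        map_add' := fun _ _ => rfl
        map_smul' := fun _ _ => rfl }
    have hE : Function.Injective E := by
      rintro ⟨⟨c, θ⟩, hz⟩ ⟨⟨c', θ'⟩, hz'⟩ h
      have h1 : (θ : ↥N' → ZMod p) = θ' :=
        congrArg (fun z : HomR p (Rel p r e) N' => (z : ↥N' → ZMod p)) h
      have h2 : c = 0 := h0 c θ hz
      have h3 : c' = 0 := h0 c' θ' hz'
      apply Subtype.ext
      exact Prod.ext (h2.trans h3.symm) (Subtype.ext h1)
    have hHR : HomR p (Rel p r e) N' ≤ Hom1 p ↥N' := fun f hf => hf.1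
    have hfinR : Module.Finite (ZMod p) (HomR p (Rel p r e) N') :=
      Submodule.finiteDimensional_of_le hHR
    have e1 : finrank (ZMod p) (LinearMap.ker M) ≤ finrank (ZMod p) (HomR p (Rel p r e) N') :=
      LinearMap.finrank_le_finrank_of_injective hE
    have e2 := LinearMap.finrank_range_add_finrank_ker M
    have e3 : finrank (ZMod p) (LinearMap.range M) ≤ Fintype.card ι := by
      have := Submodule.finrank_le (LinearMap.range M)
      rwa [Module.finrank_fintype_fun_eq_card] at this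
    rw [Module.finrank_prod, Module.finrank_fintype_fun_eq_card] at e2
    have e4 : Fintype.card (PN N N') = N'.relIndex N := by
      rw [← Nat.card_eq_fintype_card, ← Subgroup.relIndex_ker, QuotientGroup.ker_mk']
    have e5 : Fintype.card ι = ∑ i, N'.index / p ^ e i := by
      simpa using hcard
    unfold h2 at hlt
    rw [← e4, ← Nat.cast_sum, ← e5] at hlt
    omega
  -- translation action
  have htr : ∀ (π₀ : PN N N') (c : PN N N' → ZMod p), c ∈ W → (fun π => c (π₀⁻¹ * π)) ∈ W := by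
    intro π₀ c hc
    obtain ⟨θ, hθ⟩ := (hW c).1 hc
    obtain ⟨n, hn, hnπ⟩ := Subgroup.mem_map.1 π₀.2
    have hθc : (fun y : ↥N' => (θ : ↥N' → ZMod p) ⟨n⁻¹ * y * n, by
        have := hN'.conj_mem y y.2 n⁻¹
        rwa [inv_inv] at this⟩) ∈ Hom1 p ↥N' := by
      refine ⟨?_, ?_⟩
      · apply θ.2.1.comp_continuous
        exact Continuous.subtype_mk (by fun_prop) _
      · intro y z
        rw [← θ.2.2]
        refine congrArg (θ : ↥N' → ZMod p) (Subtype.ext ?_)
        simp only [Subgroup.coe_mul]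
        group
    rw [hW]
    refine ⟨⟨_, hθc⟩, (hM _ _).2 fun l => ?_⟩
    have h1 := hker c θ hθ (idx l) (n⁻¹ * x l)
    have h2 : u (fun π => c (π₀⁻¹ * π)) (idx l) (x l) = u c (idx l) (n⁻¹ * x l) := by
      simp only [u]
      rw [wt_translate r N N' w c (idx l) (x l) n π₀ hnπ.symm, hvl _ _ (N.inv_mem hn)]
    rw [h2, h1]
    refine congrArg (θ : ↥N' → ZMod p) (Subtype.ext ?_)
    simp only [hPP.rho_eq]
    group
  let _ : MulAction (PN N N') W :=
    { smul := fun π₀ c => ⟨fun π => (c : PN N N' → ZMod p) (π₀⁻¹ * π), htr π₀ c c.2⟩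
      one_smul := by
        rintro ⟨c, hc⟩
        apply Subtype.ext
        funext π
        change c ((1 : PN N N')⁻¹ * π) = c π
        rw [inv_one, one_mul]
      mul_smul := by
        rintro π₁ π₂ ⟨c, hc⟩
        apply Subtype.ext
        funext π
        change c ((π₁ * π₂)⁻¹ * π) = c (π₂⁻¹ * (π₁⁻¹ * π))
        rw [mul_inv_rev, mul_assoc] }
  have hpP : IsPGroup p (PN N N') := by
    obtain ⟨n, hn⟩ := hG.index_pow N' hA'.isOpen
    have : IsPGroup p (G ⧸ N') := IsPGroup.of_card (n := n) hn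
    exact this.to_subgroup _
  have hWfin : Finite W := inferInstance
  have hdvd : p ∣ Nat.card W := by
    have h1 : Nat.card W = Nat.card (ZMod p) ^ finrank (ZMod p) W :=
      Module.natCard_eq_pow_finrank
    rw [h1, Nat.card_zmod]
    apply dvd_pow_self
    intro h
    exact hWne (Submodule.finrank_eq_zero.1 h)
  obtain ⟨c, hcf, hc0⟩ := hpP.exists_fixed_point_of_prime_dvd_card_of_fixed_point W hdvd
    (a := 0) (by
      intro π₀
      apply Subtype.ext
      funext π
      rfl)
  have hconst : ∀ π, (c : PN N N' → ZMod p) π = (c : PN N N' → ZMod p) 1 := by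
    intro π
    have h1 := hcf π
    have h2 := congrFun (congrArg Subtype.val h1) π
    have h3 : (c : PN N N' → ZMod p) (π⁻¹ * π) = (c : PN N N' → ZMod p) π := h2
    rw [inv_mul_cancel] at h3
    exact h3.symm
  set t := (c : PN N N' → ZMod p) 1 with ht
  have ht0 : t ≠ 0 := by
    intro h
    apply hc0
    apply Subtype.ext
    funext π
    rw [hconst π, h]
    rfl
  have hcc : (c : PN N N' → ZMod p) = fun _ => t := funext hconst
  obtain ⟨θ, hθ⟩ := (hW c).1 c.2
  refine ⟨t⁻¹ • (θ : ↥N' → ZMod p), (Hom1 p ↥N').smul_mem _ θ.2, fun j g => ?_⟩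
  have h1 := hker c θ hθ j g
  rw [Pi.smul_apply, ← h1, hcc]
  simp only [u, wt_const r N N' w hw, smul_eq_mul]
  field_simp

end AC

open AC in
/-- asphericity -/
theorem asph {δ : ℕ} (hG : ProFree p δ G) (S : Stage p δ G) (N : Subgroup G) (hN : N.Normal)
    (hNo : IsOpen (N : Set G)) (hR : S.R ≤ N) (v : S.I → G → ZMod p)
    (hvl : ∀ j, ∀ g ∈ N, ∀ x, v j (g * x) = v j x) (hvr : ∀ j x, v j (x * S.r j) = v j x) :
    ∃ θ : G → ZMod p, IsK p S.R θ ∧
      ∀ j x, θ (x * S.r j ^ p ^ S.e j * x⁻¹) = v j x := by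
  classical
  have hpp : 1 < p := (Fact.out : p.Prime).one_lt
  -- an open normal subgroup between
  have between : ∀ H : Subgroup G, IsOpen (H : Set G) → S.R ≤ H →
      ∃ H' : Subgroup G, H'.Normal ∧ IsOpen (H' : Set G) ∧ S.R ≤ H' ∧ H' ≤ H := by
    intro H hH hRH
    obtain ⟨K, hK, hKo, hKH, -⟩ := hG.basis (H : Set G) (hH.mem_nhds H.one_mem)
    have hRn : (Rel p S.r S.e).Normal := Rel.normal S.r S.e
    refine ⟨K ⊔ S.R, ?_, ?_, le_sup_right, sup_le hKH hRH⟩
    · unfold Stage.R
      exact Subgroup.sup_normal K (Rel p S.r S.e)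
    · exact Subgroup.isOpen_mono (le_sup_left : K ≤ K ⊔ S.R) hKo
  obtain ⟨N₁, hN₁, hN₁o, hRN₁, hN₁le⟩ := between (N ⊓ S.V) (hNo.inter S.adm.isOpen)
    (le_inf hR S.adm.rel_le)
  have hA₁ : Adm p S.r S.e N₁ := S.adm.mono (hN₁le.trans inf_le_right) hRN₁ hN₁o
  obtain ⟨C, hC⟩ := S.bdd
  have hfi₁ : N₁.FiniteIndex := hG.finiteIndex N₁ hN₁o
  have hfiV : S.V.FiniteIndex := hG.finiteIndex S.V S.adm.isOpen
  -- choose `m`
  obtain ⟨m, hm⟩ : ∃ m : ℕ, C * N₁.index < (Jlev p S.V S.χ m).index := by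
    refine ⟨(C * N₁.index).toNat, ?_⟩
    rw [Jlev_relIndex hG S.adm.isOpen S.isZ S.indep]
    have h1 : (C * N₁.index) ≤ ((C * N₁.index).toNat : ℤ) := Int.self_le_toNat _
    refine lt_of_le_of_lt h1 ?_
    have h2 : (C * N₁.index).toNat < p ^ (3 * (C * N₁.index).toNat) :=
      lt_of_lt_of_le (Nat.lt_pow_self hpp)
        (Nat.pow_le_pow_right (by omega) (by omega))
    have h3 : 0 < S.V.index := Nat.pos_of_ne_zero hfiV.index_ne_zero
    have h4 : (C * N₁.index).toNat < S.V.index * p ^ (3 * (C * N₁.index).toNat) :=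
      lt_of_lt_of_le h2 (Nat.le_mul_of_pos_left _ h3)
    exact_mod_cast h4
  have hAJ := Jlev_adm hG S.adm S.isZ m
  obtain ⟨N', hN', hN'o, hRN', hN'le⟩ := between (Jlev p S.V S.χ m ⊓ N₁)
    (hAJ.isOpen.inter hN₁o) (le_inf hAJ.rel_le hRN₁)
  have hA' : Adm p S.r S.e N' := hA₁.mono (hN'le.trans inf_le_right) hRN' hN'o
  have hlt : h2 p S.r S.e N' < (N'.relIndex N₁ : ℤ) := by
    have g1 := h2_growth hG S.r S.e _ N' hAJ hA' (hN'le.trans inf_le_left)
    have g2 := Subgroup.relIndex_mul_index (hN'le.trans inf_le_left : N' ≤ Jlev p S.V S.χ m)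
    have g3 := Subgroup.relIndex_mul_index (hN'le.trans inf_le_right : N' ≤ N₁)
    have g4 := hC m
    have hfi' : N'.FiniteIndex := hG.finiteIndex N' hN'o
    have g5 : 0 < N'.index := Nat.pos_of_ne_zero hfi'.index_ne_zero
    have g6 : 0 < N'.relIndex (Jlev p S.V S.χ m) := by
      rcases Nat.eq_zero_or_pos (N'.relIndex (Jlev p S.V S.χ m)) with h | h
      · rw [h, zero_mul] at g2; omega
      · exact h
    have g7 : 0 < N₁.index := Nat.pos_of_ne_zero hfi₁.index_ne_zero
    have g8 : ((N'.relIndex (Jlev p S.V S.χ m) : ℕ) : ℤ) * (Jlev p S.V S.χ m).index =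
        (N'.relIndex N₁ : ℤ) * N₁.index := by
      exact_mod_cast g2.trans g3.symm
    have g9 : h2 p S.r S.e N' ≤ (N'.relIndex (Jlev p S.V S.χ m) : ℤ) * C :=
      g1.trans (mul_le_mul_of_nonneg_left g4 (by positivity))
    refine lt_of_le_of_lt g9 ?_
    have g10 : (N'.relIndex (Jlev p S.V S.χ m) : ℤ) * C * N₁.index <
        (N'.relIndex N₁ : ℤ) * N₁.index := by
      rw [← g8, mul_assoc]
      exact mul_lt_mul_of_pos_left hm (by exact_mod_cast g6)
    exact lt_of_mul_lt_mul_right g10 (by positivity)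
  obtain ⟨θ, hθ, hθv⟩ := key hG S.r S.e N₁ N' hN₁ hN' (hN'le.trans inf_le_right) hA₁ hA' hlt v
    (fun j g hg x => hvl j g (inf_le_left (a := N) (b := S.V) (hN₁le hg)) x) hvr
  refine ⟨fun g => if h : g ∈ N' then θ ⟨g, h⟩ else 0, ⟨?_, ?_⟩, ?_⟩
  · have hfc : ContinuousOn (fun g => if h : g ∈ N' then θ ⟨g, h⟩ else 0) (N' : Set G) := by
      rw [continuousOn_iff_continuous_domRestrict]
      have : (N' : Set G).domRestrict (fun g => if h : g ∈ N' then θ ⟨g, h⟩ else 0) = θ := by
        funext y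
        exact dif_pos (show (y : G) ∈ N' from y.2)
      rw [this]
      exact hθ.1.continuous
    exact hfc.mono hRN'
  · intro a ha b hb
    have ha' := hRN' ha
    have hb' := hRN' hb
    have hab := N'.mul_mem ha' hb'
    simp only [dif_pos ha', dif_pos hb', dif_pos hab]
    rw [← hθ.2]
    rfl
  · intro j x
    exact (dif_pos (conj_mem hA' j x)).trans (hθv j x)

end Pool.Agent.RFA
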