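import Pool.Agent.RFA.MixLA
import Pool.Agent.RFA.Jl
import Pool.Agent.RFA.IKm

set_option autoImplicit false

namespace Pool.Agent.RFA

open Topology Module

variable {p : ℕ} [Fact p.Prime] {G : Type} [Group G] [TopologicalSpace G] [IsTopologicalGroup G]

/-- multiplication on the quotient module -/
private noncomputable def Mix_E {ι B : Type} [AddCommGroup B] (M : Submodule (GA p B) (ι → GA p B)) :
    GA p B →ₐ[ZMod p] Module.End (ZMod p) ((ι → GA p B) ⧸ M) :=
  Algebra.lsmul (ZMod p) (ZMod p) ((ι → GA p B) ⧸ M)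

private theorem Mix_E_mk {ι B : Type} [AddCommGroup B] (M : Submodule (GA p B) (ι → GA p B))
    (t : GA p B) (v : ι → GA p B) :
    Mix_E M t (Submodule.Quotient.mk v) = Submodule.Quotient.mk (t • v) := rfl

omit [TopologicalSpace G] [IsTopologicalGroup G] in
private theorem Mix_TA_gmap {A B : Type} [AddCommGroup A] [AddCommGroup B]
    (f : B →+ A) (S : G →* Multiplicative B)
    (a : G →* Multiplicative A)
    (ha : ∀ x, (a x).toAdd = f (S x).toAdd) (x : G) :
    TA p a x = (gmap p f : GA p B →+* GA p A) (TA p S x) := by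
  have h1 : TA p a x = AddMonoidAlgebra.single (a x).toAdd 1 := rfl
  have h2 : TA p S x = AddMonoidAlgebra.single (S x).toAdd 1 := rfl
  rw [h1, h2, ha]
  exact (gmap_single f _ _).symm

/-- the quotient module -/
private theorem Mix_quot {δ : ℕ} (hG : ProFree p δ G) {ι : Type} [Fintype ι] (ρ : ι → G)
    {A B : Type} [AddCommGroup A] [AddCommGroup B] [Finite A] [Finite B]
    (f : B →+ A) (hf : Function.Surjective f) (b₀ : B) (h0 : f b₀ = 0)
    (hgen : ∀ b, f b = 0 → ∃ n : ℕ, b = n • b₀) (S : G →* Multiplicative B)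
    (hS : IsLocallyConstant S) (a : G →* Multiplicative A)
    (ha : ∀ x, (a x).toAdd = f (S x).toAdd) :
    finrank (ZMod p) (((ι → GA p B) ⧸ Dm ρ (TA p S)) ⧸
      LinearMap.range (Mix_E (Dm ρ (TA p S)) (tt p b₀))) =
      finrank (ZMod p) ((ι → GA p A) ⧸ Dm ρ (TA p a)) := by
  classical
  set T := TA p S with hT
  set T' := TA p a with hT'
  have hTT' : ∀ x, T' x = (gmap p f : GA p B →+* GA p A) (T x) :=
    fun x => Mix_TA_gmap f S a ha x
  let g1 : (ι → GA p B) →ₗ[ZMod p] (((ι → GA p B) ⧸ Dm ρ T) ⧸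
      LinearMap.range (Mix_E (Dm ρ T) (tt p b₀))) :=
    (LinearMap.range (Mix_E (Dm ρ T) (tt p b₀))).mkQ ∘ₗ ((Dm ρ T).mkQ.restrictScalars (ZMod p))
  let g2 : (ι → GA p B) →ₗ[ZMod p] ((ι → GA p A) ⧸ Dm ρ T') :=
    ((Dm ρ T').mkQ.restrictScalars (ZMod p)) ∘ₗ
      ((gmap p f).toLinearMap.compLeft ι)
  have hg1 : Function.Surjective g1 := by
    intro y
    obtain ⟨y', rfl⟩ := Submodule.Quotient.mk_surjective _ y
    obtain ⟨v, rfl⟩ := Submodule.Quotient.mk_surjective _ y'
    exact ⟨v, rfl⟩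
  have hsurj := gmap_surjective (p := p) f hf
  have hg2 : Function.Surjective g2 := by
    intro y
    obtain ⟨v, rfl⟩ := Submodule.Quotient.mk_surjective _ y
    choose w hw using fun i => hsurj (v i)
    refine ⟨w, ?_⟩
    change Submodule.Quotient.mk _ = _
    congr 1
    funext i
    exact hw i
  have hkg := gmap_ker_of_gen (p := p) f b₀ h0 hgen
  have hker : LinearMap.ker g1 = LinearMap.ker g2 := by
    ext v
    have e1 : v ∈ LinearMap.ker g1 ↔ ∃ w : ι → GA p B, v - tt p b₀ • w ∈ Dm ρ T := by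
      rw [LinearMap.mem_ker]
      change Submodule.Quotient.mk (Submodule.Quotient.mk v) = 0 ↔ _
      rw [Submodule.Quotient.mk_eq_zero]
      constructor
      · rintro ⟨y, hy⟩
        obtain ⟨w, rfl⟩ := Submodule.Quotient.mk_surjective _ y
        rw [Mix_E_mk] at hy
        exact ⟨w, (Submodule.Quotient.eq _).1 hy.symm⟩
      · rintro ⟨w, hw⟩
        refine ⟨Submodule.Quotient.mk w, ?_⟩
        rw [Mix_E_mk]
        exact ((Submodule.Quotient.eq _).2 hw).symm
    have e2 : v ∈ LinearMap.ker g2 ↔ (fun i => gmap p f (v i)) ∈ Dm ρ T' := by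
      rw [LinearMap.mem_ker]
      change Submodule.Quotient.mk (fun i => gmap p f (v i)) = 0 ↔ _
      rw [Submodule.Quotient.mk_eq_zero]
    rw [e1, e2]
    constructor
    · rintro ⟨w, Θ, hΘ, hΘ'⟩
      refine ⟨fun x => gmap p f (Θ x), ⟨hΘ.1.comp _, fun x y => ?_⟩, fun i => ?_⟩
      · change gmap p f (Θ (x * y)) = gmap p f (Θ x) + T' x * gmap p f (Θ y)
        rw [hΘ.2, map_add, map_mul, hTT']; rfl
      · change gmap p f (Θ (ρ i)) = gmap p f (v i)
        rw [hΘ' i]
        change gmap p f (v i - tt p b₀ * w i) = _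
        have hz : gmap p f (tt p b₀) = 0 := by
          have : tt p b₀ ∈ RingHom.ker (gmap p f) := by
            rw [hkg]; exact Ideal.subset_span rfl
          exact this
        rw [map_sub, map_mul, hz, zero_mul, sub_zero]
    · intro hv
      have hGA : Finite (GA p B) := GA.finite
      obtain ⟨v₁, hv₁, hv₁'⟩ := Dm_lift (p := p) hG.h2top ρ (gmap p f : GA p B →+* GA p A) hsurj
        T (TA_locConst S hS) T' hTT' _ hv
      have : ∀ i, ∃ c, v i - v₁ i = c * tt p b₀ := by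
        intro i
        have : v i - v₁ i ∈ RingHom.ker (gmap p f) := by
          change gmap p f (v i - v₁ i) = 0
          rw [map_sub, sub_eq_zero]
          exact (hv₁' i).symm
        rw [hkg, Ideal.mem_span_singleton'] at this
        obtain ⟨c, hc⟩ := this
        exact ⟨c, hc.symm⟩
      choose c hc using this
      refine ⟨c, ?_⟩
      have : v - tt p b₀ • c = v₁ := by
        funext i
        change v i - tt p b₀ * c i = v₁ i
        rw [mul_comm, ← hc i]; abel
      rw [this]; exact hv₁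
  have e1 := (LinearMap.quotKerEquivOfSurjective g1 hg1).finrank_eq
  have e2 := (LinearMap.quotKerEquivOfSurjective g2 hg2).finrank_eq
  rw [hker] at e1
  exact e1.symm.trans e2


/-- Shapiro in terms of the quotient -/
private theorem Mix_shap {δ : ℕ} (hG : ProFree p δ G) {ι : Type} [Fintype ι] (ρ : ι → G)
    {A : Type} [AddCommGroup A] [Finite A] (a : G →* Multiplicative A)
    (ha : IsLocallyConstant a) (hs : Function.Surjective a) (h1 : ∀ i, a (ρ i) = 1) :
    h2 p ρ (fun _ => 0) a.ker = (finrank (ZMod p) ((ι → GA p A) ⧸ Dm ρ (TA p a)) : ℤ) := by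
  rw [shapiro_plain hG ρ a ha hs h1]
  have hfin : Finite (GA p A) := GA.finite
  have e1 : finrank (ZMod p) (ι → GA p A) = Fintype.card ι * Nat.card A := by
    rw [Module.finrank_pi_fintype]
    simp [finrank_GA]
  have e2 := (Submodule.Quotient.restrictScalarsEquiv (ZMod p) (Dm ρ (TA p a))).finrank_eq
  have e3 := Submodule.finrank_quotient_add_finrank
    ((Dm ρ (TA p a)).restrictScalars (ZMod p))
  rw [e1, e2] at e3
  have e4 : ((finrank (ZMod p) ((ι → GA p A) ⧸ Dm ρ (TA p a)) + finrank (ZMod p)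
      ((Dm ρ (TA p a)).restrictScalars (ZMod p)) : ℕ) : ℤ) =
      ((Fintype.card ι * Nat.card A : ℕ) : ℤ) := by rw [e3]
  push_cast at e4
  linarith


/-- the map forgetting the first coordinate -/
private def Mix_f0 (k q : ℕ) : (Fin (k + 2) → ZMod q) →+ (Fin (k + 1) → ZMod q) where
  toFun v := fun j => v j.succ
  map_zero' := rfl
  map_add' _ _ := rfl

/-- the map `(a₀, a₁, a₂, …) ↦ (a₀ + μ a₁, a₂, …)` -/
private def Mix_fl (k q μ : ℕ) : (Fin (k + 2) → ZMod q) →+ (Fin (k + 1) → ZMod q) where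
  toFun v := Fin.cons (v 0 + μ * v 1) (fun j : Fin k => v j.succ.succ)
  map_zero' := by
    funext j
    refine Fin.cases ?_ (fun j => ?_) j
    · simp
    · simp
  map_add' v w := by
    funext j
    refine Fin.cases ?_ (fun j => ?_) j
    · simp only [Fin.cons_zero, Pi.add_apply]; ring
    · simp

private theorem Mix_f0_surj (k q : ℕ) : Function.Surjective (Mix_f0 k q) := by
  intro w
  exact ⟨Fin.cons 0 w, by funext j; simp [Mix_f0]⟩

private theorem Mix_fl_surj (k q μ : ℕ) : Function.Surjective (Mix_fl k q μ) := by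
  intro w
  refine ⟨Fin.cons (w 0) (Fin.cons 0 (fun j => w j.succ)), ?_⟩
  funext j
  refine Fin.cases ?_ (fun j => ?_) j
  · have : (1 : Fin (k + 2)) = Fin.succ 0 := rfl
    simp only [Mix_fl, AddMonoidHom.coe_mk, ZeroHom.coe_mk, Fin.cons_zero]
    rw [this, Fin.cons_succ, Fin.cons_zero]
    ring
  · simp [Mix_fl]

private def Mix_b0 (k q : ℕ) : Fin (k + 2) → ZMod q := Pi.single 0 1

private def Mix_b1 (k q : ℕ) : Fin (k + 2) → ZMod q := Pi.single 1 1

private theorem Mix_f0_b (k q : ℕ) : Mix_f0 k q (Mix_b0 k q) = 0 := by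
  funext j
  simp [Mix_f0, Mix_b0]

private theorem Mix_fl_b (k q μ : ℕ) : Mix_fl k q μ (Mix_b1 k q - μ • Mix_b0 k q) = 0 := by
  funext j
  refine Fin.cases ?_ (fun j => ?_) j
  · simp [Mix_fl, Mix_b1, Mix_b0]
  · have h1 : (Fin.succ (Fin.succ j)) ≠ (1 : Fin (k + 2)) := by
      intro h
      have := congrArg Fin.val h
      simp at this
    simp [Mix_fl, Mix_b1, Mix_b0, Pi.single_eq_of_ne h1]

private theorem Mix_f0_gen (k q : ℕ) [NeZero q] (b : Fin (k + 2) → ZMod q)
    (hb : Mix_f0 k q b = 0) : ∃ n : ℕ, b = n • Mix_b0 k q := by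
  refine ⟨(b 0).val, ?_⟩
  funext j
  refine Fin.cases ?_ (fun j => ?_) j
  · simp [Mix_b0]
  · have := congrFun hb j
    simpa [Mix_b0, Mix_f0] using this

private theorem Mix_fl_gen (k q μ : ℕ) [NeZero q] (b : Fin (k + 2) → ZMod q)
    (hb : Mix_fl k q μ b = 0) : ∃ n : ℕ, b = n • (Mix_b1 k q - μ • Mix_b0 k q) := by
  refine ⟨(b 1).val, ?_⟩
  have h0 := congrFun hb 0
  simp only [Mix_fl, AddMonoidHom.coe_mk, ZeroHom.coe_mk, Fin.cons_zero, Pi.zero_apply] at h0
  funext j
  refine Fin.cases ?_ (fun j => ?_) j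
  · simp [Mix_b0, Mix_b1]
    linear_combination h0
  · refine Fin.cases ?_ (fun j => ?_) j
    · have : (Fin.succ 0 : Fin (k + 2)) = 1 := rfl
      rw [this]
      simp [Mix_b0, Mix_b1]
    · have hj := congrFun hb j.succ
      simp only [Mix_fl, AddMonoidHom.coe_mk, ZeroHom.coe_mk, Fin.cons_succ, Pi.zero_apply] at hj
      have h1 : (Fin.succ (Fin.succ j)) ≠ (1 : Fin (k + 2)) := by
        intro h
        have := congrArg Fin.val h
        simp at this
      simp [Mix_b1, Mix_b0, Pi.single_eq_of_ne h1, hj]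


private theorem Mix_range_unit {ι B : Type} [AddCommGroup B]
    (M : Submodule (GA p B) (ι → GA p B)) (u t : GA p B) (hu : IsUnit u) :
    LinearMap.range (Mix_E M (u * t)) = LinearMap.range (Mix_E M t) := by
  rw [mul_comm, map_mul]
  have h1 : Function.Surjective (Mix_E M u) := by
    have := (Module.End.isUnit_iff _).1 (hu.map (Mix_E M))
    exact this.2
  change LinearMap.range (Mix_E M t ∘ₗ Mix_E M u) = _
  exact LinearMap.range_comp_of_range_eq_top _ (LinearMap.range_eq_top.2 h1)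

/-- the mixed family -/
private noncomputable def Mix_fam {k : ℕ} (χ : Fin (k + 1) → Z1 p G) (χ₀ : Z1 p G) (μ : ℕ) :
    Fin (k + 1) → Z1 p G :=
  Fin.cons (χ₀ + (μ : ℤ_[p]) • χ 0) (fun j : Fin k => χ j.succ)

omit [IsTopologicalGroup G] in
private theorem Mix_redm_one {n : ℕ} (χ : Fin n → Z1 p G) (m : ℕ) (x : G)
    (h : ∀ j, (χ j : G → ℤ_[p]) x = 0) : redm p χ m x = 1 := by
  have : (redm p χ m x).toAdd = 0 := by
    funext j
    change PadicInt.toZModPow m ((χ j : G → ℤ_[p]) x) = 0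
    rw [h j, map_zero]
  exact this

/-- one level of the mixing lemma -/
private theorem Mix_one {δ : ℕ} (hG : ProFree p δ G) {ι : Type} [Fintype ι] (ρ : ι → G) {k : ℕ}
    (χ : Fin (k + 1) → Z1 p G) (hχ : ∀ j i, (χ j : G → ℤ_[p]) (ρ i) = 0)
    (χ₀ : Z1 p G) (hχ₀ : ∀ i, (χ₀ : G → ℤ_[p]) (ρ i) = 0) (C N : ℕ) (μ : Fin (C + 1) → ℕ)
    (hN : ∀ (X : Type) [AddCommGroup X] [Module (ZMod p) X] [Module.Finite (ZMod p) X]
      (e₀ e₁ : Module.End (ZMod p) X), Commute e₀ e₁ → IsNilpotent (e₀ - 1) →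
      finrank (ZMod p) (X ⧸ LinearMap.range (e₀ - 1)) ≤ C →
      ∃ i, finrank (ZMod p) (X ⧸ LinearMap.range (e₁ - e₀ ^ μ i)) ≤ N) (m : ℕ)
    (hs : Function.Surjective (redm p χ m))
    (hs' : ∀ i, Function.Surjective (redm p (Mix_fam χ χ₀ (μ i)) m))
    (hC : h2 p ρ (fun _ => 0) (redm p χ m).ker ≤ C) :
    ∃ i, h2 p ρ (fun _ => 0) (redm p (Mix_fam χ χ₀ (μ i)) m).ker ≤ N := by
  have hp : p.Prime := Fact.out
  have : NeZero (p ^ m) := ⟨pow_ne_zero _ hp.ne_zero⟩
  set q := p ^ m with hq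
  set S := redm p (Fin.cons χ₀ χ : Fin (k + 2) → Z1 p G) m with hS
  have hSl : IsLocallyConstant S := redm_locConst _ _
  set M := Dm ρ (TA p S) with hM
  have hfinB : Finite (GA p (Fin (k + 2) → ZMod q)) := GA.finite
  have hfin : Finite ((ι → GA p (Fin (k + 2) → ZMod q)) ⧸ M) :=
    Finite.of_surjective _ (Submodule.Quotient.mk_surjective M)
  have : Module.Finite (ZMod p) ((ι → GA p (Fin (k + 2) → ZMod q)) ⧸ M) :=
    Module.Finite.of_finite
  let e₀ := Mix_E M (AddMonoidAlgebra.single (Mix_b0 k q) 1)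
  let e₁ := Mix_E M (AddMonoidAlgebra.single (Mix_b1 k q) 1)
  have he0 : e₀ - 1 = Mix_E M (tt p (Mix_b0 k q)) := by
    simp only [e₀, tt, map_sub, map_one]
  have he1 : ∀ μ : ℕ, e₁ - e₀ ^ μ = Mix_E M (AddMonoidAlgebra.single (μ • Mix_b0 k q) 1 *
      tt p (Mix_b1 k q - μ • Mix_b0 k q)) := by
    intro μ
    simp only [e₁, e₀]
    rw [← map_pow, ← map_sub]
    congr 1
    rw [AddMonoidAlgebra.single_pow, one_pow, tt, mul_sub, mul_one,
      AddMonoidAlgebra.single_mul_single]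
    simp
  have hcomm : Commute e₀ e₁ := by
    change e₀ * e₁ = e₁ * e₀
    simp only [e₀, e₁]
    rw [← map_mul, ← map_mul, mul_comm]
  have hcard : ∃ n, Nat.card (Fin (k + 2) → ZMod q) = p ^ n := by
    refine ⟨m * (k + 2), ?_⟩
    rw [Nat.card_fun]
    simp [hq, pow_mul]
  have hnil : IsNilpotent (e₀ - 1) := by
    rw [he0]
    apply IsNilpotent.map
    obtain ⟨n, hn⟩ := mI_nilpotent (p := p) hcard
    refine ⟨n, ?_⟩
    have h1 : tt p (Mix_b0 k q) ∈ mI p (Fin (k + 2) → ZMod q) := by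
      change aug p _ = 0
      simp [tt, aug_single]
    have h2 := Ideal.pow_mem_pow h1 n
    rw [hn] at h2
    exact h2
  have hC' : finrank (ZMod p) (((ι → GA p (Fin (k + 2) → ZMod q)) ⧸ M) ⧸
      LinearMap.range (e₀ - 1)) ≤ C := by
    rw [he0]
    have h1 := Mix_quot hG ρ (Mix_f0 k q) (Mix_f0_surj k q) (Mix_b0 k q) (Mix_f0_b k q)
      (Mix_f0_gen k q) S hSl (redm p χ m) (by
        intro x
        funext j
        rfl)
    rw [h1]
    rw [Mix_shap hG ρ _ (redm_locConst χ m) hs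
      (fun i => Mix_redm_one χ m _ (fun j => hχ j i))] at hC
    exact_mod_cast hC
  obtain ⟨i, hi⟩ := hN _ e₀ e₁ hcomm hnil hC'
  refine ⟨i, ?_⟩
  have hunit : IsUnit (AddMonoidAlgebra.single (μ i • Mix_b0 k q) (1 : ZMod p) :
      GA p (Fin (k + 2) → ZMod q)) := by
    refine IsUnit.of_mul_eq_one (AddMonoidAlgebra.single (-(μ i • Mix_b0 k q)) 1) ?_
    rw [AddMonoidAlgebra.single_mul_single, add_neg_cancel, one_mul]
    rfl
  rw [he1, Mix_range_unit M _ _ hunit] at hi
  have h1 := Mix_quot hG ρ (Mix_fl k q (μ i)) (Mix_fl_surj k q (μ i)) _ (Mix_fl_b k q (μ i))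
    (Mix_fl_gen k q (μ i)) S hSl (redm p (Mix_fam χ χ₀ (μ i)) m) (by
      intro x
      funext j
      refine Fin.cases ?_ (fun j => ?_) j
      · change PadicInt.toZModPow m ((χ₀ : G → ℤ_[p]) x + (μ i : ℤ_[p]) * (χ 0 : G → ℤ_[p]) x) =
          PadicInt.toZModPow m ((χ₀ : G → ℤ_[p]) x) +
            (μ i : ZMod q) * PadicInt.toZModPow m ((χ 0 : G → ℤ_[p]) x)
        rw [map_add, map_mul, map_natCast]
      · rfl)
  rw [h1] at hi
  rw [Mix_shap hG ρ _ (redm_locConst _ m) (hs' i) (fun l => Mix_redm_one _ m _ (fun j => ?_))]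
  · exact_mod_cast hi
  · refine Fin.cases ?_ (fun j => ?_) j
    · change (χ₀ : G → ℤ_[p]) (ρ l) + (μ i : ℤ_[p]) * (χ 0 : G → ℤ_[p]) (ρ l) = 0
      rw [hχ₀, hχ]; ring
    · exact hχ _ l


/-- `h2` along the tower of a family computed in the plain presentation of `V` -/
private theorem Mix_transfer {δ : ℕ} (hG : ProFree p δ G) {I : Type} [Fintype I] (r : I → G)
    (e : I → ℕ) (V : Subgroup G) (hV : Adm p r e V) {ι : Type} [Fintype ι] {ρ : ι → ↥V}
    {idx : ι → I} {x : ι → G} (h : PP p r e V ρ idx x) {n : ℕ} (ψ : Fin n → G → ℤ_[p])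
    (hψ : ∀ i, IsZ p (Rel p r e) V (ψ i)) (m : ℕ) :
    h2 p ρ (fun _ => 0) (redm p (fun i => (hψ i).toZ1) m).ker = h2 p r e (Jlev p V ψ m) := by
  have htop : (⊤ : Subgroup ↥V).map V.subtype = V := by
    rw [← MonoidHom.range_eq_map, Subgroup.range_subtype]
  rw [redm_ker]
  have hmap := Jlev_map (p := p) (R := Rel p r e) (⊤ : Subgroup ↥V) (χ := ψ)
    (by rw [htop]; exact hψ) m
  rw [htop] at hmap
  have hadm := Jlev_adm hG hV hψ m
  have hz : (fun l => e (idx l) - e (idx l)) = (fun _ : ι => 0) := by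
    funext l; exact Nat.sub_self _
  have hA := (PP.adm (c := e) (e := e) (fun _ => le_rfl) hV.isOpen hV.cyc hV.rel_le h
    (Jlev p ⊤ (fun i (x : ↥V) => ψ i x) m)).2 (by rw [hmap]; exact hadm)
  have key := PP.h2_eq hG (c := e) (e := e) (fun _ => le_rfl) hV.isOpen hV.cyc hV.rel_le h
    (Jlev p ⊤ (fun i (x : ↥V) => ψ i x) m) hA
  rw [hmap, hz] at key
  exact key

private theorem Mix_mono {δ : ℕ} (hG : ProFree p δ G) {I : Type} [Fintype I] (r : I → G)
    (e : I → ℕ) (V : Subgroup G) (hV : Adm p r e V) {n : ℕ} (ψ : Fin n → G → ℤ_[p])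
    (hψ : ∀ i, IsZ p (Rel p r e) V (ψ i)) {m m' : ℕ} (hm : m ≤ m') :
    h2 p r e (Jlev p V ψ m) ≤ h2 p r e (Jlev p V ψ m') := by
  refine h2_mono hG r e _ _ (Jlev_adm hG hV hψ m) (Jlev_adm hG hV hψ m') ?_
  intro x hx
  rw [mem_Jlev hψ] at hx ⊢
  exact ⟨hx.1, fun i => (pow_dvd_pow _ hm).trans (hx.2 i)⟩

/-- mixing lemma -/
theorem mix {δ : ℕ} (hG : ProFree p δ G) {I : Type} [Fintype I] (r : I → G) (e : I → ℕ)
    (V : Subgroup G) (hV : Adm p r e V) {k : ℕ} (χ : Fin (k + 1) → G → ℤ_[p])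
    (hχ : ∀ i, IsZ p (Rel p r e) V (χ i)) (χ₀ : G → ℤ_[p]) (hχ₀ : IsZ p (Rel p r e) V χ₀)
    (hi : Indep p V χ) (hi₀ : Indep p V (Fin.cons χ₀ (fun j : Fin k => χ j.succ)))
    (hb : Bdd p r e V χ) :
    ∃ l : ℕ, Bdd p r e V
      (Fin.cons (fun x => χ₀ x + (p : ℤ_[p]) * l * χ 0 x) (fun j : Fin k => χ j.succ)) := by
  classical
  have hp : p.Prime := Fact.out
  obtain ⟨C₀, hC₀⟩ := hb
  set C := C₀.toNat with hCdef
  obtain ⟨N, hN⟩ := mixLA (p := p) C (fun i => p * (i : ℕ)) (by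
    intro i j hij
    have := Nat.eq_of_mul_eq_mul_left hp.pos hij
    exact Fin.ext this)
  obtain ⟨ι, _, ρ, idx, x, hPP⟩ := exists_PP hG r e V hV.isOpen hV.cyc
  have hGV := hG.sub V hV.isOpen
  have htop : (⊤ : Subgroup ↥V).map V.subtype = V := by
    rw [← MonoidHom.range_eq_map, Subgroup.range_subtype]
  have hρ : ∀ l, (ρ l : G) ∈ Rel p r e := by
    intro l
    rw [hPP.rho_eq]
    exact (Rel.normal r e).conj_mem _ (Rel.mem r e _) _
  -- the mixed families
  set F : ℕ → Fin (k + 1) → G → ℤ_[p] := fun l =>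
    Fin.cons (fun x => χ₀ x + (p : ℤ_[p]) * l * χ 0 x) (fun j : Fin k => χ j.succ) with hF
  have hFZ : ∀ l i, IsZ p (Rel p r e) V (F l i) := by
    intro l i
    refine Fin.cases ?_ (fun j => ?_) i
    · have := IsZ.comb hχ₀ (hχ 0) 1 ((p : ℤ_[p]) * l)
      simpa [hF] using this
    · exact hχ j.succ
  have hFI : ∀ l, Indep p V (F l) := by
    intro l c hc
    apply hi₀ c
    intro y hy
    rw [← hc y hy]
    refine Finset.sum_congr rfl fun i _ => ?_
    refine Fin.cases ?_ (fun j => ?_) i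
    · simp only [hF, Fin.cons_zero, map_add, map_mul, map_natCast]
      simp
    · rfl
  by_contra hcon
  push Not at hcon
  -- each mixed family exceeds `N` somewhere
  have hex : ∀ i : Fin (C + 1), ∃ m, (N : ℤ) < h2 p r e (Jlev p V (F i) m) := by
    intro i
    by_contra h
    push Not at h
    exact hcon i ⟨N, h⟩
  choose m hm using hex
  set M := Finset.univ.sup m with hM
  have hsurj : ∀ {n : ℕ} (ψ : Fin n → G → ℤ_[p]) (hψ : ∀ i, IsZ p (Rel p r e) V (ψ i)),
      Indep p V ψ → Function.Surjective (redm p (fun i => (hψ i).toZ1) M) := by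
    intro n ψ hψ hI
    apply redm_surj
    have := (indep_sub (p := p) ψ (⊤ : Subgroup ↥V)).2 (by rw [htop]; exact hI)
    exact this
  have hfam : ∀ i : Fin (C + 1), Mix_fam (fun i => (hχ i).toZ1) hχ₀.toZ1 (p * (i : ℕ)) =
      fun j => (hFZ i j).toZ1 := by
    intro i
    funext j
    apply Subtype.ext
    funext y
    refine Fin.cases ?_ (fun j => ?_) j
    · change χ₀ y + (((p * (i : ℕ) : ℕ)) : ℤ_[p]) * χ 0 y = χ₀ y + (p : ℤ_[p]) * (i : ℕ) * χ 0 y
      push_cast
      ring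
    · rfl
  obtain ⟨i, hi⟩ := Mix_one hGV ρ (fun i => (hχ i).toZ1) (fun j l => (hχ j).rel _ (hρ l))
    hχ₀.toZ1 (fun l => hχ₀.rel _ (hρ l)) C N (fun i => p * (i : ℕ)) hN M
    (hsurj χ hχ hi) (fun i => by rw [hfam i]; exact hsurj (F i) (hFZ i) (hFI i))
    (by
      rw [Mix_transfer hG r e V hV hPP χ hχ M]
      exact (hC₀ M).trans (Int.self_le_toNat C₀))
  rw [hfam i, Mix_transfer hG r e V hV hPP (F i) (hFZ i) M] at hi
  have h1 := Mix_mono hG r e V hV (F i) (hFZ i) (Finset.le_sup (f := m) (Finset.mem_univ i))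
  have h2 := hm i
  linarith

omit [TopologicalSpace G] [IsTopologicalGroup G] in
private theorem Mix_indep_iff {V : Subgroup G} {n : ℕ} (χ : Fin n → G → ℤ_[p]) :
    Indep p V χ ↔ LinearIndependent (ZMod p)
      (fun i (x : ↥V) => PadicInt.toZMod (χ i (x : G))) := by
  rw [Fintype.linearIndependent_iff]
  constructor
  · intro h c hc i
    have := h c (fun x hx => by
      have := congrFun hc ⟨x, hx⟩
      simpa using this)
    exact congrFun this i
  · intro h c hc
    funext i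
    exact h c (by
      funext x
      simpa using hc x x.2) i


private theorem Mix_steinitz {W : Type} [AddCommGroup W] [Module (ZMod p) W] {k : ℕ}
    (u : Fin (k + 1) → W) (hu : LinearIndependent (ZMod p) u) (u0 : W) (h0 : u0 ≠ 0) :
    ∃ i : Fin (k + 1), LinearIndependent (ZMod p)
      (Fin.cons u0 (fun j => u (i.succAbove j)) : Fin (k + 1) → W) := by
  classical
  have hsub : ∀ i : Fin (k + 1), LinearIndependent (ZMod p) (fun j => u (i.succAbove j)) :=
    fun i => hu.comp _ Fin.succAbove_right_injective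
  by_cases hsp : u0 ∈ Submodule.span (ZMod p) (Set.range u)
  · obtain ⟨c, hc⟩ := (Submodule.mem_span_range_iff_exists_fun (ZMod p)).1 hsp
    have hne : ∃ i, c i ≠ 0 := by
      by_contra h
      push Not at h
      apply h0
      rw [← hc]
      exact Finset.sum_eq_zero fun i _ => by rw [h i, zero_smul]
    obtain ⟨i, hi⟩ := hne
    refine ⟨i, linearIndependent_finCons.2 ⟨hsub i, fun hmem => ?_⟩⟩
    have h1 := hu.notMem_span_image (s := {i}ᶜ) (x := i) (by simp)
    apply h1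
    have hle : Submodule.span (ZMod p) (Set.range fun j => u (i.succAbove j)) ≤
        Submodule.span (ZMod p) (u '' {i}ᶜ) := by
      apply Submodule.span_mono
      rintro _ ⟨j, rfl⟩
      exact ⟨i.succAbove j, by simp [Fin.succAbove_ne], rfl⟩
    rw [Fin.sum_univ_succAbove _ i] at hc
    have h2 : c i • u i ∈ Submodule.span (ZMod p) (u '' {i}ᶜ) := by
      have : c i • u i = u0 - ∑ j, c (i.succAbove j) • u (i.succAbove j) := by
        rw [← hc]; abel
      rw [this]
      refine Submodule.sub_mem _ (hle hmem) (Submodule.sum_mem _ fun j _ => ?_)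
      exact Submodule.smul_mem _ _ (Submodule.subset_span ⟨i.succAbove j, by simp [Fin.succAbove_ne],
        rfl⟩)
    exact (Submodule.smul_mem_iff _ hi).1 h2
  · refine ⟨0, linearIndependent_finCons.2 ⟨hsub 0, fun hmem => hsp ?_⟩⟩
    refine Submodule.span_mono ?_ hmem
    rintro _ ⟨j, rfl⟩
    exact ⟨_, rfl⟩

/-- exchange + mixing: if `χ₀` is non-zero mod `p`, it can replace (up to `p ·`) one of the `χ i` -/
theorem mix_exchange {δ : ℕ} (hG : ProFree p δ G) {I : Type} [Fintype I] (r : I → G) (e : I → ℕ)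
    (V : Subgroup G) (hV : Adm p r e V) {k : ℕ} (χ : Fin (k + 1) → G → ℤ_[p])
    (hχ : ∀ i, IsZ p (Rel p r e) V (χ i)) (χ₀ : G → ℤ_[p]) (hχ₀ : IsZ p (Rel p r e) V χ₀)
    (hi : Indep p V χ) (h₀ : ∃ x ∈ V, ¬ (p : ℤ_[p]) ∣ χ₀ x) (hb : Bdd p r e V χ) :
    ∃ (i : Fin (k + 1)) (l : ℕ) (σ : Fin k → Fin (k + 1)),
      Indep p V (Fin.cons (fun x => χ₀ x + (p : ℤ_[p]) * l * χ i x) (fun j => χ (σ j))) ∧
      Bdd p r e V (Fin.cons (fun x => χ₀ x + (p : ℤ_[p]) * l * χ i x) (fun j => χ (σ j))) := by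
  classical
  obtain ⟨i, hind⟩ := Mix_steinitz _ ((Mix_indep_iff χ).1 hi)
    (fun x : ↥V => PadicInt.toZMod (χ₀ (x : G))) (by
      obtain ⟨x, hxV, hx⟩ := h₀
      intro h
      apply hx
      have h1 := congrFun h ⟨x, hxV⟩
      have h2 : χ₀ x ∈ RingHom.ker (PadicInt.toZMod (p := p)) := h1
      rw [PadicInt.ker_toZMod, PadicInt.maximalIdeal_eq_span_p, Ideal.mem_span_singleton] at h2
      exact h2)
  set σ' : Fin (k + 1) → Fin (k + 1) := Fin.cons i i.succAbove with hσ'
  have hσsurj : Function.Surjective σ' := by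
    intro j
    by_cases hj : j = i
    · exact ⟨0, by simp [hσ', hj]⟩
    · obtain ⟨j', hj'⟩ := Fin.exists_succAbove_eq hj
      exact ⟨j'.succ, by simp [hσ', hj']⟩
  have hσinj : Function.Injective σ' := Finite.injective_iff_surjective.2 hσsurj
  have hJ : ∀ m, Jlev p V (fun j => χ (σ' j)) m = Jlev p V χ m := by
    intro m
    ext x
    rw [mem_Jlev (fun j => hχ (σ' j)), mem_Jlev hχ]
    refine and_congr_right fun _ => ⟨fun h j => ?_, fun h j => h _⟩
    obtain ⟨j', rfl⟩ := hσsurj j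
    exact h j'
  have hi' : Indep p V (fun j => χ (σ' j)) := by
    rw [Mix_indep_iff]
    exact ((Mix_indep_iff χ).1 hi).comp σ' hσinj
  have hcons : Indep p V (Fin.cons χ₀ (fun j : Fin k => χ (σ' j.succ)) :
      Fin (k + 1) → G → ℤ_[p]) := by
    rw [Mix_indep_iff]
    have hfun : (fun (i' : Fin (k + 1)) (x : ↥V) => PadicInt.toZMod ((Fin.cons χ₀
        (fun j : Fin k => χ (σ' j.succ)) : Fin (k + 1) → G → ℤ_[p]) i' (x : G))) =
        (Fin.cons (fun x : ↥V => PadicInt.toZMod (χ₀ (x : G)))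
          (fun j (x : ↥V) => PadicInt.toZMod (χ (i.succAbove j) (x : G))) :
            Fin (k + 1) → ↥V → ZMod p) := by
      funext j
      refine Fin.cases ?_ (fun j => ?_) j
      · rfl
      · simp [hσ']
    rw [hfun]
    exact hind
  obtain ⟨l, hl⟩ := mix hG r e V hV (fun j => χ (σ' j)) (fun j => hχ _) χ₀ hχ₀ hi' hcons (by
    obtain ⟨C, hC⟩ := hb
    exact ⟨C, fun m => by rw [hJ]; exact hC m⟩)
  refine ⟨i, l, fun j => σ' j.succ, ?_, hl⟩
  intro c hc
  apply hcons c
  intro y hy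
  rw [← hc y hy]
  refine Finset.sum_congr rfl fun i _ => ?_
  refine Fin.cases ?_ (fun j => ?_) i
  · simp only [Fin.cons_zero, map_add, map_mul, map_natCast]
    simp
  · rfl

end Pool.Agent.RFA
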