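import Pool.Agent.RFA.DLS
import Pool.Agent.RFA.Mix
import Pool.Agent.RFA.MinL

set_option autoImplicit false
set_option linter.unusedSectionVars false

namespace Pool.Agent.RFA

open Topology Module

variable {p : ℕ} [Fact p.Prime] {G : Type} [Group G] [TopologicalSpace G] [IsTopologicalGroup G]

theorem ChainA_toZMod (x : ℤ_[p]) : PadicInt.toZMod x = 0 ↔ (p : ℤ_[p]) ∣ x := by
  rw [← RingHom.mem_ker, PadicInt.ker_toZMod, PadicInt.maximalIdeal_eq_span_p,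
    Ideal.mem_span_singleton]

theorem ChainA_isUnit (x : ℤ_[p]) : IsUnit x ↔ ¬ (p : ℤ_[p]) ∣ x := by
  rw [← PadicInt.norm_lt_one_iff_dvd, PadicInt.isUnit_iff, not_lt]
  exact ⟨fun h => h.ge, fun h => le_antisymm (PadicInt.norm_le_one x) h⟩

theorem ChainA_locConst : IsLocallyConstant (PadicInt.toZMod : ℤ_[p] → ZMod p) := by
  rw [IsLocallyConstant.iff_exists_open]
  intro z
  refine ⟨Metric.ball z 1, Metric.isOpen_ball, Metric.mem_ball_self one_pos, fun y hy => ?_⟩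
  rw [Metric.mem_ball, dist_eq_norm, PadicInt.norm_lt_one_iff_dvd, ← ChainA_toZMod, map_sub,
    sub_eq_zero] at hy
  exact hy

section
variable {R V : Subgroup G} {φ : G → ℤ_[p]}

theorem ChainA_one (h : IsZ p R V φ) : φ 1 = 0 := by
  have := h.mul 1 V.one_mem 1 V.one_mem
  rw [mul_one] at this
  exact left_eq_add.1 this

theorem ChainA_inv (h : IsZ p R V φ) {x : G} (hx : x ∈ V) : φ x⁻¹ = - φ x := by
  have := h.mul x hx x⁻¹ (V.inv_mem hx)
  rw [mul_inv_cancel, ChainA_one h] at this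
  linear_combination -this

theorem ChainA_pow (h : IsZ p R V φ) {x : G} (hx : x ∈ V) (n : ℕ) : φ (x ^ n) = n * φ x := by
  induction n with
  | zero => simp [ChainA_one h]
  | succ n ih =>
    rw [pow_succ, h.mul _ (V.pow_mem hx n) _ hx, ih]
    push_cast
    ring

theorem ChainA_conj (h : IsZ p R V φ) {x b : G} (hx : x ∈ V) (hb : b ∈ V) :
    φ (b * x * b⁻¹) = φ x := by
  rw [h.mul _ (V.mul_mem hb hx) _ (V.inv_mem hb), h.mul _ hb _ hx, ChainA_inv h hb]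
  ring

theorem ChainA_conjZ (h : IsZ p R V φ) (hR : R.Normal) (b : G) (hb : ∀ x ∈ V, b * x * b⁻¹ ∈ V) :
    IsZ p R V (fun x => φ (b * x * b⁻¹)) := by
  refine ⟨?_, ?_, ?_⟩
  · exact h.cont.comp (by fun_prop) (fun x hx => hb x hx)
  · intro x hx y hy
    have : b * (x * y) * b⁻¹ = (b * x * b⁻¹) * (b * y * b⁻¹) := by group
    simp only [this]
    exact h.mul _ (hb x hx) _ (hb y hy)
  · intro x hx
    exact h.rel _ (hR.conj_mem x hx b)

theorem ChainA_div (h : IsZ p R V φ) (hd : ∀ x ∈ V, (p : ℤ_[p]) ∣ φ x) :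
    ∃ φ₁, IsZ p R V φ₁ ∧ ∀ x ∈ V, φ x = p * φ₁ x := by
  obtain ⟨h1, h2⟩ := IsZ.divp (χ := fun _ : Fin 1 => φ) (fun _ => h) 1 0
  have hle : V ≤ Jlev p V (fun _ : Fin 1 => φ) 1 := by
    intro x hx
    rw [mem_Jlev (fun _ => h)]
    refine ⟨hx, fun _ => ?_⟩
    rw [pow_one]
    exact hd x hx
  refine ⟨_, h1.mono hle, fun x hx => ?_⟩
  have := h2 x (hle hx)
  rwa [pow_one] at this

theorem ChainA_redp (h : IsZ p R V φ) :
    (fun x : ↥V => PadicInt.toZMod (φ x)) ∈ HomR p R V := by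
  refine ⟨⟨?_, ?_⟩, ?_⟩
  · exact ChainA_locConst.comp_continuous (continuousOn_iff_continuous_domRestrict.1 h.cont)
  · intro x y
    simp only [Subgroup.coe_mul]
    rw [h.mul _ x.2 _ y.2, map_add]
  · intro x hx
    simp only
    rw [h.rel _ hx, map_zero]

/-- if all characters killing `u` are divisible by `p^(m-1)` at `b` then those divisible by `p` are
divisible by `p^m` at `b` -/
theorem ChainA_key {u b : G} (hu : u ∈ V) (hb : b ∈ V) (m : ℕ)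
    (H : ∀ μ, IsZ p R V μ → μ u = 0 → (p : ℤ_[p]) ^ (m - 1) ∣ μ b)
    (h : IsZ p R V φ) (h0 : φ u = 0) (hd : ∀ x ∈ V, (p : ℤ_[p]) ∣ φ x) :
    (p : ℤ_[p]) ^ m ∣ φ b := by
  rcases m with _ | m
  · simp
  obtain ⟨φ₁, h1, h2⟩ := ChainA_div h hd
  have hp : (p : ℤ_[p]) ≠ 0 := by exact_mod_cast (Fact.out : p.Prime).ne_zero
  have h3 : φ₁ u = 0 := by
    have := h2 u hu
    rw [h0] at this
    rcases mul_eq_zero.1 this.symm with h | h
    · exact absurd h hp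
    · exact h
  rw [h2 b hb, pow_succ']
  exact mul_dvd_mul_left _ (H φ₁ h1 h3)

end

theorem ChainA_three {δ : ℕ} (hG : ProFree p δ G) (S : Stage p δ G) (L : Subgroup G)
    (hLo : IsOpen (L : Set G)) (hR : S.R ≤ L) (hLV : L ≤ S.V) :
    Adm p S.r S.e L ∧ ∃ χ : Fin 3 → G → ℤ_[p], (∀ i, IsZ p (Rel p S.r S.e) L (χ i)) ∧
      Indep p L χ ∧ Bdd p S.r S.e L χ := by
  have hL : Adm p S.r S.e L := S.adm.mono hLV hR hLo
  refine ⟨hL, ?_⟩
  obtain ⟨χ, c, h1, h2, h3⟩ := renorm hG S.adm.isOpen hLo hLV hR S.isZ S.indep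
  refine ⟨χ, h1, h2, ?_⟩
  have hb := Bdd.sub hG S.adm hL hLV S.isZ S.bdd
  exact Bdd.dom hG hL (fun i => (S.isZ i).mono hLV) h1 c h3 hb

/-- detection: for large `m` an element of `Kap L m` outside the Frattini subgroup of `L` is seen by a
character of `Kap L m`, mod `p` -/
theorem kap_detect {δ : ℕ} (hG : ProFree p δ G) (S : Stage p δ G) (L : Subgroup G)
    (hLo : IsOpen (L : Set G)) (hR : S.R ≤ L) (hLV : L ≤ S.V) :
    ∃ m₀, ∀ m ≥ m₀, ∀ y : ↥L, (y : G) ∈ Kap p S.R L m → (∃ f ∈ HomR p S.R L, f y ≠ 0) →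
      ∃ φ, IsZ p S.R (Kap p S.R L m) φ ∧ ¬ (p : ℤ_[p]) ∣ φ y := by
  obtain ⟨hL, χ, hχ, hind, hbdd⟩ := ChainA_three hG S L hLo hR hLV
  have hψ : ∀ i, IsZ p (Rel p S.r S.e) L ((![χ 0, χ 1] : Fin 2 → G → ℤ_[p]) i) := by
    intro i
    fin_cases i
    · exact hχ 0
    · exact hχ 1
  have hi : Indep p L (![χ 0, χ 1] : Fin 2 → G → ℤ_[p]) := by
    intro c hc
    have := hind ![c 0, c 1, 0] (fun x hx => by
      have := hc x hx
      simp only [Fin.sum_univ_two, Fin.sum_univ_three] at this ⊢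
      simpa using this)
    funext i
    fin_cases i
    · simpa using congrFun this 0
    · simpa using congrFun this 1
  have hb : Bdd p S.r S.e L (![χ 0, χ 1] : Fin 2 → G → ℤ_[p]) := by
    refine Bdd.dom hG hL hχ hψ 0 (fun m x hx => ?_) hbdd
    rw [mem_Jlev hχ] at hx
    rw [mem_Jlev hψ]
    refine ⟨hx.1, fun i => ?_⟩
    fin_cases i
    · exact hx.2 0
    · exact hx.2 1
  obtain ⟨m₀, hm₀⟩ := dls hG S.r S.e L hL _ hψ hi hb
  refine ⟨m₀, fun m hm y hy hf => ?_⟩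
  have hle : Kap p S.R L m ≤ Jlev p L (![χ 0, χ 1] : Fin 2 → G → ℤ_[p]) m := by
    intro x hx
    rw [mem_Kap] at hx
    rw [mem_Jlev hψ]
    exact ⟨hx.1, fun i => hx.2 _ (hψ i)⟩
  obtain ⟨φ, h1, h2⟩ := (hm₀ m hm).1 y (fun i => ((mem_Kap m _).1 hy).2 _ (hψ i)) hf
  exact ⟨φ, h1.mono hle, h2⟩

theorem ChainA_claim {δ : ℕ} (hG : ProFree p δ G) {I : Type} [Fintype I] (r : I → G) (e : I → ℕ)
    (L : Subgroup G) (hL : Adm p r e L) (u : ↥L) (χ₀ : G → ℤ_[p])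
    (hχ₀ : IsZ p (Rel p r e) L χ₀) (hunit : IsUnit (χ₀ u))
    (ω : Fin 2 → G → ℤ_[p]) (hω : ∀ i, IsZ p (Rel p r e) L (ω i)) (hωu : ∀ i, ω i u = 0)
    (hi : Indep p L ω) (hb : Bdd p r e L ω) (s : ↥L → ZMod p) :
    ∃ m₀, ∀ m ≥ m₀, ∀ b : ↥L,
      (∀ μ, IsZ p (Rel p r e) L μ → μ u = 0 → (p : ℤ_[p]) ^ (m - 1) ∣ μ b) →
      ∀ μ, IsZ p (Rel p r e) L μ → μ u = 0 → (∀ x : ↥L, PadicInt.toZMod (μ x) = s x) →
      ¬ (p : ℤ_[p]) ^ m ∣ μ b →
      ∃ φ, IsZ p (Rel p r e) (Kap p (Rel p r e) L m) φ ∧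
        φ ((b : G) * (u : G) ^ p ^ m * (b : G)⁻¹) ≠ φ ((u : G) ^ p ^ m) := by
  by_cases hex : ∃ μ, IsZ p (Rel p r e) L μ ∧ μ u = 0 ∧
      (∀ x : ↥L, PadicInt.toZMod (μ x) = s x) ∧ ∃ x ∈ L, ¬ (p : ℤ_[p]) ∣ μ x
  · obtain ⟨μs, hμs, hμsu, hμss, hμsn⟩ := hex
    obtain ⟨i, l, σ, hi', hb'⟩ := mix_exchange hG r e L hL (k := 1) ω hω μs hμs hi hμsn hb
    set ψ : Fin 2 → G → ℤ_[p] :=
      Fin.cons (fun x => μs x + (p : ℤ_[p]) * l * ω i x) (fun j : Fin 1 => ω (σ j)) with hψdef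
    have hψ : ∀ j, IsZ p (Rel p r e) L (ψ j) := by
      intro j
      refine Fin.cases ?_ (fun j => ?_) j
      · have := hμs.comb (hω i) 1 ((p : ℤ_[p]) * l)
        simp only [one_mul] at this
        exact this
      · exact hω _
    have hψu : ∀ j, ψ j u = 0 := by
      intro j
      refine Fin.cases ?_ (fun j => ?_) j
      · simp [hψdef, hμsu, hωu]
      · simp [hψdef, hωu]
    obtain ⟨m₀, hm₀⟩ := dls hG r e L hL ψ hψ hi' hb'
    refine ⟨m₀, fun m hm b H μ hμ hμu hμs' hnd => ?_⟩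
    obtain ⟨-, hst⟩ := hm₀ m hm
    have hdiff : (p : ℤ_[p]) ^ m ∣ μ b - μs b := by
      have h1 : IsZ p (Rel p r e) L (fun x => μ x - μs x) := by
        have := hμ.comb hμs 1 (-1)
        simpa only [one_mul, neg_mul, ← sub_eq_add_neg] using this
      refine ChainA_key (φ := fun x => μ x - μs x) u.2 b.2 m H h1 (by simp [hμu, hμsu]) ?_
      intro x hx
      rw [← ChainA_toZMod, map_sub, hμs' ⟨x, hx⟩, hμss ⟨x, hx⟩, sub_self]
    have hpm : m ≠ 0 := by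
      rintro rfl
      simp at hnd
    obtain ⟨φ, hφ, hφn⟩ := hst u b hψu ⟨_, ChainA_redp hχ₀, by
        rw [Ne, ChainA_toZMod]
        exact (ChainA_isUnit _).1 hunit⟩ (fun i => H _ (hψ i) (hψu i)) ⟨0, by
          intro hdvd
          apply hnd
          have h2 : (p : ℤ_[p]) ^ m ∣ (p : ℤ_[p]) * l * ω i b := by
            obtain ⟨k, rfl⟩ := Nat.exists_eq_succ_of_ne_zero hpm
            have := H _ (hω i) (hωu i)
            rw [Nat.succ_eq_add_one, Nat.add_sub_cancel] at this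
            obtain ⟨q, hq⟩ := this
            exact ⟨l * q, by rw [hq, Nat.succ_eq_add_one]; ring⟩
          have h3 : ψ 0 b = μs b + (p : ℤ_[p]) * l * ω i b := rfl
          rw [h3] at hdvd
          have h4 := (dvd_add_left h2).1 hdvd
          have h5 := dvd_add hdiff h4
          simpa using h5⟩
    have hle : Kap p (Rel p r e) L m ≤ Jlev p L ψ m := by
      intro x hx
      rw [mem_Kap] at hx
      rw [mem_Jlev hψ]
      exact ⟨hx.1, fun i => hx.2 _ (hψ i)⟩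
    refine ⟨φ, hφ.mono hle, fun heq => hφn ?_⟩
    have hu' : (u : G) ∈ Jlev p L ψ m := by
      rw [mem_Jlev hψ]
      exact ⟨u.2, fun i => by rw [hψu]; exact dvd_zero _⟩
    have hbu : (b : G) * u * (b : G)⁻¹ ∈ Jlev p L ψ m := by
      rw [mem_Jlev hψ]
      refine ⟨L.mul_mem (L.mul_mem b.2 u.2) (L.inv_mem b.2), fun i => ?_⟩
      rw [ChainA_conj (hψ i) u.2 b.2, hψu]
      exact dvd_zero _
    rw [← conj_pow, ChainA_pow hφ hbu, ChainA_pow hφ hu'] at heq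
    have hp : (((p ^ m : ℕ) : ℤ_[p])) ≠ 0 := by
      exact_mod_cast pow_ne_zero _ (Fact.out : p.Prime).ne_zero
    have h6 := mul_left_cancel₀ hp heq
    have h7 : φ ((b * u * b⁻¹ * u⁻¹ : ↥L) : G) = 0 := by
      have : ((b * u * b⁻¹ * u⁻¹ : ↥L) : G) = ((b : G) * u * (b : G)⁻¹) * (u : G)⁻¹ := rfl
      rw [this, hφ.mul _ hbu _ (Subgroup.inv_mem _ hu'), ChainA_inv hφ hu', h6]
      ring
    rw [h7]
    exact dvd_zero _
  · refine ⟨0, fun m _ b H μ hμ hμu hμs hnd => ?_⟩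
    exfalso
    apply hnd
    refine ChainA_key u.2 b.2 m H hμ hμu ?_
    intro x hx
    by_contra hx'
    exact hex ⟨μ, hμ, hμu, hμs, x, hx, hx'⟩

/-- (A1) -/
theorem kap_stab {δ : ℕ} (hG : ProFree p δ G) (S : Stage p δ G) (L : Subgroup G)
    (hLo : IsOpen (L : Set G)) (hR : S.R ≤ L) (hLV : L ≤ S.V) (u : G) (hu : u ∈ L)
    (χ₀ : G → ℤ_[p]) (hχ₀ : IsZ p S.R L χ₀) (hunit : IsUnit (χ₀ u)) :
    ∃ m₀, ∀ m ≥ m₀, ∀ β ∈ L,
      (∀ φ, IsZ p S.R (Kap p S.R L m) φ → φ (β * u ^ p ^ m * β⁻¹) = φ (u ^ p ^ m)) →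
      ∃ a : ℕ, β * (u ^ a)⁻¹ ∈ Kap p S.R L m := by
  obtain ⟨hL, χ, hχ, hind, hbdd⟩ := ChainA_three hG S L hLo hR hLV
  have hpu : ¬ (p : ℤ_[p]) ∣ χ₀ u := (ChainA_isUnit _).1 hunit
  obtain ⟨i, l, σ, hi', hb'⟩ := mix_exchange hG S.r S.e L hL (k := 2) χ hχ χ₀ hχ₀ hind
    ⟨u, hu, hpu⟩ hbdd
  set c : Fin 3 → G → ℤ_[p] :=
    Fin.cons (fun x => χ₀ x + (p : ℤ_[p]) * l * χ i x) (fun j : Fin 2 => χ (σ j)) with hcdef
  have hc : ∀ j, IsZ p (Rel p S.r S.e) L (c j) := by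
    intro j
    refine Fin.cases ?_ (fun j => ?_) j
    · have := IsZ.comb (R := Rel p S.r S.e) hχ₀ (hχ i) 1 ((p : ℤ_[p]) * l)
      simp only [one_mul] at this
      exact this
    · exact hχ _
  have hc0 : IsUnit (c 0 u) := by
    rw [ChainA_isUnit]
    intro hd
    apply hpu
    have h3 : c 0 u = χ₀ u + (p : ℤ_[p]) * l * χ i u := rfl
    rw [h3] at hd
    exact (dvd_add_left ⟨l * χ i u, by ring⟩).1 hd
  obtain ⟨v, hv⟩ := hc0.exists_right_inv
  set ω : Fin 2 → G → ℤ_[p] := fun j x => 1 * c j.succ x + (-(c j.succ u * v)) * c 0 x with hωdef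
  have hω : ∀ j, IsZ p (Rel p S.r S.e) L (ω j) := fun j => (hc j.succ).comb (hc 0) 1 _
  have hωu : ∀ j, ω j u = 0 := by
    intro j
    simp only [hωdef]
    linear_combination (-(c j.succ u)) * hv
  have hωi : Indep p L ω := by
    intro d hd
    have h1 := hi' (Fin.cons (-∑ j, d j * PadicInt.toZMod (c j.succ u * v)) d) (fun x hx => by
      have h2 := hd x hx
      rw [Fin.sum_univ_succ]
      simp only [Fin.cons_zero, Fin.cons_succ]
      simp only [hωdef, map_add, map_mul, map_neg, map_one, one_mul, mul_add,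
        Finset.sum_add_distrib] at h2
      have h3 : ∀ j : Fin 2, PadicInt.toZMod (c j.succ u * v) =
        PadicInt.toZMod (c j.succ u) * PadicInt.toZMod v := fun j => map_mul _ _ _
      simp only [h3]
      rw [neg_mul, Finset.sum_mul]
      have h4 : ∑ j : Fin 2, d j * (-(PadicInt.toZMod (c j.succ u) * PadicInt.toZMod v) *
          PadicInt.toZMod (c 0 x)) = -∑ j : Fin 2, d j * (PadicInt.toZMod (c j.succ u) *
          PadicInt.toZMod v) * PadicInt.toZMod (c 0 x) := by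
        rw [← Finset.sum_neg_distrib]
        exact Finset.sum_congr rfl fun j _ => by ring
      rw [h4] at h2
      rw [add_comm]
      exact h2)
    funext j
    exact congrFun h1 j.succ
  have hωb : Bdd p S.r S.e L ω := by
    refine Bdd.dom hG hL hc hω 0 (fun m x hx => ?_) hb'
    rw [mem_Jlev hc] at hx
    rw [mem_Jlev hω]
    refine ⟨hx.1, fun j => ?_⟩
    exact dvd_add ((hx.2 j.succ).mul_left _) ((hx.2 0).mul_left _)
  haveI := hG.fin L hLo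
  haveI : Finite ↥(Hom1 p ↥L) := Module.finite_of_finite (ZMod p)
  choose M hM using fun s : ↥(Hom1 p ↥L) =>
    ChainA_claim hG S.r S.e L hL ⟨u, hu⟩ χ₀ hχ₀ hunit ω hω hωu hωi hωb s
  obtain ⟨m₀, hm₀⟩ := Finite.exists_le M
  refine ⟨m₀, fun m hm β hβ H => ?_⟩
  by_contra hcon
  push Not at hcon
  obtain ⟨w, hw⟩ := hunit.exists_right_inv
  set a : ℕ := (χ₀ β * w).appr m with ha
  set β' : G := β * (u ^ a)⁻¹ with hβ'
  have hβ'L : β' ∈ L := L.mul_mem hβ (L.inv_mem (L.pow_mem hu a))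
  have hχβ' : (p : ℤ_[p]) ^ m ∣ χ₀ β' := by
    have h1 := PadicInt.appr_spec m (χ₀ β * w)
    rw [Ideal.mem_span_singleton] at h1
    have h2 : χ₀ β' = (χ₀ β * w - a) * χ₀ u := by
      rw [hβ', hχ₀.mul _ hβ _ (L.inv_mem (L.pow_mem hu a)), ChainA_inv hχ₀ (L.pow_mem hu a),
        ChainA_pow hχ₀ hu]
      linear_combination (-(χ₀ β)) * hw
    rw [h2]
    exact h1.mul_right _
  -- powers of `β'` satisfy the hypothesis
  have hnorm : ∀ x ∈ Kap p S.R L m, β' * x * β'⁻¹ ∈ Kap p S.R L m := by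
    intro x hx
    rw [mem_Kap] at hx ⊢
    refine ⟨L.mul_mem (L.mul_mem hβ'L hx.1) (L.inv_mem hβ'L), fun φ hφ => ?_⟩
    rw [ChainA_conj hφ hx.1 hβ'L]
    exact hx.2 φ hφ
  have hpow : ∀ n : ℕ, ∀ φ, IsZ p S.R (Kap p S.R L m) φ →
      φ (β' ^ n * u ^ p ^ m * (β' ^ n)⁻¹) = φ (u ^ p ^ m) := by
    intro n
    induction n with
    | zero => intro φ _; simp
    | succ n ih =>
      intro φ hφ
      have h1 := ih _ (ChainA_conjZ hφ (Rel.normal S.r S.e) β' hnorm)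
      have h2 : β' ^ (n + 1) * u ^ p ^ m * (β' ^ (n + 1))⁻¹ =
          β' * (β' ^ n * u ^ p ^ m * (β' ^ n)⁻¹) * β'⁻¹ := by
        rw [pow_succ']; group
      have h3 : β' * u ^ p ^ m * β'⁻¹ = β * u ^ p ^ m * β⁻¹ := by
        rw [hβ', mul_inv_rev, inv_inv]
        have h4 : (u ^ a)⁻¹ * u ^ p ^ m * u ^ a = u ^ p ^ m := by
          rw [mul_assoc, ← pow_add, add_comm, pow_add, inv_mul_cancel_left]
        calc β * (u ^ a)⁻¹ * u ^ p ^ m * (u ^ a * β⁻¹)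
            = β * ((u ^ a)⁻¹ * u ^ p ^ m * u ^ a) * β⁻¹ := by simp only [mul_assoc]
          _ = _ := by rw [h4]
      rw [h2]
      have h5 : φ (β' * (β' ^ n * u ^ p ^ m * (β' ^ n)⁻¹) * β'⁻¹) =
          φ (β' * (u ^ p ^ m) * β'⁻¹) := h1
      rw [h5, h3]
      exact H φ hφ
  -- a character killing `u` and not divisible at `β'`
  have hex : ∃ μ, IsZ p S.R L μ ∧ μ u = 0 ∧ ¬ (p : ℤ_[p]) ^ m ∣ (p : ℤ_[p]) ^ 0 * μ β' := by
    have h1 := hcon a
    rw [mem_Kap] at h1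
    push Not at h1
    obtain ⟨φ, hφ, hφn⟩ := h1 hβ'L
    refine ⟨fun x => 1 * φ x + (-(φ u * w)) * χ₀ x, hφ.comb hχ₀ 1 _, ?_, ?_⟩
    · linear_combination (-(φ u)) * hw
    · intro hd
      apply hφn
      rw [pow_zero, one_mul] at hd
      simp only [one_mul] at hd
      exact (dvd_add_left (hχβ'.mul_left _)).1 hd
  have hend : ∃ n, ¬ ∃ μ, IsZ p S.R L μ ∧ μ u = 0 ∧
      ¬ (p : ℤ_[p]) ^ m ∣ (p : ℤ_[p]) ^ n * μ β' := by
    refine ⟨m, ?_⟩
    rintro ⟨μ, -, -, h⟩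
    exact h (dvd_mul_right _ _)
  classical
  obtain ⟨n, hn⟩ : ∃ n, Nat.find hend = n + 1 := by
    refine Nat.exists_eq_succ_of_ne_zero fun h => ?_
    have := Nat.find_spec hend
    rw [h] at this
    exact this hex
  have hn1 : ¬ ∃ μ, IsZ p S.R L μ ∧ μ u = 0 ∧
      ¬ (p : ℤ_[p]) ^ m ∣ (p : ℤ_[p]) ^ (n + 1) * μ β' := by
    rw [← hn]
    exact Nat.find_spec hend
  have hn0 : ∃ μ, IsZ p S.R L μ ∧ μ u = 0 ∧
      ¬ (p : ℤ_[p]) ^ m ∣ (p : ℤ_[p]) ^ n * μ β' := by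
    have := Nat.find_min hend (m := n) (by rw [hn]; exact Nat.lt_succ_self n)
    exact not_not.1 this
  obtain ⟨μ, hμ, hμu, hμn⟩ := hn0
  have hb : β' ^ p ^ n ∈ L := L.pow_mem hβ'L _
  have hval : ∀ ν, IsZ p S.R L ν → ν (β' ^ p ^ n) = (p : ℤ_[p]) ^ n * ν β' := by
    intro ν hν
    rw [ChainA_pow hν hβ'L]
    push_cast
    rfl
  have hp : (p : ℤ_[p]) ≠ 0 := by exact_mod_cast (Fact.out : p.Prime).ne_zero
  obtain ⟨φ, hφ, hφn⟩ := hM ⟨fun x : ↥L => PadicInt.toZMod (μ x), (ChainA_redp hμ).1⟩ m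
    ((hm₀ _).trans hm) ⟨β' ^ p ^ n, hb⟩ (by
      intro ν hν hνu
      simp only
      rw [hval ν hν]
      rcases m with _ | m
      · simp
      rw [Nat.add_sub_cancel]
      have h1 : (p : ℤ_[p]) ^ (m + 1) ∣ (p : ℤ_[p]) ^ (n + 1) * ν β' := by
        by_contra h
        exact hn1 ⟨ν, hν, hνu, h⟩
      rw [pow_succ', pow_succ', mul_assoc] at h1
      exact (mul_dvd_mul_iff_left hp).1 h1) μ hμ hμu (fun x => rfl) (by
      simp only
      rw [hval μ hμ]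
      exact hμn)
  exact hφn (hpow _ φ hφ)

end Pool.Agent.RFA
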