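import Pool.Agent.RFA.LiftCodim
import Pool.Agent.RFA.CupB
import Pool.Agent.RFA.UB

set_option autoImplicit false

namespace Pool.Agent.RFA

open Topology Module

variable {p : ℕ} [Fact p.Prime] {G : Type} [Group G] [TopologicalSpace G] [IsTopologicalGroup G]

/-- perturbation by multiples of `p` in order to make finitely many determinants nonzero -/
theorem CoreB_perturb {ι L : Type} (ρ : ι → G) (r : L → G) (χa : Z1 p G)
    (hnp : ∀ l l', l ≠ l' → ∃ ν : Z1 p G, (∀ i, (ν : G → ℤ_[p]) (ρ i) = 0) ∧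
      (χa : G → ℤ_[p]) (r l) * (ν : G → ℤ_[p]) (r l') ≠
        (χa : G → ℤ_[p]) (r l') * (ν : G → ℤ_[p]) (r l))
    (χ₀ : Z1 p G) (h₀ : ∀ i, (χ₀ : G → ℤ_[p]) (ρ i) = 0) (T : Finset (L × L))
    (hT : ∀ t ∈ T, t.1 ≠ t.2) :
    ∃ χ : Z1 p G, (∀ i, (χ : G → ℤ_[p]) (ρ i) = 0) ∧
      (∀ x, PadicInt.toZMod ((χ : G → ℤ_[p]) x) = PadicInt.toZMod ((χ₀ : G → ℤ_[p]) x)) ∧
      ∀ t ∈ T, (χa : G → ℤ_[p]) (r t.1) * (χ : G → ℤ_[p]) (r t.2) ≠
        (χa : G → ℤ_[p]) (r t.2) * (χ : G → ℤ_[p]) (r t.1) := by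
  classical
  induction T using Finset.induction_on with
  | empty => exact ⟨χ₀, h₀, fun _ => rfl, fun t ht => absurd ht (Finset.notMem_empty t)⟩
  | @insert t T ht ih =>
    obtain ⟨χ, hχ1, hχ2, hχ3⟩ := ih fun s hs => hT s (Finset.mem_insert_of_mem hs)
    obtain ⟨ν, hν1, hν2⟩ := hnp t.1 t.2 (hT t (Finset.mem_insert_self _ _))
    set F : L × L → ℤ_[p] := fun s => (χa : G → ℤ_[p]) (r s.1) * (χ : G → ℤ_[p]) (r s.2) -
      (χa : G → ℤ_[p]) (r s.2) * (χ : G → ℤ_[p]) (r s.1) with hF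
    set D : L × L → ℤ_[p] := fun s => (χa : G → ℤ_[p]) (r s.1) * (ν : G → ℤ_[p]) (r s.2) -
      (χa : G → ℤ_[p]) (r s.2) * (ν : G → ℤ_[p]) (r s.1) with hD
    have hp0 : (p : ℤ_[p]) ≠ 0 := by exact_mod_cast (Fact.out : p.Prime).ne_zero
    have hsub : ∀ s ∈ insert t T, Set.Subsingleton {n : ℕ | F s + (p * n : ℕ) * D s = 0} := by
      intro s hs n hn n' hn'
      simp only [Set.mem_ofPred_eq] at hn hn'
      by_contra hne
      have h1 : (p : ℤ_[p]) * ((n : ℤ_[p]) - n') * D s = 0 := by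
        push_cast at hn hn'
        linear_combination hn - hn'
      have h2 : ((n : ℤ_[p]) - n') ≠ 0 := by
        rw [sub_ne_zero]
        exact_mod_cast hne
      have h3 : D s = 0 := by
        rcases mul_eq_zero.1 h1 with h | h
        · rcases mul_eq_zero.1 h with h | h
          · exact absurd h hp0
          · exact absurd h h2
        · exact h
      have h4 : F s = 0 := by
        rw [h3, mul_zero, add_zero] at hn
        exact hn
      rcases Finset.mem_insert.1 hs with h | h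
      · subst h
        exact hν2 (sub_eq_zero.1 h3)
      · exact hχ3 s h (sub_eq_zero.1 h4)
    have hfin : (⋃ s ∈ insert t T, {n : ℕ | F s + (p * n : ℕ) * D s = 0}).Finite :=
      Set.Finite.biUnion (Finset.finite_toSet _) fun s hs => (hsub s hs).finite
    obtain ⟨n, hn⟩ := hfin.infinite_compl.nonempty
    simp only [Set.mem_compl_iff, Set.mem_iUnion, not_exists, Set.mem_ofPred_eq] at hn
    refine ⟨χ + ((p * n : ℕ) : ℤ_[p]) • ν, fun i => ?_, fun x => ?_, fun s hs => ?_⟩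
    · simp [hχ1 i, hν1 i]
    · rw [← hχ2 x]
      simp
    · have h5 := hn s hs
      intro h6
      apply h5
      simp only [Submodule.coe_add, Submodule.coe_smul, Pi.add_apply, Pi.smul_apply,
        smul_eq_mul] at h6
      simp only [hF, hD]
      linear_combination h6

/-- dimension of `HomP` -/
theorem CoreB_finrank {δ : ℕ} (hG : ProFree p δ G) {ι : Type} [Fintype ι] (ρ : ι → G)
    (hslack : Fintype.card ι < δ) : 2 ≤ finrank (ZMod p) (HomP p ρ) := by
  have hfin : Module.Finite (ZMod p) (Hom1 p G) := hG.finG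
  have hrank := hG.rankG
  let ev : Hom1 p G →ₗ[ZMod p] (ι → ZMod p) :=
    { toFun := fun f i => (f : G → ZMod p) (ρ i)
      map_add' := fun f g => rfl
      map_smul' := fun c f => rfl }
  have h1 := LinearMap.finrank_range_add_finrank_ker ev
  have h2 : finrank (ZMod p) (LinearMap.range ev) ≤ Fintype.card ι := by
    refine (Submodule.finrank_le _).trans ?_
    rw [Module.finrank_fintype_fun_eq_card]
  have h3 : (LinearMap.ker ev).map (Hom1 p G).subtype = HomP p ρ := by
    ext f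
    constructor
    · rintro ⟨g, hg, rfl⟩
      exact ⟨g.2, fun i => congrFun (LinearMap.mem_ker.1 hg) i⟩
    · rintro ⟨hf1, hf2⟩
      exact ⟨⟨f, hf1⟩, LinearMap.mem_ker.2 (funext hf2), rfl⟩
  have h4 : finrank (ZMod p) (HomP p ρ) = finrank (ZMod p) (LinearMap.ker ev) := by
    rw [← h3]
    exact (Submodule.equivMapOfInjective _ (Hom1 p G).injective_subtype _).finrank_eq.symm
  omega

/-- choice of the second character -/
theorem choose_b (hp : p ≠ 2) {δ : ℕ} (hG : ProFree p δ G) {ι L : Type} [Fintype ι] [Fintype L]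
    (ρ : ι → G) (r : L → G) (χa : Z1 p G) (ha0 : ∀ i, (χa : G → ℤ_[p]) (ρ i) = 0)
    (hau : ∃ x, IsUnit ((χa : G → ℤ_[p]) x))
    (hnp : ∀ l l', l ≠ l' → ∃ ν : Z1 p G, (∀ i, (ν : G → ℤ_[p]) (ρ i) = 0) ∧
      (χa : G → ℤ_[p]) (r l) * (ν : G → ℤ_[p]) (r l') ≠
        (χa : G → ℤ_[p]) (r l') * (ν : G → ℤ_[p]) (r l))
    (hIK : IK p ρ (fun _ : Fin 1 => redp p (χa : G → ℤ_[p])))
    (hrk : ∀ z ∈ Z2 p ρ, z ≠ 0 → RankGE p ρ z (4 * finrank (ZMod p) (Z2 p ρ) + 1))
    (hslack : Fintype.card ι < δ) :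
    ∃ χb : Z1 p G, (∀ i, (χb : G → ℤ_[p]) (ρ i) = 0) ∧
      Indep p ⊤ (fun j => ((![χa, χb] : Fin 2 → Z1 p G) j : G → ℤ_[p])) ∧
      IK p ρ (fun j => redp p ((![χa, χb] : Fin 2 → Z1 p G) j : G → ℤ_[p])) ∧
      CupZero p ρ (redp p (χb : G → ℤ_[p])) (redp p (χa : G → ℤ_[p])) ∧
      ∀ l l', l ≠ l' → (χa : G → ℤ_[p]) (r l) * (χb : G → ℤ_[p]) (r l') ≠
        (χa : G → ℤ_[p]) (r l') * (χb : G → ℤ_[p]) (r l) := by
  classical
  obtain ⟨hfW, hfZ⟩ := Z2_finite_HomP_finite hG ρ
  obtain ⟨B, hB⟩ := exists_cupB hG ρ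
  set h := finrank (ZMod p) (Z2 p ρ) with hh
  have haL : redp p (χa : G → ℤ_[p]) ∈ LiftP (p := p) ρ := ⟨χa, ha0, fun _ => rfl⟩
  set a : HomP p ρ := ⟨redp p (χa : G → ℤ_[p]), LiftP_le ρ haL⟩ with ha
  have ha0' : a ≠ 0 := by
    intro h0
    obtain ⟨x, hx⟩ := hau
    have h1 : PadicInt.toZMod ((χa : G → ℤ_[p]) x) = 0 := by
      have := congrArg (fun f : HomP p ρ => (f : G → ZMod p) x) h0
      exact this
    have h2 := hx.map (PadicInt.toZMod (p := p))
    rw [h1] at h2
    exact not_isUnit_zero h2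
  -- the injectivity of `B · a`
  have hBa : ∀ z : Z2 p ρ, (∀ ξ, B z a ξ = 0) → z = 0 := by
    intro z hz
    have h1 := (IK_iff hG ρ (fun _ : Fin 1 => redp p (χa : G → ℤ_[p]))
      (fun _ => a.2)).1 hIK (fun _ => (z : ι → ZMod p)) (fun _ => z.2) (by
        intro ξ hξ
        rw [Fin.sum_univ_one]
        have := hz ⟨ξ, hξ⟩
        rw [hB] at this
        exact this)
    exact Subtype.ext (congrFun h1 0)
  -- the subspace `D`
  set D1 : Submodule (ZMod p) (HomP p ρ) := (LiftP (p := p) ρ).comap (HomP p ρ).subtype with hD1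
  set D2 : Submodule (ZMod p) (HomP p ρ) := LinearMap.ker ((B.flip a).flip) with hD2
  have hD1r : finrank (ZMod p) D1 = finrank (ZMod p) (LiftP (p := p) ρ) := by
    have h1 : D1.map (HomP p ρ).subtype = LiftP (p := p) ρ := by
      rw [hD1, Submodule.map_comap_subtype, inf_eq_right.2 (LiftP_le ρ)]
    rw [← h1]
    exact (Submodule.equivMapOfInjective _ (HomP p ρ).injective_subtype _).finrank_eq
  have hc1 : finrank (ZMod p) (HomP p ρ) ≤ finrank (ZMod p) D1 + h := by
    rw [hD1r]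
    exact lift_codim hG ρ
  have hc2 : finrank (ZMod p) (HomP p ρ) ≤ finrank (ZMod p) D2 + h := by
    have h1 : finrank (ZMod p) (LinearMap.range ((B.flip a).flip)) + finrank (ZMod p) D2 =
        finrank (ZMod p) (HomP p ρ) := LinearMap.finrank_range_add_finrank_ker ((B.flip a).flip)
    have h2 : finrank (ZMod p) (LinearMap.range ((B.flip a).flip)) ≤ h := by
      refine (Submodule.finrank_le _).trans ?_
      rw [hh]
      exact (Subspace.dual_finrank_eq (K := ZMod p) (V := Z2 p ρ)).le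
    omega
  have hc : finrank (ZMod p) (HomP p ρ) ≤ finrank (ZMod p) (D1 ⊓ D2 : Submodule _ _) + 2 * h := by
    have h1 := Submodule.finrank_sup_add_finrank_inf_eq D1 D2
    have h2 : finrank (ZMod p) (D1 ⊔ D2 : Submodule _ _) ≤ finrank (ZMod p) (HomP p ρ) :=
      Submodule.finrank_le _
    omega
  -- the class `b`
  have hb : ∃ b ∈ (D1 ⊓ D2 : Submodule (ZMod p) (HomP p ρ)),
      (∀ z' z : Z2 p ρ, (∀ ξ, B z' a ξ + B z b ξ = 0) → z' = 0 ∧ z = 0) ∧
      ∀ c0 c1 : ZMod p, c0 • a + c1 • b = 0 → c0 = 0 ∧ c1 = 0 := by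
    rcases Nat.eq_zero_or_pos h with h0 | hpos
    · have hz : ∀ z : Z2 p ρ, z = 0 := by
        intro z
        have := finrank_zero_iff_forall_zero.1 (hh.symm.trans h0)
        exact this z
      have htop : (D1 ⊓ D2 : Submodule (ZMod p) (HomP p ρ)) = ⊤ := by
        apply Submodule.eq_top_of_finrank_eq
        have h1 : finrank (ZMod p) (D1 ⊓ D2 : Submodule _ _) ≤ finrank (ZMod p) (HomP p ρ) :=
          Submodule.finrank_le _
        omega
      have hspan : Submodule.span (ZMod p) {a} ≠ ⊤ := by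
        intro h1
        have h2 : finrank (ZMod p) (Submodule.span (ZMod p) {a}) = 1 :=
          finrank_span_singleton ha0'
        rw [h1, finrank_top] at h2
        have h3 := CoreB_finrank hG ρ hslack
        omega
      obtain ⟨b, hbs⟩ : ∃ b, b ∉ Submodule.span (ZMod p) {a} := by
        by_contra hcon
        push Not at hcon
        exact hspan (eq_top_iff.2 fun x _ => hcon x)
      refine ⟨b, htop ▸ Submodule.mem_top, fun z' z _ => ⟨hz z', hz z⟩, fun c0 c1 hc01 => ?_⟩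
      have hc1 : c1 = 0 := by
        by_contra hc1
        apply hbs
        rw [Submodule.mem_span_singleton]
        refine ⟨-(c1⁻¹ * c0), ?_⟩
        have h1 : c1⁻¹ • (c0 • a + c1 • b) = 0 := by rw [hc01, smul_zero]
        rw [smul_add, smul_smul, smul_smul, inv_mul_cancel₀ hc1, one_smul] at h1
        rw [neg_smul]
        exact neg_eq_of_add_eq_zero_right h1
      refine ⟨?_, hc1⟩
      rw [hc1, zero_smul, add_zero] at hc01
      exact (smul_eq_zero.1 hc01).resolve_right ha0'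
    · obtain ⟨b, hbD, hbinj⟩ := ub_step B (B.flip a) (by
          rw [injective_iff_map_eq_zero]
          intro z hz
          exact hBa z fun ξ => by
            have := LinearMap.congr_fun hz ξ
            simpa using this) (D1 ⊓ D2) (2 * h) (4 * h + 1) hc (by
          intro z hz
          rw [← rankGE_iff hG ρ B hB z]
          exact hrk z z.2 (fun h0 => hz (Subtype.ext h0))) (by omega)
      have hbinj' : ∀ z' z : Z2 p ρ, (∀ ξ, B z' a ξ + B z b ξ = 0) → z' = 0 ∧ z = 0 :=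
        fun z' z hz => hbinj z' z (fun ξ => by simpa using hz ξ)
      refine ⟨b, hbD, hbinj', fun c0 c1 hc01 => ?_⟩
      have : Nontrivial (Z2 p ρ) := Module.nontrivial_of_finrank_pos (R := ZMod p) (hh ▸ hpos)
      obtain ⟨z, hz⟩ := exists_ne (0 : Z2 p ρ)
      have h1 := hbinj' (c0 • z) (c1 • z) (fun ξ => by
        have h2 : B z (c0 • a + c1 • b) ξ = 0 := by rw [hc01]; simp
        simpa using h2)
      exact ⟨(smul_eq_zero.1 h1.1).resolve_right hz, (smul_eq_zero.1 h1.2).resolve_right hz⟩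
  obtain ⟨b, hbD, hbinj, hbind⟩ := hb
  obtain ⟨χ₀, hχ₀1, hχ₀2⟩ : (b : G → ZMod p) ∈ LiftP (p := p) ρ := hbD.1
  obtain ⟨χb, hχb1, hχb2, hχb3⟩ := CoreB_perturb ρ r χa hnp χ₀ hχ₀1
    ((Finset.univ : Finset (L × L)).filter fun t => t.1 ≠ t.2)
    (fun t ht => (Finset.mem_filter.1 ht).2)
  have hred : redp p (χb : G → ℤ_[p]) = (b : G → ZMod p) := by
    funext x
    show PadicInt.toZMod ((χb : G → ℤ_[p]) x) = _
    rw [hχb2 x, hχ₀2 x]
  have hredj : (fun j => redp p ((![χa, χb] : Fin 2 → Z1 p G) j : G → ℤ_[p])) =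
      ![(a : G → ZMod p), (b : G → ZMod p)] := by
    funext j
    fin_cases j
    · rfl
    · exact hred
  refine ⟨χb, hχb1, ?_, ?_, ?_, fun l l' hl =>
    hχb3 (l, l') (Finset.mem_filter.2 ⟨Finset.mem_univ _, hl⟩)⟩
  · intro c hcx
    have h1 : c 0 • a + c 1 • b = 0 := by
      apply Subtype.ext
      funext x
      have h2 := hcx x (Subgroup.mem_top x)
      rw [Fin.sum_univ_two] at h2
      have h3 : PadicInt.toZMod ((χb : G → ℤ_[p]) x) = (b : G → ZMod p) x := congrFun hred x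
      simp only [Matrix.cons_val_zero, Matrix.cons_val_one] at h2
      rw [h3] at h2
      exact h2
    obtain ⟨h4, h5⟩ := hbind _ _ h1
    funext j
    fin_cases j
    · exact h4
    · exact h5
  · rw [hredj, IK_iff hG ρ _ (by
      intro j
      fin_cases j
      · exact a.2
      · exact b.2)]
    intro z hz hsum
    have h1 := hbinj ⟨z 0, hz 0⟩ ⟨z 1, hz 1⟩ (fun ξ => by
      have h2 := hsum ξ ξ.2
      rw [Fin.sum_univ_two] at h2
      rw [hB, hB]
      exact h2)
    funext j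
    fin_cases j
    · exact congrArg Subtype.val h1.1
    · exact congrArg Subtype.val h1.2
  · rw [hred]
    refine (cupZero_iff hG b.2 a.2).2 fun z hz => ?_
    rw [cupVal_antisymm hG hz b.2 a.2]
    have h1 : B ⟨z, hz⟩ a b = 0 := by
      have h2 := LinearMap.congr_fun (LinearMap.mem_ker.1 hbD.2) ⟨z, hz⟩
      simpa using h2
    rw [hB] at h1
    rw [neg_eq_zero]
    exact h1

end Pool.Agent.RFA
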