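import Pool.Agent.RFA.DLScore
import Pool.Agent.RFA.Jl

set_option autoImplicit false

namespace Pool.Agent.RFA

open Topology Module

variable {p : ℕ} [Fact p.Prime] {G : Type} [Group G] [TopologicalSpace G] [IsTopologicalGroup G]

/-- detection and stabiliser lemma for a bounded certificate of rank 2 on `V` -/
theorem dls {δ : ℕ} (hG : ProFree p δ G) {I : Type} [Fintype I] (r : I → G) (e : I → ℕ)
    (V : Subgroup G) (hV : Adm p r e V) (ψ : Fin 2 → G → ℤ_[p])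
    (hψ : ∀ i, IsZ p (Rel p r e) V (ψ i)) (hi : Indep p V ψ) (hb : Bdd p r e V ψ) :
    ∃ m₀, ∀ m ≥ m₀,
      (∀ y : ↥V, (∀ i, (p : ℤ_[p]) ^ m ∣ ψ i y) → (∃ f ∈ HomR p (Rel p r e) V, f y ≠ 0) →
        ∃ φ : G → ℤ_[p], IsZ p (Rel p r e) (Jlev p V ψ m) φ ∧ ¬ (p : ℤ_[p]) ∣ φ y) ∧
      (∀ u b : ↥V, (∀ i, ψ i u = 0) → (∃ f ∈ HomR p (Rel p r e) V, f u ≠ 0) →
        (∀ i, (p : ℤ_[p]) ^ (m - 1) ∣ ψ i b) → (∃ i, ¬ (p : ℤ_[p]) ^ m ∣ ψ i b) →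
        ∃ φ : G → ℤ_[p], IsZ p (Rel p r e) (Jlev p V ψ m) φ ∧
          ¬ (p : ℤ_[p]) ∣ φ (b * u * b⁻¹ * u⁻¹ : ↥V)) := by
  obtain ⟨m₁, hstab⟩ := Bdd.stab hG hV hψ hb
  set V₀ := Jlev p V ψ m₁ with hV₀
  have hA₀ : Adm p r e V₀ := Jlev_adm hG hV hψ m₁
  have hC₀ : Cyc p r e V₀ := hA₀.cyc
  obtain ⟨ι, hι, ρ, idx, x, hPP⟩ := exists_PP hG r e V₀ hA₀.isOpen hC₀
  set ψ' : Fin 2 → G → ℤ_[p] := fun i y => divp p m₁ (ψ i y) with hψ'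
  have hZ' : ∀ i, IsZ p (Rel p r e) V₀ (ψ' i) := fun i => (IsZ.divp hψ m₁ i).1
  have hdiv : ∀ i, ∀ y ∈ V₀, ψ i y = (p : ℤ_[p]) ^ m₁ * ψ' i y := fun i => (IsZ.divp hψ m₁ i).2
  have hI' : Indep p V₀ ψ' := Indep.divp hG hV.isOpen hψ hi m₁
  have hG₀ : ProFree p (δ * V₀.index) ↥V₀ := hG.sub V₀ hA₀.isOpen
  have hle : V₀ ≤ V := by
    intro y hy
    exact ((mem_Jlev hψ m₁ y).1 hy).1
  have hp0 : (p : ℤ_[p]) ≠ 0 := by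
    have := (Fact.out : p.Prime).ne_zero
    exact_mod_cast this
  have hpp : ∀ n : ℕ, (p : ℤ_[p]) ^ n ≠ 0 := fun n => pow_ne_zero n hp0
  set ψZ : Fin 2 → Z1 p ↥V₀ := fun i => (hZ' i).toZ1 with hψZ
  have hψZ_apply : ∀ i (y : ↥V₀), (ψZ i : ↥V₀ → ℤ_[p]) y = ψ' i y := fun i y => rfl
  have hρR : ∀ l, (ρ l : G) ∈ Rel p r e := by
    intro l
    rw [hPP.rho_eq l]
    exact (Rel.normal r e).conj_mem _ (Rel.mem r e (idx l)) (x l)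
  have hψρ : ∀ j l, (ψZ j : ↥V₀ → ℤ_[p]) (ρ l) = 0 := by
    intro j l
    rw [hψZ_apply]
    exact (hZ' j).rel _ (hρR l)
  have htop : (⊤ : Subgroup ↥V₀).map V₀.subtype = V₀ := by
    rw [← MonoidHom.range_eq_map, Subgroup.range_subtype]
  have hIT : Indep p (⊤ : Subgroup ↥V₀) (fun i => (ψZ i : ↥V₀ → ℤ_[p])) := by
    have := (indep_sub (p := p) ψ' (⊤ : Subgroup ↥V₀)).2 (by rw [htop]; exact hI')
    exact this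
  have hZT : ∀ i, IsZ p (Rel p r e) ((⊤ : Subgroup ↥V₀).map V₀.subtype) (ψ' i) := by
    rw [htop]; exact hZ'
  have hmap : ∀ n, (Jlev p (⊤ : Subgroup ↥V₀) (fun i => (ψZ i : ↥V₀ → ℤ_[p])) n).map V₀.subtype =
      Jlev p V ψ (m₁ + n) := by
    intro n
    have h1 := Jlev_map (R := Rel p r e) (χ := ψ') (⊤ : Subgroup ↥V₀) hZT n
    rw [htop] at h1
    have h2 := Jlev_Jlev hψ m₁ n
    rw [← h2]
    exact h1
  have hee : ∀ i, e i ≤ e i := fun i => le_rfl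
  have hfun : (fun l => e (idx l) - e (idx l)) = (fun _ => 0 : ι → ℕ) := by
    funext l; simp
  have hh2 : ∀ n, h2 p ρ (fun _ => 0)
      (Jlev p (⊤ : Subgroup ↥V₀) (fun i => (ψZ i : ↥V₀ → ℤ_[p])) n) =
        h2 p r e (Jlev p V ψ (m₁ + n)) := by
    intro n
    have hadm := (PP.adm hee hA₀.isOpen hC₀ hA₀.rel_le hPP
      (Jlev p (⊤ : Subgroup ↥V₀) (fun i => (ψZ i : ↥V₀ → ℤ_[p])) n)).2
        (by rw [hmap n]; exact Jlev_adm hG hV hψ (m₁ + n))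
    have := PP.h2_eq hG hee hA₀.isOpen hC₀ hA₀.rel_le hPP _ hadm
    rw [hfun, hmap n] at this
    exact this
  have hh2top : h2 p ρ (fun _ => 0) (⊤ : Subgroup ↥V₀) = h2 p r e V₀ := by
    have hadm := (PP.adm hee hA₀.isOpen hC₀ hA₀.rel_le hPP (⊤ : Subgroup ↥V₀)).2
        (by rw [htop]; exact hA₀)
    have := PP.h2_eq hG hee hA₀.isOpen hC₀ hA₀.rel_le hPP _ hadm
    rw [hfun, htop] at this
    exact this
  have hIK : IK p ρ (fun j => redp p (ψZ j : ↥V₀ → ℤ_[p])) := by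
    apply IK_of_h2 hG₀ ρ ψZ hψρ hIT
    rw [hh2 1, hh2top, hstab (m₁ + 1) (by omega)]
  obtain ⟨m₂, hcore⟩ := dls_core hG₀ ρ ψZ hψρ hIT hIK
  have hrel : Rel p ρ (fun _ => 0) = (Rel p r e).subgroupOf V₀ := by
    have := PP.rel hee hA₀.isOpen hA₀.rel_le hPP
    rw [hfun] at this
    exact this
  have hhom : HomP p ρ = HomR p (Rel p r e) V₀ := PP.homP hA₀ hPP
  -- restriction of homomorphisms
  have hres : ∀ (y : ↥V) (hy : (y : G) ∈ V₀), (∃ f ∈ HomR p (Rel p r e) V, f y ≠ 0) →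
      ∃ f ∈ HomP p ρ, f ⟨y, hy⟩ ≠ 0 := by
    rintro y hy ⟨f, ⟨⟨hf1, hf2⟩, hf3⟩, hfy⟩
    refine ⟨fun z => f ⟨z, hle z.2⟩, ?_, hfy⟩
    rw [hhom]
    refine ⟨⟨?_, ?_⟩, ?_⟩
    · exact hf1.comp_continuous (Continuous.subtype_mk continuous_subtype_val _)
    · intro a b
      exact hf2 ⟨a, hle a.2⟩ ⟨b, hle b.2⟩
    · intro z hz
      exact hf3 ⟨z, hle z.2⟩ hz
  -- transport of the conclusion
  have hback : ∀ (n : ℕ) (z : ↥V₀), (∃ φ : ↥V₀ → ℤ_[p],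
      IsZ p (Rel p ρ (fun _ => 0)) (Jlev p ⊤ (fun i => (ψZ i : ↥V₀ → ℤ_[p])) n) φ ∧
        ¬ (p : ℤ_[p]) ∣ φ z) →
      ∃ φ : G → ℤ_[p], IsZ p (Rel p r e) (Jlev p V ψ (m₁ + n)) φ ∧ ¬ (p : ℤ_[p]) ∣ φ z := by
    rintro n z ⟨φ, h1, h2⟩
    rw [hrel] at h1
    obtain ⟨φ', h3, h4⟩ := IsZ.extend hA₀.isOpen hA₀.rel_le _ φ h1
    rw [hmap n] at h3
    refine ⟨φ', h3, ?_⟩
    rw [h4 z]
    exact h2
  refine ⟨m₁ + m₂ + 1, ?_⟩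
  intro m hm
  obtain ⟨n, rfl⟩ : ∃ n, m = m₁ + n := ⟨m - m₁, by omega⟩
  have hn2 : m₂ ≤ n := by omega
  have hn1 : 1 ≤ n := by omega
  obtain ⟨hc1, hc2⟩ := hcore n hn2
  constructor
  · intro y hy hf
    have hyV₀ : (y : G) ∈ V₀ := by
      rw [hV₀, mem_Jlev hψ]
      exact ⟨y.2, fun i => (pow_dvd_pow _ (Nat.le_add_right m₁ n)).trans (hy i)⟩
    have hd : ∀ i, (p : ℤ_[p]) ^ n ∣ (ψZ i : ↥V₀ → ℤ_[p]) ⟨y, hyV₀⟩ := by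
      intro i
      have h1 := hy i
      rw [hdiv i y hyV₀, pow_add] at h1
      exact (mul_dvd_mul_iff_left (hpp m₁)).1 h1
    exact hback n ⟨y, hyV₀⟩ (hc1 ⟨y, hyV₀⟩ hd (hres y hyV₀ hf))
  · intro u b hu hf hb1 hb2
    have huV₀ : (u : G) ∈ V₀ := by
      rw [hV₀, mem_Jlev hψ]
      exact ⟨u.2, fun i => by rw [hu i]; exact dvd_zero _⟩
    have hbV₀ : (b : G) ∈ V₀ := by
      rw [hV₀, mem_Jlev hψ]
      exact ⟨b.2, fun i => (pow_dvd_pow _ (by omega)).trans (hb1 i)⟩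
    have hu0 : ∀ i, (ψZ i : ↥V₀ → ℤ_[p]) ⟨u, huV₀⟩ = 0 := by
      intro i
      have h1 := hu i
      rw [hdiv i u huV₀] at h1
      exact (mul_eq_zero.1 h1).resolve_left (hpp m₁)
    have hd1 : ∀ i, (p : ℤ_[p]) ^ (n - 1) ∣ (ψZ i : ↥V₀ → ℤ_[p]) ⟨b, hbV₀⟩ := by
      intro i
      have h1 := hb1 i
      have e1 : m₁ + n - 1 = m₁ + (n - 1) := by omega
      rw [hdiv i b hbV₀, e1, pow_add] at h1
      exact (mul_dvd_mul_iff_left (hpp m₁)).1 h1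
    have hd2 : ∃ i, ¬ (p : ℤ_[p]) ^ n ∣ (ψZ i : ↥V₀ → ℤ_[p]) ⟨b, hbV₀⟩ := by
      obtain ⟨i, hi2⟩ := hb2
      refine ⟨i, fun h => hi2 ?_⟩
      rw [hdiv i b hbV₀, pow_add]
      exact mul_dvd_mul_left _ h
    have := hback n (⟨b, hbV₀⟩ * ⟨u, huV₀⟩ * ⟨b, hbV₀⟩⁻¹ * ⟨u, huV₀⟩⁻¹)
      (hc2 ⟨u, huV₀⟩ ⟨b, hbV₀⟩ hu0 (hres u huV₀ hf) hd1 hd2)
    exact this

end Pool.Agent.RFA
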