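import Pool.Agent.RFA.Sub
import Pool.Agent.RFA.Lift

set_option autoImplicit false

namespace Pool.Agent.RFA

open Topology Module

variable {p : ℕ} [Fact p.Prime] {G : Type} [Group G] [TopologicalSpace G] [IsTopologicalGroup G]

/-- classes in `HomP` that lift to `ℤ_p` -/
def LiftP {ι : Type} (ρ : ι → G) : Submodule (ZMod p) (G → ZMod p) where
  carrier := {f | ∃ φ : Z1 p G, (∀ i, (φ : G → ℤ_[p]) (ρ i) = 0) ∧
    ∀ x, f x = PadicInt.toZMod ((φ : G → ℤ_[p]) x)}
  zero_mem' := ⟨0, by simp, by simp⟩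
  add_mem' := by
    rintro f g ⟨φ, h, h'⟩ ⟨ψ, k, k'⟩
    exact ⟨φ + ψ, fun i => by simp [h i, k i], fun x => by simp [h' x, k' x]⟩
  smul_mem' := by
    rintro c f ⟨φ, h, h'⟩
    refine ⟨(c.val : ℤ_[p]) • φ, fun i => by simp [h i], fun x => ?_⟩
    have : ((c.val : ℕ) : ZMod p) = c := by rw [ZMod.natCast_val, ZMod.cast_id]
    simp [h' x, this]

theorem LiftCodim_toZMod_eq_zero_iff (z : ℤ_[p]) :
    PadicInt.toZMod z = 0 ↔ (p : ℤ_[p]) ∣ z := by
  rw [← PadicInt.norm_lt_one_iff_dvd, ← PadicInt.mem_nonunits, ← IsLocalRing.mem_maximalIdeal,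
    ← PadicInt.ker_toZMod, RingHom.mem_ker]

omit [Group G] [IsTopologicalGroup G] in
theorem LiftCodim_locConst {φ : G → ℤ_[p]} (hφ : Continuous φ) :
    IsLocallyConstant (fun x => PadicInt.toZMod (φ x)) := by
  rw [IsLocallyConstant.iff_eventually_eq]
  intro x
  have h1 : ∀ᶠ y in 𝓝 x, ‖φ y - φ x‖ < 1 := by
    have h2 : Metric.ball (φ x) 1 ∈ 𝓝 (φ x) := Metric.ball_mem_nhds _ one_pos
    filter_upwards [hφ.tendsto x h2] with y hy
    simpa [dist_eq_norm] using hy
  filter_upwards [h1] with y hy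
  have h3 : PadicInt.toZMod (φ y - φ x) = 0 :=
    (LiftCodim_toZMod_eq_zero_iff _).2 ((PadicInt.norm_lt_one_iff_dvd _).1 hy)
  rw [map_sub, sub_eq_zero] at h3
  exact h3

theorem LiftP_le {ι : Type} (ρ : ι → G) : LiftP (p := p) ρ ≤ HomP p ρ := by
  rintro f ⟨φ, h, h'⟩
  have hf : f = fun x => PadicInt.toZMod ((φ : G → ℤ_[p]) x) := funext h'
  refine ⟨⟨?_, fun x y => ?_⟩, fun i => ?_⟩
  · rw [hf]
    exact LiftCodim_locConst φ.2.1
  · rw [h' x, h' y, h' (x * y), φ.2.2 x y, map_add]
  · rw [h', h i, map_zero]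

theorem LiftCodim_indep {T n : Type} [Fintype T] (v : T → n → ℤ_[p])
    (h : ∀ c : T → ℤ_[p], ∑ t, c t • v t = 0 → ∀ t, (p : ℤ_[p]) ∣ c t) :
    LinearIndependent ℤ_[p] v := by
  rw [Fintype.linearIndependent_iff]
  intro c hc
  have hp0 : (p : ℤ_[p]) ≠ 0 := by
    exact_mod_cast (Fact.out : p.Prime).ne_zero
  have hk : ∀ k : ℕ, ∀ t, (p : ℤ_[p]) ^ k ∣ c t := by
    intro k
    induction k with
    | zero => intro t; simp
    | succ k ih =>
      choose c' hc' using ih
      have h0 : (p : ℤ_[p]) ^ k • ∑ t, c' t • v t = 0 := by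
        rw [Finset.smul_sum, ← hc]
        refine Finset.sum_congr rfl fun t _ => ?_
        rw [hc' t, smul_smul]
      have h1 : ∑ t, c' t • v t = 0 := by
        rcases smul_eq_zero.1 h0 with h | h
        · exact absurd h (pow_ne_zero _ hp0)
        · exact h
      intro t
      obtain ⟨d, hd⟩ := h c' h1 t
      exact ⟨d, by rw [hc' t, hd, pow_succ]; ring⟩
  intro t
  by_contra hne
  have hu : ¬ IsUnit (p : ℤ_[p]) := PadicInt.p_nonunit
  obtain ⟨n, hn⟩ := FiniteMultiplicity.of_not_isUnit hu hne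
  exact hn (hk (n + 1) t)

/-- the liftable classes have codimension at most `h2 = dim Z2` -/
theorem lift_codim {δ : ℕ} (hG : ProFree p δ G) {ι : Type} [Fintype ι] (ρ : ι → G) :
    finrank (ZMod p) (HomP p ρ) ≤
      finrank (ZMod p) (LiftP (p := p) ρ) + finrank (ZMod p) (Z2 p ρ) := by
  classical
  have hH2 : H2zero p G := hG.h2top
  have hfin : Module.Finite (ZMod p) (Hom1 p G) := hG.finG
  have hle : HomP p ρ ≤ Hom1 p G := fun f hf => hf.1
  have hfinP : Module.Finite (ZMod p) (HomP p ρ) :=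
    Module.Finite.of_injective (Submodule.inclusion hle) (Submodule.inclusion_injective hle)
  -- the quotient
  set L : Submodule (ZMod p) (HomP p ρ) := (LiftP (p := p) ρ).submoduleOf (HomP p ρ) with hL
  have hLrank : finrank (ZMod p) L = finrank (ZMod p) (LiftP (p := p) ρ) :=
    (Submodule.submoduleOfEquivOfLe (LiftP_le ρ)).finrank_eq
  have hQ : finrank (ZMod p) ((HomP p ρ) ⧸ L) + finrank (ZMod p) L =
      finrank (ZMod p) (HomP p ρ) := Submodule.finrank_quotient_add_finrank L
  -- image of `Hom1` in `ι → K`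
  set D : Submodule (ZMod p) (ι → ZMod p) :=
    (Hom1 p G).map (LinearMap.funLeft (ZMod p) (ZMod p) ρ) with hD
  let q := Module.finBasis (ZMod p) ((HomP p ρ) ⧸ L)
  let b := Module.finBasis (ZMod p) D
  have hF : ∀ a, ∃ F : HomP p ρ, L.mkQ F = q a := fun a => L.mkQ_surjective (q a)
  choose F hF using hF
  have hg : ∀ j, ∃ g ∈ Hom1 p G, (fun i => g (ρ i)) = (b j : ι → ZMod p) := by
    intro j
    obtain ⟨g, hg, hg'⟩ := (b j).2
    exact ⟨g, hg, hg'⟩
  choose g hg hg' using hg
  have hφ : ∀ a, ∃ φ : Z1 p G, ∀ x, PadicInt.toZMod ((φ : G → ℤ_[p]) x) = (F a : G → ZMod p) x :=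
    fun a => zlift hH2 (F a).2.1
  choose φ hφ using hφ
  have hγ : ∀ j, ∃ γ : Z1 p G, ∀ x, PadicInt.toZMod ((γ : G → ℤ_[p]) x) = g j x :=
    fun j => zlift hH2 (hg j)
  choose γ hγ using hγ
  -- independent vectors
  let w : Fin (finrank (ZMod p) ((HomP p ρ) ⧸ L)) ⊕ Fin (finrank (ZMod p) D) → Z1 p G :=
    Sum.elim φ γ
  let v : Fin (finrank (ZMod p) ((HomP p ρ) ⧸ L)) ⊕ Fin (finrank (ZMod p) D) → ι → ℤ_[p] :=
    fun t i => (w t : G → ℤ_[p]) (ρ i)
  have hv : LinearIndependent ℤ_[p] v := by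
    apply LiftCodim_indep
    intro c hc
    have hci : ∀ i, ∑ a, c (Sum.inl a) * (φ a : G → ℤ_[p]) (ρ i)
        + ∑ j, c (Sum.inr j) * (γ j : G → ℤ_[p]) (ρ i) = 0 := by
      intro i
      have := congrFun hc i
      simpa [Fintype.sum_sum_type, v, w, Finset.sum_apply] using this
    -- first the coefficients of `γ`
    have h1 : ∀ j, PadicInt.toZMod (c (Sum.inr j)) = 0 := by
      have hb : ∑ j, PadicInt.toZMod (c (Sum.inr j)) • b j = 0 := by
        apply Subtype.ext
        funext i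
        have h2 := congrArg PadicInt.toZMod (hci i)
        rw [map_add, map_sum, map_sum, map_zero] at h2
        have h3 : ∑ a, PadicInt.toZMod (c (Sum.inl a) * (φ a : G → ℤ_[p]) (ρ i)) = 0 := by
          refine Finset.sum_eq_zero fun a _ => ?_
          rw [map_mul, hφ a, (F a).2.2 i, mul_zero]
        rw [h3, zero_add] at h2
        rw [Submodule.coe_sum, Finset.sum_apply]
        simp only [Submodule.coe_smul, Pi.smul_apply, smul_eq_mul, Submodule.coe_zero,
          Pi.zero_apply]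
        rw [← h2]
        refine Finset.sum_congr rfl fun j _ => ?_
        rw [map_mul, hγ j, ← congrFun (hg' j) i]
      exact Fintype.linearIndependent_iff.1 b.linearIndependent _ hb
    choose d hd using fun j => (LiftCodim_toZMod_eq_zero_iff _).1 (h1 j)
    -- the combination in the kernel of the evaluation
    let ψ : Z1 p G := ∑ a, c (Sum.inl a) • φ a + (p : ℤ_[p]) • ∑ j, d j • γ j
    have hψx : ∀ x, (ψ : G → ℤ_[p]) x = ∑ a, c (Sum.inl a) * (φ a : G → ℤ_[p]) x
        + (p : ℤ_[p]) * ∑ j, d j * (γ j : G → ℤ_[p]) x := by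
      intro x
      simp only [ψ, Submodule.coe_add, Submodule.coe_smul, Submodule.coe_sum, Pi.add_apply,
        Finset.sum_apply, Pi.smul_apply, smul_eq_mul]
    have hψ0 : ∀ i, (ψ : G → ℤ_[p]) (ρ i) = 0 := by
      intro i
      rw [hψx, ← hci i, Finset.mul_sum]
      congr 1
      refine Finset.sum_congr rfl fun j _ => ?_
      rw [hd j]; ring
    have hmem : (∑ a, PadicInt.toZMod (c (Sum.inl a)) • F a) ∈ L := by
      change ((∑ a, PadicInt.toZMod (c (Sum.inl a)) • F a : HomP p ρ) : G → ZMod p) ∈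
        LiftP (p := p) ρ
      refine ⟨ψ, hψ0, fun x => ?_⟩
      rw [hψx, map_add, map_mul, map_natCast, ZMod.natCast_self, zero_mul, add_zero, map_sum,
        Submodule.coe_sum, Finset.sum_apply]
      refine Finset.sum_congr rfl fun a _ => ?_
      rw [map_mul, hφ a]
      rfl
    have h4 : ∀ a, PadicInt.toZMod (c (Sum.inl a)) = 0 := by
      have hq : ∑ a, PadicInt.toZMod (c (Sum.inl a)) • q a = 0 := by
        have h5 := (Submodule.Quotient.mk_eq_zero L).2 hmem
        rw [← Submodule.mkQ_apply, map_sum] at h5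
        rw [← h5]
        refine Finset.sum_congr rfl fun a _ => ?_
        rw [map_smul, hF a]
      exact Fintype.linearIndependent_iff.1 q.linearIndependent _ hq
    rintro (a | j)
    · exact (LiftCodim_toZMod_eq_zero_iff _).1 (h4 a)
    · exact ⟨d j, hd j⟩
  have hcard := hv.fintype_card_le_finrank
  rw [Fintype.card_sum, Fintype.card_fin, Fintype.card_fin, Module.finrank_fintype_fun_eq_card]
    at hcard
  -- the annihilator
  have hZ : Fintype.card ι ≤ finrank (ZMod p) D + finrank (ZMod p) (Z2 p ρ) := by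
    let A : (ι → ZMod p) →ₗ[ZMod p] (Fin (finrank (ZMod p) D) → ZMod p) :=
      LinearMap.pi fun j => ∑ i, ((b j : ι → ZMod p) i) • LinearMap.proj i
    have hA : ∀ z j, A z j = ∑ i, (b j : ι → ZMod p) i * z i := by
      intro z j
      simp [A]
    have hker : LinearMap.ker A ≤ Z2 p ρ := by
      intro z hz f hf
      rw [LinearMap.mem_ker] at hz
      have hfD : (fun i => f (ρ i)) ∈ D := ⟨f, hf, rfl⟩
      have hrep := b.sum_repr ⟨_, hfD⟩
      have hrep' := congrArg Subtype.val hrep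
      have hi : ∀ i, f (ρ i) = ∑ j, b.repr ⟨_, hfD⟩ j * (b j : ι → ZMod p) i := by
        intro i
        have := congrFun hrep' i
        rw [Submodule.coe_sum, Finset.sum_apply] at this
        exact this.symm
      calc ∑ i, z i * f (ρ i) = ∑ i, ∑ j, b.repr ⟨_, hfD⟩ j * ((b j : ι → ZMod p) i * z i) := by
            refine Finset.sum_congr rfl fun i _ => ?_
            rw [hi i, Finset.mul_sum]
            refine Finset.sum_congr rfl fun j _ => ?_
            ring
        _ = ∑ j, b.repr ⟨_, hfD⟩ j * A z j := by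
            rw [Finset.sum_comm]
            refine Finset.sum_congr rfl fun j _ => ?_
            rw [hA, Finset.mul_sum]
        _ = 0 := by
            rw [hz]; simp
    have h6 := LinearMap.finrank_range_add_finrank_ker A
    have h7 : finrank (ZMod p) (LinearMap.range A) ≤ finrank (ZMod p) D := by
      refine (Submodule.finrank_le _).trans ?_
      rw [Module.finrank_fintype_fun_eq_card, Fintype.card_fin]
    have h8 : finrank (ZMod p) (LinearMap.ker A) ≤ finrank (ZMod p) (Z2 p ρ) :=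
      Submodule.finrank_mono hker
    rw [Module.finrank_fintype_fun_eq_card] at h6
    omega
  omega

end Pool.Agent.RFA
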