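import Pool.Agent.RFA.Lift01
import Pool.Agent.RFA.LiftCodim
import Pool.Agent.RFA.Uni
import Pool.Agent.RFA.CupB
import Pool.Agent.RFA.Desc

set_option autoImplicit false
set_option linter.unusedSectionVars false

namespace Pool.Agent.RFA

open Topology Module

variable {p : ℕ} [Fact p.Prime] {G : Type} [Group G] [TopologicalSpace G] [IsTopologicalGroup G]

theorem DLScore_toZMod_lc : IsLocallyConstant (PadicInt.toZMod : ℤ_[p] → ZMod p) := by
  rw [IsLocallyConstant.iff_eventually_eq]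
  intro x
  filter_upwards [Metric.ball_mem_nhds x one_pos] with y hy
  have h1 : y - x ∈ RingHom.ker (PadicInt.toZMod : ℤ_[p] →+* ZMod p) := by
    rw [PadicInt.ker_toZMod, IsLocalRing.mem_maximalIdeal, PadicInt.mem_nonunits]
    simpa [dist_eq_norm] using hy
  rw [RingHom.mem_ker, map_sub, sub_eq_zero] at h1
  exact h1

theorem DLScore_isCup_sub {f g g' h h' : G → ZMod p} (H : IsCup p f g h) (H' : IsCup p f g' h') :
    IsCup p f (g - g') (h - h') := by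
  refine ⟨H.1.sub H'.1, fun x y => ?_⟩
  simp only [Pi.sub_apply, H.2, H'.2]; ring

theorem DLScore_isCup_neg {f g h : G → ZMod p} (H : IsCup p f g h) :
    IsCup p f (-g) (-h) := by
  refine ⟨H.1.neg, fun x y => ?_⟩
  simp only [Pi.neg_apply, H.2]; ring

theorem DLScore_lead {δ : ℕ} (hG : ProFree p δ G) {ι : Type} [Fintype ι] (ρ : ι → G)
    (ψ : Fin 2 → Z1 p G) (hψ : ∀ j i, (ψ j : G → ℤ_[p]) (ρ i) = 0)
    (hI : IK p ρ (fun j => redp p (ψ j : G → ℤ_[p]))) (m : ℕ)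
    (a0 a1 : G → ZMod p) (ha0 : a0 ∈ HomP p ρ) (ha1 : a1 ∈ HomP p ρ)
    (h00 : CupZero p ρ (redp p (ψ 0 : G → ℤ_[p])) a0)
    (h11 : CupZero p ρ (redp p (ψ 1 : G → ℤ_[p])) a1)
    (h01 : ∃ h h', IsCup p (redp p (ψ 0 : G → ℤ_[p])) a1 h ∧
      IsCup p (redp p (ψ 1 : G → ℤ_[p])) a0 h' ∧ ∀ l, h (ρ l) + h' (ρ l) = 0) :
    ∃ Θ ∈ Coc (Tm p ψ m), (∀ i, Θ (ρ i) = 0) ∧
        ∀ x, Θ x - ∑ j, (![a0, a1] : Fin 2 → G → ZMod p) j x •
          tt p (Pi.single j (1 : ZMod (p ^ m))) ∈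
          mI p (Fin 2 → ZMod (p ^ m)) ^ 2 := by
  refine lift1 hG ρ ψ hψ hI m ![a0, a1] ?_ ?_ ?_
  · intro j; fin_cases j
    · exact ha0
    · exact ha1
  · intro j; fin_cases j
    · exact h00
    · exact h11
  · intro i j hij
    have hi : i = 0 := by omega
    have hj : j = 1 := by omega
    subst hi hj
    exact h01

/-- cocycles with linear leading form `(a₁, a₂)` whose value at `y` is non-zero -/
theorem exists_leading {δ : ℕ} (hG : ProFree p δ G) {ι : Type} [Fintype ι] (ρ : ι → G)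
    (ψ : Fin 2 → Z1 p G) (hψ : ∀ j i, (ψ j : G → ℤ_[p]) (ρ i) = 0)
    (hI : IK p ρ (fun j => redp p (ψ j : G → ℤ_[p]))) (y : G)
    (hy : ∃ f ∈ HomP p ρ, f y ≠ 0) (m : ℕ) :
    ∃ a : Fin 2 → G → ZMod p, (∃ j, a j y ≠ 0) ∧
      ∃ Θ ∈ Coc (Tm p ψ m), (∀ i, Θ (ρ i) = 0) ∧
        ∀ x, Θ x - ∑ j, a j x • tt p (Pi.single j (1 : ZMod (p ^ m))) ∈
          mI p (Fin 2 → ZMod (p ^ m)) ^ 2 := by
  obtain ⟨f, hf, hfy⟩ := hy
  have hη : ∀ j, redp p (ψ j : G → ℤ_[p]) ∈ Hom1 p G := by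
    intro j
    refine ⟨?_, fun x y => ?_⟩
    · exact DLScore_toZMod_lc.comp_continuous (ψ j).2.1
    · simp only [redp, (ψ j).2.2 x y, map_add]
  obtain ⟨c0, hc0⟩ := cup_exists hG.h2top (hη 0) hf.1
  obtain ⟨c1, hc1⟩ := cup_exists hG.h2top (hη 1) hf.1
  obtain ⟨v1, hv1, h1, h1c, h1v⟩ := hI ![fun i => c0 (ρ i), fun _ => 0]
  obtain ⟨w1, hw1, k1, k1c, k1v⟩ := hI ![fun i => c1 (ρ i), fun _ => 0]
  obtain ⟨v2, hv2, h2', h2c, h2v⟩ := hI ![fun _ => 0, fun i => c0 (ρ i)]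
  by_cases hcase : v1 y = f y
  · -- second form
    refine ⟨![-v2, v1], ⟨1, by simpa [hcase] using hfy⟩, ?_⟩
    refine DLScore_lead hG ρ ψ hψ hI m (-v2) v1 ((HomP p ρ).neg_mem hv2) hv1
      ⟨-h2' 0, DLScore_isCup_neg (h2c 0), fun i => ?_⟩ ⟨h1 1, h1c 1, fun i => ?_⟩
      ⟨h1 0, -h2' 1, h1c 0, DLScore_isCup_neg (h2c 1), fun l => ?_⟩
    · have := h2v 0 i; simp at this; simp [this]
    · have := h1v 1 i; simpa using this
    · have e1 := h1v 0 l
      have e2 := h2v 1 l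
      simp at e1 e2
      simp [e1, e2]
  · refine ⟨![f - v1, -w1], ⟨0, by simpa [sub_eq_zero] using fun h => hcase h.symm⟩, ?_⟩
    refine DLScore_lead hG ρ ψ hψ hI m (f - v1) (-w1) ((HomP p ρ).sub_mem hf hv1)
      ((HomP p ρ).neg_mem hw1) ⟨c0 - h1 0, DLScore_isCup_sub hc0 (h1c 0), fun i => ?_⟩
      ⟨-k1 1, DLScore_isCup_neg (k1c 1), fun i => ?_⟩
      ⟨-k1 0, c1 - h1 1, DLScore_isCup_neg (k1c 0), DLScore_isCup_sub hc1 (h1c 1),
        fun l => ?_⟩
    · have := h1v 0 i; simp at this; simp [this]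
    · have := k1v 1 i; simp at this; simp [this]
    · have e1 := k1v 0 l
      have e2 := h1v 1 l
      simp at e1 e2
      simp [e1, e2]

theorem DLScore_coef0_add {A : Type} [AddCommGroup A] (b c : GA p A) :
    coef0 p (b + c) = coef0 p b + coef0 p c := by
  simp [coef0]

theorem DLScore_coef0_smul {A : Type} [AddCommGroup A] (c : ZMod p) (b : GA p A) :
    coef0 p (c • b) = c * coef0 p b := by
  simp [coef0]

/-- conjugation rule for cocycles on the kernel -/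
theorem DLScore_conj {A : Type} [AddCommGroup A] (a : G →* Multiplicative A) (Θ : G → GA p A)
    (hΘ : Θ ∈ Coc (TA p a)) (x j : G) (hj : a j = 1) :
    Θ (x * j * x⁻¹) = TA p a x * Θ j := by
  have h1 : Θ 1 = 0 := by
    have := hΘ.2 1 1
    rw [mul_one, map_one, one_mul] at this
    simpa using this
  have hTj : TA p a j = 1 := by
    simp [TA, hj]
    rfl
  have h2 := hΘ.2 x x⁻¹
  rw [mul_inv_cancel, h1] at h2
  rw [hΘ.2, hΘ.2, map_mul, hTj, mul_one]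
  linear_combination -h2

theorem DLScore_finrank_comap {V W : Type} [AddCommGroup V] [Module (ZMod p) V]
    [Module.Finite (ZMod p) V] [AddCommGroup W] [Module (ZMod p) W] [Module.Finite (ZMod p) W]
    (L : V →ₗ[ZMod p] W) (S : Submodule (ZMod p) W) (n : ℕ)
    (h : finrank (ZMod p) W ≤ finrank (ZMod p) S + n) :
    finrank (ZMod p) V ≤ finrank (ZMod p) (S.comap L) + n := by
  have h1 := LinearMap.finrank_range_add_finrank_ker (S.mkQ.comp L)
  have h2 : LinearMap.ker (S.mkQ.comp L) = S.comap L := by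
    rw [LinearMap.ker_comp, Submodule.ker_mkQ]
  rw [h2] at h1
  have h3 : finrank (ZMod p) (LinearMap.range (S.mkQ.comp L)) ≤ finrank (ZMod p) (W ⧸ S) :=
    Submodule.finrank_le _
  have h4 := Submodule.finrank_quotient_add_finrank S
  omega

theorem lift_of_mI_pow {δ : ℕ} (hG : ProFree p δ G) {ι : Type} [Fintype ι] (ρ : ι → G) {k : ℕ}
    (χ : Fin k → Z1 p G) (hχ : ∀ j i, (χ j : G → ℤ_[p]) (ρ i) = 0)
    (hi : Indep p ⊤ (fun i => (χ i : G → ℤ_[p]))) (m h : ℕ)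
    (hh : h2 p ρ (fun _ => 0) (Jlev p ⊤ (fun i => (χ i : G → ℤ_[p])) m) ≤ h)
    (Θ : G → GA p (Fin k → ZMod (p ^ m))) (hΘ : Θ ∈ Coc (Tm p χ m)) (h0 : ∀ i, Θ (ρ i) = 0)
    (β : GA p (Fin k → ZMod (p ^ m))) (hβ : β ∈ mI p (Fin k → ZMod (p ^ m)) ^ h) :
    ∃ φ : G → ℤ_[p],
      IsZ p (Rel p ρ (fun _ => 0)) (Jlev p ⊤ (fun i => (χ i : G → ℤ_[p])) m) φ ∧
      ∀ x ∈ Jlev p ⊤ (fun i => (χ i : G → ℤ_[p])) m,
        PadicInt.toZMod (φ x) = coef0 p (β * Θ x) := by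
  classical
  have : NeZero (p ^ m) := ⟨pow_ne_zero _ (Fact.out : p.Prime).ne_zero⟩
  set a := redm p χ m with ha
  have hker := redm_ker χ m
  rw [← ha] at hker
  rw [← hker] at hh ⊢
  have halc : IsLocallyConstant a := redm_locConst χ m
  have has : Function.Surjective a := redm_surj χ hi m
  have hρ1 : ∀ i, a (ρ i) = 1 := by
    intro i
    rw [ha]
    simp only [redm, MonoidHom.coe_mk, OneHom.coe_mk]
    rw [← ofAdd_zero]; congr 1; funext j
    simp [hχ j i]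
  have hord : ∀ (i : ι) (n : ℕ), a (ρ i) ^ n = 1 ↔ p ^ (fun _ : ι => 0) i ∣ n := by
    intro i n; simp [hρ1 i]
  have hadm : Adm p ρ (fun _ => 0) a.ker := ker_adm ρ (fun _ => 0) a halc hord
  obtain ⟨ι', hι', ρ', idx, x', hPP⟩ := exists_PP hG ρ (fun _ => 0) a.ker hadm.isOpen hadm.cyc
  have hGJ := hG.sub a.ker hadm.isOpen
  have hHP := hPP.homP hadm
  have hZ2 := hPP.finrank_Z2 hG hadm
  have hcod := lift_codim hGJ ρ'
  have hRel : Rel p ρ' (fun l => 0) = (Rel p ρ (fun _ => 0)).subgroupOf a.ker :=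
    hPP.rel (fun _ => le_rfl) hadm.isOpen hadm.rel_le
  obtain ⟨hfinP, -⟩ := Z2_finite_HomP_finite hGJ ρ'
  -- the linear map
  have hmem : ∀ γ : GA p (Fin k → ZMod (p ^ m)),
      (fun j : ↥a.ker => coef0 p (γ * Θ j)) ∈ HomP p ρ' := by
    intro γ
    rw [hHP]
    have h1 : (fun x => γ * Θ x) ∈ Coc (TA p a) := (Coc (TA p a)).smul_mem γ hΘ
    exact coef0_homR ρ (fun _ => 0) a halc hord (fun x => γ * Θ x) h1
      (fun i => by simp [h0 i])
  let L : GA p (Fin k → ZMod (p ^ m)) →ₗ[ZMod p] HomP p ρ' :=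
    { toFun := fun γ => ⟨fun j => coef0 p (γ * Θ j), hmem γ⟩
      map_add' := by
        intro γ γ'
        apply Subtype.ext
        funext j
        simp [add_mul, DLScore_coef0_add]
      map_smul' := by
        intro c γ
        apply Subtype.ext
        funext j
        simp [DLScore_coef0_smul] }
  let S : Submodule (ZMod p) (HomP p ρ') := (LiftP (p := p) ρ').comap (HomP p ρ').subtype
  have hS : finrank (ZMod p) S = finrank (ZMod p) (LiftP (p := p) ρ') := by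
    exact (Submodule.comapSubtypeEquivOfLe (LiftP_le ρ')).finrank_eq
  have : Module.Finite (ZMod p) (GA p (Fin k → ZMod (p ^ m))) := Module.Finite.of_finite
  have hcomap := DLScore_finrank_comap L S (finrank (ZMod p) (Z2 p ρ')) (by rw [hS]; exact hcod)
  -- it is an ideal
  have hclosed : ∀ (c γ : GA p (Fin k → ZMod (p ^ m))), γ ∈ S.comap L → c * γ ∈ S.comap L := by
    intro c γ hγ
    induction c using AddMonoidAlgebra.induction_linear with
    | zero => rw [zero_mul]; exact (S.comap L).zero_mem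
    | add c c' hc hc' => rw [add_mul]; exact (S.comap L).add_mem hc hc'
    | single v r =>
      have hsr : (AddMonoidAlgebra.single v r : GA p (Fin k → ZMod (p ^ m))) =
          r • AddMonoidAlgebra.single v 1 := by
        simp
      rw [hsr, smul_mul_assoc]
      refine (S.comap L).smul_mem r ?_
      obtain ⟨x, hx⟩ := has (Multiplicative.ofAdd v)
      obtain ⟨φ, hφ0, hφ⟩ := hγ
      have hT : TA p a x = AddMonoidAlgebra.single v 1 := by
        simp [TA, hx]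
      have hnorm : ∀ j : ↥a.ker, x * (j : G) * x⁻¹ ∈ a.ker := fun j =>
        (inferInstance : a.ker.Normal).conj_mem j j.2 x
      let φ' : ↥a.ker → ℤ_[p] := fun j => (φ : ↥a.ker → ℤ_[p]) ⟨x * (j : G) * x⁻¹, hnorm j⟩
      have hφ' : φ' ∈ Z1 p ↥a.ker := by
        refine ⟨φ.2.1.comp (Continuous.subtype_mk (by fun_prop) _), fun u v => ?_⟩
        simp only [φ']
        rw [← φ.2.2]
        congr 1
        apply Subtype.ext
        simp
      refine ⟨⟨φ', hφ'⟩, fun i => ?_, fun j => ?_⟩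
      · have h1 : (⟨x * (ρ' i : G) * x⁻¹, hnorm _⟩ : ↥a.ker) ∈ Rel p ρ' (fun _ => 0) := by
          rw [hRel, Subgroup.mem_subgroupOf]
          refine (Rel.normal (p := p) ρ (fun _ => 0)).conj_mem _ ?_ x
          rw [hPP.rho_eq i]
          exact (Rel.normal (p := p) ρ (fun _ => 0)).conj_mem _ (Rel.mem ρ (fun _ => 0) _) _
        exact (Z1.isZ ρ' φ hφ0).rel _ h1
      · have h2 := hφ ⟨x * (j : G) * x⁻¹, hnorm j⟩
        have h3 : ((HomP p ρ').subtype (L (AddMonoidAlgebra.single v 1 * γ))) j =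
            coef0 p (AddMonoidAlgebra.single v 1 * γ * Θ j) := rfl
        have h4 : ((HomP p ρ').subtype (L γ)) ⟨x * (j : G) * x⁻¹, hnorm j⟩ =
            coef0 p (γ * Θ (x * j * x⁻¹)) := rfl
        rw [h3]
        rw [h4] at h2
        show _ = PadicInt.toZMod ((φ : ↥a.ker → ℤ_[p]) ⟨x * (j : G) * x⁻¹, hnorm j⟩)
        rw [← h2, DLScore_conj a Θ hΘ x j j.2, hT]
        congr 1
        ring
  let I : Ideal (GA p (Fin k → ZMod (p ^ m))) :=
    { carrier := S.comap L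
      add_mem' := fun h h' => (S.comap L).add_mem h h'
      zero_mem' := (S.comap L).zero_mem
      smul_mem' := fun c γ h => hclosed c γ h }
  have hI : I.restrictScalars (ZMod p) = S.comap L := by
    ext γ; rfl
  have hcardA : ∃ n, Nat.card (Fin k → ZMod (p ^ m)) = p ^ n := by
    refine ⟨m * k, ?_⟩
    rw [Nat.card_fun, Nat.card_zmod, Nat.card_eq_fintype_card, Fintype.card_fin, pow_mul]
  have hle : mI p (Fin k → ZMod (p ^ m)) ^ h ≤ I := by
    refine mI_pow_le hcardA I h ?_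
    rw [hI]
    rw [finrank_GA] at hcomap
    omega
  have hβI : β ∈ S.comap L := hle hβ
  obtain ⟨φ, hφ0, hφ⟩ := hβI
  refine ⟨fun x => if hx : x ∈ a.ker then (φ : ↥a.ker → ℤ_[p]) ⟨x, hx⟩ else 0, ?_, ?_⟩
  · refine ⟨?_, ?_, ?_⟩
    · rw [continuousOn_iff_continuous_domRestrict]
      have : (a.ker : Set G).domRestrict
          (fun x => if hx : x ∈ a.ker then (φ : ↥a.ker → ℤ_[p]) ⟨x, hx⟩ else 0) =
          (φ : ↥a.ker → ℤ_[p]) := by
        funext x
        have hx : (x : G) ∈ a.ker := x.2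
        exact dif_pos hx
      rw [this]
      exact φ.2.1
    · intro x hx y hy
      rw [dif_pos hx, dif_pos hy, dif_pos (a.ker.mul_mem hx hy)]
      exact φ.2.2 ⟨x, hx⟩ ⟨y, hy⟩
    · intro x hx
      have hxk : x ∈ a.ker := hadm.rel_le hx
      simp only [dif_pos hxk]
      refine (Z1.isZ ρ' φ hφ0).rel _ ?_
      rw [hRel, Subgroup.mem_subgroupOf]
      exact hx
  · intro x hx
    simp only [dif_pos hx]
    exact (hφ ⟨x, hx⟩).symm

theorem DLScore_gmap_tt {A A' : Type} [AddCommGroup A] [AddCommGroup A'] (f : A →+ A') (a : A) :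
    gmap p f (tt p a) = tt p (f a) := by
  rw [tt, tt, map_sub, gmap_single, map_one]

theorem DLScore_cast (h : ℕ) (m : ℕ) (hm : h + 3 ≤ m) : p ^ (m - 1) + 1 + h < p ^ m := by
  have hp : 2 ≤ p := (Fact.out : p.Prime).two_le
  obtain ⟨n, rfl⟩ : ∃ n, m = n + 1 := ⟨m - 1, by omega⟩
  have h1 : n < p ^ n := Nat.lt_pow_self (by omega)
  rw [Nat.add_sub_cancel, pow_succ]
  nlinarith

/-- the linear form `λ` on `(ℤ/p^m)²` with coefficients in `{0, 1}` -/
def DLScore_lam (p m : ℕ) (l : Fin 2 → ℕ) : (Fin 2 → ZMod (p ^ m)) →+ ZMod (p ^ m) where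
  toFun v := ∑ j, (l j : ZMod (p ^ m)) * v j
  map_zero' := by simp
  map_add' u v := by simp [mul_add, Finset.sum_add_distrib]

theorem DLScore_lam_single (m : ℕ) (l : Fin 2 → ℕ) (j : Fin 2) :
    DLScore_lam p m l (Pi.single j 1) = (l j : ZMod (p ^ m)) := by
  fin_cases j <;> simp [DLScore_lam, Pi.single_apply]

theorem DLScore_tt_zero {A : Type} [AddCommGroup A] : tt p (0 : A) = 0 := by
  rw [tt, sub_eq_zero]; rfl

/-- the leading term after specialisation -/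
theorem DLScore_spec (m : ℕ) (l : Fin 2 → ℕ) (hl : ∀ j, l j = 0 ∨ l j = 1) (a : Fin 2 → ZMod p)
    (x : GA p (Fin 2 → ZMod (p ^ m)))
    (hx : x - ∑ j, a j • tt p (Pi.single j (1 : ZMod (p ^ m))) ∈
      mI p (Fin 2 → ZMod (p ^ m)) ^ 2)
    (ha : ∑ j, (l j : ZMod p) * a j ≠ 0) :
    HasOrd p m (gmap p (DLScore_lam p m l) x) 1 := by
  have h1 := gmap_mI_pow (DLScore_lam p m l) _ 2 hx
  rw [mI_eq_span_tau, Ideal.span_singleton_pow] at h1
  have h2 : gmap p (DLScore_lam p m l) (∑ j, a j • tt p (Pi.single j (1 : ZMod (p ^ m)))) =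
      (∑ j, (l j : ZMod p) * a j) • tau p m := by
    rw [map_sum, Finset.sum_smul]
    refine Finset.sum_congr rfl fun j _ => ?_
    rw [map_smul, DLScore_gmap_tt, DLScore_lam_single]
    rcases hl j with h | h
    · rw [h]; simp [DLScore_tt_zero]
    · rw [h]; simp [tau]
  rw [map_sub, h2] at h1
  have h3 : gmap p (DLScore_lam p m l) x = (∑ j, (l j : ZMod p) * a j) • tau p m +
      (gmap p (DLScore_lam p m l) x - (∑ j, (l j : ZMod p) * a j) • tau p m) := by ring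
  rw [h3]
  refine HasOrd.add ?_ h1
  refine ⟨algebraMap (ZMod p) _ (∑ j, (l j : ZMod p) * a j), ?_, ?_⟩
  · exact (IsUnit.mk0 _ ha).map _
  · rw [pow_one, Algebra.smul_def]

theorem DLScore_ordt (m : ℕ) (l : Fin 2 → ℕ) (j : Fin 2) (hj : l j = 1) :
    HasOrd p m (gmap p (DLScore_lam p m l) (tt p (Pi.single j (1 : ZMod (p ^ m))))) 1 := by
  rw [DLScore_gmap_tt, DLScore_lam_single, hj]
  exact ⟨1, isUnit_one, by simp [tau]⟩

theorem DLScore_toZMod_dvd {x : ℤ_[p]} (h : (p : ℤ_[p]) ∣ x) : PadicInt.toZMod x = 0 := by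
  obtain ⟨c, rfl⟩ := h
  rw [map_mul, map_natCast, ZMod.natCast_self, zero_mul]

theorem DLScore_tt_mem {A : Type} [AddCommGroup A] (a : A) : tt p a ∈ mI p A := by
  rw [mI, RingHom.mem_ker, tt, map_sub, aug_single, map_one, sub_self]

theorem DLScore_choose {δ : ℕ} (hG : ProFree p δ G) {ι : Type} [Fintype ι] (ρ : ι → G)
    (ψ : Fin 2 → Z1 p G) (hψ : ∀ j i, (ψ j : G → ℤ_[p]) (ρ i) = 0)
    (hi : Indep p ⊤ (fun i => (ψ i : G → ℤ_[p]))) (m h n : ℕ)
    (hh : h2 p ρ (fun _ => 0) (Jlev p ⊤ (fun i => (ψ i : G → ℤ_[p])) m) ≤ h)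
    (Θ : G → GA p (Fin 2 → ZMod (p ^ m))) (hΘ : Θ ∈ Coc (Tm p ψ m)) (h0 : ∀ i, Θ (ρ i) = 0)
    (y : G) (hy : y ∈ Jlev p ⊤ (fun i => (ψ i : G → ℤ_[p])) m)
    (l : Fin 2 → ℕ) (j : Fin 2) (hj : l j = 1)
    (hord : HasOrd p m (gmap p (DLScore_lam p m l) (Θ y)) n) (hn : n + h < p ^ m) :
    ∃ φ : G → ℤ_[p],
          IsZ p (Rel p ρ (fun _ => 0)) (Jlev p ⊤ (fun i => (ψ i : G → ℤ_[p])) m) φ ∧
            ¬ (p : ℤ_[p]) ∣ φ y := by
  have h1 : HasOrd p m (gmap p (DLScore_lam p m l)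
      (tt p (Pi.single j (1 : ZMod (p ^ m))) ^ h * Θ y)) (h * 1 + n) := by
    rw [map_mul, map_pow]
    exact ((DLScore_ordt m l j hj).pow h).mul hord
  have h2 : tt p (Pi.single j (1 : ZMod (p ^ m))) ^ h * Θ y ≠ 0 := by
    intro h3
    rw [h3, map_zero] at h1
    exact absurd rfl (h1.ne_zero (by omega))
  obtain ⟨γ, hγ⟩ := coef0_nondeg _ h2
  have hmem : γ * tt p (Pi.single j (1 : ZMod (p ^ m))) ^ h ∈
      mI p (Fin 2 → ZMod (p ^ m)) ^ h :=
    Ideal.mul_mem_left _ _ (Ideal.pow_mem_pow (DLScore_tt_mem _) h)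
  obtain ⟨φ, hφ, hφ'⟩ := lift_of_mI_pow hG ρ ψ hψ hi m h hh Θ hΘ h0 _ hmem
  refine ⟨φ, hφ, fun hdvd => hγ ?_⟩
  have h4 := hφ' y hy
  rw [mul_assoc] at h4
  rw [← h4]
  exact DLScore_toZMod_dvd hdvd

theorem DLScore_mem_Jlev (ψ : Fin 2 → Z1 p G) (m : ℕ) (y : G)
    (h : ∀ i, (p : ℤ_[p]) ^ m ∣ (ψ i : G → ℤ_[p]) y) :
    y ∈ Jlev p ⊤ (fun i => (ψ i : G → ℤ_[p])) m :=
  Subgroup.subset_closure ⟨Subgroup.mem_top y, h⟩

theorem DLScore_pick (c a : Fin 2 → ZMod p) (hc : c ≠ 0) (ha : a ≠ 0) :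
    ∃ l : Fin 2 → ℕ, (∀ j, l j = 0 ∨ l j = 1) ∧ (∃ j, l j = 1) ∧
      ∑ j, (l j : ZMod p) * c j ≠ 0 ∧ ∑ j, (l j : ZMod p) * a j ≠ 0 := by
  have key : ∀ b : Fin 2 → ZMod p, b ≠ 0 → b 0 ≠ 0 ∨ b 1 ≠ 0 := by
    intro b hb
    by_contra hcon
    push Not at hcon
    apply hb
    funext j
    fin_cases j
    · exact hcon.1
    · exact hcon.2
  by_cases h0 : c 0 ≠ 0 ∧ a 0 ≠ 0
  · exact ⟨![1, 0], by intro j; fin_cases j <;> simp, ⟨0, rfl⟩, by simpa using h0.1,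
      by simpa using h0.2⟩
  by_cases h1 : c 1 ≠ 0 ∧ a 1 ≠ 0
  · exact ⟨![0, 1], by intro j; fin_cases j <;> simp, ⟨1, rfl⟩, by simpa using h1.1,
      by simpa using h1.2⟩
  refine ⟨![1, 1], by intro j; fin_cases j <;> simp, ⟨0, rfl⟩, ?_, ?_⟩
  · simp only [Fin.sum_univ_two]
    have hc' := key c hc
    have ha' := key a ha
    simp only [Matrix.cons_val_zero, Matrix.cons_val_one, Nat.cast_one, one_mul]
    intro h
    rcases hc' with h2 | h2
    · have h3 : a 0 = 0 := by by_contra h4; exact h0 ⟨h2, h4⟩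
      rcases ha' with h4 | h4
      · exact h4 h3
      · have h5 : c 1 = 0 := by by_contra h6; exact h1 ⟨h6, h4⟩
        rw [h5, add_zero] at h
        exact h2 h
    · have h3 : a 1 = 0 := by by_contra h4; exact h1 ⟨h2, h4⟩
      rcases ha' with h4 | h4
      · have h5 : c 0 = 0 := by by_contra h6; exact h0 ⟨h6, h4⟩
        rw [h5, zero_add] at h
        exact h2 h
      · exact h4 h3
  · simp only [Fin.sum_univ_two]
    have hc' := key c hc
    have ha' := key a ha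
    simp only [Matrix.cons_val_zero, Matrix.cons_val_one, Nat.cast_one, one_mul]
    intro h
    rcases ha' with h2 | h2
    · have h3 : c 0 = 0 := by by_contra h4; exact h0 ⟨h4, h2⟩
      rcases hc' with h4 | h4
      · exact h4 h3
      · have h5 : a 1 = 0 := by by_contra h6; exact h1 ⟨h4, h6⟩
        rw [h5, add_zero] at h
        exact h2 h
    · have h3 : c 1 = 0 := by by_contra h4; exact h1 ⟨h4, h2⟩
      rcases hc' with h4 | h4
      · have h5 : a 0 = 0 := by by_contra h6; exact h0 ⟨h4, h6⟩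
        rw [h5, zero_add] at h
        exact h2 h
      · exact h4 h3

theorem dls_core {δ : ℕ} (hG : ProFree p δ G) {ι : Type} [Fintype ι] (ρ : ι → G)
    (ψ : Fin 2 → Z1 p G) (hψ : ∀ j i, (ψ j : G → ℤ_[p]) (ρ i) = 0)
    (hi : Indep p ⊤ (fun i => (ψ i : G → ℤ_[p])))
    (hI : IK p ρ (fun j => redp p (ψ j : G → ℤ_[p]))) :
    ∃ m₀, ∀ m ≥ m₀,
      (∀ y, (∀ i, (p : ℤ_[p]) ^ m ∣ (ψ i : G → ℤ_[p]) y) → (∃ f ∈ HomP p ρ, f y ≠ 0) →
        ∃ φ : G → ℤ_[p],
          IsZ p (Rel p ρ (fun _ => 0)) (Jlev p ⊤ (fun i => (ψ i : G → ℤ_[p])) m) φ ∧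
            ¬ (p : ℤ_[p]) ∣ φ y) ∧
      (∀ u b, (∀ i, (ψ i : G → ℤ_[p]) u = 0) → (∃ f ∈ HomP p ρ, f u ≠ 0) →
        (∀ i, (p : ℤ_[p]) ^ (m - 1) ∣ (ψ i : G → ℤ_[p]) b) →
        (∃ i, ¬ (p : ℤ_[p]) ^ m ∣ (ψ i : G → ℤ_[p]) b) →
        ∃ φ : G → ℤ_[p],
          IsZ p (Rel p ρ (fun _ => 0)) (Jlev p ⊤ (fun i => (ψ i : G → ℤ_[p])) m) φ ∧
            ¬ (p : ℤ_[p]) ∣ φ (b * u * b⁻¹ * u⁻¹)) := by
  obtain ⟨h, hh⟩ : ∃ h : ℕ, h2 p ρ (fun _ => 0) ⊤ ≤ h := ⟨_, Int.self_le_toNat _⟩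
  refine ⟨h + 3, fun m hm => ?_⟩
  have hlt := DLScore_cast (p := p) h m hm
  have hp1 : 1 ≤ p ^ (m - 1) := Nat.one_le_pow _ _ (Fact.out : p.Prime).pos
  have hhm : h2 p ρ (fun _ => 0) (Jlev p ⊤ (fun i => (ψ i : G → ℤ_[p])) m) ≤ h := by
    rw [IK.h2_const hG ρ ψ hψ hi hI m]; exact hh
  constructor
  · intro y hy hf
    obtain ⟨a, ⟨j, hj⟩, Θ, hΘ, h0, hlead⟩ := exists_leading hG ρ ψ hψ hI y hf m
    have hane : (fun j => a j y) ≠ 0 := fun h => hj (congrFun h j)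
    obtain ⟨l, hl, ⟨j', hj'⟩, -, hl2⟩ := DLScore_pick _ _ hane hane
    exact DLScore_choose hG ρ ψ hψ hi m h 1 hhm Θ hΘ h0 y (DLScore_mem_Jlev ψ m y hy) l j' hj'
      (DLScore_spec m l hl (fun j => a j y) (Θ y) (hlead y) hl2) (by omega)
  · intro u b hu hf hb hb'
    obtain ⟨a, ⟨j, hj⟩, Θ, hΘ, h0, hlead⟩ := exists_leading hG ρ ψ hψ hI u hf m
    have hane : (fun j => a j u) ≠ 0 := fun h => hj (congrFun h j)
    choose c hc using hb
    have hcne : (fun j => PadicInt.toZMod (c j)) ≠ 0 := by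
      intro h
      obtain ⟨i, hi'⟩ := hb'
      apply hi'
      have h1 : PadicInt.toZMod (c i) = 0 := congrFun h i
      have h2 : c i ∈ RingHom.ker (PadicInt.toZMod : ℤ_[p] →+* ZMod p) := h1
      rw [PadicInt.ker_toZMod, PadicInt.maximalIdeal_eq_span_p, Ideal.mem_span_singleton] at h2
      obtain ⟨d, hd⟩ := h2
      refine ⟨d, ?_⟩
      rw [hc i, hd, ← mul_assoc, ← pow_succ]
      congr 2
      omega
    obtain ⟨l, hl, ⟨j', hj'⟩, hl1, hl2⟩ := DLScore_pick _ _ hcne hane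
    -- the element `y`
    have hψmul : ∀ i x y, (ψ i : G → ℤ_[p]) (x * y) = (ψ i : G → ℤ_[p]) x +
      (ψ i : G → ℤ_[p]) y := fun i => (ψ i).2.2
    have hψone : ∀ i, (ψ i : G → ℤ_[p]) 1 = 0 := by
      intro i
      have := hψmul i 1 1
      rw [mul_one] at this
      simpa using this
    have hψinv : ∀ i x, (ψ i : G → ℤ_[p]) x⁻¹ = - (ψ i : G → ℤ_[p]) x := by
      intro i x
      have := hψmul i x x⁻¹
      rw [mul_inv_cancel, hψone] at this
      linear_combination -this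
    have hy : ∀ i, (p : ℤ_[p]) ^ m ∣ (ψ i : G → ℤ_[p]) (b * u * b⁻¹ * u⁻¹) := by
      intro i
      rw [hψmul, hψmul, hψmul, hψinv, hψinv, hu i]
      simp
    have hau : redm p ψ m u = 1 := by
      simp only [redm, MonoidHom.coe_mk, OneHom.coe_mk]
      rw [← ofAdd_zero]; congr 1; funext j
      simp [hu j]
    have hΘ1 : Θ 1 = 0 := by
      have := hΘ.2 1 1
      rw [mul_one, map_one, one_mul] at this
      simpa using this
    have hTu : Tm p ψ m u = 1 := by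
      simp [Tm, TA, hau]
      rfl
    have hΘu : Θ u⁻¹ = - Θ u := by
      have := hΘ.2 u u⁻¹
      rw [mul_inv_cancel, hΘ1, hTu, one_mul] at this
      linear_combination -this
    have hconj := DLScore_conj (redm p ψ m) Θ hΘ b u hau
    have hTc : Tm p ψ m (b * u * b⁻¹) = 1 := by
      rw [map_mul, map_mul, hTu, mul_one, ← map_mul, mul_inv_cancel, map_one]
    have hΘy : Θ (b * u * b⁻¹ * u⁻¹) = (Tm p ψ m b - 1) * Θ u := by
      rw [hΘ.2, hTc, hconj, hΘu]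
      show TA p (redm p ψ m) b * Θ u + 1 * -Θ u = (TA p (redm p ψ m) b - 1) * Θ u
      ring
    refine DLScore_choose hG ρ ψ hψ hi m h (p ^ (m - 1) + 1) hhm Θ hΘ h0 _
      (DLScore_mem_Jlev ψ m _ hy) l j' hj' ?_ (by omega)
    rw [hΘy, map_mul]
    refine HasOrd.mul ?_ (DLScore_spec m l hl (fun j => a j u) (Θ u) (hlead u) hl2)
    have hTb : Tm p ψ m b - 1 = tt p (fun i => PadicInt.toZModPow m ((ψ i : G → ℤ_[p]) b)) := rfl
    rw [hTb, DLScore_gmap_tt]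
    have hval : DLScore_lam p m l (fun i => PadicInt.toZModPow m ((ψ i : G → ℤ_[p]) b)) =
        PadicInt.toZModPow m ((p : ℤ_[p]) ^ (m - 1) * ∑ j, (l j : ℤ_[p]) * c j) := by
      show ∑ j, (l j : ZMod (p ^ m)) * PadicInt.toZModPow m ((ψ j : G → ℤ_[p]) b) = _
      rw [Finset.mul_sum, map_sum]
      refine Finset.sum_congr rfl fun j _ => ?_
      rw [hc j, map_mul, map_mul, map_mul, map_natCast]
      ring
    rw [hval]
    refine hasOrd_tt m (m - 1) _ ?_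
    rw [← IsLocalRing.notMem_maximalIdeal, ← PadicInt.ker_toZMod, RingHom.mem_ker, map_sum]
    intro h5
    apply hl1
    rw [← h5]
    refine Finset.sum_congr rfl fun j _ => ?_
    rw [map_mul, map_natCast]

end Pool.Agent.RFA
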