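import Mathlib

/-!
# Residually finite groups without infinite abelian subgroups: definitions

See `BLUEPRINT.md`.  Everything is relative to an odd prime `p`.
-/

set_option autoImplicit false

namespace Pool.Agent.RFA

open Topology Module

noncomputable section

/-! ## Projective pro-`p` groups -/

section Basic

variable (p : ℕ) (G : Type) [Group G] [TopologicalSpace G]

/-- `H²(G; M) = 0` in cochain form, for all finite `p`-primary `G`-modules `M`. -/
def H2zero : Prop :=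
  ∀ (M : Type) [AddCommGroup M] [Finite M] (a : G →* AddMonoid.End M),
    (∃ n : ℕ, Nat.card M = p ^ n) →
    IsLocallyConstant (fun g : G => a g) →
    ∀ c : G → G → M, IsLocallyConstant (fun x : G × G => c x.1 x.2) →
      (∀ x y z, a x (c y z) + c x (y * z) = c (x * y) z + c x y) →
      ∃ h : G → M, IsLocallyConstant h ∧ ∀ x y, c x y = h x + a x (h y) - h (x * y)

/-- Locally constant homomorphisms `G → ZMod p`. -/
def Hom1 : Submodule (ZMod p) (G → ZMod p) where
  carrier := {f | IsLocallyConstant f ∧ ∀ x y, f (x * y) = f x + f y}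
  zero_mem' := ⟨IsLocallyConstant.const 0, by simp⟩
  add_mem' := by
    rintro f g ⟨hf, hf'⟩ ⟨hg, hg'⟩
    refine ⟨hf.add hg, fun x y => ?_⟩
    simp only [Pi.add_apply, hf', hg']; abel
  smul_mem' := by
    rintro c f ⟨hf, hf'⟩
    refine ⟨hf.comp (fun t => c * t), fun x y => ?_⟩
    simp only [Pi.smul_apply, smul_eq_mul, hf', mul_add]

end Basic

section Basic2

/-- The only properties of the free pro-`p` group (of rank `δ + 1`) that are used. -/
structure ProFree (p δ : ℕ) (G : Type) [Group G] [TopologicalSpace G] : Prop where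
  compact : CompactSpace G
  t2 : T2Space G
  basis : ∀ U ∈ 𝓝 (1 : G), ∃ N : Subgroup G,
    N.Normal ∧ IsOpen (N : Set G) ∧ (N : Set G) ⊆ U ∧ ∃ n : ℕ, N.index = p ^ n
  h2 : ∀ J : Subgroup G, IsOpen (J : Set G) → H2zero p ↥J
  fin : ∀ J : Subgroup G, IsOpen (J : Set G) → Module.Finite (ZMod p) (Hom1 p ↥J)
  rank : ∀ J : Subgroup G, IsOpen (J : Set G) →
    finrank (ZMod p) (Hom1 p ↥J) = 1 + δ * J.index

end Basic2

/-! ## Presentations, admissible open subgroups, the numerical invariant `h2` -/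

section Pres

variable (p : ℕ) {G : Type} [Group G] [TopologicalSpace G] {I : Type}

/-- The closed normal subgroup generated by the relators `r i ^ p ^ e i`. -/
def Rel [IsTopologicalGroup G] (r : I → G) (e : I → ℕ) : Subgroup G :=
  (Subgroup.normalClosure (Set.range fun i => r i ^ p ^ e i)).topologicalClosure

/-- `J` is open, contains the relators, and every `r i` has all its cycles on `G / J` of length
exactly `p ^ e i`. -/
structure Adm [IsTopologicalGroup G] (r : I → G) (e : I → ℕ) (J : Subgroup G) : Prop where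
  isOpen : IsOpen (J : Set G)
  rel_le : Rel p r e ≤ J
  ord : ∀ (i : I) (x : G) (a : ℕ), x * r i ^ a * x⁻¹ ∈ J → p ^ e i ∣ a

/-- Locally constant homomorphisms `J → ZMod p` killing the elements of `R`. -/
def HomR (R J : Subgroup G) : Submodule (ZMod p) (↥J → ZMod p) where
  carrier := {f | f ∈ Hom1 p ↥J ∧ ∀ x : ↥J, (x : G) ∈ R → f x = 0}
  zero_mem' := ⟨(Hom1 p ↥J).zero_mem, by simp⟩
  add_mem' := by
    rintro f g ⟨hf, hf'⟩ ⟨hg, hg'⟩
    exact ⟨(Hom1 p ↥J).add_mem hf hg, fun x hx => by simp [hf' x hx, hg' x hx]⟩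
  smul_mem' := by
    rintro c f ⟨hf, hf'⟩
    exact ⟨(Hom1 p ↥J).smul_mem c hf, fun x hx => by simp [hf' x hx]⟩

/-- `h2 J = (number of relators of J) - dim Hom(J, K) + dim Hom_R(J, K)`
(the dimension of `H²` of the presentation complex). -/
def h2 [IsTopologicalGroup G] [Fintype I] (r : I → G) (e : I → ℕ) (J : Subgroup G) : ℤ :=
  (∑ i, ((J.index / p ^ e i : ℕ) : ℤ)) - finrank (ZMod p) (Hom1 p ↥J)
    + finrank (ZMod p) (HomR p (Rel p r e) J)

end Pres

/-! ## `ℤ_p`-valued characters on subgroups -/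

section Chars

variable (p : ℕ) [Fact p.Prime] {G : Type} [Group G] [TopologicalSpace G]

/-- `φ : G → ℤ_p` restricts to a continuous homomorphism on `J` that kills `R`. -/
structure IsZ (R J : Subgroup G) (φ : G → ℤ_[p]) : Prop where
  cont : ContinuousOn φ (J : Set G)
  mul : ∀ x ∈ J, ∀ y ∈ J, φ (x * y) = φ x + φ y
  rel : ∀ x ∈ R, φ x = 0

/-- `J_m(χ)`, the subgroup of elements of `V` on which all `χ i` are divisible by `p ^ m`
(the closure does nothing when the `χ i` are homomorphisms on `V`). -/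
def Jlev {k : ℕ} (V : Subgroup G) (χ : Fin k → G → ℤ_[p]) (m : ℕ) : Subgroup G :=
  Subgroup.closure {x | x ∈ V ∧ ∀ i, (p : ℤ_[p]) ^ m ∣ χ i x}

/-- Independence mod `p` of the characters `χ i` on `V`. -/
def Indep {k : ℕ} (V : Subgroup G) (χ : Fin k → G → ℤ_[p]) : Prop :=
  ∀ c : Fin k → ZMod p, (∀ x ∈ V, ∑ i, c i * PadicInt.toZMod (χ i x) = 0) → c = 0

/-- The certificate: `h2` is bounded along the tower `J_m(χ)`. -/
def Bdd [IsTopologicalGroup G] {I : Type} [Fintype I] (r : I → G) (e : I → ℕ) {k : ℕ}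
    (V : Subgroup G) (χ : Fin k → G → ℤ_[p]) : Prop :=
  ∃ C : ℤ, ∀ m : ℕ, h2 p r e (Jlev p V χ m) ≤ C

/-- division by `p ^ m` in `ℤ_p` (junk `0` if not divisible) -/
def divp (m : ℕ) (z : ℤ_[p]) : ℤ_[p] :=
  open Classical in if h : (p : ℤ_[p]) ^ m ∣ z then Classical.choose h else 0

end Chars

section Z1sec

variable (p : ℕ) [Fact p.Prime] (G : Type) [Group G] [TopologicalSpace G]

/-- Continuous homomorphisms `G → ℤ_p`. -/
def Z1 : Submodule ℤ_[p] (G → ℤ_[p]) where
  carrier := {φ | Continuous φ ∧ ∀ x y, φ (x * y) = φ x + φ y}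
  zero_mem' := ⟨continuous_const, by simp⟩
  add_mem' := by
    rintro f g ⟨hf, hf'⟩ ⟨hg, hg'⟩
    refine ⟨hf.add hg, fun x y => ?_⟩
    simp only [Pi.add_apply, hf', hg']; ring
  smul_mem' := by
    rintro c f ⟨hf, hf'⟩
    refine ⟨continuous_const.mul hf, fun x y => ?_⟩
    simp only [Pi.smul_apply, smul_eq_mul, hf']; ring

end Z1sec

/-! ## Plain presentations: cup products and the forms `B_z` -/

section Plain

variable (p : ℕ) {G : Type} [Group G] [TopologicalSpace G] {ι : Type}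

/-- `Hom(G, K)` killing the plain relators `ρ i`. -/
def HomP (ρ : ι → G) : Submodule (ZMod p) (G → ZMod p) where
  carrier := {f | f ∈ Hom1 p G ∧ ∀ i, f (ρ i) = 0}
  zero_mem' := ⟨(Hom1 p G).zero_mem, by simp⟩
  add_mem' := by
    rintro f g ⟨hf, hf'⟩ ⟨hg, hg'⟩
    exact ⟨(Hom1 p G).add_mem hf hg, fun x => by simp [hf' x, hg' x]⟩
  smul_mem' := by
    rintro c f ⟨hf, hf'⟩
    exact ⟨(Hom1 p G).smul_mem c hf, fun x => by simp [hf' x]⟩

/-- `Z_2 = H_2`: functionals on relators killing the homomorphisms of `G`. -/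
def Z2 [Fintype ι] (ρ : ι → G) : Submodule (ZMod p) (ι → ZMod p) where
  carrier := {z | ∀ f ∈ Hom1 p G, ∑ i, z i * f (ρ i) = 0}
  zero_mem' := by simp
  add_mem' := by
    intro a b ha hb f hf
    simp [add_mul, Finset.sum_add_distrib, ha f hf, hb f hf]
  smul_mem' := by
    intro c a ha f hf
    simp [mul_assoc, ← Finset.mul_sum, ha f hf]

/-- `h` is a cochain with coboundary (up to sign) `f ∪ g`. -/
def IsCup (f g h : G → ZMod p) : Prop :=
  IsLocallyConstant h ∧ ∀ x y, h (x * y) = h x + h y + f x * g y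

/-- the condition `I_k`: `ξ ↦ (η_j ∪ ξ)_j` from `H¹` to `(H²)^k` is onto -/
def IK (ρ : ι → G) {k : ℕ} (η : Fin k → G → ZMod p) : Prop :=
  ∀ c : Fin k → ι → ZMod p, ∃ ξ ∈ HomP p ρ, ∃ h : Fin k → G → ZMod p,
    (∀ j, IsCup p (η j) ξ (h j)) ∧ ∀ j i, h j (ρ i) = c j i

/-- `η ∪ ξ = 0` in `H²` -/
def CupZero (ρ : ι → G) (η ξ : G → ZMod p) : Prop :=
  ∃ h, IsCup p η ξ h ∧ ∀ i, h (ρ i) = 0

/-- value of `⟨z, f ∪ g⟩` (well defined for `z ∈ Z2`) -/
def cupVal [Fintype ι] (ρ : ι → G) (z : ι → ZMod p) (f g : G → ZMod p) : ZMod p :=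
  open Classical in
  if h : ∃ h, IsCup p f g h then ∑ i, z i * (Classical.choose h) (ρ i) else 0

/-- rank of the bilinear form `B_z` on `H¹ = HomP ρ` is at least `n`: there are `n` vectors on each
side with identity Gram matrix. -/
def RankGE [Fintype ι] (ρ : ι → G) (z : ι → ZMod p) (n : ℕ) : Prop :=
  ∃ f g : Fin n → G → ZMod p, (∀ a, f a ∈ HomP p ρ) ∧ (∀ a, g a ∈ HomP p ρ) ∧
    ∀ a b, cupVal p ρ z (f a) (g b) = if a = b then 1 else 0

end Plain

/-! ## Double coset representatives of an open subgroup -/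

section PPsec

variable (p : ℕ) {G : Type} [Group G] {I : Type}

/-- every cycle of `r i` on `G / V` has length exactly `p ^ c i`. -/
def Cyc (r : I → G) (c : I → ℕ) (V : Subgroup G) : Prop :=
  ∀ (i : I) (x : G) (a : ℕ), x * r i ^ a * x⁻¹ ∈ V ↔ p ^ c i ∣ a

/-- `ρ l = x l * r (idx l) ^ p ^ c (idx l) * (x l)⁻¹`, where for each `i` the `x l` with `idx l = i`
are representatives of the double cosets `V \ G / ⟨r i⟩`. -/
structure PP (r : I → G) (c : I → ℕ) (V : Subgroup G) {ι : Type} (ρ : ι → ↥V) (idx : ι → I)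
    (x : ι → G) : Prop where
  rho_eq : ∀ l, (ρ l : G) = x l * r (idx l) ^ p ^ c (idx l) * (x l)⁻¹
  cover : ∀ (i : I) (g : G), ∃ l, idx l = i ∧ ∃ j ∈ V, ∃ a : ℕ, g = j * x l * r i ^ a
  uniq : ∀ l l', idx l = idx l' → (∃ j ∈ V, ∃ a : ℕ, x l' = j * x l * r (idx l) ^ a) → l = l'

end PPsec

/-! ## Cocycles with coefficients in a commutative ring -/

section Cocycles

variable {G : Type} [Group G] [TopologicalSpace G] {Λ : Type} [CommRing Λ]

/-- Locally constant 1-cocycles `Θ(xy) = Θ(x) + T(x) Θ(y)`. -/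
def Coc (T : G →* Λ) : Submodule Λ (G → Λ) where
  carrier := {Θ | IsLocallyConstant Θ ∧ ∀ x y, Θ (x * y) = Θ x + T x * Θ y}
  zero_mem' := ⟨IsLocallyConstant.const 0, by simp⟩
  add_mem' := by
    rintro f g ⟨hf, hf'⟩ ⟨hg, hg'⟩
    refine ⟨hf.add hg, fun x y => ?_⟩
    simp only [Pi.add_apply, hf', hg']; ring
  smul_mem' := by
    rintro c f ⟨hf, hf'⟩
    refine ⟨hf.comp (fun t => c * t), fun x y => ?_⟩
    simp only [Pi.smul_apply, smul_eq_mul, hf']; ring

/-- Values of cocycles on the relators `ρ i`. -/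
def Dm {ι : Type} (ρ : ι → G) (T : G →* Λ) : Submodule Λ (ι → Λ) where
  carrier := {v | ∃ Θ ∈ Coc T, ∀ i, Θ (ρ i) = v i}
  zero_mem' := ⟨0, (Coc T).zero_mem, by simp⟩
  add_mem' := by
    rintro a b ⟨f, hf, hf'⟩ ⟨g, hg, hg'⟩
    exact ⟨f + g, (Coc T).add_mem hf hg, fun i => by simp [hf' i, hg' i]⟩
  smul_mem' := by
    rintro c a ⟨f, hf, hf'⟩
    exact ⟨c • f, (Coc T).smul_mem c hf, fun i => by simp [hf' i]⟩

/-- `{y : (T (r i) - 1) y i = 0}` -/
def C2 {I : Type} (r : I → G) (T : G →* Λ) : Submodule Λ (I → Λ) where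
  carrier := {y | ∀ i, (T (r i) - 1) * y i = 0}
  zero_mem' := by simp
  add_mem' := by
    intro a b ha hb i
    rw [Pi.add_apply, mul_add, ha i, hb i, add_zero]
  smul_mem' := by
    intro c a ha i
    rw [Pi.smul_apply, smul_eq_mul, mul_left_comm, ha i, mul_zero]

end Cocycles

/-! ## Group algebras of finite abelian `p`-groups -/

section GroupAlgebra

variable (p : ℕ) (A : Type) [AddCommGroup A]

/-- the group algebra `K[A]` -/
abbrev GA := AddMonoidAlgebra (ZMod p) A

variable {A}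

/-- the tautological character `x ↦ [a x]` -/
def TA {G : Type} [Group G] (a : G →* Multiplicative A) : G →* GA p A :=
  (AddMonoidAlgebra.of (ZMod p) A).comp a

/-- augmentation -/
def aug : GA p A →ₐ[ZMod p] ZMod p :=
  AddMonoidAlgebra.lift (ZMod p) (ZMod p) A 1

/-- the map induced by a homomorphism `A → A'` -/
def gmap {A' : Type} [AddCommGroup A'] (f : A →+ A') : GA p A →ₐ[ZMod p] GA p A' :=
  AddMonoidAlgebra.mapDomainAlgHom (ZMod p) (ZMod p) f

/-- the involution `[a] ↦ [-a]` -/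
def ginv : GA p A →ₐ[ZMod p] GA p A :=
  gmap p (negAddMonoidHom : A →+ A)

/-- `[a] - 1` -/
def tt (a : A) : GA p A := AddMonoidAlgebra.single a 1 - 1

/-- the coefficient at `0` -/
def coef0 (b : GA p A) : ZMod p := b.coeff 0

/-- the augmentation ideal -/
def mI (A : Type) [AddCommGroup A] : Ideal (GA p A) := RingHom.ker (aug p (A := A))

/-- the uniformizer of `K[Z/p^m]` -/
def tau (m : ℕ) : GA p (ZMod (p ^ m)) := tt p (1 : ZMod (p ^ m))

/-- `b` is a unit times `tau ^ j` -/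
def HasOrd (m : ℕ) (b : GA p (ZMod (p ^ m))) (j : ℕ) : Prop :=
  ∃ u : GA p (ZMod (p ^ m)), IsUnit u ∧ b = u * tau p m ^ j

end GroupAlgebra

/-! ## The character `G → (Z/p^m)^k` and its cocycles -/

section Tchi

variable (p : ℕ) [Fact p.Prime] {G : Type} [Group G] [TopologicalSpace G]

/-- reduction of `χ` modulo `p ^ m` -/
def redm {k : ℕ} (χ : Fin k → Z1 p G) (m : ℕ) : G →* Multiplicative (Fin k → ZMod (p ^ m)) where
  toFun x := Multiplicative.ofAdd fun i => PadicInt.toZModPow m ((χ i : G → ℤ_[p]) x)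
  map_one' := by
    rw [← ofAdd_zero]; congr 1; funext i
    have h := (χ i).2.2 1 1
    rw [mul_one] at h
    have h0 : (χ i : G → ℤ_[p]) 1 = 0 := by
      have : (χ i : G → ℤ_[p]) 1 + 0 = (χ i : G → ℤ_[p]) 1 + (χ i : G → ℤ_[p]) 1 := by
        rw [add_zero]; exact h
      exact (add_left_cancel this).symm
    simp [h0]
  map_mul' x y := by
    rw [← ofAdd_add]; congr 1; funext i
    rw [(χ i).2.2 x y, map_add]; rfl

/-- the rank one module of `χ` modulo `p ^ m` -/
def Tm {k : ℕ} (χ : Fin k → Z1 p G) (m : ℕ) : G →* GA p (Fin k → ZMod (p ^ m)) :=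
  TA p (redm p χ m)

/-- reduction mod `p` of a `ℤ_p`-valued function -/
def redp (φ : G → ℤ_[p]) : G → ZMod p := fun x => PadicInt.toZMod (φ x)

end Tchi

/-! ## The `Λ`-valued form `b` -/

section IsBsec

variable (p : ℕ) {G : Type} [Group G] [TopologicalSpace G] {I A : Type} [AddCommGroup A]

/-- `b = Σ κ_i (Φ(r_i) + Ψ_i^ι Θ(r_i))`, where `Φ(xy) = Φ(x) + Φ(y) + Θ'(x)^ι T(x) Θ(y)` and
`Θ'(r_i) = (T(r_i) - 1) Ψ_i`. -/
def IsB [Fintype I] (a : G →* Multiplicative A) (r : I → G) (κ : I → ZMod p)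
    (Θ' Θ : G → GA p A) (b : GA p A) : Prop :=
  ∃ (Φ : G → GA p A) (Ψ : I → GA p A), IsLocallyConstant Φ ∧
    (∀ x y, Φ (x * y) = Φ x + Φ y + ginv p (Θ' x) * TA p a x * Θ y) ∧
    (∀ i, Θ' (r i) = (TA p a (r i) - 1) * Ψ i) ∧
    b = ∑ i, κ i • (Φ (r i) + ginv p (Ψ i) * Θ (r i))

end IsBsec

/-! ## Stages -/

section StageSec

variable (p : ℕ) [Fact p.Prime] {G : Type} [Group G] [TopologicalSpace G]

/-- elements of `L` on which all `ℤ_p`-characters of `L` (killing `R`) are divisible by `p ^ m` -/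
def Kap (R L : Subgroup G) (m : ℕ) : Subgroup G :=
  Subgroup.closure {x | x ∈ L ∧ ∀ φ : G → ℤ_[p], IsZ p R L φ → (p : ℤ_[p]) ^ m ∣ φ x}

/-- A stage of the construction: finitely many elements `r i`, relators `r i ^ p ^ e i`, an
admissible open subgroup `V` and a certificate `χ : V → ℤ_p³`. -/
structure Stage (δ : ℕ) (G : Type) [Group G] [TopologicalSpace G] [IsTopologicalGroup G] where
  I : Type
  fin : Fintype I
  r : I → G
  e : I → ℕ
  V : Subgroup G
  χ : Fin 3 → G → ℤ_[p]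
  adm : Adm p r e V
  isZ : ∀ i, IsZ p (Rel p r e) V (χ i)
  indep : Indep p V χ
  bdd : Bdd p r e V χ
  slack : ∑ i, (1 : ℚ) / (p : ℚ) ^ e i < δ

attribute [instance] Stage.fin

/-- the closed normal subgroup of a stage -/
def Stage.R {δ : ℕ} {G : Type} [Group G] [TopologicalSpace G] [IsTopologicalGroup G]
    (S : Stage p δ G) : Subgroup G := Rel p S.r S.e

/-- `θ` is a continuous homomorphism `R → ZMod p` -/
structure IsK (R : Subgroup G) (θ : G → ZMod p) : Prop where
  cont : ContinuousOn θ (R : Set G)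
  mul : ∀ x ∈ R, ∀ y ∈ R, θ (x * y) = θ x + θ y

end StageSec

end

end Pool.Agent.RFA
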