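import Mathlib

set_option autoImplicit false

namespace Pool.Agent.RFA

open Module

section

variable (p : ℕ) [Fact p.Prime] {α : Type} (H : Subgroup (FreeGroup α))


/-- additive functions on the subgroup `H` -/
def AddD : Submodule (ZMod p) (↥H → (ZMod p)) where
  carrier := {f | ∀ x y, f (x * y) = f x + f y}
  zero_mem' := by simp
  add_mem' := by
    intro f g hf hg x y
    simp only [Pi.add_apply, hf x y, hg x y]; abel
  smul_mem' := by
    intro c f hf x y
    simp only [Pi.smul_apply, smul_eq_mul, hf x y, mul_add]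

/-- the cocycles `E : F → (F/H → (ZMod p))` -/
def CocE : Submodule (ZMod p) (FreeGroup α → (FreeGroup α ⧸ H) → (ZMod p)) where
  carrier := {E | ∀ g h x, E (g * h) x = E h x + E g (h • x)}
  zero_mem' := by simp
  add_mem' := by
    intro f g hf hg x y z
    simp only [Pi.add_apply, hf x y, hg x y]; abel
  smul_mem' := by
    intro c f hf x y z
    simp only [Pi.smul_apply, smul_eq_mul, hf x y, mul_add]

lemma CocE.one {E : FreeGroup α → (FreeGroup α ⧸ H) → (ZMod p)} (hE : E ∈ CocE p H) (x : (FreeGroup α ⧸ H)) : E 1 x = 0 := by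
  have h := hE 1 1 x
  simp only [mul_one, one_smul] at h
  simpa using h

lemma CocE.inv {E : FreeGroup α → (FreeGroup α ⧸ H) → (ZMod p)} (hE : E ∈ CocE p H) (g : FreeGroup α) (x : (FreeGroup α ⧸ H)) :
    E g⁻¹ x = - E g (g⁻¹ • x) := by
  have h := hE g g⁻¹ x
  rw [mul_inv_cancel, CocE.one p H hE] at h
  exact eq_neg_of_add_eq_zero_left h.symm

lemma CocE.ext_gen {E : FreeGroup α → (FreeGroup α ⧸ H) → (ZMod p)} (hE : E ∈ CocE p H)
    (h0 : ∀ i x, E (FreeGroup.of i) x = 0) : E = 0 := by
  have key : ∀ g : FreeGroup α, ∀ x, E g x = 0 := by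
    intro g
    induction g using FreeGroup.induction_on with
    | C1 => exact CocE.one p H hE
    | of i => exact h0 i
    | inv_of i hi =>
      intro x
      rw [CocE.inv p H hE, hi, neg_zero]
    | mul g h hg hh =>
      intro x
      rw [hE g h x, hg, hh, add_zero]
  funext g x
  exact key g x

/-- evaluation at generators -/
def evGen : ↥(CocE p H) →ₗ[(ZMod p)] (α → (FreeGroup α ⧸ H) → (ZMod p)) where
  toFun E := fun i => E.1 (FreeGroup.of i)
  map_add' _ _ := rfl
  map_smul' _ _ := rfl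

lemma evGen_injective : Function.Injective (evGen p H) := by
  rw [injective_iff_map_eq_zero]
  intro E hE
  apply Subtype.ext
  exact CocE.ext_gen p H E.2 (fun i x => congrFun (congrFun hE i) x)

/-- the permutation attached to a generator -/
def permGen (θ : α → (FreeGroup α ⧸ H) → (ZMod p)) (i : α) : Equiv.Perm ((FreeGroup α ⧸ H) × (ZMod p)) where
  toFun z := (FreeGroup.of i • z.1, z.2 + θ i z.1)
  invFun z := ((FreeGroup.of i)⁻¹ • z.1, z.2 - θ i ((FreeGroup.of i)⁻¹ • z.1))
  left_inv z := by simp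
  right_inv z := by simp

lemma evGen_surjective : Function.Surjective (evGen p H) := by
  intro θ
  let T : FreeGroup α →* Equiv.Perm ((FreeGroup α ⧸ H) × (ZMod p)) := FreeGroup.lift (permGen p H θ)
  have key : ∀ g : FreeGroup α, ∀ x : (FreeGroup α ⧸ H), ∀ k : (ZMod p), T g (x, k) = (g • x, k + (T g (x, 0)).2) := by
    intro g
    induction g using FreeGroup.induction_on with
    | C1 => intro x k; simp
    | of i =>
      intro x k
      simp [T, permGen]
    | inv_of i hi =>
      intro x k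
      simp only [T, map_inv, FreeGroup.lift_apply_of]
      change ((permGen p H θ i).symm (x, k)) = _
      have e : ((permGen p H θ i)⁻¹ (x, 0)) = (permGen p H θ i).symm (x, 0) := rfl
      rw [e]
      simp [permGen, sub_eq_add_neg]
    | mul g h hg hh =>
      intro x k
      rw [map_mul, Equiv.Perm.mul_apply, Equiv.Perm.mul_apply, hh x k, hh x 0, hg, hg _ (0 + _)]
      simp only [mul_smul, zero_add, add_assoc]
  refine ⟨⟨fun g x => (T g (x, 0)).2, ?_⟩, ?_⟩
  · intro g h x
    change (T (g * h) (x, 0)).2 = (T h (x, 0)).2 + (T g (h • x, 0)).2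
    rw [map_mul, Equiv.Perm.mul_apply, key h x 0, key g, zero_add]
  · funext i x
    simp [evGen, T, permGen]

lemma smul_base (v : ↥H) : ((v : FreeGroup α) • ((1 : FreeGroup α) : (FreeGroup α ⧸ H))) = ((1 : FreeGroup α) : (FreeGroup α ⧸ H)) := by
  rw [MulAction.Quotient.smul_coe]
  refine (QuotientGroup.eq.2 ?_)
  simp

lemma smul_base' (v : FreeGroup α) : (v • ((1 : FreeGroup α) : (FreeGroup α ⧸ H))) = ((v : FreeGroup α) : (FreeGroup α ⧸ H)) := by
  rw [MulAction.Quotient.smul_coe]
  simp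

/-- restriction to the subgroup -/
def resE : ↥(CocE p H) →ₗ[(ZMod p)] ↥(AddD p H) where
  toFun E := ⟨fun u => E.1 u ((1 : FreeGroup α) : (FreeGroup α ⧸ H)), by
    intro u v
    have h1 := E.2 u v ((1 : FreeGroup α) : (FreeGroup α ⧸ H))
    rw [smul_base] at h1
    change E.1 ((u * v : ↥H) : FreeGroup α) _ = _
    rw [Subgroup.coe_mul, h1, add_comm]⟩
  map_add' _ _ := rfl
  map_smul' _ _ := rfl

lemma AddD.one {f : ↥H → (ZMod p)} (hf : f ∈ AddD p H) : f 1 = 0 := by
  have := hf 1 1
  simpa using this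

lemma AddD.inv {f : ↥H → (ZMod p)} (hf : f ∈ AddD p H) (x : ↥H) : f x⁻¹ = - f x := by
  have := hf x⁻¹ x
  rw [inv_mul_cancel, AddD.one p H hf] at this
  exact eq_neg_of_add_eq_zero_left this.symm

lemma resE_surjective : Function.Surjective (resE p H) := by
  intro f
  -- the section
  let s : (FreeGroup α ⧸ H) → FreeGroup α := Quotient.out
  have hs : ∀ x : (FreeGroup α ⧸ H), ((s x : FreeGroup α) : (FreeGroup α ⧸ H)) = x := fun x => Quotient.out_eq' x
  have hmem : ∀ (g : FreeGroup α) (x : (FreeGroup α ⧸ H)), (s (g • x))⁻¹ * (g * s x) ∈ H := by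
    intro g x
    refine QuotientGroup.eq.1 ?_
    rw [hs, ← smul_eq_mul, ← MulAction.Quotient.smul_coe, hs]
  refine ⟨⟨fun g x => f.1 ⟨(s (g • x))⁻¹ * (g * s x), hmem g x⟩, ?_⟩, ?_⟩
  · intro g h x
    have e : (⟨(s ((g * h) • x))⁻¹ * (g * h * s x), hmem (g * h) x⟩ : ↥H) =
        ⟨(s (g • h • x))⁻¹ * (g * s (h • x)), hmem g (h • x)⟩ *
        ⟨(s (h • x))⁻¹ * (h * s x), hmem h x⟩ := by
      apply Subtype.ext
      simp only [mul_smul, Subgroup.coe_mul]
      group
    change f.1 _ = f.1 _ + f.1 _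
    rw [e, f.2]
    exact add_comm _ _
  · apply Subtype.ext
    funext u
    change f.1 _ = f.1 u
    have h1 : s ((1 : FreeGroup α) : (FreeGroup α ⧸ H)) ∈ H := by
      have := QuotientGroup.eq.1 (hs ((1 : FreeGroup α) : (FreeGroup α ⧸ H))).symm
      simpa using this
    have e : (⟨(s ((u : FreeGroup α) • ((1 : FreeGroup α) : (FreeGroup α ⧸ H))))⁻¹ *
        ((u : FreeGroup α) * s ((1 : FreeGroup α) : (FreeGroup α ⧸ H))), hmem u _⟩ : ↥H) =
        (⟨s ((1 : FreeGroup α) : (FreeGroup α ⧸ H)), h1⟩ : ↥H)⁻¹ * (u * ⟨s ((1 : FreeGroup α) : (FreeGroup α ⧸ H)), h1⟩) := by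
      apply Subtype.ext
      simp only [smul_base, Subgroup.coe_mul, Subgroup.coe_inv]
    rw [e, f.2, f.2, AddD.inv p H f.2]
    abel

/-- principal cocycles -/
def prE : ((FreeGroup α ⧸ H) → (ZMod p)) →ₗ[(ZMod p)] ↥(CocE p H) where
  toFun φ := ⟨fun g x => φ (g • x) - φ x, by
    intro g h x
    simp only [mul_smul]
    abel⟩
  map_add' a b := by
    apply Subtype.ext
    funext g x
    simp only [Pi.add_apply, Submodule.coe_add]
    abel
  map_smul' c a := by
    apply Subtype.ext
    funext g x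
    simp only [Pi.smul_apply, smul_eq_mul, RingHom.id_apply, Submodule.coe_smul_of_tower]
    ring

lemma ker_prE_eq : LinearMap.ker (prE p H) = (ZMod p) ∙ (fun _ : (FreeGroup α ⧸ H) => (1 : (ZMod p))) := by
  ext φ
  rw [LinearMap.mem_ker, Submodule.mem_span_singleton]
  constructor
  · intro h
    have h' : ∀ (g : FreeGroup α) (x : (FreeGroup α ⧸ H)), φ (g • x) - φ x = 0 := fun g x =>
      congrFun (congrFun (congrArg Subtype.val h) g) x
    refine ⟨φ ((1 : FreeGroup α) : (FreeGroup α ⧸ H)), ?_⟩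
    funext x
    induction x using QuotientGroup.induction_on with
    | H g =>
      have := h' g ((1 : FreeGroup α) : (FreeGroup α ⧸ H))
      rw [smul_base'] at this
      simp only [Pi.smul_apply, smul_eq_mul, mul_one]
      exact (sub_eq_zero.1 this).symm
  · rintro ⟨c, rfl⟩
    apply Subtype.ext
    funext g x
    simp [prE]

lemma ker_resE_eq : LinearMap.ker (resE p H) = LinearMap.range (prE p H) := by
  ext E
  rw [LinearMap.mem_ker, LinearMap.mem_range]
  constructor
  · intro h
    have h' : ∀ u : ↥H, E.1 u ((1 : FreeGroup α) : (FreeGroup α ⧸ H)) = 0 := fun u =>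
      congrFun (congrArg Subtype.val h) u
    refine ⟨fun x => E.1 (Quotient.out x) ((1 : FreeGroup α) : (FreeGroup α ⧸ H)), ?_⟩
    have hφ : ∀ g : FreeGroup α, E.1 (Quotient.out ((g : FreeGroup α) : (FreeGroup α ⧸ H))) ((1 : FreeGroup α) : (FreeGroup α ⧸ H)) =
        E.1 g ((1 : FreeGroup α) : (FreeGroup α ⧸ H)) := by
      intro g
      have hm : g⁻¹ * (Quotient.out ((g : FreeGroup α) : (FreeGroup α ⧸ H))) ∈ H := by
        refine QuotientGroup.eq.1 ?_
        exact (Quotient.out_eq' _).symm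
      have e : (Quotient.out ((g : FreeGroup α) : (FreeGroup α ⧸ H))) = g * (g⁻¹ * (Quotient.out ((g : FreeGroup α) : (FreeGroup α ⧸ H)))) := by
        simp
      rw [e, E.2 g _ _]
      have h2 := h' ⟨_, hm⟩
      have h3 := smul_base H ⟨_, hm⟩
      simp only at h2 h3
      rw [h2, h3, zero_add]
    apply Subtype.ext
    funext g x
    induction x using QuotientGroup.induction_on with
    | H y =>
      change E.1 (Quotient.out (g • ((y : FreeGroup α) : (FreeGroup α ⧸ H)))) _ -
        E.1 (Quotient.out ((y : FreeGroup α) : (FreeGroup α ⧸ H))) _ = E.1 g _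
      rw [MulAction.Quotient.smul_coe, hφ, hφ, smul_eq_mul, E.2 g y _, smul_base']
      abel
  · rintro ⟨φ, rfl⟩
    apply Subtype.ext
    funext u
    change φ ((u : FreeGroup α) • ((1 : FreeGroup α) : (FreeGroup α ⧸ H))) - φ _ = 0
    rw [smul_base, sub_self]

theorem schreier_finrank [Fintype α] (hH : H.index ≠ 0) :
    (finrank (ZMod p) ↥(AddD p H) : ℤ) = 1 + (Fintype.card α - 1 : ℤ) * H.index := by
  have : H.FiniteIndex := ⟨hH⟩
  have hfin : Finite (FreeGroup α ⧸ H) := inferInstance
  have : Fintype (FreeGroup α ⧸ H) := Fintype.ofFinite (FreeGroup α ⧸ H)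
  have hcard : Fintype.card (FreeGroup α ⧸ H) = H.index := by
    rw [Subgroup.index_eq_card, Nat.card_eq_fintype_card]
  let e : ↥(CocE p H) ≃ₗ[(ZMod p)] (α → (FreeGroup α ⧸ H) → (ZMod p)) :=
    LinearEquiv.ofBijective (evGen p H) ⟨evGen_injective p H, evGen_surjective p H⟩
  have hfd : Module.Finite (ZMod p) ↥(CocE p H) := Module.Finite.equiv e.symm
  have h1 : finrank (ZMod p) ↥(CocE p H) = Fintype.card α * H.index := by
    rw [LinearEquiv.finrank_eq e, Module.finrank_pi_fintype]
    simp [hcard]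
  have h2 := LinearMap.finrank_range_add_finrank_ker (resE p H)
  rw [LinearMap.range_eq_top.2 (resE_surjective p H), finrank_top, ker_resE_eq, h1] at h2
  have h3 := LinearMap.finrank_range_add_finrank_ker (prE p H)
  have hne : (fun _ : (FreeGroup α ⧸ H) => (1 : (ZMod p))) ≠ 0 := by
    intro h
    have := congrFun h ((1 : FreeGroup α) : (FreeGroup α ⧸ H))
    simp at this
  rw [ker_prE_eq, finrank_span_singleton hne] at h3
  have h4 : finrank (ZMod p) ((FreeGroup α ⧸ H) → (ZMod p)) = H.index := by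
    rw [Module.finrank_pi, hcard]
  rw [h4] at h3
  have h2' : (finrank (ZMod p) ↥(AddD p H) : ℤ) + (finrank (ZMod p) ↥(LinearMap.range (prE p H)) : ℤ) =
      Fintype.card α * H.index := by exact_mod_cast h2
  have h3' : (finrank (ZMod p) ↥(LinearMap.range (prE p H)) : ℤ) + 1 = H.index := by exact_mod_cast h3
  linarith [h2', h3', sub_mul (Fintype.card α : ℤ) 1 (H.index : ℤ)]

end

end Pool.Agent.RFA
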