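import Pool.Agent.RFA.ProP3
import Pool.Agent.RFA.SchreierDim

set_option autoImplicit false

open scoped Topology Pointwise

namespace Pool.Agent.RFA

open Module

variable (p : ℕ) [Fact p.Prime]

omit [Fact p.Prime] in
/-- approximation of an element of an open subgroup by the free group -/
lemma FP.exists_approx {J : Subgroup (FP p)} (N : PIx p) (hN : FP.ker p N ≤ J) (x : FP p)
    (hx : x ∈ J) : ∃ x0 : Fd, FP.of p x0 ∈ J ∧ FP.proj p N x = toQt p N x0 := by
  obtain ⟨x0, hx0⟩ := toQt_surjective p N (FP.proj p N x)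
  have h1 : x⁻¹ * FP.of p x0 ∈ FP.ker p N := by
    rw [FP.mem_ker, map_mul, map_inv, FP.proj_of, hx0, inv_mul_cancel]
  refine ⟨x0, ?_, hx0.symm⟩
  have := J.mul_mem hx (hN h1)
  simpa using this

/-- the index of an open subgroup can be computed in the free group -/
lemma FP.index_comap {J : Subgroup (FP p)} (hJ : IsOpen (J : Set (FP p))) :
    (J.comap (FP.of p)).index = J.index := by
  rw [Subgroup.index_eq_card, Subgroup.index_eq_card]
  refine Nat.card_congr (Equiv.ofBijective
    (Quotient.map' (FP.of p) ?_) ⟨?_, ?_⟩)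
  · intro x y hxy
    rw [QuotientGroup.leftRel_apply] at hxy ⊢
    simpa using hxy
  · intro x y hxy
    induction x using QuotientGroup.induction_on with
    | H x =>
      induction y using QuotientGroup.induction_on with
      | H y =>
        have h := QuotientGroup.eq.1 hxy
        refine QuotientGroup.eq.2 ?_
        simpa using h
  · intro y
    induction y using QuotientGroup.induction_on with
    | H y =>
      obtain ⟨N, hN⟩ := FP.exists_ker_le p hJ
      obtain ⟨x0, hx0⟩ := toQt_surjective p N (FP.proj p N y)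
      refine ⟨((x0 : Fd) : Fd ⧸ J.comap (FP.of p)), ?_⟩
      change ((FP.of p x0 : FP p) : FP p ⧸ J) = _
      refine (QuotientGroup.eq.2 ?_).symm
      apply hN
      rw [FP.mem_ker, map_mul, map_inv, FP.proj_of, hx0, inv_mul_cancel]

lemma FP.index_ne_zero {J : Subgroup (FP p)} (hJ : IsOpen (J : Set (FP p))) :
    (J.comap (FP.of p)).index ≠ 0 := by
  obtain ⟨N, hN⟩ := FP.exists_ker_le p hJ
  have h1 : N.1 ≤ J.comap (FP.of p) := fun x hx => hN ((FP.of_mem_ker p N x).2 hx)
  obtain ⟨k, hk⟩ := N.2.2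
  have h2 : N.1.index ≠ 0 := by
    rw [hk]
    exact pow_ne_zero _ (Fact.out : p.Prime).ne_zero
  intro h0
  have := Subgroup.index_dvd_of_le h1
  rw [h0] at this
  exact h2 (Nat.eq_zero_of_zero_dvd this)

/-- restriction of locally constant homomorphisms to the free group -/
noncomputable def resHom (J : Subgroup (FP p)) : ↥(Hom1 p ↥J) →ₗ[ZMod p] ↥(AddD p (J.comap (FP.of p))) where
  toFun f := ⟨fun x => f.1 ((FP.of p).subgroupComap J x), by
    intro x y
    change f.1 ((FP.of p).subgroupComap J (x * y)) = _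
    rw [map_mul]
    exact f.2.2 _ _⟩
  map_add' _ _ := rfl
  map_smul' _ _ := rfl

lemma resHom_injective {J : Subgroup (FP p)} (hJ : IsOpen (J : Set (FP p))) :
    Function.Injective (resHom p J) := by
  rw [injective_iff_map_eq_zero]
  intro f hf
  apply Subtype.ext
  funext x
  obtain ⟨N, hNJ, hN⟩ := FP.exists_uniform p hJ (fun z : ↥J × ↥J => f.1 z.1)
    (f.2.1.comp_continuous continuous_fst)
  obtain ⟨x0, hx0J, hx0⟩ := FP.exists_approx p N hNJ x x.2
  have h0 : f.1 ⟨FP.of p x0, hx0J⟩ = 0 := congrFun (congrArg Subtype.val hf) ⟨x0, hx0J⟩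
  have h1 : (x : FP p)⁻¹ * FP.of p x0 ∈ FP.ker p N := by
    rw [FP.mem_ker, map_mul, map_inv, FP.proj_of, hx0, inv_mul_cancel]
  have h2 := hN x 1 (x⁻¹ * ⟨FP.of p x0, hx0J⟩) 1 h1 (Subgroup.one_mem _)
  simp only [mul_inv_cancel_left] at h2
  rw [h0] at h2
  exact h2.symm

lemma resHom_surjective {J : Subgroup (FP p)} (hJ : IsOpen (J : Set (FP p))) :
    Function.Surjective (resHom p J) := by
  intro f
  obtain ⟨W, hW⟩ := FP.exists_ker_le p hJ
  have hWJ : W.1 ≤ J.comap (FP.of p) := fun x hx => hW ((FP.of_mem_ker p W x).2 hx)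
  let JF : Subgroup Fd := J.comap (FP.of p)
  let g : ↥JF →* Multiplicative (ZMod p) :=
    { toFun := fun u => Multiplicative.ofAdd (f.1 u)
      map_one' := congrArg Multiplicative.ofAdd (AddD.one p _ f.2)
      map_mul' := fun u v => congrArg Multiplicative.ofAdd (f.2 u v) }
  let O : Subgroup Fd := g.ker.map JF.subtype
  have hOJ : O ≤ JF := Subgroup.map_subtype_le _
  have hOmem : ∀ u : ↥JF, (u : Fd) ∈ O → f.1 u = 0 := by
    rintro ⟨u, hu⟩ ⟨v, hv, hvu⟩
    have e : g v = 1 := hv
    have e2 : f.1 v = 0 := congrArg Multiplicative.toAdd e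
    simp only [Subgroup.coe_subtype] at hvu
    subst hvu
    exact e2
  have hOidx : O.index ≠ 0 := by
    have h1 : O.index = O.relIndex JF * JF.index := (Subgroup.relIndex_mul_index hOJ).symm
    have h2 : O.relIndex JF = g.ker.index := by
      change (O.subgroupOf JF).index = _
      congr 1
      exact Subgroup.comap_map_eq_self_of_injective JF.subtype_injective _
    have h3 : g.ker.index ≠ 0 := by
      have : Finite (Multiplicative (ZMod p)) := inferInstanceAs (Finite (ZMod p))
      have : Finite g.range := inferInstance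
      rw [Subgroup.index_ker]
      exact Nat.card_pos.ne'
    rw [h1, h2]
    exact mul_ne_zero h3 (FP.index_ne_zero p hJ)
  have hOpow : ∀ x ∈ W.1, x ^ p ^ 1 ∈ O := by
    intro x hx
    refine ⟨⟨x, hWJ hx⟩ ^ p ^ 1, ?_, by simp⟩
    change g (⟨x, hWJ hx⟩ ^ p ^ 1) = 1
    rw [map_pow, pow_one]
    change Multiplicative.ofAdd (p • f.1 ⟨x, hWJ hx⟩) = 1
    rw [nsmul_eq_mul, CharP.cast_eq_zero, zero_mul]
    rfl
  obtain ⟨N', hN'⟩ := PIx.exists_le_of p W O 1 hOpow hOidx
  obtain ⟨N2, hN2⟩ : ∃ N2 : PIx p, N2.1 ≤ N'.1 ∧ N2.1 ≤ W.1 :=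
    ⟨PIx.inf p N' W, PIx.inf_le_left p _ _, PIx.inf_le_right p _ _⟩
  have hNJ : FP.ker p N2 ≤ J := (FP.ker_mono p hN2.2).trans hW
  have hNO : N2.1 ≤ O := hN2.1.trans hN'
  classical
  let H : Qt p N2 → ZMod p := fun q =>
    if hq : (Classical.choose (toQt_surjective p N2 q)) ∈ JF then
      f.1 ⟨Classical.choose (toQt_surjective p N2 q), hq⟩ else 0
  have hHof : ∀ x : ↥JF, H (toQt p N2 x) = f.1 x := by
    intro x
    have hs := Classical.choose_spec (toQt_surjective p N2 (toQt p N2 x))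
    set y := Classical.choose (toQt_surjective p N2 (toQt p N2 x)) with hy
    have hyx : (x : Fd)⁻¹ * y ∈ N2.1 := (toQt_eq_iff p N2 _ _).1 hs.symm
    have hzO : (x : Fd)⁻¹ * y ∈ O := hNO hyx
    have hz : (x : Fd)⁻¹ * y ∈ JF := hOJ hzO
    have hyJ : y ∈ JF := by
      have := JF.mul_mem x.2 hz
      simpa using this
    have e1 : H (toQt p N2 x) = f.1 ⟨y, hyJ⟩ := by
      simp only [H]
      rw [dif_pos hyJ]
    have e2 : (⟨y, hyJ⟩ : ↥JF) = x * ⟨(x : Fd)⁻¹ * y, hz⟩ := by
      apply Subtype.ext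
      simp
    rw [e1, e2, f.2, hOmem ⟨(x : Fd)⁻¹ * y, hz⟩ hzO, add_zero]
  refine ⟨⟨fun x => H (FP.proj p N2 x), ?_, ?_⟩, ?_⟩
  · have hcont : Continuous (fun x : ↥J => FP.proj p N2 (x : FP p)) :=
      (FP.continuous_proj p N2).comp continuous_subtype_val
    exact (IsLocallyConstant.of_discrete H).comp_continuous hcont
  · intro x y
    obtain ⟨x0, hx0J, hx0⟩ := FP.exists_approx p N2 hNJ x x.2
    obtain ⟨y0, hy0J, hy0⟩ := FP.exists_approx p N2 hNJ y y.2
    have hxy : FP.proj p N2 ((x * y : ↥J) : FP p) = toQt p N2 (x0 * y0) := by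
      have : FP.proj p N2 ((x * y : ↥J) : FP p) =
        FP.proj p N2 (x : FP p) * FP.proj p N2 (y : FP p) := rfl
      rw [this, hx0, hy0, map_mul]
    have e1 := hHof ⟨x0, hx0J⟩
    have e2 := hHof ⟨y0, hy0J⟩
    have e3 := hHof (⟨x0, hx0J⟩ * ⟨y0, hy0J⟩)
    simp only at e1 e2
    rw [f.2] at e3
    change H _ = H _ + H _
    rw [hxy, hx0, hy0, e1, e2]
    exact e3
  · apply Subtype.ext
    funext x
    exact hHof x

theorem FP.proFree : ProFree p 2 (FP p) where
  compact := inferInstance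
  t2 := inferInstance
  basis := by
    intro U hU
    obtain ⟨V, hVU, hV, h1⟩ := mem_nhds_iff.1 hU
    obtain ⟨N, hN⟩ := FP.exists_ker_subset p hV h1
    obtain ⟨n, hn⟩ := N.2.2
    refine ⟨FP.ker p N, inferInstance, FP.ker_isOpen p N, hN.trans hVU, n, ?_⟩
    rw [← FP.index_comap p (FP.ker_isOpen p N), ← hn]
    congr 1
    ext x
    exact FP.of_mem_ker p N x
  h2 := fun J hJ => FP.h2zero p hJ
  fin := by
    intro J hJ
    let e := LinearEquiv.ofBijective (resHom p J) ⟨resHom_injective p hJ, resHom_surjective p hJ⟩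
    have h1 := schreier_finrank p (J.comap (FP.of p)) (FP.index_ne_zero p hJ)
    have h2 : 0 < finrank (ZMod p) ↥(AddD p (J.comap (FP.of p))) := by
      have h3 : (0 : ℤ) < finrank (ZMod p) ↥(AddD p (J.comap (FP.of p))) := by
        rw [h1]
        simp only [Fintype.card_fin]
        positivity
      exact_mod_cast h3
    have : Module.Finite (ZMod p) ↥(AddD p (J.comap (FP.of p))) := Module.finite_of_finrank_pos h2
    exact Module.Finite.equiv e.symm
  rank := by
    intro J hJ
    let e := LinearEquiv.ofBijective (resHom p J) ⟨resHom_injective p hJ, resHom_surjective p hJ⟩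
    rw [LinearEquiv.finrank_eq e]
    have h1 := schreier_finrank p (J.comap (FP.of p)) (FP.index_ne_zero p hJ)
    rw [FP.index_comap p hJ] at h1
    simp only [Fintype.card_fin] at h1
    have : (finrank (ZMod p) ↥(AddD p (J.comap (FP.of p))) : ℤ) = ((1 + 2 * J.index : ℕ) : ℤ) := by
      rw [h1]; push_cast; ring
    exact_mod_cast this

end Pool.Agent.RFA
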