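import Pool.Agent.RFA.Defs
import Pool.Agent.RFA.ProP4

set_option autoImplicit false

namespace Pool.Agent.RFA

open Topology Module

/-- The free pro-`p` group of rank `3` exists. -/
theorem exists_proFree (p : ℕ) [Fact p.Prime] :
    ∃ (F : Type) (_ : Group F) (_ : TopologicalSpace F) (_ : IsTopologicalGroup F)
      (ι₀ : FreeGroup (Fin 3) →* F), DenseRange ι₀ ∧ ProFree p 2 F :=
  ⟨FP p, inferInstance, inferInstance, inferInstance, FP.of p, FP.dense_of p, FP.proFree p⟩

end Pool.Agent.RFA
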