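import Mathlib

set_option autoImplicit false

namespace Pool.Agent.RFA

/-- underlying type of the extension attached to a cocycle -/
structure ExtG (M G : Type) where
  m : M
  x : G

section

variable {G M : Type} [Group G] [AddCommGroup M]

/-- the extension group of a normalised 2-cocycle -/
@[reducible] def extGroup (a : G →* AddMonoid.End M) (c : G → G → M)
    (hc : ∀ x y z, a x (c y z) + c x (y * z) = c (x * y) z + c x y) (h1 : c 1 1 = 0) :
    Group (ExtG M G) :=
  letI : Mul (ExtG M G) := ⟨fun s t => ⟨s.m + a s.x t.m + c s.x t.x, s.x * t.x⟩⟩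
  letI : One (ExtG M G) := ⟨⟨0, 1⟩⟩
  letI : Inv (ExtG M G) := ⟨fun s => ⟨-(a s.x⁻¹ s.m) - c s.x⁻¹ s.x, s.x⁻¹⟩⟩
  have hone : ∀ y, c 1 y = 0 := by
    intro y
    have h := hc 1 1 y
    simp only [map_one, AddMonoid.End.coe_one, id_eq, one_mul, h1, add_zero] at h
    -- c 1 y + c 1 y = c 1 y + 0
    simpa using h
  Group.ofLeftAxioms
    (by
      intro s t u
      change ExtG.mk _ _ = ExtG.mk _ _
      have h := hc s.x t.x u.x
      congr 1
      · change s.m + a s.x t.m + c s.x t.x + a (s.x * t.x) u.m + c (s.x * t.x) u.x =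
          s.m + a s.x (t.m + a t.x u.m + c t.x u.x) + c s.x (t.x * u.x)
        have em : a (s.x * t.x) u.m = a s.x (a t.x u.m) := by rw [map_mul]; rfl
        rw [map_add, map_add, em]
        have h' : c (s.x * t.x) u.x = a s.x (c t.x u.x) + c s.x (t.x * u.x) - c s.x t.x := by
          rw [h]; abel
        rw [h']; abel
      · exact mul_assoc _ _ _)
    (by
      intro s
      change ExtG.mk _ _ = s
      cases s with
      | mk m x =>
        congr 1
        · change 0 + a 1 m + c 1 x = m
          rw [hone, map_one]; simp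
        · exact one_mul _)
    (by
      intro s
      change ExtG.mk _ _ = ExtG.mk _ _
      congr 1
      · change -(a s.x⁻¹ s.m) - c s.x⁻¹ s.x + a s.x⁻¹ s.m + c s.x⁻¹ s.x = 0
        abel
      · exact inv_mul_cancel _)

lemma free_H2_norm [IsFreeGroup G] (a : G →* AddMonoid.End M) (c : G → G → M)
    (hc : ∀ x y z, a x (c y z) + c x (y * z) = c (x * y) z + c x y) (h1 : c 1 1 = 0) :
    ∃ h : G → M, ∀ x y, c x y = h x + a x (h y) - h (x * y) := by
  let _ : Group (ExtG M G) := extGroup a c hc h1
  let pr : ExtG M G →* G :=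
    { toFun := fun s => s.x
      map_one' := rfl
      map_mul' := fun _ _ => rfl }
  let s : G →* ExtG M G := IsFreeGroup.lift fun g => ⟨0, IsFreeGroup.of g⟩
  have hs : pr.comp s = MonoidHom.id G := by
    apply IsFreeGroup.ext_hom
    intro g
    simp [s, pr]
  have hs' : ∀ x, (s x).x = x := fun x => DFunLike.congr_fun hs x
  refine ⟨fun x => - (s x).m, fun x y => ?_⟩
  have h2 : (s (x * y)).m = (s x).m + a (s x).x (s y).m + c (s x).x (s y).x := by
    rw [map_mul]
    rfl
  rw [hs', hs'] at h2
  simp only [h2, map_neg]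
  abel

/-- free groups have vanishing `H²` -/
lemma free_H2 [IsFreeGroup G] (a : G →* AddMonoid.End M) (c : G → G → M)
    (hc : ∀ x y z, a x (c y z) + c x (y * z) = c (x * y) z + c x y) :
    ∃ h : G → M, ∀ x y, c x y = h x + a x (h y) - h (x * y) := by
  obtain ⟨h, hh⟩ := free_H2_norm a (fun x y => c x y - a x (c 1 1))
    (by
      intro x y z
      have := hc x y z
      simp only [map_sub]
      have e : a (x * y) (c 1 1) = a x (a y (c 1 1)) := by
        rw [map_mul]; rfl
      rw [e]
      have h' : c (x * y) z = a x (c y z) + c x (y * z) - c x y := by rw [this]; abel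
      rw [h']; abel)
    (by simp)
  refine ⟨fun x => h x + c 1 1, fun x y => ?_⟩
  have h3 := hh x y
  have h4 : c x y = h x + a x (h y) - h (x * y) + a x (c 1 1) := by
    rw [← h3]; abel
  simp only [h4, map_add]; abel

end

end Pool.Agent.RFA
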