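import Pool.Agent.RFA.IKm

set_option autoImplicit false

namespace Pool.Agent.RFA

open Topology Module

variable {p : ℕ} [Fact p.Prime] {G : Type} [Group G] [TopologicalSpace G] [IsTopologicalGroup G]

private theorem Lift01_toZMod (m : ℕ) (hm : m ≠ 0) (z : ℤ_[p]) :
    (((PadicInt.toZModPow m z).val : ℕ) : ZMod p) = PadicInt.toZMod z := by
  have : NeZero (p ^ m) := ⟨pow_ne_zero _ (Fact.out (p := p.Prime)).ne_zero⟩
  set v : ℕ := (PadicInt.toZModPow m z).val with hv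
  have h1 : PadicInt.toZModPow m (z - (v : ℤ_[p])) = 0 := by
    rw [map_sub, map_natCast, hv, ZMod.natCast_zmod_val, sub_self]
  have h2 : z - (v : ℤ_[p]) ∈ RingHom.ker (PadicInt.toZModPow (p := p) m) := h1
  rw [PadicInt.ker_toZModPow, Ideal.mem_span_singleton] at h2
  obtain ⟨w, hw⟩ := h2
  have h3 : z = (v : ℤ_[p]) + (p : ℤ_[p]) ^ m * w := by rw [← hw]; ring
  rw [h3, map_add, map_mul, map_pow, map_natCast, map_natCast, ZMod.natCast_self, zero_pow hm,
    zero_mul, add_zero]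

omit [IsTopologicalGroup G] in
private theorem Lift01_Tmod {k : ℕ} (χ : Fin k → Z1 p G) (m : ℕ) (x : G) :
    Tm p χ m x - 1 - ∑ j, redp p (χ j : G → ℤ_[p]) x • tt p (Pi.single j (1 : ZMod (p ^ m))) ∈
      mI p (Fin k → ZMod (p ^ m)) ^ 2 := by
  have hT : Tm p χ m x = AddMonoidAlgebra.single
      (fun i => PadicInt.toZModPow m ((χ i : G → ℤ_[p]) x)) (1 : ZMod p) := rfl
  rcases Nat.eq_zero_or_pos m with rfl | hm
  · have hs : ∀ a : Fin k → ZMod (p ^ 0), a = 0 := by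
      intro a
      have : Subsingleton (ZMod (p ^ 0)) := by rw [pow_zero]; infer_instance
      exact Subsingleton.elim _ _
    have h1 : ∀ a : Fin k → ZMod (p ^ 0), tt p a = 0 := by
      intro a
      rw [hs a, tt, AddMonoidAlgebra.one_def, sub_self]
    rw [hT, hs (fun i => PadicInt.toZModPow 0 ((χ i : G → ℤ_[p]) x)), ← AddMonoidAlgebra.one_def,
      sub_self]
    simp only [h1, smul_zero, Finset.sum_const_zero, sub_zero]
    exact Ideal.zero_mem _
  · have h := single_mod_sq (p := p) k m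
      (fun j => (PadicInt.toZModPow m ((χ j : G → ℤ_[p]) x)).val)
    have hnz : NeZero (p ^ m) := ⟨pow_ne_zero _ (Fact.out (p := p.Prime)).ne_zero⟩
    simp only [ZMod.natCast_zmod_val, Lift01_toZMod m hm.ne'] at h
    rw [hT]
    exact h

private theorem Lift01_tt_mem (k m : ℕ) (j : Fin k) :
    tt p (Pi.single j (1 : ZMod (p ^ m)) : Fin k → ZMod (p ^ m)) ∈
      mI p (Fin k → ZMod (p ^ m)) := by
  rw [mI_span]
  exact Ideal.subset_span ⟨j, rfl⟩

private theorem Lift01_div (k m n : ℕ) (b : GA p (Fin k → ZMod (p ^ m)))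
    (hb : b ∈ mI p (Fin k → ZMod (p ^ m)) ^ (n + 1)) :
    ∃ w : Fin k → GA p (Fin k → ZMod (p ^ m)), (∀ j, w j ∈ mI p (Fin k → ZMod (p ^ m)) ^ n) ∧
      b = ∑ j, tt p (Pi.single j (1 : ZMod (p ^ m))) * w j := by
  rw [pow_succ] at hb
  rw [show (mI p (Fin k → ZMod (p ^ m)) ^ n * mI p (Fin k → ZMod (p ^ m)) :
      Ideal (GA p (Fin k → ZMod (p ^ m)))) = mI p (Fin k → ZMod (p ^ m)) ^ n •
        (Submodule.span (GA p (Fin k → ZMod (p ^ m)))
          (Set.range fun j => tt p (Pi.single j (1 : ZMod (p ^ m))))) from by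
    rw [smul_eq_mul]; congr 1; exact mI_span k m] at hb
  rw [Submodule.mem_ideal_smul_span_iff_exists_sum] at hb
  obtain ⟨a, ha, hab⟩ := hb
  refine ⟨a, ha, ?_⟩
  rw [← hab, Finsupp.sum_fintype _ _ (by simp)]
  refine Finset.sum_congr rfl fun j _ => ?_
  rw [smul_eq_mul, mul_comm]

private theorem Lift01_solve {δ : ℕ} (hG : ProFree p δ G) {ι : Type} [Fintype ι] (ρ : ι → G)
    {k : ℕ} (χ : Fin k → Z1 p G) (hχ : ∀ j i, (χ j : G → ℤ_[p]) (ρ i) = 0)
    (hI : IK p ρ (fun j => redp p (χ j : G → ℤ_[p]))) (m : ℕ) (n : ℕ) :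
    ∀ v : ι → GA p (Fin k → ZMod (p ^ m)), (∀ i, v i ∈ mI p (Fin k → ZMod (p ^ m)) ^ (n + 1)) →
      ∃ Θ ∈ Coc (Tm p χ m), (∀ i, Θ (ρ i) = v i) ∧ ∀ x, Θ x ∈ mI p (Fin k → ZMod (p ^ m)) ^ n := by
  induction n with
  | zero =>
    intro v hv
    obtain ⟨Θ, hΘ, h⟩ := IK.mem_Dm hG ρ χ hχ hI m v (fun i => by
      have := hv i
      rw [zero_add, pow_one] at this
      exact this)
    exact ⟨Θ, hΘ, h, fun x => by simp⟩
  | succ n ih =>
    intro v hv
    have h1 : ∀ i, ∃ w : Fin k → GA p (Fin k → ZMod (p ^ m)),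
        (∀ j, w j ∈ mI p (Fin k → ZMod (p ^ m)) ^ (n + 1)) ∧
        v i = ∑ j, tt p (Pi.single j (1 : ZMod (p ^ m))) * w j :=
      fun i => Lift01_div k m (n + 1) (v i) (hv i)
    choose w hw hvw using h1
    have h2 : ∀ j, ∃ Θ ∈ Coc (Tm p χ m), (∀ i, Θ (ρ i) = w i j) ∧
        ∀ x, Θ x ∈ mI p (Fin k → ZMod (p ^ m)) ^ n := fun j => ih (fun i => w i j) (fun i => hw i j)
    choose Θ hΘ hΘρ hΘm using h2
    refine ⟨∑ j, tt p (Pi.single j (1 : ZMod (p ^ m))) • Θ j,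
      Submodule.sum_mem _ fun j _ => Submodule.smul_mem _ _ (hΘ j), fun i => ?_, fun x => ?_⟩
    · rw [Finset.sum_apply, hvw i]
      refine Finset.sum_congr rfl fun j _ => ?_
      rw [Pi.smul_apply, smul_eq_mul, hΘρ j i]
    · rw [Finset.sum_apply]
      refine Ideal.sum_mem _ fun j _ => ?_
      rw [Pi.smul_apply, smul_eq_mul, pow_succ']
      exact Ideal.mul_mem_mul (Lift01_tt_mem k m j) (hΘm j x)

private theorem Lift01_lead {δ : ℕ} (hG : ProFree p δ G) {k : ℕ} (χ : Fin k → Z1 p G) (m : ℕ)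
    (ξ : G → ZMod p) (hξ : ξ ∈ Hom1 p G) (h : Fin k → G → ZMod p)
    (hh : ∀ j, IsCup p (redp p (χ j : G → ℤ_[p])) ξ (h j)) :
    ∃ Θ ∈ Coc (Tm p χ m), ∀ x, Θ x - (algebraMap (ZMod p) _ (ξ x) +
      ∑ j, h j x • tt p (Pi.single j (1 : ZMod (p ^ m)))) ∈ mI p (Fin k → ZMod (p ^ m)) ^ 2 := by
  have hnz : NeZero (p ^ m) := ⟨pow_ne_zero _ (Fact.out (p := p.Prime)).ne_zero⟩
  set Λ := GA p (Fin k → ZMod (p ^ m)) with hΛ
  set J : Ideal Λ := mI p (Fin k → ZMod (p ^ m)) ^ 2 with hJ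
  set f : Λ →+* Λ ⧸ J := Ideal.Quotient.mk J with hf
  set t : Fin k → Λ := fun j => tt p (Pi.single j (1 : ZMod (p ^ m))) with ht
  set L : G → Λ := fun x => algebraMap (ZMod p) Λ (ξ x) + ∑ j, h j x • t j with hL
  have hTl : IsLocallyConstant (Tm p χ m) := TA_locConst _ (redm_locConst χ m)
  have hLl : IsLocallyConstant L := by
    have h1 : IsLocallyConstant (fun x => fun j => h j x) := by
      rw [IsLocallyConstant.iff_eventually_eq]
      intro x
      have : ∀ j, ∀ᶠ y in 𝓝 x, h j y = h j x := fun j => (hh j).1.eventually_eq x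
      filter_upwards [Filter.eventually_all.2 this] with y hy
      funext j
      exact hy j
    have h2 : IsLocallyConstant (fun x => (ξ x, fun j => h j x)) := hξ.1.prodMk h1
    exact h2.comp (fun q : ZMod p × (Fin k → ZMod p) => algebraMap (ZMod p) Λ q.1 +
      ∑ j, q.2 j • t j)
  have hmem : ∀ x y, L (x * y) - (L x + Tm p χ m x * L y) ∈ J := by
    intro x y
    have h1 := Lift01_Tmod χ m x
    set E : Λ := Tm p χ m x - 1 - ∑ j, redp p (χ j : G → ℤ_[p]) x • t j with hE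
    have hTx : Tm p χ m x = 1 + ∑ j, redp p (χ j : G → ℤ_[p]) x • t j + E := by
      rw [hE]; ring
    have hkey : L (x * y) - (L x + Tm p χ m x * L y) =
        -(E * L y) - (∑ j, redp p (χ j : G → ℤ_[p]) x • t j) * (∑ j, h j y • t j) := by
      rw [hTx]
      have e1 : L (x * y) = algebraMap (ZMod p) Λ (ξ x) + algebraMap (ZMod p) Λ (ξ y) +
          ((∑ j, h j x • t j) + (∑ j, h j y • t j) +
            (∑ j, redp p (χ j : G → ℤ_[p]) x • t j) * algebraMap (ZMod p) Λ (ξ y)) := by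
        simp only [hL, hξ.2 x y, map_add, (hh _).2 x y, add_smul, Finset.sum_add_distrib,
          Finset.sum_mul]
        congr 2
        refine Finset.sum_congr rfl fun j _ => ?_
        rw [mul_comm (redp p _ x) (ξ y), mul_smul, Algebra.smul_def (ξ y), mul_comm]
      rw [e1]
      simp only [hL]
      ring
    rw [hkey]
    refine Ideal.sub_mem _ (Ideal.neg_mem_iff _ |>.2 (Ideal.mul_mem_right _ _ h1)) ?_
    rw [hJ, pow_two]
    refine Ideal.mul_mem_mul (Ideal.sum_mem _ fun j _ => ?_) (Ideal.sum_mem _ fun j _ => ?_)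
    · rw [Algebra.smul_def]; exact Ideal.mul_mem_left _ _ (Lift01_tt_mem k m j)
    · rw [Algebra.smul_def]; exact Ideal.mul_mem_left _ _ (Lift01_tt_mem k m j)
  obtain ⟨Θ, hΘ, hΘf⟩ := coc_lift hG.h2top f Ideal.Quotient.mk_surjective (Tm p χ m) hTl
    (f.toMonoidHom.comp (Tm p χ m)) (fun _ => rfl) (fun x => f (L x)) ⟨hLl.comp f, fun x y => by
      change f (L (x * y)) = f (L x) + f (Tm p χ m x) * f (L y)
      rw [← map_mul, ← map_add]
      exact (Ideal.Quotient.mk_eq_mk_iff_sub_mem _ _).2 (hmem x y)⟩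
  refine ⟨Θ, hΘ, fun x => ?_⟩
  rw [← Ideal.Quotient.eq_zero_iff_mem, map_sub, sub_eq_zero]
  exact hΘf x

theorem lift0 {δ : ℕ} (hG : ProFree p δ G) {ι : Type} [Fintype ι] (ρ : ι → G) {k : ℕ}
    (χ : Fin k → Z1 p G) (hχ : ∀ j i, (χ j : G → ℤ_[p]) (ρ i) = 0)
    (hI : IK p ρ (fun j => redp p (χ j : G → ℤ_[p]))) (m : ℕ)
    (ξ : G → ZMod p) (hξ : ξ ∈ HomP p ρ)
    (h0 : ∀ j, CupZero p ρ (redp p (χ j : G → ℤ_[p])) ξ) :
    ∃ Θ ∈ Coc (Tm p χ m), (∀ i, Θ (ρ i) = 0) ∧ ∀ x, aug p (Θ x) = ξ x := by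
  choose h hh hρ using h0
  obtain ⟨Θ, hΘ, hΘ2⟩ := Lift01_lead hG χ m ξ hξ.1 h hh
  obtain ⟨Θ', hΘ', hρ', hm'⟩ := Lift01_solve hG ρ χ hχ hI m 1 (fun i => Θ (ρ i)) (fun i => by
    have := hΘ2 (ρ i)
    simpa [hξ.2 i, hρ] using this)
  have haug : ∀ b ∈ mI p (Fin k → ZMod (p ^ m)), aug p b = 0 := fun b hb => hb
  refine ⟨Θ - Θ', Submodule.sub_mem _ hΘ hΘ', fun i => by simp [hρ' i], fun x => ?_⟩
  have h1 := haug _ (Ideal.pow_le_self two_ne_zero (hΘ2 x))
  have h2 : aug p (Θ' x) = 0 := haug _ (by simpa using hm' x)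
  have h3 : aug p (∑ j, h j x • tt p (Pi.single j (1 : ZMod (p ^ m)) : Fin k → ZMod (p ^ m)))
      = 0 := by
    refine haug _ (Ideal.sum_mem _ fun j _ => ?_)
    rw [Algebra.smul_def]; exact Ideal.mul_mem_left _ _ (Lift01_tt_mem k m j)
  rw [map_sub, map_add, h3, add_zero, sub_eq_zero] at h1
  rw [Pi.sub_apply, map_sub, h2, sub_zero, h1]
  exact (aug p).commutes (ξ x)

theorem lift1 {δ : ℕ} (hG : ProFree p δ G) {ι : Type} [Fintype ι] (ρ : ι → G) {k : ℕ}
    (χ : Fin k → Z1 p G) (hχ : ∀ j i, (χ j : G → ℤ_[p]) (ρ i) = 0)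
    (hI : IK p ρ (fun j => redp p (χ j : G → ℤ_[p]))) (m : ℕ)
    (a : Fin k → G → ZMod p) (ha : ∀ j, a j ∈ HomP p ρ)
    (h1 : ∀ j, CupZero p ρ (redp p (χ j : G → ℤ_[p])) (a j))
    (h2 : ∀ i j, i < j → ∃ h h', IsCup p (redp p (χ i : G → ℤ_[p])) (a j) h ∧
      IsCup p (redp p (χ j : G → ℤ_[p])) (a i) h' ∧ ∀ l, h (ρ l) + h' (ρ l) = 0) :
    ∃ Θ ∈ Coc (Tm p χ m), (∀ i, Θ (ρ i) = 0) ∧
      ∀ x, Θ x - ∑ j, a j x • tt p (Pi.single j (1 : ZMod (p ^ m))) ∈
        mI p (Fin k → ZMod (p ^ m)) ^ 2 := by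
  -- the cochains `H i j` with coboundary `η j ∪ a i`
  have hH : ∃ H : Fin k → Fin k → G → ZMod p,
      (∀ i j, IsCup p (redp p (χ j : G → ℤ_[p])) (a i) (H i j)) ∧
      (∀ i l, H i i (ρ l) = 0) ∧ ∀ i j l, H i j (ρ l) + H j i (ρ l) = 0 := by
    choose h11 h12 h13 using h1
    choose g g' hg hg' hgg' using h2
    refine ⟨fun i j => if hij : i < j then g' i j hij else if hji : j < i then g j i hji
      else h11 i, fun i j => ?_, fun i l => ?_, fun i j l => ?_⟩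
    · by_cases hij : i < j
      · simp only [hij, dif_pos]; exact hg' i j hij
      · by_cases hji : j < i
        · simp only [hij, hji, dif_neg, dif_pos, not_false_eq_true]; exact hg j i hji
        · have : i = j := le_antisymm (not_lt.1 hji) (not_lt.1 hij)
          subst this
          simp only [lt_irrefl, dif_neg, not_false_eq_true]; exact h12 i
    · simp only [lt_irrefl, dif_neg, not_false_eq_true, h13 i l]
    · by_cases hij : i < j
      · have hji : ¬ j < i := not_lt.2 hij.le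
        simp only [hij, hji, dif_pos, dif_neg, not_false_eq_true]
        rw [add_comm]; exact hgg' i j hij l
      · by_cases hji : j < i
        · simp only [hij, hji, dif_neg, dif_pos, not_false_eq_true]; exact hgg' j i hji l
        · have : i = j := le_antisymm (not_lt.1 hji) (not_lt.1 hij)
          subst this
          simp only [lt_irrefl, dif_neg, not_false_eq_true, h13 i l, add_zero]
  obtain ⟨H, hH1, hH3, hH2⟩ := hH
  set t : Fin k → GA p (Fin k → ZMod (p ^ m)) := fun j => tt p (Pi.single j (1 : ZMod (p ^ m)))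
    with ht
  have htm : ∀ j, t j ∈ mI p (Fin k → ZMod (p ^ m)) := Lift01_tt_mem k m
  have hlead := fun i => Lift01_lead hG χ m (a i) (ha i).1 (H i) (hH1 i)
  choose Θ hΘ hΘ2 using hlead
  have hΘ0 : ∀ i l, t i * Θ i (ρ l) - ∑ j, H i j (ρ l) • (t i * t j) ∈
      mI p (Fin k → ZMod (p ^ m)) ^ 3 := by
    intro i l
    have e1 := hΘ2 i (ρ l)
    rw [(ha i).2 l, map_zero, zero_add] at e1
    have e2 : t i * Θ i (ρ l) - ∑ j, H i j (ρ l) • (t i * t j) =
        t i * (Θ i (ρ l) - ∑ j, H i j (ρ l) • t j) := by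
      rw [mul_sub, Finset.mul_sum]
      congr 1
      exact Finset.sum_congr rfl fun j _ => (mul_smul_comm _ _ _).symm
    rw [e2, show (3 : ℕ) = 2 + 1 from rfl, pow_succ']
    exact Ideal.mul_mem_mul (htm i) e1
  have hsum0 : ∀ l, ∑ i, ∑ j, H i j (ρ l) • (t i * t j) = 0 := by
    intro l
    rw [← Finset.sum_product']
    refine Finset.sum_involution (fun q _ => (q.2, q.1)) (fun q _ => ?_) (fun q _ hq hq' => ?_)
      (fun q _ => by simp) (fun q _ => rfl)
    · dsimp only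
      rw [mul_comm (t q.2), ← add_smul, hH2 q.1 q.2 l, zero_smul]
    · have : q.1 = q.2 := (congrArg Prod.snd hq')
      rw [this] at hq
      exact hq (by rw [hH3, zero_smul])
  obtain ⟨Θ', hΘ', hρ', hm'⟩ := Lift01_solve hG ρ χ hχ hI m 2
    (fun l => ∑ i, t i * Θ i (ρ l)) (fun l => by
      have e1 : ∑ i, t i * Θ i (ρ l) =
          ∑ i, (t i * Θ i (ρ l) - ∑ j, H i j (ρ l) • (t i * t j)) := by
        rw [Finset.sum_sub_distrib, hsum0, sub_zero]
      rw [e1]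
      exact Ideal.sum_mem _ fun i _ => hΘ0 i l)
  refine ⟨∑ i, t i • Θ i - Θ', Submodule.sub_mem _ (Submodule.sum_mem _ fun i _ =>
    Submodule.smul_mem _ _ (hΘ i)) hΘ', fun l => ?_, fun x => ?_⟩
  · rw [Pi.sub_apply, Finset.sum_apply, hρ' l, sub_eq_zero]
    exact Finset.sum_congr rfl fun i _ => by rw [Pi.smul_apply, smul_eq_mul]
  · have e1 : (∑ i, t i • Θ i - Θ') x - ∑ j, a j x • t j =
        (∑ i, t i * (Θ i x - algebraMap (ZMod p) _ (a i x))) - Θ' x := by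
      rw [Pi.sub_apply, Finset.sum_apply]
      have : ∑ i, t i * (Θ i x - algebraMap (ZMod p) _ (a i x)) =
          ∑ i, (t i • Θ i) x - ∑ j, a j x • t j := by
        rw [← Finset.sum_sub_distrib]
        refine Finset.sum_congr rfl fun i _ => ?_
        rw [mul_sub, Pi.smul_apply, smul_eq_mul, Algebra.smul_def, mul_comm (algebraMap _ _ _)]
      rw [this]; ring
    change (∑ i, t i • Θ i - Θ') x - ∑ j, a j x • t j ∈ _
    rw [e1]
    refine Ideal.sub_mem _ (Ideal.sum_mem _ fun i _ => ?_) (hm' x)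
    rw [pow_two]
    refine Ideal.mul_mem_mul (htm i) ?_
    have e2 : Θ i x - algebraMap (ZMod p) _ (a i x) =
        (Θ i x - (algebraMap (ZMod p) _ (a i x) + ∑ j, H i j x • t j)) + ∑ j, H i j x • t j := by
      ring
    rw [e2]
    refine Ideal.add_mem _ (Ideal.pow_le_self two_ne_zero (hΘ2 i x))
      (Ideal.sum_mem _ fun j _ => ?_)
    rw [Algebra.smul_def]
    exact Ideal.mul_mem_left _ _ (htm j)

end Pool.Agent.RFA
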