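import Pool.Agent.RFA.Lift01
import Pool.Agent.RFA.RankInv
import Pool.Agent.RFA.RankRed
import Pool.Agent.RFA.Uni

set_option autoImplicit false

namespace Pool.Agent.RFA

open Topology Module

variable {p : ℕ} [Fact p.Prime] {G : Type} [Group G] [TopologicalSpace G] [IsTopologicalGroup G]

section RankGrowAux

omit [IsTopologicalGroup G] in
theorem RankGrow_cup_add {f g g' h h' : G → ZMod p} (H : IsCup p f g h) (H' : IsCup p f g' h') :
    IsCup p f (g + g') (h + h') := by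
  refine ⟨H.1.add H'.1, fun x y => ?_⟩
  simp only [Pi.add_apply, H.2, H'.2]; ring

omit [IsTopologicalGroup G] in
theorem RankGrow_cup_neg {f g h : G → ZMod p} (H : IsCup p f g h) : IsCup p f (-g) (-h) := by
  refine ⟨H.1.neg, fun x y => ?_⟩
  simp only [Pi.neg_apply, H.2]; ring

omit [IsTopologicalGroup G] in
theorem RankGrow_cup_zero {f : G → ZMod p} : IsCup p f 0 0 := by
  refine ⟨IsLocallyConstant.const 0, fun x y => ?_⟩
  simp

/-- allowed leading forms -/
def RankGrow_Alw {ι : Type} (ρ : ι → G) (η : Fin 3 → G → ZMod p) (a : Fin 3 → G → ZMod p) :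
    Prop :=
  ∃ H : Fin 3 → Fin 3 → G → ZMod p, (∀ i j, IsCup p (η i) (a j) (H i j)) ∧
    (∀ i l, H i i (ρ l) = 0) ∧ ∀ i j l, H i j (ρ l) + H j i (ρ l) = 0

omit [IsTopologicalGroup G] in
theorem RankGrow_kap {ι : Type} (ρ : ι → G) (η : Fin 3 → G → ZMod p)
    (v : Fin 3 → (ι → ZMod p) → G → ZMod p) (h : Fin 3 → (ι → ZMod p) → Fin 3 → G → ZMod p)
    (hc : ∀ j c i, IsCup p (η i) (v j c) (h j c i))
    (hv : ∀ j c i l, h j c i (ρ l) = if i = j then c l else 0) (i j : Fin 3) (hij : i ≠ j)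
    (c : ι → ZMod p) :
    RankGrow_Alw ρ η (fun k => if k = i then -v j c else if k = j then v i c else 0) := by
  refine ⟨fun k' k => if k = i then -h j c k' else if k = j then h i c k' else 0, ?_, ?_, ?_⟩
  · intro k' k
    dsimp only
    split_ifs
    · exact RankGrow_cup_neg (hc _ _ _)
    · exact hc _ _ _
    · exact RankGrow_cup_zero
  · intro k l
    dsimp only
    split_ifs with h1 h2
    · rw [Pi.neg_apply, hv, if_neg (by rw [h1]; exact hij), neg_zero]
    · rw [hv, if_neg h1]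
    · rfl
  · intro k' k l
    dsimp only
    have e1 : ∀ a b : Fin 3, (if b = i then -h j c a else if b = j then h i c a else 0) (ρ l) =
        (if b = j then if a = i then c l else 0 else 0) -
        (if b = i then if a = j then c l else 0 else 0) := by
      intro a b
      by_cases h1 : b = i
      · have h2 : b ≠ j := by rw [h1]; exact hij
        rw [if_pos h1, if_neg h2, if_pos h1, Pi.neg_apply, hv]; simp
      · by_cases h2 : b = j
        · rw [if_neg h1, if_pos h2, if_pos h2, if_neg h1, hv]; simp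
        · rw [if_neg h1, if_neg h2, if_neg h2, if_neg h1]; simp
    rw [e1, e1]
    by_cases h1 : k = i <;> by_cases h2 : k = j <;> by_cases h3 : k' = i <;>
      by_cases h4 : k' = j <;> simp [h1, h2, h3, h4, hij, hij.symm]

omit [IsTopologicalGroup G] in
theorem RankGrow_the {ι : Type} (ρ : ι → G) (η : Fin 3 → G → ZMod p)
    (v : Fin 3 → (ι → ZMod p) → G → ZMod p) (h : Fin 3 → (ι → ZMod p) → Fin 3 → G → ZMod p)
    (hc : ∀ j c i, IsCup p (η i) (v j c) (h j c i))
    (hv : ∀ j c i l, h j c i (ρ l) = if i = j then c l else 0) (i : Fin 3)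
    (ξ : G → ZMod p) (g : Fin 3 → G → ZMod p) (hg : ∀ k, IsCup p (η k) ξ (g k)) :
    RankGrow_Alw ρ η (fun k => (if k = i then ξ else 0) + -v i (fun l => g k (ρ l))) := by
  refine ⟨fun k' k => (if k = i then g k' else 0) + -h i (fun l => g k (ρ l)) k', ?_, ?_, ?_⟩
  · intro k' k
    dsimp only
    refine RankGrow_cup_add ?_ (RankGrow_cup_neg (hc _ _ _))
    split_ifs
    · exact hg _
    · exact RankGrow_cup_zero
  · intro k l
    simp only [Pi.add_apply, Pi.neg_apply, hv]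
    split_ifs <;> simp
  · intro k' k l
    simp only [Pi.add_apply, Pi.neg_apply, hv]
    by_cases h1 : k = i <;> by_cases h2 : k' = i <;> simp [h1, h2]

omit [IsTopologicalGroup G] in
theorem RankGrow_redp_mem {ι : Type} (ρ : ι → G) (χ : Z1 p G)
    (hχ : ∀ i, (χ : G → ℤ_[p]) (ρ i) = 0) : redp p (χ : G → ℤ_[p]) ∈ HomP p ρ := by
  have hlc : IsLocallyConstant (fun z : ℤ_[p] => PadicInt.toZMod z) := by
    rw [IsLocallyConstant.iff_exists_open]
    intro z
    refine ⟨Metric.ball z 1, Metric.isOpen_ball, Metric.mem_ball_self one_pos, fun y hy => ?_⟩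
    rw [Metric.mem_ball, dist_eq_norm] at hy
    have h1 : (y - z) ∈ IsLocalRing.maximalIdeal ℤ_[p] := by
      rw [IsLocalRing.mem_maximalIdeal, mem_nonunits_iff, PadicInt.isUnit_iff]
      exact ne_of_lt hy
    rw [← PadicInt.ker_toZMod, RingHom.mem_ker, map_sub, sub_eq_zero] at h1
    exact h1
  refine ⟨⟨?_, ?_⟩, ?_⟩
  · exact hlc.comp_continuous χ.2.1
  · intro x y
    simp only [redp]
    rw [χ.2.2, map_add]
  · intro i
    simp only [redp]
    rw [hχ, map_zero]

end RankGrowAux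

/-- for every `z ≠ 0` there are two cocycles with linear leading forms and non-zero pairing at some
point of `K³` -/
theorem exists_koszul_pair {δ : ℕ} (hG : ProFree p δ G) {ι : Type} [Fintype ι] (ρ : ι → G)
    (χ : Fin 3 → Z1 p G) (hχ : ∀ j i, (χ j : G → ℤ_[p]) (ρ i) = 0)
    (hI : IK p ρ (fun j => redp p (χ j : G → ℤ_[p])))
    (z : ι → ZMod p) (hz : z ∈ Z2 p ρ) (hz0 : z ≠ 0) :
    ∃ (a a' : Fin 3 → G → ZMod p) (c : Fin 3 → ZMod p),
      (∀ j, a j ∈ HomP p ρ) ∧ (∀ j, a' j ∈ HomP p ρ) ∧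
      (∀ j, CupZero p ρ (redp p (χ j : G → ℤ_[p])) (a j)) ∧
      (∀ j, CupZero p ρ (redp p (χ j : G → ℤ_[p])) (a' j)) ∧
      (∀ i j, i < j → ∃ h h', IsCup p (redp p (χ i : G → ℤ_[p])) (a j) h ∧
        IsCup p (redp p (χ j : G → ℤ_[p])) (a i) h' ∧ ∀ l, h (ρ l) + h' (ρ l) = 0) ∧
      (∀ i j, i < j → ∃ h h', IsCup p (redp p (χ i : G → ℤ_[p])) (a' j) h ∧
        IsCup p (redp p (χ j : G → ℤ_[p])) (a' i) h' ∧ ∀ l, h (ρ l) + h' (ρ l) = 0) ∧
      cupVal p ρ z (∑ j, c j • a' j) (∑ j, c j • a j) ≠ 0 := by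
  classical
  set η : Fin 3 → G → ZMod p := fun j => redp p (χ j : G → ℤ_[p]) with hη
  have hηP : ∀ j, η j ∈ HomP p ρ := fun j => RankGrow_redp_mem ρ (χ j) (hχ j)
  have hv : ∀ (j : Fin 3) (c : ι → ZMod p), ∃ ξ : HomP p ρ, ∃ h : Fin 3 → G → ZMod p,
      ∀ i, IsCup p (η i) (ξ : G → ZMod p) (h i) ∧ ∀ l, h i (ρ l) = if i = j then c l else 0 := by
    intro j c
    obtain ⟨ξ, hξ, h, h1, h2⟩ := hI (Pi.single j c)
    refine ⟨⟨ξ, hξ⟩, h, fun i => ⟨h1 i, fun l => ?_⟩⟩
    rw [h2]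
    by_cases hij : i = j
    · rw [if_pos hij, hij, Pi.single_eq_same]
    · rw [if_neg hij, Pi.single_eq_of_ne hij]; rfl
  choose v h hvh using hv
  obtain ⟨B, hB⟩ := exists_cupB hG ρ
  set Bz := B ⟨z, hz⟩ with hBz
  have hBz' : ∀ f g : HomP p ρ, Bz f g = cupVal p ρ z (f : G → ZMod p) (g : G → ZMod p) :=
    fun f g => hB ⟨z, hz⟩ f g
  by_contra hcon
  push Not at hcon
  -- the quadratic form vanishes on all allowed pairs
  have hq : ∀ a a' : Fin 3 → HomP p ρ, RankGrow_Alw ρ η (fun j => (a j : G → ZMod p)) →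
      RankGrow_Alw ρ η (fun j => (a' j : G → ZMod p)) → ∀ c : Fin 3 → ZMod p,
      Bz (∑ j, c j • a' j) (∑ j, c j • a j) = 0 := by
    intro a a' ha ha' c
    obtain ⟨H, h1, h2, h3⟩ := ha
    obtain ⟨H', h1', h2', h3'⟩ := ha'
    have := hcon (fun j => (a j : G → ZMod p)) (fun j => (a' j : G → ZMod p)) c
      (fun j => (a j).2) (fun j => (a' j).2) (fun j => ⟨H j j, h1 j j, h2 j⟩)
      (fun j => ⟨H' j j, h1' j j, h2' j⟩)
      (fun i j _ => ⟨H i j, H j i, h1 i j, h1 j i, h3 i j⟩)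
      (fun i j _ => ⟨H' i j, H' j i, h1' i j, h1' j i, h3' i j⟩)
    rw [hBz']
    simpa [Submodule.coe_sum] using this
  have hq1 : ∀ a a' : Fin 3 → HomP p ρ, RankGrow_Alw ρ η (fun j => (a j : G → ZMod p)) →
      RankGrow_Alw ρ η (fun j => (a' j : G → ZMod p)) → ∀ i, Bz (a' i) (a i) = 0 := by
    intro a a' ha ha' i
    have := hq a a' ha ha' (Pi.single i 1)
    simpa [Pi.single_apply, ite_smul] using this
  have hq2 : ∀ a a' : Fin 3 → HomP p ρ, RankGrow_Alw ρ η (fun j => (a j : G → ZMod p)) →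
      RankGrow_Alw ρ η (fun j => (a' j : G → ZMod p)) → ∀ i j, i ≠ j →
      Bz (a' i) (a j) + Bz (a' j) (a i) = 0 := by
    intro a a' ha ha' i j hij
    have := hq a a' ha ha' (Pi.single i 1 + Pi.single j 1)
    simp only [Pi.add_apply, add_smul, Finset.sum_add_distrib, Pi.single_apply, ite_smul,
      one_smul, zero_smul, Finset.sum_ite_eq', Finset.mem_univ, if_true, map_add,
      LinearMap.add_apply, hq1 a a' ha ha', zero_add, add_zero] at this
    rw [add_comm]
    simpa using this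
  have hkap : ∀ (i j : Fin 3) (_ : i ≠ j) (c : ι → ZMod p),
      RankGrow_Alw ρ η (fun k => ((if k = i then -v j c else if k = j then v i c else 0 :
        HomP p ρ) : G → ZMod p)) := by
    intro i j hij c
    have := RankGrow_kap ρ η (fun j c => (v j c : G → ZMod p)) h
      (fun j c i => (hvh j c i).1) (fun j c i => (hvh j c i).2) i j hij c
    convert this using 2 with k
    split_ifs <;> simp
  have hthe : ∀ (i : Fin 3) (ξ : HomP p ρ) (g : Fin 3 → G → ZMod p),
      (∀ k, IsCup p (η k) (ξ : G → ZMod p) (g k)) →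
      RankGrow_Alw ρ η (fun k => (((if k = i then ξ else 0) + -v i (fun l => g k (ρ l)) :
        HomP p ρ) : G → ZMod p)) := by
    intro i ξ g hg
    have := RankGrow_the ρ η (fun j c => (v j c : G → ZMod p)) h
      (fun j c i => (hvh j c i).1) (fun j c i => (hvh j c i).2) i ξ g hg
    convert this using 2 with k
    split_ifs <;> simp
  -- `B (v_j c, v_k c') = 0`
  have hA : ∀ c c', Bz (v 1 c) (v 0 c') = 0 := by
    intro c c'
    have := hq1 _ _ (hkap 2 0 (by decide) c') (hkap 2 1 (by decide) c) 2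
    simpa using this
  have hA' : ∀ c c', Bz (v 0 c) (v 0 c') = 0 := by
    intro c c'
    have := hq2 _ _ (hkap 0 2 (by decide) c') (hkap 0 1 (by decide) c) 1 2 (by decide)
    simpa using this
  have hg : ∀ k, ∃ g, IsCup p (η k) (η 0) g := fun k =>
    cup_exists hG.h2top (hηP k).1 (hηP 0).1
  choose g hg using hg
  have hC : ∀ c : ι → ZMod p, ∑ l, z l * c l = 0 := by
    intro c
    have h1 := hq2 _ _ (hthe 0 ⟨η 0, hηP 0⟩ g hg) (hkap 0 1 (by decide) c) 0 1 (by decide)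
    simp only [if_true, one_ne_zero, if_false, zero_add, map_neg, LinearMap.neg_apply,
      hA, map_add, hA', neg_zero, add_zero] at h1
    rw [hBz', cupVal_antisymm hG hz (v 0 c).2 (hηP 0), neg_eq_zero,
      cupVal_eq hz (hvh 0 c 0).1] at h1
    simpa [(hvh 0 c 0).2] using h1
  apply hz0
  funext l
  have := hC (Pi.single l 1)
  simpa [Pi.single_apply] using this

section RankGrowAux2

variable (p)

theorem RankGrow_ord (m i : ℕ) (y : GA p (ZMod (p ^ m)))
    (h : tau p m ^ i * y ∈ Ideal.span {tau p m ^ (i + 1)}) (hi : i + 1 ≤ p ^ m) :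
    aug p y = 0 := by
  by_contra hne
  obtain ⟨w, hw⟩ := Ideal.mem_span_singleton.1 h
  obtain ⟨u, hu, hu'⟩ := hasOrd_unit hne
  have h1 : HasOrd p m (tau p m ^ (p ^ m - 1) * y) (p ^ m - 1) :=
    ⟨u, hu, by rw [hu']; ring⟩
  refine h1.ne_zero (by omega) ?_
  have e1 : p ^ m - 1 = (p ^ m - 1 - i) + i := by omega
  have e2 : (p ^ m - 1 - i) + (i + 1) = p ^ m := by omega
  calc tau p m ^ (p ^ m - 1) * y = tau p m ^ (p ^ m - 1 - i) * (tau p m ^ i * y) := by
        rw [← mul_assoc, ← pow_add, ← e1]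
    _ = tau p m ^ ((p ^ m - 1 - i) + (i + 1)) * w := by rw [hw, ← mul_assoc, ← pow_add]
    _ = 0 := by rw [e2, tau_pow, zero_mul]

theorem RankGrow_aug_tau (m : ℕ) : aug p (tau p m) = 0 := by
  have : tau p m ∈ mI p (ZMod (p ^ m)) := by
    rw [mI_eq_span_tau]; exact Ideal.mem_span_singleton_self _
  exact this

theorem RankGrow_uniq (m : ℕ) (hm : 3 ≤ p ^ m) (c0 c1 c2 : ZMod p)
    (h : c0 • (1 : GA p (ZMod (p ^ m))) + c1 • tau p m + c2 • tau p m ^ 2 ∈
      Ideal.span {tau p m ^ 3}) : c0 = 0 ∧ c1 = 0 ∧ c2 = 0 := by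
  have h0 : c0 = 0 := by
    have := RankGrow_ord p m 0 (c0 • (1 : GA p (ZMod (p ^ m))) + c1 • tau p m + c2 • tau p m ^ 2)
      (by
        rw [pow_zero, one_mul]
        refine Ideal.span_singleton_le_span_singleton.2 ?_ h
        exact pow_dvd_pow _ (by norm_num)) (by omega)
    simpa [RankGrow_aug_tau] using this
  have h1 : c1 = 0 := by
    have := RankGrow_ord p m 1 (c1 • (1 : GA p (ZMod (p ^ m))) + c2 • tau p m)
      (by
        have e : tau p m ^ 1 * (c1 • (1 : GA p (ZMod (p ^ m))) + c2 • tau p m) =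
            c0 • (1 : GA p (ZMod (p ^ m))) + c1 • tau p m + c2 • tau p m ^ 2 := by
          rw [h0, zero_smul, zero_add]
          simp only [Algebra.smul_def]
          ring
        rw [e]
        refine Ideal.span_singleton_le_span_singleton.2 ?_ h
        exact pow_dvd_pow _ (by norm_num)) (by omega)
    simpa [RankGrow_aug_tau] using this
  have h2 : c2 = 0 := by
    have := RankGrow_ord p m 2 (c2 • (1 : GA p (ZMod (p ^ m))))
      (by
        have e : tau p m ^ 2 * (c2 • (1 : GA p (ZMod (p ^ m)))) =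
            c0 • (1 : GA p (ZMod (p ^ m))) + c1 • tau p m + c2 • tau p m ^ 2 := by
          rw [h0, h1]
          simp
        rw [e]
        exact h) (by omega)
    simpa [RankGrow_aug_tau] using this
  exact ⟨h0, h1, h2⟩

theorem RankGrow_div (m : ℕ) (b : GA p (ZMod (p ^ m))) :
    ∃ w, b = aug p b • (1 : GA p (ZMod (p ^ m))) + tau p m * w := by
  have h1 : b - aug p b • (1 : GA p (ZMod (p ^ m))) ∈ mI p (ZMod (p ^ m)) := by
    change aug p (b - aug p b • (1 : GA p (ZMod (p ^ m)))) = 0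
    simp
  rw [mI_eq_span_tau, Ideal.mem_span_singleton] at h1
  obtain ⟨w, hw⟩ := h1
  exact ⟨w, by rw [← hw]; abel⟩

theorem RankGrow_digits (m : ℕ) : ∃ L : GA p (ZMod (p ^ m)) → Fin 3 → ZMod p, ∀ b,
    b - (L b 0 • (1 : GA p (ZMod (p ^ m))) + L b 1 • tau p m + L b 2 • tau p m ^ 2) ∈
      Ideal.span {tau p m ^ 3} := by
  have h : ∀ b : GA p (ZMod (p ^ m)), ∃ L : Fin 3 → ZMod p,
      b - (L 0 • (1 : GA p (ZMod (p ^ m))) + L 1 • tau p m + L 2 • tau p m ^ 2) ∈
      Ideal.span {tau p m ^ 3} := by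
    intro b
    have hdiv : ∀ b : GA p (ZMod (p ^ m)), ∃ c w, b = c • (1 : GA p (ZMod (p ^ m))) +
        tau p m * w := fun b => ⟨_, RankGrow_div p m b⟩
    obtain ⟨c0, w, hw⟩ := hdiv b
    obtain ⟨c1, w', hw'⟩ := hdiv w
    obtain ⟨c2, w'', hw''⟩ := hdiv w'
    refine ⟨![c0, c1, c2], ?_⟩
    rw [Ideal.mem_span_singleton]
    refine ⟨w'', ?_⟩
    rw [hw, hw', hw'']
    simp only [Matrix.cons_val_zero, Matrix.cons_val_one, Matrix.cons_val,
      Algebra.smul_def, mul_one]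
    ring
  choose L hL using h
  exact ⟨L, hL⟩

theorem RankGrow_single (m n : ℕ) :
    AddMonoidAlgebra.single (n : ZMod (p ^ m)) (1 : ZMod p) - 1 - (n : ZMod p) • tau p m ∈
      Ideal.span {tau p m ^ 2} := by
  induction n with
  | zero =>
    have : (AddMonoidAlgebra.single ((0 : ℕ) : ZMod (p ^ m)) (1 : ZMod p)) - 1 -
        ((0 : ℕ) : ZMod p) • tau p m = 0 := by
      rw [Nat.cast_zero, Nat.cast_zero, zero_smul, sub_zero, sub_eq_zero]
      rfl
    rw [this]
    exact Ideal.zero_mem _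
  | succ n ih =>
    obtain ⟨w, hw⟩ := Ideal.mem_span_singleton.1 ih
    have e1 : (AddMonoidAlgebra.single ((n + 1 : ℕ) : ZMod (p ^ m)) (1 : ZMod p)) =
        AddMonoidAlgebra.single (n : ZMod (p ^ m)) (1 : ZMod p) * (1 + tau p m) := by
      have : (1 : GA p (ZMod (p ^ m))) + tau p m =
          AddMonoidAlgebra.single (1 : ZMod (p ^ m)) (1 : ZMod p) := by
        rw [tau, tt]; ring
      rw [this, AddMonoidAlgebra.single_mul_single]
      simp
    have e2 : (AddMonoidAlgebra.single (n : ZMod (p ^ m)) (1 : ZMod p)) =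
        1 + algebraMap (ZMod p) (GA p (ZMod (p ^ m))) n * tau p m + tau p m ^ 2 * w := by
      rw [← hw, Algebra.smul_def]; ring
    rw [e1, e2, Ideal.mem_span_singleton]
    refine ⟨algebraMap (ZMod p) (GA p (ZMod (p ^ m))) n + w * (1 + tau p m), ?_⟩
    rw [Algebra.smul_def, Nat.cast_succ, map_add, map_one]
    ring

theorem RankGrow_ginv_tau (m : ℕ) :
    ginv p (tau p m) + tau p m ∈ Ideal.span {tau p m ^ 2} := by
  have e1 : ginv p (tau p m) = AddMonoidAlgebra.single (-1 : ZMod (p ^ m)) (1 : ZMod p) - 1 := by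
    rw [tau, tt, map_sub, map_one]
    congr 1
    exact gmap_single _ _ _
  have e2 : AddMonoidAlgebra.single (-1 : ZMod (p ^ m)) (1 : ZMod p) * (1 + tau p m) = 1 := by
    have : (1 : GA p (ZMod (p ^ m))) + tau p m =
        AddMonoidAlgebra.single (1 : ZMod (p ^ m)) (1 : ZMod p) := by
      rw [tau, tt]; ring
    rw [this, AddMonoidAlgebra.single_mul_single]
    simp
    rfl
  rw [Ideal.mem_span_singleton]
  refine ⟨AddMonoidAlgebra.single (-1 : ZMod (p ^ m)) (1 : ZMod p), ?_⟩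
  rw [e1]
  linear_combination (tau p m - 1) * (-1 : GA p (ZMod (p ^ m))) * e2

theorem RankGrow_prod (m : ℕ) (A T B : GA p (ZMod (p ^ m))) (a' a : ZMod p)
    (hA : A + a' • tau p m ∈ Ideal.span {tau p m ^ 2}) (hT : T - 1 ∈ Ideal.span {tau p m})
    (hB : B - a • tau p m ∈ Ideal.span {tau p m ^ 2}) :
    A * T * B + (a' * a) • tau p m ^ 2 ∈ Ideal.span {tau p m ^ 3} := by
  obtain ⟨A₂, hA⟩ := Ideal.mem_span_singleton.1 hA
  obtain ⟨T₁, hT⟩ := Ideal.mem_span_singleton.1 hT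
  obtain ⟨B₂, hB⟩ := Ideal.mem_span_singleton.1 hB
  rw [Algebra.smul_def] at hA hB
  have eA : A = tau p m ^ 2 * A₂ - algebraMap _ _ a' * tau p m := by rw [← hA]; ring
  have eT : T = 1 + tau p m * T₁ := by rw [← hT]; ring
  have eB : B = algebraMap _ _ a * tau p m + tau p m ^ 2 * B₂ := by rw [← hB]; ring
  rw [Ideal.mem_span_singleton, Algebra.smul_def, map_mul]
  refine ⟨A₂ * (1 + tau p m * T₁) * (algebraMap _ _ a + tau p m * B₂) -
    algebraMap _ _ a' * T₁ * (algebraMap _ _ a + tau p m * B₂) - algebraMap _ _ a' * B₂, ?_⟩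
  rw [eA, eT, eB]
  ring

end RankGrowAux2

/-- rank growth along the tower of three characters with `I_3` -/
theorem rank_grow {δ : ℕ} (hG : ProFree p δ G) {ι : Type} [Fintype ι] (ρ : ι → G)
    (χ : Fin 3 → Z1 p G) (hχ : ∀ j i, (χ j : G → ℤ_[p]) (ρ i) = 0)
    (hi : Indep p ⊤ (fun i => (χ i : G → ℤ_[p])))
    (hI : IK p ρ (fun j => redp p (χ j : G → ℤ_[p]))) (m : ℕ)
    {ι' : Type} [Fintype ι'] (ρ' : ι' → ↥(redm p χ m).ker) (idx : ι' → ι) (x : ι' → G)
    (hPP : PP p ρ (fun _ => 0) (redm p χ m).ker ρ' idx x)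
    (z : ι' → ZMod p) (hz : z ∈ Z2 p ρ') (hz0 : z ≠ 0) :
    RankGE p ρ' z (p ^ m - 2) := by
  classical
  by_cases hpm : p ^ m ≤ 2
  · rw [show p ^ m - 2 = 0 by omega]
    exact ⟨fun _ => 0, fun _ => 0, fun a => a.elim0, fun a => a.elim0, fun a => a.elim0⟩
  have hpm3 : 3 ≤ p ^ m := by omega
  set η : Fin 3 → G → ZMod p := fun j => redp p (χ j : G → ℤ_[p]) with hη
  have ha := redm_locConst χ m
  have hs := redm_surj χ hi m
  have hρ1 : ∀ i, redm p χ m (ρ i) = 1 := by
    intro i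
    change Multiplicative.ofAdd _ = 1
    rw [← ofAdd_zero]
    congr 1
    funext j
    rw [hχ, map_zero]; rfl
  have hord : ∀ i n, redm p χ m (ρ i) ^ n = 1 ↔ p ^ (fun _ : ι => 0) i ∣ n := by
    intro i n
    rw [hρ1, one_pow, pow_zero]
    simp
  have hAdm : Adm p ρ (fun _ => 0) (redm p χ m).ker := ker_adm ρ (fun _ => 0) _ ha hord
  -- every element of `Z2 ρ'` comes from `Z2 ρ`
  have hZt : (finrank (ZMod p) (Z2 p ρ) : ℤ) = h2 p ρ (fun _ => 0) ⊤ := by
    have hP : PP p ρ (fun _ : ι => 0) (⊤ : Subgroup G) (fun i => ⟨ρ i, Subgroup.mem_top _⟩)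
        (fun i : ι => i) (fun _ => (1 : G)) := by
      refine ⟨fun l => by simp, fun i g => ⟨i, rfl, g, Subgroup.mem_top _, 0, by simp⟩,
        fun l l' h _ => h⟩
    have hA : Adm p ρ (fun _ : ι => 0) (⊤ : Subgroup G) :=
      ⟨isOpen_univ, le_top, fun i x a _ => by simp⟩
    rw [← hP.finrank_Z2 hG hA]
    have e : Z2 p (fun i => (⟨ρ i, Subgroup.mem_top _⟩ : (⊤ : Subgroup G))) = Z2 p ρ := by
      ext z
      constructor
      · intro h f hf
        exact h (fun x => f x) ⟨hf.1.comp_continuous continuous_subtype_val,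
          fun x y => hf.2 x y⟩
      · intro h f hf
        exact h (fun x => f ⟨x, Subgroup.mem_top _⟩)
          ⟨hf.1.comp_continuous (continuous_id.subtype_mk _),
            fun x y => hf.2 ⟨x, Subgroup.mem_top _⟩ ⟨y, Subgroup.mem_top _⟩⟩
    rw [e]
  have hZ' : finrank (ZMod p) (Z2 p ρ) = finrank (ZMod p) (Z2 p ρ') := by
    have h1 := hPP.finrank_Z2 hG hAdm
    have h2' := IK.h2_const hG ρ χ hχ hi hI m
    rw [← redm_ker, ← h1, ← hZt] at h2'
    exact_mod_cast h2'.symm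
  have hmem : ∀ κ ∈ Z2 p ρ, (fun l => κ (idx l)) ∈ Z2 p ρ' := by
    intro κ hκ
    refine (rank_inv hG ρ (fun _ => 0) (redm p χ m) ha hs hord ρ' idx x hPP κ hκ 0 0
      (Submodule.zero_mem _) (Submodule.zero_mem _) (fun i => rfl) (fun i => rfl) 0
      ⟨0, 0, IsLocallyConstant.const 0, fun x y => ?_, fun i => ?_, ?_⟩ 0 (Nat.zero_le _)).1
    · simp
    · simp
    · simp
  let F : Z2 p ρ →ₗ[ZMod p] Z2 p ρ' :=
    { toFun := fun κ => ⟨fun l => (κ : ι → ZMod p) (idx l), hmem κ κ.2⟩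
      map_add' := fun _ _ => rfl
      map_smul' := fun _ _ => rfl }
  have hF : Function.Injective F := by
    intro κ κ' h
    apply Subtype.ext
    funext i
    obtain ⟨l, hl, -⟩ := hPP.cover i 1
    have := congrFun (congrArg Subtype.val h) l
    simpa [F, hl] using this
  obtain ⟨⟨κ, hκ⟩, hκz⟩ := (LinearMap.injective_iff_surjective_of_finrank_eq_finrank hZ').1 hF
    ⟨z, hz⟩
  have hzκ : z = fun l => κ (idx l) := (congrArg Subtype.val hκz).symm
  have hκ0 : κ ≠ 0 := by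
    rintro rfl
    exact hz0 hzκ
  subst hzκ
  -- the pair of cocycles
  obtain ⟨a, a', c, haP, ha'P, hc1, hc1', hc2, hc2', hne⟩ :=
    exists_koszul_pair hG ρ χ hχ hI κ hκ hκ0
  obtain ⟨Θ, hΘ, hΘρ, hΘa⟩ := lift1 hG ρ χ hχ hI m a haP hc1 hc2
  obtain ⟨Θ', hΘ', hΘρ', hΘa'⟩ := lift1 hG ρ χ hχ hI m a' ha'P hc1' hc2'
  obtain ⟨b, hb⟩ := exists_isB hG ρ (fun _ => 0) (redm p χ m) ha hord κ Θ' Θ hΘ' hΘ
    (fun i => by rw [pow_zero, pow_one]; exact hΘρ' i)
    (fun i => by rw [pow_zero, pow_one]; exact hΘρ i)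
  refine (rank_inv hG ρ (fun _ => 0) (redm p χ m) ha hs hord ρ' idx x hPP κ hκ Θ' Θ
      hΘ' hΘ (fun i => by rw [pow_zero, pow_one]; exact hΘρ' i)
      (fun i => by rw [pow_zero, pow_one]; exact hΘρ i) b hb _ ?_).2
  obtain ⟨Φ, Ψ, hΦlc, hΦ, hΨ, hbe⟩ := hb
  -- the specialisation
  let cc : Fin 3 → ZMod (p ^ m) := fun j => ((c j).val : ZMod (p ^ m))
  let lam : (Fin 3 → ZMod (p ^ m)) →+ ZMod (p ^ m) :=
    { toFun := fun v => ∑ j, cc j * v j
      map_zero' := by simp
      map_add' := fun v w => by simp [mul_add, Finset.sum_add_distrib] }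
  have hlam1 : ∀ j (y : ZMod (p ^ m)), lam (Pi.single j y) = cc j * y := by
    intro j y
    change ∑ i, cc i * (Pi.single j y : Fin 3 → ZMod (p ^ m)) i = _
    rw [Finset.sum_eq_single j]
    · rw [Pi.single_eq_same]
    · intro i _ hij
      rw [Pi.single_eq_of_ne hij, mul_zero]
    · intro h; exact absurd (Finset.mem_univ _) h
  have hlam : Function.Surjective lam := by
    have hc0 : ∃ j, c j ≠ 0 := by
      by_contra hcon
      push Not at hcon
      apply hne
      simp only [hcon, zero_smul, Finset.sum_const_zero]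
      rw [cupVal_eq hκ (RankGrow_cup_zero (f := (0 : G → ZMod p)))]
      simp
    obtain ⟨j, hj⟩ := hc0
    have hu : IsUnit (cc j) := by
      rw [ZMod.isUnit_iff_coprime]
      apply Nat.Coprime.pow_right
      rw [Nat.coprime_comm, (Fact.out : p.Prime).coprime_iff_not_dvd]
      intro hd
      have := (ZMod.natCast_eq_zero_iff (c j).val p).2 hd
      rw [ZMod.natCast_zmod_val] at this
      exact hj this
    obtain ⟨u, hu⟩ := hu
    intro y
    refine ⟨Pi.single j (↑u⁻¹ * y), ?_⟩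
    rw [hlam1, ← hu, Units.mul_inv_cancel_left]
  refine finrank_span_ge m lam hlam b 2 ?_ (by omega)
  have hmI2 : mI p (ZMod (p ^ m)) ^ 2 = Ideal.span {tau p m ^ 2} := by
    rw [mI_eq_span_tau, Ideal.span_singleton_pow]
  have htj : ∀ j, gmap p lam (tt p (Pi.single j (1 : ZMod (p ^ m)))) - c j • tau p m ∈
      Ideal.span {tau p m ^ 2} := by
    intro j
    have := RankGrow_single p m (c j).val
    rw [ZMod.natCast_zmod_val] at this
    have e : gmap p lam (tt p (Pi.single j (1 : ZMod (p ^ m)))) =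
        AddMonoidAlgebra.single (((c j).val : ℕ) : ZMod (p ^ m)) (1 : ZMod p) - 1 := by
      rw [tt, map_sub, map_one, gmap_single, hlam1, mul_one]
    rw [e]
    exact this
  have hlin : ∀ (a : Fin 3 → G → ZMod p) (Θ : G → GA p (Fin 3 → ZMod (p ^ m))),
      (∀ x, Θ x - ∑ j, a j x • tt p (Pi.single j (1 : ZMod (p ^ m))) ∈
        mI p (Fin 3 → ZMod (p ^ m)) ^ 2) → ∀ x,
      gmap p lam (Θ x) - (∑ j, c j • a j) x • tau p m ∈ Ideal.span {tau p m ^ 2} := by
    intro a Θ h x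
    have h1 := gmap_mI_pow lam _ 2 (h x)
    rw [hmI2, map_sub, map_sum] at h1
    have h2 : ∑ j, a j x • (gmap p lam (tt p (Pi.single j (1 : ZMod (p ^ m)))) -
        c j • tau p m) ∈ Ideal.span {tau p m ^ 2} := by
      refine Ideal.sum_mem _ fun j _ => ?_
      rw [Algebra.smul_def]
      exact Ideal.mul_mem_left _ _ (htj j)
    have h3 := Ideal.add_mem _ h1 h2
    convert h3 using 1
    simp only [smul_sub, Finset.sum_sub_distrib, map_smul, Finset.sum_apply, Pi.smul_apply,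
      smul_eq_mul, Finset.sum_smul, smul_smul]
    have : ∀ j, a j x * c j = c j * a j x := fun j => mul_comm _ _
    simp only [this]
    abel
  set α : G → ZMod p := ∑ j, c j • a j with hα
  set α' : G → ZMod p := ∑ j, c j • a' j with hα'
  have hB := hlin a Θ hΘa
  have hA : ∀ x, gmap p lam (ginv p (Θ' x)) + α' x • tau p m ∈ Ideal.span {tau p m ^ 2} := by
    intro x
    have h1 := hlin a' Θ' hΘa' x
    rw [← hmI2] at h1
    have h2 := ginv_mI_sq _ 2 h1
    rw [hmI2, map_sub, map_smul, ginv_gmap] at h2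
    have h3 := Ideal.mul_mem_left _ (algebraMap (ZMod p) (GA p (ZMod (p ^ m))) (α' x))
      (RankGrow_ginv_tau p m)
    have h4 := Ideal.add_mem _ h2 h3
    convert h4 using 1
    rw [Algebra.smul_def, Algebra.smul_def]
    ring
  have hT : ∀ x, gmap p lam (TA p (redm p χ m) x) - 1 ∈ Ideal.span {tau p m} := by
    intro x
    rw [← mI_eq_span_tau]
    change aug p (gmap p lam (TA p (redm p χ m) x) - 1) = 0
    rw [map_sub, aug_gmap, aug_TA, map_one, sub_self]
  obtain ⟨L, hL⟩ := RankGrow_digits p m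
  let φ : G → GA p (ZMod (p ^ m)) := fun x => gmap p lam (Φ x)
  have hφ : ∀ x y, φ (x * y) - φ x - φ y + (α' x * α y) • tau p m ^ 2 ∈
      Ideal.span {tau p m ^ 3} := by
    intro x y
    have := RankGrow_prod p m _ _ _ (α' x) (α y) (hA x) (hT x) (hB y)
    convert this using 1
    simp only [φ, hΦ, map_add, map_mul]
    ring
  have hdig : ∀ x y, L (φ (x * y)) 0 = L (φ x) 0 + L (φ y) 0 ∧
      L (φ (x * y)) 1 = L (φ x) 1 + L (φ y) 1 ∧
      L (φ (x * y)) 2 = L (φ x) 2 + L (φ y) 2 - α' x * α y := by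
    intro x y
    have h1 := hφ x y
    have h2 := hL (φ (x * y))
    have h3 := hL (φ x)
    have h4 := hL (φ y)
    have h5 := RankGrow_uniq p m hpm3
      (L (φ (x * y)) 0 - L (φ x) 0 - L (φ y) 0)
      (L (φ (x * y)) 1 - L (φ x) 1 - L (φ y) 1)
      (L (φ (x * y)) 2 - L (φ x) 2 - L (φ y) 2 + α' x * α y) (by
        have h6 := Ideal.sub_mem _ (Ideal.add_mem _ (Ideal.add_mem _ h1 h3) h4) h2
        convert h6 using 1
        module)
    refine ⟨?_, ?_, ?_⟩
    · linear_combination h5.1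
    · linear_combination h5.2.1
    · linear_combination h5.2.2
  have hφlc : IsLocallyConstant φ := hΦlc.comp (gmap p lam)
  have hg0 : (fun x => L (φ x) 0) ∈ Hom1 p G :=
    ⟨hφlc.comp (fun b => L b 0), fun x y => (hdig x y).1⟩
  have hg1 : (fun x => L (φ x) 1) ∈ Hom1 p G :=
    ⟨hφlc.comp (fun b => L b 1), fun x y => (hdig x y).2.1⟩
  have hg2 : IsCup p α' α (fun x => -L (φ x) 2) := by
    refine ⟨hφlc.comp (fun b => -L b 2), fun x y => ?_⟩
    change -L (φ (x * y)) 2 = -L (φ x) 2 + -L (φ y) 2 + α' x * α y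
    rw [(hdig x y).2.2]; ring
  have e0 : ∑ i, κ i * L (φ (ρ i)) 0 = 0 := hκ _ hg0
  have e1 : ∑ i, κ i * L (φ (ρ i)) 1 = 0 := hκ _ hg1
  have e2 : ∑ i, κ i * L (φ (ρ i)) 2 = - cupVal p ρ κ α' α := by
    rw [cupVal_eq hκ hg2]
    simp
  have hbr : gmap p lam b - (- cupVal p ρ κ α' α) • tau p m ^ 2 ∈
      Ideal.span {tau p m ^ 3} := by
    have h1 : ∑ i, κ i • (φ (ρ i) - (L (φ (ρ i)) 0 • (1 : GA p (ZMod (p ^ m))) +
        L (φ (ρ i)) 1 • tau p m + L (φ (ρ i)) 2 • tau p m ^ 2)) ∈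
        Ideal.span {tau p m ^ 3} := by
      refine Ideal.sum_mem _ fun i _ => ?_
      rw [Algebra.smul_def]
      exact Ideal.mul_mem_left _ _ (hL _)
    convert h1 using 1
    simp only [smul_sub, smul_add, Finset.sum_sub_distrib, Finset.sum_add_distrib, smul_smul]
    rw [← Finset.sum_smul, ← Finset.sum_smul, ← Finset.sum_smul, e0, e1, e2, zero_smul,
      zero_smul, zero_add, zero_add]
    congr 1
    rw [hbe, map_sum]
    refine Finset.sum_congr rfl fun i _ => ?_
    rw [map_smul, hΘρ i, mul_zero, add_zero]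
  have hu : HasOrd p m ((- cupVal p ρ κ α' α) • tau p m ^ 2) 2 := by
    refine ⟨algebraMap (ZMod p) (GA p (ZMod (p ^ m))) (- cupVal p ρ κ α' α), ?_, ?_⟩
    · exact (IsUnit.mk0 _ (neg_ne_zero.2 hne)).map _
    · rw [Algebra.smul_def]
  have := hu.add hbr
  simpa using this

end Pool.Agent.RFA
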