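import Pool.Agent.RFA.Root
import Pool.Agent.RFA.RankGrow

set_option autoImplicit false

namespace Pool.Agent.RFA

open Topology Module

variable {p : ℕ} [Fact p.Prime] {G : Type} [Group G] [TopologicalSpace G] [IsTopologicalGroup G]

section LoopsA

omit [IsTopologicalGroup G] in
theorem loops_one {R V : Subgroup G} {φ : G → ℤ_[p]} (h : IsZ p R V φ) : φ 1 = 0 := by
  have := h.mul 1 V.one_mem 1 V.one_mem
  rw [mul_one] at this
  simpa using this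

omit [IsTopologicalGroup G] in
theorem loops_inv {R V : Subgroup G} {φ : G → ℤ_[p]} (h : IsZ p R V φ) {x : G} (hx : x ∈ V) :
    φ x⁻¹ = - φ x := by
  have := h.mul x hx x⁻¹ (V.inv_mem hx)
  rw [mul_inv_cancel, loops_one h] at this
  linear_combination -this

omit [IsTopologicalGroup G] in
theorem loops_pow {R V : Subgroup G} {φ : G → ℤ_[p]} (h : IsZ p R V φ) {x : G} (hx : x ∈ V)
    (n : ℕ) : φ (x ^ n) = n * φ x := by
  induction n with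
  | zero => simp [loops_one h]
  | succ n ih => rw [pow_succ, h.mul _ (V.pow_mem hx n) _ hx, ih]; push_cast; ring

omit [IsTopologicalGroup G] in
theorem loops_conj_val {R V : Subgroup G} {φ : G → ℤ_[p]} (h : IsZ p R V φ) {x y : G}
    (hx : x ∈ V) (hy : y ∈ V) : φ (x * y * x⁻¹) = φ y := by
  rw [h.mul _ (V.mul_mem hx hy) _ (V.inv_mem hx), h.mul _ hx _ hy, loops_inv h hx]
  ring

theorem loops_dvd_iff (z : ℤ_[p]) : (p : ℤ_[p]) ∣ z ↔ PadicInt.toZMod z = 0 := by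
  rw [← RingHom.mem_ker, PadicInt.ker_toZMod, PadicInt.maximalIdeal_eq_span_p,
    Ideal.mem_span_singleton]

theorem loops_dvd_pow_iff (m : ℕ) (z : ℤ_[p]) :
    (p : ℤ_[p]) ^ m ∣ z ↔ PadicInt.toZModPow m z = 0 := by
  rw [← RingHom.mem_ker, PadicInt.ker_toZModPow, Ideal.mem_span_singleton]

theorem loops_unit_iff (z : ℤ_[p]) : IsUnit z ↔ ¬ (p : ℤ_[p]) ∣ z := by
  rw [loops_dvd_iff, ← RingHom.mem_ker, PadicInt.ker_toZMod,
    IsLocalRing.mem_maximalIdeal, mem_nonunits_iff, not_not]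

theorem loops_dvd_nat (m n : ℕ) (u : ℤ_[p]) (hu : IsUnit u) (h : (p : ℤ_[p]) ^ m ∣ n * u) :
    p ^ m ∣ n := by
  rw [loops_dvd_pow_iff, map_mul] at h
  have h2 := (hu.map (PadicInt.toZModPow m))
  have h3 : PadicInt.toZModPow m (n : ℤ_[p]) = 0 := by
    rcases h2 with ⟨w, hw⟩
    rw [← hw] at h
    exact (Units.mul_left_eq_zero w).1 h
  rw [map_natCast] at h3
  exact (ZMod.natCast_eq_zero_iff n (p ^ m)).1 h3

theorem loops_toZMod_locConst {X : Type} [TopologicalSpace X] {φ : X → ℤ_[p]}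
    (h : Continuous φ) : IsLocallyConstant (fun x => PadicInt.toZMod (φ x)) := by
  rw [IsLocallyConstant.iff_exists_open]
  intro x
  refine ⟨{y | ‖φ y - φ x‖ < 1}, ?_, ?_, ?_⟩
  · exact isOpen_lt ((h.sub continuous_const).norm) continuous_const
  · simp
  · intro y hy
    have h1 : φ y - φ x ∈ RingHom.ker (PadicInt.toZMod (p := p)) := by
      rw [PadicInt.ker_toZMod, IsLocalRing.mem_maximalIdeal, PadicInt.mem_nonunits]
      exact hy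
    rw [RingHom.mem_ker, map_sub, sub_eq_zero] at h1
    exact h1

omit [IsTopologicalGroup G] in
theorem loops_homR {R V : Subgroup G} {φ : G → ℤ_[p]} (h : IsZ p R V φ) :
    (fun x : ↥V => PadicInt.toZMod (φ x)) ∈ HomR p R V := by
  refine ⟨⟨loops_toZMod_locConst (continuousOn_iff_continuous_domRestrict.1 h.cont), ?_⟩, ?_⟩
  · intro x y
    show PadicInt.toZMod (φ ((x : G) * y)) = _
    rw [h.mul _ x.2 _ y.2, map_add]
  · intro x hx
    show PadicInt.toZMod (φ x) = 0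
    rw [h.rel _ hx, map_zero]

theorem loops_root (hp : p ≠ 2) (κ : ℤ_[p]) (N : ℕ) (h : κ ^ p ^ N = 1) : κ = 1 := by
  have hpp : p.Prime := Fact.out
  have h1 : (p : ℤ_[p]) ∣ κ - 1 := by
    rw [loops_dvd_iff, map_sub, map_one]
    have := congrArg (PadicInt.toZMod (p := p)) h
    rw [map_pow, ZMod.pow_card_pow, map_one] at this
    rw [this, sub_self]
  have h2 : ¬ (p : ℤ_[p]) ∣ κ := by
    intro h3
    have h4 : (p : ℤ_[p]) ∣ 1 := by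
      have := dvd_sub h3 h1
      simpa using this
    exact PadicInt.prime_p.not_isUnit (isUnit_of_dvd_one h4)
  have h3 := emultiplicity_pow_prime_pow_sub_pow_prime_pow (p := p) (PadicInt.prime_p (p := p))
    (hpp.odd_of_ne_two hp) h1 h2 N
  rw [h, one_pow, sub_self, emultiplicity_zero] at h3
  by_contra hne
  have h4 : FiniteMultiplicity (p : ℤ_[p]) (κ - 1) :=
    FiniteMultiplicity.of_prime_left PadicInt.prime_p (sub_ne_zero.2 hne)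
  rw [h4.emultiplicity_eq_multiplicity] at h3
  exact absurd h3.symm (by
    rw [← Nat.cast_add]
    exact ENat.natCast_ne_top _)

end LoopsA

section LoopsC

omit [Fact p.Prime] in
theorem loops_tr_hom1 {H H' : Type} [Group H] [TopologicalSpace H] [Group H']
    [TopologicalSpace H'] (φ : H →* H') (h1 : Continuous φ) {f : H' → ZMod p}
    (hf : f ∈ Hom1 p H') : (fun x => f (φ x)) ∈ Hom1 p H := by
  refine ⟨hf.1.comp_continuous h1, fun x y => ?_⟩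
  simp only [map_mul]
  exact hf.2 _ _

omit [Fact p.Prime] in
theorem loops_tr_Z2 {H H' : Type} [Group H] [TopologicalSpace H] [Group H']
    [TopologicalSpace H'] (φ : H →* H') (φ' : H' →* H) (h1 : Continuous φ) (h2 : Continuous φ')
    (_hφ : ∀ x, φ (φ' x) = x) (hφ' : ∀ x, φ' (φ x) = x)
    {ι : Type} [Fintype ι] (ρ : ι → H) (ρ' : ι → H') (hρ : ∀ i, ρ' i = φ (ρ i)) :
    Z2 p ρ = Z2 p ρ' := by
  ext z
  constructor
  · intro hz f hf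
    have := hz _ (loops_tr_hom1 φ h1 hf)
    simpa only [hρ] using this
  · intro hz f hf
    have := hz _ (loops_tr_hom1 φ' h2 hf)
    simpa only [hρ, hφ'] using this

theorem loops_tr_rank {H H' : Type} [Group H] [TopologicalSpace H] [IsTopologicalGroup H]
    [Group H'] [TopologicalSpace H'] [IsTopologicalGroup H'] (hH2 : H2zero p H)
    (φ : H →* H') (φ' : H' →* H)
    (h1 : Continuous φ) (h2 : Continuous φ')
    (hφ : ∀ x, φ (φ' x) = x) (hφ' : ∀ x, φ' (φ x) = x)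
    {ι : Type} [Fintype ι] (ρ : ι → H) (ρ' : ι → H') (hρ : ∀ i, ρ' i = φ (ρ i))
    (z : ι → ZMod p) (hz : z ∈ Z2 p ρ) (n : ℕ) (h : RankGE p ρ z n) : RankGE p ρ' z n := by
  obtain ⟨f, g, hf, hg, hfg⟩ := h
  have hz' : z ∈ Z2 p ρ' := by
    rw [← loops_tr_Z2 φ φ' h1 h2 hφ hφ' ρ ρ' hρ]; exact hz
  refine ⟨fun a x => f a (φ' x), fun a x => g a (φ' x), fun a => ⟨loops_tr_hom1 φ' h2 (hf a).1, ?_⟩,
    fun a => ⟨loops_tr_hom1 φ' h2 (hg a).1, ?_⟩, ?_⟩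
  · intro i
    simp only [hρ, hφ']
    exact (hf a).2 i
  · intro i
    simp only [hρ, hφ']
    exact (hg a).2 i
  · intro a b
    obtain ⟨k, hk⟩ := cup_exists hH2 (hf a).1 (hg b).1
    have hk' : IsCup p (fun x => f a (φ' x)) (fun x => g b (φ' x)) (fun x => k (φ' x)) := by
      refine ⟨hk.1.comp_continuous h2, fun x y => ?_⟩
      simp only [map_mul]
      exact hk.2 _ _
    rw [cupVal_eq hz' hk', ← hfg a b, cupVal_eq hz hk]
    simp only [hρ, hφ']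

omit [Fact p.Prime] in
theorem loops_rank_mono {H : Type} [Group H] [TopologicalSpace H] {ι : Type} [Fintype ι]
    (ρ : ι → H) (z : ι → ZMod p) (n n' : ℕ) (hn : n' ≤ n) (h : RankGE p ρ z n) :
    RankGE p ρ z n' := by
  obtain ⟨f, g, hf, hg, hfg⟩ := h
  refine ⟨fun a => f (Fin.castLE hn a), fun a => g (Fin.castLE hn a), fun a => hf _,
    fun a => hg _, fun a b => ?_⟩
  rw [hfg]
  simp

/-- the two natural maps between `↥K` and `↥(K.map V.subtype)` -/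
theorem loops_sub_iso {G : Type} [Group G] [TopologicalSpace G] (V : Subgroup G)
    (K : Subgroup ↥V) : ∃ (φ : ↥K →* ↥(K.map V.subtype)) (φ' : ↥(K.map V.subtype) →* ↥K),
      Continuous φ ∧ Continuous φ' ∧ (∀ x, φ (φ' x) = x) ∧ (∀ x, φ' (φ x) = x) ∧
      ∀ x : ↥K, ((φ x : ↥(K.map V.subtype)) : G) = ((x : ↥V) : G) := by
  have hmem : ∀ x : ↥(K.map V.subtype), (x : G) ∈ V := fun x => Subgroup.map_subtype_le K x.2
  have hmem2 : ∀ x : ↥(K.map V.subtype), (⟨(x : G), hmem x⟩ : ↥V) ∈ K := by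
    rintro ⟨x, hx⟩
    obtain ⟨y, hy, hyx⟩ := hx
    have : (⟨x, hmem ⟨x, ⟨y, hy, hyx⟩⟩⟩ : ↥V) = y := by
      apply Subtype.ext; exact hyx.symm
    rw [this]; exact hy
  refine ⟨⟨⟨fun x => ⟨((x : ↥V) : G), Subgroup.mem_map_of_mem V.subtype x.2⟩, rfl⟩,
    fun x y => rfl⟩, ⟨⟨fun x => ⟨⟨(x : G), hmem x⟩, hmem2 x⟩, rfl⟩, fun x y => rfl⟩, ?_, ?_, ?_, ?_,
    ?_⟩
  · exact Continuous.subtype_mk (continuous_subtype_val.comp continuous_subtype_val) _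
  · exact Continuous.subtype_mk (Continuous.subtype_mk continuous_subtype_val _) _
  · intro x; rfl
  · intro x; rfl
  · intro x; rfl

end LoopsC

section LoopsD

/-- a bounded certificate on `L` whose first character is a unit on all conjugates of the loop -/
theorem loops_chi {δ : ℕ} (hG : ProFree p δ G) (S : Stage p δ G) (L : Subgroup G)
    (hLo : IsOpen (L : Set G)) (hR : S.R ≤ L) (hLV : L ≤ S.V) (hL : Adm p S.r S.e L)
    (χ₀ : G → ℤ_[p]) (hχ₀ : IsZ p S.R L χ₀) (u : G → G) (hu : ∀ g, u g ∈ L)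
    (hunit : ∀ g, IsUnit (χ₀ (u g))) :
    ∃ χ : Fin 3 → G → ℤ_[p], (∀ i, IsZ p S.R L (χ i)) ∧ Indep p L χ ∧ Bdd p S.r S.e L χ ∧
      ∀ g, IsUnit (χ 0 (u g)) := by
  obtain ⟨χ', c, hχ', hi', hJ⟩ := renorm hG S.adm.isOpen hLo hLV hR (R := S.R) S.isZ S.indep
  have hb : Bdd p S.r S.e L S.χ := Bdd.sub hG S.adm hL hLV S.isZ S.bdd
  have hb' : Bdd p S.r S.e L χ' :=
    Bdd.dom hG hL (χ := S.χ) (χ' := χ') (fun i => (S.isZ i).mono hLV) hχ' c hJ hb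
  obtain ⟨i, l, σ, h1, h2⟩ := mix_exchange hG S.r S.e L hL (k := 2) χ' hχ' χ₀ hχ₀ hi'
    ⟨u 1, hu 1, (loops_unit_iff _).1 (hunit 1)⟩ hb'
  refine ⟨_, ?_, h1, h2, ?_⟩
  · intro j
    refine Fin.cases ?_ (fun j => ?_) j
    · simp only [Fin.cons_zero]
      have := IsZ.comb hχ₀ (hχ' i) 1 ((p : ℤ_[p]) * l)
      simpa only [one_mul] using this
    · simp only [Fin.cons_succ]
      exact hχ' _
  · intro g
    simp only [Fin.cons_zero]
    rw [loops_unit_iff, loops_dvd_iff, map_add, map_mul, map_mul]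
    have h3 : PadicInt.toZMod ((p : ℤ_[p])) = 0 := (loops_dvd_iff _).1 dvd_rfl
    rw [h3, zero_mul, zero_mul, add_zero, ← loops_dvd_iff, ← loops_unit_iff]
    exact hunit g

/-- the pair `ω` killing `v` -/
noncomputable def loopsOm (χ : Fin 3 → G → ℤ_[p]) (a : Fin 2 → ℤ_[p]) : Fin 2 → G → ℤ_[p] :=
  fun i x => χ i.succ x - a i * χ 0 x

theorem loops_om_isZ {R L : Subgroup G} {χ : Fin 3 → G → ℤ_[p]} (hχ : ∀ i, IsZ p R L (χ i))
    (a : Fin 2 → ℤ_[p]) (i : Fin 2) : IsZ p R L (loopsOm χ a i) := by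
  have := IsZ.comb (hχ i.succ) (hχ 0) 1 (- a i)
  show IsZ p R L (fun x => χ i.succ x - a i * χ 0 x)
  simpa only [one_mul, neg_mul, ← sub_eq_add_neg] using this

omit [TopologicalSpace G] [IsTopologicalGroup G] in
theorem loops_om_indep {L : Subgroup G} {χ : Fin 3 → G → ℤ_[p]} (hi : Indep p L χ)
    (a : Fin 2 → ℤ_[p]) : Indep p L (loopsOm χ a) := by
  intro c hc
  have := hi (Fin.cons (-∑ i, c i * PadicInt.toZMod (a i)) c) (fun x hx => by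
    rw [Fin.sum_univ_succ]
    simp only [Fin.cons_zero, Fin.cons_succ]
    have h1 := hc x hx
    simp only [loopsOm, map_sub, map_mul, Fin.sum_univ_two, Fin.succ_zero_eq_one,
      Fin.succ_one_eq_two] at h1 ⊢
    linear_combination h1)
  funext i
  have h2 := congrFun this i.succ
  simpa using h2

theorem loops_om_le {R L : Subgroup G} {χ : Fin 3 → G → ℤ_[p]} (hχ : ∀ i, IsZ p R L (χ i))
    (a : Fin 2 → ℤ_[p]) (m : ℕ) : Jlev p L χ m ≤ Jlev p L (loopsOm χ a) m := by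
  intro x hx
  rw [mem_Jlev hχ] at hx
  rw [mem_Jlev (loops_om_isZ hχ a)]
  exact ⟨hx.1, fun i => dvd_sub (hx.2 _) ((hx.2 _).mul_left _)⟩

/-- uniform thresholds for the stabiliser lemma -/
theorem loops_thresh {δ : ℕ} (hG : ProFree p δ G) {I : Type} [Fintype I] (r : I → G) (e : I → ℕ)
    (L : Subgroup G) (hL : Adm p r e L) (hLn : L.Normal) (χ : Fin 3 → G → ℤ_[p])
    (hχ : ∀ i, IsZ p (Rel p r e) L (χ i)) (hi : Indep p L χ) (hb : Bdd p r e L χ)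
    (a : G → Fin 2 → ℤ_[p]) (ha : ∀ g, ∀ b ∈ L, a (b * g) = a g) :
    ∃ M, ∀ m ≥ M, ∀ g : G,
      (∀ u b : ↥L, (∀ i, loopsOm χ (a g) i u = 0) → (∃ f ∈ HomR p (Rel p r e) L, f u ≠ 0) →
        (∀ i, (p : ℤ_[p]) ^ (m - 1) ∣ loopsOm χ (a g) i b) →
        (∃ i, ¬ (p : ℤ_[p]) ^ m ∣ loopsOm χ (a g) i b) →
        ∃ φ : G → ℤ_[p], IsZ p (Rel p r e) (Jlev p L (loopsOm χ (a g)) m) φ ∧
          ¬ (p : ℤ_[p]) ∣ φ (b * u * b⁻¹ * u⁻¹ : ↥L)) := by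
  have hfi : L.FiniteIndex := hG.finiteIndex L hL.isOpen
  have hfin : Finite (G ⧸ L) := inferInstance
  have := Fintype.ofFinite (G ⧸ L)
  have key : ∀ g : G, ∃ m₀, ∀ m ≥ m₀,
      (∀ u b : ↥L, (∀ i, loopsOm χ (a g) i u = 0) → (∃ f ∈ HomR p (Rel p r e) L, f u ≠ 0) →
        (∀ i, (p : ℤ_[p]) ^ (m - 1) ∣ loopsOm χ (a g) i b) →
        (∃ i, ¬ (p : ℤ_[p]) ^ m ∣ loopsOm χ (a g) i b) →
        ∃ φ : G → ℤ_[p], IsZ p (Rel p r e) (Jlev p L (loopsOm χ (a g)) m) φ ∧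
          ¬ (p : ℤ_[p]) ∣ φ (b * u * b⁻¹ * u⁻¹ : ↥L)) := by
    intro g
    have hbd : Bdd p r e L (loopsOm χ (a g)) := by
      refine Bdd.dom hG hL (χ := χ) (χ' := loopsOm χ (a g)) hχ (loops_om_isZ hχ _) 0 ?_ hb
      intro m
      exact loops_om_le hχ _ m
    obtain ⟨m₀, hm₀⟩ := dls hG r e L hL (loopsOm χ (a g)) (loops_om_isZ hχ _)
      (loops_om_indep hi _) hbd
    exact ⟨m₀, fun m hm => (hm₀ m hm).2⟩
  choose m₀ hm₀ using key
  refine ⟨Finset.univ.sup (fun q : G ⧸ L => m₀ q.out), fun m hm g => ?_⟩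
  have h1 : a g = a (QuotientGroup.mk (s := L) g).out := by
    obtain ⟨h, hh⟩ := QuotientGroup.mk_out_eq_mul L g
    rw [hh]
    have : g * (h : G) = (g * h * g⁻¹) * g := by group
    rw [this, ha _ _ (hLn.conj_mem _ h.2 g)]
  rw [h1]
  exact hm₀ _ m (le_trans (Finset.le_sup (f := fun q : G ⧸ L => m₀ q.out)
    (Finset.mem_univ (QuotientGroup.mk (s := L) g))) hm)

end LoopsD

section LoopsF

/-- the condition `IK` from equality of `h2` at the first level, in relative form -/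
theorem loops_IK {δ : ℕ} (hG : ProFree p δ G) {I : Type} [Fintype I] {r : I → G} {e : I → ℕ}
    {V : Subgroup G} (hV : Adm p r e V) {k : ℕ} {ψ : Fin k → G → ℤ_[p]}
    (hψ : ∀ i, IsZ p (Rel p r e) V (ψ i)) (hi : Indep p V ψ)
    {ι : Type} [Fintype ι] {ρ : ι → ↥V} {idx : ι → I} {x : ι → G} (h : PP p r e V ρ idx x)
    (heq : h2 p r e (Jlev p V ψ 1) = h2 p r e V) :
    IK p ρ (fun j => redp p (fun y : ↥V => ψ j y)) := by
  have hG' := hG.sub V hV.isOpen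
  have hrel : ∀ l, ((ρ l : ↥V) : G) ∈ Rel p r e := by
    intro l
    rw [h.rho_eq]
    exact Subgroup.Normal.conj_mem inferInstance _ (Rel.mem r e _) _
  have htop : (⊤ : Subgroup ↥V).map V.subtype = V := by
    rw [← MonoidHom.range_eq_map, Subgroup.range_subtype]
  have hψ' : ∀ i, IsZ p (Rel p r e) ((⊤ : Subgroup ↥V).map V.subtype) (ψ i) := by
    rw [htop]; exact hψ
  have hJm := Jlev_map (⊤ : Subgroup ↥V) hψ' 1
  have hi' : Indep p (⊤ : Subgroup ↥V) (fun i (x : ↥V) => ψ i x) := by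
    rw [indep_sub, htop]; exact hi
  have hadm : ∀ J : Subgroup ↥V, Adm p ρ (fun _ => 0) J ↔ Adm p r e (J.map V.subtype) := by
    intro J
    have := PP.adm (fun i => le_refl (e i)) hV.isOpen hV.cyc hV.rel_le h J
    simpa only [Nat.sub_self] using this
  have hh2 : ∀ J : Subgroup ↥V, Adm p r e (J.map V.subtype) →
      h2 p ρ (fun _ => 0) J = h2 p r e (J.map V.subtype) := by
    intro J hJ
    have := PP.h2_eq hG (fun i => le_refl (e i)) hV.isOpen hV.cyc hV.rel_le h J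
    simp only [Nat.sub_self] at this
    exact this ((hadm J).2 hJ)
  refine IK_of_h2 hG' ρ (fun j => (hψ j).toZ1) (fun j i => (hψ j).rel _ (hrel i)) hi' ?_
  have h3 : Adm p r e ((Jlev p (⊤ : Subgroup ↥V) (fun i (x : ↥V) => ψ i x) 1).map V.subtype) := by
    rw [hJm, htop]
    exact Jlev_adm hG hV hψ 1
  have h4 : Adm p r e ((⊤ : Subgroup ↥V).map V.subtype) := by rw [htop]; exact hV
  rw [hh2 _ h4]
  refine (hh2 _ h3).trans ?_
  rw [hJm, htop]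
  exact heq

theorem loops_tower {δ : ℕ} (hG : ProFree p δ G) {I : Type} [Fintype I] {r : I → G} {e : I → ℕ}
    {L : Subgroup G} (hL : Adm p r e L) {χ : Fin 3 → G → ℤ_[p]}
    (hχ : ∀ i, IsZ p (Rel p r e) L (χ i)) (hi : Indep p L χ) (hb : Bdd p r e L χ) (M : ℕ) :
    ∃ m₁ ≥ M, ∃ V, V = Jlev p L χ m₁ ∧ ∃ (ι : Type) (_ : Fintype ι) (ρ : ι → ↥V) (idx : ι → I)
      (x : ι → G), PP p r e V ρ idx x ∧
        IK p ρ (fun _ : Fin 1 => redp p (fun y : ↥V => divp p m₁ (χ 0 y))) ∧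
        ∀ z ∈ Z2 p ρ, z ≠ 0 → RankGE p ρ z (4 * finrank (ZMod p) (Z2 p ρ) + 1) := by
  obtain ⟨m₀, hm₀⟩ := Bdd.stab hG hL hχ hb
  have hVa : ∀ m, Adm p r e (Jlev p L χ m) := Jlev_adm hG hL hχ
  obtain ⟨ι₀, _, ρ₀, idx₀, x₀, hPP₀⟩ := exists_PP hG r e (Jlev p L χ m₀) (hVa m₀).isOpen
    (hVa m₀).cyc
  have hψ := fun i => (IsZ.divp hχ m₀ i).1
  have hψi := Indep.divp hG hL.isOpen hχ hi m₀
  have hG' := hG.sub _ (hVa m₀).isOpen
  have hrel : ∀ l, ((ρ₀ l : ↥(Jlev p L χ m₀)) : G) ∈ Rel p r e := by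
    intro l
    rw [hPP₀.rho_eq]
    exact Subgroup.Normal.conj_mem inferInstance _ (Rel.mem r e _) _
  have hIK₀ := loops_IK hG (hVa m₀) hψ hψi hPP₀ (by
    rw [Jlev_Jlev hχ, hm₀ (m₀ + 1) (Nat.le_succ _)])
  -- choose the level
  obtain ⟨m', hm'⟩ : ∃ m' : ℕ, M ≤ m' ∧ 4 * (h2 p r e (Jlev p L χ m₀)).toNat + 1 ≤ p ^ m' - 2 := by
    have hp2 : 2 ≤ p := (Fact.out : p.Prime).two_le
    refine ⟨max M (4 * (h2 p r e (Jlev p L χ m₀)).toNat + 3), le_max_left _ _, ?_⟩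
    have h1 : ∀ n : ℕ, n < p ^ n := fun n => Nat.lt_pow_self (by omega)
    have h2' : p ^ (4 * (h2 p r e (Jlev p L χ m₀)).toNat + 3) ≤
        p ^ (max M (4 * (h2 p r e (Jlev p L χ m₀)).toNat + 3)) :=
      Nat.pow_le_pow_right (by omega) (le_max_right _ _)
    have h3 := h1 (4 * (h2 p r e (Jlev p L χ m₀)).toNat + 3)
    omega
  set Ψ : Fin 3 → Z1 p ↥(Jlev p L χ m₀) := fun i => (hψ i).toZ1 with hΨ
  have htop : (⊤ : Subgroup ↥(Jlev p L χ m₀)).map (Jlev p L χ m₀).subtype = Jlev p L χ m₀ := by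
    rw [← MonoidHom.range_eq_map, Subgroup.range_subtype]
  have hψ' : ∀ i, IsZ p (Rel p r e) ((⊤ : Subgroup ↥(Jlev p L χ m₀)).map (Jlev p L χ m₀).subtype)
      (fun x => divp p m₀ (χ i x)) := by
    rw [htop]; exact hψ
  have hker : (redm p Ψ m').ker.map (Jlev p L χ m₀).subtype = Jlev p L χ (m₀ + m') := by
    rw [redm_ker]
    have h1 := Jlev_map (⊤ : Subgroup ↥(Jlev p L χ m₀)) hψ' m'
    rw [htop, Jlev_Jlev hχ] at h1
    exact h1
  have hadm : ∀ J : Subgroup ↥(Jlev p L χ m₀), Adm p ρ₀ (fun _ => 0) J ↔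
      Adm p r e (J.map (Jlev p L χ m₀).subtype) := by
    intro J
    have := PP.adm (fun i => le_refl (e i)) (hVa m₀).isOpen (hVa m₀).cyc (hVa m₀).rel_le hPP₀ J
    simpa only [Nat.sub_self] using this
  have hKa : Adm p ρ₀ (fun _ => 0) (redm p Ψ m').ker := by
    rw [hadm, hker]; exact hVa _
  obtain ⟨ι', _, ρ', idx', x', hPP'⟩ := exists_PP hG' ρ₀ (fun _ => 0) (redm p Ψ m').ker
    hKa.isOpen hKa.cyc
  have hcomp := PP.comp (hVa m₀) hPP₀ _ hKa hPP'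
  have hi' : Indep p (⊤ : Subgroup ↥(Jlev p L χ m₀)) (fun i => (Ψ i : ↥(Jlev p L χ m₀) → ℤ_[p])) := by
    have : Indep p (⊤ : Subgroup ↥(Jlev p L χ m₀))
      (fun i (x : ↥(Jlev p L χ m₀)) => divp p m₀ (χ i x)) := by
      rw [indep_sub (fun i x => divp p m₀ (χ i x)), htop]; exact hψi
    exact this
  have hrk := rank_grow hG' ρ₀ Ψ (fun j i => (hψ j).rel _ (hrel i)) hi' hIK₀ m' ρ' idx' x' hPP'
  obtain ⟨φ, φ', hc1, hc2, hφ, hφ', hφG⟩ := loops_sub_iso (Jlev p L χ m₀) (redm p Ψ m').ker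
  have hφρ : ∀ l, (⟨((ρ' l : ↥(Jlev p L χ m₀)) : G),
      Subgroup.mem_map_of_mem (Jlev p L χ m₀).subtype (ρ' l).2⟩ :
      ↥((redm p Ψ m').ker.map (Jlev p L χ m₀).subtype)) = φ (ρ' l) := by
    intro l
    apply Subtype.ext
    rw [hφG]
  have hVa1 : Adm p r e ((redm p Ψ m').ker.map (Jlev p L χ m₀).subtype) := by
    rw [hker]; exact hVa _
  have hZ2 := loops_tr_Z2 (p := p) φ φ' hc1 hc2 hφ hφ' ρ' _ hφρ
  have hfin := PP.finrank_Z2 hG hVa1 hcomp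
  refine ⟨m₀ + m', by omega, (redm p Ψ m').ker.map (Jlev p L χ m₀).subtype, hker, ι', inferInstance,
    _, _, _, hcomp, ?_, ?_⟩
  · have hdiv : ∀ i : Fin 1, IsZ p (Rel p r e) ((redm p Ψ m').ker.map (Jlev p L χ m₀).subtype)
        ((fun (_ : Fin 1) y => divp p (m₀ + m') (χ 0 y)) i) := by
      intro i
      rw [hker]
      exact (IsZ.divp hχ (m₀ + m') 0).1
    have hind : Indep p ((redm p Ψ m').ker.map (Jlev p L χ m₀).subtype)
        (fun (_ : Fin 1) y => divp p (m₀ + m') (χ 0 y)) := by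
      rw [hker]
      have h1 := Indep.divp hG hL.isOpen hχ hi (m₀ + m')
      intro c hc
      have h2 := h1 (Fin.cons (c 0) (fun _ => 0)) (fun x hx => by
        rw [Fin.sum_univ_succ]
        simp only [Fin.cons_zero, Fin.cons_succ, zero_mul, Finset.sum_const_zero, add_zero]
        simpa using hc x hx)
      funext i
      have h3 := congrFun h2 0
      rw [Subsingleton.elim i 0]
      simpa using h3
    refine loops_IK hG hVa1 hdiv hind hcomp ?_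
    have hJ' : Adm p r e (Jlev p ((redm p Ψ m').ker.map (Jlev p L χ m₀).subtype)
        (fun (_ : Fin 1) y => divp p (m₀ + m') (χ 0 y)) 1) := Jlev_adm hG hVa1 hdiv 1
    apply le_antisymm
    · have h1 : Jlev p L χ (m₀ + m' + 1) ≤ Jlev p ((redm p Ψ m').ker.map (Jlev p L χ m₀).subtype)
          (fun (_ : Fin 1) y => divp p (m₀ + m') (χ 0 y)) 1 := by
        intro y hy
        rw [mem_Jlev hdiv, hker]
        rw [← Jlev_Jlev hχ, mem_Jlev (fun i => (IsZ.divp hχ (m₀ + m') i).1)] at hy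
        exact ⟨hy.1, fun i => hy.2 0⟩
      have h2 := h2_mono hG r e _ _ hJ' (hVa (m₀ + m' + 1)) h1
      rw [hm₀ (m₀ + m' + 1) (by omega)] at h2
      rw [hker, hm₀ (m₀ + m') (by omega)] at *
      exact h2
    · exact h2_mono hG r e _ _ hVa1 hJ' (by
        intro y hy
        rw [mem_Jlev hdiv] at hy
        exact hy.1)
  · intro z hz hz0
    have hfin0 : h2 p r e ((redm p Ψ m').ker.map (Jlev p L χ m₀).subtype) =
        h2 p r e (Jlev p L χ m₀) := by rw [hker]; exact hm₀ (m₀ + m') (by omega)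
    rw [hfin0] at hfin
    have hfin' : finrank (ZMod p) (Z2 p (fun l => (⟨((ρ' l : ↥(Jlev p L χ m₀)) : G),
      Subgroup.mem_map_of_mem (Jlev p L χ m₀).subtype (ρ' l).2⟩ :
      ↥((redm p Ψ m').ker.map (Jlev p L χ m₀).subtype)))) =
        (h2 p r e (Jlev p L χ m₀)).toNat := by
      rw [← hfin]; simp
    rw [hfin']
    have hz' : z ∈ Z2 p ρ' := by rw [hZ2]; exact hz
    refine loops_rank_mono _ z _ _ hm'.2 ?_
    exact loops_tr_rank (hG'.sub _ hKa.isOpen).h2top φ φ' hc1 hc2 hφ hφ' ρ' _ hφρ z hz' _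
      (hrk z hz' hz0)

end LoopsF

section LoopsG

theorem loops_pval (m : ℕ) (z : ℤ_[p]) (h : (p : ℤ_[p]) ^ m ∣ z) :
    z = (p : ℤ_[p]) ^ m * divp p m z := by
  unfold divp
  rw [dif_pos h]
  exact Classical.choose_spec h

theorem loops_p_ne (m : ℕ) : (p : ℤ_[p]) ^ m ≠ 0 :=
  pow_ne_zero _ (PadicInt.prime_p (p := p)).ne_zero

theorem loops_divp_mul (m : ℕ) (z : ℤ_[p]) : divp p m ((p : ℤ_[p]) ^ m * z) = z := by
  have h := loops_pval m ((p : ℤ_[p]) ^ m * z) (dvd_mul_right _ _)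
  exact (mul_left_cancel₀ (loops_p_ne m) h).symm

/-- if two loops are proportional, then all characters of `L` agree on them -/
theorem loops_kappa (hp : p ≠ 2) {δ : ℕ} (hG : ProFree p δ G) {R L : Subgroup G} (hRn : R.Normal)
    (hLo : IsOpen (L : Set G)) (hLn : L.Normal) (χ₀ : G → ℤ_[p]) (hχ₀ : IsZ p R L χ₀)
    (u : G) (hu : u ∈ L) (g : G) (hunit : IsUnit (χ₀ u)) (κ : ℤ_[p])
    (hκ : ∀ φ, IsZ p R L φ → φ (g * u * g⁻¹) = κ * φ u) : κ = 1 := by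
  have h1 : ∀ j : ℕ, ∀ φ, IsZ p R L φ → φ (g ^ j * u * (g ^ j)⁻¹) = κ ^ j * φ u := by
    intro j
    induction j with
    | zero => intro φ _; simp
    | succ j ih =>
      intro φ hφ
      have h2 := hκ _ (IsZ.conj hRn hLn hφ (g ^ j))
      have h3 := ih φ hφ
      have h4 : g ^ (j + 1) * u * (g ^ (j + 1))⁻¹ = g ^ j * (g * u * g⁻¹) * (g ^ j)⁻¹ := by
        rw [pow_succ]; group
      rw [h4, h2, h3, pow_succ]
      ring
  obtain ⟨N, hN⟩ := hG.index_pow L hLo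
  have h5 : g ^ p ^ N ∈ L := by rw [← hN]; exact L.pow_index_mem g
  have h6 := h1 (p ^ N) χ₀ hχ₀
  rw [loops_conj_val hχ₀ h5 hu] at h6
  refine loops_root hp κ N ?_
  have h7 : χ₀ u ≠ 0 := hunit.ne_zero
  have h8 : (κ ^ p ^ N - 1) * χ₀ u = 0 := by rw [sub_mul, one_mul, ← h6, sub_self]
  rcases mul_eq_zero.1 h8 with h9 | h9
  · exact sub_eq_zero.1 h9
  · exact absurd h9 h7

/-- choice of a `p`-power multiple just outside `p ^ m` -/
theorem loops_pick (m : ℕ) (z : Fin 2 → ℤ_[p]) (h : ∃ i, ¬ (p : ℤ_[p]) ^ m ∣ z i) :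
    ∃ s : ℕ, (∀ i, (p : ℤ_[p]) ^ (m - 1) ∣ (p : ℤ_[p]) ^ s * z i) ∧
      ∃ i, ¬ (p : ℤ_[p]) ^ m ∣ (p : ℤ_[p]) ^ s * z i := by
  classical
  have hex : ∃ s : ℕ, ∀ i, (p : ℤ_[p]) ^ m ∣ (p : ℤ_[p]) ^ s * z i := ⟨m, fun i => dvd_mul_right _ _⟩
  have hs := Nat.find_spec hex
  have hmin := @Nat.find_min _ _ hex
  have h0 : Nat.find hex ≠ 0 := by
    intro h0
    rw [h0] at hs
    obtain ⟨i, hi⟩ := h
    apply hi
    simpa using hs i
  obtain ⟨s, hs'⟩ := Nat.exists_eq_succ_of_ne_zero h0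
  refine ⟨s, ?_, ?_⟩
  · intro i
    rcases Nat.eq_zero_or_pos m with hm | hm
    · subst hm; simp
    · have h1 := hs i
      rw [hs', pow_succ', mul_assoc] at h1
      have h2 : (p : ℤ_[p]) ^ m = (p : ℤ_[p]) * (p : ℤ_[p]) ^ (m - 1) := by
        rw [← pow_succ']; congr 1; omega
      rw [h2] at h1
      exact (mul_dvd_mul_iff_left (PadicInt.prime_p (p := p)).ne_zero).1 h1
  · have h3 := hmin (m := s) (by rw [hs']; exact Nat.lt_succ_self s)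
    push Not at h3
    exact h3

/-- the stabiliser of the class of `u ^ p ^ m` -/
theorem loops_stab {δ : ℕ} (hG : ProFree p δ G) {I : Type} [Fintype I] (r : I → G) (e : I → ℕ)
    (L : Subgroup G) (hL : Adm p r e L) (χ : Fin 3 → G → ℤ_[p])
    (hχ : ∀ i, IsZ p (Rel p r e) L (χ i)) (u : G) (hu : u ∈ L) (hunit : IsUnit (χ 0 u))
    (a : Fin 2 → ℤ_[p]) (ha : ∀ i, χ i.succ u = a i * χ 0 u) (m : ℕ)
    (hth : ∀ u b : ↥L, (∀ i, loopsOm χ a i u = 0) → (∃ f ∈ HomR p (Rel p r e) L, f u ≠ 0) →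
        (∀ i, (p : ℤ_[p]) ^ (m - 1) ∣ loopsOm χ a i b) →
        (∃ i, ¬ (p : ℤ_[p]) ^ m ∣ loopsOm χ a i b) →
        ∃ φ : G → ℤ_[p], IsZ p (Rel p r e) (Jlev p L (loopsOm χ a) m) φ ∧
          ¬ (p : ℤ_[p]) ∣ φ (b * u * b⁻¹ * u⁻¹ : ↥L))
    (β : G) (hβ : β ∈ L)
    (hst : ∀ ν, IsZ p (Rel p r e) (Jlev p L χ m) ν → ν (β * u ^ p ^ m * β⁻¹) = ν (u ^ p ^ m)) :
    ∃ n : ℕ, β * (u ^ n)⁻¹ ∈ Jlev p L χ m := by
  have hωZ := loops_om_isZ hχ a
  have hωu : ∀ i, loopsOm χ a i u = 0 := by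
    intro i; simp only [loopsOm, ha, sub_self]
  -- all powers of `β` satisfy the same
  have hVn : ∀ b ∈ L, ∀ y ∈ Jlev p L χ m, b * y * b⁻¹ ∈ Jlev p L χ m := by
    intro b hb y hy
    rw [mem_Jlev hχ] at hy ⊢
    refine ⟨L.mul_mem (L.mul_mem hb hy.1) (L.inv_mem hb), fun i => ?_⟩
    rw [loops_conj_val (hχ i) hb hy.1]
    exact hy.2 i
  have hVle : Jlev p L χ m ≤ L := fun y hy => ((mem_Jlev hχ m y).1 hy).1
  have hconj : ∀ b ∈ L, ∀ ν, IsZ p (Rel p r e) (Jlev p L χ m) ν →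
      IsZ p (Rel p r e) (Jlev p L χ m) (fun y => ν (b * y * b⁻¹)) := by
    intro b hb ν hν
    refine ⟨?_, ?_, ?_⟩
    · refine hν.cont.comp ?_ (fun y hy => hVn b hb y hy)
      exact ((continuous_const.mul continuous_id).mul continuous_const).continuousOn
    · intro x hx y hy
      show ν (b * (x * y) * b⁻¹) = ν (b * x * b⁻¹) + ν (b * y * b⁻¹)
      rw [← hν.mul _ (hVn b hb x hx) _ (hVn b hb y hy)]
      congr 1; group
    · intro x hx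
      exact hν.rel _ (Subgroup.Normal.conj_mem inferInstance _ hx b)
  have hpow : ∀ k : ℕ, ∀ ν, IsZ p (Rel p r e) (Jlev p L χ m) ν →
      ν (β ^ k * u ^ p ^ m * (β ^ k)⁻¹) = ν (u ^ p ^ m) := by
    intro k
    induction k with
    | zero => intro ν _; simp
    | succ k ih =>
      intro ν hν
      have h1 := hst _ (hconj (β ^ k) (L.pow_mem hβ k) ν hν)
      have h2 : β ^ (k + 1) * u ^ p ^ m * (β ^ (k + 1))⁻¹ =
          β ^ k * (β * u ^ p ^ m * β⁻¹) * (β ^ k)⁻¹ := by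
        rw [pow_succ]; group
      rw [h2, h1]
      exact ih ν hν
  -- `ω β` is divisible by `p ^ m`
  have hω : ∀ i, (p : ℤ_[p]) ^ m ∣ loopsOm χ a i β := by
    by_contra hcon
    push Not at hcon
    obtain ⟨s, hs1, hs2⟩ := loops_pick m (fun i => loopsOm χ a i β) hcon
    have hval : ∀ i, loopsOm χ a i (β ^ p ^ s) = (p : ℤ_[p]) ^ s * loopsOm χ a i β := by
      intro i
      rw [loops_pow (hωZ i) hβ]; push_cast; ring
    obtain ⟨φ, hφ, hφ'⟩ := hth ⟨u, hu⟩ ⟨β ^ p ^ s, L.pow_mem hβ _⟩ hωu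
      ⟨_, loops_homR (hχ 0), fun h0 => by
        have h1 := (loops_dvd_iff (χ 0 u)).2 h0
        exact (loops_unit_iff _).1 hunit h1⟩
      (fun i => by rw [hval]; exact hs1 i) (by
        obtain ⟨i, hi⟩ := hs2
        exact ⟨i, by rw [hval]; exact hi⟩)
    apply hφ'
    have huJ : u ∈ Jlev p L (loopsOm χ a) m := by
      rw [mem_Jlev hωZ]
      exact ⟨hu, fun i => by rw [hωu]; exact dvd_zero _⟩
    have hbu : β ^ p ^ s * u * (β ^ p ^ s)⁻¹ ∈ Jlev p L (loopsOm χ a) m := by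
      rw [mem_Jlev hωZ]
      refine ⟨L.mul_mem (L.mul_mem (L.pow_mem hβ _) hu) (L.inv_mem (L.pow_mem hβ _)), fun i => ?_⟩
      rw [loops_conj_val (hωZ i) (L.pow_mem hβ _) hu, hωu]
      exact dvd_zero _
    have h1 := hpow (p ^ s) φ (hφ.mono (loops_om_le hχ a m))
    rw [← conj_pow, loops_pow hφ hbu, loops_pow hφ huJ] at h1
    have h2 : φ (β ^ p ^ s * u * (β ^ p ^ s)⁻¹) = φ u := by
      push_cast at h1
      exact mul_left_cancel₀ (loops_p_ne m) h1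
    show (p : ℤ_[p]) ∣ φ (β ^ p ^ s * u * (β ^ p ^ s)⁻¹ * u⁻¹)
    rw [hφ.mul _ hbu _ ((Jlev p L (loopsOm χ a) m).inv_mem huJ), loops_inv hφ huJ, h2,
      add_neg_cancel]
    exact dvd_zero _
  -- adjust by a power of `u`
  obtain ⟨v, hv⟩ := hunit
  set n : ℕ := (PadicInt.toZModPow m (χ 0 β * ((v⁻¹ : ℤ_[p]ˣ) : ℤ_[p]))).val with hn
  have hcast : (p : ℤ_[p]) ^ m ∣ χ 0 β - n * χ 0 u := by
    have hne : NeZero (p ^ m) := ⟨pow_ne_zero _ (Fact.out : p.Prime).ne_zero⟩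
    rw [loops_dvd_pow_iff, map_sub, map_mul, map_natCast, hn, ZMod.natCast_zmod_val, ← map_mul,
      ← hv, Units.inv_mul_cancel_right, sub_self]
  refine ⟨n, ?_⟩
  rw [mem_Jlev hχ]
  have hmem : (u ^ n)⁻¹ ∈ L := L.inv_mem (L.pow_mem hu n)
  have hval : ∀ i, χ i (β * (u ^ n)⁻¹) = χ i β - n * χ i u := by
    intro i
    rw [(hχ i).mul _ hβ _ hmem, loops_inv (hχ i) (L.pow_mem hu n), loops_pow (hχ i) hu]
    ring
  refine ⟨L.mul_mem hβ hmem, fun i => ?_⟩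
  rw [hval]
  refine Fin.cases hcast (fun i => ?_) i
  have h1 : χ i.succ β - n * χ i.succ u = loopsOm χ a i β + a i * (χ 0 β - n * χ 0 u) := by
    simp only [loopsOm, ha]; ring
  rw [h1]
  exact dvd_add (hω i) (hcast.mul_left _)

/-- the final assembly -/
theorem loops_sep (hp : p ≠ 2) {δ : ℕ} (hG : ProFree p δ G) {I : Type} [Fintype I] (r : I → G)
    (e : I → ℕ) (L : Subgroup G) (hL : Adm p r e L) (hLn : L.Normal) (χ : Fin 3 → G → ℤ_[p])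
    (hχ : ∀ i, IsZ p (Rel p r e) L (χ i)) (w' : G) (c₀ : ℕ)
    (hLu : ∀ g, g * w' ^ p ^ c₀ * g⁻¹ ∈ L) (hunit : ∀ g, IsUnit (χ 0 (g * w' ^ p ^ c₀ * g⁻¹)))
    (hsep : ∀ g, (∀ φ, IsZ p (Rel p r e) L φ → φ (g * w' ^ p ^ c₀ * g⁻¹) = φ (w' ^ p ^ c₀)) →
        ∃ a : ℕ, g * (w' ^ a)⁻¹ ∈ L) (m : ℕ)
    (hth : ∀ g, ∀ u b : ↥L,
        (∀ i, loopsOm χ (fun i => χ i.succ (g * w' ^ p ^ c₀ * g⁻¹) *
          Ring.inverse (χ 0 (g * w' ^ p ^ c₀ * g⁻¹))) i u = 0) →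
        (∃ f ∈ HomR p (Rel p r e) L, f u ≠ 0) →
        (∀ i, (p : ℤ_[p]) ^ (m - 1) ∣ loopsOm χ (fun i => χ i.succ (g * w' ^ p ^ c₀ * g⁻¹) *
          Ring.inverse (χ 0 (g * w' ^ p ^ c₀ * g⁻¹))) i b) →
        (∃ i, ¬ (p : ℤ_[p]) ^ m ∣ loopsOm χ (fun i => χ i.succ (g * w' ^ p ^ c₀ * g⁻¹) *
          Ring.inverse (χ 0 (g * w' ^ p ^ c₀ * g⁻¹))) i b) →
        ∃ φ : G → ℤ_[p], IsZ p (Rel p r e) (Jlev p L (loopsOm χ
          (fun i => χ i.succ (g * w' ^ p ^ c₀ * g⁻¹) *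
          Ring.inverse (χ 0 (g * w' ^ p ^ c₀ * g⁻¹)))) m) φ ∧
          ¬ (p : ℤ_[p]) ∣ φ (b * u * b⁻¹ * u⁻¹ : ↥L))
    (x y : G)
    (hxy : ∀ ν, IsZ p (Rel p r e) (Jlev p L χ m) ν →
          χ 0 (x * w' ^ p ^ c₀ * x⁻¹) * ν (y * w' ^ p ^ (c₀ + m) * y⁻¹) =
          χ 0 (y * w' ^ p ^ c₀ * y⁻¹) * ν (x * w' ^ p ^ (c₀ + m) * x⁻¹)) :
    ∃ j ∈ Jlev p L χ m, ∃ a : ℕ, y = j * x * w' ^ a := by
  have hRn : (Rel p r e).Normal := inferInstance
  have hVle : Jlev p L χ m ≤ L := fun y hy => ((mem_Jlev hχ m y).1 hy).1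
  have hrl : ∀ g, g * w' ^ p ^ (c₀ + m) * g⁻¹ = (g * w' ^ p ^ c₀ * g⁻¹) ^ p ^ m := by
    intro g
    rw [conj_pow, ← pow_mul, ← pow_add]
  -- proportionality constant
  have hinv : Ring.inverse (χ 0 (x * w' ^ p ^ c₀ * x⁻¹)) * χ 0 (x * w' ^ p ^ c₀ * x⁻¹) = 1 :=
    Ring.inverse_mul_cancel _ (hunit x)
  have h1 : ∀ φ, IsZ p (Rel p r e) L φ → φ (y * w' ^ p ^ c₀ * y⁻¹) =
      (χ 0 (y * w' ^ p ^ c₀ * y⁻¹) * Ring.inverse (χ 0 (x * w' ^ p ^ c₀ * x⁻¹))) *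
        φ (x * w' ^ p ^ c₀ * x⁻¹) := by
    intro φ hφ
    have h2 := hxy φ (hφ.mono hVle)
    rw [hrl, hrl, loops_pow hφ (hLu y), loops_pow hφ (hLu x)] at h2
    push_cast at h2
    have h3 : χ 0 (x * w' ^ p ^ c₀ * x⁻¹) * φ (y * w' ^ p ^ c₀ * y⁻¹) =
        χ 0 (y * w' ^ p ^ c₀ * y⁻¹) * φ (x * w' ^ p ^ c₀ * x⁻¹) := by
      apply mul_left_cancel₀ (loops_p_ne (p := p) m)
      linear_combination h2
    calc φ (y * w' ^ p ^ c₀ * y⁻¹) =
        (Ring.inverse (χ 0 (x * w' ^ p ^ c₀ * x⁻¹)) * χ 0 (x * w' ^ p ^ c₀ * x⁻¹)) *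
          φ (y * w' ^ p ^ c₀ * y⁻¹) := by rw [hinv, one_mul]
      _ = Ring.inverse (χ 0 (x * w' ^ p ^ c₀ * x⁻¹)) *
          (χ 0 (x * w' ^ p ^ c₀ * x⁻¹) * φ (y * w' ^ p ^ c₀ * y⁻¹)) := by ring
      _ = _ := by rw [h3]; ring
  have hgc : ∀ g : G, y * w' ^ p ^ c₀ * y⁻¹ = (y * x⁻¹) * (x * w' ^ p ^ c₀ * x⁻¹) * (y * x⁻¹)⁻¹ := by
    intro _; group
  have hκ : χ 0 (y * w' ^ p ^ c₀ * y⁻¹) * Ring.inverse (χ 0 (x * w' ^ p ^ c₀ * x⁻¹)) = 1 := by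
    refine loops_kappa hp hG hRn hL.isOpen hLn (χ 0) (hχ 0) _ (hLu x) (y * x⁻¹) (hunit x) _ ?_
    intro φ hφ
    rw [← hgc x]
    exact h1 φ hφ
  have h4 : ∀ φ, IsZ p (Rel p r e) L φ →
      φ (y * w' ^ p ^ c₀ * y⁻¹) = φ (x * w' ^ p ^ c₀ * x⁻¹) := by
    intro φ hφ
    have := h1 φ hφ
    rwa [hκ, one_mul] at this
  -- separation
  obtain ⟨a₀, ha₀⟩ := hsep (x⁻¹ * y) (fun φ hφ => by
    have h5 := h4 _ (IsZ.conj hRn hLn hφ x⁻¹)
    have h6 : x⁻¹ * y * w' ^ p ^ c₀ * (x⁻¹ * y)⁻¹ = x⁻¹ * (y * w' ^ p ^ c₀ * y⁻¹) * x⁻¹⁻¹ := by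
      group
    have h7 : x⁻¹ * (x * w' ^ p ^ c₀ * x⁻¹) * x⁻¹⁻¹ = w' ^ p ^ c₀ := by group
    rw [h6, h5, h7])
  set β : G := x * (x⁻¹ * y * (w' ^ a₀)⁻¹) * x⁻¹ with hβdef
  have hβ : β ∈ L := hLn.conj_mem _ ha₀ x
  have hyβ : y = β * x * w' ^ a₀ := by rw [hβdef]; group
  have hinvx : ∀ i : Fin 2, χ i.succ (x * w' ^ p ^ c₀ * x⁻¹) =
      (χ i.succ (x * w' ^ p ^ c₀ * x⁻¹) * Ring.inverse (χ 0 (x * w' ^ p ^ c₀ * x⁻¹))) *
        χ 0 (x * w' ^ p ^ c₀ * x⁻¹) := by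
    intro i
    linear_combination (-(χ i.succ (x * w' ^ p ^ c₀ * x⁻¹))) * hinv
  obtain ⟨n, hn⟩ := loops_stab hG r e L hL χ hχ _ (hLu x) (hunit x) _ hinvx m (hth x) β hβ (by
    intro ν hν
    have h8 := hxy ν hν
    rw [h4 _ (hχ 0)] at h8
    have h9 := mul_left_cancel₀ (hunit x).ne_zero h8
    rw [← hrl, ← h9]
    congr 1
    have hcomm : w' ^ a₀ * w' ^ p ^ (c₀ + m) * (w' ^ a₀)⁻¹ = w' ^ p ^ (c₀ + m) := by
      rw [← pow_add, add_comm, pow_add, mul_inv_cancel_right]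
    calc β * (x * w' ^ p ^ (c₀ + m) * x⁻¹) * β⁻¹
        = (β * x) * w' ^ p ^ (c₀ + m) * (β * x)⁻¹ := by group
      _ = (β * x) * (w' ^ a₀ * w' ^ p ^ (c₀ + m) * (w' ^ a₀)⁻¹) * (β * x)⁻¹ := by rw [hcomm]
      _ = (β * x * w' ^ a₀) * w' ^ p ^ (c₀ + m) * (β * x * w' ^ a₀)⁻¹ := by group
      _ = y * w' ^ p ^ (c₀ + m) * y⁻¹ := by rw [← hyβ])
  refine ⟨_, hn, p ^ c₀ * n + a₀, ?_⟩
  rw [pow_add, pow_mul, conj_pow]
  conv_lhs => rw [hyβ]
  group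

end LoopsG

/-- the input of `core` -/
theorem loops (hp : p ≠ 2) {δ : ℕ} (hG : ProFree p δ G) (S : Stage p δ G) (w : G)
    (hw : ∀ n : ℕ, 0 < n → w ^ n ∉ S.R) :
    ∃ (V : Subgroup G) (w' : G) (c : ℕ) (χa : G → ℤ_[p]),
      Adm p S.r S.e V ∧
      (∀ R' : Subgroup G, R'.Normal → IsClosed (R' : Set G) → S.R ≤ R' → ∀ n,
        w' ^ p ^ n ∈ R' → w ^ p ^ n ∈ R') ∧
      (∀ (x : G) (a : ℕ), x * w' ^ a * x⁻¹ ∈ V ↔ p ^ c ∣ a) ∧
      IsZ p S.R V χa ∧ (∀ x, IsUnit (χa (x * w' ^ p ^ c * x⁻¹))) ∧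
      (∀ x y, (∀ ν, IsZ p S.R V ν →
          χa (x * w' ^ p ^ c * x⁻¹) * ν (y * w' ^ p ^ c * y⁻¹) =
          χa (y * w' ^ p ^ c * y⁻¹) * ν (x * w' ^ p ^ c * x⁻¹)) →
        ∃ j ∈ V, ∃ a : ℕ, y = j * x * w' ^ a) ∧
      ∃ (ι : Type) (_ : Fintype ι) (ρ : ι → ↥V) (idx : ι → S.I) (x : ι → G),
        PP p S.r S.e V ρ idx x ∧
        IK p ρ (fun _ : Fin 1 => redp p (fun y : ↥V => χa y)) ∧
        ∀ z ∈ Z2 p ρ, z ≠ 0 → RankGE p ρ z (4 * finrank (ZMod p) (Z2 p ρ) + 1) := by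
  obtain ⟨L, w', c₀, χ₀, hLn, hLo, hLR, hLV, hroot, hord, hχ₀, hu₀, hsep⟩ := root_sep hp hG S w hw
  have hL : Adm p S.r S.e L := S.adm.mono hLV hLR hLo
  have hLu : ∀ g, g * w' ^ p ^ c₀ * g⁻¹ ∈ L := fun g =>
    hLn.conj_mem _ ((hord _).2 dvd_rfl) g
  obtain ⟨χ, hχ, hi, hb, hunit⟩ := loops_chi hG S L hLo hLR hLV hL χ₀ hχ₀ _ hLu hu₀
  have hχ' : ∀ i, IsZ p (Rel p S.r S.e) L (χ i) := hχ
  obtain ⟨M, hM⟩ := loops_thresh hG S.r S.e L hL hLn χ hχ' hi hb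
    (fun g i => χ i.succ (g * w' ^ p ^ c₀ * g⁻¹) * Ring.inverse (χ 0 (g * w' ^ p ^ c₀ * g⁻¹))) (by
      intro g b hbL
      have h1 : (b * g) * w' ^ p ^ c₀ * (b * g)⁻¹ = b * (g * w' ^ p ^ c₀ * g⁻¹) * b⁻¹ := by group
      funext i
      simp only [h1, loops_conj_val (hχ _) hbL (hLu g)])
  obtain ⟨m₁, hm₁, V, hVeq, ι, _, ρ, idx, x, hPP, hIK, hrk⟩ := loops_tower hG hL hχ' hi hb M
  have hVmem : ∀ y, y ∈ V ↔ y ∈ L ∧ ∀ i, (p : ℤ_[p]) ^ m₁ ∣ χ i y := by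
    intro y; rw [hVeq, mem_Jlev hχ]
  have hVa : Adm p S.r S.e V := by rw [hVeq]; exact Jlev_adm hG hL hχ' m₁
  have hdZ : IsZ p S.R V (fun x => divp p m₁ (χ 0 x)) := by
    rw [hVeq]; exact (IsZ.divp hχ m₁ 0).1
  have hrl : ∀ g, g * w' ^ p ^ (c₀ + m₁) * g⁻¹ = (g * w' ^ p ^ c₀ * g⁻¹) ^ p ^ m₁ := by
    intro g
    rw [conj_pow, ← pow_mul, ← pow_add]
  have hval : ∀ g, divp p m₁ (χ 0 (g * w' ^ p ^ (c₀ + m₁) * g⁻¹)) =
      χ 0 (g * w' ^ p ^ c₀ * g⁻¹) := by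
    intro g
    rw [hrl, loops_pow (hχ 0) (hLu g)]
    push_cast
    exact loops_divp_mul _ _
  refine ⟨V, w', c₀ + m₁, fun x => divp p m₁ (χ 0 x), hVa, hroot, ?_, hdZ, ?_, ?_, ι, inferInstance,
    ρ, idx, x, hPP, hIK, hrk⟩
  · intro x a
    constructor
    · intro h
      have h1 := ((hVmem _).1 h).1
      have h2 : w' ^ a ∈ L := by
        have := hLn.conj_mem _ h1 x⁻¹
        have h3 : x⁻¹ * (x * w' ^ a * x⁻¹) * x⁻¹⁻¹ = w' ^ a := by group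
        rwa [h3] at this
      obtain ⟨a', rfl⟩ := (hord a).1 h2
      have h4 : x * w' ^ (p ^ c₀ * a') * x⁻¹ = (x * w' ^ p ^ c₀ * x⁻¹) ^ a' := by
        rw [conj_pow, pow_mul]
      have h5 := ((hVmem _).1 h).2 0
      rw [h4, loops_pow (hχ 0) (hLu x)] at h5
      rw [pow_add]
      exact mul_dvd_mul_left _ (loops_dvd_nat m₁ a' _ (hunit x) h5)
    · rintro ⟨a', rfl⟩
      have h4 : x * w' ^ (p ^ (c₀ + m₁) * a') * x⁻¹ =
          (x * w' ^ p ^ c₀ * x⁻¹) ^ (p ^ m₁ * a') := by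
        have h6 : p ^ (c₀ + m₁) * a' = p ^ c₀ * (p ^ m₁ * a') := by ring
        rw [h6, conj_pow, ← pow_mul]
      rw [hVmem, h4]
      refine ⟨L.pow_mem (hLu x) _, fun i => ?_⟩
      rw [loops_pow (hχ i) (hLu x)]
      push_cast
      rw [mul_assoc]
      exact dvd_mul_right _ _
  · intro g
    show IsUnit (divp p m₁ (χ 0 (g * w' ^ p ^ (c₀ + m₁) * g⁻¹)))
    rw [hval]
    exact hunit g
  · intro x y hxy
    simp only [hval] at hxy
    rw [hVeq] at hxy ⊢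
    exact loops_sep hp hG S.r S.e L hL hLn χ hχ' w' c₀ hLu hunit hsep m₁
      (fun g => hM m₁ hm₁ g) x y hxy

end Pool.Agent.RFA
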