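import Pool.Agent.RFA.Defs

set_option autoImplicit false

namespace Pool.Agent.RFA

open Topology Module

variable {p : ℕ} [Fact p.Prime]

section MixLAaux

variable {K : Type} [Field K] {X : Type} [AddCommGroup X] [Module K X] [Module.Finite K X]

theorem mixLA_quot (f : Module.End K X) :
    finrank K (X ⧸ LinearMap.range f) = finrank K (LinearMap.ker f) := by
  have h1 := Submodule.finrank_quotient_add_finrank (LinearMap.range f)
  have h2 := LinearMap.finrank_range_add_finrank_ker f
  omega

theorem mixLA_ker_pow (t : Module.End K X) (j : ℕ) :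
    finrank K (LinearMap.ker (t ^ j)) ≤ j * finrank K (LinearMap.ker t) := by
  induction j with
  | zero =>
    have : LinearMap.ker (t ^ 0) = ⊥ := by
      rw [pow_zero]; exact LinearMap.ker_id
    rw [this]; simp
  | succ j ih =>
    -- t ^ j maps ker t^(j+1) into ker t with kernel ker t^j
    let g : LinearMap.ker (t ^ (j + 1)) →ₗ[K] LinearMap.ker t :=
      LinearMap.codRestrict (LinearMap.ker t) ((t ^ j) ∘ₗ (LinearMap.ker (t ^ (j + 1))).subtype)
        (by
          rintro ⟨x, hx⟩
          rw [LinearMap.mem_ker] at hx ⊢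
          rw [pow_succ'] at hx
          exact hx)
    have h2 := LinearMap.finrank_range_add_finrank_ker g
    have h3 : finrank K (LinearMap.range g) ≤ finrank K (LinearMap.ker t) :=
      Submodule.finrank_le _
    have h4 : finrank K (LinearMap.ker g) ≤ finrank K (LinearMap.ker (t ^ j)) := by
      let i : LinearMap.ker g →ₗ[K] LinearMap.ker (t ^ j) :=
        LinearMap.codRestrict (LinearMap.ker (t ^ j))
          ((LinearMap.ker (t ^ (j + 1))).subtype ∘ₗ (LinearMap.ker g).subtype) (by
            rintro ⟨⟨x, hx⟩, hx'⟩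
            rw [LinearMap.mem_ker] at hx' ⊢
            have := congrArg Subtype.val hx'
            exact this)
      refine LinearMap.finrank_le_finrank_of_injective (f := i) ?_
      rintro ⟨⟨x, hx⟩, hx'⟩ ⟨⟨y, hy⟩, hy'⟩ h
      have := congrArg Subtype.val h
      simp only [Subtype.mk.injEq]
      exact this
    have : (j + 1) * finrank K (LinearMap.ker t) =
        j * finrank K (LinearMap.ker t) + finrank K (LinearMap.ker t) := by ring
    omega

theorem mixLA_min (t : Module.End K X) (ht : IsNilpotent t) (S : Submodule K X)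
    (hS : ∀ x ∈ S, t x ∈ S) (M : ℕ) :
    M ≤ finrank K (S ⊓ LinearMap.ker (t ^ M) : Submodule K X) ∨
      finrank K S ≤ finrank K (S ⊓ LinearMap.ker (t ^ M) : Submodule K X) := by
  have hSp : ∀ k : ℕ, ∀ x ∈ S, (t ^ k) x ∈ S := by
    intro k
    induction k with
    | zero => intro x hx; simpa using hx
    | succ k ih =>
      intro x hx
      rw [pow_succ']
      exact hS _ (ih x hx)
  induction M with
  | zero => left; exact Nat.zero_le _
  | succ M ih =>
    by_cases hEq : (S ⊓ LinearMap.ker (t ^ M) : Submodule K X) = S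
    · right
      have hle : S ≤ (S ⊓ LinearMap.ker (t ^ (M + 1)) : Submodule K X) := by
        intro x hx
        have hx' : x ∈ (S ⊓ LinearMap.ker (t ^ M) : Submodule K X) := by rw [hEq]; exact hx
        refine ⟨hx, ?_⟩
        have h1 : (t ^ M) x = 0 := hx'.2
        change (t ^ (M + 1)) x = 0
        rw [pow_succ', Module.End.mul_apply, h1, map_zero]
      exact Submodule.finrank_mono hle
    · left
      rcases ih with ih | ih
      · -- strict increase
        have hx : ∃ x ∈ S, (t ^ M) x ≠ 0 := by
          by_contra hcon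
          push Not at hcon
          exact hEq (le_antisymm inf_le_left (fun x hx => ⟨hx, hcon x hx⟩))
        obtain ⟨x, hxS, hxM⟩ := hx
        obtain ⟨n, hn⟩ := ht
        -- largest k with t^k x ≠ 0
        have hex : ∃ k, (t ^ k) x = 0 := ⟨n, by rw [hn]; rfl⟩
        classical
        set k := Nat.find hex with hk
        have hk0 : (t ^ k) x = 0 := Nat.find_spec hex
        have hkM : M < k := by
          by_contra hcon
          push Not at hcon
          apply hxM
          obtain ⟨c, hc⟩ := Nat.exists_eq_add_of_le hcon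
          rw [hc, add_comm, pow_add, Module.End.mul_apply, hk0, map_zero]
        have hlt : (S ⊓ LinearMap.ker (t ^ M) : Submodule K X) <
            (S ⊓ LinearMap.ker (t ^ (M + 1)) : Submodule K X) := by
          refine lt_of_le_of_ne ?_ ?_
          · intro y hy
            refine ⟨hy.1, ?_⟩
            have h1 : (t ^ M) y = 0 := hy.2
            change (t ^ (M + 1)) y = 0
            rw [pow_succ', Module.End.mul_apply, h1, map_zero]
          · intro he
            have hy : (t ^ (k - 1 - M)) x ∈ (S ⊓ LinearMap.ker (t ^ (M + 1)) : Submodule K X) := by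
              refine ⟨hSp _ x hxS, ?_⟩
              change (t ^ (M + 1)) ((t ^ (k - 1 - M)) x) = 0
              rw [← Module.End.mul_apply, ← pow_add]
              have : M + 1 + (k - 1 - M) = k := by omega
              rw [this]; exact hk0
            rw [← he] at hy
            have h2 : (t ^ M) ((t ^ (k - 1 - M)) x) = 0 := hy.2
            rw [← Module.End.mul_apply, ← pow_add] at h2
            have h3 : M + (k - 1 - M) = k - 1 := by omega
            rw [h3] at h2
            exact Nat.find_min hex (by omega : k - 1 < k) h2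
        have := Submodule.finrank_lt_finrank_of_lt hlt
        omega
      · exfalso
        exact hEq (Submodule.eq_of_le_of_finrank_le inf_le_left ih)

theorem mixLA_poly (e : Module.End K X) (he : IsNilpotent (e - 1)) (P : Polynomial K)
    (hP : P ≠ 0) (v : X) (hv : (Polynomial.aeval e P) v = 0) :
    ((e - 1) ^ P.natDegree) v = 0 := by
  obtain ⟨q, hq, hdvd⟩ := Polynomial.exists_eq_pow_rootMultiplicity_mul_and_not_dvd P hP 1
  set m := Polynomial.rootMultiplicity 1 P with hm
  have hmle : m ≤ P.natDegree := by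
    have h1 : (Polynomial.X - Polynomial.C (1 : K)) ^ m ∣ P :=
      ⟨q, hq⟩
    have h2 := Polynomial.natDegree_le_of_dvd h1 hP
    rwa [Polynomial.natDegree_pow, Polynomial.natDegree_X_sub_C, mul_one] at h2
  have hq1 : q.eval 1 ≠ 0 := by
    intro h
    exact hdvd (Polynomial.dvd_iff_isRoot.2 h)
  have hX : Polynomial.aeval e (Polynomial.X - Polynomial.C (1 : K)) = e - 1 := by
    simp
  have hunit : IsUnit (Polynomial.aeval e q) := by
    have hd : (Polynomial.X - Polynomial.C (1 : K)) ∣ q - Polynomial.C (q.eval 1) :=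
      Polynomial.X_sub_C_dvd_sub_C_eval
    obtain ⟨s, hs⟩ := hd
    have hqs : q = Polynomial.C (q.eval 1) + (Polynomial.X - Polynomial.C (1 : K)) * s := by
      rw [← hs]; ring
    rw [hqs, map_add, map_mul, hX, Polynomial.aeval_C]
    have hcomm : Commute (e - 1) (Polynomial.aeval e s) := by
      have : Commute (Polynomial.aeval e (Polynomial.X - Polynomial.C (1 : K)))
          (Polynomial.aeval e s) := by
        rw [Commute, SemiconjBy, ← map_mul, ← map_mul, mul_comm]
      rwa [hX] at this
    have hnil : IsNilpotent ((e - 1) * Polynomial.aeval e s) :=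
      hcomm.isNilpotent_mul_right he
    have hu : IsUnit (algebraMap K (Module.End K X) (Polynomial.eval 1 q)) :=
      (IsUnit.mk0 _ hq1).map (algebraMap K (Module.End K X))
    refine hnil.isUnit_add_left_of_commute hu ?_
    exact (Algebra.commutes (Polynomial.eval 1 q) ((e - 1) * Polynomial.aeval e s)).symm
  have hv2 : (Polynomial.aeval e q) (((e - 1) ^ m) v) = 0 := by
    rw [hq, map_mul, map_pow, hX] at hv
    have hc2 : (e - 1) ^ m * Polynomial.aeval e q = Polynomial.aeval e q * (e - 1) ^ m := by
      have := congrArg (Polynomial.aeval e)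
        (mul_comm ((Polynomial.X - Polynomial.C (1 : K)) ^ m) q)
      rwa [map_mul, map_mul, map_pow, hX] at this
    rw [hc2, Module.End.mul_apply] at hv
    exact hv
  have hv3 : ((e - 1) ^ m) v = 0 := by
    obtain ⟨u, hu⟩ := hunit
    have h1 : (u⁻¹.val) ((Polynomial.aeval e q) (((e - 1) ^ m) v)) = ((e - 1) ^ m) v := by
      rw [← hu, ← Module.End.mul_apply, Units.inv_mul]; rfl
    rw [hv2, map_zero] at h1
    exact h1.symm
  obtain ⟨c, hc⟩ := Nat.exists_eq_add_of_le hmle
  rw [hc, add_comm, pow_add, Module.End.mul_apply, hv3, map_zero]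

theorem mixLA_rel {n : ℕ} (e₀ e₁ : Module.End K X) (hc : Commute e₀ e₁) (μ : Fin n → ℕ)
    (i : Fin n) (s : Finset (Fin n)) :
    ∀ (_ : i ∉ s) (v : Fin n → X) (_ : ∀ k, (e₁ - e₀ ^ μ k) (v k) = 0)
      (_ : v i + ∑ k ∈ s, v k = 0),
      (Polynomial.aeval e₀ (∏ j ∈ s, ((Polynomial.X : Polynomial K) ^ μ i -
        Polynomial.X ^ μ j))) (v i) = 0 := by
  classical
  induction s using Finset.induction_on with
  | empty =>
    intro _ v _ h
    simpa using h
  | insert j s hj ih =>
    intro hi v hv hsum
    rw [Finset.mem_insert, not_or] at hi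
    have hcomm : ∀ k l : Fin n, ∀ x : X, (e₁ - e₀ ^ μ k) ((e₁ - e₀ ^ μ l) x) =
        (e₁ - e₀ ^ μ l) ((e₁ - e₀ ^ μ k) x) := by
      intro k l x
      rw [← Module.End.mul_apply, ← Module.End.mul_apply]
      have h1 : Commute (e₁ - e₀ ^ μ k) (e₁ - e₀ ^ μ l) := by
        refine Commute.sub_left ?_ ?_
        · exact Commute.sub_right (Commute.refl _) (hc.symm.pow_right _)
        · exact Commute.sub_right (hc.pow_left _) ((Commute.refl e₀).pow_pow _ _)
      rw [h1.eq]
    have h1 := ih hi.2 (fun k => (e₁ - e₀ ^ μ j) (v k)) (fun k => by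
      rw [hcomm, hv k, map_zero]) (by
      have h2 := congrArg (e₁ - e₀ ^ μ j) hsum
      rw [Finset.sum_insert hj, map_add, map_add, hv j, zero_add, map_sum, map_zero] at h2
      exact h2)
    have h3 : (e₁ - e₀ ^ μ j) (v i) =
        (Polynomial.aeval e₀ ((Polynomial.X : Polynomial K) ^ μ i - Polynomial.X ^ μ j)) (v i) := by
      have h4 := hv i
      rw [LinearMap.sub_apply, sub_eq_zero] at h4
      rw [LinearMap.sub_apply, h4]
      simp
    rw [h3, ← Module.End.mul_apply, ← map_mul] at h1
    rw [Finset.prod_insert hj, mul_comm]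
    exact h1

theorem mixLA_main (C E : ℕ) (μ : Fin (C + 1) → ℕ)
    (hE : ∀ i, ((∏ j ∈ Finset.univ.erase i, ((Polynomial.X : Polynomial K) ^ μ i -
        Polynomial.X ^ μ j)) ≠ 0) ∧ (∏ j ∈ Finset.univ.erase i,
        ((Polynomial.X : Polynomial K) ^ μ i - Polynomial.X ^ μ j)).natDegree ≤ E)
    (e₀ e₁ : Module.End K X) (hc : Commute e₀ e₁) (hn : IsNilpotent (e₀ - 1))
    (hC : finrank K (LinearMap.ker (e₀ - 1)) ≤ C) :
    ∃ i, finrank K (LinearMap.ker (e₁ - e₀ ^ μ i)) ≤ (C + 1) * (C * E) := by
  by_contra hcon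
  push Not at hcon
  set M := (C + 1) * (C * E) + 1 with hM
  set t := e₀ - 1 with ht
  let Ks : Fin (C + 1) → Submodule K X := fun i =>
    LinearMap.ker (e₁ - e₀ ^ μ i) ⊓ LinearMap.ker (t ^ M)
  have hinv : ∀ i, ∀ x ∈ LinearMap.ker (e₁ - e₀ ^ μ i), t x ∈ LinearMap.ker (e₁ - e₀ ^ μ i) := by
    intro i x hx
    rw [LinearMap.mem_ker] at hx ⊢
    have h1 : Commute (e₁ - e₀ ^ μ i) t := by
      rw [ht]
      refine Commute.sub_left ?_ ?_
      · exact Commute.sub_right hc.symm (Commute.one_right _)
      · exact Commute.sub_right ((Commute.refl e₀).pow_left _) (Commute.one_right _)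
    rw [← Module.End.mul_apply, h1.eq, Module.End.mul_apply, hx, map_zero]
  have hKs : ∀ i, M ≤ finrank K (Ks i) := by
    intro i
    rcases mixLA_min t hn (LinearMap.ker (e₁ - e₀ ^ μ i)) (hinv i) M with h | h
    · exact h
    · exact le_trans (Nat.succ_le_of_lt (hcon i)) h
  -- the sum map
  let f : (∀ i, Ks i) →ₗ[K] X :=
    ∑ i, (Ks i).subtype ∘ₗ LinearMap.proj i
  have hf : ∀ v : (∀ i, Ks i), f v = ∑ i, (v i : X) := by
    intro v
    simp [f]
  have hrk := LinearMap.finrank_range_add_finrank_ker f
  have hdim : finrank K (∀ i, Ks i) = ∑ i, finrank K (Ks i) := Module.finrank_pi_fintype K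
  have hge : (C + 1) * M ≤ finrank K (∀ i, Ks i) := by
    rw [hdim]
    calc (C + 1) * M = ∑ _i : Fin (C + 1), M := by simp
      _ ≤ _ := Finset.sum_le_sum fun i _ => hKs i
  have hrange : finrank K (LinearMap.range f) ≤ M * C := by
    have h1 : LinearMap.range f ≤ LinearMap.ker (t ^ M) := by
      rintro _ ⟨v, rfl⟩
      rw [hf]
      exact Submodule.sum_mem _ fun i _ => (v i).2.2
    calc finrank K (LinearMap.range f) ≤ finrank K (LinearMap.ker (t ^ M)) :=
          Submodule.finrank_mono h1
      _ ≤ M * finrank K (LinearMap.ker t) := mixLA_ker_pow t M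
      _ ≤ M * C := Nat.mul_le_mul_left _ hC
  have hker : finrank K (LinearMap.ker f) ≤ (C + 1) * (C * E) := by
    have hmem : ∀ v ∈ LinearMap.ker f, ∀ i, (v i : X) ∈ LinearMap.ker (t ^ E) := by
      intro v hv i
      rw [LinearMap.mem_ker, hf] at hv
      have h1 := mixLA_rel e₀ e₁ hc μ i (Finset.univ.erase i) (by simp)
        (fun k => (v k : X)) (fun k => (v k).2.1) (by
          rw [Finset.add_sum_erase Finset.univ (fun k => (v k : X)) (Finset.mem_univ i)]
          exact hv)
      have h2 := mixLA_poly e₀ hn _ (hE i).1 _ h1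
      obtain ⟨c, hc'⟩ := Nat.exists_eq_add_of_le (hE i).2
      rw [LinearMap.mem_ker, hc', add_comm, pow_add, Module.End.mul_apply, ht, h2, map_zero]
    let g : LinearMap.ker f →ₗ[K] (Fin (C + 1) → LinearMap.ker (t ^ E)) :=
      LinearMap.pi fun i => LinearMap.codRestrict (LinearMap.ker (t ^ E))
        ((Ks i).subtype ∘ₗ (LinearMap.proj i : (∀ i, Ks i) →ₗ[K] Ks i) ∘ₗ
          (LinearMap.ker f).subtype)
        (fun v => hmem v.1 v.2 i)
    have hg : Function.Injective g := by
      rintro ⟨v, hv⟩ ⟨w, hw⟩ h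
      apply Subtype.ext
      funext i
      have := congrArg Subtype.val (congrFun h i)
      exact Subtype.ext this
    have h1 := LinearMap.finrank_le_finrank_of_injective hg
    have h2 : finrank K (Fin (C + 1) → LinearMap.ker (t ^ E)) =
        (C + 1) * finrank K (LinearMap.ker (t ^ E)) := by
      rw [Module.finrank_pi_fintype K]
      simp
    have h3 : finrank K (LinearMap.ker (t ^ E)) ≤ C * E := by
      refine le_trans (mixLA_ker_pow t E) ?_
      rw [mul_comm]
      exact Nat.mul_le_mul_right _ hC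
    calc finrank K (LinearMap.ker f) ≤ (C + 1) * finrank K (LinearMap.ker (t ^ E)) := by
          rw [← h2]; exact h1
      _ ≤ _ := Nat.mul_le_mul_left _ h3
  have h1 : (C + 1) * M ≤ M * C + (C + 1) * (C * E) := by
    calc (C + 1) * M ≤ finrank K (∀ i, Ks i) := hge
      _ = finrank K (LinearMap.range f) + finrank K (LinearMap.ker f) := hrk.symm
      _ ≤ _ := Nat.add_le_add hrange hker
  have h2 : (C + 1) * M = M * C + M := by ring
  omega

end MixLAaux

/-- linear algebra behind the mixing lemma.  `N` depends only on `C` and the exponents. -/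
theorem mixLA (C : ℕ) (μ : Fin (C + 1) → ℕ) (hμ : Function.Injective μ) :
    ∃ N : ℕ, ∀ (X : Type) [AddCommGroup X] [Module (ZMod p) X] [Module.Finite (ZMod p) X]
      (e₀ e₁ : Module.End (ZMod p) X), Commute e₀ e₁ → IsNilpotent (e₀ - 1) →
      finrank (ZMod p) (X ⧸ LinearMap.range (e₀ - 1)) ≤ C →
      ∃ i, finrank (ZMod p) (X ⧸ LinearMap.range (e₁ - e₀ ^ μ i)) ≤ N := by
  classical
  let P : Fin (C + 1) → Polynomial (ZMod p) := fun i =>
    ∏ j ∈ Finset.univ.erase i, ((Polynomial.X : Polynomial (ZMod p)) ^ μ i - Polynomial.X ^ μ j)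
  refine ⟨(C + 1) * (C * ∑ i, (P i).natDegree), ?_⟩
  intro X _ _ _ e₀ e₁ hc hn hC
  rw [mixLA_quot] at hC
  obtain ⟨i, hi⟩ := mixLA_main (K := ZMod p) C (∑ i, (P i).natDegree) μ (fun i => by
    refine ⟨?_, ?_⟩
    · rw [Finset.prod_ne_zero_iff]
      intro j hj
      rw [Finset.mem_erase] at hj
      intro h
      rw [sub_eq_zero] at h
      have := congrArg Polynomial.natDegree h
      rw [Polynomial.natDegree_X_pow, Polynomial.natDegree_X_pow] at this
      exact hj.1 (hμ this).symm
    · exact Finset.single_le_sum (f := fun i => (P i).natDegree) (fun _ _ => Nat.zero_le _)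
        (Finset.mem_univ i)) e₀ e₁ hc hn hC
  exact ⟨i, by rw [mixLA_quot]; exact hi⟩

end Pool.Agent.RFA
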