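import Mathlib

set_option autoImplicit false

open scoped Topology Pointwise

namespace Pool.Agent.RFA

variable (p : ℕ)

/-- the free group of rank `3` -/
abbrev Fd : Type := FreeGroup (Fin 3)

/-- normal subgroups of `p`-power index -/
def PIx : Type := {N : Subgroup Fd // N.Normal ∧ ∃ k : ℕ, N.index = p ^ k}

instance PIx.normal (N : PIx p) : (N.1).Normal := N.2.1

/-- the finite quotients -/
def Qt (N : PIx p) : Type := Fd ⧸ N.1

noncomputable instance Qt.group (N : PIx p) : Group (Qt p N) := inferInstanceAs (Group (Fd ⧸ N.1))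

instance Qt.top (N : PIx p) : TopologicalSpace (Qt p N) := ⊥

instance Qt.disc (N : PIx p) : DiscreteTopology (Qt p N) := ⟨rfl⟩

instance Qt.topGroup (N : PIx p) : IsTopologicalGroup (Qt p N) := inferInstance

/-- the projection of the free group to a quotient -/
def toQt (N : PIx p) : Fd →* Qt p N := QuotientGroup.mk' N.1

lemma toQt_surjective (N : PIx p) : Function.Surjective (toQt p N) := QuotientGroup.mk'_surjective N.1

lemma toQt_eq_iff (N : PIx p) (x y : Fd) : toQt p N x = toQt p N y ↔ x⁻¹ * y ∈ N.1 := by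
  exact QuotientGroup.eq

lemma toQt_eq_one_iff (N : PIx p) (x : Fd) : toQt p N x = 1 ↔ x ∈ N.1 := by
  exact QuotientGroup.eq_one_iff x

/-- the transition maps -/
def trans {N M : PIx p} (h : N.1 ≤ M.1) : Qt p N →* Qt p M :=
  QuotientGroup.map N.1 M.1 (MonoidHom.id _) h

@[simp] lemma trans_toQt {N M : PIx p} (h : N.1 ≤ M.1) (x : Fd) :
    trans p h (toQt p N x) = toQt p M x := rfl

variable {p} in
lemma PIx.finite [Fact p.Prime] (N : PIx p) : Finite (Qt p N) := by
  obtain ⟨k, hk⟩ := N.2.2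
  have h : N.1.index ≠ 0 := by
    rw [hk]
    exact pow_ne_zero _ (Fact.out : p.Prime).ne_zero
  have : N.1.FiniteIndex := ⟨h⟩
  exact inferInstanceAs (Finite (Fd ⧸ N.1))

instance [Fact p.Prime] (N : PIx p) : Finite (Qt p N) := N.finite

/-- the inverse limit, as a subgroup of the product -/
def ProSub : Subgroup (∀ N : PIx p, Qt p N) where
  carrier := {x | ∀ (N M : PIx p) (h : N.1 ≤ M.1), trans p h (x N) = x M}
  one_mem' := by
    intro N M h
    simp
  mul_mem' := by
    intro x y hx hy N M h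
    rw [Pi.mul_apply, Pi.mul_apply, map_mul, hx N M h, hy N M h]
  inv_mem' := by
    intro x hx N M h
    rw [Pi.inv_apply, Pi.inv_apply, map_inv, hx N M h]

/-- the pro-`p` completion of the free group of rank `3` -/
def FP : Type := ↥(ProSub p)

noncomputable instance : Group (FP p) := inferInstanceAs (Group ↥(ProSub p))
instance : TopologicalSpace (FP p) := inferInstanceAs (TopologicalSpace ↥(ProSub p))
instance : IsTopologicalGroup (FP p) := inferInstanceAs (IsTopologicalGroup ↥(ProSub p))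
instance : T2Space (FP p) := inferInstanceAs (T2Space ↥(ProSub p))
instance : TotallyDisconnectedSpace (FP p) :=
  inferInstanceAs (TotallyDisconnectedSpace ↥(ProSub p))

lemma isClosed_proSub : IsClosed ((ProSub p : Subgroup (∀ N : PIx p, Qt p N)) : Set (∀ N : PIx p, Qt p N)) := by
  have : ((ProSub p : Subgroup (∀ N : PIx p, Qt p N)) : Set (∀ N : PIx p, Qt p N)) =
      ⋂ (N : PIx p) (M : PIx p) (h : N.1 ≤ M.1), {x | trans p h (x N) = x M} := by
    ext x
    simp [ProSub]
  rw [this]
  refine isClosed_iInter fun N => isClosed_iInter fun M => isClosed_iInter fun h => ?_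
  refine isClosed_eq ?_ (continuous_apply M)
  exact (continuous_of_discreteTopology).comp (continuous_apply N)

instance [Fact p.Prime] : CompactSpace (FP p) :=
  isCompact_iff_compactSpace.mp (isClosed_proSub p).isCompact

/-- the projections -/
noncomputable def FP.proj (N : PIx p) : FP p →* Qt p N where
  toFun x := x.1 N
  map_one' := rfl
  map_mul' _ _ := rfl

lemma FP.continuous_proj (N : PIx p) : Continuous (FP.proj p N) :=
  (continuous_apply N).comp continuous_subtype_val

lemma FP.trans_proj {N M : PIx p} (h : N.1 ≤ M.1) (x : FP p) :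
    trans p h (FP.proj p N x) = FP.proj p M x := x.2 N M h

/-- the dense homomorphism -/
noncomputable def FP.of : Fd →* FP p where
  toFun x := ⟨fun N => toQt p N x, fun _ _ _ => rfl⟩
  map_one' := rfl
  map_mul' _ _ := rfl

@[simp] lemma FP.proj_of (N : PIx p) (x : Fd) : FP.proj p N (FP.of p x) = toQt p N x := rfl

lemma FP.proj_surjective (N : PIx p) : Function.Surjective (FP.proj p N) := by
  intro y
  obtain ⟨x, rfl⟩ := toQt_surjective p N y
  exact ⟨FP.of p x, rfl⟩

/-- open normal kernels -/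
noncomputable def FP.ker (N : PIx p) : Subgroup (FP p) := (FP.proj p N).ker

instance FP.ker_normal (N : PIx p) : (FP.ker p N).Normal := inferInstanceAs ((FP.proj p N).ker).Normal

lemma FP.mem_ker (N : PIx p) (x : FP p) : x ∈ FP.ker p N ↔ FP.proj p N x = 1 := Iff.rfl

lemma FP.ker_isOpen (N : PIx p) : IsOpen (FP.ker p N : Set (FP p)) := by
  have : (FP.ker p N : Set (FP p)) = FP.proj p N ⁻¹' {1} := by
    ext x
    exact Iff.rfl
  rw [this]
  exact (isOpen_discrete _).preimage (FP.continuous_proj p N)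

lemma FP.ker_mono {N M : PIx p} (h : N.1 ≤ M.1) : FP.ker p N ≤ FP.ker p M := by
  intro x hx
  rw [FP.mem_ker] at hx ⊢
  rw [← FP.trans_proj p h, hx, map_one]

lemma FP.of_mem_ker (N : PIx p) (x : Fd) : FP.of p x ∈ FP.ker p N ↔ x ∈ N.1 := by
  rw [FP.mem_ker, FP.proj_of, toQt_eq_one_iff]

section directed

variable [Fact p.Prime]

/-- intersection of two members -/
noncomputable def PIx.inf (N M : PIx p) : PIx p := ⟨N.1 ⊓ M.1, by
  have := N.2.1
  have := M.2.1
  refine ⟨inferInstance, ?_⟩
  obtain ⟨k, hk⟩ := N.2.2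
  obtain ⟨l, hl⟩ := M.2.2
  have h1 : (N.1 ⊓ M.1).index = (N.1).relIndex M.1 * M.1.index := by
    rw [← Subgroup.relIndex_mul_index (inf_le_right : N.1 ⊓ M.1 ≤ M.1), Subgroup.inf_relIndex_right]
  have h2 : (N.1).relIndex M.1 ∣ p ^ k := by
    rw [← hk]
    exact Subgroup.relIndex_dvd_index_of_normal _ _
  obtain ⟨j, -, hj⟩ := (Nat.dvd_prime_pow (Fact.out : p.Prime)).1 h2
  exact ⟨j + l, by rw [h1, hj, hl, pow_add]⟩⟩

lemma PIx.inf_le_left (N M : PIx p) : (PIx.inf p N M).1 ≤ N.1 := _root_.inf_le_left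
lemma PIx.inf_le_right (N M : PIx p) : (PIx.inf p N M).1 ≤ M.1 := _root_.inf_le_right

/-- the whole group -/
def PIx.top : PIx p := ⟨⊤, inferInstance, 0, by simp⟩

lemma PIx.exists_le_finset {ι : Type*} (s : Finset ι) (f : ι → PIx p) :
    ∃ N : PIx p, ∀ i ∈ s, N.1 ≤ (f i).1 := by
  classical
  induction s using Finset.induction_on with
  | empty => exact ⟨PIx.top p, by simp⟩
  | insert a s _ ih =>
    obtain ⟨N, hN⟩ := ih
    refine ⟨PIx.inf p N (f a), ?_⟩
    intro i hi
    rcases Finset.mem_insert.1 hi with rfl | hi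
    · exact PIx.inf_le_right p _ _
    · exact (PIx.inf_le_left p _ _).trans (hN i hi)

/-- the kernels form a basis of neighbourhoods of `1` -/
lemma FP.exists_ker_subset {U : Set (FP p)} (hU : IsOpen U) (h1 : (1 : FP p) ∈ U) :
    ∃ N : PIx p, (FP.ker p N : Set (FP p)) ⊆ U := by
  obtain ⟨V, hV, rfl⟩ := isOpen_induced_iff.1 hU
  obtain ⟨I, u, hu, hIV⟩ := isOpen_pi_iff.1 hV _ h1
  obtain ⟨N, hN⟩ := PIx.exists_le_finset p I id
  refine ⟨N, fun x hx => hIV ?_⟩
  intro i hi
  have : x.1 i = 1 := FP.ker_mono p (hN i hi) hx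
  have h2 := (hu i hi).2
  change x.1 i ∈ u i
  rw [this]
  exact h2

lemma FP.exists_ker_le {J : Subgroup (FP p)} (hJ : IsOpen (J : Set (FP p))) :
    ∃ N : PIx p, FP.ker p N ≤ J :=
  FP.exists_ker_subset p hJ J.one_mem

/-- a left coset neighbourhood -/
lemma FP.exists_ker_smul_subset {U : Set (FP p)} (hU : IsOpen U) (x : FP p) (hx : x ∈ U) :
    ∃ N : PIx p, ∀ u ∈ FP.ker p N, x * u ∈ U := by
  have h := hU.preimage (continuous_const_mul x)
  obtain ⟨N, hN⟩ := FP.exists_ker_subset p h (by simpa using hx)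
  exact ⟨N, fun u hu => hN hu⟩

lemma FP.dense_of : DenseRange (FP.of p) := by
  intro x
  rw [mem_closure_iff]
  intro U hU hx
  obtain ⟨N, hN⟩ := FP.exists_ker_smul_subset p hU x hx
  obtain ⟨y, hy⟩ := toQt_surjective p N (FP.proj p N x)
  refine ⟨FP.of p y, ?_, y, rfl⟩
  have : x⁻¹ * FP.of p y ∈ FP.ker p N := by
    rw [FP.mem_ker, map_mul, map_inv, FP.proj_of, hy, inv_mul_cancel]
  simpa using hN _ this

end directed

end Pool.Agent.RFA
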