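import Pool.Agent.RFA.ProP

set_option autoImplicit false

open scoped Topology Pointwise

namespace Pool.Agent.RFA

variable (p : ℕ) [Fact p.Prime]

/-- a subgroup of finite index containing a fixed power of every element of `W` contains a member -/
lemma PIx.exists_le_of (W : PIx p) (O : Subgroup Fd) (k : ℕ)
    (h : ∀ x ∈ W.1, x ^ p ^ k ∈ O) (hidx : O.index ≠ 0) : ∃ N : PIx p, N.1 ≤ O := by
  have hfi : O.FiniteIndex := ⟨hidx⟩
  obtain ⟨a, ha⟩ := W.2.2
  have hP : IsPGroup p (Fd ⧸ O.normalCore) := by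
    intro g
    obtain ⟨y, rfl⟩ := QuotientGroup.mk_surjective g
    refine ⟨a + k, ?_⟩
    rw [← QuotientGroup.mk_pow, QuotientGroup.eq_one_iff]
    intro b
    have h1 : y ^ p ^ a ∈ W.1 := by
      rw [← ha]
      exact W.1.pow_index_mem y
    have h2 : b * y ^ p ^ a * b⁻¹ ∈ W.1 := W.2.1.conj_mem _ h1 b
    have h3 := h _ h2
    rwa [conj_pow, ← pow_mul, ← pow_add] at h3
  have hfin : Finite (Fd ⧸ O.normalCore) := inferInstance
  obtain ⟨n, hn⟩ := (IsPGroup.iff_card).1 hP
  exact ⟨⟨O.normalCore, inferInstance, n, hn⟩, O.normalCore_le⟩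

end Pool.Agent.RFA
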