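import Pool.Agent.RFA.ProP2
import Pool.Agent.RFA.FreeH2
import Pool.Agent.RFA.Defs

set_option autoImplicit false

open scoped Topology Pointwise

namespace Pool.Agent.RFA

variable (p : ℕ) [Fact p.Prime]

/-- an open subset of `J × J` containing `(1,1)` contains a product of kernels -/
lemma FP.exists_ker_prod {J : Subgroup (FP p)} {U : Set (↥J × ↥J)} (hU : IsOpen U)
    (h1 : ((1, 1) : ↥J × ↥J) ∈ U) :
    ∃ N : PIx p, ∀ u v : ↥J, (u : FP p) ∈ FP.ker p N → (v : FP p) ∈ FP.ker p N → (u, v) ∈ U := by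
  obtain ⟨A, B, hA, hB, hA1, hB1, hAB⟩ := isOpen_prod_iff.1 hU 1 1 h1
  obtain ⟨A', hA', rfl⟩ := isOpen_induced_iff.1 hA
  obtain ⟨B', hB', rfl⟩ := isOpen_induced_iff.1 hB
  obtain ⟨N, hN⟩ := FP.exists_ker_subset p (hA'.inter hB') ⟨hA1, hB1⟩
  exact ⟨N, fun u v hu hv => hAB ⟨(hN hu).1, (hN hv).2⟩⟩

lemma FP.compactSpace_of_isOpen {J : Subgroup (FP p)} (hJ : IsOpen (J : Set (FP p))) :
    CompactSpace ↥J := by
  have : IsClosed (J : Set (FP p)) := J.isClosed_of_isOpen hJ
  exact isCompact_iff_compactSpace.mp this.isCompact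

/-- uniform local constancy in two variables -/
lemma FP.exists_uniform {J : Subgroup (FP p)} (hJ : IsOpen (J : Set (FP p))) {X : Type*}
    (f : ↥J × ↥J → X) (hf : IsLocallyConstant f) :
    ∃ N : PIx p, FP.ker p N ≤ J ∧ ∀ x y u v : ↥J, (u : FP p) ∈ FP.ker p N →
      (v : FP p) ∈ FP.ker p N → f (x * u, y * v) = f (x, y) := by
  classical
  have hcomp := FP.compactSpace_of_isOpen p hJ
  have key : ∀ z : ↥J × ↥J, ∃ N : PIx p, ∀ u v : ↥J, (u : FP p) ∈ FP.ker p N →
      (v : FP p) ∈ FP.ker p N → f (z.1 * u, z.2 * v) = f z := by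
    intro z
    have h1 : IsOpen (f ⁻¹' {f z}) := hf _
    have h2 : Continuous (fun w : ↥J × ↥J => (z.1 * w.1, z.2 * w.2)) := by fun_prop
    obtain ⟨N, hN⟩ := FP.exists_ker_prod p (h1.preimage h2) (by simp)
    exact ⟨N, fun u v hu hv => hN u v hu hv⟩
  choose Nz hNz using key
  have hW : ∀ z : ↥J × ↥J, {w : ↥J × ↥J | ((z.1⁻¹ * w.1 : ↥J) : FP p) ∈ FP.ker p (Nz z) ∧
      ((z.2⁻¹ * w.2 : ↥J) : FP p) ∈ FP.ker p (Nz z)} ∈ 𝓝 z := by
    intro z
    apply IsOpen.mem_nhds
    · have c1 : Continuous (fun w : ↥J × ↥J => ((z.1⁻¹ * w.1 : ↥J) : FP p)) := by fun_prop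
      have c2 : Continuous (fun w : ↥J × ↥J => ((z.2⁻¹ * w.2 : ↥J) : FP p)) := by fun_prop
      exact ((FP.ker_isOpen p (Nz z)).preimage c1).inter ((FP.ker_isOpen p (Nz z)).preimage c2)
    · simp
  obtain ⟨t, ht⟩ := CompactSpace.elim_nhds_subcover _ hW
  obtain ⟨N1, hN1⟩ := PIx.exists_le_finset p t Nz
  obtain ⟨N2, hN2⟩ := FP.exists_ker_le p hJ
  refine ⟨PIx.inf p N1 N2, (FP.ker_mono p (PIx.inf_le_right p _ _)).trans hN2, ?_⟩
  intro x y u v hu hv
  have hxy : (x, y) ∈ (⊤ : Set (↥J × ↥J)) := trivial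
  rw [← ht] at hxy
  simp only [Set.mem_iUnion] at hxy
  obtain ⟨z, hz, hz1, hz2⟩ := hxy
  have hle : FP.ker p (PIx.inf p N1 N2) ≤ FP.ker p (Nz z) :=
    FP.ker_mono p ((PIx.inf_le_left p _ _).trans (hN1 z hz))
  have e1 := hNz z (z.1⁻¹ * (x * u)) (z.2⁻¹ * (y * v))
    (by
      have := (FP.ker p (Nz z)).mul_mem hz1 (hle hu)
      simpa [mul_assoc] using this)
    (by
      have := (FP.ker p (Nz z)).mul_mem hz2 (hle hv)
      simpa [mul_assoc] using this)
  have e2 := hNz z (z.1⁻¹ * x) (z.2⁻¹ * y) hz1 hz2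
  simp only [mul_inv_cancel_left] at e1 e2
  rw [e1, e2]

/-- every open subgroup has vanishing `H²` -/
theorem FP.h2zero {J : Subgroup (FP p)} (hJ : IsOpen (J : Set (FP p))) : H2zero p ↥J := by
  intro M _ _ a hcard ha c hc hcoc
  obtain ⟨k, hk⟩ := hcard
  obtain ⟨N, hNJ, hN⟩ := FP.exists_uniform p hJ (fun z : ↥J × ↥J => (c z.1 z.2, a z.1))
    (hc.prodMk (ha.comp_continuous continuous_fst))
  -- discrete side
  let JF : Subgroup Fd := J.comap (FP.of p)
  let ρ : ↥JF →* ↥J := (FP.of p).subgroupComap J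
  obtain ⟨h, hh⟩ := free_H2 (G := ↥JF) (a.comp ρ) (fun x y => c (ρ x) (ρ y)) (by
    intro x y z
    have := hcoc (ρ x) (ρ y) (ρ z)
    simpa using this)
  have hNJF : N.1 ≤ JF := fun x hx => hNJ ((FP.of_mem_ker p N x).2 hx)
  have ca : ∀ u : ↥J, (u : FP p) ∈ FP.ker p N → a u = 1 := by
    intro u hu
    have := hN 1 1 u 1 hu (Subgroup.one_mem _)
    simp only [one_mul, Prod.mk.injEq, map_one] at this
    exact this.2
  have cc : ∀ x y u v : ↥J, (u : FP p) ∈ FP.ker p N → (v : FP p) ∈ FP.ker p N →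
      c (x * u) (y * v) = c x y := by
    intro x y u v hu hv
    have := hN x y u v hu hv
    simp only [Prod.mk.injEq] at this
    exact this.1
  have ca2 : ∀ x u : ↥J, (u : FP p) ∈ FP.ker p N → a (x * u) = a x := by
    intro x u hu
    rw [map_mul, ca u hu, mul_one]
  have c1 : ∀ x : ↥J, c x 1 = a x (c 1 1) := by
    intro x
    have := hcoc x 1 1
    simp only [mul_one] at this
    -- a x (c 1 1) + c x 1 = c x 1 + c x 1
    have h' : a x (c 1 1) + c x 1 = c x 1 + c x 1 := this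
    exact (add_right_cancel h').symm
  have hmem : ∀ x : ↥JF, (x : Fd) ∈ N.1 → ((ρ x : ↥J) : FP p) ∈ FP.ker p N := by
    intro x hx
    exact (FP.of_mem_ker p N x).2 hx
  -- behaviour on `N`
  have hmul : ∀ x u : ↥JF, (u : Fd) ∈ N.1 → h (x * u) = h x + a (ρ x) (h u - c 1 1) := by
    intro x u hu
    have e1 := hh x u
    have e2 : c (ρ x) (ρ u) = a (ρ x) (c 1 1) := by
      rw [← c1]
      have := cc (ρ x) 1 1 (ρ u) (Subgroup.one_mem _) (hmem u hu)
      simpa using this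
    simp only [MonoidHom.comp_apply] at e1
    rw [e2] at e1
    rw [map_sub, e1]
    abel
  -- the homomorphism on `N`
  let g : ↥N.1 →* Multiplicative M :=
    { toFun := fun u => Multiplicative.ofAdd (h ⟨u, hNJF u.2⟩ - c 1 1)
      map_one' := by
        have e1 := hmul 1 1 N.1.one_mem
        simp only [mul_one, map_one] at e1
        have e2 : h 1 - c 1 1 = 0 := by
          have : h 1 = h 1 + (h 1 - c 1 1) := e1
          exact (left_eq_add.1 this)
        exact congrArg Multiplicative.ofAdd e2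
      map_mul' := by
        intro u v
        have e1 := hmul ⟨u, hNJF u.2⟩ ⟨v, hNJF v.2⟩ v.2
        have e2 : a (ρ ⟨u, hNJF u.2⟩) = 1 := ca _ (hmem _ u.2)
        rw [e2] at e1
        have e3 : h ⟨((u * v : ↥N.1) : Fd), hNJF (u * v).2⟩ - c 1 1 =
            (h ⟨u, hNJF u.2⟩ - c 1 1) + (h ⟨v, hNJF v.2⟩ - c 1 1) := by
          have : h ⟨((u * v : ↥N.1) : Fd), hNJF (u * v).2⟩ =
            h ⟨u, hNJF u.2⟩ + (h ⟨v, hNJF v.2⟩ - c 1 1) := e1
          rw [this]; abel
        exact congrArg Multiplicative.ofAdd e3 }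
  let O : Subgroup Fd := g.ker.map N.1.subtype
  have hON : O ≤ N.1 := Subgroup.map_subtype_le _
  have hOmem : ∀ u : ↥JF, (u : Fd) ∈ O → h u = c 1 1 := by
    rintro ⟨u, hu⟩ ⟨v, hv, hvu⟩
    have e : g v = 1 := hv
    have e2 : h ⟨v, hNJF v.2⟩ - c 1 1 = 0 := congrArg Multiplicative.toAdd e
    simp only [Subgroup.coe_subtype] at hvu
    subst hvu
    exact sub_eq_zero.1 e2
  have hOidx : O.index ≠ 0 := by
    have h1 : O.index = O.relIndex N.1 * N.1.index := (Subgroup.relIndex_mul_index hON).symm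
    have h2 : O.relIndex N.1 = g.ker.index := by
      change (O.subgroupOf N.1).index = _
      congr 1
      exact Subgroup.comap_map_eq_self_of_injective N.1.subtype_injective _
    have h3 : g.ker.index ≠ 0 := by
      have : Finite (Multiplicative M) := inferInstanceAs (Finite M)
      have : Finite g.range := inferInstance
      rw [Subgroup.index_ker]
      exact Nat.card_pos.ne'
    obtain ⟨l, hl⟩ := N.2.2
    rw [h1, h2, hl]
    exact mul_ne_zero h3 (pow_ne_zero _ (Fact.out : p.Prime).ne_zero)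
  have hOpow : ∀ x ∈ N.1, x ^ p ^ k ∈ O := by
    intro x hx
    refine ⟨⟨x, hx⟩ ^ p ^ k, ?_, by simp⟩
    change g (⟨x, hx⟩ ^ p ^ k) = 1
    rw [map_pow, ← hk]
    have : Finite (Multiplicative M) := inferInstanceAs (Finite M)
    have hc2 : Nat.card (Multiplicative M) = Nat.card M := rfl
    rw [← hc2]
    exact pow_card_eq_one'
  obtain ⟨N', hN'⟩ := PIx.exists_le_of p N O k hOpow hOidx
  have hN'N : FP.ker p N' ≤ FP.ker p N := FP.ker_mono p (hN'.trans hON)
  -- extension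
  classical
  let H : Qt p N' → M := fun q =>
    if hq : (Classical.choose (toQt_surjective p N' q)) ∈ JF then
      h ⟨Classical.choose (toQt_surjective p N' q), hq⟩ else 0
  have hHof : ∀ x : ↥JF, H (toQt p N' x) = h x := by
    intro x
    have hs := Classical.choose_spec (toQt_surjective p N' (toQt p N' x))
    set y := Classical.choose (toQt_surjective p N' (toQt p N' x)) with hy
    have hyx : (x : Fd)⁻¹ * y ∈ N'.1 := (toQt_eq_iff p N' _ _).1 hs.symm
    have hyJ : y ∈ JF := by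
      have := JF.mul_mem x.2 (hNJF (hON (hN' hyx)))
      simpa using this
    have e1 : H (toQt p N' x) = h ⟨y, hyJ⟩ := by
      simp only [H]
      rw [dif_pos hyJ]
    rw [e1]
    have hzO : (x : Fd)⁻¹ * y ∈ O := hN' hyx
    have hzN : (x : Fd)⁻¹ * y ∈ N.1 := hON hzO
    have hz : (x : Fd)⁻¹ * y ∈ JF := hNJF hzN
    have e2 : (⟨y, hyJ⟩ : ↥JF) = x * ⟨(x : Fd)⁻¹ * y, hz⟩ := by
      apply Subtype.ext
      simp
    rw [e2, hmul x ⟨(x : Fd)⁻¹ * y, hz⟩ hzN, hOmem ⟨(x : Fd)⁻¹ * y, hz⟩ hzO]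
    simp
  refine ⟨fun x => H (FP.proj p N' x), ?_, ?_⟩
  · have hcont : Continuous (fun x : ↥J => FP.proj p N' (x : FP p)) :=
      (FP.continuous_proj p N').comp continuous_subtype_val
    exact (IsLocallyConstant.of_discrete H).comp_continuous hcont
  · intro x y
    -- approximate by elements of the free group
    have happ : ∀ x : ↥J, ∃ x0 : ↥JF, ((x⁻¹ * ρ x0 : ↥J) : FP p) ∈ FP.ker p N' := by
      intro x
      obtain ⟨x0, hx0⟩ := toQt_surjective p N' (FP.proj p N' x)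
      have h1 : (x : FP p)⁻¹ * FP.of p x0 ∈ FP.ker p N' := by
        rw [FP.mem_ker, map_mul, map_inv, FP.proj_of, hx0, inv_mul_cancel]
      have h2 : x0 ∈ JF := by
        have := J.mul_mem x.2 (hNJ (hN'N h1))
        have e : (x : FP p) * ((x : FP p)⁻¹ * FP.of p x0) = FP.of p x0 := by simp
        rw [e] at this
        exact this
      exact ⟨⟨x0, h2⟩, h1⟩
    obtain ⟨x0, hx0⟩ := happ x
    obtain ⟨y0, hy0⟩ := happ y
    have ex : ρ x0 = x * (x⁻¹ * ρ x0) := by simp
    have ey : ρ y0 = y * (y⁻¹ * ρ y0) := by simp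
    have e1 : c (ρ x0) (ρ y0) = c x y := by
      rw [ex, ey]
      exact cc x y _ _ (hN'N hx0) (hN'N hy0)
    have e2 : a (ρ x0) = a x := by
      rw [ex]
      exact ca2 x _ (hN'N hx0)
    have p1 : FP.proj p N' (x : FP p) = toQt p N' x0 := by
      have := (FP.mem_ker p N' _).1 hx0
      have h2 : (FP.proj p N' (x : FP p))⁻¹ * toQt p N' x0 = 1 := by
        rw [← this]; rfl
      exact inv_mul_eq_one.1 h2
    have p2 : FP.proj p N' (y : FP p) = toQt p N' y0 := by
      have := (FP.mem_ker p N' _).1 hy0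
      have h2 : (FP.proj p N' (y : FP p))⁻¹ * toQt p N' y0 = 1 := by
        rw [← this]; rfl
      exact inv_mul_eq_one.1 h2
    have p3 : FP.proj p N' ((x * y : ↥J) : FP p) = toQt p N' ((x0 * y0 : ↥JF) : Fd) := by
      have : FP.proj p N' ((x * y : ↥J) : FP p) =
        FP.proj p N' (x : FP p) * FP.proj p N' (y : FP p) := rfl
      rw [this, p1, p2]
      rfl
    have e3 := hh x0 y0
    simp only [MonoidHom.comp_apply] at e3
    rw [e1, e2] at e3
    simp only [p1, p2, p3, hHof]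
    exact e3

end Pool.Agent.RFA
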