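import Pool.Agent.RFA.RootAux

set_option autoImplicit false

namespace Pool.Agent.RFA

open Topology Module

variable {p : ℕ} [Fact p.Prime] {G : Type} [Group G] [TopologicalSpace G] [IsTopologicalGroup G]

/-- a chain `L (i+1) = Kap (L i) (m i)` with `m i` above the detection thresholds has
intersection `R` -/
theorem chain_inter {δ : ℕ} (hG : ProFree p δ G) (S : Stage p δ G) (L : ℕ → Subgroup G)
    (m : ℕ → ℕ) (h0 : (L 0).Normal) (h0o : IsOpen (L 0 : Set G)) (h0R : S.R ≤ L 0)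
    (h0V : L 0 ≤ S.V) (hm : ∀ i, 1 ≤ m i) (hL : ∀ i, L (i + 1) = Kap p S.R (L i) (m i))
    (hdet : ∀ i, ∀ y : ↥(L i), (y : G) ∈ L (i + 1) → (∃ f ∈ HomR p S.R (L i), f y ≠ 0) →
      ∃ φ, IsZ p S.R (L (i + 1)) φ ∧ ¬ (p : ℤ_[p]) ∣ φ y) (x : G) (hx : ∀ i, x ∈ L i) :
    x ∈ S.R :=
  chain_inter' hG S L m h0 h0o h0R h0V hm hL hdet x hx

/-! ### a level at which `w` is seen by a character -/

theorem root_start {δ : ℕ} (hG : ProFree p δ G) (S : Stage p δ G) (w : G)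
    (hw : ∀ n : ℕ, 0 < n → w ^ n ∉ S.R) :
    ∃ (L₀ : Subgroup G) (c : ℕ) (φ₀ : G → ℤ_[p]), L₀.Normal ∧ IsOpen (L₀ : Set G) ∧ S.R ≤ L₀ ∧
      L₀ ≤ S.V ∧ w ^ p ^ c ∈ L₀ ∧ IsZ p S.R L₀ φ₀ ∧ φ₀ (w ^ p ^ c) ≠ 0 := by
  have := hG.compact
  have := hG.t2
  have hRn : S.R.Normal := Rel.normal S.r S.e
  by_contra hcon
  push Not at hcon
  have hVfin : S.V.FiniteIndex := hG.finiteIndex S.V S.adm.isOpen
  have hNo : IsOpen (S.V.normalCore : Set G) :=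
    Subgroup.isOpen_of_isClosed_of_finiteIndex _
      (S.V.normalCore_isClosed (Subgroup.isClosed_of_isOpen _ S.adm.isOpen))
  have hNR : S.R ≤ S.V.normalCore := Subgroup.normal_le_normalCore.2 S.adm.rel_le
  let St := {L : Subgroup G // L.Normal ∧ IsOpen (L : Set G) ∧ S.R ≤ L ∧ L ≤ S.V}
  have hstep : ∀ s : St, ∃ m : ℕ, 1 ≤ m ∧ ∀ y : ↥s.1, (y : G) ∈ Kap p S.R s.1 m →
      (∃ f ∈ HomR p S.R s.1, f y ≠ 0) →
      ∃ φ, IsZ p S.R (Kap p S.R s.1 m) φ ∧ ¬ (p : ℤ_[p]) ∣ φ y := by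
    intro s
    obtain ⟨m₀, hm₀⟩ := kap_detect hG S s.1 s.2.2.1 s.2.2.2.1 s.2.2.2.2
    exact ⟨max 1 m₀, le_max_left _ _, hm₀ _ (le_max_right _ _)⟩
  choose mm hmm hdet using hstep
  let nx : St → St := fun s => ⟨Kap p S.R s.1 (mm s), Kap_normal hRn s.2.1 _,
    Kap_open hG s.2.2.1 _, le_Kap s.2.2.2.1 _,
    fun x hx => s.2.2.2.2 ((mem_Kap _ x).1 hx).1⟩
  let s₀ : St := ⟨S.V.normalCore, inferInstance, hNo, hNR, Subgroup.normalCore_le _⟩
  let seq : ℕ → St := fun i => Nat.rec s₀ (fun _ s => nx s) i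
  obtain ⟨n, hn⟩ := hG.index_pow _ hNo
  have hmem : ∀ i, w ^ p ^ n ∈ (seq i).1 := by
    intro i
    induction i with
    | zero =>
      change w ^ p ^ n ∈ S.V.normalCore
      rw [← hn]
      exact Subgroup.pow_index_mem _ _
    | succ i ih =>
      change w ^ p ^ n ∈ Kap p S.R (seq i).1 (mm (seq i))
      rw [mem_Kap]
      refine ⟨ih, fun φ hφ => ?_⟩
      rw [hcon (seq i).1 n φ (seq i).2.1 (seq i).2.2.1 (seq i).2.2.2.1 (seq i).2.2.2.2 ih hφ]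
      exact dvd_zero _
  have hfin := chain_inter hG S (fun i => (seq i).1) (fun i => mm (seq i)) s₀.2.1 s₀.2.2.1
    s₀.2.2.2.1 s₀.2.2.2.2 (fun i => hmm _) (fun i => rfl)
    (fun i y hy hf => hdet (seq i) y hy hf) (w ^ p ^ n) hmem
  exact hw _ (pow_pos (Nat.Prime.pos Fact.out) n) hfin

/-! ### division of characters -/

theorem root_divp {R L : Subgroup G} {χ : G → ℤ_[p]} (h : IsZ p R L χ) (m : ℕ) :
    IsZ p R (Kap p R L m) (fun x => divp p m (χ x)) ∧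
      ∀ x ∈ Kap p R L m, χ x = (p : ℤ_[p]) ^ m * divp p m (χ x) := by
  have hspec : ∀ z : ℤ_[p], (p : ℤ_[p]) ^ m ∣ z → z = (p : ℤ_[p]) ^ m * divp p m z := by
    intro z hz
    unfold divp
    rw [dif_pos hz]
    exact Classical.choose_spec hz
  have hp0 : (p : ℤ_[p]) ^ m ≠ 0 := pow_ne_zero _ (by exact_mod_cast (Nat.Prime.ne_zero Fact.out))
  have hK : ∀ x ∈ Kap p R L m, χ x = (p : ℤ_[p]) ^ m * divp p m (χ x) := fun x hx =>
    hspec _ (((mem_Kap m x).1 hx).2 χ h)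
  have hle : Kap p R L m ≤ L := fun x hx => ((mem_Kap m x).1 hx).1
  refine ⟨⟨?_, ?_, ?_⟩, hK⟩
  · have hind : IsInducing (fun z : ℤ_[p] => (p : ℤ_[p]) ^ m * z) :=
      ((continuous_const.mul continuous_id).isClosedEmbedding
        (mul_right_injective₀ hp0)).isInducing
    rw [hind.continuousOn_iff]
    exact (h.cont.mono hle).congr fun x hx => (hK x hx).symm
  · intro x hx y hy
    apply mul_right_injective₀ hp0
    change (p : ℤ_[p]) ^ m * divp p m (χ (x * y)) =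
      (p : ℤ_[p]) ^ m * (divp p m (χ x) + divp p m (χ y))
    rw [← hK _ ((Kap p R L m).mul_mem hx hy), mul_add, ← hK x hx, ← hK y hy]
    exact h.mul x (hle hx) y (hle hy)
  · intro x hx
    apply mul_right_injective₀ hp0
    change (p : ℤ_[p]) ^ m * divp p m (χ x) = (p : ℤ_[p]) ^ m * 0
    rw [h.rel x hx, ← hspec 0 (dvd_zero _), mul_zero]

/-! ### stabilisers -/

/-- stabiliser of the values of all characters of `L` on `u` -/
def rootStab (R L : Subgroup G) (hR : R.Normal) (hL : L.Normal) (u : G) :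
    Subgroup G where
  carrier := {g | ∀ φ : G → ℤ_[p], IsZ p R L φ → φ (g * u * g⁻¹) = φ u}
  one_mem' := by intro φ _; simp
  mul_mem' := by
    intro g h hg hh φ hφ
    have e : g * h * u * (g * h)⁻¹ = g * (h * u * h⁻¹) * g⁻¹ := by group
    rw [e]
    have h1 : φ (g * (h * u * h⁻¹) * g⁻¹) = φ (g * u * g⁻¹) := hh _ (hφ.conj hR hL g)
    rw [h1, hg φ hφ]
  inv_mem' := by
    intro g hg φ hφ
    have h1 := hg _ (hφ.conj hR hL g⁻¹)
    simp only [inv_inv] at h1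
    have e1 : g⁻¹ * (g * u * g⁻¹) * g = u := by group
    rw [e1] at h1
    rw [inv_inv]
    exact h1.symm

/-! ### the main chain -/

/-- state of the main chain -/
structure RootSt {δ : ℕ} (S : Stage p δ G) (w : G) (c : ℕ) (χ₀ : G → ℤ_[p]) where
  L : Subgroup G
  M : ℕ
  χ : G → ℤ_[p]
  nor : L.Normal
  op : IsOpen (L : Set G)
  hR : S.R ≤ L
  hV : L ≤ S.V
  isZ : IsZ p S.R L χ
  hu : w ^ p ^ (c + M) ∈ L
  unit : ∀ g, PadicInt.toZMod (χ (g * w ^ p ^ (c + M) * g⁻¹)) = 1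
  dv : ∀ x ∈ L, χ₀ x = (p : ℤ_[p]) ^ M * χ x

theorem root_next {δ : ℕ} (hG : ProFree p δ G) (S : Stage p δ G) (w : G) (c : ℕ)
    (χ₀ : G → ℤ_[p]) (s : RootSt S w c χ₀) :
    ∃ (m : ℕ) (t : RootSt S w c χ₀), 1 ≤ m ∧ t.L = Kap p S.R s.L m ∧ t.M = s.M + m ∧
      (∀ y : ↥s.L, (y : G) ∈ t.L → (∃ f ∈ HomR p S.R s.L, f y ≠ 0) →
        ∃ φ, IsZ p S.R t.L φ ∧ ¬ (p : ℤ_[p]) ∣ φ y) ∧
      (∀ β ∈ s.L, (∀ φ, IsZ p S.R t.L φ →
        φ (β * w ^ p ^ (c + t.M) * β⁻¹) = φ (w ^ p ^ (c + t.M))) →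
        ∃ a : ℕ, β * ((w ^ p ^ (c + s.M)) ^ a)⁻¹ ∈ t.L) := by
  have hRn : S.R.Normal := Rel.normal S.r S.e
  obtain ⟨m₁, hm₁⟩ := kap_detect hG S s.L s.op s.hR s.hV
  have hun : IsUnit (s.χ (w ^ p ^ (c + s.M))) := by
    apply root_isUnit_of_toZMod
    have := s.unit 1
    simp only [one_mul, inv_one, mul_one] at this
    rw [this]
    exact one_ne_zero
  obtain ⟨m₂, hm₂⟩ := kap_stab hG S s.L s.op s.hR s.hV (w ^ p ^ (c + s.M)) s.hu s.χ s.isZ hun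
  set m := max 1 (max m₁ m₂) with hm
  obtain ⟨hZ, hdv⟩ := root_divp s.isZ m
  have hpow : w ^ p ^ (c + (s.M + m)) = (w ^ p ^ (c + s.M)) ^ p ^ m := by
    rw [← pow_mul, ← pow_add, add_assoc]
  have hp0 : (p : ℤ_[p]) ^ m ≠ 0 := pow_ne_zero _ (by exact_mod_cast (Nat.Prime.ne_zero Fact.out))
  have hconj : ∀ g : G, g * w ^ p ^ (c + s.M) * g⁻¹ ∈ s.L := fun g =>
    s.nor.conj_mem _ s.hu g
  have hmemK : ∀ x ∈ s.L, x ^ p ^ m ∈ Kap p S.R s.L m := by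
    intro x hx
    rw [mem_Kap]
    refine ⟨s.L.pow_mem hx _, fun φ hφ => ?_⟩
    rw [root_pow hφ hx]
    push_cast
    exact dvd_mul_right _ _
  have hgpow : ∀ g : G, g * w ^ p ^ (c + (s.M + m)) * g⁻¹ =
      (g * w ^ p ^ (c + s.M) * g⁻¹) ^ p ^ m := by
    intro g
    rw [hpow, conj_pow]
  refine ⟨m, ⟨Kap p S.R s.L m, s.M + m, fun x => divp p m (s.χ x), Kap_normal hRn s.nor m,
    Kap_open hG s.op m, le_Kap s.hR m, fun x hx => s.hV ((mem_Kap m x).1 hx).1, hZ, ?_, ?_, ?_⟩,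
    le_max_left _ _, rfl, rfl, ?_, ?_⟩
  · rw [hpow]
    exact hmemK _ s.hu
  · intro g
    rw [← s.unit g, hgpow]
    congr 1
    apply mul_right_injective₀ hp0
    change (p : ℤ_[p]) ^ m * divp p m (s.χ ((g * w ^ p ^ (c + s.M) * g⁻¹) ^ p ^ m)) =
      (p : ℤ_[p]) ^ m * s.χ (g * w ^ p ^ (c + s.M) * g⁻¹)
    rw [← hdv _ (hmemK _ (hconj g)), root_pow s.isZ (hconj g)]
    push_cast
    rfl
  · intro x hx
    rw [s.dv x ((mem_Kap m x).1 hx).1, pow_add, mul_assoc]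
    congr 1
    exact hdv x hx
  · exact fun y hy hf => hm₁ m ((le_max_left _ _).trans (le_max_right _ _)) y hy hf
  · intro β hβ h
    apply hm₂ m ((le_max_right _ _).trans (le_max_right _ _)) β hβ
    intro φ hφ
    have := h φ hφ
    change φ (β * w ^ p ^ (c + (s.M + m)) * β⁻¹) = φ (w ^ p ^ (c + (s.M + m))) at this
    rwa [hpow] at this

/-- root and separation -/
theorem root_sep (hp : p ≠ 2) {δ : ℕ} (hG : ProFree p δ G) (S : Stage p δ G) (w : G)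
    (hw : ∀ n : ℕ, 0 < n → w ^ n ∉ S.R) :
    ∃ (L : Subgroup G) (w' : G) (c : ℕ) (χ₀ : G → ℤ_[p]),
      L.Normal ∧ IsOpen (L : Set G) ∧ S.R ≤ L ∧ L ≤ S.V ∧
      (∀ R' : Subgroup G, R'.Normal → IsClosed (R' : Set G) → S.R ≤ R' → ∀ n,
        w' ^ p ^ n ∈ R' → w ^ p ^ n ∈ R') ∧
      (∀ a : ℕ, w' ^ a ∈ L ↔ p ^ c ∣ a) ∧
      IsZ p S.R L χ₀ ∧ (∀ g, IsUnit (χ₀ (g * w' ^ p ^ c * g⁻¹))) ∧
      ∀ g, (∀ φ, IsZ p S.R L φ → φ (g * w' ^ p ^ c * g⁻¹) = φ (w' ^ p ^ c)) →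
        ∃ a : ℕ, g * (w' ^ a)⁻¹ ∈ L := by
  have := hG.compact
  have := hG.t2
  have hRn : S.R.Normal := Rel.normal S.r S.e
  have hp0 : 0 < p := Nat.Prime.pos Fact.out
  obtain ⟨L', c, φ₀, hL'n, hL'o, hL'R, hL'V, hwL', hφ₀, hne⟩ := root_start hG S w hw
  obtain ⟨L₀, χ₀, hL₀n, hL₀o, hL₀R, hL₀L', huL₀, hχ₀, hunit⟩ :=
    minL hG S.R hRn L' hL'n hL'o hL'R (w ^ p ^ c) hwL' φ₀ hφ₀ hne
  -- the chain
  let s₀ : RootSt S w c χ₀ := ⟨L₀, 0, χ₀, hL₀n, hL₀o, hL₀R, hL₀L'.trans hL'V, hχ₀,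
    by simpa using huL₀, fun g => by simpa using hunit g, fun x _ => by simp⟩
  choose mm nx hm1 hL hM hdet hstab using root_next hG S w c χ₀
  let seq : ℕ → RootSt S w c χ₀ := fun i => Nat.rec s₀ (fun _ s => nx s) i
  have hseq : ∀ i, seq (i + 1) = nx (seq i) := fun i => rfl
  have hMge : ∀ i, i ≤ (seq i).M := by
    intro i
    induction i with
    | zero => exact Nat.zero_le _
    | succ i ih =>
      rw [hseq, hM]
      have := hm1 (seq i)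
      omega
  have hLsucc : ∀ i, (seq (i + 1)).L = Kap p S.R (seq i).L (mm (seq i)) := fun i => by
    rw [hseq, hL]
  have hLle : ∀ i, (seq (i + 1)).L ≤ (seq i).L := by
    intro i x hx
    rw [hLsucc, mem_Kap] at hx
    exact hx.1
  have hLanti : Antitone (fun i => (seq i).L) := antitone_nat_of_succ_le hLle
  have hLinter : ∀ x, (∀ i, x ∈ (seq i).L) → x ∈ S.R := fun x hx =>
    chain_inter hG S (fun i => (seq i).L) (fun i => mm (seq i)) s₀.nor s₀.op s₀.hR s₀.hV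
      (fun i => hm1 _) hLsucc (fun i y hy hf => hdet (seq i) y hy hf) x hx
  set u : ℕ → G := fun i => w ^ p ^ (c + (seq i).M) with hu
  have hu0 : u 0 = w ^ p ^ c := rfl
  have hui : ∀ i, u i = u 0 ^ p ^ (seq i).M := by
    intro i
    rw [hu0, ← pow_mul, ← pow_add]
  -- the stabilisers
  set St : ℕ → Subgroup G := fun i => rootStab (p := p) S.R (seq i).L hRn (seq i).nor (u i) with hSt
  have hStmem : ∀ i g, g ∈ St i ↔ ∀ φ : G → ℤ_[p], IsZ p S.R (seq i).L φ →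
      φ (g * u i * g⁻¹) = φ (u i) := fun i g => Iff.rfl
  have hLSt : ∀ i, (seq i).L ≤ St i := by
    intro i l hl φ hφ
    rw [hφ.mul _ ((seq i).L.mul_mem hl (seq i).hu) _ ((seq i).L.inv_mem hl),
      hφ.mul _ hl _ (seq i).hu, root_inv hφ hl]
    ring
  have hwSt : ∀ i, w ∈ St i := by
    intro i φ _
    congr 1
    rw [hu]
    group
  have hStle : ∀ i, St (i + 1) ≤ St i := by
    intro i g hg φ hφ
    have h1 := hg φ (root_mono hφ (hLle i))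
    have hk : ∃ k, u (i + 1) = u i ^ p ^ k := by
      refine ⟨mm (seq i), ?_⟩
      simp only [hu, hseq, hM]
      rw [← pow_mul, ← pow_add, add_assoc]
    obtain ⟨k, hk⟩ := hk
    rw [hk, ← conj_pow, root_pow hφ ((seq i).nor.conj_mem _ (seq i).hu g),
      root_pow hφ (seq i).hu] at h1
    have h2 : ((p ^ k : ℕ) : ℤ_[p]) ≠ 0 := by
      exact_mod_cast (pow_pos hp0 k).ne'
    exact mul_left_cancel₀ h2 h1
  have hStanti : Antitone St := antitone_nat_of_succ_le hStle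
  have hStclosed : ∀ i, IsClosed (St i : Set G) := fun i =>
    Subgroup.isClosed_of_isOpen _ (Subgroup.isOpen_mono (hLSt i) (seq i).op)
  set T : Subgroup G := ⨅ i, St i with hT
  have hTmem : ∀ g, g ∈ T ↔ ∀ i, g ∈ St i := fun g => by rw [hT, Subgroup.mem_iInf]
  have hTclosed : IsClosed (T : Set G) := by
    rw [hT, Subgroup.coe_iInf]
    exact isClosed_iInter hStclosed
  have hwT : w ∈ T := (hTmem w).2 hwSt
  have hRT : S.R ≤ T := fun x hx => (hTmem x).2 fun i => hLSt i ((seq i).hR hx)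
  have huT : ∀ i, u i ∈ T := fun i => T.pow_mem hwT _
  -- F4
  have F4 : ∀ i, ∀ g ∈ St i, g ∈ L₀ → ∃ a : ℕ, g * (u 0 ^ a)⁻¹ ∈ (seq i).L := by
    intro i
    induction i with
    | zero =>
      intro g _ hg
      refine ⟨0, ?_⟩
      rw [pow_zero, inv_one, mul_one]
      exact hg
    | succ i ih =>
      intro g hg hg0
      obtain ⟨a, ha⟩ := ih g (hStle i hg) hg0
      have h1 : g * (u 0 ^ a)⁻¹ ∈ St (i + 1) :=
        (St (i + 1)).mul_mem hg ((St (i + 1)).inv_mem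
          ((St (i + 1)).pow_mem ((hTmem _).1 (huT 0) (i + 1)) a))
      obtain ⟨b, hb⟩ := hstab (seq i) _ ha h1
      refine ⟨p ^ (seq i).M * b + a, ?_⟩
      have e : g * (u 0 ^ (p ^ (seq i).M * b + a))⁻¹ =
          g * (u 0 ^ a)⁻¹ * ((u i) ^ b)⁻¹ := by
        have e1 : u i ^ b = u 0 ^ (p ^ (seq i).M * b) := by
          rw [hui i]; exact (pow_mul _ _ _).symm
        rw [e1, pow_add, mul_inv_rev, mul_assoc]
      rw [e]
      exact hb
  -- F5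
  have hχL : ∀ i, ∀ x ∈ (seq i).L, (p : ℤ_[p]) ^ (seq i).M ∣ χ₀ x := fun i x hx =>
    ⟨_, (seq i).dv x hx⟩
  have hLL₀ : ∀ i, (seq i).L ≤ L₀ := fun i => hLanti (Nat.zero_le i)
  have huL₀' : u 0 ∈ L₀ := huL₀
  have hχu : IsUnit (χ₀ (u 0)) := by
    apply root_isUnit_of_toZMod
    have := hunit 1
    simp only [one_mul, inv_one, mul_one] at this
    rw [hu0, this]
    exact one_ne_zero
  have F5 : ∀ z ∈ T, z ∈ L₀ → χ₀ z = 0 → z ∈ S.R := by
    intro z hz hz0 hzero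
    apply hLinter
    intro i
    obtain ⟨a, ha⟩ := F4 i z ((hTmem z).1 hz i) hz0
    have hua : u 0 ^ a ∈ L₀ := L₀.pow_mem huL₀' a
    have h1 := hχL i _ ha
    rw [hχ₀.mul _ hz0 _ (L₀.inv_mem hua), hzero, zero_add, root_inv hχ₀ hua,
      root_pow hχ₀ huL₀', dvd_neg, hχu.dvd_mul_right] at h1
    have h2 : p ^ (seq i).M ∣ a := by
      have := (PadicInt.pow_p_dvd_int_iff (p := p) (seq i).M (a : ℤ)).1 (by exact_mod_cast h1)
      exact_mod_cast this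
    obtain ⟨b, rfl⟩ := h2
    have h3 : u 0 ^ (p ^ (seq i).M * b) ∈ (seq i).L := by
      rw [pow_mul, ← hui i]
      exact (seq i).L.pow_mem (seq i).hu b
    have h4 := (seq i).L.mul_mem ha h3
    rwa [inv_mul_cancel_right] at h4
  -- F6
  have F6 : ∀ g ∈ T, ∀ z ∈ T, z ∈ L₀ → χ₀ (g * z * g⁻¹) = χ₀ z := by
    intro g hg z hz hz0
    rw [← sub_eq_zero]
    apply root_eq_zero_of_forall_dvd
    intro i
    obtain ⟨a, ha⟩ := F4 i z ((hTmem z).1 hz i) hz0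
    set l := z * (u 0 ^ a)⁻¹ with hl
    have hzl : z = l * u 0 ^ a := by rw [hl]; group
    have hl0 : l ∈ L₀ := hLL₀ i ha
    have hgl : g * l * g⁻¹ ∈ (seq i).L := (seq i).nor.conj_mem _ ha g
    have hgu : g * u 0 * g⁻¹ ∈ L₀ := hL₀n.conj_mem _ huL₀' g
    have e1 : g * z * g⁻¹ = (g * l * g⁻¹) * (g * u 0 * g⁻¹) ^ a := by
      rw [conj_pow, hzl]; group
    have h0 : χ₀ (g * u 0 * g⁻¹) = χ₀ (u 0) := (hTmem g).1 hg 0 χ₀ hχ₀
    rw [e1, hχ₀.mul _ (hLL₀ i hgl) _ (L₀.pow_mem hgu a), root_pow hχ₀ hgu, h0]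
    conv_rhs => rw [hzl]
    rw [hχ₀.mul _ hl0 _ (L₀.pow_mem huL₀' a), root_pow hχ₀ huL₀']
    have h5 := (hχL i _ hgl).sub (hχL i _ ha)
    have e2 : χ₀ (g * l * g⁻¹) + ↑a * χ₀ (u 0) - (χ₀ l + ↑a * χ₀ (u 0)) =
        χ₀ (g * l * g⁻¹) - χ₀ l := by ring
    rw [e2]
    exact (pow_dvd_pow _ (hMge i)).trans h5
  -- the root
  obtain ⟨w', hw'T, hK⟩ := root_exists hG S L₀ hL₀n hL₀o hL₀R T hTclosed hRT (u 0) (huT 0) huL₀'
    (by
      intro n hn h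
      rw [hu0, ← pow_mul] at h
      exact hw _ (Nat.mul_pos (pow_pos hp0 c) hn) h) χ₀ hχ₀ F5 F6
  -- the level
  have hTL₀o : IsOpen ((T ⊔ L₀ : Subgroup G) : Set G) := Subgroup.isOpen_mono le_sup_right hL₀o
  obtain ⟨i, hi⟩ := root_exists_subset (fun i => (St i : Set G)) hStclosed
    (fun i j hij => hStanti hij) ((T ⊔ L₀ : Subgroup G) : Set G) hTL₀o
    (fun x hx => Subgroup.mem_sup_left ((hTmem x).2 hx))
  have hStT : ∀ g ∈ St i, ∃ a : ℕ, g * (w' ^ a)⁻¹ ∈ (seq i).L := by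
    intro g hg
    have h1 : g ∈ T ⊔ L₀ := hi hg
    rw [Subgroup.mem_sup_of_normal_right] at h1
    obtain ⟨t, ht, l, hl, htl⟩ := h1
    have hlSt : l ∈ St i := by
      have : l = t⁻¹ * g := by rw [← htl]; group
      rw [this]
      exact (St i).mul_mem ((St i).inv_mem ((hTmem t).1 ht i)) hg
    obtain ⟨a, ha⟩ := F4 i l hlSt hl
    obtain ⟨b, hb⟩ := hK (seq i).L (seq i).op (seq i).hR (t * u 0 ^ a)
      (T.mul_mem ht (T.pow_mem (huT 0) a))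
    refine ⟨b, ?_⟩
    have e : g * (w' ^ b)⁻¹ = (t * (l * (u 0 ^ a)⁻¹) * t⁻¹) * (t * u 0 ^ a * (w' ^ b)⁻¹) := by
      rw [← htl]; group
    rw [e]
    exact (seq i).L.mul_mem ((seq i).nor.conj_mem _ ha t) hb
  have hLn := (seq i).nor
  set L := (seq i).L with hLdef
  set χ := (seq i).χ with hχdef
  have hχ : IsZ p S.R L χ := (seq i).isZ
  -- order of `w'` modulo `L`
  obtain ⟨c', hc'⟩ : ∃ c' : ℕ, ∀ a : ℕ, w' ^ a ∈ L ↔ p ^ c' ∣ a := by
    obtain ⟨n, hn⟩ := hG.index_pow L (seq i).op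
    have h1 : orderOf (w' : G ⧸ L) ∣ p ^ n := by
      rw [← hn]
      rw [orderOf_dvd_iff_pow_eq_one, ← QuotientGroup.mk_pow, QuotientGroup.eq_one_iff]
      exact Subgroup.pow_index_mem _ _
    obtain ⟨c', -, hc'⟩ := (Nat.dvd_prime_pow Fact.out).1 h1
    refine ⟨c', fun a => ?_⟩
    rw [← hc', orderOf_dvd_iff_pow_eq_one, ← QuotientGroup.mk_pow, QuotientGroup.eq_one_iff]
  have hvL : w' ^ p ^ c' ∈ L := (hc' _).2 dvd_rfl
  -- `u i` in terms of `w'`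
  have hrep : ∀ n, ∃ b : ℕ, ∃ ν ∈ Kap p S.R L n, u i = ν * (w' ^ p ^ c') ^ b := by
    intro n
    have hNn : (Kap p S.R L n).Normal := Kap_normal hRn hLn n
    have hNL : Kap p S.R L n ≤ L := fun x hx => ((mem_Kap n x).1 hx).1
    obtain ⟨a, ha⟩ := hK (Kap p S.R L n) (Kap_open hG (seq i).op n) (le_Kap (seq i).hR n) w hwT
    have h1 : ((w : G) : G ⧸ Kap p S.R L n) = (w' : G ⧸ Kap p S.R L n) ^ a := by
      rw [← QuotientGroup.mk_pow, eq_comm, QuotientGroup.eq]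
      have := hNn.conj_mem _ ha ((w' ^ a)⁻¹)
      convert this using 1
      group
    set e := p ^ (c + (seq i).M) with he
    have h2 : u i * (w' ^ (a * e))⁻¹ ∈ Kap p S.R L n := by
      rw [← QuotientGroup.eq_one_iff]
      change ((w ^ e * (w' ^ (a * e))⁻¹ : G) : G ⧸ Kap p S.R L n) = 1
      rw [QuotientGroup.mk_mul, QuotientGroup.mk_inv, QuotientGroup.mk_pow, QuotientGroup.mk_pow,
        h1, ← pow_mul, mul_inv_cancel]
    have h3 : w' ^ (a * e) ∈ L := by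
      have h4 := L.mul_mem (L.inv_mem (hNL h2)) (seq i).hu
      have e5 : (u i * (w' ^ (a * e))⁻¹)⁻¹ * w ^ p ^ (c + (seq i).M) = w' ^ (a * e) := by
        simp only [hu]; group
      rwa [e5] at h4
    obtain ⟨b, hb⟩ := (hc' _).1 h3
    refine ⟨b, _, h2, ?_⟩
    rw [hb, pow_mul]
    group
  have hconjv : ∀ g : G, g * w' ^ p ^ c' * g⁻¹ ∈ L := fun g => hLn.conj_mem _ hvL g
  have hval : ∀ (φ : G → ℤ_[p]), IsZ p S.R L φ → ∀ (g ν : G) (b : ℕ), ν ∈ L →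
      φ (g * (ν * (w' ^ p ^ c') ^ b) * g⁻¹) = φ (g * ν * g⁻¹) + b * φ (g * w' ^ p ^ c' * g⁻¹) := by
    intro φ hφ g ν b hν
    have e : g * (ν * (w' ^ p ^ c') ^ b) * g⁻¹ = (g * ν * g⁻¹) * (g * w' ^ p ^ c' * g⁻¹) ^ b := by
      rw [conj_pow]; group
    rw [e, hφ.mul _ (hLn.conj_mem _ hν g) _ (L.pow_mem (hconjv g) b), root_pow hφ (hconjv g)]
  refine ⟨L, w', c', χ, hLn, (seq i).op, (seq i).hR, (seq i).hV, ?_, hc', hχ, ?_, ?_⟩
  · -- closed normal overgroups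
    intro R' hR'n hR'c hRR' n hn
    by_contra hcon
    obtain ⟨N, hNn, hNo, hR'N, hN⟩ := hG.exists_open R' hR'n hR'c _ hcon
    obtain ⟨a, ha⟩ := hK N hNo (hRR'.trans hR'N) w hwT
    apply hN
    have h1 : ((w : G) : G ⧸ N) = (w' : G ⧸ N) ^ a := by
      rw [← QuotientGroup.mk_pow, eq_comm, QuotientGroup.eq]
      have := hNn.conj_mem _ ha ((w' ^ a)⁻¹)
      convert this using 1
      group
    rw [← QuotientGroup.eq_one_iff, QuotientGroup.mk_pow, h1, ← pow_mul, mul_comm, pow_mul,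
      ← QuotientGroup.mk_pow, (QuotientGroup.eq_one_iff _).2 (hR'N hn), one_pow]
  · -- units
    intro g
    obtain ⟨b, ν, hν, hub⟩ := hrep 1
    have hNn : (Kap p S.R L 1).Normal := Kap_normal hRn hLn 1
    have hνL : ν ∈ L := ((mem_Kap 1 ν).1 hν).1
    have h1 := (seq i).unit g
    have h2 : w ^ p ^ (c + (seq i).M) = ν * (w' ^ p ^ c') ^ b := hub
    rw [h2, hval (seq i).χ hχ g ν b hνL, map_add, map_mul] at h1
    have h3 : PadicInt.toZMod ((seq i).χ (g * ν * g⁻¹)) = 0 := by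
      rw [root_toZMod_eq_zero_iff]
      have := ((mem_Kap 1 _).1 (hNn.conj_mem _ hν g)).2 (seq i).χ hχ
      rwa [pow_one] at this
    apply root_isUnit_of_toZMod
    intro h4
    rw [h3] at h1
    change 0 + _ * PadicInt.toZMod (χ (g * w' ^ p ^ c' * g⁻¹)) = 1 at h1
    rw [h4, mul_zero, add_zero] at h1
    exact zero_ne_one h1
  · -- separation
    intro g hg
    apply hStT g
    rw [hStmem]
    intro φ hφ
    rw [← sub_eq_zero]
    apply root_eq_zero_of_forall_dvd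
    intro n
    obtain ⟨b, ν, hν, hub⟩ := hrep n
    have hNn : (Kap p S.R L n).Normal := Kap_normal hRn hLn n
    have hνL : ν ∈ L := ((mem_Kap n ν).1 hν).1
    have h1 := hval φ hφ g ν b hνL
    have h2 := hval φ hφ 1 ν b hνL
    simp only [one_mul, inv_one, mul_one] at h2
    rw [hub, h1, h2, hg φ hφ]
    have e : φ (g * ν * g⁻¹) + ↑b * φ (w' ^ p ^ c') - (φ ν + ↑b * φ (w' ^ p ^ c')) =
        φ (g * ν * g⁻¹) - φ ν := by ring
    rw [e]
    exact (((mem_Kap n _).1 (hNn.conj_mem _ hν g)).2 φ hφ).sub (((mem_Kap n _).1 hν).2 φ hφ)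

end Pool.Agent.RFA
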