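import Pool.Agent.RFA.ChainA
import Pool.Agent.RFA.Tors

set_option autoImplicit false

namespace Pool.Agent.RFA

open Topology Module

variable {p : ℕ} [Fact p.Prime] {G : Type} [Group G] [TopologicalSpace G] [IsTopologicalGroup G]

/-! ### elementary facts on characters -/

omit [IsTopologicalGroup G] in
theorem root_one {R L : Subgroup G} {φ : G → ℤ_[p]} (h : IsZ p R L φ) : φ 1 = 0 := by
  have := h.mul 1 L.one_mem 1 L.one_mem
  rw [mul_one] at this
  exact left_eq_add.1 this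

omit [IsTopologicalGroup G] in
theorem root_inv {R L : Subgroup G} {φ : G → ℤ_[p]} (h : IsZ p R L φ) {x : G} (hx : x ∈ L) :
    φ x⁻¹ = - φ x := by
  have := h.mul x hx x⁻¹ (L.inv_mem hx)
  rw [mul_inv_cancel, root_one h] at this
  exact (neg_eq_of_add_eq_zero_right this.symm).symm

omit [IsTopologicalGroup G] in
theorem root_pow {R L : Subgroup G} {φ : G → ℤ_[p]} (h : IsZ p R L φ) {x : G} (hx : x ∈ L)
    (n : ℕ) : φ (x ^ n) = n * φ x := by
  induction n with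
  | zero => simp [root_one h]
  | succ n ih =>
    rw [pow_succ, h.mul _ (L.pow_mem hx n) _ hx, ih]; push_cast; ring

omit [IsTopologicalGroup G] in
theorem root_mono {R L L' : Subgroup G} {φ : G → ℤ_[p]} (h : IsZ p R L φ) (hle : L' ≤ L) :
    IsZ p R L' φ :=
  ⟨h.cont.mono hle, fun x hx y hy => h.mul x (hle hx) y (hle hy), h.rel⟩

theorem root_toZMod_eq_zero_iff (x : ℤ_[p]) : PadicInt.toZMod x = 0 ↔ (p : ℤ_[p]) ∣ x := by
  rw [← RingHom.mem_ker, PadicInt.ker_toZMod, PadicInt.maximalIdeal_eq_span_p,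
    Ideal.mem_span_singleton]

theorem root_isUnit_of_toZMod {x : ℤ_[p]} (h : PadicInt.toZMod x ≠ 0) : IsUnit x := by
  by_contra hx
  apply h
  rw [← RingHom.mem_ker, PadicInt.ker_toZMod]
  exact (IsLocalRing.mem_maximalIdeal x).2 hx

theorem root_eq_zero_of_forall_dvd {x : ℤ_[p]} (h : ∀ n : ℕ, (p : ℤ_[p]) ^ n ∣ x) : x = 0 := by
  by_contra hx
  have h1 := h (x.valuation + 1)
  rw [← Ideal.mem_span_singleton, PadicInt.mem_span_pow_iff_le_valuation x hx] at h1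
  omega

/-! ### compactness -/

omit [Group G] [IsTopologicalGroup G] in
/-- a decreasing sequence of closed sets with intersection in an open set -/
theorem root_exists_subset [CompactSpace G] (C : ℕ → Set G) (hC : ∀ i, IsClosed (C i))
    (hanti : Antitone C) (U : Set G) (hU : IsOpen U) (h : ∀ x, (∀ i, x ∈ C i) → x ∈ U) :
    ∃ i, C i ⊆ U := by
  by_contra hcon
  push Not at hcon
  have hne : (⋂ i, C i ∩ Uᶜ).Nonempty := by
    apply IsCompact.nonempty_iInter_of_directed_nonempty_isCompact_isClosed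
    · intro i j
      refine ⟨max i j, ?_, ?_⟩
      · exact Set.inter_subset_inter_left _ (hanti (le_max_left _ _))
      · exact Set.inter_subset_inter_left _ (hanti (le_max_right _ _))
    · intro i
      obtain ⟨x, hx, hxU⟩ := Set.not_subset.1 (hcon i)
      exact ⟨x, hx, hxU⟩
    · intro i
      exact ((hC i).inter hU.isClosed_compl).isCompact
    · intro i
      exact (hC i).inter hU.isClosed_compl
  obtain ⟨x, hx⟩ := hne
  rw [Set.mem_iInter] at hx
  exact (hx 0).2 (h x fun i => (hx i).1)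

/-- a chain `L (i+1) = Kap (L i) (m i)` with `m i` above the detection thresholds has
intersection `R` -/
theorem chain_inter' {δ : ℕ} (hG : ProFree p δ G) (S : Stage p δ G) (L : ℕ → Subgroup G)
    (m : ℕ → ℕ) (h0 : (L 0).Normal) (h0o : IsOpen (L 0 : Set G)) (h0R : S.R ≤ L 0)
    (h0V : L 0 ≤ S.V) (hm : ∀ i, 1 ≤ m i) (hL : ∀ i, L (i + 1) = Kap p S.R (L i) (m i))
    (hdet : ∀ i, ∀ y : ↥(L i), (y : G) ∈ L (i + 1) → (∃ f ∈ HomR p S.R (L i), f y ≠ 0) →
      ∃ φ, IsZ p S.R (L (i + 1)) φ ∧ ¬ (p : ℤ_[p]) ∣ φ y) (x : G) (hx : ∀ i, x ∈ L i) :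
    x ∈ S.R := by
  have := hG.compact
  have := hG.t2
  have hRn : S.R.Normal := Rel.normal S.r S.e
  have hRc : IsClosed (S.R : Set G) := Rel.closed S.r S.e
  have hinv : ∀ i, (L i).Normal ∧ IsOpen (L i : Set G) ∧ S.R ≤ L i := by
    intro i
    induction i with
    | zero => exact ⟨h0, h0o, h0R⟩
    | succ i ih =>
      rw [hL i]
      exact ⟨Kap_normal hRn ih.1 _, Kap_open hG ih.2.1 _, le_Kap ih.2.2 _⟩
  have hstep : ∀ i, L (i + 1) ≤ L i := by
    intro i y hy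
    rw [hL i, mem_Kap] at hy
    exact hy.1
  have hanti : Antitone L := antitone_nat_of_succ_le hstep
  by_contra hxR
  obtain ⟨N, hNn, hNo, hRN, hxN⟩ := hG.exists_open S.R hRn hRc x hxR
  -- the closed normal subgroup `T`
  set T : Subgroup G := ⨅ i, L i with hT
  have hTmem : ∀ y, y ∈ T ↔ ∀ i, y ∈ L i := fun y => by rw [hT, Subgroup.mem_iInf]
  set TN : Subgroup G := T ⊔ N with hTN
  have hTNo : IsOpen (TN : Set G) := Subgroup.isOpen_mono le_sup_right hNo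
  have hsub := hG.sub TN hTNo
  have hne : N.subgroupOf TN ≠ ⊤ := by
    intro h
    rw [Subgroup.subgroupOf_eq_top] at h
    exact hxN (h (Subgroup.mem_sup_left ((hTmem x).2 hx)))
  have hNo' : IsOpen ((N.subgroupOf TN : Subgroup ↥TN) : Set ↥TN) :=
    hNo.preimage continuous_subtype_val
  obtain ⟨f, hf, hf0, hfN⟩ := hsub.exists_hom (N.subgroupOf TN) hNo' hne
  -- `f` is nonzero on some `y ∈ T`
  obtain ⟨y, hyT, hfy⟩ : ∃ y : G, ∃ hy : y ∈ T, f ⟨y, Subgroup.mem_sup_left hy⟩ ≠ 0 := by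
    by_contra hcon
    push Not at hcon
    apply hf0
    funext z
    have hz : (z : G) ∈ T ⊔ N := z.2
    have := hNn
    rw [Subgroup.mem_sup_of_normal_right] at hz
    obtain ⟨t, ht, n, hn, htn⟩ := hz
    have e : z = (⟨t, Subgroup.mem_sup_left ht⟩ : ↥TN) * ⟨n, Subgroup.mem_sup_right hn⟩ :=
      Subtype.ext htn.symm
    rw [e, hf.2, hcon t ht, hfN _ (Subgroup.mem_subgroupOf.2 hn)]
    simp
  -- some `L i ≤ TN`
  obtain ⟨i, hi⟩ := root_exists_subset (fun i => (L i : Set G))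
    (fun i => Subgroup.isClosed_of_isOpen _ (hinv i).2.1) (fun i j hij => hanti hij)
    (TN : Set G) hTNo (fun z hz => Subgroup.mem_sup_left ((hTmem z).2 hz))
  have hiTN : L i ≤ TN := hi
  have hyi : y ∈ L i := (hTmem y).1 hyT i
  obtain ⟨φ, hφ, hφy⟩ := hdet i ⟨y, hyi⟩ ((hTmem y).1 hyT (i + 1)) ⟨fun z => f ⟨z, hiTN z.2⟩,
    ⟨⟨hf.1.comp_continuous (Continuous.subtype_mk continuous_subtype_val _),
      fun a b => hf.2 ⟨a, hiTN a.2⟩ ⟨b, hiTN b.2⟩⟩,
      fun z hz => hfN _ (Subgroup.mem_subgroupOf.2 (hRN hz))⟩, hfy⟩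
  apply hφy
  have h2 : y ∈ L (i + 1 + 1) := (hTmem y).1 hyT _
  rw [hL (i + 1), mem_Kap] at h2
  exact (dvd_pow_self (p : ℤ_[p]) (Nat.one_le_iff_ne_zero.1 (hm (i + 1)))).trans (h2.2 φ hφ)

/-! ### root extraction -/

theorem root_dvd_of_val {x y : ℤ_[p]} (hx : x ≠ 0) (hy : y ≠ 0)
    (h : x.valuation ≤ y.valuation) : x ∣ y := by
  have h1 : (p : ℤ_[p]) ^ x.valuation ∣ y := by
    rw [← Ideal.mem_span_singleton, PadicInt.mem_span_pow_iff_le_valuation y hy]
    exact h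
  obtain ⟨u, hu⟩ : ∃ u : ℤ_[p]ˣ, x = u * (p : ℤ_[p]) ^ x.valuation :=
    ⟨_, PadicInt.unitCoeff_spec hx⟩
  rw [hu, u.isUnit.mul_left_dvd]
  exact h1

theorem root_isClosed_dvd (n : ℕ) : IsClosed {x : ℤ_[p] | (p : ℤ_[p]) ^ n ∣ x} := by
  have : {x : ℤ_[p] | (p : ℤ_[p]) ^ n ∣ x} = {x | ‖x‖ ≤ (p : ℝ) ^ (-n : ℤ)} := by
    ext x
    rw [Set.mem_ofPred_eq, Set.mem_ofPred_eq, PadicInt.norm_le_pow_iff_mem_span_pow,
      Ideal.mem_span_singleton]
  rw [this]
  exact isClosed_le continuous_norm continuous_const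

/-- torsion freeness of `T / R` -/
theorem root_torsfree {δ : ℕ} (hG : ProFree p δ G) (S : Stage p δ G) (T : Subgroup G)
    (u : G) (hun : ∀ n : ℕ, 0 < n → u ^ n ∉ S.R)
    (hcomm : ∀ g ∈ T, g * u * g⁻¹ * u⁻¹ ∈ S.R) (x : G) (hx : x ∈ T) (n : ℕ) (hn : 0 < n)
    (hxn : x ^ n ∈ S.R) : x ∈ S.R := by
  obtain ⟨k, hk⟩ := tors_pow hG S x n hn hxn
  clear hxn hn n
  induction k with
  | zero => simpa using hk
  | succ k ih =>
    apply ih
    by_contra hy
    obtain ⟨n, hn, hun'⟩ := cent_finite hG S (x ^ p ^ k) u hy (by rwa [← pow_mul, ← pow_succ])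
      (hcomm _ (T.pow_mem hx _))
    exact hun n hn hun'

/-- in a group with a central subgroup `Z` of finite index, some power map is a homomorphism -/
theorem root_transfer {Q : Type*} [Group Q] (Z : Subgroup Q) [Z.FiniteIndex]
    (hZ : Z ≤ Subgroup.center Q) (t : ℕ) :
    ∃ q : ℕ, 0 < q ∧ ∀ a b : Q, (a * b) ^ (q * t) = a ^ (q * t) * b ^ (q * t) := by
  have : (Subgroup.center Q).FiniteIndex := Subgroup.finiteIndex_of_le hZ
  refine ⟨(Subgroup.center Q).index, Nat.pos_of_ne_zero Subgroup.FiniteIndex.index_ne_zero, ?_⟩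
  intro a b
  have h1 := (MonoidHom.transferCenterPow Q).map_mul a b
  have h2 : (a * b) ^ (Subgroup.center Q).index =
      a ^ (Subgroup.center Q).index * b ^ (Subgroup.center Q).index :=
    congrArg Subtype.val h1
  rw [pow_mul, h2, Commute.mul_pow, ← pow_mul, ← pow_mul]
  have h3 : a ^ (Subgroup.center Q).index ∈ Subgroup.center Q := Subgroup.pow_index_mem _ _
  exact (Subgroup.mem_center_iff.1 h3 _).symm

/-- the root -/
theorem root_exists {δ : ℕ} (hG : ProFree p δ G) (S : Stage p δ G) (L₀ : Subgroup G)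
    (hL₀ : L₀.Normal) (hL₀o : IsOpen (L₀ : Set G)) (hR : S.R ≤ L₀) (T : Subgroup G)
    (hTc : IsClosed (T : Set G)) (hRT : S.R ≤ T) (u : G) (huT : u ∈ T) (hu0 : u ∈ L₀)
    (hun : ∀ n : ℕ, 0 < n → u ^ n ∉ S.R) (χ : G → ℤ_[p]) (hχ : IsZ p S.R L₀ χ)
    (F5 : ∀ z ∈ T, z ∈ L₀ → χ z = 0 → z ∈ S.R)
    (F6 : ∀ g ∈ T, ∀ z ∈ T, z ∈ L₀ → χ (g * z * g⁻¹) = χ z) :
    ∃ w' ∈ T, ∀ N : Subgroup G, IsOpen (N : Set G) → S.R ≤ N → ∀ s ∈ T,
      ∃ a : ℕ, s * (w' ^ a)⁻¹ ∈ N := by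
  have := hG.compact
  have hRn : S.R.Normal := Rel.normal S.r S.e
  have hfin : L₀.FiniteIndex := hG.finiteIndex L₀ hL₀o
  -- commutators
  have hcomm : ∀ g ∈ T, ∀ z ∈ T, z ∈ L₀ → g * z * g⁻¹ * z⁻¹ ∈ S.R := by
    intro g hg z hz hz0
    have h1 : g * z * g⁻¹ ∈ L₀ := hL₀.conj_mem z hz0 g
    apply F5 _ (T.mul_mem (T.mul_mem (T.mul_mem hg hz) (T.inv_mem hg)) (T.inv_mem hz))
      (L₀.mul_mem h1 (L₀.inv_mem hz0))
    rw [hχ.mul _ h1 _ (L₀.inv_mem hz0), root_inv hχ hz0, F6 g hg z hz hz0, add_neg_cancel]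
  -- transfer
  have hnR : (S.R.subgroupOf T).Normal := inferInstance
  let Q := ↥T ⧸ S.R.subgroupOf T
  let π : ↥T →* Q := QuotientGroup.mk' (S.R.subgroupOf T)
  have hπ : Function.Surjective π := QuotientGroup.mk'_surjective _
  let Z : Subgroup Q := (L₀.subgroupOf T).map π
  have hZfin : Z.FiniteIndex := by
    constructor
    intro h0
    have h1 := (L₀.subgroupOf T).index_map_dvd hπ
    have h2 : (L₀.subgroupOf T).index ≠ 0 := Subgroup.FiniteIndex.index_ne_zero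
    have h3 : (Subgroup.map π (L₀.subgroupOf T)).index = 0 := h0
    rw [h3] at h1
    exact h2 (Nat.eq_zero_of_zero_dvd h1)
  have hZc : Z ≤ Subgroup.center Q := by
    rintro _ ⟨z, hz, rfl⟩
    rw [Subgroup.mem_center_iff]
    intro g
    obtain ⟨g, rfl⟩ := hπ g
    rw [← map_mul, ← map_mul]
    refine (QuotientGroup.eq.2 ?_)
    rw [Subgroup.mem_subgroupOf]
    -- `(g z)⁻¹ (z g)`
    have h1 := hcomm (g : G)⁻¹ (T.inv_mem g.2) z z.2 (Subgroup.mem_subgroupOf.1 hz)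
    have h2 := hRn.conj_mem _ h1 ((z : G)⁻¹)
    convert h2 using 1
    push_cast
    group
  obtain ⟨q, hq, hpow⟩ := root_transfer Z hZc L₀.index
  set M := q * L₀.index with hM
  have hM0 : 0 < M := Nat.mul_pos hq (Nat.pos_of_ne_zero hfin.index_ne_zero)
  have hML : ∀ g : G, g ^ M ∈ L₀ := by
    intro g
    rw [hM, pow_mul]
    exact Subgroup.pow_index_mem _ _
  set τ : G → ℤ_[p] := fun g => χ (g ^ M) with hτ
  have hτmul : ∀ a ∈ T, ∀ b ∈ T, τ (a * b) = τ a + τ b := by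
    intro a ha b hb
    have h1 := hpow (π ⟨a, ha⟩) (π ⟨b, hb⟩)
    rw [← map_mul, ← map_pow, ← map_pow, ← map_pow, ← map_mul] at h1
    have h2 := QuotientGroup.eq.1 h1.symm
    rw [Subgroup.mem_subgroupOf] at h2
    push_cast at h2
    have h3 : (a * b) ^ M = (a ^ M * b ^ M) * ((a ^ M * b ^ M)⁻¹ * (a * b) ^ M) := by group
    simp only [hτ]
    rw [h3, hχ.mul _ (L₀.mul_mem (hML a) (hML b)) _ (hR h2), hχ.rel _ h2, add_zero,
      hχ.mul _ (hML a) _ (hML b)]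
  have hτ1 : τ 1 = 0 := by
    have := hτmul 1 T.one_mem 1 T.one_mem
    rw [mul_one] at this
    exact left_eq_add.1 this
  have hτinv : ∀ a ∈ T, τ a⁻¹ = - τ a := by
    intro a ha
    have := hτmul a ha a⁻¹ (T.inv_mem ha)
    rw [mul_inv_cancel, hτ1] at this
    exact (neg_eq_of_add_eq_zero_right this.symm).symm
  have hτpow : ∀ a ∈ T, ∀ n : ℕ, τ (a ^ n) = n * τ a := by
    intro a ha n
    induction n with
    | zero => simp [hτ1]
    | succ n ih =>
      rw [pow_succ, hτmul _ (T.pow_mem ha n) _ ha, ih]; push_cast; ring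
  have hτcont : ContinuousOn τ (T : Set G) := by
    apply ContinuousOn.comp hχ.cont (continuous_pow M).continuousOn
    intro g _
    exact hML g
  have hτinj : ∀ g ∈ T, τ g = 0 → g ∈ S.R := by
    intro g hg h
    apply root_torsfree hG S T u hun (fun g hg => hcomm g hg u huT hu0) g hg M hM0
    exact F5 _ (T.pow_mem hg _) (hML g) h
  have hτu : τ u ≠ 0 := by
    intro h
    have h1 := hτinj u huT h
    exact hun 1 one_pos (by simpa using h1)
  -- choose `w'`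
  have hex : ∃ n : ℕ, ∃ g ∈ T, τ g ≠ 0 ∧ (τ g).valuation = n := ⟨_, u, huT, hτu, rfl⟩
  classical
  obtain ⟨w', hw'T, hw'0, hw'v⟩ := Nat.find_spec hex
  have hdvd : ∀ g ∈ T, τ w' ∣ τ g := by
    intro g hg
    by_cases h0 : τ g = 0
    · rw [h0]; exact dvd_zero _
    · apply root_dvd_of_val hw'0 h0
      rw [hw'v]
      exact Nat.find_min' hex ⟨g, hg, h0, rfl⟩
  refine ⟨w', hw'T, ?_⟩
  intro N hNo hRN s hs
  obtain ⟨n, hn⟩ := root_exists_subset (fun n => (T : Set G) ∩ {y | (p : ℤ_[p]) ^ n ∣ τ y})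
    (fun n => hτcont.preimage_isClosed_of_isClosed hTc (root_isClosed_dvd n))
    (by
      intro i j hij x hx
      exact ⟨hx.1, (pow_dvd_pow _ hij).trans hx.2⟩)
    (N : Set G) hNo (by
      intro x hx
      exact hRN (hτinj x (hx 0).1 (root_eq_zero_of_forall_dvd fun n => (hx n).2)))
  obtain ⟨b, hb⟩ := hdvd s hs
  refine ⟨b.appr n, hn ⟨T.mul_mem hs (T.inv_mem (T.pow_mem hw'T _)), ?_⟩⟩
  rw [Set.mem_ofPred_eq, hτmul _ hs _ (T.inv_mem (T.pow_mem hw'T _)),
    hτinv _ (T.pow_mem hw'T _), hτpow _ hw'T, hb]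
  have h5 := b.appr_spec n
  rw [Ideal.mem_span_singleton] at h5
  have h6 : τ w' * b + -((b.appr n : ℤ_[p]) * τ w') = (b - (b.appr n : ℤ_[p])) * τ w' := by ring
  rw [h6]
  exact h5.mul_right _

end Pool.Agent.RFA
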