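import Pool.Agent.RFA.Defs

set_option autoImplicit false

namespace Pool.Agent.RFA

open Topology Module

variable {p : ℕ} [Fact p.Prime] {G : Type} [Group G] [TopologicalSpace G] [IsTopologicalGroup G]

theorem H2zero.congr {G G' : Type} [Group G] [TopologicalSpace G] [Group G'] [TopologicalSpace G']
    (φ : G ≃* G') (h1 : Continuous φ) (h2 : Continuous φ.symm) (h : H2zero p G) : H2zero p G' := by
  intro M _ _ a hM ha c hc hcoc
  obtain ⟨u, hu, hu'⟩ := h M (a.comp φ.toMonoidHom) hM (ha.comp_continuous h1)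
    (fun x y => c (φ x) (φ y))
    (hc.comp_continuous (f := fun x : G × G => (φ x.1, φ x.2))
      ((h1.comp continuous_fst).prodMk (h1.comp continuous_snd)))
    (fun x y z => by simpa using hcoc (φ x) (φ y) (φ z))
  refine ⟨fun x => u (φ.symm x), hu.comp_continuous h2, fun x y => ?_⟩
  have := hu' (φ.symm x) (φ.symm y)
  simpa using this

omit [TopologicalSpace G] [IsTopologicalGroup G] in
theorem index_map_subtype (V : Subgroup G) (J : Subgroup ↥V) :
    (J.map V.subtype).index = V.index * J.index := by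
  rw [Subgroup.index_map_subtype, mul_comm]

omit [TopologicalSpace G] [IsTopologicalGroup G] in
theorem Sub_mem (V : Subgroup G) (J : Subgroup ↥V) {x : G} (hx : x ∈ J.map V.subtype) :
    ∃ h : x ∈ V, (⟨x, h⟩ : ↥V) ∈ J := by
  obtain ⟨y, hy, rfl⟩ := hx
  exact ⟨y.2, by simpa using hy⟩

/-- `J ≃ J.map V.subtype` -/
def SubIso (V : Subgroup G) (J : Subgroup ↥V) : ↥J ≃* ↥(J.map V.subtype) where
  toFun x := ⟨((x : ↥V) : G), ⟨x, x.2, rfl⟩⟩
  invFun y := ⟨⟨y, (Sub_mem V J y.2).choose⟩, (Sub_mem V J y.2).choose_spec⟩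
  left_inv x := rfl
  right_inv y := rfl
  map_mul' x y := rfl

omit [IsTopologicalGroup G] in
theorem SubIso_cont (V : Subgroup G) (J : Subgroup ↥V) : Continuous (SubIso V J) :=
  Continuous.subtype_mk (continuous_subtype_val.comp continuous_subtype_val) _

omit [IsTopologicalGroup G] in
theorem SubIso_symm_cont (V : Subgroup G) (J : Subgroup ↥V) : Continuous (SubIso V J).symm :=
  Continuous.subtype_mk (Continuous.subtype_mk continuous_subtype_val _) _

/-- transport of `Hom1` -/
def SubHom1Congr {G G' : Type} [Group G] [TopologicalSpace G] [Group G'] [TopologicalSpace G']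
    (φ : G ≃* G') (h1 : Continuous φ) (h2 : Continuous φ.symm) :
    Hom1 p G ≃ₗ[ZMod p] Hom1 p G' where
  toFun f := ⟨fun x => (f : G → ZMod p) (φ.symm x), f.2.1.comp_continuous h2,
    fun x y => by simpa using f.2.2 (φ.symm x) (φ.symm y)⟩
  invFun f := ⟨fun x => (f : G' → ZMod p) (φ x), f.2.1.comp_continuous h1,
    fun x y => by simpa using f.2.2 (φ x) (φ y)⟩
  map_add' f g := rfl
  map_smul' c f := rfl
  left_inv f := by ext x; simp
  right_inv f := by ext x; simp

theorem Sub_isOpen_map (V : Subgroup G) (hV : IsOpen (V : Set G)) (J : Subgroup ↥V)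
    (hJ : IsOpen (J : Set ↥V)) : IsOpen ((J.map V.subtype : Subgroup G) : Set G) := by
  have := (hV.isOpenEmbedding_subtypeVal).isOpenMap _ hJ
  rw [Subgroup.coe_map]
  exact this

/-- an open subgroup of a projective pro-`p` group is one -/
theorem ProFree.sub {δ : ℕ} (hG : ProFree p δ G) (V : Subgroup G) (hV : IsOpen (V : Set G)) :
    ProFree p (δ * V.index) ↥V := by
  haveI := hG.compact
  haveI := hG.t2
  refine ⟨?_, inferInstance, ?_, ?_, ?_, ?_⟩
  · exact isCompact_iff_compactSpace.1 (V.isClosed_of_isOpen hV).isCompact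
  · intro U hU
    rw [nhds_subtype_eq_comap] at hU
    obtain ⟨U', hU', hsub⟩ := Filter.mem_comap.1 hU
    obtain ⟨N, hN, hNo, hNU, n, hn⟩ := hG.basis U' (by simpa using hU')
    refine ⟨N.subgroupOf V, inferInstance, ?_, ?_, ?_⟩
    · exact hNo.preimage continuous_subtype_val
    · intro x hx
      exact hsub (hNU (Subgroup.mem_subgroupOf.1 hx))
    · have hd : (N.subgroupOf V).index ∣ p ^ n := by
        rw [← hn]
        exact N.relIndex_dvd_index_of_normal V
      obtain ⟨k, -, hk⟩ := (Nat.dvd_prime_pow (Fact.out : p.Prime)).1 hd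
      exact ⟨k, hk⟩
  · intro J hJ
    exact H2zero.congr (SubIso V J).symm (SubIso_symm_cont V J) (SubIso_cont V J)
      (hG.h2 _ (Sub_isOpen_map V hV J hJ))
  · intro J hJ
    haveI := hG.fin _ (Sub_isOpen_map V hV J hJ)
    exact Module.Finite.equiv
      (SubHom1Congr (p := p) (SubIso V J).symm (SubIso_symm_cont V J) (SubIso_cont V J))
  · intro J hJ
    rw [(SubHom1Congr (p := p) (SubIso V J) (SubIso_cont V J) (SubIso_symm_cont V J)).finrank_eq,
      hG.rank _ (Sub_isOpen_map V hV J hJ), index_map_subtype, mul_assoc]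

omit [IsTopologicalGroup G] in
theorem Sub_top_cont : Continuous (Subgroup.topEquiv (G := G)) :=
  continuous_subtype_val

omit [IsTopologicalGroup G] in
theorem Sub_top_symm_cont : Continuous (Subgroup.topEquiv (G := G)).symm :=
  Continuous.subtype_mk continuous_id _

theorem ProFree.h2top {δ : ℕ} (hG : ProFree p δ G) : H2zero p G :=
  H2zero.congr Subgroup.topEquiv Sub_top_cont Sub_top_symm_cont (hG.h2 ⊤ isOpen_univ)

theorem ProFree.finG {δ : ℕ} (hG : ProFree p δ G) : Module.Finite (ZMod p) (Hom1 p G) := by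
  haveI := hG.fin ⊤ isOpen_univ
  exact Module.Finite.equiv
    (SubHom1Congr (p := p) (Subgroup.topEquiv (G := G)) Sub_top_cont Sub_top_symm_cont)

theorem ProFree.rankG {δ : ℕ} (hG : ProFree p δ G) :
    finrank (ZMod p) (Hom1 p G) = 1 + δ := by
  rw [← (SubHom1Congr (p := p) (Subgroup.topEquiv (G := G)) Sub_top_cont
    Sub_top_symm_cont).finrank_eq, hG.rank ⊤ isOpen_univ, Subgroup.index_top, mul_one]

theorem ProFree.finiteIndex {δ : ℕ} (hG : ProFree p δ G) (V : Subgroup G)
    (hV : IsOpen (V : Set G)) : V.FiniteIndex := by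
  haveI := hG.compact
  haveI := V.quotient_finite_of_isOpen hV
  exact Subgroup.finiteIndex_of_finite_quotient

/-- the index of an open subgroup is a power of `p` -/
theorem ProFree.index_pow {δ : ℕ} (hG : ProFree p δ G) (V : Subgroup G)
    (hV : IsOpen (V : Set G)) : ∃ n, V.index = p ^ n := by
  obtain ⟨N, hN, hNo, hNV, n, hn⟩ := hG.basis (V : Set G) (hV.mem_nhds V.one_mem)
  have hd : V.index ∣ p ^ n := by
    rw [← hn]
    exact Subgroup.index_dvd_of_le hNV
  obtain ⟨k, -, hk⟩ := (Nat.dvd_prime_pow (Fact.out : p.Prime)).1 hd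
  exact ⟨k, hk⟩

/-- a proper subgroup of a finite `p`-group is in the kernel of a nonzero hom to `ZMod p` -/
theorem Sub_exists_hom {P : Type} [Group P] [Finite P] (hP : IsPGroup p P) (H : Subgroup P)
    (hH : H ≠ ⊤) : ∃ f : P → ZMod p, (∀ x y, f (x * y) = f x + f y) ∧ f ≠ 0 ∧
      ∀ x ∈ H, f x = 0 := by
  obtain h | ⟨M, hM, hHM⟩ := eq_top_or_exists_le_coatom H
  · exact absurd h hH
  haveI := hP.isNilpotent
  haveI hMn : M.Normal :=
    Subgroup.NormalizerCondition.normal_of_coatom M Group.normalizerCondition_of_isNilpotent hM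
  have hQ : IsPGroup p (P ⧸ M) := hP.to_quotient M
  -- every element outside `M` generates the quotient
  have hgen : ∀ q : P ⧸ M, q ≠ 1 → Subgroup.zpowers q = ⊤ := by
    intro q hq
    have h1 : M ≤ (Subgroup.zpowers q).comap (QuotientGroup.mk' M) := by
      intro x hx
      rw [Subgroup.mem_comap]
      have : QuotientGroup.mk' M x = 1 := (QuotientGroup.eq_one_iff x).2 hx
      rw [this]
      exact Subgroup.one_mem _
    have h2 : M ≠ (Subgroup.zpowers q).comap (QuotientGroup.mk' M) := by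
      intro h
      obtain ⟨y, rfl⟩ := QuotientGroup.mk'_surjective M q
      have : y ∈ (Subgroup.zpowers (QuotientGroup.mk' M y)).comap (QuotientGroup.mk' M) :=
        Subgroup.mem_zpowers _
      rw [← h] at this
      exact hq ((QuotientGroup.eq_one_iff y).2 this)
    have h3 := hM.2 _ (lt_of_le_of_ne h1 h2)
    rw [eq_top_iff]
    intro z _
    obtain ⟨y, rfl⟩ := QuotientGroup.mk'_surjective M z
    have : y ∈ (Subgroup.zpowers q).comap (QuotientGroup.mk' M) := by rw [h3]; trivial
    exact this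
  obtain ⟨q, hq⟩ : ∃ q : P ⧸ M, q ≠ 1 := by
    by_contra hcon
    push Not at hcon
    apply hM.1
    rw [eq_top_iff]
    intro x _
    exact (QuotientGroup.eq_one_iff x).1 (hcon x)
  have hpow : q ^ p = 1 := by
    by_contra hne
    have h1 := hgen _ hne
    have h2 := hgen _ hq
    have h3 : orderOf (q ^ p) = orderOf q := by
      rw [← Nat.card_zpowers, ← Nat.card_zpowers, h1, h2]
    have h4 : p ∣ orderOf q := by
      obtain ⟨k, hk⟩ := hQ.exists_card_eq
      have h5 : orderOf q ∣ p ^ k := hk ▸ orderOf_dvd_natCard q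
      obtain ⟨j, -, hj⟩ := (Nat.dvd_prime_pow (Fact.out : p.Prime)).1 h5
      rw [hj]
      apply dvd_pow_self
      rintro rfl
      rw [pow_zero, orderOf_eq_one_iff] at hj
      exact hq hj
    rw [orderOf_pow, Nat.gcd_eq_right h4] at h3
    have h6 : 0 < orderOf q := orderOf_pos q
    have h7 := Nat.div_lt_self h6 (Fact.out : p.Prime).one_lt
    omega
  have hcard : Nat.card (P ⧸ M) = p := by
    have h1 : orderOf q = p := orderOf_eq_prime hpow hq
    rw [← h1, ← Nat.card_zpowers, hgen q hq, Subgroup.card_top]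
  have hcard' : Nat.card (Multiplicative (ZMod p)) = p := by simp
  let e : P ⧸ M ≃* Multiplicative (ZMod p) := mulEquivOfPrimeCardEq hcard hcard'
  refine ⟨fun x => (e (x : P ⧸ M)).toAdd, fun x y => ?_, fun h => ?_, fun x hx => ?_⟩
  · show (e ((x * y : P) : P ⧸ M)).toAdd = _
    rw [QuotientGroup.mk_mul, map_mul, toAdd_mul]
  · obtain ⟨y, rfl⟩ := QuotientGroup.mk'_surjective M q
    have h1 := congrFun h y
    have h2 : e (y : P ⧸ M) = 1 := by
      apply Multiplicative.toAdd.injective
      simpa using h1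
    exact hq ((map_eq_one_iff e e.injective).1 h2)
  · have : (x : P ⧸ M) = 1 := (QuotientGroup.eq_one_iff x).2 (hHM hx)
    simp [this]

/-- a proper open subgroup lies in the kernel of a nonzero homomorphism to `ZMod p` -/
theorem ProFree.exists_hom {δ : ℕ} (hG : ProFree p δ G) (V : Subgroup G)
    (hV : IsOpen (V : Set G)) (hne : V ≠ ⊤) : ∃ f ∈ Hom1 p G, f ≠ 0 ∧ ∀ x ∈ V, f x = 0 := by
  obtain ⟨N, hN, hNo, hNV, n, hn⟩ := hG.basis (V : Set G) (hV.mem_nhds V.one_mem)
  haveI := hG.finiteIndex N hNo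
  have hP : IsPGroup p (G ⧸ N) := IsPGroup.of_card hn
  have hne' : V.map (QuotientGroup.mk' N) ≠ ⊤ := by
    intro h
    apply hne
    rw [eq_top_iff]
    intro x _
    have hx : QuotientGroup.mk' N x ∈ V.map (QuotientGroup.mk' N) := by rw [h]; trivial
    obtain ⟨y, hy, hxy⟩ := hx
    have : y⁻¹ * x ∈ N := QuotientGroup.eq.1 hxy
    have h2 := V.mul_mem hy (hNV this)
    simpa using h2
  obtain ⟨f, hf, hf0, hfV⟩ := Sub_exists_hom hP _ hne'
  refine ⟨fun x => f (x : G ⧸ N), ⟨?_, fun x y => ?_⟩, fun h => hf0 ?_, fun x hx => ?_⟩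
  · have : IsLocallyConstant (fun x : G => (x : G ⧸ N)) := by
      haveI : DiscreteTopology (G ⧸ N) := QuotientGroup.discreteTopology hNo
      exact IsLocallyConstant.iff_continuous _ |>.2 QuotientGroup.continuous_mk
    exact this.comp f
  · show f ((x * y : G) : G ⧸ N) = _
    rw [QuotientGroup.mk_mul, hf]
  · funext q
    obtain ⟨y, rfl⟩ := QuotientGroup.mk'_surjective N q
    exact congrFun h y
  · exact hfV _ ⟨x, hx, rfl⟩

/-- a closed normal subgroup is the intersection of the open normal subgroups containing it -/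
theorem ProFree.exists_open {δ : ℕ} (hG : ProFree p δ G) (R : Subgroup G) (hR : R.Normal)
    (hRc : IsClosed (R : Set G)) (x : G) (hx : x ∉ R) :
    ∃ N : Subgroup G, N.Normal ∧ IsOpen (N : Set G) ∧ R ≤ N ∧ x ∉ N := by
  have hU : {u : G | x * u ∉ R} ∈ 𝓝 (1 : G) := by
    have h1 : IsOpen {u : G | x * u ∉ R} :=
      (hRc.isOpen_compl).preimage (continuous_const.mul continuous_id)
    exact h1.mem_nhds (by simpa using hx)
  obtain ⟨N, hN, hNo, hNU, -, -⟩ := hG.basis _ hU
  refine ⟨R ⊔ N, inferInstance, Subgroup.isOpen_mono le_sup_right hNo, le_sup_left, fun h => ?_⟩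
  rw [Subgroup.mem_sup_of_normal_right] at h
  obtain ⟨r, hr, y, hy, rfl⟩ := h
  have := hNU (N.inv_mem hy)
  simp at this
  exact this hr

theorem finrank_Hom1_sub (V : Subgroup G) (J : Subgroup ↥V) :
    finrank (ZMod p) (Hom1 p ↥J) = finrank (ZMod p) (Hom1 p ↥(J.map V.subtype)) :=
  (SubHom1Congr (p := p) (SubIso V J) (SubIso_cont V J) (SubIso_symm_cont V J)).finrank_eq

theorem finrank_HomR_sub (R V : Subgroup G) (J : Subgroup ↥V) :
    finrank (ZMod p) (HomR p (R.subgroupOf V) J) =
      finrank (ZMod p) (HomR p R (J.map V.subtype)) := by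
  refine LinearEquiv.finrank_eq (R := ZMod p) ?_
  exact
    { toFun := fun f => ⟨fun x => (f : ↥J → ZMod p) ((SubIso V J).symm x),
        ⟨f.2.1.1.comp_continuous (SubIso_symm_cont V J), fun x y => by
          simpa using f.2.1.2 ((SubIso V J).symm x) ((SubIso V J).symm y)⟩,
        fun x hx => f.2.2 _ (Subgroup.mem_subgroupOf.2 hx)⟩
      invFun := fun f => ⟨fun x => (f : ↥(J.map V.subtype) → ZMod p) (SubIso V J x),
        ⟨f.2.1.1.comp_continuous (SubIso_cont V J), fun x y => by
          simpa using f.2.1.2 (SubIso V J x) (SubIso V J y)⟩,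
        fun x hx => f.2.2 _ (Subgroup.mem_subgroupOf.1 hx)⟩
      map_add' := fun f g => rfl
      map_smul' := fun c f => rfl
      left_inv := fun f => by ext x; simp
      right_inv := fun f => by ext x; simp }

/-- the closed normal subgroup of relators is normal -/
instance Rel.normal {I : Type} (r : I → G) (e : I → ℕ) : (Rel p r e).Normal :=
  Subgroup.is_normal_topologicalClosure _

theorem Rel.closed {I : Type} (r : I → G) (e : I → ℕ) : IsClosed (Rel p r e : Set G) :=
  Subgroup.isClosed_topologicalClosure _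

theorem Rel.mem {I : Type} (r : I → G) (e : I → ℕ) (i : I) : r i ^ p ^ e i ∈ Rel p r e :=
  Subgroup.le_topologicalClosure _ (Subgroup.subset_normalClosure ⟨i, rfl⟩)

/-- two continuous homomorphisms on `R` agreeing on all conjugates of the relators are equal -/
theorem Rel.hom_ext {I : Type} {M : Type} [AddCommGroup M] [TopologicalSpace M] [T2Space M]
    (r : I → G) (e : I → ℕ) (f g : G → M)
    (hf : ContinuousOn f (Rel p r e : Set G)) (hg : ContinuousOn g (Rel p r e : Set G))
    (hf' : ∀ x ∈ Rel p r e, ∀ y ∈ Rel p r e, f (x * y) = f x + f y)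
    (hg' : ∀ x ∈ Rel p r e, ∀ y ∈ Rel p r e, g (x * y) = g x + g y)
    (h : ∀ (i : I) (x : G), f (x * r i ^ p ^ e i * x⁻¹) = g (x * r i ^ p ^ e i * x⁻¹)) :
    ∀ x ∈ Rel p r e, f x = g x := by
  have hR1 := (Rel p r e).one_mem
  have hone : ∀ u : G → M, (∀ x ∈ Rel p r e, ∀ y ∈ Rel p r e, u (x * y) = u x + u y) →
      u 1 = 0 := by
    intro u hu
    have := hu 1 hR1 1 hR1
    rw [mul_one] at this
    exact left_eq_add.1 this
  have hinv : ∀ u : G → M, (∀ x ∈ Rel p r e, ∀ y ∈ Rel p r e, u (x * y) = u x + u y) →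
      ∀ x ∈ Rel p r e, u x⁻¹ = - u x := by
    intro u hu x hx
    have := hu x hx _ ((Rel p r e).inv_mem hx)
    rw [mul_inv_cancel, hone u hu] at this
    exact (neg_eq_of_add_eq_zero_right this.symm).symm
  let E : Subgroup G :=
    { carrier := {x | x ∈ Rel p r e ∧ f x = g x}
      one_mem' := ⟨hR1, by rw [hone f hf', hone g hg']⟩
      mul_mem' := fun {a b} ha hb => ⟨(Rel p r e).mul_mem ha.1 hb.1, by
        rw [hf' a ha.1 b hb.1, hg' a ha.1 b hb.1, ha.2, hb.2]⟩
      inv_mem' := fun {a} ha => ⟨(Rel p r e).inv_mem ha.1, by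
        rw [hinv f hf' a ha.1, hinv g hg' a ha.1, ha.2]⟩ }
  have hEc : IsClosed (E : Set G) := by
    have h1 : IsClosed {x : ↥(Rel p r e) | f x = g x} :=
      isClosed_eq (continuousOn_iff_continuous_restrict.1 hf)
        (continuousOn_iff_continuous_restrict.1 hg)
    have h2 := (Rel.closed (p := p) r e).isClosedEmbedding_subtypeVal.isClosedMap _ h1
    convert h2 using 1
    ext x
    constructor
    · rintro ⟨hx, hx'⟩
      exact ⟨⟨x, hx⟩, hx', rfl⟩
    · rintro ⟨y, hy, rfl⟩
      exact ⟨y.2, hy⟩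
  have hle : Rel p r e ≤ E := by
    refine Subgroup.topologicalClosure_minimal _ ?_ hEc
    refine (Subgroup.closure_le _).2 ?_
    intro y hy
    obtain ⟨a, ⟨i, rfl⟩, ha⟩ := Group.mem_conjugatesOfSet_iff.1 hy
    obtain ⟨c, rfl⟩ := isConj_iff.1 ha
    exact ⟨(Rel.normal (p := p) r e).conj_mem _ (Rel.mem r e i) c, h i c⟩
  exact fun x hx => (hle hx).2

end Pool.Agent.RFA
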